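import Pool.Agent.P.MP_e4ac67_pr.G.Red
import Pool.Agent.P.MP_e4ac67_pr.V.TubeL

/-! The tube of a vertex as a `Tube`. -/

open scoped ENNReal

namespace Pool.Agent.P.MP_e4ac67_pr.Gr

theorem r_typ {G : Grid} {n : ℕ} {x y s : ℤ} {o : Bool} (hc : G.Ch n x y)
    (hs : s = sg o * (y - G.fst n x o)) :
    (∀ d, 0 < d → d < s → ¬Two G.A (n + 1) (out o y d)) ∧ Two G.A (n + 1) (out o y s) ∧
    ¬Two G.A (n + 1) (out o y (s + 1)) ∧
    (Two G.A (n + 1) (out o y (s + 2)) → Two G.A n (out o x 1)) ∧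
    (1 ≤ s → Two G.A (n + 1) y → 2 ≤ s ∧ (s = 2 → Two G.A n x)) := by
  obtain ⟨c1, c2⟩ := hc
  have g0 := G.gap2 n x
  have g1 := G.gap2 n (out o x 1)
  have g2 := G.gap3 n (out o x 1)
  refine ⟨fun d d1 d2 => G.not_two (x := x) ?_ ?_, ⟨cond o (x - 1) x, ?_⟩,
    G.not_two (x := out o x 1) ?_ ?_, fun h => by_contra fun e => G.not_two (x := out o x 1) ?_ ?_ h,
    fun h1 h2 => ?_⟩
  rotate_right
  · have e : G.A n x - G.A n (x - 1) = s := by
      by_contra e
      refine G.not_two (x := x) ?_ ?_ h2 <;> cases o <;> simp only [sg, Grid.fst] at hs <;> omega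
    exact ⟨by omega, fun h => by_contra fun e' => by have := G.gap3 n x e'; omega⟩
  all_goals (try have := g2 e); cases o <;>
    simp only [out, sg, Grid.fst, cond_true, cond_false] at * <;> ring_nf at * <;> omega

section
variable (G : Grid) (o : Bool) (r : ℕ → ℤ)

/-- distance from the chain to the first child of the parent -/
def sd1 (n : ℕ) : ℤ := sg o * (r n - G.fst (n - 1) (r (n - 1)) o)

open Classical in
noncomputable def stOf (n : ℕ) : ℕ :=
  if n = 0 then 3 else if sd1 G o r n = 1 then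
    (if sd1 G o r (n + 1) = 1 then 0 else if 2 ≤ n ∧ sd1 G o r (n - 1) = 1 then 4 else 1)
  else if sd1 G o r n = 2 then (if Two G.A n (r n) then 5 else 2) else 3

/-- the meaning of the states -/
def Dsc (n t : ℕ) : Prop := (t = 3 ∧ (n = 0 ∨ 3 ≤ sd1 G o r n)) ∨ 1 ≤ n ∧
  ((t = 5 ∧ sd1 G o r n = 2 ∧ Two G.A n (r n)) ∨ (t = 2 ∧ sd1 G o r n = 2) ∨
    ((t = 9 ∨ t = 6) ∧ sd1 G o r n = 1 ∧ Two G.A (n - 1) (r (n - 1))) ∨
    (t = 0 ∧ sd1 G o r n = 1) ∨ (t = 7 ∧ 2 ≤ sd1 G o r n) ∨ t = 8 ∨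
    (t = 4 ∧ sd1 G o r n = 1 ∧ 2 ≤ n ∧ sd1 G o r (n - 1) = 1) ∨
    (t = 1 ∧ sd1 G o r n = 1 ∧ ¬(2 ≤ n ∧ sd1 G o r (n - 1) = 1)))

variable {G o r} {L : ℕ} (hc : ∀ n < L, G.Ch n (r n) (r (n + 1)))
  (hp : ∀ n, 1 ≤ n → n ≤ L → 1 ≤ sd1 G o r n)
include hp

theorem dsc_st {n : ℕ} (h : n ≤ L) : Dsc G o r n (stOf G o r n) := by
  have := hp n
  unfold Dsc stOf
  split_ifs <;> simp [*] <;> omega

include hc in
theorem side_of {st : ℕ → ℕ} (h1 : ∀ n < L, st n = stOf G o r n) (h2 : Dsc G o r L (st L)) :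
    Side G L o r st := by
  have D : ∀ n ≤ L, Dsc G o r n (st n) := fun n h => by
    rcases h.lt_or_eq with e | rfl
    exacts [h1 n e ▸ dsc_st hp h, h2]
  have ty := fun n h => r_typ (o := o) (s := sd1 G o r (n + 1)) (hc n h) rfl
  have tw : ∀ n < L, Two G.A n (r n) → st n = 3 ∨ st n = 5 := fun n h e => by
    obtain _ | n := n
    · exact e.elim
    have := ((ty n (by omega)).2.2.2.2 (hp _ (by omega) h.le) e).1
    rw [h1 _ h, stOf]
    split_ifs <;> omega
  refine ⟨fun n h d d1 => ?_, hc, fun n h => ?_, fun n h => ?_, fun n h => ?_⟩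
  · rcases (by omega : 4 ≤ d ∨ d ≤ 3) with d2 | d2
    · exact alD_big _ d2 _
    obtain _ | n := n
    · obtain ⟨e, -⟩ := (D 0 h).resolve_right (by omega)
      rw [e, tyb_false.2 (show ¬Two G.A 0 _ from id)]
      interval_cases d <;> rfl
    obtain ⟨t1, t2, t3, t4, -⟩ := ty n (by omega)
    have t5 : ¬(2 ≤ n + 1 ∧ sd1 G o r n = 1) → ¬Two G.A n (out o (r n) 1) := fun e => by
      obtain _ | n := n
      · exact id
      · have := hp (n + 1) (by omega) (by omega)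
        exact (ty n (by omega)).1 1 (by omega) (by omega)
    have t6 : Two G.A n (r n) → ¬Two G.A n (out o (r n) 1) := fun e e' => by
      cases o
      · exact G.two_succ n _ e (by simpa [out, sg] using e')
      · exact G.two_succ n _ e' (by simpa [out, sg] using e)
    have a1 := t1 1
    have a2 := t1 2
    rcases D (n + 1) h with ⟨e, e'⟩ | ⟨-, ⟨e, e', -⟩ | ⟨e, e'⟩ | ⟨e | e, e', e''⟩ | ⟨e, e'⟩ | ⟨e, e'⟩ | e |
      ⟨e, e', -⟩ | ⟨e, e', e''⟩⟩ <;> rw [e] <;> interval_cases d <;>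
      simp only [alD, wof, tyb_true, tyb_false, Bool.not_eq_true', Nat.cast_zero, zero_add,
        Nat.cast_one, Nat.cast_ofNat] <;> (try rw [e'] at t2 t3 t4) <;> first
      | exact a1 (by omega) (by omega) | exact a2 (by omega) (by omega) | exact t2 | exact t3
      | exact fun c => t6 e'' (t4 c) | exact fun c => t5 e'' (t4 c)
  · have t1 := tw n h
    have t2 := fun a b => ((ty n h).2.2.2.2 a b).2
    have t3 := hp (n + 1)
    rcases D (n + 1) h with ⟨e, e'⟩ | ⟨-, ⟨e, e', e''⟩ | ⟨e, e'⟩ | ⟨e | e, e', e''⟩ | ⟨e, e'⟩ | ⟨e, e'⟩ | e |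
      ⟨e, e', e''⟩ | ⟨e, e', e''⟩⟩ <;> rw [e] <;>
      simp only [okT, Bool.or_eq_true, Bool.and_eq_true, Nat.beq_eq, Nat.ble_eq] <;> first
      | exact t1 e'' | exact t1 (t2 (by omega) e'' e')
      | (rw [h1 n h, stOf]; (try simp only [Nat.add_sub_cancel] at e''); split_ifs <;> omega)
  · have := hp (n + 1) (by omega) h
    show _ ≤ sd1 G o r (n + 1)
    rcases D (n + 1) h with ⟨e, e'⟩ | ⟨-, ⟨e, e', -⟩ | ⟨e, e'⟩ | ⟨e | e, e', -⟩ | ⟨e, e'⟩ | ⟨e, e'⟩ | e |
      ⟨e, e', -⟩ | ⟨e, e', -⟩⟩ <;> rw [e] <;> simp only [Sof] <;> omega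
  · show _ → sd1 G o r (n + 1) = _
    rcases D (n + 1) h with ⟨e, e'⟩ | ⟨-, ⟨e, e', -⟩ | ⟨e, e'⟩ | ⟨e | e, e', -⟩ | ⟨e, e'⟩ | ⟨e, e'⟩ | e |
      ⟨e, e', -⟩ | ⟨e, e', -⟩⟩ <;> rw [e] <;> simp [Sof, exo] <;> omega

end

/-- the two chains of ancestors, indexed by the level -/
noncomputable def Grid.ro (G : Grid) (z : Pt) (o : Bool) (n : ℕ) : ℤ :=
  cond o (G.an z (z.1 - n)) (G.ar z (z.1 - n))

/-- `T` is the tube of `z` -/
structure Tube.Real {G : Grid} (T : Tube G) (z : Pt) : Prop where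
  ez : z = (T.l + 1, T.z)
  er : ∀ o, T.r o = G.ro z o
  ew : ∀ o n, n ≤ T.l → (wof (T.st o n) = 1 ↔ cond o (G.AddL z (z.1 - n)) (G.AddR z (z.1 - n)))
  et : ∀ o, wof (T.st o (T.l + 1)) = 1 ↔ G.tau z = 0 ∧ (G.sL z 0 = 1 ↔ o = true)
  top : (G.tau z = 1 ∧ (T.st true (T.l + 1), T.st false (T.l + 1)) ∈ [(3, 3), (3, 5), (5, 3)]) ∨
    (G.tau z = 0 ∧ G.sL z 0 = 1 ∧ (T.st true (T.l + 1), T.st false (T.l + 1)) ∈ [(9, 6), (0, 7)]) ∨
    (G.tau z = 0 ∧ G.sL z 0 ≠ 1 ∧ (T.st true (T.l + 1), T.st false (T.l + 1)) = (7, 8))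

theorem sd1_eq {G : Grid} {z : Pt} (o : Bool) {n i : ℕ} (h : z.1 = n + 1 + i) :
    sd1 G o (G.ro z o) (n + 1) = cond o (G.sL z i) (G.sR z i) := by
  have e1 : z.1 - (n + 1) = i := by omega
  have e2 : z.1 - n = i + 1 := by omega
  have e3 : z.1 - (i + 1) = n := by omega
  cases o <;> simp [sd1, Grid.ro, Grid.sL, Grid.sR, sg, Grid.fst, e1, e2, e3]

theorem exists_real (G : Grid) {z : Pt} (hz : 1 ≤ z.1) : ∃ T : Tube G, T.Real z := by
  classical
  obtain ⟨l, e1⟩ : ∃ l, z.1 = l + 1 := ⟨z.1 - 1, by omega⟩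
  have hc : ∀ o, ∀ n < l + 1, G.Ch n (G.ro z o n) (G.ro z o (n + 1)) := fun o n h => by
    have := Grid.cn_ch (G := G) (z := z) (!o) (z.1 - (n + 1))
    simp only [Grid.cn, show z.1 - (n + 1) + 1 = z.1 - n by omega,
      show z.1 - (z.1 - n) = n by omega] at this
    cases o <;> exact this
  have hp : ∀ o n, 1 ≤ n → n ≤ l + 1 → 1 ≤ sd1 G o (G.ro z o) n := fun o n a b => by
    obtain ⟨n, rfl⟩ : ∃ m, n = m + 1 := ⟨n - 1, by omega⟩
    rw [sd1_eq o (i := l - n) (by omega)]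
    cases o
    exacts [Grid.sR_pos _ _, Grid.sL_pos _ _]
  have e0 : ∀ o, G.ro z o (l + 1) = z.2 := fun o => by cases o <;> simp [Grid.ro, e1, Grid.an, Grid.ar]
  have s0 := fun o => sd1_eq (G := G) (z := z) o (n := l) (i := 0) e1
  have ty := fun o => r_typ (o := o) (s := sd1 G o (G.ro z o) (l + 1)) (hc o l (by omega)) rfl
  have a1 := Grid.an_one (G := G) hz
  have t1 : G.tau z = 1 ↔ Two G.A (l + 1) z.2 := by
    rw [Grid.tau, e1]; split_ifs with e <;> simp [e]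
  have t2 := G.tau_le z
  have pL := Grid.sL_pos (G := G) z 0
  have pR := Grid.sR_pos (G := G) z 0
  have t3 := fun o h => (ty o).2.2.2.2 (hp o _ (by omega) le_rfl) (e0 o ▸ t1.1 h)
  simp only [s0] at t3
  have t4 : G.tau z = 1 → ¬(G.sL z 0 = 2 ∧ G.sR z 0 = 2) := fun h e =>
    G.two_succ l _ ((t3 true h).2 e.1) (by
      have := (t3 false h).2 e.2
      simp only [Grid.ro, e1, cond_true, cond_false, Nat.add_sub_cancel_left] at this ⊢
      rwa [a1.2, h] at this)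
  have t5 : G.tau z = 0 → G.sL z 0 = 1 → G.sR z 0 = 1 → ∀ o, Two G.A l (G.ro z o l) := by
    intro h a b o
    have e : G.ro z o l = G.an z 1 := by cases o <;> simp [Grid.ro, e1, a1.2, h]
    rw [e]
    by_contra c
    have := G.gap3 l _ c
    rw [Grid.sL, zero_add, e1, Nat.add_sub_cancel, Grid.an] at a
    rw [Grid.sR, zero_add, e1, Nat.add_sub_cancel, Grid.ar, a1.2, h, Nat.cast_zero, add_zero] at b
    omega
  let tp : Bool → ℕ := fun o => if G.tau z = 1 then (if cond o (G.sL z 0) (G.sR z 0) = 2 then 5 else 3)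
    else if G.sL z 0 = 1 then (if G.sR z 0 = 1 then cond o 9 6 else cond o 0 7) else cond o 7 8
  refine ⟨⟨l, z.2, G.ro z, fun o n => if n ≤ l then stOf G o (G.ro z o) n else tp o, fun o =>
    side_of (hc o) (hp o) (fun n h => if_pos (by omega)) ?_, e0, fun n _ => (Grid.an_ar z _).1⟩,
    Prod.ext e1 rfl, fun _ => rfl, fun o n h => ?_, fun o => ?_, ?_⟩
  · have := t3 o
    have := fun a b c => t5 a b c o
    simp only [Dsc, s0, e0, ← t1, tp, if_neg (show ¬l + 1 ≤ l by omega), Nat.add_sub_cancel]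
    cases o <;> simp only [cond_true, cond_false] at * <;> split_ifs <;> grind
  · simp only at h ⊢
    rw [if_pos h]
    obtain _ | n := n
    · cases o <;> simp [stOf, wof, Grid.AddL, Grid.AddR, e1]
    obtain ⟨i, rfl⟩ : ∃ i, l = n + 1 + i := ⟨l - (n + 1), by omega⟩
    have b1 := sd1_eq (G := G) (z := z) o (n := n) (i := i + 1) (by omega)
    have b2 := sd1_eq (G := G) (z := z) o (n := n + 1) (i := i) (by omega)
    have b3 : 1 ≤ n → sd1 G o (G.ro z o) n = cond o (G.sL z (i + 2)) (G.sR z (i + 2)) := fun a => by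
      obtain ⟨n, rfl⟩ : ∃ m, n = m + 1 := ⟨n - 1, by omega⟩
      exact sd1_eq o (by omega)
    rw [show z.1 - (n + 1) = i + 1 by omega, stOf, b1, b2, Nat.add_sub_cancel]
    cases o <;> simp only [Grid.AddL, Grid.AddR, cond_true, cond_false, e1, Nat.add_sub_cancel]
      at b3 ⊢ <;> split_ifs <;> simp only [wof] <;> grind
  · simp only [tp, if_neg (show ¬l + 1 ≤ l by omega)]
    cases o <;> simp only [cond_true, cond_false] <;> split_ifs <;> simp only [wof] <;> grind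
  · have := t3 true
    have := t3 false
    simp only [tp, if_neg (show ¬l + 1 ≤ l by omega), cond_true, cond_false] at *
    split_ifs <;> grind

namespace Tube.Real
open Grid
variable {G : Grid} {T : Tube G} {z v : Pt} (h : T.Real z)
include h

theorem lev : z.1 = T.l + 1 := congrArg Prod.fst h.ez
theorem snd : z.2 = T.z := congrArg Prod.snd h.ez

theorem tz : T.Tz v ↔ Wz G.Tb z v := by
  obtain ⟨n, x⟩ := v
  have e1 := h.lev
  have e2 := h.snd
  have w1 := wof_le (T.st true n)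
  have w2 := wof_le (T.st false n)
  have a := an_ar (G := G) z (z.1 - n)
  simp only [Tube.Tz, Tube.Free, Wz, Grid.Tb, h.er, ro, cond_true, cond_false, sg, Prod.ext_iff]
  rcases lt_trichotomy n (T.l + 1) with e | e | e
  · have b1 := h.ew true n (by omega)
    have b2 := h.ew false n (by omega)
    have := (lt1_lev (G := G) z).1
    simp only [cond_true, cond_false] at b1 b2
    refine ⟨fun c => Or.inr (Or.inl ⟨z.1 - n, by omega, by omega, by grind⟩), ?_⟩
    rintro (c | ⟨i, -, c, c'⟩ | c)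
    · omega
    · obtain rfl : i = z.1 - n := by omega
      grind
    · omega
  · subst e
    have b1 := h.et true
    have b2 := h.et false
    simp only [e1, Nat.sub_self, an, ar, lt1]
    refine ⟨fun c => ?_, ?_⟩
    · split_ifs <;> grind
    · rintro (c | ⟨i, c, c', -⟩ | c)
      · omega
      · omega
      · split_ifs at c <;> grind
  · have := (lt1_lev (G := G) z).1
    refine ⟨fun c => by omega, ?_⟩
    rintro (c | ⟨i, -, c, -⟩ | c) <;> omega

theorem fit (h3 : 3 ≤ z.1) : Fit z T :=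
  ⟨h3, h.ez, fun _ => h.tz, fun _ _ => by rw [h.er]; rfl, fun _ _ => by rw [h.er]; rfl,
    by simpa [h.lev] using h.et true, by simpa [h.lev] using h.et false⟩

end Tube.Real

/-- the tube of `z` and the states of its two sides on the level of `z` -/
theorem exists_tube (G : Grid) {z : Pt} (hz : 3 ≤ z.1) : ∃ T : Tube G, Fit z T ∧
    ((G.tau z = 1 ∧ (T.st true (T.l + 1), T.st false (T.l + 1)) ∈ [(3, 3), (3, 5), (5, 3)]) ∨
    (G.tau z = 0 ∧ G.sL z 0 = 1 ∧ (T.st true (T.l + 1), T.st false (T.l + 1)) ∈ [(9, 6), (0, 7)]) ∨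
    (G.tau z = 0 ∧ G.sL z 0 ≠ 1 ∧ (T.st true (T.l + 1), T.st false (T.l + 1)) = (7, 8))) :=
  (exists_real G (by omega)).imp fun _ h => ⟨h.fit hz, h.top⟩

end Pool.Agent.P.MP_e4ac67_pr.Gr
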