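import Pool.Agent.P.MP_e4ac67_pr.G.RedSaw
import Pool.Agent.P.MP_e4ac67_pr.G.Real
import Pool.Agent.P.MP_e4ac67_pr.X.ExitD
import Pool.Agent.P.MP_e4ac67_pr.S.End
import Pool.Agent.P.MP_e4ac67_pr.Mu7

/-! From the tables to the comparison of the connective constants. -/

open scoped ENNReal
open Finset

namespace Pool.Agent.P.MP_e4ac67_pr.Gr
variable {w : NW (Fin 3)} {M : MK (Fin 3)} {t pw : Fin 3 → ℕ} {ti : ℕ}

/-- the four sums on each side; `a` bounds the lateral start, `b` the others -/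
def SawSt (w : NW (Fin 3)) (M : MK (Fin 3)) (t pw : Fin 3 → ℕ) (ti m : ℕ) {G : Grid} (T : Tube G)
    (a b : ℕ → Bool → ℕ) : Prop := ∀ o,
  (spL w (fun _ => NN) t o).Starts T 0 NN ti ti (a 0 o) (b 0 o) ∧
  (spL w (fun _ => NN) t o).Starts T 2 NN ti ti (a 1 o) (b 1 o) ∧
  (spS w m NN t true pw o).Starts T 0 NN ti ti (a 2 o) (b 2 o) ∧
  (M.spC 0 o).Starts T 2 NN ti ti (a 3 o) (b 3 o)

def sawW (a : ℕ → Bool → ℕ) (o : Bool) : ℕ := 3038 * (a 1 o + a 3 o) + 10000 * a 2 o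

def sawT (sl sr : ℕ) (o : Bool) : Bool :=
  if wof sl = 1 then true else if wof sr = 1 then false else !o

def sawL (sl sr : ℕ) (a b : ℕ → Bool → ℕ) (s o : Bool) : ℕ :=
  cond (s == !o) (sawW a o) 0 + cond (s == sawT sl sr o) (sawW b o) 0

def sawF (a b : ℕ → Bool → ℕ) (o : Bool) : ℕ := a 0 o + b 0 o + (a 2 o + b 2 o)

/-- the final inequalities for the top states `sl`, `sr` -/
def sawChk (sl sr : ℕ) (a b : ℕ → Bool → ℕ) (K : ℕ) : Bool :=
  Nat.ble (sawF a b true + sawF a b false + K) NN &&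
    allB fun s => Nat.ble (sawL sl sr a b s true + sawL sl sr a b s false) (1840 * K)

theorem vv_add (a b : ℕ) : vv a + vv b = vv (a + b) := vk_add 1 a b

theorem ind_cond {s u : Bool} (a : ℕ) :
    ind (some s = none ∨ some s = some u) * vv a = vv (cond (s == u) a 0) := by
  cases s <;> cases u <;> simp [ind, vv, vk_zero]

theorem saw_at {G : Grid} {z : Pt} {T : Tube G} {k : ℕ} {iv : ℝ≥0∞} (hT : Fit z T) (h7 : 7 ≤ k)
    (h3 : 3 ≤ G.gap z) (H : SawW (23 / 125) iv w M t pw) (h1 : 1 ≤ iv) (hi : iv ≤ vv ti)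
    {a b : ℕ → Bool → ℕ} {K : ℕ} (S : SawSt w M t pw ti (6 - G.tau z) T a b)
    (c : sawChk (T.st true (T.l + 1)) (T.st false (T.l + 1)) a b K = true) :
    G.freeS (sawNm (23 / 125) iv) (3038 / 10000) z + vv K ≤ 1 ∧
      ∀ s, G.chgS k (sawNm (23 / 125) iv) (3038 / 10000) z s ≤ vv K * (23 / 125) := by
  simp only [sawChk, Bool.and_eq_true, Nat.ble_eq] at c
  have e0 := fun (R : Spec (Fin 3)) q a b (h : R.Starts T q NN ti ti a b) =>
    hT.sum_le (P := sawNm (23 / 125) iv) (cl := 1) (s := none) h vv_NN.ge (h1.trans hi) (h1.trans hi)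
  have e1 := fun (s : Bool) (R : Spec (Fin 3)) q a b (h : R.Starts T q NN ti ti a b) =>
    hT.sum_le (P := sawNm (23 / 125) iv) (cl := 1) (s := some s) h vv_NN.ge hi hi
  have n0 : (10000 : ℝ≥0∞) ≠ 0 := by simp
  have n1 : (10000 : ℝ≥0∞) ≠ ⊤ := by simp
  refine ⟨le_trans ?_ ((vv_mono c.1).trans_eq vv_NN), fun s => ?_⟩
  · rw [← vv_add, ← vv_add, ← Fintype.sum_bool fun o => vv (sawF a b o)]
    refine add_le_add ((red_free_saw hT h7 H (ENNReal.div_le_of_le_mul (by norm_num))).trans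
      (sum_le_sum fun o _ => ?_)) le_rfl
    refine (add_le_add (e0 _ _ _ _ (S o).1) (e0 _ _ _ _ (S o).2.2.1)).trans_eq ?_
    simp only [one_mul, vv_add, sawF, true_or, ind_of trivial]
  have c2 := vv_mono (Nat.le_of_ble_eq_true (allB_spec c.2 s))
  rw [← ENNReal.mul_le_mul_iff_right n0 n1]
  refine le_trans ?_ (c2.trans_eq ?_)
  · rw [← vv_add, ← Fintype.sum_bool fun o => vv (sawL _ _ a b s o)]
    refine (mul_le_mul_right (red_chg_saw hT h7 h3 H s) _).trans ?_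
    rw [mul_sum]
    refine sum_le_sum fun o _ => ?_
    refine (mul_le_mul_right (add_le_add (mul_le_mul_right (add_le_add
      (e1 s _ _ _ _ (S o).2.1) (e1 s _ _ _ _ (S o).2.2.2)) _) (e1 s _ _ _ _ (S o).2.2.1)) _).trans_eq ?_
    rw [mul_add, ← mul_assoc, ENNReal.mul_div_cancel n0 n1, sawL, ← vv_add, ← ind_cond, ← ind_cond]
    simp only [sawW, vv, ← vk_add, vk_nat, spL, spS, MK.spC, Tube.tgW, Tube.w0, sawT]
    push_cast
    ring
  · rw [vv, vk_nat, mul_left_comm, mul_comm, vv]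
    congr 1
    rw [show (10000 : ℝ≥0∞) = 80 * 125 by norm_num, mul_assoc,
      ENNReal.mul_div_cancel (by simp) (by simp)]
    norm_num

/-- what the tables give: `tau`, and the top states -/
def SawAll (w : NW (Fin 3)) (M : MK (Fin 3)) (t pw : Fin 3 → ℕ) (ti : ℕ) : Prop :=
  ∀ x ∈ [(1, 3, 3), (1, 3, 5), (1, 5, 3), (0, 9, 6), (0, 0, 7), (0, 7, 8)], ∃ a b K,
    sawChk x.2.1 x.2.2 a b K = true ∧ ∀ (G : Grid) (T : Tube G), T.st true (T.l + 1) = x.2.1 →
      T.st false (T.l + 1) = x.2.2 → 4 - x.1 ≤ T.g → SawSt w M t pw ti (6 - x.1) T a b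

theorem tabS_of {k : ℕ} (h7 : 7 ≤ k) (H : SawW (23 / 125) (125 / 23) w M t pw)
    (hi : 125 / 23 ≤ vv ti) (h : SawAll w M t pw ti) :
    TabS k (23 / 125) (3038 / 10000) (125 / 23) (982 / 1000) := by
  refine ⟨hh_saw le_rfl, fun G => ⟨fun z hz hk => ?_, fun o _ _ => exit_saw G ?_ _ o⟩⟩
  · obtain ⟨T, hT, top⟩ := exists_tube G hz
    have e := hT.g
    have := G.tau_le z
    rw [Grid.dg] at hk
    obtain ⟨a, b, K, c, S⟩ := h (G.tau z, T.st true (T.l + 1), T.st false (T.l + 1)) (by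
      rcases top with ⟨e, c⟩ | ⟨e, -, c⟩ | ⟨e, -, c⟩ <;> rw [e] <;>
        simp only [List.mem_cons, Prod.mk.injEq, List.not_mem_nil] at c ⊢ <;> grind)
    exact ⟨_, saw_at hT h7 (by omega) H ((ENNReal.le_div_iff_mul_le (by simp) (by simp)).2
      (by norm_num)) hi (S G T rfl rfl (by simp only; omega)) c⟩
  · rw [ENNReal.div_le_iff (by simp) (by simp), ENNReal.div_eq_inv_mul, mul_assoc,
      ← ENNReal.div_eq_inv_mul, ENNReal.le_div_iff_mul_le (by simp) (by simp)]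
    norm_num

theorem mu_cmp (H : SawW (23 / 125) (125 / 23) w M t pw) (hi : 125 / 23 ≤ vv ti)
    (h : SawAll w M t pw ti) {V V' : Type} {T : PlaneTri V} {T' : PlaneTri V'} {k : ℕ} (h7 : 7 ≤ k)
    (hT : ∀ v, k ≤ T.deg v) (hT' : ∀ v, T'.deg v = k) (v : V) (v' : V') :
    connConst T'.G v' ≤ connConst T.G v := by
  have e : (23 / 125 : ℝ≥0∞)⁻¹ = 125 / 23 := ENNReal.inv_div (by simp) (by simp)
  have l : ∀ a b c d : ℕ, b ≠ 0 → d ≠ 0 → a * d < c * b → (a : ℝ≥0∞) / b < c / d := by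
    intro a b c d hb hd h
    rw [ENNReal.div_lt_iff (by simp [hb]) (by simp), ENNReal.div_eq_inv_mul, mul_assoc,
      ← ENNReal.div_eq_inv_mul, ENNReal.lt_div_iff_mul_lt (by simp) (by simp)]
    exact_mod_cast h
  refine saw_cmp h7 hT hT' (tabS_of h7 H hi h) (max_le e.le ?_) ?_ (by simp) (by simp [ENNReal.div_eq_top]) v v'
    (Or.inr (e.trans_lt (lt_of_lt_of_le ?_ (T'.mu_reg h7 hT' v'))))
  · exact_mod_cast (l 3038 10000 125 23 (by omega) (by omega) (by omega)).le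
  · exact ENNReal.div_lt_of_lt_mul (by norm_num)
  · exact_mod_cast l 125 23 109 20 (by omega) (by omega) (by omega)

end Pool.Agent.P.MP_e4ac67_pr.Gr
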