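import Pool.Agent.P.MP_e4ac67_pr.G.FitL

/-! The classes of arcs from the tube to the bonus vertex. -/

open scoped ENNReal
open Finset

namespace Pool.Agent.P.MP_e4ac67_pr.Gr
open Grid
variable {G : Grid} {z : Pt} {T : Tube G} {k : ℕ} {P : Nm} {Q : Type} [Fintype Q]

open Classical in
/-- The run `ρ` pays for the steps, ears and spokes; `C i` is an extra factor of the step `i`. -/
def Pays (P : Nm) (w : NW Q) (a : Q → ℕ) (n : ℕ) (ρ : ℕ → Q) (C : ℕ → ℝ≥0∞)
    (eo ee el : ℕ → Prop) : Prop :=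
  ¬el 0 ∧ ∀ i ≤ n, (C i * if eo i then P.p else 1) ≤ vv (w.wl (ρ i) (ρ (i + 1)) false) ∧ (1 ≤ i →
    ((C i * if eo i then P.p else 1) * if ee i then P.q else 1) ≤ vv (w.wl (ρ i) (ρ (i + 1)) true) ∧
      (if el i then P.q else 1) ≤ vv (a (ρ i)))

omit [Fintype Q] in
theorem prW_L (hT : Fit z T) {b : Pt} {I : List Pt} (hb : G.Tb z b) (hA : G.Arc z b I (G.cv z))
    {o : Bool} (hs : G.Rt z 4 (I.headD z) ↔ o = false) {w : NW Q} {a : Q → ℕ} (t : Q → ℕ)
    {ρ : ℕ → Q} {C : ℕ → ℝ≥0∞} {eo ee el : ℕ → Prop} (h : Pays P w a I.length ρ C eo ee el) :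
    (∏ i ∈ range (I.length + 1), C i) * G.wt P z b I (G.cv z) eo ee el *
      vv (t (ρ (I.length + 1))) ≤ (spL w a t o).prW T (I.length + 1) (vx b I (G.cv z)) ρ := by
  classical
  obtain ⟨a1, a2, a3, a4, a5⟩ := hA
  have hz : 1 ≤ z.1 := by have := hT.lev; omega
  have e0 := G.gap_eq z
  have e1 := G.gap2 z.1 z.2
  have e2 : G.cv z = (z.1 + 1, G.A z.1 (z.2 - 1) + (4 : ℕ) - 2) := G.nb_ch z (by omega) (by omega)
  have c1 : ¬Wz G.Tb z (G.cv z) := by
    rw [e2]
    rintro (e | e)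
    · simp [Prod.ext_iff] at e
    · have := ((tubeOK G).lev _ _ e).1; simp at this
  have c2 : G.Adj z (G.cv z) := by rw [e2, adj_iff]; simp only [true_and]; omega
  have c3 : min 8 (G.ps z (G.cv z)) = 4 := by rw [cv, ps_nb hz (by unfold dg; omega)]; rfl
  have off : ∀ i, 1 ≤ i → i ≤ I.length + 1 → ¬Wz G.Tb z (vx b I (G.cv z) i) := fun i h1 h2 => by
    rcases h2.lt_or_eq with e | rfl
    · exact a5 _ (vx_mem h1 (by omega))
    · rwa [vx_last]
  have ne : ∀ i, 1 ≤ i → i ≤ I.length → G.Adj z (vx b I (G.cv z) i) →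
      Nat.beq (min 8 (G.ps z (vx b I (G.cv z) i))) 4 = false := fun i h1 h2 e => by
    refine Bool.eq_false_iff.2 fun c => a3 ?_
    have := (ps_spec hz e).2
    rw [show G.ps z (vx b I (G.cv z) i) = 4 by have := Nat.eq_of_beq_eq_true c; omega] at this
    exact (show G.cv z = _ from this) ▸ vx_mem h1 h2
  rw [Spec.prW, vx_last, hT.term_ps _ c1, if_pos c2, c3]
  refine mul_le_mul' ?_ le_rfl
  simp only [Spec.sys, wt, ← mul_assoc]
  rw [prod_mul_distrib (f := fun i => _ * _ * _), prod_mul_distrib (f := fun i => _ * _), ← mul_assoc,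
    ← prod_mul_distrib]
  refine mul_le_mul' (prod_le_prod' fun i hi => ?_) ?_
  · have hi : i ≤ I.length := by simpa [Nat.lt_succ_iff] using hi
    obtain ⟨h1, h2⟩ := h.2 i hi
    rcases Nat.eq_zero_or_pos i with rfl | e
    · rw [ind_of, vx_zero, hT.ff_in _ _ (Or.inr hb), Spec.sw, if_pos rfl, tyb_false.2 (by simp [Ear])]
      · simpa [spL] using h1
      · exact hT.go_one (off 1 le_rfl (by omega)) (vx_head (b := b) (e := G.cv z) a4 ▸ hs)
    rw [ind_of (hT.go_off (off i e (by omega)) (off _ (by omega) (by omega))),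
      hT.ff_ps _ _ (off i e (by omega)), Spec.sw, if_neg e.ne', one_mul, ← mul_assoc]
    refine le_trans ?_ (le_mul_of_one_le_left' ?_)
    · by_cases c : G.Adj (vx b I (G.cv z) (i - 1)) (vx b I (G.cv z) (i + 1))
      · rw [tyb_true.2 ⟨_, rfl, c⟩]
        simpa only [c, show 1 ≤ i from e, and_true, spL] using (h2 e).1
      · rw [tyb_false.2 (by simpa [Ear] using c)]
        simpa only [c, and_false, if_false, mul_one, spL] using h1
    · split_ifs with c
      · simp [spL, ne i e hi c, cc, vv_NN]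
      · rfl
  · rw [prod_range_succ', prod_range_succ, if_neg (fun c => h.1 c.1), vx_last, hT.ff_ps _ _ c1,
      if_pos c2, c3]
    refine mul_le_mul' (prod_le_prod' fun i hi => ?_) vv_NN.ge
    have hi : i + 1 ≤ I.length := by simpa using hi
    rw [hT.ff_ps _ _ (off _ (by omega) (by omega))]
    by_cases c : G.Adj z (vx b I (G.cv z) (i + 1))
    · simpa [c, spL, ne _ (by omega) hi c, cc] using ((h.2 _ hi).2 (by omega)).2
    · simp [c]

/-- families of arcs with a mark `x` that is determined by the run -/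
theorem famL (hT : Fit z T) {w : NW Q} {a t : Q → ℕ} {q : Q} (W : Pt → List Pt → ℕ → ℝ≥0∞)
    (ρ : ℕ → ℕ → ℕ → Q) (N : ℕ → ℕ)
    (hρ : ∀ n x y, x < y → y ≤ N n → ∃ i ≤ n + 1, ρ n x i ≠ ρ n y i)
    (hW : ∀ b I x, W b I x ≠ 0 → G.Arc z b I (G.cv z) ∧ x ≤ N I.length ∧ ρ I.length x 0 = q ∧
      ∃ C c eo ee el, W b I x ≤ c * G.wt P z b I (G.cv z) eo ee el ∧
        c ≤ (∏ i ∈ range (I.length + 1), C i) * vv (t (ρ I.length x (I.length + 1))) ∧
        Pays P w a I.length (ρ I.length x) C eo ee el) (s : Option Bool) :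
    G.sT P z s (fun b I => ∑' x, W b I x) ≤ ∑ o, T.sum P (spL w a t o) q 1 1 s := by
  refine hT.sT_le2 (fun _ => rfl) (fun b I _ e => ?_) (fun o b hb => ?_) s
  · obtain ⟨x, hx⟩ := not_forall.1 (mt ENNReal.tsum_eq_zero.2 e)
    obtain ⟨a1, -, -, a4, a5⟩ := (hW b I x hx).1
    have := List.length_pos_iff.2 a4
    rw [vx_head (b := b) (e := G.cv z) a4]
    exact ⟨vx_adj a1 (Nat.zero_le _), a5 _ (vx_mem le_rfl this)⟩
  simp only [ite_self, ← ENNReal.tsum_mul_left]
  rw [← ENNReal.tsum_prod (f := fun I x => ind (G.Rt z 4 (I.headD z) ↔ o = false) * W b I x)]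
  refine Spec.le_loops _ T _ (fun y => y.1.length + 1) (fun y => vx b y.1 (G.cv z))
    (fun y => ρ y.1.length y.2) q b 1 (fun ⟨I, x⟩ ⟨J, y⟩ hx hy e1 e2 => ?_) fun ⟨I, x⟩ hx => ?_
  · obtain rfl : I = J := vx_ext (by simpa using e1) fun i hi => (e2 i (by simp only; omega)).1
    obtain ⟨-, a1, a2, -⟩ := hW b I x (right_ne_zero_of_mul hx)
    obtain ⟨-, a3, a4, -⟩ := hW b I y (right_ne_zero_of_mul hy)
    have e : ∀ i ≤ I.length + 1, ρ I.length x i = ρ I.length y i := fun i hi => by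
      cases i with
      | zero => rw [a2, a4]
      | succ i => exact (e2 i hi).2
    rcases lt_trichotomy x y with c | rfl | c
    · obtain ⟨i, h1, h2⟩ := hρ _ x y c a3
      exact absurd (e i h1) h2
    · rfl
    · obtain ⟨i, h1, h2⟩ := hρ _ y x c a1
      exact absurd (e i h1).symm h2
  · obtain ⟨hA, -, a2, C, c, eo, ee, el, a4, a5, a3⟩ := hW b I x (right_ne_zero_of_mul hx)
    refine ⟨rfl, a2, fun i hi => vx_adj hA.1 (Nat.le_of_lt_succ hi), fun i hi j hj e => ?_, ?_⟩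
    · have := vx_inj hA.2.1 hA.2.2.1 (by omega) hi (by omega) hj e
      omega
    · rw [one_mul]
      exact ind_mul_le fun hs => a4.trans (((mul_le_mul_left a5 _).trans_eq
        (mul_right_comm ..)).trans (prW_L hT hb hA hs t a3))

theorem prod_at {n j : ℕ} (h : j ≤ n) (c : ℝ≥0∞) :
    ∏ i ∈ range (n + 1), (if i = j then c else 1) = c := by
  rw [prod_ite_eq', if_pos (mem_range.2 (by omega))]

/-- one more index for the arcs without a mark -/
theorem sT_opt (s : Option Bool) (F : Pt → List Pt → ℝ≥0∞) (X : Pt → List Pt → ℕ → ℝ≥0∞) (d : ℕ) :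
    G.sT P z s F + G.sT P z s (fun b I => ∑' x, X b I x) =
      G.sT P z s fun b I => ∑' x, (ind (x = I.length + d) * F b I + X b I x) := by
  rw [← sT_add]
  refine congrArg _ (funext₂ fun b I => ?_)
  rw [ENNReal.tsum_add, tsum_eq_single (I.length + d) (f := fun x => ind _ * _) fun x e => by
    rw [ind_of_not e, zero_mul], ind_of rfl, one_mul]

theorem red_LX_bond (hT : Fit z T) {w : NW (Fin 3)} (hm : P.m = false) (s21 : Stp w 2 1 P.p 0)
    (s11 : Stp w 1 1 P.p P.q) (s10 : Stp w 1 0 (P.p * P.q) P.q) (s00 : Stp w 0 0 P.p P.q)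
    {a t : Fin 3 → ℕ} (a0 : P.q ≤ vv (a 0)) (a1 : 1 ≤ vv (a 1)) (t0 : 1 ≤ vv (t 0))
    (t1 : 1 ≤ vv (t 1)) (f : Bool) (s : Option Bool) :
    G.sT P z s (G.fL P z) + G.sT P z s (G.fX P f z) ≤ ∑ o, T.sum P (spL w a t o) 2 1 1 s := by
  refine (sT_opt s _ _ 1).trans_le (famL hT _
    (fun _ x i => if i = 0 then 2 else if i ≤ x then 1 else 0) (· + 1)
    (fun n x y h1 h2 => ⟨x + 1, by omega, by simp [Nat.succ_le_of_lt h1]⟩) (fun b I x hx => ?_) s)
  by_cases e : x = I.length + 1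
  · rw [ind_of e, ind_of_not (A := _ ∧ _) (by omega), zero_mul, add_zero, one_mul, fL] at hx ⊢
    refine ⟨of_ind_mul_ne hx, e.le, rfl, 1, 1, _, _, _, mul_le_mul_left (ind_le_one _) _,
      by simp [e, t1], id, fun i hi => ?_⟩
    have : i + 1 ≤ x := by omega
    obtain _ | i := i <;> simp [hm, this, s21.1, s11.1, s11.2, a1, Nat.le_of_succ_le this]
  · rw [ind_of_not e, zero_mul, zero_add] at hx ⊢
    obtain ⟨h1, h2, h3⟩ := of_ind_mul_ne hx
    refine ⟨h1, h3.trans (Nat.le_succ _), rfl, fun i => if i = x then P.p * bk P else 1, _, _, _, _,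
      ind_mul_le fun _ => le_rfl, ?_, by simp [hm], fun i hi => ?_⟩
    · rw [prod_at h3]
      simpa [show ¬I.length + 1 ≤ x by omega] using le_mul_of_one_le_right' t0
    rcases lt_trichotomy i x with c | rfl | c
    · obtain _ | i := i <;>
        simp [hm, c.ne, c.le, c.not_gt, Nat.succ_le_of_lt c, s21.1, s11.1, s11.2, a1]
    · simp [hm, bk, show i ≠ 0 by omega, s10.1, s10.2, a1]
    · simp [hm, c.ne', c, c.not_ge, show ¬i + 1 ≤ x by omega, show i ≠ 0 by omega, s00.1, s00.2, a0]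

/-- bond: `c = P.q`; site: `c = 1` -/
theorem red_S (hT : Fit z T) {w : NW Q} {s0 : Q} (s00 : Stp w s0 s0 P.p P.q) {a t : Q → ℕ}
    (a0 : P.q ≤ vv (a s0)) (t0 : 1 ≤ vv (t s0)) {c : ℝ≥0∞} (hc : c ≤ 1) (hc' : P.m = false → c ≤ P.q) :
    c * G.sT P z none (G.fS P z) ≤ ∑ o, T.sum P (spL w a t o) s0 1 1 none := by
  refine le_trans (le_of_eq ?_) (famL hT (fun b I x => ind (x = 0) * (c * G.fS P z b I))
    (fun _ _ _ => s0) 0 (fun n x y h1 h2 => by simp at h2; omega) (fun b I x hx => ?_) none)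
  · rw [sT, sT, ← ENNReal.tsum_mul_left]
    refine tsum_congr fun y => ?_
    rw [tsum_eq_single 0 fun x e => by rw [ind_of_not e, zero_mul], ind_of rfl]
    ring
  have h1 : G.Arc z b I (G.cv z) := of_ind_mul_ne (right_ne_zero_of_mul (right_ne_zero_of_mul hx))
  refine ⟨h1, (of_ind_mul_ne hx).le, rfl,
    fun i => (if i = 0 then P.p else 1) * if i = 1 then c else 1, P.p * c, _, _, _,
    ind_mul_le fun _ => (mul_le_mul_right (ind_mul_le fun _ => le_rfl) _).trans_eq
      ((mul_left_comm ..).trans (mul_assoc ..).symm), ?_, by simp, fun i hi => ?_⟩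
  · rw [prod_mul_distrib, prod_at (Nat.zero_le _), prod_at (List.length_pos_iff.2 h1.2.2.2.1)]
    exact le_mul_of_one_le_right' t0
  obtain _ | _ | i := i
  · simp [s00.1]
  · have e : ∀ x, c * x ≤ x := fun x => mul_le_of_le_one_left' hc
    cases hm : P.m
    · simpa [a0, (e _).trans s00.1] using
        ((mul_comm ..).trans_le (mul_le_mul_right (hc' hm) _)).trans s00.2
    · simpa [a0, (e _).trans s00.1, mul_assoc] using (e _).trans s00.2
  · simp [s00.1, s00.2, a0]

theorem red_LX_site (hT : Fit z T) {w : NW (Fin 4)} (hm : P.m = true) (hq : P.q = 0)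
    (s33 : Stp w 3 3 P.p 0) (s32 : Stp w 3 2 1 0) (s21 : Stp w 2 1 P.p 0) (s11 : Stp w 1 1 P.p 0)
    {a t : Fin 4 → ℕ} (a3 : 1 ≤ vv (a 3)) (t1 : 1 ≤ vv (t 1)) (t3 : 1 ≤ P.p * vv (t 3))
    (s : Option Bool) :
    G.sT P z s (G.fL P z) + G.sT P z s (G.fX P false z) ≤ ∑ o, T.sum P (spL w a t o) 3 1 1 s := by
  refine (sT_opt s _ _ 2).trans_le (famL hT _
    (fun _ x i => if i < x then 3 else if i = x then 2 else 1) (· + 2)
    (fun n x y h1 h2 => ⟨x, by omega, by simp [h1]⟩) (fun b I x hx => ?_) s)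
  by_cases e : x = I.length + 2
  · rw [ind_of e, ind_of_not (A := _ ∧ _) (by omega), zero_mul, add_zero, one_mul, fL] at hx ⊢
    refine ⟨of_ind_mul_ne hx, e.le, by simp [e], fun i => if i = I.length then P.p else 1, 1, _, _, _,
      mul_le_mul_left (ind_le_one _) _, by simpa [e, prod_at le_rfl] using t3, id, fun i hi => ?_⟩
    have : i + 1 < x := by omega
    simp only [if_pos this, if_pos (Nat.lt_of_succ_lt this)]
    by_cases c : i = I.length <;> simp [hm, hq, c, s33.1, a3]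
  · rw [ind_of_not e, zero_mul, zero_add] at hx ⊢
    obtain ⟨h1, h2, h3⟩ := of_ind_mul_ne hx
    refine ⟨h1, h3.trans (Nat.le_add_right ..), if_pos h2, fun i => if i = x then P.p * bk P else 1,
      _, _, _, _, ind_mul_le fun _ => le_rfl, ?_, by simp; omega, fun i hi => ?_⟩
    · rw [prod_at h3, if_neg (by omega), if_neg (by omega)]
      exact le_mul_of_one_le_right' t1
    rcases lt_trichotomy i x with c | rfl | c
    · by_cases c' : i + 1 = x
      · simp [hm, hq, c.ne, c.ne', c, c.not_gt, c', s32.1, a3]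
      · simp [hm, hq, c.ne, c.ne', c, c.not_gt, c', show i + 1 < x by omega, s33.1, a3]
    · simp [hm, hq, bk, s21.1]
    · simp [hm, hq, c.ne', c, c.not_gt, show ¬i + 1 < x by omega, show i + 1 ≠ x by omega, s11.1]

theorem red_Xt_site (hT : Fit z T) {w : NW (Fin 4)} (hm : P.m = true) (hq : P.q = 0)
    (s33 : Stp w 3 3 P.p 0) (s32 : Stp w 3 2 1 0) (s21 : Stp w 2 1 P.p 0) (s11 : Stp w 1 1 P.p 0)
    (s20 : Stp w 2 0 P.p 1) {a t : Fin 4 → ℕ} (a3 : 1 ≤ vv (a 3)) (t1 : 1 ≤ vv (t 1))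
    (t0 : 1 ≤ vv (t 0)) :
    G.sT P z none (G.fX P true z) ≤ ∑ o, T.sum P (spL w a t o) 3 1 1 none := by
  refine famL hT _ (fun n x i => if i < x then 3 else if i = x then 2 else if x = n then 0 else 1) id
    (fun n x y h1 h2 => ⟨x, h1.le.trans (h2.trans (Nat.le_succ _)), by simp [h1]⟩)
    (fun b I x hx => ?_) none
  obtain ⟨h1, h2, h3⟩ := of_ind_mul_ne hx
  refine ⟨h1, h3, if_pos h2, fun i => if i = x then P.p * bk P else 1,
    _, _, _, _, ind_mul_le fun _ => le_rfl, ?_, by simp; omega, fun i hi => ?_⟩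
  · rw [prod_at h3, if_neg (by omega), if_neg (by omega)]
    exact le_mul_of_one_le_right' (by split_ifs <;> assumption)
  rcases lt_trichotomy i x with c | rfl | c
  · by_cases c' : i + 1 = x
    · simp [hm, hq, c.ne, c.ne', c, c.not_gt, c', s32.1, a3]
    · simp [hm, hq, c.ne, c.ne', c, c.not_gt, c', show i + 1 < x by omega, s33.1, a3]
  · by_cases c' : i = I.length
    · simpa [hm, hq, bk, ← c', s20.1] using fun _ => (mul_one _).ge.trans s20.2
    · simp [hm, hq, bk, c', s21.1]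
  · simp [hm, hq, c.ne', c, c.not_gt, show ¬i + 1 < x by omega, show i + 1 ≠ x by omega,
      show x ≠ I.length by omega, s11.1]

end Pool.Agent.P.MP_e4ac67_pr.Gr
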