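import Pool.Agent.P.MP_e4ac67_pr.G.C3a

/-! The reductions for the arcs between the tube and the centre and between tube vertices. -/

open scoped ENNReal
open Finset

namespace Pool.Agent.P.MP_e4ac67_pr.Gr
variable {G : Grid} {z b e : Pt} {T : Tube G} {k : ℕ} {P : Nm} {Q : Type} {I : List Pt}

namespace C3
open Grid (Wz vx)

theorem prod_pull {n j : ℕ} (hj : j < n) {c : ℝ≥0∞} {f g : ℕ → ℝ≥0∞}
    (h : ∀ i < n, f i ≤ (if i = j then c else 1) * g i) :
    ∏ i ∈ range n, f i ≤ c * ∏ i ∈ range n, g i := by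
  refine (prod_le_prod' fun i hi => h i (mem_range.1 hi)).trans_eq ?_
  rw [prod_mul_distrib, prod_ite_eq', if_pos (mem_range.2 hj)]

theorem prod_push {n j : ℕ} {c : ℝ≥0∞} (hc : c ≤ 1) {f g : ℕ → ℝ≥0∞}
    (h : ∀ i < n, (if i = j then c else 1) * f i ≤ g i) :
    c * ∏ i ∈ range n, f i ≤ ∏ i ∈ range n, g i := by
  refine le_trans ?_ (prod_le_prod' fun i hi => h i (mem_range.1 hi))
  rw [prod_mul_distrib, prod_ite_eq']
  refine mul_le_mul' ?_ le_rfl
  split_ifs
  exacts [le_rfl, hc]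

open Classical in
/-- the factor of an ear -/
noncomputable def eF (G : Grid) (y : ℝ≥0∞) (A : ℕ → Pt) (ee : ℕ → Prop) (i : ℕ) : ℝ≥0∞ :=
  if ee i ∧ 1 ≤ i ∧ G.Adj (A (i - 1)) (A (i + 1)) then y else 1

open Classical in
/-- the factor of a link vertex -/
noncomputable def lF (G : Grid) (y : ℝ≥0∞) (z : Pt) (A : ℕ → Pt) (el : ℕ → Prop) (i : ℕ) : ℝ≥0∞ :=
  if el i ∧ G.Adj z (A i) then y else 1

theorem wt_all (ee el : ℕ → Prop) : G.wt P z b I e (fun _ => True) ee el =
    (∏ i ∈ range I.length, P.p * eF G P.q (vx b I e) ee i * lF G P.q z (vx b I e) el i) *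
      (P.p * eF G P.q (vx b I e) ee I.length * lF G P.q z (vx b I e) el I.length) := by
  rw [Grid.wt, prod_range_succ]
  simp only [if_true]
  rfl

theorem wt_ne {j : ℕ} (hj : j ≤ I.length) (ee el : ℕ → Prop) : G.wt P z b I e (· ≠ j) ee el =
    (∏ i ∈ range I.length, P.p * eF G P.q (vx b I e) ee i * lF G P.q z (vx b I e) el i) *
      (eF G P.q (vx b I e) ee I.length * lF G P.q z (vx b I e) el I.length) := by
  classical
  have e1 : ∏ i ∈ range (I.length + 1), (if i ≠ j then P.p else 1) =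
      ∏ _ ∈ range I.length, P.p := by
    rw [← prod_filter, prod_const, prod_const, filter_ne', card_erase_of_mem (by simp; omega)]
    simp
  rw [Grid.wt, prod_mul_distrib, prod_mul_distrib, (prod_congr rfl fun i _ => by congr).trans e1,
    prod_range_succ, prod_range_succ, prod_mul_distrib, prod_mul_distrib]
  simp only [eF, lF]
  ring

theorem ff_one (q : Q) (v : Pt) : Spec.ff T (fun _ _ _ => NN) q v = 1 := by
  have : T.lk (fun _ _ _ => NN) NN q v = NN := by
    unfold Tube.lk lkN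
    split_ifs <;> simp
  rw [Spec.ff, this, vv_NN, ite_self]

theorem stp_ge (h : Fit z T) (hb : G.Tb z b) (a : G.Arc z b I e) {S : Spec Q} {q : Q}
    {x y : ℝ≥0∞} (hs : Stp S.w q q x y) (hf : S.lf = fun _ _ _ => NN) {d : ℕ}
    (ho : S.lo = fun _ _ _ => d) {i : ℕ} (hi : i ≤ I.length) :
    x * eF G y (vx b I e) (fun _ => True) i * lF G (vv d) z (vx b I e) (1 ≤ ·) i ≤
      stp S T q (vx b I e) i := by
  rw [stp, hf, ff_one, mul_one, mul_comm]
  refine mul_le_mul' (le_of_eq ?_) ?_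
  · rw [Spec.ff, lF, ho]
    rcases Nat.eq_zero_or_pos i with rfl | u
    · rw [if_neg (by simp), Grid.vx_zero, if_pos ((h.tz _).2 (Or.inr hb))]
    · have n := ntz h a u hi
      rw [if_neg n]
      split_ifs with c
      · rw [lk_adj h _ _ _ c.2 fun c => n ((h.tz _).2 c)]
      · rw [lk_far h _ _ _ fun c' => c ⟨u, c'⟩, vv_NN]
  · rw [Spec.sw, eF]
    split_ifs with c c' c'
    · omega
    · rw [tyb_true.2 ⟨_, rfl, c.2.2⟩]; exact hs.2
    · rw [tyb_false.2 (by rintro ⟨w, u, -⟩; cases u), mul_one]; exact hs.1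
    · rw [tyb_false.2 (by rintro ⟨w, u, v⟩; cases u; exact c ⟨trivial, by omega, v⟩), mul_one]
      exact hs.1

theorem lF_one (A : ℕ → Pt) (el : ℕ → Prop) (i : ℕ) : lF G (vv NN) z A el i = 1 := by
  rw [lF, vv_NN, ite_self]

theorem eF_not {y : ℝ≥0∞} {A : ℕ → Pt} {ee : ℕ → Prop} {i : ℕ} (h : ¬ee i) : eF G y A ee i = 1 :=
  if_neg fun c => h c.1

theorem lF_not {y : ℝ≥0∞} {A : ℕ → Pt} {el : ℕ → Prop} {i : ℕ} (h : ¬el i) : lF G y z A el i = 1 :=
  if_neg fun c => h c.1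

theorem eF_of {y : ℝ≥0∞} {A : ℕ → Pt} {ee : ℕ → Prop} {i : ℕ} (h : ee i) :
    eF G y A ee i = eF G y A (fun _ => True) i := by
  unfold eF
  congr 1
  exact propext (and_congr_left' (iff_true_intro h))

open Classical in
/-- link factors from the index `0` on -/
theorem lF_le {y : ℝ≥0∞} {d : ℕ} (hd : y ≤ vv d) {el : ℕ → Prop} {i : ℕ} (h : el i) :
    lF G y z (vx b I e) el i ≤ (if i = 0 then (if G.Adj z b then y else 1) else 1) *
      lF G (vv d) z (vx b I e) (1 ≤ ·) i := by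
  rcases Nat.eq_zero_or_pos i with rfl | u
  · simp [lF, h, Grid.vx_zero]
  · rw [if_neg u.ne', one_mul, lF, lF]
    by_cases c : G.Adj z (vx b I e i)
    · rwa [if_pos ⟨h, c⟩, if_pos ⟨u, c⟩]
    · rw [if_neg fun c' => c c'.2, if_neg fun c' => c c'.2]

theorem last_adj (h : Fit z T) (a : G.Arc z b I z) :
    G.Adj z (vx b I z I.length) ∧ ¬Wz G.Tb z (vx b I z I.length) := by
  have := Grid.vx_adj a.1 le_rfl
  rw [Grid.vx_last] at this
  exact ⟨this.symm, fun c => ntz h a (arc_pos a) le_rfl ((h.tz _).2 c)⟩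

variable {w : NW Q} {m d : ℕ} {t pw : Q → ℕ} {ab o : Bool} {q : Q}

theorem far_vz (h : Fit z T) (h7 : 7 ≤ k) (a : G.Arc z b I z) (ho : o = sid G z (I.headD z))
    (hv : G.VZ k z (I.headD z) (I.getLastD z)) :
    T.lk (spS w (6 - G.tau z) d t ab pw o).lt 0 q (vx b I z I.length) = t q := by
  obtain ⟨a1, a2⟩ := last_adj h a
  rw [Grid.vx_getLast (b := b) (e := z) a.2.2.2.1] at hv
  have : farZ (6 - G.tau z) o (min 8 (G.ps z (vx b I z I.length)))
      (min 8 (G.gap z + 4 - G.ps z (vx b I z I.length))) = true := by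
    rcases hv with ⟨c, u⟩ | ⟨c, u⟩
    · rw [ho, sid_true.2 c]; simp only [farZ, cond_true, Nat.ble_eq]; omega
    · rw [ho, sid_false.2 c]
      simp only [farZ, cond_false, Nat.ble_eq, Bool.or_eq_true, Grid.dg] at u ⊢
      omega
  rw [lk_adj h _ _ _ a1 a2]
  simp only [spS, this, cc, cond_true]

theorem far_zw (h : Fit z T) (a : G.Arc z b I z) (ho : o = sid G z (I.headD z))
    (h1 : I.getLastD z ≠ G.cv z) (h2 : ¬(G.Rt z 4 (I.headD z) ↔ G.Rt z 4 (I.getLastD z))) :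
    T.lk (spS w m d t ab pw o).lt 0 q (vx b I z I.length) = t q := by
  obtain ⟨a1, a2⟩ := last_adj h a
  rw [Grid.vx_getLast (b := b) (e := z) a.2.2.2.1] at h1 h2
  have l := h.lev
  have r := rt_ps (by omega) a1 a2
  have n : G.ps z (vx b I z I.length) ≠ 4 := fun c =>
    h1 (by rw [← (nb_of (by omega) a1 a2).2.2, c]; rfl)
  have : farZ m o (min 8 (G.ps z (vx b I z I.length)))
      (min 8 (G.gap z + 4 - G.ps z (vx b I z I.length))) = true := by
    by_cases c : G.Rt z 4 (I.headD z)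
    · have : ¬4 ≤ G.ps z (vx b I z I.length) := fun u => h2 (iff_of_true c (r.2 u))
      rw [ho, sid_false.2 c]
      simp only [farZ, cond_false, Nat.ble_eq, Bool.or_eq_true]
      omega
    · have : 4 ≤ G.ps z (vx b I z I.length) := r.1 (by_contra fun u => h2 (iff_of_false c u))
      rw [ho, sid_true.2 c]; simp only [farZ, cond_true, Nat.ble_eq]; omega
  rw [lk_adj h _ _ _ a1 a2]
  simp only [spS, this, cc, cond_true]

theorem sid_other {u v : Pt} (h : ¬(G.Rt z 4 u ↔ G.Rt z 4 v)) : (!sid G z u) = sid G z v := by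
  by_cases c : G.Rt z 4 u <;> by_cases c' : G.Rt z 4 v <;> simp_all [sid]

theorem arc_WW (h : G.fWW P z b I ≠ 0) : ∃ e, G.Arc z b I e := by
  obtain ⟨e, he⟩ := not_forall.1 (mt ENNReal.tsum_eq_zero.2 h)
  exact ⟨e, (of_ind_mul_ne he).2.2.1⟩

variable [Fintype Q]

/-- arcs to the centre (weights `W`) and arcs between tube vertices -/
theorem with_WW (h : Fit z T) (hb : G.Tb z b) (hs : Stp w q q P.p P.q) (W : List Pt → ℝ≥0∞)
    (hW : ∀ I, W I ≠ 0 → o = sid G z (I.headD z) → G.Arc z b I z ∧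
      W I ≤ (∏ i ∈ range I.length, P.p * eF G P.q (vx b I z) (fun _ => True) i) *
        vv (T.lk (spS w m NN t true pw o).lt 0 q (vx b I z I.length)))
    (hp : ∀ A i, eF G P.q A (fun j => j < i ∨ P.m = true) i ≤
      P.p * eF G P.q A (fun _ => True) i * vv (pw q)) :
    ∑' I, ind (o = sid G z (I.headD z)) * (W I + G.fWW P z b I) ≤
      (spS w m NN t true pw o).loops T q b := by
  have st := fun I e (a : G.Arc z b I e) i (hi : i ≤ I.length) =>
    stp_ge h hb a (S := spS w m NN t true pw o) hs rfl rfl hi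
  simp only [lF_one, mul_one] at st
  simp only [mul_add, ENNReal.tsum_add, Grid.fWW, ← ENNReal.tsum_mul_left]
  rw [← ENNReal.tsum_prod, ← one_mul (Spec.loops ..)]
  refine both (e := z) _ h q _ _ 1 (fun I hI => ?_) fun x hx => ?_
  · have u := of_ind_mul_ne hI
    obtain ⟨a, v⟩ := hW I (right_ne_zero_of_mul hI) u
    refine ⟨a, u, ?_⟩
    rw [ind_of u, one_mul, one_mul]
    exact v.trans (mul_le_mul' (prod_le_prod' fun i hi => st I z a i (mem_range.1 hi).le) le_rfl)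
  · have u := of_ind_mul_ne hx
    have u' := of_ind_mul_ne (right_ne_zero_of_mul hx)
    refine ⟨rfl, u'.2.2.1, u'.1, u, congrArg some (u ▸ sid_other u'.2.2.2), ?_⟩
    rw [ind_of u, ind_of u', one_mul, one_mul, one_mul, wt_ne le_rfl, prod_range_succ, mul_assoc]
    refine mul_le_mul' (prod_le_prod' fun i hi => ?_) ?_
    · rw [lF_not id, mul_one, eF_of (Or.inl (mem_range.1 hi))]
      exact st _ _ u'.2.2.1 i (mem_range.1 hi).le
    · rw [lF_not id, mul_one]
      exact (hp _ _).trans (mul_le_mul' (st _ _ u'.2.2.1 _ le_rfl) le_rfl)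

/-- arcs to the centre only -/
theorem stop {S : Spec Q} (h : Fit z T) (ho : S.so = o) (W : List Pt → ℝ≥0∞) (c : ℝ≥0∞)
    (hW : ∀ I, W I ≠ 0 → o = sid G z (I.headD z) → G.Arc z b I z ∧
      W I ≤ c * ((∏ i ∈ range I.length, stp S T q (vx b I z) i) *
        vv (T.lk S.lt 0 q (vx b I z I.length)))) :
    ∑' I, ind (o = sid G z (I.headD z)) * W I ≤ c * S.loops T q b := by
  refine le_trans le_self_add (both (e := z) S h q _ (fun _ => 0) c (fun I hI => ?_)
    fun x hx => absurd rfl hx)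
  have u := of_ind_mul_ne hI
  obtain ⟨a, v⟩ := hW I (right_ne_zero_of_mul hI) u
  exact ⟨a, ho.trans u, ind_mul_le fun _ => v⟩

end C3
open C3

variable [Fintype Q]

theorem red_W (hT : Fit z T) {w : NW Q} {s0 : Q} (s00 : Stp w s0 s0 P.p P.q) {d : ℕ} {t : Q → ℕ}
    (hd : P.q ≤ vv d) (ht : P.p ≤ vv (t s0)) (s : Option Bool) :
    G.sT P z s (G.fW P z) ≤ ∑ o, T.sum P (spW w d t o) s0 P.q P.q s := by
  refine sum_le hT P _ (fun _ => rfl) s0 _ _ (fun b I h => ⟨z, of_ind_mul_ne h⟩)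
    (fun o b hb => stop hT rfl _ _ fun I hI _ => ?_) s
  have a : G.Arc z b I z := of_ind_mul_ne hI
  refine ⟨a, ?_⟩
  rw [ind_of a, one_mul, wt_all, eF_not (by simp), lF_not (by simp), mul_one,
    mul_one, ← mul_assoc, lk_adj hT _ _ _ (last_adj hT a).1 (last_adj hT a).2]
  refine mul_le_mul' (prod_pull (arc_pos a) fun i hi => ?_) ht
  refine le_trans ?_ (mul_le_mul' le_rfl
    (stp_ge hT hb a (S := spW w d t o) s00 rfl rfl hi.le))
  rw [eF_of (ee := (· < I.length)) hi, mul_left_comm]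
  exact mul_le_mul' le_rfl (lF_le hd hi)

theorem red_SW_bond (hT : Fit z T) (h7 : 7 ≤ k) (hm : P.m = false) {w : NW Q} {s0 : Q}
    (s00 : Stp w s0 s0 P.p P.q) (hq : P.q ≤ 1) {t pw : Q → ℕ} (ht : 1 ≤ vv (t s0))
    (hp : 1 ≤ P.p * P.q * vv (pw s0)) (s : Option Bool) :
    G.sT P z s (G.fSz k P z) + G.sT P z s (G.fWW P z) ≤
      ∑ o, T.sum P (spS w (6 - G.tau z) NN t true pw o) s0 1 1 s ∧
    P.q * G.sT P z none (G.fZW P z) + G.sT P z none (G.fWW P z) ≤
      ∑ o, T.sum P (spS w (6 - G.tau z) NN t true pw o) s0 1 1 none := by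
  have hp' : ∀ A i, eF G P.q A (fun j => j < i ∨ P.m = true) i ≤
      P.p * eF G P.q A (fun _ => True) i * vv (pw s0) := fun A i => by
    rw [eF_not (by simp [hm])]
    refine hp.trans (mul_le_mul' (mul_le_mul' le_rfl ?_) le_rfl)
    unfold eF
    split_ifs
    exacts [le_rfl, hq]
  constructor
  · rw [← one_mul (G.sT P z s (G.fSz k P z)), sT_add]
    refine sum_le hT P _ (fun _ => rfl) s0 _ _ (fun b I h => ?_) (fun o b hb => ?_) s
    · by_cases c : G.fWW P z b I = 0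
      · rw [c, add_zero, one_mul] at h; exact ⟨z, (of_ind_mul_ne h).1⟩
      · exact arc_WW c
    rw [ite_self, one_mul]
    refine with_WW hT hb s00 _ (fun I hI ho => ?_) hp'
    rw [one_mul] at hI ⊢
    obtain ⟨a, v⟩ := of_ind_mul_ne hI
    refine ⟨a, ?_⟩
    rw [Grid.fSz, ind_of ⟨a, v⟩, one_mul, wt_ne le_rfl, eF_not (by simp), lF_not (by simp),
      far_vz hT h7 a ho v, mul_one]
    refine mul_le_mul' (prod_le_prod' fun i hi => ?_) ht
    rw [lF_not (by simp [hm]), mul_one, eF_of (ee := (· < I.length)) (mem_range.1 hi)]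
  · rw [sT_add]
    refine sum_le hT P _ (fun _ => rfl) s0 _ _ (fun b I h => ?_) (fun o b hb => ?_) none
    · by_cases c : G.fWW P z b I = 0
      · rw [c, add_zero] at h; exact ⟨z, (of_ind_mul_ne (right_ne_zero_of_mul h)).1⟩
      · exact arc_WW c
    rw [ite_self, one_mul]
    refine with_WW hT hb s00 _ (fun I hI ho => ?_) hp'
    obtain ⟨a, v⟩ := of_ind_mul_ne (right_ne_zero_of_mul hI)
    refine ⟨a, ?_⟩
    rw [Grid.fZW, ind_of ⟨a, v⟩, one_mul, wt_ne (Nat.zero_le _), eF_not (by simp),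
      lF_not (by simp), far_zw hT a ho v.1 v.2, mul_one, ← mul_assoc]
    refine mul_le_mul' (prod_push (j := 1) hq fun i hi => ?_) ht
    rw [lF_not (by simp [hm]), mul_one, mul_left_comm]
    refine mul_le_mul' le_rfl ?_
    rcases (by omega : i = 0 ∨ i = 1 ∨ 2 ≤ i) with rfl | rfl | u
    · simp [eF]
    · rw [if_pos rfl, eF_not (by simp [hm]), mul_one, eF]
      split_ifs
      exacts [le_rfl, hq]
    · rw [if_neg (by omega), one_mul, eF_of ⟨Or.inl u, hi⟩]

theorem red_SZ_site (hT : Fit z T) (h7 : 7 ≤ k) (hm : P.m = true) (hq : P.q = 0) {w : NW Q} {s0 : Q}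
    (s00 : Stp w s0 s0 P.p 0) {d : ℕ} {t pw : Q → ℕ} {ab : Bool} (ht : 1 ≤ vv (t s0))
    (s : Option Bool) :
    G.sT P z s (G.fSz k P z) ≤ ∑ o, T.sum P (spS w (6 - G.tau z) d t ab pw o) s0 0 0 s ∧
    G.sT P z none (G.fZW P z) ≤ ∑ o, T.sum P (spS w (6 - G.tau z) d t ab pw o) s0 1 1 none := by
  constructor
  · refine sum_le hT P _ (fun _ => rfl) s0 _ _ (fun b I h => ⟨z, (of_ind_mul_ne h).1⟩)
      (fun o b hb => stop (o := o) hT rfl _ _ fun I hI ho => ?_) s
    obtain ⟨a, v⟩ := of_ind_mul_ne hI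
    refine ⟨a, ?_⟩
    rw [Grid.fSz, ind_of ⟨a, v⟩, one_mul, wt_ne le_rfl, eF_not (by simp), lF_not (by simp),
      far_vz hT h7 a ho v, mul_one, ← mul_assoc, hq]
    refine mul_le_mul' (prod_pull (arc_pos a) fun i hi => ?_) ht
    refine le_trans ?_ (mul_le_mul' le_rfl
      (stp_ge hT hb a (S := spS w (6 - G.tau z) d t ab pw o) s00 rfl rfl hi.le))
    rw [eF_of (ee := (· < I.length)) hi, mul_left_comm]
    exact mul_le_mul' le_rfl (lF_le zero_le ⟨hm, hi⟩)
  · refine sum_le hT P _ (fun _ => rfl) s0 _ _ (fun b I h => ⟨z, (of_ind_mul_ne h).1⟩)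
      (fun o b hb => stop (o := o) hT rfl _ _ fun I hI ho => ?_) none
    obtain ⟨a, v⟩ := of_ind_mul_ne hI
    refine ⟨a, ?_⟩
    rw [Grid.fZW, ind_of ⟨a, v⟩, one_mul, wt_ne (Nat.zero_le _), eF_not (by simp),
      lF_not (by simp), far_zw hT a ho v.1 v.2, mul_one, ite_self, one_mul, hq]
    refine mul_le_mul' (prod_le_prod' fun i hi => ?_) ht
    have hi' := mem_range.1 hi
    refine le_trans ?_ (stp_ge hT hb a (S := spS w (6 - G.tau z) d t ab pw o) s00 rfl rfl hi'.le)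
    rw [eF_of ⟨Or.inr hm, hi'⟩]
    refine mul_le_mul' le_rfl ?_
    rcases Nat.eq_zero_or_pos i with rfl | u
    · rw [lF_not (by simp), lF_not (by simp)]
    · exact (lF_le (d := d) zero_le ⟨hm, u, hi'⟩).trans_eq (by rw [if_neg u.ne', one_mul])

theorem red_WW_site (hT : Fit z T) (hm : P.m = true) (hq : P.q = 0) {w : NW Q} {s0 : Q}
    (s00 : Stp w s0 s0 P.p 0) {m : ℕ} {t pw : Q → ℕ} (hp : 1 ≤ P.p * vv (pw s0)) (s : Option Bool) :
    G.sT P z s (G.fWW P z) ≤ ∑ o, T.sum P (spS w m NN t true pw o) s0 1 1 s := by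
  refine sum_le hT P _ (fun _ => rfl) s0 _ _ (fun b I h => arc_WW h) (fun o b hb => ?_) s
  rw [ite_self, one_mul]
  have := with_WW (w := w) (m := m) (t := t) (pw := pw) (o := o) (q := s0) hT hb (hq ▸ s00)
    (fun _ => 0) (fun I hI => absurd rfl hI) fun A i => by
      rw [eF_of (Or.inr hm), hq, eF]
      split_ifs
      · exact zero_le
      · rwa [mul_one]
  simpa only [zero_add] using this

end Pool.Agent.P.MP_e4ac67_pr.Gr
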