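import Pool.Agent.P.MP_e4ac67_pr.G.FitL

/-! From sums over arcs that start in the tube to the sums bounded by the tables. -/

open scoped ENNReal

namespace Pool.Agent.P.MP_e4ac67_pr.Gr

namespace Fit
open Grid
variable {G : Grid} {T : Tube G} {z v u b f e : Pt} {Q : Type} (h : Fit z T) {S : Spec Q}
  {prev : Option Pt} {c : ℕ} {o : Bool}
include h

theorem l1 : z.1 = T.l + 1 := congrArg Prod.fst h.eq
theorem snd : z.2 = T.z := congrArg Prod.snd h.eq
theorem g : T.g = G.gap z := by rw [h.eq]; rfl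

theorem er (o : Bool) {n : ℕ} (hn : n ≤ z.1) :
    T.r o n = cond o (G.an z (z.1 - n)) (G.ar z (z.1 - n)) := by
  cases o; exacts [h.rr n hn, h.rl n hn]

theorem et (o : Bool) : T.w0 o = 1 ↔ G.tau z = 0 ∧ (G.sL z 0 = 1 ↔ o = true) := by
  rw [Tube.w0, ← h.l1]
  cases o
  · simpa using h.wr
  · simpa using h.wl

theorem lk_nb (F : Q → ℕ → ℕ → ℕ) (d : ℕ) (q : Q) {i : ℕ} (h1 : 1 ≤ i) (h2 : i ≤ G.gap z + 3) :
    T.lk F d q (G.nb z i) = F q (min 8 i) (min 8 (G.gap z + 4 - i)) := by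
  have e1 := h.l1
  have e2 := h.snd
  have e3 := G.gap_eq z
  have e4 := G.gap2 z.1 z.2
  rw [Tube.lk, h.g]
  rcases nb_cases (G := G) z i with ⟨c, e⟩ | ⟨c, e⟩ | ⟨c, c', e⟩ | ⟨c, e⟩ | ⟨c, e⟩ <;> rw [e]
  · omega
  · rw [if_neg (by simp only; omega), if_pos (by rw [e1, e2]), c]; rfl
  · have a1 : T.Ei true (G.A z.1 (z.2 - 1) + i - 2) = min 8 i := by
      simp only [Tube.Ei, sg, fst, ← e1, ← e2]; omega
    have a2 : T.Ei false (G.A z.1 (z.2 - 1) + i - 2) = min 8 (G.gap z + 4 - i) := by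
      simp only [Tube.Ei, sg, fst, ← e1, ← e2]; omega
    rw [if_pos (by simp only; omega), a1, a2, lkN, Nat.ble_eq_true_of_le (by omega),
      Nat.ble_eq_true_of_le (by omega)]
    rfl
  · rw [if_neg (by simp only; omega), if_neg (by simp only [Prod.ext_iff]; omega),
      if_pos (by rw [e1, e2]), c, show G.gap z + 4 - (G.gap z + 3) = 1 by omega]; rfl
  · omega

theorem lk_off (F : Q → ℕ → ℕ → ℕ) (d : ℕ) (q : Q) (hv : ¬G.Adj z v ∨ v.1 < z.1) :
    T.lk F d q v = d := by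
  have e1 := h.l1
  have e2 := h.snd
  rw [adj_iff] at hv
  rw [Tube.lk]
  split_ifs with c1 c2 c3
  · have : ¬(2 ≤ T.Ei true v.2 ∧ 2 ≤ T.Ei false v.2) := by
      simp only [Tube.Ei, sg, fst, ← e1, ← e2]; omega
    rw [lkN, Bool.cond_eq_ite, if_neg (by simpa only [Bool.and_eq_true, Nat.ble_eq] using this)]
  · rw [c2] at hv; simp only at hv; omega
  · rw [c3] at hv; simp only at hv; omega
  · rfl

theorem ps (hv : ¬Wz G.Tb z v) (ha : G.Adj z v) :
    1 ≤ G.ps z v ∧ G.ps z v ≤ G.gap z + 3 ∧ G.nb z (G.ps z v) = v := by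
  have hz : 1 ≤ z.1 := by have := h.l1; omega
  have := (tubeOK G).ps hz ha hv
  exact ⟨by omega, this.2.2, (ps_spec hz ha).2⟩

open Classical in
theorem lk_eq (F : Q → ℕ → ℕ → ℕ) (d : ℕ) (q : Q) (hv : ¬Wz G.Tb z v) : T.lk F d q v =
    if G.Adj z v then F q (min 8 (G.ps z v)) (min 8 (G.gap z + 4 - G.ps z v)) else d := by
  split_ifs with e
  · obtain ⟨a1, a2, a3⟩ := h.ps hv e
    rw [← h.lk_nb F d q a1 a2, a3]
  · exact h.lk_off F d q (Or.inl e)

theorem nbr (o : Bool) {i : ℕ} (h1 : 1 ≤ i) (h2 : i ≤ G.gap z + 2) :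
    Spec.nbr T o i = G.nb z (cond o i (G.gap z + 4 - i)) := by
  have e3 := G.gap_eq z
  rw [Spec.nbr, show T.l + 2 = z.1 + 1 by rw [h.l1], ← h.l1, ← h.snd]
  split_ifs with e
  · cases o <;> simp [e, out, sg, nb_one, nb_rt]
  · cases o <;> rw [G.nb_ch z (by simp only [cond_true, cond_false]; omega)
      (by simp only [cond_true, cond_false]; omega)] <;>
      simp only [fst, sg, cond_true, cond_false, Prod.mk.injEq, true_and] <;> omega

theorem free (o : Bool) (c : ℕ) (hl : v.1 ≤ z.1) (hv : ¬Wz G.Tb z v) :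
    T.Free o v ↔ (G.Rt z c v ↔ o = false) := by
  have a := an_ar (G := G) z (z.1 - v.1)
  have e1 := h.l1
  rw [← h.tz] at hv
  rw [Rt, if_pos hl]
  cases o <;> simp only [Tube.Tz, Tube.Free, h.er _ hl, cond_true, cond_false, sg, iff_true,
    Bool.true_eq_false, iff_false] at hv ⊢ <;> omega

theorem lat (o : Bool) (e : wof (T.st o (T.l + 1)) = 1) : G.lt1 z = (T.l + 1, out o T.z 1) := by
  have := (h.et o).1 e
  rw [lt1, ← h.l1, ← h.snd]
  cases o <;> simp_all [out, sg]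

theorem Y (o : Bool) : T.Y o = G.yv z (!o) := by
  have e1 := h.l1
  have e2 : (T.l, T.r o T.l) = G.cn z (!o) 1 := by
    cases o <;> simp [h.er _ (show T.l ≤ z.1 by omega), cn, e1]
  have e3 := h.et o
  rw [Tube.w0] at e3
  rw [Tube.Y, e2]
  rcases yv_cases (G := G) (z := z) (by omega) (!o) with ⟨a, c⟩ | ⟨a, c, c'⟩
  · rw [if_neg (by omega), c]
  · split_ifs with e
    · rw [← h.lat o e]; cases o <;> simp_all
    · rw [c]; cases o <;> simp_all

theorem go_mid (hv : ¬Wz G.Tb z v) (hu : ¬Wz G.Tb z u) : S.Go T prev v u :=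
  ⟨fun a => absurd ((h.tz _).1 a) hv, fun a => absurd ((h.tz _).1 a) hu⟩

theorem side (hv : ¬Wz G.Tb z v) (hs : G.Rt z c v ↔ o = false) : T.Free o v ∨ T.Hi v :=
  (le_or_gt v.1 z.1).imp (fun a => (h.free o c a hv).2 hs) fun a => by rwa [Tube.Hi, ← h.l1]

/-- the first step of an arc -/
theorem go_fst (hf : ¬Wz G.Tb z f) (hs : G.Rt z c f ↔ S.so = false) : S.Go T none b f :=
  ⟨fun _ => ⟨rfl, h.side hf hs⟩, fun a => absurd ((h.tz _).1 a) hf⟩

theorem lat_of (hb : G.Tb z b) (hl : T.l < b.1) (ha : G.Adj b f) (hf : ¬Wz G.Tb z f)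
    (hs : G.Rt z c f ↔ o = false) (h3 : 3 ≤ c) (h4 : c ≤ G.gap z + 2) :
    G.tau z = 0 ∧ b = G.lt1 z ∧ wof (T.st o (T.l + 1)) = 1 ∧ b = (T.l + 1, out o T.z 1) := by
  have e1 := h.l1
  obtain ⟨e2, rfl⟩ := hb.resolve_left (by rintro ⟨i, a, a', -⟩; omega)
  have e3 := lt1_side (by omega) ha hf h3 h4
  have e4 := (h.et o).2 ⟨e2, by cases o <;> simp_all⟩
  exact ⟨e2, rfl, e4, h.lat o e4⟩

/-- the last step of an arc that ends in the tube -/
theorem go_lst (hv : ¬Wz G.Tb z v) (he : G.Tb z e) (ha : G.Adj v e) (hw : S.ws = some o)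
    (hs : G.Rt z c v ↔ o = false) (h3 : 3 ≤ c) (h4 : c ≤ G.gap z + 2) : S.Go T prev v e := by
  refine ⟨fun a => absurd ((h.tz _).1 a) hv, fun _ => ⟨o, hw, h.side hv hs, fun a => ?_⟩⟩
  rw [(h.lat_of he (by omega) ha.symm hv hs h3 h4).2.2.2]
  cases o <;> simp [out, sg]

theorem ff_tube (F : Q → ℕ → ℕ → ℕ) (q : Q) (hv : Wz G.Tb z v) : Spec.ff T F q v = 1 :=
  if_pos ((h.tz _).2 hv)

open Classical in
theorem ff_off (F : Q → ℕ → ℕ → ℕ) (q : Q) (hv : ¬Wz G.Tb z v) : Spec.ff T F q v =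
    if G.Adj z v then vv (F q (min 8 (G.ps z v)) (min 8 (G.gap z + 4 - G.ps z v))) else 1 := by
  rw [Spec.ff, if_neg (mt (h.tz _).1 hv), h.lk_eq F NN q hv, apply_ite vv, vv_NN]

open Classical in
theorem term_off (q : Q) (hv : ¬Wz G.Tb z v) : (S.sys T).term q prev v =
    if G.Adj z v then vv (S.lt q (min 8 (G.ps z v)) (min 8 (G.gap z + 4 - G.ps z v))) else 0 := by
  simp only [Spec.sys]
  rw [if_neg (mt (h.tz _).1 hv), h.lk_eq S.lt 0 q hv, apply_ite vv, show vv 0 = 0 from vk_zero 1]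

theorem term_tube (q : Q) (he : Wz G.Tb z e) (hw : S.ws = some o)
    (h1 : S.no1 = true → e ≠ G.yv z (!o)) : (S.sys T).term q (some v) e = vv (S.pw q) := by
  simp only [Spec.sys]
  rw [if_pos ((h.tz _).2 he), ind_of, one_mul]
  refine ⟨by simp, fun ⟨a, o', a1, a2⟩ => ?_⟩
  obtain rfl : o = o' := by simpa [hw] using a1
  exact h1 a (a2.trans (h.Y o))

/-- the tables bound `Tube.sum` -/
theorem sum_le [Fintype Q] {q : Q} {P : Nm} {cl c0 : ℝ≥0∞} {n0 ti tl a a' : ℕ} {s : Option Bool}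
    (hs : S.Starts T q n0 ti tl a a') (h0 : c0 ≤ vv n0) (h1 : s.elim 1 (fun _ => P.iv) ≤ vv ti)
    (h2 : s.elim 1 (fun _ => P.il) ≤ vv tl) : T.sum P S q cl c0 s ≤
      ind (s = none ∨ s = some (!S.so)) * (cl * vv a) +
        ind (s = none ∨ s = some (T.tgW S.so)) * vv a' := by
  have e1 := h.l1
  refine add_le_add (mul_le_mul_right (mul_le_mul_right hs.1 _) _) (mul_le_mul_right (hs.2 _ ?_) _)
  have key : ∀ n ≤ T.l, G.ch P.iv P.il z (n, T.r S.so n) = P.iv ^ (T.l - n) := fun n c => by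
    have a := an_ar (G := G) z (z.1 - n)
    rw [ch, if_neg (by simp only; omega), if_pos (by
      rw [h.er _ (show n ≤ z.1 by omega)]; cases S.so <;> simp [a.1]), one_mul]
    exact congrArg _ (by simp only; omega)
  rw [← h.eq]
  refine ⟨?_, fun n c => ?_, fun n c => ?_⟩
  · rw [if_pos rfl, key _ le_rfl]; cases s <;> simpa using h0
  · rw [if_neg (by simp only [Prod.ext_iff]; omega), key _ c.le, one_mul]
    cases s
    exacts [one_le_pow₀ h1, pow_le_pow_left' h1 _]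
  · rw [if_neg (by
      simp only [Prod.ext_iff]; rintro ⟨rfl, e⟩; revert e; cases S.so <;> simp [out, sg]), one_mul, ch,
      if_neg (by simp only; omega), if_neg (by
        rw [h.er _ (show n ≤ z.1 by omega)]; cases S.so <;> simp [out, sg]),
      show z.1 - (n, out S.so (T.r S.so n) 1).1 - 1 = T.l - n by simp only; omega]
    cases s
    exacts [one_le_mul h2 (one_le_pow₀ h1), mul_le_mul' h2 (pow_le_pow_left' h1 _)]

end Fit

open Classical in
theorem Stp.le_sw {Q : Type} {S : Spec Q} {a b : Q} {x y : ℝ≥0∞} (h : Stp S.w a b x y) (G : Grid)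
    (prev : Option Pt) (u : Pt) : x * (if G.Ear prev u then y else 1) ≤ S.sw G a b prev u := by
  rw [Spec.sw]
  split_ifs with e
  · rw [tyb_true.2 e]; exact h.2
  · rw [tyb_false.2 e, mul_one]; exact h.1

end Pool.Agent.P.MP_e4ac67_pr.Gr
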