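import Pool.Agent.P.MP_e4ac67_pr.G.Mark
import Pool.Agent.P.MP_e4ac67_pr.G.Bridge

/-! Reduction of the marked arcs with a pocket. -/

open scoped ENNReal
open Finset

namespace Pool.Agent.P.MP_e4ac67_pr.Gr
variable {G : Grid} {z b e v : Pt} {I : List Pt} {T : Tube G} {k t : ℕ} {P : Nm} {Q : Type}
  {M : MK Q} {q0 : Q} {a c : ℝ≥0∞} {o : Bool}

namespace Grid

open Classical in
/-- marked arcs listed from `b` with the property `D`, all ends and marks in one sum -/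
noncomputable def fD (G : Grid) (P : Nm) (o : Bool) (D : Pt → List Pt → Pt → ℕ → Prop)
    (a c : ℝ≥0∞) (z b : Pt) (I : List Pt) : ℝ≥0∞ := ∑' y : Pt × ℕ × ℕ,
  ind (Wz G.Tb z y.1 ∧ G.M0 o z b I y.1 y.2.1 ∧ D b I y.1 y.2.1) *
    ((if y.1 = z then a else c * oe P b y.1) * G.mw P z b I y.1 y.2)

theorem fM_le (C : Pt → List Pt → Pt → ℕ → Prop) :
    G.fM P o C a c z b I ≤ G.fD P o (CR o C) a c z b I := by
  classical
  rw [fD, ENNReal.tsum_prod', ENNReal.tsum_eq_add_tsum_ite z, fM, ← ENNReal.tsum_mul_left]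
  refine add_le_add ((mul_le_mul_right (fC_le o C (Or.inl rfl)) _).trans ?_)
    (ENNReal.tsum_le_tsum fun e => ?_)
  · rw [← ENNReal.tsum_mul_left]
    refine ENNReal.tsum_le_tsum fun x => ?_
    rw [if_pos rfl, mul_left_comm]
    exact mul_le_mul_left (ind_mono fun h => ⟨Or.inl rfl, h⟩) _
  · rw [mul_left_comm]
    refine ind_mul_le fun he => ?_
    have e1 : e ≠ z := ((tubeOK G).lev z e he).2
    rw [if_neg e1, ← mul_assoc]
    refine (mul_le_mul_right (fC_le o C (Or.inr he)) _).trans ?_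
    rw [← ENNReal.tsum_mul_left]
    refine ENNReal.tsum_le_tsum fun x => ?_
    rw [if_neg e1, mul_left_comm]
    exact mul_le_mul_left (ind_mono fun h => ⟨Or.inr he, h⟩) _

theorem fD_le {ι : Type} (A : Finset ι) {C : Pt → List Pt → Pt → ℕ → Prop}
    {D : ι → Pt → List Pt → Pt → ℕ → Prop} (h : ∀ e t, e = z ∨ (G.Tb z e ∧ c ≠ 0) →
      G.M0 o z b I e t → C b I e t → ∃ n ∈ A, D n b I e t) :
    G.fD P o C a c z b I ≤ ∑ n ∈ A, G.fD P o (D n) a c z b I := by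
  simp only [fD]
  rw [← Summable.tsum_finsetSum fun _ _ => ENNReal.summable]
  refine ENNReal.tsum_le_tsum fun y => ind_mul_le fun ⟨h1, h2, h3⟩ => ?_
  by_cases e1 : y.1 ≠ z ∧ c = 0
  · simp [e1.1, e1.2]
  obtain ⟨n, h4, h5⟩ := h _ _ (h1.elim Or.inl fun a => by_contra fun x => e1
    ⟨fun y => x (Or.inl y), by_contra fun y => x (Or.inr ⟨a, y⟩)⟩) h2 h3
  refine le_trans ?_ (single_le_sum (fun _ _ => zero_le) h4)
  rw [ind_of ⟨h1, h2, h5⟩, one_mul]

theorem rt_pos {g : ℕ} (hz : 1 ≤ z.1) (h2 : 2 ≤ g) (h3 : g ≤ G.gap z + 2) (ha : G.Adj z v)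
    (hv : ¬Wz G.Tb z v) : G.Rt z g v ↔ g ≤ G.ps z v := by
  have h1 := (tubeOK G).ps hz ha hv
  have h4 := (ps_spec hz ha).2
  have c4 := G.nb_ch z h2 h3
  generalize G.ps z v = i at *
  subst h4
  rcases nb_cases (G := G) z i with ⟨a, -⟩ | ⟨a, c⟩ | ⟨a, a', c⟩ | ⟨a, c⟩ | ⟨a, -⟩
  · omega
  · rw [c]; simp [Rt, an, a]; omega
  · rw [c]; simp [Rt, lr, c4]
  · rw [c]; simp [Rt, an]; omega
  · omega

theorem M0.side (h : G.M0 o z b I e t) (h3 : 3 ≤ G.gap z) :
    (G.Rt z 4 (I.headD z) ↔ o = false) ∧ (G.Rt z 4 (I.getLastD z) ↔ (!o) = false) := by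
  obtain ⟨-, h1, h2, -⟩ := h
  cases o
  · exact ⟨iff_of_true (mono_rt h3 h1) rfl, iff_of_false h2 (by simp)⟩
  · exact ⟨iff_of_false h1 (by simp), iff_of_true (mono_rt h3 h2) rfl⟩

theorem vx_take {i : ℕ} (h1 : 1 ≤ i) (h2 : i ≤ I.length) (h : i ≤ t) : vx b I e i ∈ I.take t := by
  obtain ⟨i, rfl⟩ : ∃ j, i = j + 1 := ⟨i - 1, by omega⟩
  rw [vx_succ (by omega), List.mem_take_iff_getElem]
  exact ⟨i, by omega, rfl⟩

theorem vx_drop {i : ℕ} (h2 : i ≤ I.length) (h : t < i) : vx b I e i ∈ I.drop t := by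
  obtain ⟨i, rfl⟩ : ∃ j, i = j + 1 := ⟨i - 1, by omega⟩
  rw [vx_succ (by omega), List.mem_drop_iff_getElem]
  exact ⟨i - t, by omega, by congr 1; omega⟩

end Grid
open Grid

/-- the factors of `S` at the link vertices of the arc are those of `M` -/
def MK.Acc (M : MK Q) (S : Spec Q) (G : Grid) (z b : Pt) (I : List Pt) (e : Pt) (t : ℕ) : Prop :=
  ∀ i q, 1 ≤ i → i ≤ I.length → G.Adj z (vx b I e i) → M.nr q = decide (i ≤ t) →
    ∀ x y, x = min 8 (G.ps z (vx b I e i)) → y = min 8 (G.gap z + 4 - G.ps z (vx b I e i)) →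
      S.lf q x y = M.zi q ∧ (i < I.length ∨ e ≠ z → S.lo q x y = M.zo q) ∧
        (i = I.length → e = z → S.lt q x y = M.zt q)

variable [Fintype Q]

theorem red_one (hT : Fit z T) (h3 : 3 ≤ G.gap z) (hM : M.Run P q0 a c) {S : Spec Q}
    (e1 : S.w = M.w) (e2 : S.ws = cond M.ab (some (!o)) none) (e3 : S.no1 = false) (e4 : S.so = o)
    (e5 : S.pw = M.pw) (s : Option Bool) :
    G.sT P z s (G.fD P o (M.Acc S G z) a c z) ≤ T.sum P S q0 1 1 s := by
  classical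
  obtain ⟨hi, ρ, hρ⟩ := hM
  refine hT.sT_le (fun b I hb h => ?_) (fun b hb => ?_) s
  · obtain ⟨y, hy⟩ : ∃ y, _ := by_contra fun x => h (ENNReal.tsum_eq_zero.2 fun y =>
      by_contra fun x' => x ⟨y, x'⟩)
    obtain ⟨-, h1, -⟩ := of_ind_mul_ne hy
    refine ⟨?_, h1.1.2.2.2.2 _ (mono_hd h1.1.2.2.2.1), e4 ▸ (h1.side h3).1⟩
    rw [vx_head (b := b) (e := y.1) h1.1.2.2.2.1]
    exact vx_adj h1.1.1 (Nat.zero_le _)
  have hbz : b ≠ z := ((tubeOK G).lev z b hb).2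
  simp only [ite_self, fD]
  rw [← ENNReal.tsum_prod]
  refine S.le_loops T _ (fun x : List Pt × Pt × ℕ × ℕ => if x.2.1 = z then x.1.length else
    x.1.length + 1) (fun x => vx b x.1 x.2.1) (fun x => ρ x.2.2) q0 b 1 ?_ ?_
  · rintro ⟨I, e, x⟩ ⟨J, e', y⟩ hx hy h1 h2
    obtain ⟨a1, a2, -⟩ := of_ind_mul_ne hx
    obtain ⟨b1, b2, -⟩ := of_ind_mul_ne hy
    have a3 := right_ne_zero_of_mul (right_ne_zero_of_mul hx)
    have b3 := right_ne_zero_of_mul (right_ne_zero_of_mul hy)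
    have a4 := List.length_pos_iff.2 a2.1.2.2.2.1
    have b4 := List.length_pos_iff.2 b2.1.2.2.2.1
    simp only at h1 h2 a1 a2 a3 b1 b2 b3 a4 b4
    have key : I.length = J.length ∧ e = e' := by
      by_cases c1 : e = z <;> by_cases c2 : e' = z <;> simp only [c1, c2, if_true, if_false] at h1 h2
      · exact ⟨h1, c1.trans c2.symm⟩
      · have := (h2 J.length (by omega)).1
        rw [vx_last] at this
        exact absurd (this ▸ b1) (a2.1.2.2.2.2 _ (c1 ▸ vx_mem (by omega) (by omega)))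
      · have := (h2 I.length (by omega)).1
        rw [vx_last] at this
        exact absurd (this ▸ a1) (b2.1.2.2.2.2 _ (c2 ▸ vx_mem (by omega) (by omega)))
      · have := (h2 I.length (by omega)).1
        rw [vx_last, show I.length = J.length by omega, vx_last] at this
        exact ⟨by omega, this⟩
    obtain ⟨k1, rfl⟩ := key
    have k2 : ∀ i < I.length, _ := fun i hi => h2 i (by split_ifs <;> omega)
    obtain rfl := vx_ext k1 fun i hi => (k2 i hi).1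
    obtain ⟨r1, r2⟩ := hρ G z b I e hbz
    rw [r1 x y a2.2.2.2 b2.2.2.2 a3 b3 fun i hi => ?_]
    cases i with
    | zero => rw [(r2 x a2.2.2.2 a3).1, (r2 y b2.2.2.2 b3).1]
    | succ i => exact (k2 i hi).2
  rintro ⟨I, e, x⟩ hx
  obtain ⟨a1, a2, a5⟩ := of_ind_mul_ne hx
  have a3 := right_ne_zero_of_mul (right_ne_zero_of_mul hx)
  have a6 := left_ne_zero_of_mul (right_ne_zero_of_mul hx)
  have a4 := List.length_pos_iff.2 a2.1.2.2.2.1
  simp only at a1 a2 a3 a4 a5 a6 ⊢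
  obtain ⟨r0, r1, f, r2, r3, r4⟩ := (hρ G z b I e hbz).2 x a2.2.2.2 a3
  have off : ∀ i, 1 ≤ i → i ≤ I.length → ¬Wz G.Tb z (vx b I e i) := fun i c1 c2 =>
    a2.1.2.2.2.2 _ (vx_mem c1 c2)
  obtain ⟨s1, s2⟩ := a2.side h3
  rw [vx_head (b := b) (e := e) a2.1.2.2.2.1] at s1
  rw [vx_getLast (b := b) (e := e) a2.1.2.2.2.1] at s2
  have hl := vx_adj a2.1.1 le_rfl
  rw [vx_last] at hl
  have step : ∀ i, i < I.length ∨ (i = I.length ∧ e ≠ z) →
      (G.Adj z (vx b I e i) → M.zo (ρ x i) = NN) → (i = I.length → M.ab = true) →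
      f i ≤ (S.sys T).om (ρ x i) (ρ x (i + 1)) (if i = 0 then none else some (vx b I e (i - 1)))
        (vx b I e i) (vx b I e (i + 1)) := fun i c1 c2 c3 => by
    have g1 : S.Go T (if i = 0 then none else some (vx b I e (i - 1))) (vx b I e i)
        (vx b I e (i + 1)) := by
      split_ifs with c4
      · subst c4
        exact hT.go_fst (off 1 le_rfl a4) (e4 ▸ s1)
      rcases c1 with c1 | ⟨rfl, c1⟩
      · exact hT.go_mid (off i (by omega) c1.le) (off _ (by omega) c1)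
      · rw [vx_last]
        exact hT.go_lst (off _ a4 le_rfl) (a1.resolve_left c1) hl (by rw [e2, c3 rfl]; rfl) s2
          (by omega) (by omega)
    have g2 : Spec.ff T S.lo (ρ x i) (vx b I e i) = 1 := by
      rcases Nat.eq_zero_or_pos i with rfl | c4
      · exact hT.ff_tube _ _ (Or.inr hb)
      rw [hT.ff_off _ _ (off i c4 (by omega))]
      split_ifs with c5
      · rw [(a5 i _ c4 (by omega) c5 (r1 i) _ _ rfl rfl).2.1 (c1.imp id fun a => a.2), c2 c5, vv_NN]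
      · rfl
    have g3 : Spec.ff T S.lf (ρ x (i + 1)) (vx b I e (i + 1)) = 1 := by
      rcases c1 with c1 | ⟨rfl, c1⟩
      · rw [hT.ff_off _ _ (off _ (by omega) c1)]
        split_ifs with c5
        · rw [(a5 _ _ (by omega) c1 c5 (r1 _) _ _ rfl rfl).1, hi, vv_NN]
        · rfl
      · rw [vx_last]; exact hT.ff_tube _ _ a1
    simp only [Spec.sys]
    rw [ind_of g1, g2, g3, one_mul, one_mul, mul_one, Spec.sw, e1]
    refine r2 i c1 _ fun v hv => ?_
    split_ifs at hv with c4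
    exact ⟨by omega, (Option.some.inj hv).symm⟩
  refine ⟨rfl, r0, fun i c1 => vx_adj a2.1.1 (by split_ifs at c1 <;> omega), fun i c1 j c2 c3 => ?_,
    ind_mul_le fun _ => ?_⟩
  · have := vx_inj a2.1.2.1 a2.1.2.2.1 (by omega) (by split_ifs at c1 <;> omega) (by omega)
      (by split_ifs at c2 <;> omega) c3
    omega
  rw [one_mul, Spec.prW]
  by_cases c1 : e = z
  · simp only [if_pos c1]
    obtain ⟨r5, r6⟩ := r3 c1
    refine r6.trans (mul_le_mul' (prod_le_prod' fun i c3 => step i (Or.inl (mem_range.1 c3))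
      (r5 i (mem_range.1 c3)) fun c4 => by have := mem_range.1 c3; omega) ?_)
    have c5 : G.Adj z (vx b I e I.length) := c1 ▸ hl.symm
    rw [hT.term_off _ (off _ a4 le_rfl), if_pos c5,
      (a5 _ _ a4 le_rfl c5 (r1 _) _ _ rfl rfl).2.2 rfl c1]
  · simp only [if_neg c1] at a6 ⊢
    obtain ⟨r5, r6, r7⟩ := r4 c1 (left_ne_zero_of_mul a6)
    rw [mul_assoc]
    refine r7.trans (mul_le_mul' (prod_le_prod' fun i c3 => step i
      (by have := mem_range.1 c3; rcases (by omega : i < I.length ∨ i = I.length) with h | h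
          exacts [Or.inl h, Or.inr ⟨h, c1⟩]) (fun _ => r6 i) fun _ => r5) ?_)
    rw [vx_last, if_neg (by omega), hT.term_tube _ a1 (o := !o) (by rw [e2, r5]; rfl) (by simp [e3]), e5]

theorem red_sum {ι : Type} (A : Finset ι) (hT : Fit z T) (h3 : 3 ≤ G.gap z) (hM : M.Run P q0 a c)
    {S : ι → Spec Q} {C : Pt → List Pt → Pt → ℕ → Prop}
    (hS : ∀ n, (S n).w = M.w ∧ (S n).ws = cond M.ab (some (!o)) none ∧ (S n).no1 = false ∧
      (S n).so = o ∧ (S n).pw = M.pw)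
    (h : ∀ b I e t, G.Tb z b → e = z ∨ (G.Tb z e ∧ c ≠ 0) → G.M0 o z b I e t → CR o C b I e t →
      ∃ n ∈ A, M.Acc (S n) G z b I e t) (s : Option Bool) :
    G.sT P z s (G.fM P o C a c z) ≤ ∑ n ∈ A, T.sum P (S n) q0 1 1 s := by
  refine (sT_mono fun b I hb => (fM_le C).trans (fD_le A (D := fun n => M.Acc (S n) G z)
    fun e t => h b I e t hb)).trans ?_
  rw [sT_sum]
  exact sum_le_sum fun n _ => red_one hT h3 hM (hS n).1 (hS n).2.1 (hS n).2.2.1 (hS n).2.2.2.1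
    (hS n).2.2.2.2 s

omit [Fintype Q] in
/-- the pocket, with positions counted from the side of the start -/
theorem pk_pos (hT : Fit z T) (hb : G.Tb z b) (h : G.M0 o z b I e t)
    (hp : CR o (G.Pk k z) b I e t) : ∃ n, T.w0 o < n ∧ n + T.w0 (!o) < G.gap z + 4 ∧
      ∀ i, 1 ≤ i → i ≤ I.length → G.Adj z (vx b I e i) →
        ∀ x, x = tr o (G.ps z (vx b I e i)) (G.gap z + 4 - G.ps z (vx b I e i)) → x ≠ n ∧
        (i = I.length → e = z → n < x) ∧ (G.dg z = k + 1 → (t < i → x + 1 ≠ n) ∧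
          (i ≤ t → i < I.length ∨ e ≠ z → x ≠ n + 1)) := by
  have hz : 1 ≤ z.1 := by have := hT.lev; omega
  have hbz : b ≠ z := ((tubeOK G).lev z b hb).2
  have a4 := List.length_pos_iff.2 h.1.2.2.2.1
  have hl := vx_getLast (z := z) (b := b) (e := e) h.1.2.2.2.1
  have w1 : ∀ o, T.w0 o ≤ 1 := fun o => wof_le _
  have nbT : ∀ o j, j = cond o 1 (G.gap z + 3) → (G.Tb z (G.nb z j) ↔ T.w0 o = 1) := by
    intro o j hj
    rw [hT.et]
    have g := G.gap2 z.1 z.2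
    have e1 : G.nb z j = (z.1, out o z.2 1) := by
      subst hj; cases o <;> simp [nb_one, nb_rt, out, sg]
    rw [e1, Grid.Tb, lt1]
    refine ⟨fun a => (a.resolve_left (by rintro ⟨i, a1, a2, -⟩; simp only at a2; omega)).imp_right
      fun a => ?_, fun a => Or.inr ⟨a.1, ?_⟩⟩
    · split_ifs at a with c <;> cases o <;> simp [out, sg, c] at a ⊢ <;> omega
    · split_ifs with c <;> cases o <;> simp [out, sg, c] at a ⊢
  have wl := nbT true 1 rfl
  have wr := nbT false _ rfl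
  have lkp : ∀ i, 1 ≤ i → i ≤ I.length → G.Adj z (vx b I e i) → 1 ≤ G.ps z (vx b I e i) ∧
      G.ps z (vx b I e i) ≤ G.gap z + 3 ∧ ∀ j, j = G.ps z (vx b I e i) → G.lk z j = vx b I e i :=
    fun i c1 c2 c3 => by
      obtain ⟨d1, d2, d3⟩ := hT.ps (h.1.2.2.2.2 _ (vx_mem c1 c2)) c3
      refine ⟨d1, d2, fun j e => ?_⟩
      rw [e, lk, Nat.mod_eq_of_lt (by unfold dg; omega), d3]
  have last : ∀ i, 1 ≤ i → i ≤ I.length → G.Adj z (vx b I e i) → e = z →
      G.ps z (vx b I e i) = G.ps z (vx b I e I.length) → i = I.length := fun i c1 c2 c3 c4 c5 => by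
    have c6 := vx_adj h.1.1 le_rfl
    rw [vx_last] at c6
    exact vx_inj h.1.2.1 h.1.2.2.1 c1 (by omega) a4 (by omega) (((lkp i c1 c2 c3).2.2 _ rfl).symm.trans
      ((lkp _ a4 le_rfl (c4 ▸ c6.symm)).2.2 _ c5))
  have lp : e = z → 1 ≤ G.ps z (vx b I e I.length) ∧ G.ps z (vx b I e I.length) ≤ G.gap z + 3 :=
    fun c4 => by
      have c6 := vx_adj h.1.1 le_rfl
      rw [vx_last] at c6
      have := lkp _ a4 le_rfl (c4 ▸ c6.symm)
      exact ⟨this.1, this.2.1⟩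
  have sp : ∀ i, 1 ≤ i → i ≤ I.length → vx b I e i ∈ I.take t ∨ vx b I e i ∈ I.drop t :=
    fun i c1 c2 => (le_or_gt i t).imp (vx_take c1 c2) (vx_drop c2)
  have w2 := w1 true
  have w3 := w1 false
  cases o
  · obtain ⟨j, p1, p2, p3, p4, p5⟩ := hp
    have e1 : I.reverse.headD z = vx b I e I.length := by
      rw [← hl]; simp [List.getLastD_eq_getLast?]
    have e2 : I.reverse.take (I.length - t) = (I.drop t).reverse := by
      rw [List.take_reverse, Nat.sub_sub_self h.2.2.2]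
    have e3 : I.reverse.drop (I.length - t) = (I.take t).reverse := by
      rw [List.drop_reverse, Nat.sub_sub_self h.2.2.2]
    simp only [e1, e2, e3, List.reverse_reverse, List.mem_reverse, lo, hi, if_neg hbz] at p1 p2 p3 p4 p5
    refine ⟨G.gap z + 4 - j, ?_, ?_, fun i c1 c2 c3 x hx => ?_⟩
    · split_ifs at p2 with c <;> simp only [cond_false, c] at wr <;> grind
    · simp only [Bool.not_false]
      split_ifs at p1 p2 <;> grind
    obtain ⟨d1, d2, d3⟩ := lkp i c1 c2 c3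
    have d4 : j < G.gap z + 4 := by split_ifs at p2 <;> omega
    simp only [tr, cond_false] at hx
    refine ⟨fun d => ?_, fun d d' => ?_, fun d => ⟨fun d' d'' => ?_, fun d' d'' d5 => ?_⟩⟩
    · rw [d3 j (by omega)] at p3 p4
      exact (sp i c1 c2).elim p4 p3
    · rw [if_pos d', ← d] at p1; omega
    · exact hbz ((p5 d).1 (by rw [d3 _ (by omega)]; exact vx_drop c2 d')).1
    · obtain ⟨f1, -, f2⟩ := (p5 d).2.1 (by rw [d3 _ (by omega)]; exact vx_take c1 c2 d')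
      rw [if_pos f1] at f2
      have := last i c1 c2 c3 f1 (by omega)
      rcases d'' with f | f
      exacts [by omega, f f1]
  · obtain ⟨j, p1, p2, p3, p4, p5⟩ := hp
    simp only [hl, List.mem_reverse, lo, hi, if_neg hbz] at p1 p2 p3 p4 p5
    refine ⟨j, ?_, ?_, fun i c1 c2 c3 x hx => ?_⟩
    · split_ifs at p1 with c <;> grind
    · simp only [Bool.not_true]
      simp only [cond_false] at wr
      split_ifs at p2 <;> grind
    obtain ⟨d1, d2, d3⟩ := lkp i c1 c2 c3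
    simp only [tr, cond_true] at hx
    refine ⟨fun d => ?_, fun d d' => ?_, fun d => ⟨fun d' d'' => ?_, fun d' d'' d5 => ?_⟩⟩
    · rw [d3 j (by omega)] at p3 p4
      exact (sp i c1 c2).elim p3 p4
    · rw [if_pos d', ← d] at p2; omega
    · exact hbz ((p5 d).2.1 (by rw [d3 _ (by omega)]; exact vx_drop c2 d')).1
    · obtain ⟨f1, -, f2⟩ := (p5 d).1 (by rw [d3 _ (by omega)]; exact vx_take c1 c2 d')
      rw [if_pos f1] at f2
      have := last i c1 c2 c3 f1 (by omega)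
      rcases d'' with f | f
      exacts [by omega, f f1]

omit [Fintype Q] in
/-- the end at the centre comes through the far part of the link -/
theorem far_pos (hT : Fit z T) (h3 : 3 ≤ G.gap z) (h : G.M0 o z b I e t)
    (ha : G.Adj z (vx b I e I.length)) : farF o (min 8 (G.ps z (vx b I e I.length))) = true := by
  have hz : 1 ≤ z.1 := by have := hT.lev; omega
  have hv := h.1.2.2.2.2 _ (vx_mem (b := b) (e := e) (List.length_pos_iff.2 h.1.2.2.2.1) le_rfl)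
  have h1 := h.2.2.1
  rw [vx_getLast (b := b) (e := e) h.1.2.2.2.1] at h1
  cases o <;> simp only [cond_true, cond_false, farF, Nat.ble_eq] at h1 ⊢ <;>
    rw [rt_pos hz (by omega) (by omega) ha hv] at h1 <;> omega

theorem red_P (hT : Fit z T) (h3 : 3 ≤ G.gap z) (hM : M.Run P q0 a c) (hg : G.gap z ≤ 5)
    {pk : Bool} (hpk : pk = true → G.dg z = k + 1) (o : Bool) (s : Option Bool) :
    G.sT P z s (G.fM P o (G.Pk k z) a c z) ≤
      ∑ n ∈ Ioo (T.w0 o) (G.gap z + 4 - T.w0 (!o)), T.sum P (M.spP pk n o) q0 1 1 s := by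
  refine red_sum _ hT h3 hM (S := fun n => M.spP pk n o) (fun _ => ⟨rfl, rfl, rfl, rfl, rfl⟩)
    (fun b I e t hb _ h hp => ?_) s
  obtain ⟨n, h1, h2, h4⟩ := pk_pos hT hb h hp
  refine ⟨n, mem_Ioo.2 ⟨h1, by omega⟩, fun i q c1 c2 c3 c4 x y hx hy => ?_⟩
  obtain ⟨d1, d2, -⟩ := hT.ps (h.1.2.2.2.2 _ (vx_mem c1 c2)) c3
  obtain ⟨f1, f2, f3⟩ := h4 i c1 c2 c3 (tr o x y) (by
    rw [hx, hy, min_eq_right (by omega), min_eq_right (by omega)])
  simp only [MK.spP, cc, c4]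
  refine ⟨?_, fun d => ?_, fun d d' => ?_⟩
  · rw [Bool.cond_eq_ite, if_neg]
    simp only [Bool.or_eq_true, Bool.and_eq_true, Nat.beq_eq, Bool.not_eq_true', decide_eq_false_iff_not]
    rintro (a | ⟨⟨a, a'⟩, a''⟩)
    exacts [f1 a, (f3 (hpk a)).1 (by omega) a'']
  · rw [Bool.cond_eq_ite, if_neg]
    simp only [Bool.and_eq_true, Nat.beq_eq, decide_eq_true_eq]
    rintro ⟨⟨a, a'⟩, a''⟩
    exact (f3 (hpk a)).2 a' d a''
  · subst d
    rw [hx, far_pos hT h3 h c3, ← hx, Nat.ble_eq_true_of_le (f2 rfl d')]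
    rfl

theorem red_Pu (hT : Fit z T) (h3 : 3 ≤ G.gap z) (hM : M.Run P q0 a 0) (s : Option Bool) :
    G.sT P z s (G.fM P true (G.Pk k z) a 0 z) ≤
      ∑ n ∈ Ioo (T.w0 true) 6, T.sum P (M.spP false n true) q0 1 1 s +
        T.sum P (M.spC 6 true) q0 1 1 s := by
  have w1 : T.w0 true ≤ 1 := wof_le _
  refine (red_sum (Ioc (T.w0 true) 6) hT h3 hM (S := fun n => if n = 6 then M.spC 6 true else
    M.spP false n true) (fun n => by split_ifs <;> exact ⟨rfl, rfl, rfl, rfl, rfl⟩)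
    (fun b I e t hb _ h hp => ?_) s).trans_eq ?_
  swap
  · rw [← sum_Ioo_add_eq_sum_Ioc (by omega), if_pos rfl]
    exact congrArg (· + _) (sum_congr rfl fun n hn => by rw [if_neg (mem_Ioo.1 hn).2.ne])
  obtain ⟨n, h1, -, h4⟩ := pk_pos hT hb h hp
  refine ⟨min n 6, mem_Ioc.2 ⟨by omega, by omega⟩, fun i q c1 c2 c3 c4 x y hx hy => ?_⟩
  obtain ⟨f1, f2, -⟩ := h4 i c1 c2 c3 _ rfl
  simp only [tr, cond_true] at f1 f2
  split_ifs with g
  · refine ⟨rfl, fun _ => rfl, fun d d' => ?_⟩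
    subst d
    simp only [MK.spC, tr, cond_true]
    rw [hx, far_pos hT h3 h c3, Nat.ble_eq_true_of_le (by have := f2 rfl d'; omega)]
    rfl
  · simp only [MK.spP, tr, cond_true, Bool.false_and, Bool.or_false]
    refine ⟨?_, fun _ => rfl, fun d d' => ?_⟩
    · rw [cc, Bool.cond_eq_ite, if_neg (by rw [Nat.beq_eq]; omega)]
    · subst d
      rw [hx, far_pos hT h3 h c3, Nat.ble_eq_true_of_le (by have := f2 rfl d'; omega)]
      rfl

theorem red_C (hT : Fit z T) (h3 : 3 ≤ G.gap z) (hM : M.Run P q0 a c) (o : Bool) (s : Option Bool) :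
    G.sT P z s (G.fM P o (fun _ _ _ _ => True) a c z) ≤ T.sum P (M.spC 0 o) q0 1 1 s := by
  refine (red_sum {()} hT h3 hM (S := fun _ => M.spC 0 o) (fun _ => ⟨rfl, rfl, rfl, rfl, rfl⟩)
    (fun b I e t _ _ h _ => ⟨(), mem_singleton_self _, fun i q c1 c2 c3 _ x y hx hy =>
      ⟨rfl, fun _ => rfl, fun d _ => ?_⟩⟩) s).trans_eq (sum_singleton ..)
  obtain ⟨d1, d2, -⟩ := hT.ps (h.1.2.2.2.2 _ (vx_mem c1 c2)) c3
  subst d
  simp only [MK.spC]
  rw [Nat.ble_eq_true_of_le (show 0 + 1 ≤ tr o x y by cases o <;> simp only [tr, cond_true,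
    cond_false] <;> omega), hx, far_pos hT h3 h c3]
  rfl

theorem red_P_bond (hT : Fit z T) (h3 : 3 ≤ G.gap z) {M : MK (Fin 3)} {a b : ℝ≥0∞}
    (hM : M.Bond P a b) (hg : G.gap z ≤ 5) {pk : Bool} (hpk : pk = true → G.dg z = k + 1) (o : Bool)
    (s : Option Bool) : G.sT P z s (G.fM P o (G.Pk k z) a b z) ≤
      ∑ n ∈ Ioo (T.w0 o) (G.gap z + 4 - T.w0 (!o)), T.sum P (M.spP pk n o) 2 1 1 s :=
  red_P hT h3 hM.run hg hpk o s

theorem red_Pu_bond (hT : Fit z T) (h3 : 3 ≤ G.gap z) {M : MK (Fin 3)} {a : ℝ≥0∞}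
    (hM : M.Bond P a 0) (s : Option Bool) : G.sT P z s (G.fM P true (G.Pk k z) a 0 z) ≤
      ∑ n ∈ Ioo (T.w0 true) 6, T.sum P (M.spP false n true) 2 1 1 s +
        T.sum P (M.spC 6 true) 2 1 1 s := red_Pu hT h3 hM.run s

theorem red_C_bond (hT : Fit z T) (h3 : 3 ≤ G.gap z) {M : MK (Fin 3)} {a b : ℝ≥0∞}
    (hM : M.Bond P a b) (o : Bool) (s : Option Bool) :
    G.sT P z s (G.fM P o (fun _ _ _ _ => True) a b z) ≤ T.sum P (M.spC 0 o) 2 1 1 s :=
  red_C hT h3 hM.run o s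

theorem red_P_site (hT : Fit z T) (h3 : 3 ≤ G.gap z) {M : MK (Fin 4)} {a b : ℝ≥0∞}
    (hM : M.Site P false a b) (hg : G.gap z ≤ 5) {pk : Bool} (hpk : pk = true → G.dg z = k + 1)
    (o : Bool) (s : Option Bool) : G.sT P z s (G.fM P o (G.Pk k z) a b z) ≤
      ∑ n ∈ Ioo (T.w0 o) (G.gap z + 4 - T.w0 (!o)), T.sum P (M.spP pk n o) 3 1 1 s :=
  red_P hT h3 hM.run hg hpk o s

theorem red_Pu_site (hT : Fit z T) (h3 : 3 ≤ G.gap z) {M : MK (Fin 4)} {a : ℝ≥0∞}
    (hM : M.Site P false a 0) (s : Option Bool) : G.sT P z s (G.fM P true (G.Pk k z) a 0 z) ≤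
      ∑ n ∈ Ioo (T.w0 true) 6, T.sum P (M.spP false n true) 3 1 1 s +
        T.sum P (M.spC 6 true) 3 1 1 s := red_Pu hT h3 hM.run s

theorem red_C_site (hT : Fit z T) (h3 : 3 ≤ G.gap z) {M : MK (Fin 4)} {a b : ℝ≥0∞}
    (hM : M.Site P false a b) (o : Bool) (s : Option Bool) :
    G.sT P z s (G.fM P o (fun _ _ _ _ => True) a b z) ≤ T.sum P (M.spC 0 o) 3 1 1 s :=
  red_C hT h3 hM.run o s

end Pool.Agent.P.MP_e4ac67_pr.Gr
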