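import Pool.Agent.P.MP_e4ac67_pr.G.Iface

/-! Paths cut at a neighbour of the centre into two phases. -/

open scoped ENNReal

namespace Pool.Agent.P.MP_e4ac67_pr.Gr

variable {Q : Type}

theorem Sys.runW_tsum_le {ι : Type} (S : Sys Q) (t : ι → Q → Option Pt → Pt → ℝ≥0∞)
    (h : ∀ q prev v, ∑' i, t i q prev v ≤ S.term q prev v) : ∀ (L : List (Pt × Q)) q prev v,
    ∑' i, ({ S with term := t i } : Sys Q).runW q prev v L ≤ S.runW q prev v L
  | [], q, prev, v => h q prev v
  | u :: L, q, prev, v => by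
    simp only [Sys.runW]
    rw [ENNReal.tsum_mul_left]
    exact mul_le_mul' le_rfl (Sys.runW_tsum_le S t h L _ _ _)

/-- the list of the vertices `A (m + 1), ..., A (m + n)` with their states -/
def seg (A : ℕ → Pt) (ρ : ℕ → Q) (m n : ℕ) : List (Pt × Q) :=
  (List.range n).map fun i => (A (m + (i + 1)), ρ (m + (i + 1)))

theorem seg_fst (A : ℕ → Pt) (ρ : ℕ → Q) (m n : ℕ) :
    (seg A ρ m n).map Prod.fst = (List.range n).map fun i => A (m + (i + 1)) := by
  simp [seg, List.map_map, Function.comp_def]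

theorem seg_chain {G : Grid} {A : ℕ → Pt} (ρ : ℕ → Q) {m n : ℕ}
    (h : ∀ i < n, G.Adj (A (m + i)) (A (m + (i + 1)))) :
    (A m :: (seg A ρ m n).map Prod.fst).IsChain G.Adj := by
  have : A m :: (seg A ρ m n).map Prod.fst = (List.range (n + 1)).map fun i => A (m + i) := by
    rw [seg_fst, List.range_succ_eq_map, List.map_cons, List.map_map]; rfl
  rw [this, List.isChain_map, List.isChain_range_succ]
  exact h

theorem seg_eq {A B : ℕ → Pt} {ρ σ : ℕ → Q} {m m' n n' : ℕ} (h : seg A ρ m n = seg B σ m' n') :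
    n = n' ∧ ∀ i < n, A (m + (i + 1)) = B (m' + (i + 1)) ∧ ρ (m + (i + 1)) = σ (m' + (i + 1)) := by
  have e : n = n' := by simpa [seg] using congrArg List.length h
  subst e
  refine ⟨rfl, fun i hi => ?_⟩
  have := List.map_inj_left.1 h i (List.mem_range.2 hi)
  exact ⟨congrArg Prod.fst this, congrArg Prod.snd this⟩

theorem seg_nodup {A : ℕ → Pt} {N a l : ℕ} (h : ∀ j j', a ≤ j → j < j' → j' ≤ N → A j ≠ A j')
    (hl : a + l ≤ N + 1) : ((List.range l).map fun j => A (a + j)).Nodup :=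
  (List.nodup_map_iff_inj_on List.nodup_range).2 fun j hj j' hj' e => by
    rw [List.mem_range] at hj hj'
    by_contra ne
    rcases lt_or_gt_of_ne ne with e' | e'
    · exact h _ _ (by omega) (by omega) (by omega) e
    · exact h _ _ (by omega) (by omega) (by omega) e.symm

namespace Spec
variable {G : Grid} {T : Tube G}

/-- A family of paths `A x 0 = b, ..., A x (n x)` from a tube vertex. -/
theorem one_phase (P1 : Spec Q) {X : Type} (w : X → ℝ≥0∞) (A : X → ℕ → Pt) (ρ : X → ℕ → Q)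
    (n : X → ℕ) (q : Q) (b : Pt)
    (hinj : ∀ x y, w x ≠ 0 → w y ≠ 0 → n x = n y →
      (∀ j ≤ n x, A x j = A y j ∧ ρ x j = ρ y j) → x = y)
    (h : ∀ x, w x ≠ 0 → A x 0 = b ∧ ρ x 0 = q ∧ (∀ j < n x, G.Adj (A x j) (A x (j + 1))) ∧
      (∀ j j', 1 ≤ j → j < j' → j' ≤ n x → A x j ≠ A x j') ∧
      w x ≤ (∏ j ∈ Finset.range (n x), (P1.sys T).om (ρ x j) (ρ x (j + 1))
          (if j = 0 then none else some (A x (j - 1))) (A x j) (A x (j + 1))) *
        (P1.sys T).term (ρ x (n x)) (if n x = 0 then none else some (A x (n x - 1))) (A x (n x))) :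
    ∑' x, w x ≤ P1.loops T q b := by
  refine tsum_le_of_enc w _ (fun x => seg (A x) (ρ x) 0 (n x)) (fun x y hx hy e => ?_)
    fun x hx => ?_
  · obtain ⟨e1, e2⟩ := seg_eq e
    refine hinj x y hx hy e1 fun j hj => ?_
    rcases Nat.eq_zero_or_pos j with rfl | h0
    · exact ⟨(h x hx).1.trans (h y hy).1.symm, (h x hx).2.1.trans (h y hy).2.1.symm⟩
    · simpa only [zero_add, show j - 1 + 1 = j by omega] using e2 (j - 1) (by omega)
  · obtain ⟨h0, h1, h5, h6, h7⟩ := h x hx
    have c1 := seg_chain (G := G) (A := A x) (ρ x) (m := 0) (n := n x) fun j hj => by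
      simpa using h5 j hj
    have n1 : ((seg (A x) (ρ x) 0 (n x)).map Prod.fst).Nodup := by
      rw [seg_fst]
      simpa only [zero_add, add_comm 1] using seg_nodup (a := 1) (l := n x) h6 (by omega)
    have r1 := runW_eq (P1.sys T) (n x) (A x) (ρ x) none
    rw [h0] at c1
    rw [h0, h1] at r1
    rw [ind_of (And.intro c1 n1), one_mul]
    exact h7.trans (le_of_eq (r1.symm.trans (by simp only [seg, zero_add])))

/-- The same for simple paths from any vertex. -/
theorem one_path (P1 : Spec Q) {X : Type} (w : X → ℝ≥0∞) (A : X → ℕ → Pt) (ρ : X → ℕ → Q)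
    (n : X → ℕ) (q : Q) (prev : Option Pt) (b : Pt) (Vis : Set Pt)
    (hinj : ∀ x y, w x ≠ 0 → w y ≠ 0 → n x = n y →
      (∀ j ≤ n x, A x j = A y j ∧ ρ x j = ρ y j) → x = y)
    (h : ∀ x, w x ≠ 0 → A x 0 = b ∧ ρ x 0 = q ∧ (∀ j < n x, G.Adj (A x j) (A x (j + 1))) ∧
      (∀ j j', j < j' → j' ≤ n x → A x j ≠ A x j') ∧ (∀ j, 1 ≤ j → j ≤ n x → A x j ∉ Vis) ∧
      w x ≤ (∏ j ∈ Finset.range (n x), (P1.sys T).om (ρ x j) (ρ x (j + 1))
          (if j = 0 then prev else some (A x (j - 1))) (A x j) (A x (j + 1))) *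
        (P1.sys T).term (ρ x (n x)) (if n x = 0 then prev else some (A x (n x - 1))) (A x (n x))) :
    ∑' x, w x ≤ P1.paths T q prev b Vis := by
  refine tsum_le_of_enc w _ (fun x => seg (A x) (ρ x) 0 (n x)) (fun x y hx hy e => ?_)
    fun x hx => ?_
  · obtain ⟨e1, e2⟩ := seg_eq e
    refine hinj x y hx hy e1 fun j hj => ?_
    rcases Nat.eq_zero_or_pos j with rfl | h0
    · exact ⟨(h x hx).1.trans (h y hy).1.symm, (h x hx).2.1.trans (h y hy).2.1.symm⟩
    · simpa only [zero_add, show j - 1 + 1 = j by omega] using e2 (j - 1) (by omega)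
  · obtain ⟨h0, h1, h5, h6, h8, h7⟩ := h x hx
    have c1 := seg_chain (G := G) (A := A x) (ρ x) (m := 0) (n := n x) fun j hj => by
      simpa using h5 j hj
    have n1 : (b :: (seg (A x) (ρ x) 0 (n x)).map Prod.fst).Nodup := by
      have := seg_nodup (a := 0) (l := n x + 1) (fun j j' _ => h6 j j') (by omega)
      rw [List.range_succ_eq_map, List.map_cons, List.map_map] at this
      rw [seg_fst, ← h0]
      exact this
    have v1 : ∀ u ∈ (seg (A x) (ρ x) 0 (n x)).map Prod.fst, u ∉ Vis := fun u hu => by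
      rw [seg_fst, List.mem_map] at hu
      obtain ⟨j, hj, rfl⟩ := hu
      exact h8 _ (by omega) (by have := List.mem_range.1 hj; omega)
    have r1 := runW_eq (P1.sys T) (n x) (A x) (ρ x) prev
    rw [h0] at c1
    rw [h0, h1] at r1
    rw [ind_of (show Sys.Simple G b _ Vis from ⟨c1, n1, v1⟩), one_mul]
    exact h7.trans (le_of_eq (r1.symm.trans (by simp only [seg, zero_add])))

/-- A family of paths `A x 0 = b, ..., A x (m x + n x)` cut at the visit `A x (m x)` of a
neighbour of the centre: the first part is weighed by `P1`, the second by `P2`. -/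
theorem two_phase (P1 P2 : Spec Q) {o : Bool} {i : ℕ} (V : Q → ℕ) (ok : Q → Prop)
    (hV : ∀ r, ok r → P2.Link T o i r (V r))
    (hlt : ∀ r, ok r → V r ≤ T.lk P1.lt 0 r (nbr T o i)) (hn : ¬T.Tz (nbr T o i))
    {X : Type} (w : X → ℝ≥0∞) (A : X → ℕ → Pt) (ρ : X → ℕ → Q) (m n : X → ℕ) (q : Q) (b : Pt)
    (hinj : ∀ x y, w x ≠ 0 → w y ≠ 0 → m x + n x = m y + n y →
      (∀ j ≤ m x + n x, A x j = A y j ∧ ρ x j = ρ y j) → x = y)
    (h : ∀ x, w x ≠ 0 → A x 0 = b ∧ ρ x 0 = q ∧ 1 ≤ m x ∧ A x (m x) = nbr T o i ∧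
      ok (ρ x (m x)) ∧ (∀ j < m x + n x, G.Adj (A x j) (A x (j + 1))) ∧
      (∀ j j', 1 ≤ j → j < j' → j' ≤ m x + n x → A x j ≠ A x j') ∧
      w x ≤ (∏ j ∈ Finset.range (m x), (P1.sys T).om (ρ x j) (ρ x (j + 1))
          (if j = 0 then none else some (A x (j - 1))) (A x j) (A x (j + 1))) *
        ((∏ j ∈ Finset.range (n x), (P2.sys T).om (ρ x (m x + j)) (ρ x (m x + (j + 1)))
          (if j = 0 then none else some (A x (m x + (j - 1)))) (A x (m x + j))
            (A x (m x + (j + 1)))) *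
          (P2.sys T).term (ρ x (m x + n x)) (if n x = 0 then none else some (A x (m x + (n x - 1))))
            (A x (m x + n x)))) :
    ∑' x, w x ≤ P1.loops T q b := by
  classical
  set c := nbr T o i
  let t : List (Pt × Q) → Q → Option Pt → Pt → ℝ≥0∞ := fun L r _ v =>
    ind (v = c ∧ ok r) * (ind (Sys.Simple G c (L.map Prod.fst) ∅) * (P2.sys T).runW r none c L)
  have ht : ∀ r prev v, ∑' L, t L r prev v ≤ (P1.sys T).term r prev v := fun r prev v => by
    simp only [t]
    rw [ENNReal.tsum_mul_left]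
    refine ind_mul_le fun ⟨e, hr⟩ => ((hV r hr none ∅ (by simp)).trans (vv_mono (hlt r hr))).trans
      (le_of_eq ?_)
    subst e
    exact (if_neg hn).symm
  refine (tsum_le_of_enc w (fun L : List (Pt × Q) × List (Pt × Q) =>
    ind ((b :: L.1.map Prod.fst).IsChain G.Adj ∧ (L.1.map Prod.fst).Nodup) *
      ({ P1.sys T with term := t L.2 } : Sys Q).runW q none b L.1)
    (fun x => (seg (A x) (ρ x) 0 (m x), seg (A x) (ρ x) (m x) (n x))) (fun x y hx hy e => ?_)
    fun x hx => ?_).trans ?_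
  · obtain ⟨e1, e2⟩ := seg_eq (congrArg Prod.fst e)
    obtain ⟨e3, e4⟩ := seg_eq (congrArg Prod.snd e)
    refine hinj x y hx hy (by omega) fun j hj => ?_
    rcases Nat.eq_zero_or_pos j with rfl | h0
    · exact ⟨(h x hx).1.trans (h y hy).1.symm, (h x hx).2.1.trans (h y hy).2.1.symm⟩
    by_cases hm : j ≤ m x
    · simpa only [zero_add, show j - 1 + 1 = j by omega] using e2 (j - 1) (by omega)
    · have := e4 (j - m x - 1) (by omega)
      rwa [← e1, show m x + (j - m x - 1 + 1) = j by omega] at this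
  · obtain ⟨h0, h1, h2, h3, h4, h5, h6, h7⟩ := h x hx
    have nd : ∀ a l, 1 ≤ a → a + l ≤ m x + n x + 1 →
        ((List.range l).map fun j => A x (a + j)).Nodup := fun a l ha hl =>
      seg_nodup (fun j j' k1 => h6 j j' (ha.trans k1)) hl
    have c1 := seg_chain (G := G) (A := A x) (ρ x) (m := 0) (n := m x) fun j hj => by
      simpa using h5 j (by omega)
    have c2 := seg_chain (G := G) (A := A x) (ρ x) (m := m x) (n := n x) fun j hj =>
      h5 (m x + j) (by omega)
    have n1 : ((seg (A x) (ρ x) 0 (m x)).map Prod.fst).Nodup := by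
      rw [seg_fst]
      simpa only [zero_add, add_comm 1] using nd 1 (m x) le_rfl (by omega)
    have n2 : (c :: (seg (A x) (ρ x) (m x) (n x)).map Prod.fst).Nodup := by
      have := nd (m x) (n x + 1) h2 (by omega)
      rw [List.range_succ_eq_map, List.map_cons, List.map_map] at this
      rw [seg_fst, ← h3]
      exact this
    rw [h0] at c1
    rw [h3] at c2
    refine h7.trans (le_of_eq ?_)
    have r1 := runW_eq ({ P1.sys T with term := t (seg (A x) (ρ x) (m x) (n x)) } : Sys Q) (m x)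
      (A x) (ρ x) none
    have r2 := runW_eq (P2.sys T) (n x) (fun j => A x (m x + j)) (fun j => ρ x (m x + j)) none
    simp only [add_zero, h3] at r2
    rw [h0, h1] at r1
    simp only [ind_of (And.intro c1 n1), one_mul]
    refine Eq.trans ?_ (Eq.trans r1.symm (by simp only [seg, zero_add]))
    simp only [t, ind_of (And.intro h3 h4), one_mul]
    rw [ind_of (show Sys.Simple G c _ ∅ from ⟨c2, n2, by simp⟩), one_mul]
    exact congrArg _ r2.symm
  · rw [ENNReal.tsum_prod']
    refine ENNReal.tsum_le_tsum fun L => ?_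
    simp only
    rw [ENNReal.tsum_mul_left]
    exact mul_le_mul' le_rfl (Sys.runW_tsum_le _ t ht L _ _ _)

end Spec
end Pool.Agent.P.MP_e4ac67_pr.Gr
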