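import Pool.Agent.P.MP_e4ac67_pr.G.Mark
import Pool.Agent.P.MP_e4ac67_pr.G.Bridge
import Pool.Agent.P.MP_e4ac67_pr.G.Two

/-! The alternatives: arcs cut at the first vertex of the link. -/

open scoped ENNReal

namespace Pool.Agent.P.MP_e4ac67_pr.Gr
open Grid

variable {G : Grid} {z v b e : Pt} {T : Tube G} {k t : ℕ} {P : Nm} {Q : Type} {I : List Pt}

theorem c5_take {i : ℕ} (h1 : 1 ≤ i) (h2 : i ≤ I.length) (h3 : i ≤ t) : vx b I e i ∈ I.take t := by
  obtain ⟨i, rfl⟩ : ∃ j, i = j + 1 := ⟨i - 1, by omega⟩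
  rw [vx_succ (by omega)]
  exact List.mem_take_iff_getElem.2 ⟨i, by omega, rfl⟩

theorem c5_drop {i : ℕ} (h2 : i ≤ I.length) (h3 : t < i) : vx b I e i ∈ I.drop t := by
  obtain ⟨i, rfl⟩ : ∃ j, i = t + j + 1 := ⟨i - t - 1, by omega⟩
  rw [vx_succ (by omega)]
  exact List.mem_drop_iff_getElem.2 ⟨i, by omega, rfl⟩

theorem c5_of_take (h : v ∈ I.take t) : ∃ i, 1 ≤ i ∧ i ≤ I.length ∧ i ≤ t ∧ vx b I e i = v := by
  obtain ⟨i, h1, rfl⟩ := List.mem_take_iff_getElem.1 h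
  exact ⟨i + 1, by omega, by omega, by omega, vx_succ (by omega)⟩

theorem c5_of_drop (h : v ∈ I.drop t) : ∃ i, i ≤ I.length ∧ t < i ∧ vx b I e i = v := by
  obtain ⟨i, h1, rfl⟩ := List.mem_drop_iff_getElem.1 h
  exact ⟨t + i + 1, by omega, by omega, vx_succ (by omega)⟩

namespace Fit
variable (h : Fit z T)
include h

theorem c5_w0 (o : Bool) : G.Tb z (T.l + 1, out o T.z 1) ↔ T.w0 o = 1 := by
  have e1 := h.l1
  have e2 := h.snd
  refine ⟨fun a => ?_, fun a => Or.inr ⟨((h.et o).1 a).1, (h.lat o a).symm⟩⟩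
  obtain ⟨a1, a2⟩ := a.resolve_left (by rintro ⟨i, a, a', -⟩; simp only at a'; omega)
  refine (h.et o).2 ⟨a1, ?_⟩
  rw [lt1] at a2
  cases o <;> split_ifs at a2 with c <;> simp only [out, sg, Prod.mk.injEq] at a2 <;>
    first | omega | simp [c]

theorem c5_lo (hb : b ≠ z) : G.lo G.Tb z b v = T.w0 true := by
  have := h.c5_w0 true
  have w := wof_le (T.st true (T.l + 1))
  rw [← h.l1, ← h.snd, show (z.1, out true z.2 1) = G.nb z 1 by simp [nb_one, out, sg]] at this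
  rw [lo, if_neg hb]
  unfold Tube.w0 at this ⊢
  split_ifs with a
  exacts [(this.1 a).symm, by have := mt this.2 a; omega]

theorem c5_hi (hb : b ≠ z) : G.hi G.Tb z b v = G.gap z + 4 - T.w0 false := by
  have := h.c5_w0 false
  have w := wof_le (T.st false (T.l + 1))
  rw [← h.l1, ← h.snd,
    show (z.1, out false z.2 1) = G.nb z (G.gap z + 3) by simp [nb_rt, out, sg]] at this
  rw [hi, if_neg hb]
  unfold Tube.w0 at this ⊢
  split_ifs with a
  exacts [by rw [this.1 a]; rfl, by have := mt this.2 a; omega]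

theorem c5_lk (h3 : 3 ≤ G.gap z) (o : Bool) {i : ℕ} (h1 : 1 ≤ i) (h2 : i ≤ 3) :
    G.lk z (cond o i (G.gap z + 4 - i)) = Spec.nbr T o i := by
  rw [h.nbr o h1 (by omega), Grid.lk_eq]
  cases o <;> simp only [cond_true, cond_false, dg] <;> omega

theorem c5_Y (o : Bool) : G.lk z (cond o (T.w0 o) (G.gap z + 4 - T.w0 o)) = T.Y o := by
  have w := wof_le (T.st o (T.l + 1))
  have e1 := h.l1
  have a := an_one (G := G) (z := z) (by omega)
  have t1 := G.tau_le z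
  rw [Tube.Y, Tube.w0, h.er o (show T.l ≤ z.1 by omega), show z.1 - T.l = 1 by omega, ← h.snd]
  split_ifs with c
  · rw [c]
    cases o <;> simp only [cond_true, cond_false] <;> rw [Grid.lk_eq (by unfold dg; omega)]
    · rw [show G.gap z + 4 - 1 = G.gap z + 3 by omega, nb_rt]; simp [out, sg, e1]
    · simp [nb_one, out, sg, e1]
  · rw [show wof (T.st o (T.l + 1)) = 0 by omega]
    cases o <;> simp only [cond_true, cond_false]
    · rw [a.2, a.1, Grid.lk, dg, Nat.sub_zero]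
      rcases (by omega : G.tau z = 0 ∨ G.tau z = 1) with c' | c' <;> rw [c']
      · simp [nb_zero, e1]
      · rw [Nat.mod_eq_of_lt (by omega), nb_up _ _ le_rfl]; simp [e1]
    · rw [a.1, Grid.lk_eq (by unfold dg; omega), nb_zero]; simp [e1]

/-- the alternative on the side of the start -/
theorem c5_near (h3 : 3 ≤ G.gap z) {o : Bool} (ht : t ≤ I.length)
    (a : CR o (G.Alt k z o) b I e t) : b ≠ T.Y o ∧ Spec.nbr T o (T.w0 o + 1) ∉ I.take t ∧
      (G.dg z = k + 1 → Spec.nbr T o (T.w0 o + 2) ∉ I.take t) ∧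
      Spec.nbr T o (T.w0 o + 1) ∈ I.drop t := by
  have w := wof_le (T.st o (T.l + 1))
  have l1 := h.c5_lk h3 o (i := T.w0 o + 1) (by omega) (by unfold Tube.w0; omega)
  have l2 := h.c5_lk h3 o (i := T.w0 o + 2) (by omega) (by unfold Tube.w0; omega)
  have l0 := h.c5_Y o
  cases o <;> simp only [CR, Alt, AltL, AltR, cond_true, cond_false, if_true, Bool.false_eq_true,
    if_false] at a l0 l1 l2 <;> obtain ⟨⟨a1, a2, a3, a4⟩, a5⟩ := a
  · rw [h.c5_hi a1] at a2 a3 a4 a5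
    rw [List.drop_reverse, show I.length - (I.length - t) = t by omega] at a3 a4
    rw [List.take_reverse, show I.length - (I.length - t) = t by omega] at a5
    rw [Nat.sub_sub, l1, List.mem_reverse] at a3 a5
    rw [Nat.sub_sub, l2, List.mem_reverse] at a4
    exact ⟨l0 ▸ a2, a3, fun c => (a4 c).1, a5⟩
  · rw [h.c5_lo a1] at a2 a3 a4 a5
    rw [l1] at a3 a5
    rw [l2] at a4
    rw [List.mem_reverse] at a3 a4
    exact ⟨l0 ▸ a2, a3, fun c => (a4 c).1, a5⟩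

/-- the alternative on the side of the end -/
theorem c5_far (h3 : 3 ≤ G.gap z) {o : Bool} (ht : t ≤ I.length)
    (a : CR o (G.Alt k z (!o)) b I e t) : e ≠ z ∧ e ≠ T.Y (!o) ∧
      (G.dg z = k + 1 → Spec.nbr T (!o) (T.w0 (!o) + 2) ∉ I.drop t) ∧
      Spec.nbr T (!o) (T.w0 (!o) + 1) ∈ I.take t := by
  have w := wof_le (T.st (!o) (T.l + 1))
  have l1 := h.c5_lk h3 (!o) (i := T.w0 (!o) + 1) (by omega) (by unfold Tube.w0; omega)
  have l2 := h.c5_lk h3 (!o) (i := T.w0 (!o) + 2) (by omega) (by unfold Tube.w0; omega)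
  have l0 := h.c5_Y (!o)
  cases o <;> simp only [CR, Alt, AltL, AltR, cond_true, cond_false, if_true, Bool.false_eq_true,
    if_false, Bool.not_true, Bool.not_false] at a l0 l1 l2 ⊢ <;> obtain ⟨⟨a1, a2, -, a4⟩, a5⟩ := a
  · rw [h.c5_lo a1] at a2 a4 a5
    rw [List.take_reverse, show I.length - (I.length - t) = t by omega, List.reverse_reverse,
      l2] at a4
    rw [List.drop_reverse, show I.length - (I.length - t) = t by omega, l1, List.mem_reverse] at a5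
    exact ⟨a1, l0 ▸ a2, fun c => (a4 c).1, a5⟩
  · rw [h.c5_hi a1] at a2 a4 a5
    rw [Nat.sub_sub, l1] at a5
    rw [Nat.sub_sub, l2] at a4
    exact ⟨a1, l0 ▸ a2, fun c => (a4 c).1, a5⟩

omit h in
theorem c5_off (o : Bool) : ¬T.Tz (Spec.nbr T o (T.w0 o + 1)) := by
  have w := wof_le (T.st o (T.l + 1))
  rw [Spec.nbr, Tube.w0]
  split_ifs with c
  · have : T.Free o (T.l + 1, out o T.z 1) := ⟨le_rfl, by
      simp only [T.top, out]; cases o <;> simp only [sg] <;> omega⟩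
    cases o
    exacts [fun a => a.2.2 this, fun a => a.2.1 this]
  · exact fun a => by have := a.1; simp only at this; omega

/-- a factor that is `1` unless the vertex is one of two neighbours of the centre -/
theorem c5_ff (h3 : 3 ≤ G.gap z) (F : Q → ℕ → ℕ → ℕ) (q : Q) (u : Bool) {n : ℕ} (h1 : 1 ≤ n)
    (h2 : n ≤ 2) (hF : ¬Wz G.Tb z v → G.Adj z v → ∀ i j, (tr u i j = n → v = Spec.nbr T u n) →
      (tr u i j = n + 1 → v = Spec.nbr T u (n + 1)) → F q i j = NN) : Spec.ff T F q v = 1 := by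
  by_cases hv : Wz G.Tb z v
  · exact h.ff_tube F q hv
  rw [h.ff_off F q hv]
  split_ifs with a
  swap
  · rfl
  obtain ⟨a1, a2, a3⟩ := h.ps hv a
  rw [hF hv a, vv_NN] <;> intro c <;> rw [h.nbr u (by omega) (by omega), ← a3] <;> congr 1 <;>
    cases u <;> simp only [tr, cond_true, cond_false] at c ⊢ <;> omega

theorem c5_lt (h3 : 3 ≤ G.gap z) (F : Q → ℕ → ℕ → ℕ) (q : Q) (u : Bool) {n : ℕ} (h1 : 1 ≤ n)
    (h2 : n ≤ 2) : ∃ i j, tr u i j = n ∧ T.lk F 0 q (Spec.nbr T u n) = F q i j := by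
  rw [h.nbr u h1 (by omega), h.lk_nb F 0 q (by cases u <;> simp only [cond_true, cond_false] <;> omega)
    (by cases u <;> simp only [cond_true, cond_false] <;> omega)]
  refine ⟨_, _, ?_, rfl⟩
  cases u <;> simp only [tr, cond_true, cond_false] <;> omega

end Fit

theorem c5_om {S : Spec Q} {q r : Q} {prev : Option Pt} {u : Pt} (hg : S.Go T prev v u)
    (h1 : Spec.ff T S.lo q v = 1) (h2 : Spec.ff T S.lf r u = 1) :
    (S.sys T).om q r prev v u = vv (S.w.wl q r (tyb (G.Ear prev u))) := by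
  simp only [Spec.sys, ind_of hg, h1, h2, one_mul, mul_one, Spec.sw]

open Classical in
theorem c5_fM (o : Bool) (C : Pt → List Pt → Pt → ℕ → Prop) (a c : ℝ≥0∞) :
    G.fM P o C a c z b I ≤ ∑' y : Pt × ℕ × ℕ,
      ind (Wz G.Tb z y.1 ∧ G.M0 o z b I y.1 y.2.1 ∧ CR o C b I y.1 y.2.1) *
        ((if y.1 = z then a else c * oe P b y.1) * G.mw P z b I y.1 y.2) := by
  rw [ENNReal.tsum_prod', ENNReal.tsum_eq_add_tsum_ite z, fM, ← ENNReal.tsum_mul_left]
  refine add_le_add ?_ (ENNReal.tsum_le_tsum fun e => ?_)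
  · refine (mul_le_mul_right (fC_le o C (Or.inl rfl)) a).trans (le_of_eq ?_)
    rw [← ENNReal.tsum_mul_left]
    refine tsum_congr fun x => ?_
    simp only [if_true, Wz, true_or, true_and]
    ring
  · rw [mul_left_comm]
    refine ind_mul_le fun he => ?_
    have e0 : e ≠ z := ((tubeOK G).lev z e he).2
    rw [if_neg e0, ← mul_assoc]
    refine (mul_le_mul_right (fC_le o C (Or.inr he)) _).trans (le_of_eq ?_)
    rw [← ENNReal.tsum_mul_left]
    refine tsum_congr fun x => ?_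
    simp only [if_neg e0, Wz, he, or_true, true_and]
    ring

theorem Grid.M0.c5_sides (h3 : 3 ≤ G.gap z) {o : Bool} (h : G.M0 o z b I e t) :
    (G.Rt z 4 (I.headD z) ↔ o = false) ∧ (G.Rt z 4 (I.getLastD z) ↔ (!o) = false) := by
  obtain ⟨-, h1, h2, -⟩ := h
  cases o <;> simp only [cond_true, cond_false] at h1 h2
  · exact ⟨iff_of_true (mono_rt h3 h1) rfl, iff_of_false h2 (by simp)⟩
  · exact ⟨iff_of_false h1 (by simp), iff_of_true (mono_rt h3 h2) rfl⟩

theorem Grid.Arc.c5_head (h : G.Arc z b I e) :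
    G.Adj b (I.headD z) ∧ ¬Wz G.Tb z (I.headD z) :=
  ⟨by rw [vx_head (b := b) (e := e) h.2.2.2.1]; exact vx_adj h.1 (Nat.zero_le _),
    h.2.2.2.2 _ (mono_hd h.2.2.2.1)⟩

theorem c5_ne {o : Bool} {C : Pt → List Pt → Pt → ℕ → Prop} {a c : ℝ≥0∞}
    (h : G.fM P o C a c z b I ≠ 0) : ∃ e t, G.M0 o z b I e t ∧ CR o C b I e t := by
  by_contra n
  refine h (le_zero_iff.1 ((c5_fM o C a c).trans (le_of_eq (ENNReal.tsum_eq_zero.2 fun y => ?_))))
  rw [ind_of_not fun a => n ⟨_, _, a.2⟩, zero_mul]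

open Classical in
/-- marked arcs from `b` cut at the visit of a neighbour of the centre -/
theorem Fit.c5_two (h : Fit z T) (h3 : 3 ≤ G.gap z) {M : MK Q} {q0 : Q} {a c : ℝ≥0∞}
    (hM : M.Run P q0 a c) {o u : Bool} {C : Pt → List Pt → Pt → ℕ → Prop} {S1 S2 : Spec Q}
    {V : Q → ℕ} {ok : Q → Prop} {n : ℕ} (w1 : S1.w = M.w) (w2 : S2.w = M.w) (so : S1.so = o)
    (pw : S2.pw = M.pw) (ws : M.ab = true → S2.ws = some (!o))
    (hV : ∀ r, ok r → S2.Link T u n r (V r))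
    (hlt : ∀ r, ok r → V r ≤ T.lk S1.lt 0 r (Spec.nbr T u n)) (hn : ¬T.Tz (Spec.nbr T u n))
    (hb : G.Tb z b)
    (H : ∀ I e t (ρ : ℕ → Q), Wz G.Tb z e → G.M0 o z b I e t → CR o C b I e t →
      (∀ i, M.nr (ρ i) = decide (i ≤ t)) →
      (∀ i, i < I.length ∨ e ≠ z → G.Adj z (vx b I e i) → M.zo (ρ i) = NN) →
      ∃ m, 1 ≤ m ∧ m ≤ I.length ∧ vx b I e m = Spec.nbr T u n ∧ ok (ρ m) ∧
        (∀ i < m, Spec.ff T S1.lo (ρ i) (vx b I e i) = 1 ∧
          Spec.ff T S1.lf (ρ (i + 1)) (vx b I e (i + 1)) = 1) ∧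
        (∀ i, m ≤ i → i < I.length ∨ (i = I.length ∧ e ≠ z) →
          Spec.ff T S2.lo (ρ i) (vx b I e i) = 1 ∧
          Spec.ff T S2.lf (ρ (i + 1)) (vx b I e (i + 1)) = 1) ∧
        (e = z → ∀ prev, vv (M.zt (ρ I.length)) ≤
          (S2.sys T).term (ρ I.length) prev (vx b I e I.length)) ∧
        (S2.no1 = true → e ≠ G.yv z o)) :
    ∑' I, G.fM P o C a c z b I ≤ S1.loops T q0 b := by
  obtain ⟨-, ρ, hρ⟩ := hM
  have b0 : b ≠ z := ((tubeOK G).lev z b hb).2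
  refine (ENNReal.tsum_le_tsum fun I => c5_fM o C a c).trans ?_
  rw [← ENNReal.tsum_prod' (f := fun y : List Pt × Pt × ℕ × ℕ =>
    ind (Wz G.Tb z y.2.1 ∧ G.M0 o z b y.1 y.2.1 y.2.2.1 ∧ CR o C b y.1 y.2.1 y.2.2.1) *
      ((if y.2.1 = z then a else c * oe P b y.2.1) * G.mw P z b y.1 y.2.1 y.2.2))]
  set w : List Pt × Pt × ℕ × ℕ → ℝ≥0∞ := fun y =>
    ind (Wz G.Tb z y.2.1 ∧ G.M0 o z b y.1 y.2.1 y.2.2.1 ∧ CR o C b y.1 y.2.1 y.2.2.1) *
      ((if y.2.1 = z then a else c * oe P b y.2.1) * G.mw P z b y.1 y.2.1 y.2.2) with hw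
  have nz : ∀ y, w y ≠ 0 → (Wz G.Tb z y.2.1 ∧ G.M0 o z b y.1 y.2.1 y.2.2.1 ∧
      CR o C b y.1 y.2.1 y.2.2.1) ∧ G.mw P z b y.1 y.2.1 y.2.2 ≠ 0 ∧ (y.2.1 ≠ z → c ≠ 0) :=
    fun y hy => ⟨of_ind_mul_ne hy, right_ne_zero_of_mul (right_ne_zero_of_mul hy), fun e0 => by
      have := left_ne_zero_of_mul (right_ne_zero_of_mul hy)
      rw [if_neg e0] at this
      exact left_ne_zero_of_mul this⟩
  have key := fun y hy => H y.1 y.2.1 y.2.2.1 (ρ y.2.2) (nz y hy).1.1 (nz y hy).1.2.1 (nz y hy).1.2.2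
    ((hρ G z b y.1 y.2.1 b0).2 y.2.2 (nz y hy).1.2.1.2.2.2 (nz y hy).2.1).2.1 (by
      obtain ⟨-, -, f, -, f1, f2⟩ :=
        (hρ G z b y.1 y.2.1 b0).2 y.2.2 (nz y hy).1.2.1.2.2.2 (nz y hy).2.1
      intro i hi ha
      by_cases e0 : y.2.1 = z
      · exact (f1 e0).1 i (hi.resolve_right (not_not.2 e0)) ha
      · exact (f2 e0 ((nz y hy).2.2 e0)).2.1 i)
  choose! m hm using key
  refine Spec.two_phase S1 S2 V ok hV hlt hn w (fun y => vx b y.1 y.2.1) (fun y => ρ y.2.2) m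
    (fun y => (if y.2.1 = z then y.1.length else y.1.length + 1) - m y) q0 b
    (fun x y hx hy e1 e2 => ?_) fun y hy => ?_
  · obtain ⟨⟨x1, x2, -⟩, x4, -⟩ := nz x hx
    obtain ⟨⟨y1, y2, -⟩, y4, -⟩ := nz y hy
    obtain ⟨x5, x6, -⟩ := hm x hx
    obtain ⟨y5, y6, -⟩ := hm y hy
    obtain ⟨I, e, x⟩ := x
    obtain ⟨J, e', y⟩ := y
    generalize m (I, e, x) = m1 at *
    generalize m (J, e', y) = m2 at *
    simp only at x1 x2 x4 y1 y2 y4 x5 x6 y5 y6 e1 e2
    have k : I.length = J.length ∧ e = e' := by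
      split_ifs at e1 e2 with c1 c2 c2
      · exact ⟨by omega, c1.trans c2.symm⟩
      · have := (e2 I.length (by omega)).1
        rw [show I.length = J.length + 1 by omega, vx_last, ← show I.length = J.length + 1 by omega]
          at this
        exact absurd (this ▸ y1) (x2.1.2.2.2.2 _ (vx_mem (by omega) le_rfl))
      · have := (e2 (I.length + 1) (by omega)).1
        rw [vx_last, show I.length + 1 = J.length by omega] at this
        exact absurd (this ▸ x1) (y2.1.2.2.2.2 _ (vx_mem (by omega) le_rfl))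
      · have := (e2 (I.length + 1) (by omega)).1
        rw [vx_last, show I.length = J.length by omega, vx_last] at this
        exact ⟨by omega, this⟩
    obtain ⟨k1, rfl⟩ := k
    have k2 : ∀ i ≤ I.length, _ := fun i hi => e2 i (by split_ifs <;> omega)
    obtain rfl : I = J := vx_ext k1 fun i hi => (k2 (i + 1) hi).1
    rw [(hρ G z b I e b0).1 x y x2.2.2.2 y2.2.2.2 x4 y4 fun i hi => (k2 i hi).2]
  obtain ⟨⟨y1, y2, -⟩, y4, y7⟩ := nz y hy
  obtain ⟨m1, m2, m3, m4, m5, m6, m7, m8⟩ := hm y hy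
  obtain ⟨r0, -, f, f0, f1, f2⟩ := (hρ G z b y.1 y.2.1 b0).2 y.2.2 y2.2.2.2 y4
  have sd := y2.c5_sides h3
  obtain ⟨I, e, x⟩ := y
  generalize m (I, e, x) = m at *
  simp only at y1 y2 y4 y7 m2 m3 m4 m5 m6 m7 m8 r0 f0 f1 f2 sd ⊢
  obtain ⟨a1, a2, a3, a4, a5⟩ := y2.1
  obtain ⟨N, hN⟩ : ∃ N, N = (if e = z then I.length else I.length + 1) - m := ⟨_, rfl⟩
  have N1 : ∀ i, i < m + N → i < I.length ∨ (i = I.length ∧ e ≠ z) := fun i hi => by
    split_ifs at hN with c1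
    · omega
    · rcases (by omega : i < I.length ∨ i = I.length) with c2 | c2
      exacts [Or.inl c2, Or.inr ⟨c2, c1⟩]
  have off : ∀ i, 1 ≤ i → i ≤ I.length → ¬Wz G.Tb z (vx b I e i) := fun i c1 c2 =>
    a5 _ (vx_mem c1 c2)
  rw [← hN]
  refine ⟨rfl, r0, m1, m3, m4, fun j hj => vx_adj a1 (by have := N1 j hj; omega),
    fun j j' c1 c2 c3 c4 => ?_, ?_⟩
  · have := N1 (j' - 1) (by omega)
    have := vx_inj a2 a3 c1 (by omega) (by omega) (by omega) c4
    omega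
  have p1 : ∏ j ∈ Finset.range m, f j ≤ ∏ j ∈ Finset.range m, (S1.sys T).om (ρ x j) (ρ x (j + 1))
      (if j = 0 then none else some (vx b I e (j - 1))) (vx b I e j) (vx b I e (j + 1)) := by
    refine Finset.prod_le_prod' fun j hj => ?_
    rw [Finset.mem_range] at hj
    rw [c5_om ?_ (m5 j hj).1 (m5 j hj).2, w1]
    · refine f0 j (Or.inl (by omega)) _ fun v hv => ?_
      split_ifs at hv with c1
      exact ⟨by omega, (Option.some.inj hv).symm⟩
    split_ifs with c1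
    · subst c1
      exact h.go_fst (c := 4) (off 1 le_rfl (by omega)) (by rw [so, ← vx_head (z := z) a4]; exact sd.1)
    · exact h.go_mid (off j (by omega) (by omega)) (off _ (by omega) (by omega))
  have p2 : ∏ j ∈ Finset.range N, f (m + j) ≤ ∏ j ∈ Finset.range N,
      (S2.sys T).om (ρ x (m + j)) (ρ x (m + (j + 1)))
        (if j = 0 then none else some (vx b I e (m + (j - 1)))) (vx b I e (m + j))
          (vx b I e (m + (j + 1))) := by
    refine Finset.prod_le_prod' fun j hj => ?_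
    rw [Finset.mem_range] at hj
    have c0 := N1 (m + j) (by omega)
    rw [← add_assoc, c5_om ?_ (m6 _ (by omega) c0).1 (m6 _ (by omega) c0).2, w2]
    · refine f0 _ c0 _ fun v hv => ?_
      split_ifs at hv with c1
      exact ⟨by omega, by rw [← Option.some.inj hv]; congr 1; omega⟩
    rcases c0 with c0 | ⟨c0, c1⟩
    · exact h.go_mid (off _ (by omega) (by omega)) (off _ (by omega) (by omega))
    · rw [c0, vx_last]
      refine h.go_lst (c := 4) (off _ (by omega) le_rfl) (y1.resolve_left c1) ?_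
        (ws (f2 c1 (y7 c1)).1) (by rw [← vx_getLast (z := z) a4]; exact sd.2) (by omega) (by omega)
      simpa only [vx_last] using vx_adj a1 (le_refl I.length)
  refine le_trans (ind_mul_le fun _ => ?_) (mul_le_mul' p1 (mul_le_mul' p2 le_rfl))
  rw [← mul_assoc, ← Finset.prod_range_add]
  split_ifs at hN ⊢ with c1 c2 c2
  · rw [show m + N = I.length by omega]
    exact (f1 c1).2.trans (mul_le_mul_right (m7 c1 _) _)
  · rw [show m + N = I.length by omega]
    exact (f1 c1).2.trans (mul_le_mul_right (m7 c1 _) _)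
  · omega
  · rw [show m + N = I.length + 1 by omega, vx_last, h.term_tube _ y1 (ws (f2 c1 (y7 c1)).1)
      (by rwa [Bool.not_not]), pw, mul_assoc]
    exact (f2 c1 (y7 c1)).2.2

theorem c5_cc {c : Bool} {a b : ℕ} (h : c = false) : cc c a b = b := by rw [h]; rfl

theorem c5_beq {a b : ℕ} (h : ¬a = b) : Nat.beq a b = false :=
  Bool.eq_false_iff.2 fun e => h (Nat.eq_of_beq_eq_true e)

theorem red_A [Fintype Q] (hT : Fit z T) (h3 : 3 ≤ G.gap z) {M : MK Q} {q0 : Q} {a c : ℝ≥0∞}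
    (hM : M.Run P q0 a c) {pk : Bool} (hpk : pk = true → G.dg z = k + 1) (o : Bool) {V : Q → ℕ}
    (hV : ∀ q, M.nr q = false → (M.spA2 (T.w0 o + 1) o).Link T o (T.w0 o + 1) q (V q))
    (s : Option Bool) : G.sT P z s (G.fM P o (G.Alt k z o) a c z) ≤
      T.sum P (M.sp1 o (T.w0 o + 1) false pk V o) q0 0 (T.w0 o) s := by
  have w : T.w0 o ≤ 1 := wof_le _
  refine hT.sT_le (fun b I _ h => ?_) (fun b hb => ?_) s
  · obtain ⟨e, t, h1, -⟩ := c5_ne h
    exact ⟨h1.1.c5_head.1, h1.1.c5_head.2, (h1.c5_sides h3).1⟩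
  by_cases n : ∀ I, G.fM P o (G.Alt k z o) a c z b I = 0
  · simp [n]
  obtain ⟨I0, n⟩ := not_forall.1 n
  obtain ⟨e0, t0, n1, n2⟩ := c5_ne n
  have n3 := (hT.c5_near h3 n1.2.2.2 n2).1
  rw [Tube.Y] at n3
  have n4 : ¬T.l < b.1 := fun a => by
    obtain ⟨-, -, a1, a2⟩ := hT.lat_of (c := 4) hb a n1.1.c5_head.1 n1.1.c5_head.2
      (n1.c5_sides h3).1 (by omega) (by omega)
    exact n3 (by rw [if_pos a1, a2])
  rw [if_neg n4]
  refine le_trans ?_ (le_mul_of_one_le_left' ?_)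
  swap
  · split_ifs with a
    · rw [show T.w0 o = 1 from by_contra fun a' => n3 (by rw [if_neg (show ¬wof _ = 1 from a')]; exact a), Nat.cast_one]
    · rfl
  refine hT.c5_two h3 hM (S2 := M.spA2 (T.w0 o + 1) o) (ok := fun q => M.nr q = false) rfl rfl rfl
    rfl (fun a => by simp [MK.spA2, a]) hV (fun r hr => ?_) (Fit.c5_off o) hb
    fun I e t ρ he h1 h2 nr zo => ?_
  · obtain ⟨i, j, a1, a2⟩ := hT.c5_lt h3 (M.sp1 o (T.w0 o + 1) false pk V o).lt r o
      (n := T.w0 o + 1) (by omega) (by omega)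
    rw [a2]
    simp [MK.sp1, a1, hr, cc]
  obtain ⟨-, a2, a3, a4⟩ := hT.c5_near h3 h1.2.2.2 h2
  obtain ⟨m, m2, m1, m3⟩ := c5_of_drop (b := b) (e := e) a4
  obtain ⟨b1, b2, b3, b4, b5⟩ := h1.1
  have ne : ∀ i, ¬Wz G.Tb z (vx b I e i) → i ≤ I.length + 1 → i ≠ m →
      vx b I e i ≠ Spec.nbr T o (T.w0 o + 1) := fun i c0 c1 c2 c3 => by
    rcases Nat.eq_zero_or_pos i with rfl | c4
    · exact c0 (Or.inr hb)
    · exact c2 (vx_inj b2 b3 c4 c1 (by omega) (by omega) (c3.trans m3.symm))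
  refine ⟨m, by omega, m2, m3, by rw [nr]; simp; omega, fun i hi => ⟨?_, ?_⟩, fun i c1 c2 => ⟨?_, ?_⟩,
    fun c prev => ?_, fun c => by simp [MK.spA2] at c⟩
  · refine hT.c5_ff h3 _ _ o (n := T.w0 o + 1) (by omega) (by omega) fun c0 c1 i' j' c2 _ => ?_
    have := mt c2 (ne i c0 (by omega) (by omega))
    exact (c5_cc (c5_beq this)).trans (zo i (Or.inl (by omega)) c1)
  · refine hT.c5_ff h3 _ _ o (n := T.w0 o + 1) (by omega) (by omega) fun c0 c1 i' j' c2 c3 => ?_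
    refine (c5_cc ?_).trans (hM.1 _)
    by_cases c4 : i + 1 ≤ t
    · have c5 := c5_take (b := b) (e := e) (I := I) (by omega) (by omega) c4
      rw [c5_beq (mt c2 fun d => a2 (d ▸ c5))]
      cases pk
      · simp
      · simp [c5_beq (mt c3 fun d' => a3 (hpk rfl) (d' ▸ c5))]
    · simp [nr, c4]
  · refine hT.c5_ff h3 _ _ o (n := T.w0 o + 1) (by omega) (by omega) fun c0 c1 i' j' _ _ => ?_
    exact zo i (c2.imp_right And.right) c1
  · refine hT.c5_ff h3 _ _ o (n := T.w0 o + 1) (by omega) (by omega) fun c0 c1 i' j' c3 _ => ?_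
    have := mt c3 (ne (i + 1) c0 (by omega) (by omega))
    exact (c5_cc (c5_beq this)).trans (hM.1 _)
  · subst c
    rw [← vx_getLast (z := e) b4]
    have d0 := b5 _ (mono_ls (z := e) b4)
    have d1 := h1.1.mono_adj.symm
    obtain ⟨d2, d3, d4⟩ := hT.ps d0 d1
    have d5 := h1.2.2.1
    rw [hT.term_off _ d0, if_pos d1]
    rw [← d4] at d5
    refine le_of_eq (congrArg vv ?_)
    cases o <;> simp only [cond_true, cond_false] at d5 <;>
      rw [rt_nb (by omega) (by omega) d2 d3] at d5 <;> simp only [MK.spA2, farF, cc, cond_true,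
        cond_false] <;> rw [Nat.ble_eq_true_of_le (by omega), cond_true]

theorem red_B [Fintype Q] (hT : Fit z T) (h3 : 3 ≤ G.gap z) {M : MK Q} {q0 : Q} {a c : ℝ≥0∞}
    (hM : M.Run P q0 a c) {pk : Bool} (hpk : pk = true → G.dg z = k + 1) (o : Bool) {V : Q → ℕ}
    (hV : ∀ q, M.nr q = true →
      (M.spB2 pk (T.w0 (!o) + 1) (!o)).Link T (!o) (T.w0 (!o) + 1) q (V q))
    (s : Option Bool) : G.sT P z s (G.fM P o (G.Alt k z (!o)) a c z) ≤
      T.sum P (M.sp1 (!o) (T.w0 (!o) + 1) true false V o) q0 1 1 s := by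
  have w : T.w0 (!o) ≤ 1 := wof_le _
  refine hT.sT_le (fun b I _ h => ?_) (fun b hb => ?_) s
  · obtain ⟨e, t, h1, -⟩ := c5_ne h
    exact ⟨h1.1.c5_head.1, h1.1.c5_head.2, (h1.c5_sides h3).1⟩
  rw [ite_self, ite_self, one_mul]
  refine hT.c5_two h3 hM (S2 := M.spB2 pk (T.w0 (!o) + 1) (!o)) (ok := fun q => M.nr q = true) rfl
    rfl rfl rfl (fun _ => rfl) hV (fun r hr => ?_) (Fit.c5_off _) hb fun I e t ρ he h1 h2 nr zo => ?_
  · obtain ⟨i, j, a1, a2⟩ := hT.c5_lt h3 (M.sp1 (!o) (T.w0 (!o) + 1) true false V o).lt r (!o)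
      (n := T.w0 (!o) + 1) (by omega) (by omega)
    rw [a2]
    simp [MK.sp1, a1, hr, cc]
  obtain ⟨a1, a2, a3, a4⟩ := hT.c5_far h3 h1.2.2.2 h2
  obtain ⟨m, m1, m2, m0, m3⟩ := c5_of_take (b := b) (e := e) a4
  obtain ⟨b1, b2, b3, b4, b5⟩ := h1.1
  have ne : ∀ i, ¬Wz G.Tb z (vx b I e i) → i ≤ I.length + 1 → i ≠ m →
      vx b I e i ≠ Spec.nbr T (!o) (T.w0 (!o) + 1) := fun i c0 c1 c2 c3 => by
    rcases Nat.eq_zero_or_pos i with rfl | c4
    · exact c0 (Or.inr hb)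
    · exact c2 (vx_inj b2 b3 c4 c1 (by omega) (by omega) (c3.trans m3.symm))
  refine ⟨m, m1, m2, m3, by rw [nr]; simpa using m0, fun i hi => ⟨?_, ?_⟩, fun i c1 c2 => ⟨?_, ?_⟩,
    fun c => absurd c a1, fun _ => by rwa [hT.Y, Bool.not_not] at a2⟩
  · refine hT.c5_ff h3 _ _ (!o) (n := T.w0 (!o) + 1) (by omega) (by omega)
      fun c0 c1 i' j' c2 _ => ?_
    have := mt c2 (ne i c0 (by omega) (by omega))
    exact (c5_cc (c5_beq this)).trans (zo i (Or.inr a1) c1)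
  · refine hT.c5_ff h3 _ _ (!o) (n := T.w0 (!o) + 1) (by omega) (by omega)
      fun c0 c1 i' j' _ _ => (c5_cc ?_).trans (hM.1 _)
    simp [nr, show i + 1 ≤ t by omega]
  · exact hT.c5_ff h3 _ _ (!o) (n := T.w0 (!o) + 1) (by omega) (by omega) fun _ _ _ _ _ _ => rfl
  · refine hT.c5_ff h3 _ _ (!o) (n := T.w0 (!o) + 1) (by omega) (by omega)
      fun c0 c1 i' j' c3 c4 => c5_cc ?_
    rw [c5_beq (mt c3 (ne (i + 1) c0 (by omega) (by omega)))]
    by_cases c5 : i + 1 ≤ t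
    · simp [nr, c5]
    have c6 : i < I.length := c2.elim id fun d => absurd (by rwa [d.1, vx_last]) c0
    cases pk
    · simp
    · simp [c5_beq (mt c4 fun d' => a3 (hpk rfl) (d' ▸ c5_drop (b := b) (e := e) c6 (by omega)))]

theorem red_A_bond (hT : Fit z T) (h3 : 3 ≤ G.gap z) {M : MK (Fin 3)} {a b : ℝ≥0∞}
    (hM : M.Bond P a b) {pk : Bool} (hpk : pk = true → G.dg z = k + 1) (o : Bool) {V : Fin 3 → ℕ}
    (hV : ∀ q, M.nr q = false → (M.spA2 (T.w0 o + 1) o).Link T o (T.w0 o + 1) q (V q))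
    (s : Option Bool) : G.sT P z s (G.fM P o (G.Alt k z o) a b z) ≤
      T.sum P (M.sp1 o (T.w0 o + 1) false pk V o) 2 0 (T.w0 o) s :=
  red_A hT h3 hM.run hpk o hV s

theorem red_B_bond (hT : Fit z T) (h3 : 3 ≤ G.gap z) {M : MK (Fin 3)} {a b : ℝ≥0∞}
    (hM : M.Bond P a b) {pk : Bool} (hpk : pk = true → G.dg z = k + 1) (o : Bool) {V : Fin 3 → ℕ}
    (hV : ∀ q, M.nr q = true → (M.spB2 pk (T.w0 (!o) + 1) (!o)).Link T (!o) (T.w0 (!o) + 1) q (V q))
    (s : Option Bool) : G.sT P z s (G.fM P o (G.Alt k z (!o)) a b z) ≤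
      T.sum P (M.sp1 (!o) (T.w0 (!o) + 1) true false V o) 2 1 1 s :=
  red_B hT h3 hM.run hpk o hV s

theorem red_A_site (hT : Fit z T) (h3 : 3 ≤ G.gap z) {M : MK (Fin 4)} {a b : ℝ≥0∞}
    (hM : M.Site P false a b) {pk : Bool} (hpk : pk = true → G.dg z = k + 1) (o : Bool)
    {V : Fin 4 → ℕ}
    (hV : ∀ q, M.nr q = false → (M.spA2 (T.w0 o + 1) o).Link T o (T.w0 o + 1) q (V q))
    (s : Option Bool) : G.sT P z s (G.fM P o (G.Alt k z o) a b z) ≤
      T.sum P (M.sp1 o (T.w0 o + 1) false pk V o) 3 0 (T.w0 o) s :=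
  red_A hT h3 hM.run hpk o hV s

theorem red_B_site (hT : Fit z T) (h3 : 3 ≤ G.gap z) {M : MK (Fin 4)} {a b : ℝ≥0∞}
    (hM : M.Site P false a b) {pk : Bool} (hpk : pk = true → G.dg z = k + 1) (o : Bool)
    {V : Fin 4 → ℕ}
    (hV : ∀ q, M.nr q = true → (M.spB2 pk (T.w0 (!o) + 1) (!o)).Link T (!o) (T.w0 (!o) + 1) q (V q))
    (s : Option Bool) : G.sT P z s (G.fM P o (G.Alt k z (!o)) a b z) ≤
      T.sum P (M.sp1 (!o) (T.w0 (!o) + 1) true false V o) 3 1 1 s :=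
  red_B hT h3 hM.run hpk o hV s

/-- splitting of the classes of marked arcs -/
theorem fF_split (κ : ℝ≥0∞) (b : Pt) (I : List Pt) (e : Pt) : G.fF k P κ z b I e ≤
    G.fC P (G.Pk k z) z b I e +
      κ * (G.fC P (G.Alt k z true) z b I e + G.fC P (G.Alt k z false) z b I e) ∧
    (κ ≤ 1 → G.fF k P κ z b I e ≤ G.fC P (fun _ _ _ _ => True) z b I e) := by
  constructor
  · simp only [fF, fC, mul_add, ← ENNReal.tsum_mul_left, ← ENNReal.tsum_add]
    refine ENNReal.tsum_le_tsum fun x => ind_mul_le fun a => ?_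
    simp only [a, true_and]
    rw [← mul_add, ← add_mul, ← mul_assoc, ← add_mul]
    exact mul_le_mul_left (add_le_add le_rfl (mul_le_mul_right
      ((ind_mono fun c => c.2).trans (ind_or_le _ _)) _)) _
  · refine fun hk => ENNReal.tsum_le_tsum fun x => ind_mul_le fun a => ?_
    rw [ind_of (And.intro a trivial)]
    refine mul_le_mul_left ?_ _
    by_cases c : G.Pk k z b I e x.1
    · rw [ind_of c, ind_of_not fun d => d.1 c, mul_zero, add_zero]
    · rw [ind_of_not c, zero_add]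
      exact mul_le_one' hk (ind_le_one _)

end Pool.Agent.P.MP_e4ac67_pr.Gr
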