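import Pool.Agent.P.MP_e4ac67_pr.G.Mark
import Pool.Agent.P.MP_e4ac67_pr.G.Bridge

/-! Marked arcs from the centre to the centre. -/

open scoped ENNReal
open Finset

namespace Pool.Agent.P.MP_e4ac67_pr.Gr
open Grid (vx Wz)
variable {G : Grid} {z : Pt} {T : Tube G} {k : ℕ} {P : Nm} {Q : Type}

/-- the weight of the run `ρ` along the inner vertices of an arc -/
noncomputable def MK.zw (M : MK Q) (G : Grid) (z : Pt) (I : List Pt) (ρ : ℕ → Q) : ℝ≥0∞ :=
  (∏ i ∈ range (I.length - 1), vv (M.w.wl (ρ (i + 1)) (ρ (i + 1 + 1)) (tyb (G.Ear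
    (if i = 0 then none else some (vx z I z i)) (vx z I z (i + 1 + 1)))))) * vv (M.zt (ρ I.length))

/-- Every marked arc from the centre to the centre has a run from its first inner vertex. -/
def MK.RunZ (M : MK Q) (P : Nm) (q1 q2 : Q) (c1 c2 : ℝ≥0∞) : Prop :=
  ∃ ρ : ℕ × ℕ → ℕ → Q, ∀ (G : Grid) (z : Pt) (I : List Pt), 1 ≤ I.length →
    (∀ x y, x.1 ≤ I.length → y.1 ≤ I.length → G.mw P z z I z x ≠ 0 → G.mw P z z I z y ≠ 0 →
      (∀ i, 1 ≤ i → i ≤ I.length → ρ x i = ρ y i) → x = y) ∧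
    ∀ x, x.1 ≤ I.length → G.mw P z z I z x ≠ 0 →
      (∀ i, 1 ≤ i → M.nr (ρ x i) = decide (i ≤ x.1)) ∧
      (∀ i, 2 ≤ i → i ≤ I.length → G.Adj z (vx z I z i) → M.zi (ρ x i) = NN) ∧
      (∀ i, 1 ≤ i → i < I.length → G.Adj z (vx z I z i) → M.zo (ρ x i) = NN) ∧
      (ρ x 1 = q1 ∧ G.mw P z z I z x ≤ c1 * M.zw G z I (ρ x) ∨
        ρ x 1 = q2 ∧ G.mw P z z I z x ≤ c2 * M.zw G z I (ρ x))

theorem zw_ge {M : MK Q} {I : List Pt} {ρ : ℕ → Q} {f : ℕ → ℝ≥0∞} {a : ℝ≥0∞}
    (h : ∀ i < I.length - 1, StB G M.w (fun i => vx z I z (i + 1)) (fun i => ρ (i + 1)) i (f i))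
    (ha : a ≤ vv (M.zt (ρ I.length))) :
    (∏ i ∈ range (I.length - 1), f i) * a ≤ M.zw G z I ρ := by
  refine mul_le_mul' (prod_le_prod' fun i hi => h i (mem_range.1 hi) _ fun v hv => ?_) ha
  cases i with
  | zero => simp at hv
  | succ i => exact ⟨by omega, by simpa using hv.symm⟩

theorem MK.Bond.runZ {M : MK (Fin 3)} {b : ℝ≥0∞} (h : M.Bond P 1 b) : M.RunZ P 2 0 P.p P.p := by
  classical
  refine ⟨fun x i => if i ≤ x.1 then 2 else if i = x.1 + 1 ∧ 2 ≤ i then 1 else 0,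
    fun G z I hI => ⟨fun x y hx hy ax ay a => ?_, fun ⟨t, j⟩ ht ax => ?_⟩⟩
  · simp only [Grid.mw, h.m, Bool.false_eq_true, if_false] at ax ay
    have := of_ind_mul_ne ax
    have := of_ind_mul_ne ay
    have a1 := fun u => a _ u hx
    have a2 := fun u => a _ u hy
    have : x.1 = y.1 := by
      by_contra c
      rcases Nat.lt_or_gt_of_ne c with c | c
      · have := a2 (by omega)
        simp only at this
        split_ifs at this <;> omega
      · have := a1 (by omega)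
        simp only at this
        split_ifs at this <;> omega
    exact Prod.ext this (by omega)
  simp only at ht ⊢
  obtain ⟨n, hn⟩ : ∃ n, I.length = n + 1 := ⟨I.length - 1, by omega⟩
  set g : ℕ → ℝ≥0∞ := fun i => if (i + 1 ≠ t ∧ i ≠ t) ∧ 1 ≤ i ∧
    G.Adj (vx z I z i) (vx z I z (i + 1 + 1)) then P.q else 1 with hg
  have hp : ∏ i ∈ range n, ((if i + 1 = t then 2 * P.p else P.p) * g i) =
      (if 1 ≤ t ∧ t ≤ n then 2 else 1) * (P.p ^ n * ∏ i ∈ range n, g i) := by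
    have : ∀ i, (if i + 1 = t then 2 * P.p else P.p) =
        (if i = t - 1 then (if 1 ≤ t then 2 else 1) else 1) * P.p := fun i => by
      split_ifs <;> first | omega | simp
    simp only [this, prod_mul_distrib, prod_ite_eq', mem_range, prod_const, card_range, mul_assoc]
    congr 1
    split_ifs <;> first | omega | rfl
  have hw : ∀ j, j = t ∨ j = t + 1 → G.wF P z z I z t j ≤ P.p * (P.p ^ n * ∏ i ∈ range n, g i) :=
      fun j hj => by
    rw [← mul_assoc, ← pow_succ', ← hn, ← prod_ne P.p ht, Grid.wF, Grid.wt]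
    simp only [h.m, Bool.false_eq_true, false_and, if_false, mul_one, false_imp_iff, and_true,
      true_and, prod_mul_distrib, forall_const]
    refine mul_le_mul' le_rfl ?_
    rw [hn, prod_range_succ, prod_range_succ', if_neg (by omega), if_neg (by omega), mul_one,
      mul_one]
    refine (prod_congr rfl fun i hi => iteq ?_).le
    rw [mem_range] at hi
    exact ⟨fun a => ⟨by omega, by omega, a.2.2⟩, fun a => ⟨by omega, by omega, a.2.2⟩⟩
  have hm : G.mw P z z I z (t, j) ≤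
      P.p * ((if 1 ≤ t ∧ t ≤ n then 2 else 1) * (P.p ^ n * ∏ i ∈ range n, g i)) := by
    simp only [Grid.mw, h.m, Bool.false_eq_true, if_false]
    refine ind_mul_le fun _ => ?_
    rw [mul_left_comm]
    by_cases e1 : 1 ≤ t ∧ t ≤ n
    · rw [if_pos e1, two_mul]
      exact add_le_add (ind_mul_le fun _ => hw _ (by omega)) (ind_mul_le fun _ => hw _ (by omega))
    rw [if_neg e1, one_mul]
    by_cases e2 : t = 0
    · rw [ind_of_not (A := Grid.MJ P z z I z t t) fun a => a.2.1 (by rw [e2]; rfl), zero_mul,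
        zero_add]
      exact ind_mul_le fun _ => hw _ (by omega)
    · rw [ind_of_not (A := Grid.MJ P z z I z t (t + 1)) fun a => a.2.1 (by
        rw [show t = I.length by omega, Grid.vx_last]), zero_mul, add_zero]
      exact ind_mul_le fun _ => hw _ (by omega)
  have hz := zw_ge (G := G) (z := z) (I := I) (M := M)
    (ρ := fun i => if i ≤ t then 2 else if i = t + 1 ∧ 2 ≤ i then 1 else 0)
    (f := fun i => (if i + 1 = t then 2 * P.p else P.p) * g i) (fun i _ => ?_) (h.zt _)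
  · rw [hn, Nat.add_sub_cancel, hp, mul_one] at hz
    refine ⟨fun i _ => ?_, fun _ _ _ _ => h.zi _, fun _ _ _ _ => h.zo _, ?_⟩
    · rw [h.nr]; split_ifs with e1 e2 <;> simp [e1]
    · have := hm.trans (mul_le_mul' le_rfl hz)
      by_cases e : 1 ≤ t
      · exact Or.inl ⟨if_pos e, this⟩
      · exact Or.inr ⟨by rw [if_neg e, if_neg (by omega)], this⟩
  simp only [hg]
  have e0 : ∀ {x : ℝ≥0∞}, i + 1 ≠ t → i ≠ t → 1 ≤ i → G.Adj (vx z I z (i - 1 + 1))
      (vx z I z (i + 1 + 1)) → x * (if (i + 1 ≠ t ∧ i ≠ t) ∧ 1 ≤ i ∧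
      G.Adj (vx z I z i) (vx z I z (i + 1 + 1)) then P.q else 1) ≤ x * P.q := fun a b c d => by
    rw [if_pos ⟨⟨a, b⟩, c, by rwa [Nat.sub_add_cancel c] at d⟩]
  rcases (by omega : i + 1 < t ∨ i + 1 = t ∨ (i = t ∧ 1 ≤ i) ∨ (t < i ∨ (t = 0 ∧ i = 0))) with
    e1 | e1 | e1 | e1
  · rw [if_neg (show i + 1 ≠ t by omega)]
    exact stb_of h.s22 (if_pos e1.le) (if_pos (show i + 1 + 1 ≤ t from e1)) (mul_ite_le h.p1)
      (e0 (by omega) (by omega))
  · rw [if_pos e1]
    refine stb_of h.s21 (if_pos e1.le) ?_ (mul_ite_le h.p1) fun _ _ => ?_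
    · rw [if_neg (by omega), if_pos (by omega)]
    · rw [mul_one]; exact mul_ite_le h.p1
  · rw [if_neg (show i + 1 ≠ t by omega)]
    refine stb_of h.s10 ?_ ?_ (mul_ite_le h.p1) fun _ _ => ?_
    · rw [if_neg (by omega), if_pos (by omega)]
    · rw [if_neg (by omega), if_neg (by omega)]
    · rw [mul_one]; exact mul_ite_le h.p1
  · rw [if_neg (show i + 1 ≠ t by omega)]
    refine stb_of h.s00 ?_ ?_ (mul_ite_le h.p1) fun a => e0 (by omega) (by omega) a
    all_goals rw [if_neg (by omega), if_neg (by omega)]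

theorem MK.Site.runZ {M : MK (Fin 4)} {b : ℝ≥0∞} (h : M.Site P true 1 b) :
    M.RunZ P 3 2 P.p 1 := by
  classical
  refine ⟨fun x i => if i < x.2 then 3 else if i = x.2 then (if x.2 = x.1 then 2 else 1) else 0,
    fun G z I hI => ⟨fun x y hx hy ax ay a => ?_, fun ⟨t, j⟩ ht ax => ?_⟩⟩
  · simp only [Grid.mw, h.m, if_true] at ax ay
    obtain ⟨a3, -, a4⟩ := of_ind_mul_ne ax
    obtain ⟨a5, -, a6⟩ := of_ind_mul_ne ay
    have a1 := a _ (a4 h.m).1 (a4 h.m).2.1
    have a2 := a _ (a6 h.m).1 (a6 h.m).2.1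
    simp only at a1 a2
    refine Prod.ext ?_ ?_ <;> split_ifs at a1 a2 <;> omega
  simp only [Grid.mw, h.m, if_true] at ht ax ⊢
  have hj := of_ind_mul_ne ax
  rw [ind_of hj, one_mul] at ax ⊢
  obtain ⟨j1, -, j2⟩ := hj
  obtain ⟨j2, j3, j5, j4⟩ := j2 h.m
  have t1 : t ≠ 0 := fun e => j5 (by rw [e]; rfl)
  have t2 : t ≠ I.length := fun e => j4 (by rw [e, Grid.vx_last])
  obtain ⟨n, hn⟩ : ∃ n, I.length = n + 1 := ⟨I.length - 1, by omega⟩
  set f : ℕ → ℝ≥0∞ := fun i => (if i + 1 + 1 = j ∨ i + 1 = j then 1 else P.p) *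
    if i + 1 ≠ j ∧ 1 ≤ i ∧ G.Adj (vx z I z i) (vx z I z (i + 1 + 1)) then 0 else 1 with hf
  have e0 : ∀ {A B C : Prop} {_ : Decidable A} {_ : Decidable B} {_ : Decidable C} {x : ℝ≥0∞},
      (if A then P.p else 1) ≤ x →
      (if A then P.p else 1) * (if B then P.q else 1) * (if C then P.q else 1) ≤ x := fun a =>
    (mul_ite_le (by simp [h.q0])).trans ((mul_ite_le (by simp [h.q0])).trans a)
  have hw : G.wF P z z I z t j ≤ (if j = 1 then 1 else P.p) * ((∏ i ∈ range n, f i) *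
      if j = n + 1 then 1 else P.p) := by
    rw [Grid.wF, Grid.wt, hn, prod_range_succ, prod_range_succ', mul_right_comm, mul_comm]
    refine mul_le_mul' (e0 ?_) (mul_le_mul' (prod_le_prod' fun i hi => ?_) (e0 ?_))
    · simp only [h.m, forall_const]
      split_ifs <;> first | exact le_rfl | omega
    · rw [mem_range] at hi
      refine (mul_ite_le (by simp [h.q0])).trans (mul_le_mul' ?_ ?_)
      · simp only [h.m, forall_const]
        split_ifs <;> first | exact le_rfl | omega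
      · rw [h.q0]
        refine (iteq ⟨fun a => ⟨a.1.1, ?_, a.2.2⟩, fun a => ⟨⟨a.1, by simp [h.m],
          fun _ => by omega, fun _ => by omega⟩, by omega, a.2.2⟩⟩).le
        have := a.1.2.2.1 rfl
        omega
    · simp only [h.m, forall_const]
      split_ifs <;> first | exact le_rfl | omega
  have hl : ∀ i, 2 ≤ i → i ≤ n → i ≠ j → ¬G.Adj z (vx z I z i) := fun i a b c d => by
    refine absurd (prod_eq_zero (mem_range.2 (by omega : i < I.length + 1)) ?_) ax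
    rw [if_pos (c := _ ∧ G.Adj z _) ⟨⟨h.m, c, (le_or_gt i t).imp (fun u => ⟨rfl, a, u⟩)
      fun u => ⟨rfl, u, by omega⟩⟩, d⟩, h.q0, mul_zero]
  have hz := zw_ge (G := G) (z := z) (I := I) (M := M)
    (ρ := fun i => if i < j then 3 else if i = j then (if j = t then 2 else 1) else 0)
    (f := f) (a := if j = n + 1 then 1 else P.p) (fun i _ => ?_) ?_
  · rw [hn, Nat.add_sub_cancel] at hz
    refine ⟨fun i _ => ?_, fun i a b c => h.zi _ (Or.inl ?_), fun i a b c => h.zo _ ?_, ?_⟩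
    · rw [h.nr, decide_eq_decide]
      split_ifs <;> exact ⟨fun a => by omega, fun a => by first | decide | omega⟩
    · rw [if_neg fun e => hl i a (by omega) (by omega) c]
      split_ifs <;> decide
    · have : ¬j < i := fun e => hl i (by omega) (by omega) (by omega) c
      split_ifs <;> first | decide | omega
    · have := hw.trans (mul_le_mul' le_rfl hz)
      by_cases e : j = 1
      · rw [if_pos e] at this
        exact Or.inr ⟨by rw [if_neg (by omega), if_pos e.symm, if_pos (by omega)], this⟩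
      · rw [if_neg e] at this
        exact Or.inl ⟨if_pos (by omega), this⟩
  · simp only [hf]
    have e2 : ∀ {x : ℝ≥0∞}, i + 1 ≠ j → 1 ≤ i → G.Adj (vx z I z (i - 1 + 1))
        (vx z I z (i + 1 + 1)) → x * (if i + 1 ≠ j ∧ 1 ≤ i ∧
        G.Adj (vx z I z i) (vx z I z (i + 1 + 1)) then 0 else 1) ≤ x * 0 := fun a c d => by
      rw [if_pos ⟨a, c, by rwa [Nat.sub_add_cancel c] at d⟩]
    rcases (by omega : i + 1 + 1 < j ∨ i + 1 + 1 = j ∨ i + 1 = j ∨ j < i + 1) with e1 | e1 | e1 | e1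
    · rw [if_neg (show ¬(i + 1 + 1 = j ∨ i + 1 = j) by omega)]
      exact stb_of h.s33 (if_pos (show i + 1 < j by omega)) (if_pos e1) (mul_ite_le zero_le)
        (e2 (by omega))
    · rw [if_pos (Or.inl e1)]
      by_cases e3 : j = t
      · refine stb_of h.s32 (if_pos (show i + 1 < j by omega)) ?_ (mul_ite_le zero_le)
          (e2 (by omega))
        rw [if_neg (by omega), if_pos e1, if_pos e3]
      · refine stb_of h.s31 (if_pos (show i + 1 < j by omega)) ?_ (mul_ite_le zero_le)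
          (e2 (by omega))
        rw [if_neg (by omega), if_pos e1, if_neg e3]
    · rw [if_pos (Or.inr e1)]
      by_cases e3 : j = t
      · refine stb_of h.s20 ?_ ?_ (mul_ite_le zero_le) fun _ _ => ?_
        · rw [if_neg (by omega), if_pos e1, if_pos e3]
        · rw [if_neg (by omega), if_neg (by omega)]
        · rw [mul_one]; exact mul_ite_le zero_le
      · refine stb_of h.s10 ?_ ?_ (mul_ite_le zero_le) fun _ _ => ?_
        · rw [if_neg (by omega), if_pos e1, if_neg e3]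
        · rw [if_neg (by omega), if_neg (by omega)]
        · rw [mul_one]; exact mul_ite_le zero_le
    · rw [if_neg (show ¬(i + 1 + 1 = j ∨ i + 1 = j) by omega)]
      refine stb_of h.s00 ?_ ?_ (mul_ite_le zero_le) (e2 (by omega))
      all_goals rw [if_neg (by omega), if_neg (by omega)]
  · rw [if_neg (show ¬I.length < j by omega)]
    by_cases e1 : j = n + 1
    · rw [if_pos e1, if_pos (by omega), if_neg (by omega)]
      exact h.zt1
    · rw [if_neg e1, if_neg (by omega)]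
      exact (one_mul _).ge.trans h.zt0

variable [Fintype Q] {M : MK Q} {q1 q2 : Q} {c1 c2 : ℝ≥0∞}

/-- the value of a link factor at a neighbour of the centre -/
noncomputable def atv (G : Grid) (z : Pt) (F : Q → ℕ → ℕ → ℕ) (q : Q) (v : Pt) : ℕ :=
  F q (min 8 (G.ps z v)) (min 8 (G.gap z + 4 - G.ps z v))

theorem zz_le (hT : Fit z T) (hM : M.RunZ P q1 q2 c1 c2) (S : Spec Q) (hw : S.w = M.w) (v : Pt)
    (C : List Pt → ℕ → Prop) (hC : ∀ I t, G.M0 true z z I z t → C I t → vx z I z 1 = v ∧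
      (∀ i q, 2 ≤ i → i ≤ I.length → G.Adj z (vx z I z i) → M.nr q = decide (i ≤ t) →
        atv G z S.lf q (vx z I z i) = M.zi q) ∧
      (∀ i q, 1 ≤ i → i < I.length → G.Adj z (vx z I z i) → M.nr q = decide (i ≤ t) →
        atv G z S.lo q (vx z I z i) = M.zo q) ∧
      ∀ q, atv G z S.lt q (vx z I z I.length) = M.zt q) :
    ∑' x : List Pt × ℕ × ℕ, ind (G.M0 true z z x.1 z x.2.1 ∧ C x.1 x.2.1) * G.mw P z z x.1 z x.2 ≤
      c1 * S.paths T q1 none v ∅ + c2 * S.paths T q2 none v ∅ := by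
  obtain ⟨ρ, hρ⟩ := hM
  have pos : ∀ {I t}, G.M0 true z z I z t → 1 ≤ I.length := fun a =>
    List.length_pos_iff.2 a.1.2.2.2.1
  have key : ∀ q c, ∑' x : List Pt × ℕ × ℕ, ind (ρ x.2 1 = q ∧ G.mw P z z x.1 z x.2 ≤
      c * M.zw G z x.1 (ρ x.2)) * (ind (G.M0 true z z x.1 z x.2.1 ∧ C x.1 x.2.1) *
        G.mw P z z x.1 z x.2) ≤ c * S.paths T q none v ∅ := fun q c => by
    refine S.le_paths T _ (fun x => x.1.length - 1) (fun x i => vx z x.1 z (i + 1))
      (fun x i => ρ x.2 (i + 1)) q v c ?_ ?_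
    · rintro ⟨I, x⟩ ⟨J, y⟩ hx hy e1 e2
      have a1 := (of_ind_mul_ne hx).1
      have b1 := (of_ind_mul_ne hy).1
      have a2 := right_ne_zero_of_mul hx
      have b2 := right_ne_zero_of_mul hy
      obtain ⟨a3, a4⟩ := of_ind_mul_ne a2
      obtain ⟨b3, b4⟩ := of_ind_mul_ne b2
      have a5 := pos a3
      have b5 := pos b3
      simp only at a1 b1 a3 b3 a4 b4 a5 b5 e1 e2
      obtain rfl : I = J := Grid.vx_ext (by omega) fun i hi => by
        cases i with
        | zero => exact (hC _ _ a3 a4).1.trans (hC _ _ b3 b4).1.symm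
        | succ i => exact (e2 i (by omega)).1
      refine congrArg _ ((hρ G z I a5).1 x y a3.2.2.2 b3.2.2.2 (right_ne_zero_of_mul a2)
        (right_ne_zero_of_mul b2) fun i u w => ?_)
      rcases u.lt_or_eq with u | rfl
      · obtain ⟨i, rfl⟩ : ∃ j, i = j + 1 + 1 := ⟨i - 2, by omega⟩
        exact (e2 i (by omega)).2
      · exact a1.trans b1.symm
    rintro ⟨I, x⟩ hx
    obtain ⟨a1, a6⟩ := of_ind_mul_ne hx
    have a2 := right_ne_zero_of_mul hx
    obtain ⟨a3, a4⟩ := of_ind_mul_ne a2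
    have a5 := pos a3
    simp only at a1 a3 a4 a5 a6 a2 ⊢
    obtain ⟨r1, r2, r3, -⟩ := (hρ G z I a5).2 x a3.2.2.2 (right_ne_zero_of_mul a2)
    obtain ⟨s1, s2, s3, s4⟩ := hC _ _ a3 a4
    have off : ∀ i, 1 ≤ i → i ≤ I.length → ¬Wz G.Tb z (vx z I z i) := fun i u w =>
      a3.1.2.2.2.2 _ (Grid.vx_mem u w)
    refine ⟨s1, a1, fun i hi => Grid.vx_adj a3.1.1 (by omega), fun i hi j hj u => ?_,
      ind_mul_le fun _ => ind_mul_le fun _ => a6.trans (mul_le_mul' le_rfl (le_of_eq ?_))⟩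
    · have := Grid.vx_inj a3.1.2.1 a3.1.2.2.1 (by omega) (by omega) (by omega) (by omega) u
      omega
    rw [MK.zw, Spec.prW]
    congr 1
    · refine prod_congr rfl fun i hi => ?_
      rw [mem_range] at hi
      have o1 := off (i + 1) (by omega) (by omega)
      have o2 := off (i + 1 + 1) (by omega) (by omega)
      simp only [Spec.sys]
      rw [ind_of (hT.go_mid o1 o2), one_mul, hT.ff_off _ _ o1, hT.ff_off _ _ o2, Spec.sw, hw]
      have u1 : ∀ {A : Prop} {_ : Decidable A} {a : ℕ}, (A → a = NN) →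
          (if A then vv a else 1) = 1 := fun a => by
        split_ifs with c
        exacts [by rw [a c, vv_NN], rfl]
      have u2 := fun c => (s3 (i + 1) _ (by omega) (by omega) c (r1 _ (by omega))).trans
          (r3 _ (by omega) (by omega) c)
      have u3 := fun c => (s2 (i + 1 + 1) _ (by omega) (by omega) c (r1 _ (by omega))).trans
          (r2 _ (by omega) (by omega) c)
      unfold atv at u2 u3
      rw [u1 u2, u1 u3, one_mul, mul_one]
      cases i <;> simp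
    · have := Grid.vx_adj a3.1.1 le_rfl
      rw [Grid.vx_last] at this
      rw [Nat.sub_add_cancel a5, hT.term_off _ (off _ a5 le_rfl), if_pos this.symm, ← s4]
      rfl
  refine le_trans ?_ (add_le_add (key q1 c1) (key q2 c2))
  rw [← ENNReal.tsum_add]
  refine ENNReal.tsum_le_tsum fun x => ?_
  by_cases a : ind (G.M0 true z z x.1 z x.2.1 ∧ C x.1 x.2.1) * G.mw P z z x.1 z x.2 = 0
  · rw [a]; exact zero_le
  have a3 := (of_ind_mul_ne a).1
  rcases ((hρ G z x.1 (pos a3)).2 x.2 a3.2.2.2 (right_ne_zero_of_mul a)).2.2.2 with u | u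
  · rw [ind_of u, one_mul]; exact le_self_add
  · rw [ind_of u, one_mul]; exact le_add_self

/-- the arc starts at the position `l`, ends beyond `n` and skips `n` -/
def Grid.ZC (G : Grid) (z : Pt) (pk : Bool) (l n : ℕ) (I : List Pt) (t : ℕ) : Prop :=
  G.ps z (vx z I z 1) = l ∧ n < G.ps z (vx z I z I.length) ∧
    ∀ i, 1 ≤ i → i ≤ I.length → G.Adj z (vx z I z i) → G.ps z (vx z I z i) ≠ n ∧
      (pk = true → (i < I.length → i ≤ t → G.ps z (vx z I z i) ≠ n + 1) ∧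
        (2 ≤ i → t < i → G.ps z (vx z I z i) + 1 ≠ n))

theorem zz_pos (hT : Fit z T) (h3 : 3 ≤ G.gap z) {I : List Pt} {t : ℕ} (h : G.M0 true z z I z t) :
    T.w0 true < G.ps z (vx z I z 1) ∧ G.ps z (vx z I z 1) < 4 ∧
      vx z I z 1 = Spec.nbr T true (G.ps z (vx z I z 1)) ∧ 5 ≤ G.ps z (vx z I z I.length) ∧
      G.ps z (vx z I z I.length) + T.w0 false ≤ G.gap z + 3 := by
  obtain ⟨a, h1, h2, -⟩ := h
  have l := List.length_pos_iff.2 a.2.2.2.1
  rw [cond_true, Grid.vx_head (b := z) (e := z) a.2.2.2.1] at h1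
  rw [cond_true, Grid.vx_getLast (b := z) (e := z) a.2.2.2.1] at h2
  have o1 := a.2.2.2.2 _ (Grid.vx_mem (b := z) (e := z) le_rfl l)
  have o2 := a.2.2.2.2 _ (Grid.vx_mem (b := z) (e := z) l le_rfl)
  obtain ⟨p1, p2, p3⟩ := hT.ps o1 (Grid.vx_adj a.1 (Nat.zero_le _))
  have := Grid.vx_adj a.1 le_rfl
  rw [Grid.vx_last] at this
  obtain ⟨p4, p5, p6⟩ := hT.ps o2 this.symm
  rw [← p3, Grid.rt_nb (by omega) (by omega) p1 p2] at h1
  rw [← p6, Grid.rt_nb (by omega) (by omega) p4 p5] at h2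
  have w : ∀ o, T.w0 o = 1 → G.Tb z (T.l + 1, out o T.z 1) := fun o e =>
    Or.inr ⟨((hT.et o).1 e).1, (hT.lat o e).symm⟩
  have w1 : T.w0 true ≤ 1 := wof_le _
  have w2 : T.w0 false ≤ 1 := wof_le _
  refine ⟨?_, by omega, ?_, h2, ?_⟩
  · by_contra c
    refine o1 (Or.inr ?_)
    rw [← p3, show G.ps z (vx z I z 1) = 1 by omega, Grid.nb_one, hT.l1, hT.snd]
    simpa [out, sg] using w true (by omega)
  · rw [hT.nbr true p1 (by omega), cond_true, p3]
  · by_contra c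
    refine o2 (Or.inr ?_)
    rw [← p6, show G.ps z (vx z I z I.length) = G.gap z + 3 by omega, Grid.nb_rt, hT.l1, hT.snd]
    simpa [out, sg] using w false (by omega)

theorem zz_pk (hT : Fit z T) (h3 : 3 ≤ G.gap z) {pk : Bool} (hpk : pk = true → G.dg z = k + 1)
    {I : List Pt} {t : ℕ} (h : G.M0 true z z I z t) (hp : G.Pk k z z I z t) :
    ∃ n, G.ps z (vx z I z 1) < n ∧ G.ZC z pk (G.ps z (vx z I z 1)) n I t := by
  obtain ⟨-, -, -, -, p5⟩ := zz_pos hT h3 h
  obtain ⟨a, -, -, ht⟩ := h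
  obtain ⟨n, n1, n2, n3, n4, n5⟩ := hp
  simp only [Grid.lo, Grid.hi, if_true, Grid.vx_head (b := z) (e := z) a.2.2.2.1,
    Grid.vx_getLast (b := z) (e := z) a.2.2.2.1, List.mem_reverse] at n1 n2 n3 n5
  have hz : 1 ≤ z.1 := by have := hT.lev; omega
  have m1 : ∀ i, 1 ≤ i → i ≤ I.length → i ≤ t → vx z I z i ∈ I.take t := fun i u v w => by
    obtain ⟨i, rfl⟩ : ∃ j, i = j + 1 := ⟨i - 1, by omega⟩
    rw [Grid.vx_succ (by omega)]
    exact List.mem_take_iff_getElem.2 ⟨i, by omega, rfl⟩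
  have m2 : ∀ i, i ≤ I.length → t < i → vx z I z i ∈ I.drop t := fun i v w => by
    obtain ⟨i, rfl⟩ : ∃ j, i = t + j + 1 := ⟨i - 1 - t, by omega⟩
    rw [Grid.vx_succ (by omega)]
    exact List.mem_drop_iff_getElem.2 ⟨i, by omega, rfl⟩
  refine ⟨n, n1, rfl, n2, fun i u v w => ?_⟩
  have e := Grid.lk_ps hz w
  refine ⟨fun c => ?_, fun c => ⟨fun d d' c' => ?_, fun d d' c' => ?_⟩⟩
  · rw [c] at e
    rcases le_or_gt i t with d | d
    · exact n3 (e ▸ m1 i u v d)
    · exact n4 (e ▸ m2 i v d)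
  · rw [c'] at e
    have := ((n5 (hpk c)).1 (e ▸ m1 i u v d')).2.1
    rw [List.drop_eq_nil_iff] at this
    have e2 := ((n5 (hpk c)).1 (e ▸ m1 i u v d')).2.2
    have a1 := Grid.vx_adj a.1 le_rfl
    rw [Grid.vx_last] at a1
    have e3 := Grid.lk_ps hz a1.symm
    rw [← e2, e] at e3
    have := Grid.vx_inj a.2.1 a.2.2.1 u (by omega) (by omega) (by omega) e3
    omega
  · rw [show G.ps z (vx z I z i) = n - 1 by omega] at e
    have e2 := ((n5 (hpk c)).2.1 (e ▸ m2 i v d')).2.2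
    have e3 := Grid.lk_ps hz (Grid.vx_adj a.1 (Nat.zero_le _))
    rw [show G.ps z (vx z I z (0 + 1)) = n - 1 by rw [zero_add]; omega, e] at e3
    have := Grid.vx_inj a.2.1 a.2.2.1 u (by omega) (by omega) (by omega) e3
    omega

theorem zz_sum : G.sFzz k P z ≤ ∑' x : List Pt × ℕ × ℕ,
    ind (G.M0 true z z x.1 z x.2.1 ∧ G.Pk k z z x.1 z x.2.1) * G.mw P z z x.1 z x.2 := by
  rw [Grid.sFzz, ENNReal.tsum_prod']
  refine ENNReal.tsum_le_tsum fun I => le_trans ?_ (Grid.fC_le true (G.Pk k z) (Or.inl rfl))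
  refine ENNReal.tsum_le_tsum fun x => le_of_eq ?_
  rw [ind_of_not (A := G.Al k z z I z x.1) fun a => a.2.elim (fun a => a.1.1 rfl) fun a => a.1.1 rfl,
    mul_zero, add_zero, ind_and, mul_assoc]

theorem cc_yes {c : Bool} {a b : ℕ} (h : c = true) : cc c a b = a := by rw [h]; rfl

theorem cc_no {c : Bool} {a b : ℕ} (h : ¬c = true) : cc c a b = b := by
  cases c
  exacts [rfl, absurd rfl h]

theorem zz_P (hT : Fit z T) (h3 : 3 ≤ G.gap z) (hM : M.RunZ P q1 q2 c1 c2) (pk : Bool) (l : ℕ)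
    {n : ℕ} (hn : G.gap z ≤ 5 ∨ n ≤ 6) :
    ∑' x : List Pt × ℕ × ℕ, ind (G.M0 true z z x.1 z x.2.1 ∧ G.ZC z pk l n x.1 x.2.1) *
      G.mw P z z x.1 z x.2 ≤ c1 * (M.spP pk n true).paths T q1 none (Spec.nbr T true l) ∅ +
      c2 * (M.spP pk n true).paths T q2 none (Spec.nbr T true l) ∅ := by
  refine zz_le hT hM _ rfl _ _ fun I t h ⟨c1, c2, c3⟩ => ?_
  obtain ⟨-, -, p3, p4, p5⟩ := zz_pos hT h3 h
  have u : ∀ i, 1 ≤ i → i ≤ I.length → G.Adj z (vx z I z i) → G.ps z (vx z I z i) ≤ G.gap z + 3 :=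
    fun i a b c => (hT.ps (h.1.2.2.2.2 _ (Grid.vx_mem a b)) c).2.1
  refine ⟨c1 ▸ p3, fun i q a b c d => ?_, fun i q a b c d => ?_, fun q => ?_⟩
  · obtain ⟨e1, e2⟩ := c3 i (by omega) b c
    have := u i (by omega) b c
    refine cc_no ?_
    simp only [tr, cond_true, d, Bool.or_eq_true, Bool.and_eq_true, Nat.beq_eq, Bool.not_eq_true',
      decide_eq_false_iff_not]
    rintro (e | ⟨⟨e, e3⟩, e4⟩)
    · omega
    · have := (e2 e).2 a (by omega)
      omega
  · obtain ⟨e1, e2⟩ := c3 i a b.le c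
    have := u i a b.le c
    refine cc_no ?_
    simp only [tr, cond_true, d, Bool.and_eq_true, Nat.beq_eq, decide_eq_true_eq]
    rintro ⟨⟨e, e3⟩, e4⟩
    have := (e2 e).1 b e3
    omega
  · refine cc_yes ?_
    simp only [tr, farF, cond_true, Bool.and_eq_true, Nat.ble_eq]
    omega

theorem zz_C (hT : Fit z T) (h3 : 3 ≤ G.gap z) (hM : M.RunZ P q1 q2 c1 c2) (l : ℕ) :
    ∑' x : List Pt × ℕ × ℕ, ind (G.M0 true z z x.1 z x.2.1 ∧ G.ps z (vx z x.1 z 1) = l ∧
      6 < G.ps z (vx z x.1 z x.1.length)) * G.mw P z z x.1 z x.2 ≤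
      c1 * (M.spC 6 true).paths T q1 none (Spec.nbr T true l) ∅ +
      c2 * (M.spC 6 true).paths T q2 none (Spec.nbr T true l) ∅ := by
  refine zz_le hT hM _ rfl _ (fun I _ => G.ps z (vx z I z 1) = l ∧ 6 < G.ps z (vx z I z I.length))
    fun I t h ⟨c1, c2⟩ => ⟨c1 ▸ (zz_pos hT h3 h).2.2.1, fun _ _ _ _ _ _ => rfl,
      fun _ _ _ _ _ _ => rfl, fun q => cc_yes ?_⟩
  simp only [tr, farF, cond_true, Bool.and_eq_true, Nat.ble_eq]
  omega

theorem red_Z (hT : Fit z T) (h3 : 3 ≤ G.gap z) (hM : M.RunZ P q1 q2 c1 c2) (hg : G.gap z ≤ 5)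
    {pk : Bool} (hpk : pk = true → G.dg z = k + 1) :
    G.sFzz k P z ≤ ∑ l ∈ Ioo (T.w0 true) 4, ∑ n ∈ Ioo l (G.gap z + 3 - T.w0 false),
      (c1 * (M.spP pk n true).paths T q1 none (Spec.nbr T true l) ∅ +
        c2 * (M.spP pk n true).paths T q2 none (Spec.nbr T true l) ∅) := by
  refine zz_sum.trans (le_trans ?_ (sum_le_sum fun l _ => sum_le_sum fun n _ =>
    zz_P hT h3 hM pk l (Or.inl hg)))
  simp only [← Summable.tsum_finsetSum fun _ _ => ENNReal.summable]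
  refine ENNReal.tsum_le_tsum fun x => ind_mul_le fun ⟨h, hp⟩ => ?_
  obtain ⟨p1, p2, -, -, p5⟩ := zz_pos hT h3 h
  obtain ⟨n, n1, n2⟩ := zz_pk hT h3 hpk h hp
  have := n2.2.1
  refine le_trans ?_ (single_le_sum (fun _ _ => zero_le) (mem_Ioo.2 ⟨p1, p2⟩))
  refine le_trans ?_ (single_le_sum (fun _ _ => zero_le) (mem_Ioo.2 ⟨n1, by omega⟩))
  rw [ind_of ⟨h, n2⟩, one_mul]

theorem red_Zu (hT : Fit z T) (h3 : 3 ≤ G.gap z) (hM : M.RunZ P q1 q2 c1 c2) :
    G.sFzz k P z ≤ ∑ l ∈ Ioo (T.w0 true) 4, (∑ n ∈ Ioo l 6,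
      (c1 * (M.spP false n true).paths T q1 none (Spec.nbr T true l) ∅ +
        c2 * (M.spP false n true).paths T q2 none (Spec.nbr T true l) ∅) +
      (c1 * (M.spC 6 true).paths T q1 none (Spec.nbr T true l) ∅ +
        c2 * (M.spC 6 true).paths T q2 none (Spec.nbr T true l) ∅)) := by
  refine zz_sum.trans (le_trans ?_ (sum_le_sum fun l _ => add_le_add (sum_le_sum fun n hn =>
    zz_P hT h3 hM false l (Or.inr (by have := mem_Ioo.1 hn; omega))) (zz_C hT h3 hM l)))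
  simp only [← Summable.tsum_finsetSum fun _ _ => ENNReal.summable, ← ENNReal.tsum_add]
  refine ENNReal.tsum_le_tsum fun x => ind_mul_le fun ⟨h, hp⟩ => ?_
  obtain ⟨p1, p2, -⟩ := zz_pos hT h3 h
  obtain ⟨n, n1, n2⟩ := zz_pk (pk := false) hT h3 (by simp) h hp
  have := n2.2.1
  refine le_trans ?_ (single_le_sum (fun _ _ => zero_le) (mem_Ioo.2 ⟨p1, p2⟩))
  by_cases c : n < 6
  · refine le_add_right (le_trans ?_ (single_le_sum (fun _ _ => zero_le) (mem_Ioo.2 ⟨n1, c⟩)))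
    rw [ind_of ⟨h, n2⟩, one_mul]
  · refine le_add_left ?_
    rw [ind_of ⟨h, rfl, by omega⟩, one_mul]

theorem red_Z_bond (hT : Fit z T) (h3 : 3 ≤ G.gap z) {M : MK (Fin 3)} {b : ℝ≥0∞}
    (hM : M.Bond P 1 b) (hg : G.gap z ≤ 5) {pk : Bool} (hpk : pk = true → G.dg z = k + 1) :
    G.sFzz k P z ≤ ∑ l ∈ Ioo (T.w0 true) 4, ∑ n ∈ Ioo l (G.gap z + 3 - T.w0 false), P.p *
      ((M.spP pk n true).paths T 2 none (Spec.nbr T true l) ∅ +
        (M.spP pk n true).paths T 0 none (Spec.nbr T true l) ∅) := by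
  simpa only [mul_add] using red_Z hT h3 hM.runZ hg hpk

theorem red_Zu_bond (hT : Fit z T) (h3 : 3 ≤ G.gap z) {M : MK (Fin 3)} {b : ℝ≥0∞}
    (hM : M.Bond P 1 b) :
    G.sFzz k P z ≤ ∑ l ∈ Ioo (T.w0 true) 4, P.p * (∑ n ∈ Ioo l 6,
      ((M.spP false n true).paths T 2 none (Spec.nbr T true l) ∅ +
        (M.spP false n true).paths T 0 none (Spec.nbr T true l) ∅) +
      ((M.spC 6 true).paths T 2 none (Spec.nbr T true l) ∅ +
        (M.spC 6 true).paths T 0 none (Spec.nbr T true l) ∅)) := by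
  simpa only [mul_add, mul_sum] using red_Zu hT h3 hM.runZ

theorem red_Z_site (hT : Fit z T) (h3 : 3 ≤ G.gap z) {M : MK (Fin 4)} {b : ℝ≥0∞}
    (hM : M.Site P true 1 b) (hg : G.gap z ≤ 5) {pk : Bool} (hpk : pk = true → G.dg z = k + 1) :
    G.sFzz k P z ≤ ∑ l ∈ Ioo (T.w0 true) 4, ∑ n ∈ Ioo l (G.gap z + 3 - T.w0 false),
      (P.p * (M.spP pk n true).paths T 3 none (Spec.nbr T true l) ∅ +
        (M.spP pk n true).paths T 2 none (Spec.nbr T true l) ∅) := by
  simpa only [one_mul] using red_Z hT h3 hM.runZ hg hpk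

theorem red_Zu_site (hT : Fit z T) (h3 : 3 ≤ G.gap z) {M : MK (Fin 4)} {b : ℝ≥0∞}
    (hM : M.Site P true 1 b) :
    G.sFzz k P z ≤ ∑ l ∈ Ioo (T.w0 true) 4, (∑ n ∈ Ioo l 6,
      (P.p * (M.spP false n true).paths T 3 none (Spec.nbr T true l) ∅ +
        (M.spP false n true).paths T 2 none (Spec.nbr T true l) ∅) +
      (P.p * (M.spC 6 true).paths T 3 none (Spec.nbr T true l) ∅ +
        (M.spC 6 true).paths T 2 none (Spec.nbr T true l) ∅)) := by
  simpa only [one_mul] using red_Zu hT h3 hM.runZ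

end Pool.Agent.P.MP_e4ac67_pr.Gr
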