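import Pool.Agent.P.MP_e4ac67_pr.G.C1
import Pool.Agent.P.MP_e4ac67_pr.G.C2
import Pool.Agent.P.MP_e4ac67_pr.G.C3
import Pool.Agent.P.MP_e4ac67_pr.G.C4
import Pool.Agent.P.MP_e4ac67_pr.G.C5
import Pool.Agent.P.MP_e4ac67_pr.G.C6
import Pool.Agent.P.MP_e4ac67_pr.G.Real

/-! From numerical bounds for the path problems to numerical bounds for the classes. -/

open scoped ENNReal
open Finset

namespace Pool.Agent.P.MP_e4ac67_pr.Gr

def mulU (a b : ℕ) : ℕ := rup 1 (a * b)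

theorem le_mulU {x y : ℝ≥0∞} {a b : ℕ} (h1 : x ≤ vv a) (h2 : y ≤ vv b) : x * y ≤ vv (mulU a b) :=
  (mul_le_mul' h1 h2).trans ((vv_mul a b).trans_le (le_rup 1 _))

theorem le_addU {x y : ℝ≥0∞} {a b : ℕ} (h1 : x ≤ vv a) (h2 : y ≤ vv b) : x + y ≤ vv (a + b) :=
  (add_le_add h1 h2).trans_eq (vk_add 1 a b)

theorem vv_zero : vv 0 = 0 := vk_zero 1

theorem le_vmul {a b c : ℕ} (h : a * NN ≤ b * c) : vv a ≤ vv b * vv c := by
  rw [vv_mul, vv, ← vk_NN 1 a]; exact vk_mono _ h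

theorem vmul_le {a b c : ℕ} (h : a * b ≤ c * NN) : vv a * vv b ≤ vv c := by
  rw [vv_mul, vv, ← vk_NN 1 c]; exact vk_mono _ h

theorem one_le_vmul {b c : ℕ} (h : NN * NN ≤ b * c) : 1 ≤ vv b * vv c := vv_NN ▸ le_vmul h

theorem one_le_vv {b : ℕ} (h : NN ≤ b) : 1 ≤ vv b := vv_NN ▸ vv_mono h

theorem div_leU {x : ℝ≥0∞} {c i a : ℕ} (h : NN * NN ≤ c * i) (h1 : vv c * x ≤ vv a) :
    x ≤ vv (mulU i a) := by
  refine le_trans ?_ (le_mulU le_rfl h1)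
  rw [← mul_assoc, mul_comm (vv i)]
  exact le_mul_of_one_le_left' (one_le_vmul h)

/-- the facts `R n x`, `R (n + 1) y`, ... for the list `x, y, ...` -/
def AL {α : Type} (R : ℕ → α → Prop) : ℕ → List α → Prop
  | _, [] => True
  | n, x :: l => R n x ∧ AL R (n + 1) l

theorem AL.sum {α : Type} {R : ℕ → α → Prop} {F : ℕ → ℝ≥0∞} {f : α → ℕ}
    (hf : ∀ n x, R n x → F n ≤ vv (f x)) : ∀ {l : List α} {n m : ℕ}, AL R (n + 1) l →
    m ≤ n + 1 + l.length → ∑ i ∈ Ioo n m, F i ≤ vv (l.map f).sum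
  | [], n, m, _, h => by
    rw [sum_eq_zero fun i hi => by simp at h hi; omega]; exact zero_le
  | x :: l, n, m, a, h => by
    refine le_trans (sum_le_sum_of_subset (t := insert (n + 1) (Ioo (n + 1) m)) fun i hi => ?_) ?_
    · simp only [mem_insert, mem_Ioo] at hi ⊢; omega
    rw [sum_insert (by simp)]
    exact le_addU (hf _ _ a.1) (AL.sum hf a.2 (by simp at h; omega))

/-- numerals for the weights -/
structure NB where
  m : Bool
  p : ℕ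
  q : ℕ
  iv : ℕ
  il : ℕ
  sp : ℕ

noncomputable def NB.nm (N : NB) : Nm := ⟨N.m, vv N.p, vv N.q, vv N.iv, vv N.il, vv N.sp⟩

abbrev N3 := ℕ × ℕ × ℕ

abbrev OB := Option Bool

def UB (f : OB → ℝ≥0∞) (n : OB → ℕ) : Prop := ∀ s, f s ≤ vv (n s)

def eo (s : OB) (a b : ℕ) : ℕ := s.elim a fun _ => b

theorem le_eo {s : OB} {u : ℝ≥0∞} {a b : ℕ} (h0 : s = none → u ≤ vv a)
    (h1 : ∀ t, s = some t → u ≤ vv b) : u ≤ vv (eo s a b) := by
  cases s
  exacts [h0 rfl, h1 _ rfl]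

variable {Q : Type}

def stpN (w : NW Q) (a b : Q) (x y : ℕ) : Bool :=
  Nat.ble x (w.wl a b false) && Nat.ble (x * y) (w.wl a b true * NN)

theorem stp_of {w : NW Q} {a b : Q} {x y : ℕ} {x' y' : ℝ≥0∞} (h : stpN w a b x y = true)
    (hx : x' ≤ vv x) (hy : y' ≤ vv y) : Stp w a b x' y' := by
  simp only [stpN, Bool.and_eq_true, Nat.ble_eq] at h
  exact ⟨hx.trans (vv_mono h.1), (mul_le_mul' hx hy).trans (vmul_le h.2)⟩

def MK.bondN (M : MK (Fin 3)) (N : NB) (a b : ℕ) : Bool :=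
  !N.m && stpN M.w 2 2 N.p N.q && stpN M.w 2 1 (N.p + N.p) NN && stpN M.w 1 0 N.p NN &&
    stpN M.w 0 0 N.p N.q && Nat.ble N.q NN && (allQ fun q => (M.nr q == decide (q = 2)) &&
      Nat.ble a (M.zt q) && Nat.beq (M.zo q) NN && Nat.beq (M.zi q) NN) &&
    (Nat.beq b 0 || (M.ab && allQ fun q => decide (q = 2) || Nat.ble (b * NN) (N.p * M.pw q)))

theorem MK.bond_of {M : MK (Fin 3)} {N : NB} {a b : ℕ} (h : M.bondN N a b = true) :
    M.Bond N.nm (vv a) (vv b) := by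
  simp only [MK.bondN, Bool.and_eq_true, Nat.ble_eq, Bool.or_eq_true, Nat.beq_eq,
    Bool.not_eq_true'] at h
  obtain ⟨⟨⟨⟨⟨⟨⟨h1, h2⟩, h3⟩, h4⟩, h5⟩, h6⟩, h7⟩, h8⟩ := h
  have h9 := fun q => allQ_spec h7 q
  simp only [Bool.and_eq_true, Nat.ble_eq, Nat.beq_eq, beq_iff_eq] at h9
  refine ⟨h1, fun q => (h9 q).1.1.1, stp_of h2 le_rfl le_rfl,
    stp_of h3 ((two_mul _).trans_le (le_addU le_rfl le_rfl)) vv_NN.ge, stp_of h4 le_rfl vv_NN.ge,
    stp_of h5 le_rfl le_rfl, vv_le_one h6, fun q => vv_mono (h9 q).1.1.2, fun q => (h9 q).1.2,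
    fun q => (h9 q).2, h8.imp (fun e => (congrArg vv e).trans vv_zero) fun e => ⟨e.1, fun q c => le_vmul ?_⟩⟩
  simpa [c] using allQ_spec e.2 q

def MK.siteN (M : MK (Fin 4)) (N : NB) (zz : Bool) (a b : ℕ) : Bool :=
  N.m && Nat.beq N.q 0 && Nat.ble N.p NN && stpN M.w 3 3 N.p 0 && stpN M.w 3 2 NN 0 &&
    stpN M.w 3 1 NN 0 && stpN M.w 2 0 NN NN && stpN M.w 1 0 NN NN && stpN M.w 0 0 N.p 0 &&
    Nat.ble (a * N.p) (M.zt 0 * NN) && Nat.ble a (M.zt 1) &&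
    (allQ fun q => (M.nr q == decide (2 ≤ q)) && (decide (q = 0) || Nat.beq (M.zo q) NN) &&
      ((decide (q = 3) && zz) || Nat.beq (M.zi q) NN)) &&
    (Nat.beq b 0 || (M.ab && Nat.beq (M.zo 0) NN && Nat.ble b (M.pw 0)))

theorem MK.site_of {M : MK (Fin 4)} {N : NB} {zz : Bool} {a b : ℕ} (h : M.siteN N zz a b = true) :
    M.Site N.nm zz (vv a) (vv b) := by
  simp only [MK.siteN, Bool.and_eq_true, Nat.ble_eq, Bool.or_eq_true, Nat.beq_eq] at h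
  obtain ⟨⟨⟨⟨⟨⟨⟨⟨⟨⟨⟨⟨h1, h2⟩, h3⟩, h4⟩, h5⟩, h6⟩, h7⟩, h8⟩, h9⟩, ha⟩, hb⟩, hc⟩, hd⟩ := h
  have he := fun q => allQ_spec hc q
  simp only [Bool.and_eq_true, Nat.beq_eq, beq_iff_eq, Bool.or_eq_true, decide_eq_true_eq] at he
  exact ⟨h1, (congrArg vv h2).trans vv_zero, vv_le_one h3, fun q => (he q).1.1,
    stp_of h4 le_rfl vv_zero.ge, stp_of h5 vv_NN.ge vv_zero.ge, stp_of h6 vv_NN.ge vv_zero.ge,
    stp_of h7 vv_NN.ge vv_NN.ge, stp_of h8 vv_NN.ge vv_NN.ge, stp_of h9 le_rfl vv_zero.ge,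
    vmul_le ha, vv_mono hb, fun q c => (he q).1.2.resolve_left c,
    fun q c => (he q).2.resolve_left fun e => by simp [e.1, e.2] at c,
    hd.imp (fun e => (congrArg vv e).trans vv_zero) fun e => ⟨e.1.1, e.1.2, vv_mono e.2⟩⟩

variable [Fintype Q] {G : Grid}

/-- `x = (a, b, b')`: lateral start, other starts with and without charges -/
def Spec.SB (S : Spec Q) (T : Tube G) (N : NB) (q : Q) (n0 : ℕ) (x : N3) : Prop :=
  S.Starts T q n0 N.iv N.il x.1 x.2.1 ∧ S.Starts T q n0 NN NN x.1 x.2.2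

/-- the situation: `τ` is the number of extra parents, `a`, `b` are the top states -/
structure Cx (k : ℕ) (z : Pt) (T : Tube G) (τ a b : ℕ) : Prop where
  h7 : 7 ≤ k
  hk : k < G.dg z
  fit : Fit z T
  tau : G.tau z = τ
  sa : T.st true (T.l + 1) = a
  sb : T.st false (T.l + 1) = b

def ww (a b : ℕ) (o : Bool) : ℕ := wof (cond o a b)

def tgN (a b : ℕ) (o : Bool) : Bool :=
  cond (Nat.beq (wof a) 1) true (cond (Nat.beq (wof b) 1) false (!o))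

def sN (a b : ℕ) (o : Bool) (cl : ℕ) (x : N3) : OB → ℕ
  | none => mulU cl x.1 + x.2.2
  | some s => cc (s == !o) (mulU cl x.1) 0 + cc (s == tgN a b o) x.2.1 0

/-- both sides -/
def sN2 (a b cl : ℕ) (x y : N3) (s : OB) : ℕ := sN a b true cl x s + sN a b false cl y s

namespace Cx
variable {k τ a b : ℕ} {z : Pt} {T : Tube G} (h : Cx k z T τ a b) {N : NB}
include h

theorem w0 (o : Bool) : T.w0 o = ww a b o := by
  cases o
  exacts [congrArg wof h.sb, congrArg wof h.sa]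

theorem g3 : 3 ≤ G.gap z := by
  have := h.h7; have := h.hk; have := G.tau_le z; unfold Grid.dg at *; omega

theorem pk {g : ℕ} {pk : Bool} (hg : T.g = g) (hp : pk = true → g + τ ≤ 4) :
    pk = true → G.dg z = k + 1 := fun e => by
  have := h.h7; have := h.hk; have := h.tau; have := h.fit.g; have := hp e
  unfold Grid.dg at *; omega

theorem fr {S : Spec Q} {q : Q} {n0 cl x y : ℕ} {cl' c0 : ℝ≥0∞} (hS : S.Starts T q n0 NN NN x y)
    (h1 : cl' ≤ vv cl) (h0 : c0 ≤ vv n0) : T.sum N.nm S q cl' c0 none ≤ vv (mulU cl x + y) := by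
  refine (h.fit.sum_le (s := none) hS h0 vv_NN.ge vv_NN.ge).trans ?_
  rw [ind_of (Or.inl rfl), ind_of (Or.inl rfl), one_mul, one_mul]
  exact le_addU (le_mulU h1 le_rfl) le_rfl

theorem cg {S : Spec Q} {q : Q} {n0 cl : ℕ} {x : N3} {cl' c0 : ℝ≥0∞} {o : Bool}
    (hS : S.Starts T q n0 N.iv N.il x.1 x.2.1) (ho : S.so = o) (h1 : cl' ≤ vv cl) (h0 : c0 ≤ vv n0)
    (s : Bool) : T.sum N.nm S q cl' c0 (some s) ≤ vv (sN a b o cl x (some s)) := by
  refine (h.fit.sum_le hS h0 le_rfl le_rfl).trans (le_addU ?_ ?_)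
  · refine ind_mul_le fun e => ?_
    rw [cc_pos (by simpa [ho] using e)]
    exact le_mulU h1 le_rfl
  · refine ind_mul_le fun e => ?_
    rw [cc_pos]
    have e1 := h.w0 true
    have e2 := h.w0 false
    simp only [ww, cond_true, cond_false] at e1 e2
    simp only [reduceCtorEq, Option.some.injEq, false_or, Tube.tgW, ho, e1, e2] at e
    simp only [e, tgN, Bool.cond_eq_ite, Nat.beq_eq, beq_iff_eq]

theorem sum {S : Spec Q} {q : Q} {n0 cl : ℕ} {x : N3} {cl' c0 : ℝ≥0∞} {o : Bool}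
    (hS : S.SB T N q n0 x) (ho : S.so = o) (h1 : cl' ≤ vv cl) (h0 : c0 ≤ vv n0) :
    UB (T.sum N.nm S q cl' c0) (sN a b o cl x)
  | none => h.fr hS.2 h1 h0
  | some s => h.cg hS.1 ho h1 h0 s

theorem sum2 {S : Bool → Spec Q} {q : Q} {n0 cl : ℕ} {x y : N3} {cl' c0 : ℝ≥0∞}
    (h2 : (S true).SB T N q n0 x) (h3 : (S false).SB T N q n0 y) (ho : ∀ o, (S o).so = o)
    (h1 : cl' ≤ vv cl) (h0 : c0 ≤ vv n0) :
    UB (fun s => ∑ o, T.sum N.nm (S o) q cl' c0 s) (sN2 a b cl x y) := fun s =>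
  (Fintype.sum_bool _).trans_le (le_addU (h.sum h2 (ho _) h1 h0 s) (h.sum h3 (ho _) h1 h0 s))

theorem fr2 {S : Bool → Spec Q} {q : Q} {x y x' y' : ℕ} (h2 : (S true).Starts T q NN NN NN x y)
    (h3 : (S false).Starts T q NN NN NN x' y') :
    ∑ o, T.sum N.nm (S o) q 1 1 none ≤ vv (mulU NN x + y + (mulU NN x' + y')) := by
  rw [Fintype.sum_bool]
  exact le_addU (h.fr h2 vv_NN.ge vv_NN.ge) (h.fr h3 vv_NN.ge vv_NN.ge)

end Cx

theorem Spec.Link.le {S : Spec Q} {T : Tube G} {o : Bool} {i x : ℕ} {q : Q} (h : S.Link T o i q x) :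
    S.paths T q none (Spec.nbr T o i) ∅ ≤ vv x := h none ∅ (by simp)

end Pool.Agent.P.MP_e4ac67_pr.Gr
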