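import Pool.Agent.P.MP_e4ac67_pr.G.Fin

/-! Certificates read from numerals: `48` bits per entry, entry `0` in the lowest bits. -/

namespace Pool.Agent.P.MP_e4ac67_pr.Gr

def rw6 (N k : ℕ) : ℕ := Nat.shiftLeft (Nat.shiftRight N (Nat.mul 48 k)) 288

/-- a table: `(q, sl, j)` is the entry `((nq - 1 - q) * ns + sl) * (w + 1) + (j - 6)` -/
def rd (nq ns w N : ℕ) (q : Fin nq) (sl _j : ℕ) : ℕ := Nat.shiftRight N
  (Nat.mul 48 (Nat.mul (Nat.add (Nat.mul (Nat.sub (Nat.pred nq) q.1) ns) sl) (Nat.succ w)))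

def gt (L : List ℕ) (i : ℕ) : ℕ := @List.rec ℕ (fun _ => ℕ) 0 (fun a _ _ => a)
  (@Nat.rec (fun _ => List ℕ) L (fun _ l => @List.rec ℕ (fun _ => List ℕ) [] (fun _ t _ => t) l) i)

def bn (b : Bool) : ℕ := cond b 1 0

variable (nq : ℕ)

def ix (i : Bool × Fin nq) : ℕ := bn i.1 * nq + i.2.1

/-- the vector number `k` of length `nq` -/
def vq (N k : ℕ) (q : Fin nq) : ℕ := en N (Nat.add (Nat.mul k nq) q.1)

/-- the matrix number `k` -/
def mq (N k : ℕ) (q r : Fin nq) : ℕ := vq nq N (Nat.add (Nat.mul k nq) q.1) r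

/-- matrices `wl false, wl true, wu, wd false, wd true, a1 false, a1 true, a2 false, a2 true, a3` -/
def mkW (rho N : ℕ) : NW (Fin nq) :=
  ⟨fun q r e => cond e (mq nq N 1 q r) (mq nq N 0 q r), mq nq N 2,
    fun q r e => cond e (mq nq N 4 q r) (mq nq N 3 q r), fun t => cond t (mq nq N 6) (mq nq N 5),
    fun t => cond t (mq nq N 8) (mq nq N 7), mq nq N 9, rho⟩

/-- `E`: `e 6, .., e 9`; `L`: first the tables `rawP s i` (number `s * 2 nq + i`, `18` slots), then
`rawF s i` (`15` slots) -/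
def mkA (rl E TH GA GH : ℕ) (L : List ℕ) : ACert (Fin nq) :=
  ⟨rl, en (rw6 E 0), fun s l i j => en TH (((s * 6 + l) * (2 * nq) + ix nq i) * (2 * nq) + ix nq j),
    fun s i => vq nq GA (s * (2 * nq) + ix nq i), fun s i => vq nq GH (s * (2 * nq) + ix nq i),
    fun s i => rd nq 18 8 (gt L (s * (2 * nq) + ix nq i)),
    fun s i => rd nq 15 8 (gt L ((s + 6) * (2 * nq) + ix nq i))⟩

/-- `V`: vectors `pw, ga, gs 0..5, gb 0..5, gaT false 0..5, gaT true 0..5, gsT false .., gsT true ..`;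
`E`: rows `e s q 6..14`; `L`: `rawP 0..5` (`18` slots), `rawF 0..5`, `rawT false 0..5`,
`rawT true 0..5` (`15` slots) -/
def mkR (rl V E : ℕ) (L : List ℕ) : RCert (Fin nq) :=
  ⟨vq nq V 0, rl, fun s q => en (rw6 E ((s * nq + q.1) * 9)), vq nq V 1, fun s => vq nq V (2 + s),
    fun s => vq nq V (8 + s), fun z s => vq nq V (14 + bn z * 6 + s),
    fun z s => vq nq V (26 + bn z * 6 + s), fun s => rd nq 18 8 (gt L s),
    fun s => rd nq 15 8 (gt L (6 + s)), fun z s => rd nq 15 8 (gt L (12 + bn z * 6 + s))⟩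

/-- `m`: the top state `s` has the number `(m >>> (4 * s)) % 16` among the states that are used;
everything that depends on `(o, s)` has the number `u = 2 * number + o`.
`V`: vectors `b1, b2, lfl, lol, ltl` (each for `o = false, true`), then `pa, gg` for `u = 0, 1, ..`
(vectors `10 + 2 u`, `11 + 2 u`); `AL`: bit `(j * 2 + o) * 2 + t`; `FA`: rows (`g + 10` entries)
`fac1 o q` (number `o * nq + q`), then `fo1 o q`; `KA`: `ka o s lo i` is the entry
`(u * 6 + lo) * 2 nq + i`; `L`: `rawH1 false, rawH1 true` (`18` slots), `rawF1 false, rawF1 true`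
(`15` slots), then `rawH0` (`18` slots), `rawF0` (`15` slots) for `u = 0, 1, ..` -/
def mkT (ex : Bool) (g : ℕ) (a0 a1 : Bool) (rl m V AL FA KA : ℕ) (L : List ℕ) : TCert (Fin nq) :=
  let u := fun (o : Bool) (s : ℕ) => 2 * ((m >>> (4 * s)) % 16) + bn o
  ⟨ex, g, fun o => cond o a1 a0, rl, fun o => vq nq V (bn o), fun o => vq nq V (2 + bn o),
    fun o j t => Nat.testBit AL ((j * 2 + bn o) * 2 + bn t),
    fun o q => en (rw6 FA ((bn o * nq + q.1) * (g + 10))),
    fun o q => en (rw6 FA (((2 + bn o) * nq + q.1) * (g + 10))),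
    fun o => rd nq 18 (g + 9) (gt L (bn o)), fun o => rd nq 15 (g + 9) (gt L (2 + bn o)),
    fun o => vq nq V (4 + bn o), fun o => vq nq V (6 + bn o), fun o => vq nq V (8 + bn o),
    fun o s => vq nq V (10 + 2 * u o s), fun o s => vq nq V (11 + 2 * u o s),
    fun o s lo i => en KA ((u o s * 6 + lo) * (2 * nq) + ix nq i),
    fun o s => rd nq 18 8 (gt L (4 + 2 * u o s)), fun o s => rd nq 15 8 (gt L (5 + 2 * u o s))⟩

end Pool.Agent.P.MP_e4ac67_pr.Gr
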