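import Pool.Agent.P.MP_e4ac67_pr.G.Iface
import Pool.Agent.P.MP_e4ac67_pr.V.Cls

/-! The path problems attached to the classes of arcs. Link positions are pairs
`(i, j) = (min 8 i, min 8 (gap + 4 - i))`; `tr o i j` is the position counted from the side `o`. -/

open scoped ENNReal

namespace Pool.Agent.P.MP_e4ac67_pr.Gr

instance : NQ (Fin 3) := ⟨[⟨0, by omega⟩, ⟨1, by omega⟩, ⟨2, by omega⟩], by decide, by decide⟩
instance : NQ (Fin 4) :=
  ⟨[⟨0, by omega⟩, ⟨1, by omega⟩, ⟨2, by omega⟩, ⟨3, by omega⟩], by decide, by decide⟩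
instance : NQ (Fin 5) := ⟨[⟨0, by omega⟩, ⟨1, by omega⟩, ⟨2, by omega⟩, ⟨3, by omega⟩,
  ⟨4, by omega⟩], by decide, by decide⟩

/-- the abstract tube `T` is the tube of `z` -/
structure Fit {G : Grid} (z : Pt) (T : Tube G) : Prop where
  lev : 3 ≤ z.1
  eq : z = (T.l + 1, T.z)
  tz : ∀ v, T.Tz v ↔ Grid.Wz G.Tb z v
  rl : ∀ n ≤ z.1, T.r true n = G.an z (z.1 - n)
  rr : ∀ n ≤ z.1, T.r false n = G.ar z (z.1 - n)
  wl : wof (T.st true z.1) = 1 ↔ G.tau z = 0 ∧ G.sL z 0 = 1
  wr : wof (T.st false z.1) = 1 ↔ G.tau z = 0 ∧ G.sL z 0 ≠ 1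

/-- the step `a → b` has weight at least `x`, and at least `x * y` if it is an ear -/
def Stp {Q : Type} (w : NW Q) (a b : Q) (x y : ℝ≥0∞) : Prop :=
  x ≤ vv (w.wl a b false) ∧ x * y ≤ vv (w.wl a b true)

def tr (o : Bool) (i j : ℕ) : ℕ := cond o i j

/-- `a` if `c`, else `b` -/
def cc (c : Bool) (a b : ℕ) : ℕ := cond c a b

namespace Tube
variable {G : Grid} (T : Tube G)

/-- `1` if the lateral neighbour on the side `o` is in the tube -/
def w0 (o : Bool) : ℕ := wof (T.st o (T.l + 1))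

/-- the target of the arcs that leave the lower part of the tube on the side `o` -/
def tgW (o : Bool) : Bool := if T.w0 true = 1 then true else if T.w0 false = 1 then false else !o

open Classical in
/-- Starts on the side `S.so`; `cl` is the factor of the lateral start, `c0` of the parent. -/
noncomputable def sum {Q : Type} [Fintype Q] (P : Nm) (S : Spec Q) (q : Q) (cl c0 : ℝ≥0∞)
    (s : Option Bool) : ℝ≥0∞ :=
  ind (s = none ∨ s = some (!S.so)) * (cl * S.lat T q) +
    ind (s = none ∨ s = some (T.tgW S.so)) * S.low T q fun b =>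
      (if b = (T.l, T.r S.so T.l) then c0 else 1) *
        s.elim 1 fun _ => G.ch P.iv P.il (T.l + 1, T.z) b

end Tube

variable {Q : Type}

/-- paths from the bonus vertex back to the link: departure factor `d`, terminal weights `t q`,
not at the positions `3`, `5` if `x q` -/
def spG (w : NW Q) (d : ℕ) (t : Q → ℕ) (x : Q → Bool) : Spec Q :=
  ⟨w, fun _ i _ => cc (Nat.beq i 4) 0 NN, fun _ i _ => cc (Nat.beq i 4) NN d,
    fun q i _ => cc (Nat.beq i 4 || (x q && (Nat.beq i 3 || Nat.beq i 5))) 0 (t q),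
    none, false, true, fun _ => 0⟩

/-- paths from the tube to the bonus vertex: arrival factors `a q`, terminal weights `t q` -/
def spL (w : NW Q) (a t : Q → ℕ) (o : Bool) : Spec Q :=
  ⟨w, fun q i _ => cc (Nat.beq i 4) NN (a q), fun _ i _ => cc (Nat.beq i 4) 0 NN,
    fun q i _ => cc (Nat.beq i 4) (t q) 0, none, false, o, fun _ => 0⟩

/-- paths from the tube to the link -/
def spW (w : NW Q) (d : ℕ) (t : Q → ℕ) (o : Bool) : Spec Q :=
  ⟨w, fun _ _ _ => NN, fun _ _ _ => d, fun q _ _ => t q, none, false, o, fun _ => 0⟩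

/-- the far part of the link in the rule at the centre; `m = 6 - tau` -/
def farZ (m : ℕ) (o : Bool) (i j : ℕ) : Bool := cond o (Nat.ble 5 i) (Nat.ble i 3 || Nat.ble m j)

/-- paths from the tube to the far part of the link or (if `ab`) to the other side of the tube -/
def spS (w : NW Q) (m d : ℕ) (t : Q → ℕ) (ab : Bool) (pw : Q → ℕ) (o : Bool) : Spec Q :=
  ⟨w, fun _ _ _ => NN, fun _ _ _ => d, fun q i j => cc (farZ m o i j) (t q) 0,
    cond ab (some (!o)) none, false, o, pw⟩

/-- Automaton for marked arcs read from one end: `nr q` says that the vertex lies on the side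
of the start, `zt`, `zo`, `zi` terminal, departure, arrival factor at the link. -/
structure MK (Q : Type) where
  w : NW Q
  nr : Q → Bool
  zt : Q → ℕ
  zo : Q → ℕ
  zi : Q → ℕ
  ab : Bool
  pw : Q → ℕ

def farF (o : Bool) (i : ℕ) : Bool := cond o (Nat.ble 5 i) (Nat.ble i 3)

namespace MK
variable (M : MK Q)

/-- the position `n` counted from the side `o` is skipped (`pk`: excess one) -/
def spP (pk : Bool) (n : ℕ) (o : Bool) : Spec Q :=
  ⟨M.w, fun q i j => cc (Nat.beq (tr o i j) n || (pk && !M.nr q && Nat.beq (tr o i j + 1) n)) 0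
      (M.zi q),
    fun q i j => cc (pk && M.nr q && Nat.beq (tr o i j) (n + 1)) 0 (M.zo q),
    fun q i j => cc (farF o i && Nat.ble (n + 1) (tr o i j)) (M.zt q) 0,
    cond M.ab (some (!o)) none, false, o, M.pw⟩

/-- nothing is skipped; the end is at a position beyond `n` -/
def spC (n : ℕ) (o : Bool) : Spec Q :=
  ⟨M.w, fun q _ _ => M.zi q, fun q _ _ => M.zo q,
    fun q i j => cc (farF o i && Nat.ble (n + 1) (tr o i j)) (M.zt q) 0,
    cond M.ab (some (!o)) none, false, o, M.pw⟩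

/-- first part of an arc: it ends at the first visit of the position `n` counted from the side
`u`, in a state `q` with `nr q = c`; if `x` the position `n + 1` is not visited in the other
states -/
def sp1 (u : Bool) (n : ℕ) (c x : Bool) (V : Q → ℕ) (o : Bool) : Spec Q :=
  ⟨M.w, fun q i j => cc ((M.nr q != c) && (Nat.beq (tr u i j) n ||
      (x && Nat.beq (tr u i j) (n + 1)))) 0 (M.zi q),
    fun q i j => cc (Nat.beq (tr u i j) n) 0 (M.zo q),
    fun q i j => cc ((M.nr q == c) && Nat.beq (tr u i j) n) (V q) 0, none, false, o, fun _ => 0⟩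

/-- second part after the visit of the near position `n` -/
def spA2 (n : ℕ) (o : Bool) : Spec Q :=
  ⟨M.w, fun q i j => cc (Nat.beq (tr o i j) n) 0 (M.zi q), fun q _ _ => M.zo q,
    fun q i _ => cc (farF o i) (M.zt q) 0, cond M.ab (some (!o)) none, false, o, M.pw⟩

/-- second part after the visit of the position `n` counted from the far side `u` -/
def spB2 (pk : Bool) (n : ℕ) (u : Bool) : Spec Q :=
  ⟨M.w, fun q i j => cc (Nat.beq (tr u i j) n || (pk && !M.nr q && Nat.beq (tr u i j) (n + 1))) 0 NN,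
    fun _ _ _ => NN, fun _ _ _ => 0, some u, true, u, M.pw⟩

/-- `a` is the factor of the arcs that end at the centre, `b` of the arcs between tube vertices -/
structure Bond (M : MK (Fin 3)) (P : Nm) (a b : ℝ≥0∞) : Prop where
  m : P.m = false
  nr : ∀ q, M.nr q = decide (q = 2)
  s22 : Stp M.w 2 2 P.p P.q
  s21 : Stp M.w 2 1 (2 * P.p) 1
  s10 : Stp M.w 1 0 P.p 1
  s00 : Stp M.w 0 0 P.p P.q
  p1 : P.q ≤ 1
  zt : ∀ q, a ≤ vv (M.zt q)
  zo : ∀ q, M.zo q = NN
  zi : ∀ q, M.zi q = NN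
  pw : b = 0 ∨ (M.ab = true ∧ ∀ q, q ≠ 2 → b ≤ P.p * vv (M.pw q))

/-- `zz`: the version for arcs that start at the centre -/
structure Site (M : MK (Fin 4)) (P : Nm) (zz : Bool) (a b : ℝ≥0∞) : Prop where
  m : P.m = true
  q0 : P.q = 0
  p1 : P.p ≤ 1
  nr : ∀ q, M.nr q = decide (2 ≤ q)
  s33 : Stp M.w 3 3 P.p 0
  s32 : Stp M.w 3 2 1 0
  s31 : Stp M.w 3 1 1 0
  s20 : Stp M.w 2 0 1 1
  s10 : Stp M.w 1 0 1 1
  s00 : Stp M.w 0 0 P.p 0
  zt0 : a * P.p ≤ vv (M.zt 0)
  zt1 : a ≤ vv (M.zt 1)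
  zo : ∀ q, q ≠ 0 → M.zo q = NN
  zi : ∀ q, q ≠ 3 ∨ zz = false → M.zi q = NN
  pw : b = 0 ∨ (M.ab = true ∧ M.zo 0 = NN ∧ b ≤ vv (M.pw 0))

end MK

namespace Grid
variable (G : Grid) (k : ℕ) (P : Nm)

/-- marked arcs with the property `C` -/
noncomputable def fC (C : Pt → List Pt → Pt → ℕ → Prop) (z bL : Pt) (I : List Pt) (bR : Pt) :
    ℝ≥0∞ := ∑' x : ℕ × ℕ, ind (G.MA P z bL I bR x.1 x.2 ∧ C bL I bR x.1) * G.wF P z bL I bR x.1 x.2

/-- arcs listed from the tube vertex `b`, which is the left end (`o = true`) or the right end: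
`a` times those to `z`, `c` times those to the tube -/
noncomputable def fM (o : Bool) (C : Pt → List Pt → Pt → ℕ → Prop) (a c : ℝ≥0∞) (z b : Pt)
    (I : List Pt) : ℝ≥0∞ :=
  a * cond o (G.fC P C z b I z) (G.fC P C z z I.reverse b) +
    c * ∑' e, ind (G.Tb z e) * (oe P b e * cond o (G.fC P C z b I e) (G.fC P C z e I.reverse b))

/-- the alternative on the left (`true`) or on the right, with the visit -/
def Alt (z : Pt) (s : Bool) (bL : Pt) (I : List Pt) (bR : Pt) (t : ℕ) : Prop :=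
  if s then G.AltL k z bL (I.take t).reverse bR (G.lo G.Tb z bL (I.headD z))
      (G.hi G.Tb z bR (I.getLastD z)) ∧ G.lk z (G.lo G.Tb z bL (I.headD z) + 1) ∈ I.drop t
  else G.AltR k z bL (I.drop t) bR (G.lo G.Tb z bL (I.headD z))
      (G.hi G.Tb z bR (I.getLastD z)) ∧ G.lk z (G.hi G.Tb z bR (I.getLastD z) - 1) ∈ I.take t

end Grid
end Pool.Agent.P.MP_e4ac67_pr.Gr
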