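import Pool.Agent.P.MP_e4ac67_pr.G.FinU
import Pool.Agent.P.MP_e4ac67_pr.G.Rd
import Pool.Agent.P.MP_e4ac67_pr.G.Red

/-! The final form of the certificates. -/

open scoped ENNReal

namespace Pool.Agent.P.MP_e4ac67_pr.Gr

def rdY (nq N s : ℕ) (i : Bool × Fin nq) : ℕ :=
  N >>> (64 * (s * (2 * nq) + ix nq i)) % 18446744073709551616

theorem andL {a b : Bool} (h : (a && b) = true) : a = true := (Bool.and_eq_true_iff.1 h).1

theorem andR {a b : Bool} (h : (a && b) = true) : b = true := (Bool.and_eq_true_iff.1 h).2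

variable {Q : Type} [DecidableEq Q] [NQ Q]

theorem ACert.ok_of {A : ACert Q} {w : NW Q} (h0 : allQ (A.chk w 0) = true)
    (h1 : allQ (A.chk w 1) = true) (h2 : allQ (A.chk w 2) = true) (h3 : allQ (A.chk w 3) = true)
    (h4 : allQ (A.chk w 4) = true) (h5 : allQ (A.chk w 5) = true) : A.OK w := by
  intro s hs
  interval_cases s
  exacts [allQ_spec h0, allQ_spec h1, allQ_spec h2, allQ_spec h3, allQ_spec h4, allQ_spec h5]

omit [DecidableEq Q] in
theorem RCert.ok_of {R : RCert Q} {w : NW Q} (h : allR (R.chk w) 6 = true) : R.OK w :=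
  fun _ hs => allR_spec h hs

omit [DecidableEq Q] in
theorem NW.kok_of {w : NW Q} {wd rl : ℕ} {raw : Q → Q → ℕ → ℕ → ℕ}
    (h : (allQ fun r => chkK w r wd rl (raw r)) = true) : w.KOK := ⟨wd, rl, raw, allQ_spec h⟩

/-- the data shared by all problems with the automaton `w` -/
structure Base (w : NW Q) (A : ACert Q) (R : RCert Q) (ab : Bool) : Prop where
  ker : w.KOK
  hA : A.OK w
  hR : ab = true → R.OK w

def Spec.at (P : Spec Q) (o : Bool) : Spec Q := { P with so := o }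

/-- top states and gap of the tube -/
def Tube.Cs {G : Grid} (T : Tube G) (sl sr g : ℕ) (ex : Bool) : Prop :=
  T.st true (T.l + 1) = sl ∧ T.st false (T.l + 1) = sr ∧ g ≤ T.g ∧ (ex = true → T.g = g)

namespace TCert
variable (C : TCert Q) (P : Spec Q) (A : ACert Q) (R : RCert Q)

/-- the check for all top states in `ls` (left) and `rs` (right) -/
def chkM (ab : Bool) (ls rs : List ℕ) : Bool :=
  P.chkL && (ab || decide (P.ws = none)) && C.chk1 P true && C.chk1 P false &&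
    (ls.all fun s => C.chk0 P true s && C.chkB P A R true s) &&
    rs.all fun s => C.chk0 P false s && C.chkB P A R false s

variable {C P A R} [Fintype Q] {G : Grid} {T : Tube G} {ab : Bool} {ls rs : List ℕ} {sl sr : ℕ}

omit [Fintype Q] in
theorem All.of (b : Base P.w A R ab) (h : C.chkM P A R ab ls rs = true) (hT : T.Cs sl sr C.g C.ex)
    (m : (decide (sl ∈ ls) && decide (sr ∈ rs)) = true) (o : Bool) : C.All (P.at o) A R T := by
  simp only [chkM, Bool.and_eq_true, List.all_eq_true, Bool.or_eq_true, decide_eq_true_eq] at h m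
  obtain ⟨⟨⟨⟨⟨h1, h2⟩, h3⟩, h4⟩, h5⟩, h6⟩ := h
  refine ⟨b.ker, b.hA, fun hw => b.hR (h2.resolve_right hw), hT.2.2, ?_⟩
  show C.chk P A R _ _ = true
  rw [hT.1, hT.2.1]
  simp only [TCert.chk, TCert.chkS, Bool.and_eq_true]
  exact ⟨⟨h1, ⟨h3, (h5 _ m.1).1⟩, (h5 _ m.1).2⟩, ⟨h4, (h6 _ m.2).1⟩, (h6 _ m.2).2⟩

theorem starts (b : Base P.w A R ab) (h : C.chkM P A R ab ls rs = true) {q : Q}
    {ti tl tc c0 a a' : ℕ} {Y : ℕ → Bool × Q → ℕ} (hY : A.chkY P.w q ti tl tc Y = true) (o : Bool)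
    (hs : (decide (sl ∈ ls) && decide (sr ∈ rs) &&
      C.chkSt (P.at o) A (cond o sl sr) q Y c0 tl a a') = true) (hT : T.Cs sl sr C.g C.ex) :
    (P.at o).Starts T q c0 ti tl a a' := by
  rw [Bool.and_eq_true] at hs
  refine (All.of b h hT hs.1 o).starts hY ?_
  cases o
  exacts [hT.2.1 ▸ hs.2, hT.1 ▸ hs.2]

theorem link (b : Base P.w A R ab) (h : C.chkM P A R ab ls rs = true) {q : Q} {i a : ℕ} (o : Bool)
    (hs : (decide (sl ∈ ls) && decide (sr ∈ rs) && C.chkLk P o (cond o sl sr) i q a) = true)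
    (hT : T.Cs sl sr C.g C.ex) : P.Link T o i q a := by
  rw [Bool.and_eq_true] at hs
  refine (All.of b h hT hs.1 P.so).link ?_
  cases o
  exacts [hT.2.1 ▸ hs.2, hT.1 ▸ hs.2]

end TCert
end Pool.Agent.P.MP_e4ac67_pr.Gr
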