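import Pool.Agent.P.MP_e4ac67_pr.G.AsmC
import Pool.Agent.P.MP_e4ac67_pr.G.Emit

/-! Packages: all tables of one case give the condition of `Tab`. -/

open scoped ENNReal

namespace Pool.Agent.P.MP_e4ac67_pr.Gr

/-- weights and the numbers of the final inequalities -/
structure NF where
  N : NB
  t : ℕ
  g1 : ℕ
  g2 : ℕ
  θ : ℕ

/-- the condition holds for all tubes of the given type -/
def Cs (F : NF) (τ a b g : ℕ) (ex : Bool) : Prop :=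
  ∀ (k : ℕ) (G : Grid) (z : Pt) (T : Tube G), Cx k z T τ a b → T.Cs a b g ex →
    G.At k F.N F.t F.g1 F.g2 F.θ z

theorem Cs.split {F : NF} {τ a b g : ℕ} (h1 : Cs F τ a b g true) (h2 : Cs F τ a b (g + 1) false) :
    Cs F τ a b g false := fun k G z T h c =>
  (le_or_gt T.g g).elim (fun e => h1 k G z T h ⟨c.1, c.2.1, c.2.2.1, fun _ => le_antisymm e c.2.2.1⟩)
    fun e => h2 k G z T h ⟨c.1, c.2.1, e, nofun⟩

theorem tab_of {F : NF} {k : ℕ} (h7 : 7 ≤ k) (h1 : Cs F 1 3 3 3 false) (h2 : Cs F 1 3 5 3 false)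
    (h3 : Cs F 1 5 3 3 false) (h4 : Cs F 0 9 6 4 false) (h5 : Cs F 0 0 7 4 false)
    (h6 : Cs F 0 7 8 4 false) (hx : ∀ (G : Grid) (o : Pt), F.N.nm.p *
      (2 * ind (F.N.nm.m = false) + 2 * (G.sG F.N.nm o false + G.sG F.N.nm o true)) ≤ vv F.θ) :
    Tab k F.N.nm (vv F.t) (vv F.g1) (vv F.g2) (vv F.θ) := by
  refine fun G => ⟨fun z hz hk => ?_, fun o _ _ => hx G o⟩
  obtain ⟨T, hT, h⟩ := exists_tube G hz
  have e := hT.g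
  have f := fun τ a b => Cx.mk (τ := τ) (a := a) (b := b) h7 hk hT
  unfold Grid.dg at hk
  simp only [List.mem_cons, Prod.mk.injEq, List.not_mem_nil, or_false] at h
  rcases h with ⟨c, d | d | d⟩ | ⟨c, -, d | d⟩ | ⟨c, -, d⟩
  exacts [h1 k G z T (f _ _ _ c d.1 d.2) ⟨d.1, d.2, by omega, nofun⟩,
    h2 k G z T (f _ _ _ c d.1 d.2) ⟨d.1, d.2, by omega, nofun⟩,
    h3 k G z T (f _ _ _ c d.1 d.2) ⟨d.1, d.2, by omega, nofun⟩,
    h4 k G z T (f _ _ _ c d.1 d.2) ⟨d.1, d.2, by omega, nofun⟩,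
    h5 k G z T (f _ _ _ c d.1 d.2) ⟨d.1, d.2, by omega, nofun⟩,
    h6 k G z T (f _ _ _ c d.1 d.2) ⟨d.1, d.2, by omega, nofun⟩]

variable {Q : Type} [Fintype Q] {G : Grid} (T : Tube G) (N : NB) (a b : ℕ)

def lN (a b : ℕ) (o : Bool) (l : List N3) (s : OB) : ℕ := (l.map fun x => sN a b o NN x s).sum

/-- pockets on the side `o` -/
def MK.HP (M : MK Q) (q0 : Q) (pk o : Bool) (l : List N3) : Prop :=
  AL (fun n x => (M.spP pk n o).SB T N q0 NN x) (ww a b o + 1) l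

/-- alternatives on the near side; `q1`, `q2` are the states that are not near -/
def MK.HA (M : MK Q) (q0 q1 q2 : Q) (pk o : Bool) (V : Q → ℕ) (x : N3) : Prop :=
  (M.spA2 (ww a b o + 1) o).Link T o (ww a b o + 1) q1 (V q1) ∧
  (M.spA2 (ww a b o + 1) o).Link T o (ww a b o + 1) q2 (V q2) ∧
  (M.sp1 o (ww a b o + 1) false pk V o).SB T N q0 (ww a b o * NN) x

/-- alternatives on the far side (bond) -/
def MK.HB (M : MK (Fin 3)) (pk o : Bool) (V : Fin 3 → ℕ) (x : N3) : Prop :=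
  (M.spB2 pk (ww a b (!o) + 1) (!o)).Link T (!o) (ww a b (!o) + 1) 2 (V 2) ∧
  (M.sp1 (!o) (ww a b (!o) + 1) true false V o).SB T N 2 NN x

def MK.HZ (M : MK Q) (q1 q2 : Q) (pk : Bool) (g : ℕ) (L : List (List (ℕ × ℕ))) : Prop :=
  AL (fun i l => AL (fun n x => (M.spP pk n true).L2 T i q1 q2 x) (i + 1) l ∧
    g + 3 - ww a b false ≤ i + 1 + l.length) (ww a b true + 1) L

def MK.HZu (M : MK Q) (q1 q2 : Q) (L : List (List (ℕ × ℕ) × ℕ × ℕ)) : Prop :=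
  AL (fun i l => AL (fun n x => (M.spP false n true).L2 T i q1 q2 x) (i + 1) l.1 ∧
    (M.spC 6 true).L2 T i q1 q2 l.2 ∧ 6 ≤ i + 1 + l.1.length) (ww a b true + 1) L

def zN (n1 n2 : ℕ) (L : List (List (ℕ × ℕ))) : ℕ := (L.map fun l => (l.map (l2N n1 n2)).sum).sum

def zuN (n1 n2 : ℕ) (L : List (List (ℕ × ℕ) × ℕ × ℕ)) : ℕ :=
  (L.map fun l => (l.1.map (l2N n1 n2)).sum + l2N n1 n2 l.2).sum

def f2N (x y : ℕ × ℕ) : ℕ := mulU NN x.1 + x.2 + (mulU NN y.1 + y.2)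

/-- the classes without marks, bond: automata and factors -/
structure PB where
  wx : NW (Fin 3)
  wy : NW (Fin 3)
  u : Fin 3 → ℕ
  t : Fin 3 → ℕ
  tW : Fin 3 → ℕ
  tS : Fin 3 → ℕ
  pw : Fin 3 → ℕ
  iq : ℕ

/-- the classes without marks, bond: bounds (`1`: side `true`, `2`: side `false`) -/
structure XB where
  g : ℕ
  l1 : N3
  l2 : N3
  s1 : ℕ × ℕ
  s2 : ℕ × ℕ
  w1 : N3
  w2 : N3
  z1 : N3
  z2 : N3

def PB.H (D : PB) (τ : ℕ) (X : XB) : Prop :=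
  (spG D.wy N.q (fun _ => N.p) fun q => decide (q = 1)).Link T true 4 2 X.g ∧
  (spL D.wx D.u D.t true).SB T N 2 NN X.l1 ∧ (spL D.wx D.u D.t false).SB T N 2 NN X.l2 ∧
  (spL D.wx D.u D.t true).Starts T 0 NN NN NN X.s1.1 X.s1.2 ∧
  (spL D.wx D.u D.t false).Starts T 0 NN NN NN X.s2.1 X.s2.2 ∧
  (spW D.wx N.q D.tW true).SB T N 0 N.q X.w1 ∧ (spW D.wx N.q D.tW false).SB T N 0 N.q X.w2 ∧
  (spS D.wx (6 - τ) NN D.tS true D.pw true).SB T N 0 NN X.z1 ∧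
  (spS D.wx (6 - τ) NN D.tS true D.pw false).SB T N 0 NN X.z2

def PB.ok (D : PB) : Bool :=
  !N.m && stpN D.wy 2 2 N.p N.q && stpN D.wy 2 1 (mulU N.p N.q) N.q && stpN D.wy 1 0 N.p N.q &&
  stpN D.wy 0 0 N.p N.q && stpN D.wx 2 1 N.p 0 && stpN D.wx 1 1 N.p N.q &&
  stpN D.wx 1 0 (mulU N.p N.q) N.q && stpN D.wx 0 0 N.p N.q && Nat.ble N.q (D.u 0) &&
  Nat.ble NN (D.u 1) && Nat.ble NN (D.t 0) && Nat.ble NN (D.t 1) && Nat.ble N.p (D.tW 0) &&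
  Nat.ble N.q NN && Nat.ble N.p NN && Nat.ble NN (D.tS 0) &&
  Nat.ble (NN * NN * NN) (N.p * N.q * D.pw 0) && Nat.ble (NN * NN) (N.q * D.iq)

/-- the final check; `zz`, `F1`, `F2` bound the marked arcs, `κ` is the factor of the alternatives -/
def PB.fin (D : PB) (F : NF) (a b : ℕ) (X : XB) (κ zz : ℕ) (F1 F2 : OB → ℕ) : Bool :=
  D.ok F.N && Nat.ble (F.N.p + sN2 a b F.N.q X.w1 X.w2 none) κ &&
  Grid.finN F.N F.t F.g1 F.g2 F.θ X.g (mulU D.iq (f2N X.s1 X.s2)) (sN2 a b NN X.l1 X.l2 none) zz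
    (sN2 a b NN X.l1 X.l2) (sN2 a b F.N.q X.w1 X.w2)
    (fun s => eo s (mulU D.iq (sN2 a b NN X.z1 X.z2 s)) (sN2 a b NN X.z1 X.z2 s)) F1 F2

/-- the classes without marks, site -/
structure PS where
  vx : NW (Fin 4)
  vy : NW (Fin 5)
  dG : ℕ
  tG : Fin 5 → ℕ
  u : Fin 4 → ℕ
  t : Fin 4 → ℕ
  u' : Fin 4 → ℕ
  t' : Fin 4 → ℕ
  q0 : Fin 4
  tW : Fin 4 → ℕ
  tS : Fin 4 → ℕ
  pw : Fin 4 → ℕ

structure XS where
  g : ℕ
  l1 : N3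
  l2 : N3
  x1 : ℕ × ℕ
  x2 : ℕ × ℕ
  s1 : ℕ × ℕ
  s2 : ℕ × ℕ
  w1 : N3
  w2 : N3
  z1 : N3
  z2 : N3
  y1 : N3
  y2 : N3

/-- charged starts with `c0 = 0`, free starts with `c0 = NN` -/
def Spec.SB0 (S : Spec Q) (q : Q) (x : N3) : Prop :=
  S.Starts T q 0 N.iv N.il x.1 x.2.1 ∧ S.Starts T q NN NN NN x.1 x.2.2

def PS.H (D : PS) (τ : ℕ) (X : XS) : Prop :=
  (spG D.vy D.dG D.tG fun q => decide (q = 1 ∨ q = 2)).Link T true 4 4 X.g ∧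
  (spL D.vx D.u D.t true).SB T N 3 NN X.l1 ∧ (spL D.vx D.u D.t false).SB T N 3 NN X.l2 ∧
  (spL D.vx D.u' D.t' true).Starts T 3 NN NN NN X.x1.1 X.x1.2 ∧
  (spL D.vx D.u' D.t' false).Starts T 3 NN NN NN X.x2.1 X.x2.2 ∧
  (spL D.vx D.u D.t true).Starts T D.q0 NN NN NN X.s1.1 X.s1.2 ∧
  (spL D.vx D.u D.t false).Starts T D.q0 NN NN NN X.s2.1 X.s2.2 ∧
  (spW D.vx 0 D.tW true).SB T N D.q0 N.q X.w1 ∧ (spW D.vx 0 D.tW false).SB T N D.q0 N.q X.w2 ∧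
  (spS D.vx (6 - τ) 0 D.tS false (fun _ => 0) true).SB0 T N D.q0 X.z1 ∧
  (spS D.vx (6 - τ) 0 D.tS false (fun _ => 0) false).SB0 T N D.q0 X.z2 ∧
  (spS D.vx (6 - τ) NN (fun _ => 0) true D.pw true).SB T N D.q0 NN X.y1 ∧
  (spS D.vx (6 - τ) NN (fun _ => 0) true D.pw false).SB T N D.q0 NN X.y2

def PS.ok (D : PS) : Bool :=
  N.m && Nat.beq N.q 0 && stpN D.vy 4 3 N.p 0 && stpN D.vy 4 2 N.p 0 && stpN D.vy 3 3 N.p 0 &&
  stpN D.vy 3 1 N.p 0 && stpN D.vy 2 0 NN NN && stpN D.vy 1 0 NN 0 && stpN D.vy 0 0 N.p 0 &&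
  Nat.ble N.p (D.tG 0) && Nat.ble NN (D.tG 1) && Nat.ble NN (D.tG 2) &&
  stpN D.vx 3 3 N.p 0 && stpN D.vx 3 2 NN 0 && stpN D.vx 2 1 N.p 0 && stpN D.vx 1 1 N.p 0 &&
  stpN D.vx 2 0 N.p NN && stpN D.vx D.q0 D.q0 N.p 0 && Nat.ble NN (D.u 3) && Nat.ble NN (D.t 1) &&
  Nat.ble (NN * NN) (N.p * D.t 3) && Nat.ble NN (D.u' 3) && Nat.ble NN (D.t' 1) &&
  Nat.ble NN (D.t' 0) && Nat.ble NN (D.t D.q0) && Nat.ble N.p (D.tW D.q0) &&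
  Nat.ble NN (D.tS D.q0) && Nat.ble (NN * NN) (N.p * D.pw D.q0)

def PS.fin (D : PS) (F : NF) (a b : ℕ) (X : XS) (zz : ℕ) (F1 F2 : OB → ℕ) : Bool :=
  D.ok F.N && Grid.finN F.N F.t F.g1 F.g2 F.θ X.g (mulU NN (f2N X.s1 X.s2)) (f2N X.x1 X.x2) zz
    (sN2 a b NN X.l1 X.l2) (sN2 a b F.N.q X.w1 X.w2)
    (fun s => eo s (2 * sN2 a b NN X.z1 X.z2 s) (sN2 a b 0 X.z1 X.z2 s) +
      2 * sN2 a b NN X.y1 X.y2 s) F1 F2

variable {T N a b}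

namespace Cx
variable {k τ : ℕ} {z : Pt} (h : Cx k z T τ a b) {F : NF} {κ zz : ℕ} {F1 F2 : OB → ℕ}
include h

omit [Fintype Q] in
theorem pb {D : PB} {X : XB} (H : D.H T F.N τ X) (c : D.fin F a b X κ zz F1 F2 = true)
    (hF : F.N.p ≤ NN → G.kap F.N.nm z ≤ vv κ → G.sFzz k F.N.nm z ≤ vv zz ∧
      UB (G.Sf k F.N z true) F1 ∧ UB (G.Sf k F.N z false) F2) :
    G.At k F.N F.t F.g1 F.g2 F.θ z := by
  simp only [PB.fin, PB.ok, Bool.and_eq_true, Nat.ble_eq, Bool.not_eq_true', and_assoc] at c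
  obtain ⟨c1, c2, c3, c4, c5, c6, c7, c8, c9, d1, d2, d3, d4, d5, d6, d7, d8, d9, e1, e2, e3⟩ := c
  obtain ⟨a1, a2, a3, a4, a5, a6, a7, a8, a9⟩ := H
  have hW := h.cW a6 a7 ⟨c9, le_rfl, d5⟩
  have hL := h.cLb a2 a3 ⟨c1, c6, c7, c8, c9, d1, d2, d3, d4⟩
  obtain ⟨f1, f2, f3⟩ := hF d7 (cK hW (by rw [c1, cond_false]; exact e2))
  exact Grid.at_of (h.cGb a1 ⟨c1, c2, c3, c4, c5, le_rfl, le_rfl⟩)
    (h.cS a4 a5 ⟨c9, d1, d3, d6, fun _ => le_rfl, e1⟩) hL.2 f1 hL.1 hW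
    (h.cSWb a8 a9 ⟨c1, c9, d6, d8, d9, e1⟩) f2 f3 e3

omit [Fintype Q] in
theorem ps {D : PS} {X : XS} (H : D.H T F.N τ X) (c : D.fin F a b X zz F1 F2 = true)
    (hF : G.kap F.N.nm z ≤ vv NN → G.sFzz k F.N.nm z ≤ vv zz ∧
      UB (G.Sf k F.N z true) F1 ∧ UB (G.Sf k F.N z false) F2) :
    G.At k F.N F.t F.g1 F.g2 F.θ z := by
  simp only [PS.fin, PS.ok, Bool.and_eq_true, Nat.ble_eq, Nat.beq_eq, and_assoc] at c
  obtain ⟨c1, c2, c3, c4, c5, c6, c7, c8, c9, d1, d2, d3, d4, d5, d6, d7, d8, d9, e1, e2, e3, e4,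
    e5, e6, e7, e8, e9, f1, f2⟩ := c
  obtain ⟨a1, a2, a3, a4, a5, a6, a7, a8, a9, b1, b2, b3, b4⟩ := H
  have g1 : stpN D.vx D.q0 D.q0 F.N.p F.N.q = true := c2 ▸ d9
  have hW := h.cW a8 a9 ⟨g1, c2.le, e8⟩
  obtain ⟨f3, f4, f5⟩ := hF (cK hW (by rw [c1, cond_true]))
  exact Grid.at_of (h.cGs a1 ⟨c1, c2, c3, c4, c5, c6, c7, c8, c9, d1, d2, d3⟩)
    (h.cS a6 a7 ⟨g1, c2.trans_le (Nat.zero_le _), e7, le_rfl, by simp [c1], le_rfl⟩)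
    (h.cXs a4 a5 ⟨c1, c2, d4, d5, d6, d7, d8, e4, e5, e6⟩) f3
    (h.cLs a2 a3 ⟨c1, c2, d4, d5, d6, d7, e1, e2, e3⟩) hW
    (h.cSWs b1 b2 b3 b4 ⟨c1, c2, d9, e9, f1⟩) f4 f5 f2

variable {pk o : Bool} {a' c' : ℕ} {x : N3}

omit [Fintype Q] in
theorem ab {M : MK (Fin 3)} {V : Fin 3 → ℕ} (hM : M.bondN N a' c' = true)
    (hp : pk = true → T.g + τ ≤ 4) (H : M.HA T N a b 2 0 1 pk o V x) :
    UB (G.FM N z o (G.Alt k z o) a' c') (sN a b o 0 x) :=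
  h.cA (MK.bond_of hM).run hp (fun q e => by
    rw [(MK.bond_of hM).nr] at e
    fin_cases q
    exacts [H.1, H.2.1, absurd e (by decide)]) H.2.2

omit [Fintype Q] in
theorem as {M : MK (Fin 4)} {V : Fin 4 → ℕ} (hM : M.siteN N false a' c' = true)
    (hp : pk = true → T.g + τ ≤ 4) (H : M.HA T N a b 3 0 1 pk o V x) :
    UB (G.FM N z o (G.Alt k z o) a' c') (sN a b o 0 x) :=
  h.cA (MK.site_of hM).run hp (fun q e => by
    rw [(MK.site_of hM).nr] at e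
    fin_cases q
    exacts [H.1, H.2.1, absurd e (by decide), absurd e (by decide)]) H.2.2

omit [Fintype Q] in
theorem bb {M : MK (Fin 3)} {V : Fin 3 → ℕ} (hM : M.bondN N a' c' = true)
    (hp : pk = true → T.g + τ ≤ 4) (H : M.HB T N a b pk o V x) :
    UB (G.FM N z o (G.Alt k z (!o)) a' c') (sN a b o NN x) :=
  h.cB (MK.bond_of hM).run hp (fun q e => by
    rw [(MK.bond_of hM).nr] at e
    fin_cases q
    exacts [absurd e (by decide), absurd e (by decide), H.1]) H.2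

end Cx

variable {F : NF} {τ g κ ik : ℕ} {pk ex : Bool}

def sfF (a b ik : ℕ) (o : Bool) (l : List N3) (x y : N3) (s : OB) : ℕ :=
  lN a b o l s + eo s (mulU ik (sN a b o 0 x s)) (sN a b o 0 x s) +
    eo s (cond o (sN a b o NN y s) 0) (sN a b o NN y s)

omit [Fintype Q] in
/-- bond, all pockets: `M` (`zt = NN`, `ab`), `Mk` (`zt = κ`, `ab`), `Mb` (`ab`), `Mz` (`zt = NN`) -/
theorem bondF {D : PB} {X : XB} {M Mk Mb Mz : MK (Fin 3)} {l1 l2 : List N3}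
    {V1 V2 U1 U2 : Fin 3 → ℕ} {x1 x2 y1 y2 : N3} {L : List (List (ℕ × ℕ))}
    (H : ∀ (G : Grid) (T : Tube G), T.Cs a b g true → D.H T F.N τ X ∧
      M.HP T F.N a b 2 pk true l1 ∧ M.HP T F.N a b 2 pk false l2 ∧
      Mk.HA T F.N a b 2 0 1 pk true V1 x1 ∧ Mk.HA T F.N a b 2 0 1 pk false V2 x2 ∧
      Mb.HB T F.N a b pk true U1 y1 ∧ Mb.HB T F.N a b pk false U2 y2 ∧ Mz.HZ T a b 2 0 pk g L)
    (c : D.fin F a b X κ (zN F.N.p F.N.p L) (sfF a b ik true l1 x1 y1) (sfF a b ik false l2 x2 y2)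
      = true ∧ M.bondN F.N NN NN = true ∧ Mk.bondN F.N κ NN = true ∧ Mb.bondN F.N 0 NN = true ∧
      Mz.bondN F.N NN 0 = true ∧ NN * NN ≤ κ * ik ∧ NN ≤ ik ∧ g ≤ 5 ∧ (pk = true → g + τ ≤ 4) ∧
      g + 4 - ww a b false ≤ ww a b true + 1 + l1.length ∧
      g + 4 - ww a b true ≤ ww a b false + 1 + l2.length ∧ 4 ≤ ww a b true + 1 + L.length) :
    Cs F τ a b g true := fun k G z T h hT => by
  obtain ⟨a1, a2, a3, a4, a5, a6, a7, a8⟩ := H G T hT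
  obtain ⟨c1, c2, c3, c4, c5, c6, c7, c8, c9, d1, d2, d3⟩ := c
  have e := hT.2.2.2 rfl
  have p : pk = true → T.g + τ ≤ 4 := e ▸ c9
  exact h.pb a1 c1 fun f1 f2 => ⟨h.cZ (MK.bondZ_of c5) e a8 ⟨c8, c9, d3⟩,
    Grid.sf_PAB f1 f2 ⟨c6, c7⟩ (h.cP (MK.bond_of c2).run e a2 ⟨c8, c9, d1⟩) (h.ab c3 p a4)
      (h.bb c4 p a6),
    Grid.sf_PAB f1 f2 ⟨c6, c7⟩ (h.cP (MK.bond_of c2).run e a3 ⟨c8, c9, d2⟩) (h.ab c3 p a5)
      (h.bb c4 p a7)⟩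

/-- `u` is the factor of the arcs to the centre, `x` bounds them, `y` the arcs to the tube -/
def sfZ (u : ℕ) (o : Bool) (x y : OB → ℕ) (s : OB) : ℕ :=
  eo s (x s) (mulU u (x s)) + eo s (cond o (y s) 0) (y s)

def zkU (a b ik : ℕ) (l : List N3) (y x : N3) (s : OB) : ℕ :=
  lN a b true l s + sN a b true NN y s + eo s (mulU ik (sN a b true 0 x s)) (sN a b true 0 x s)

omit [Fintype Q] in
/-- bond, few pockets: `Mz` (`zt = NN`), `Mk` (`zt = κ`), `Mc` (`ab`) -/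
theorem bondU {D : PB} {X : XB} {Mz Mk Mc : MK (Fin 3)} {l : List N3} {V : Fin 3 → ℕ}
    {x y c0 u1 u2 : N3} {L : List (List (ℕ × ℕ) × ℕ × ℕ)}
    (H : ∀ (G : Grid) (T : Tube G), T.Cs a b g ex → D.H T F.N τ X ∧
      Mz.HP T F.N a b 2 false true l ∧ (Mz.spC 6 true).SB T F.N 2 NN y ∧
      Mk.HA T F.N a b 2 0 1 pk true V x ∧ (Mz.spC 0 false).SB T F.N 2 NN c0 ∧
      (Mc.spC 0 true).SB T F.N 2 NN u1 ∧ (Mc.spC 0 false).SB T F.N 2 NN u2 ∧ Mz.HZu T a b 2 0 L)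
    (c : D.fin F a b X κ (zuN F.N.p F.N.p L)
      (sfZ (cond F.N.m F.N.p NN) true (zkU a b ik l y x) (sN a b true NN u1))
      (sfZ (cond F.N.m F.N.p NN) false (sN a b false NN c0) (sN a b false NN u2)) = true ∧
      Mz.bondN F.N NN 0 = true ∧ Mk.bondN F.N κ 0 = true ∧ Mc.bondN F.N 0 NN = true ∧
      NN * NN ≤ κ * ik ∧ κ ≤ NN ∧ (pk = true → ex = true ∧ g + τ ≤ 4) ∧
      6 ≤ ww a b true + 1 + l.length ∧ 4 ≤ ww a b true + 1 + L.length) :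
    Cs F τ a b g ex := fun k G z T h hT => by
  obtain ⟨a1, a2, a3, a4, a5, a6, a7, a8⟩ := H G T hT
  obtain ⟨c1, c2, c3, c4, c5, c6, c7, c8, c9⟩ := c
  have p : pk = true → T.g + τ ≤ 4 := fun e => hT.2.2.2 (c7 e).1 ▸ (c7 e).2
  exact h.pb a1 c1 fun _ f2 => ⟨h.cZu (MK.bondZ_of c2) a8 c9,
    Grid.sf_ZU Cx.cv (Grid.zk_PA f2 c5 (h.cPu (MK.bond_of c2).run a2 a3 c8) (h.ab c3 p a4))
      (Grid.uf_C (h.cC (MK.bond_of c4).run a6)),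
    Grid.sf_ZU Cx.cv (Grid.zk_C f2 c6 (h.cC (MK.bond_of c2).run a5))
      (Grid.uf_C (h.cC (MK.bond_of c4).run a7))⟩

def zkF (a b : ℕ) (o : Bool) (l : List N3) (x : N3) (s : OB) : ℕ :=
  lN a b o l s + eo s (mulU NN (sN a b o 0 x s)) (sN a b o 0 x s)

omit [Fintype Q] in
/-- site, all pockets for the arcs to the centre -/
theorem siteF {D : PS} {X : XS} {M Mc Mz : MK (Fin 4)} {l1 l2 : List N3} {V1 V2 : Fin 4 → ℕ}
    {x1 x2 u1 u2 : N3} {L : List (List (ℕ × ℕ))}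
    (H : ∀ (G : Grid) (T : Tube G), T.Cs a b g true → D.H T F.N τ X ∧
      M.HP T F.N a b 3 pk true l1 ∧ M.HP T F.N a b 3 pk false l2 ∧
      M.HA T F.N a b 3 0 1 pk true V1 x1 ∧ M.HA T F.N a b 3 0 1 pk false V2 x2 ∧
      (Mc.spC 0 true).SB T F.N 3 NN u1 ∧ (Mc.spC 0 false).SB T F.N 3 NN u2 ∧ Mz.HZ T a b 3 2 pk g L)
    (c : D.fin F a b X (zN F.N.p NN L)
      (sfZ (cond F.N.m F.N.p NN) true (zkF a b true l1 x1) (sN a b true NN u1))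
      (sfZ (cond F.N.m F.N.p NN) false (zkF a b false l2 x2) (sN a b false NN u2)) = true ∧
      M.siteN F.N false NN 0 = true ∧ Mc.siteN F.N false 0 NN = true ∧
      Mz.siteN F.N true NN 0 = true ∧ g ≤ 5 ∧ (pk = true → g + τ ≤ 4) ∧
      g + 4 - ww a b false ≤ ww a b true + 1 + l1.length ∧
      g + 4 - ww a b true ≤ ww a b false + 1 + l2.length ∧ 4 ≤ ww a b true + 1 + L.length) :
    Cs F τ a b g true := fun k G z T h hT => by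
  obtain ⟨a1, a2, a3, a4, a5, a6, a7, a8⟩ := H G T hT
  obtain ⟨c1, c2, c3, c4, c8, c9, d1, d2, d3⟩ := c
  have e := hT.2.2.2 rfl
  have p : pk = true → T.g + τ ≤ 4 := e ▸ c9
  exact h.ps a1 c1 fun f2 => ⟨h.cZ (MK.siteZ_of c4) e a8 ⟨c8, c9, d3⟩,
    Grid.sf_ZU Cx.cv (Grid.zk_PA f2 le_rfl (h.cP (MK.site_of c2).run e a2 ⟨c8, c9, d1⟩)
      (h.as c2 p a4)) (Grid.uf_C (h.cC (MK.site_of c3).run a6)),
    Grid.sf_ZU Cx.cv (Grid.zk_PA f2 le_rfl (h.cP (MK.site_of c2).run e a3 ⟨c8, c9, d2⟩)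
      (h.as c2 p a5)) (Grid.uf_C (h.cC (MK.site_of c3).run a7))⟩

omit [Fintype Q] in
/-- site, few pockets -/
theorem siteU {D : PS} {X : XS} {M Mc Mz : MK (Fin 4)} {l : List N3} {V : Fin 4 → ℕ}
    {x y c0 u1 u2 : N3} {L : List (List (ℕ × ℕ) × ℕ × ℕ)}
    (H : ∀ (G : Grid) (T : Tube G), T.Cs a b g ex → D.H T F.N τ X ∧
      M.HP T F.N a b 3 false true l ∧ (M.spC 6 true).SB T F.N 3 NN y ∧
      M.HA T F.N a b 3 0 1 pk true V x ∧ (M.spC 0 false).SB T F.N 3 NN c0 ∧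
      (Mc.spC 0 true).SB T F.N 3 NN u1 ∧ (Mc.spC 0 false).SB T F.N 3 NN u2 ∧ Mz.HZu T a b 3 2 L)
    (c : D.fin F a b X (zuN F.N.p NN L)
      (sfZ (cond F.N.m F.N.p NN) true (zkU a b NN l y x) (sN a b true NN u1))
      (sfZ (cond F.N.m F.N.p NN) false (sN a b false NN c0) (sN a b false NN u2)) = true ∧
      M.siteN F.N false NN 0 = true ∧ Mc.siteN F.N false 0 NN = true ∧
      Mz.siteN F.N true NN 0 = true ∧ (pk = true → ex = true ∧ g + τ ≤ 4) ∧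
      6 ≤ ww a b true + 1 + l.length ∧ 4 ≤ ww a b true + 1 + L.length) :
    Cs F τ a b g ex := fun k G z T h hT => by
  obtain ⟨a1, a2, a3, a4, a5, a6, a7, a8⟩ := H G T hT
  obtain ⟨c1, c2, c3, c4, c7, c8, c9⟩ := c
  have p : pk = true → T.g + τ ≤ 4 := fun e => hT.2.2.2 (c7 e).1 ▸ (c7 e).2
  exact h.ps a1 c1 fun f2 => ⟨h.cZu (MK.siteZ_of c4) a8 c9,
    Grid.sf_ZU Cx.cv (Grid.zk_PA f2 le_rfl (h.cPu (MK.site_of c2).run a2 a3 c8) (h.as c2 p a4))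
      (Grid.uf_C (h.cC (MK.site_of c3).run a6)),
    Grid.sf_ZU Cx.cv (Grid.zk_C f2 le_rfl (h.cC (MK.site_of c2).run a5))
      (Grid.uf_C (h.cC (MK.site_of c3).run a7))⟩

end Pool.Agent.P.MP_e4ac67_pr.Gr
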