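import Pool.Agent.P.MP_e4ac67_pr.G.AsmF

/-! The classes from the tables. -/

open scoped ENNReal
open Finset

namespace Pool.Agent.P.MP_e4ac67_pr.Gr

theorem MK.bondZ_of {M : MK (Fin 3)} {N : NB} {b : ℕ} (h : M.bondN N NN b = true) :
    M.RunZ N.nm 2 0 (vv N.p) (vv N.p) := (vv_NN ▸ MK.bond_of h : M.Bond N.nm 1 (vv b)).runZ

theorem MK.siteZ_of {M : MK (Fin 4)} {N : NB} {b : ℕ} (h : M.siteN N true NN b = true) :
    M.RunZ N.nm 3 2 (vv N.p) (vv NN) :=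
  vv_NN.symm ▸ (vv_NN ▸ MK.site_of h : M.Site N.nm true 1 (vv b)).runZ

variable {Q : Type} [Fintype Q] {G : Grid}

/-- bounds for the paths from the `l`-th neighbour for two start states -/
def Spec.L2 (S : Spec Q) (T : Tube G) (l : ℕ) (q1 q2 : Q) (x : ℕ × ℕ) : Prop :=
  S.Link T true l q1 x.1 ∧ S.Link T true l q2 x.2

def l2N (n1 n2 : ℕ) (x : ℕ × ℕ) : ℕ := mulU n1 x.1 + mulU n2 x.2

theorem Spec.L2.le {S : Spec Q} {T : Tube G} {l n1 n2 : ℕ} {q1 q2 : Q} {x : ℕ × ℕ}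
    (h : S.L2 T l q1 q2 x) : vv n1 * S.paths T q1 none (Spec.nbr T true l) ∅ +
      vv n2 * S.paths T q2 none (Spec.nbr T true l) ∅ ≤ vv (l2N n1 n2 x) :=
  le_addU (le_mulU le_rfl h.1.le) (le_mulU le_rfl h.2.le)

namespace Cx
variable {k τ a b g : ℕ} {z : Pt} {T : Tube G} (h : Cx k z T τ a b) {N : NB} {M : MK Q} {q0 : Q}
  {a' c' : ℕ} {pk o : Bool} {x y : N3}
include h

omit [Fintype Q] h in
theorem cv : G.cv z ≠ z := fun e => Fit.zcv (G := G) (z := z) (Or.inl e)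

/-- pockets, exact gap -/
theorem cP (hM : M.Run N.nm q0 (vv a') (vv c')) (hg : T.g = g) {l : List N3}
    (hl : AL (fun n x => (M.spP pk n o).SB T N q0 NN x) (ww a b o + 1) l)
    (hc : g ≤ 5 ∧ (pk = true → g + τ ≤ 4) ∧ g + 4 - ww a b (!o) ≤ ww a b o + 1 + l.length) :
    UB (G.FM N z o (G.Pk k z) a' c') fun s => (l.map fun x => sN a b o NN x s).sum := fun s => by
  have e := h.fit.g.symm.trans hg
  refine (red_P h.fit h.g3 hM (e ▸ hc.1) (h.pk hg hc.2.1) o s).trans ?_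
  rw [h.w0, h.w0, e]
  exact AL.sum (f := fun x => sN a b o NN x s)
    (fun n x c => h.sum (S := M.spP pk n o) c rfl vv_NN.ge vv_NN.ge s) hl hc.2.2

/-- pockets, large gap -/
theorem cPu (hM : M.Run N.nm q0 (vv a') (vv 0)) {l : List N3}
    (hl : AL (fun n x => (M.spP false n true).SB T N q0 NN x) (ww a b true + 1) l)
    (hy : (M.spC 6 true).SB T N q0 NN y) (hc : 6 ≤ ww a b true + 1 + l.length) :
    UB (G.FM N z true (G.Pk k z) a' 0) fun s =>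
      (l.map fun x => sN a b true NN x s).sum + sN a b true NN y s := fun s => by
  rw [Grid.FM, vv_zero] at *
  refine (red_Pu h.fit h.g3 hM s).trans (le_addU ?_ (h.sum hy rfl vv_NN.ge vv_NN.ge s))
  rw [h.w0]
  exact AL.sum (f := fun x => sN a b true NN x s)
    (fun n x c => h.sum (S := M.spP false n true) c rfl vv_NN.ge vv_NN.ge s) hl hc

theorem cC (hM : M.Run N.nm q0 (vv a') (vv c')) (hx : (M.spC 0 o).SB T N q0 NN x) :
    UB (G.FM N z o (fun _ _ _ _ => True) a' c') (sN a b o NN x) := fun s =>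
  (red_C h.fit h.g3 hM o s).trans (h.sum hx rfl vv_NN.ge vv_NN.ge s)

theorem cA (hM : M.Run N.nm q0 (vv a') (vv c')) (hp : pk = true → T.g + τ ≤ 4) {V : Q → ℕ}
    (hV : ∀ q, M.nr q = false → (M.spA2 (ww a b o + 1) o).Link T o (ww a b o + 1) q (V q))
    (hx : (M.sp1 o (ww a b o + 1) false pk V o).SB T N q0 (ww a b o * NN) x) :
    UB (G.FM N z o (G.Alt k z o) a' c') (sN a b o 0 x) := fun s => by
  rw [← h.w0] at hV
  refine (red_A h.fit h.g3 hM (h.pk rfl hp) o hV s).trans ?_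
  rw [h.w0]
  exact h.sum hx rfl zero_le (by rw [vv, vk_nat, ← vv, vv_NN, mul_one]) s

theorem cB (hM : M.Run N.nm q0 (vv a') (vv c')) (hp : pk = true → T.g + τ ≤ 4) {V : Q → ℕ}
    (hV : ∀ q, M.nr q = true →
      (M.spB2 pk (ww a b (!o) + 1) (!o)).Link T (!o) (ww a b (!o) + 1) q (V q))
    (hx : (M.sp1 (!o) (ww a b (!o) + 1) true false V o).SB T N q0 NN x) :
    UB (G.FM N z o (G.Alt k z (!o)) a' c') (sN a b o NN x) := fun s => by
  rw [← h.w0] at hV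
  refine (red_B h.fit h.g3 hM (h.pk rfl hp) o hV s).trans ?_
  rw [h.w0]
  exact h.sum hx rfl vv_NN.ge vv_NN.ge s

theorem cZ {q1 q2 : Q} {n1 n2 : ℕ} (hM : M.RunZ N.nm q1 q2 (vv n1) (vv n2)) (hg : T.g = g)
    {L : List (List (ℕ × ℕ))}
    (hl : AL (fun i l => AL (fun n x => (M.spP pk n true).L2 T i q1 q2 x) (i + 1) l ∧
      g + 3 - ww a b false ≤ i + 1 + l.length) (ww a b true + 1) L)
    (hc : g ≤ 5 ∧ (pk = true → g + τ ≤ 4) ∧ 4 ≤ ww a b true + 1 + L.length) :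
    G.sFzz k N.nm z ≤ vv (L.map fun l => (l.map (l2N n1 n2)).sum).sum := by
  have e := h.fit.g.symm.trans hg
  refine (red_Z h.fit h.g3 hM (e ▸ hc.1) (h.pk hg hc.2.1)).trans ?_
  rw [h.w0, h.w0, e]
  exact AL.sum (fun i l c => AL.sum (fun n x d => d.le) c.1 c.2) hl hc.2.2

theorem cZu {q1 q2 : Q} {n1 n2 : ℕ} (hM : M.RunZ N.nm q1 q2 (vv n1) (vv n2))
    {L : List (List (ℕ × ℕ) × ℕ × ℕ)}
    (hl : AL (fun i l => AL (fun n x => (M.spP false n true).L2 T i q1 q2 x) (i + 1) l.1 ∧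
      (M.spC 6 true).L2 T i q1 q2 l.2 ∧ 6 ≤ i + 1 + l.1.length) (ww a b true + 1) L)
    (hc : 4 ≤ ww a b true + 1 + L.length) :
    G.sFzz k N.nm z ≤ vv (L.map fun l => (l.1.map (l2N n1 n2)).sum + l2N n1 n2 l.2).sum := by
  refine (red_Zu h.fit h.g3 hM).trans ?_
  rw [h.w0]
  exact AL.sum (fun i l c => le_addU (AL.sum (fun n x d => d.le) c.1 c.2.2) c.2.1.le) hl hc

theorem cS {w : NW Q} {u t : Q → ℕ} {c i x1 x2 y1 y2 : ℕ}
    (h1 : (spL w u t true).Starts T q0 NN NN NN x1 x2)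
    (h2 : (spL w u t false).Starts T q0 NN NN NN y1 y2)
    (hc : stpN w q0 q0 N.p N.q = true ∧ N.q ≤ u q0 ∧ NN ≤ t q0 ∧ c ≤ NN ∧ (N.m = false → c ≤ N.q) ∧
      NN * NN ≤ c * i) :
    G.sT N.nm z none (G.fS N.nm z) ≤ vv (mulU i (mulU NN x1 + x2 + (mulU NN y1 + y2))) :=
  div_leU hc.2.2.2.2.2 ((red_S h.fit (stp_of hc.1 le_rfl le_rfl) (vv_mono hc.2.1)
    (one_le_vv hc.2.2.1) (vv_le_one hc.2.2.2.1) fun e => vv_mono (hc.2.2.2.2.1 e)).trans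
      (h.fr2 (S := spL w u t) h1 h2))

theorem cW {w : NW Q} {t : Q → ℕ} {d : ℕ} (h1 : (spW w d t true).SB T N q0 N.q x)
    (h2 : (spW w d t false).SB T N q0 N.q y)
    (hc : stpN w q0 q0 N.p N.q = true ∧ N.q ≤ d ∧ N.p ≤ t q0) :
    UB (G.Wf N z) (sN2 a b N.q x y) := fun s =>
  (red_W h.fit (stp_of hc.1 le_rfl le_rfl) (vv_mono hc.2.1) (vv_mono hc.2.2) s).trans
    (h.sum2 (S := spW w d t) h1 h2 (fun _ => rfl) le_rfl le_rfl s)

omit [Fintype Q] h in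
theorem cK {W : OB → ℕ} {κ : ℕ} (hW : UB (G.Wf N z) W) (hc : cond N.m NN (N.p + W none) ≤ κ) :
    G.kap N.nm z ≤ vv κ := by
  obtain ⟨m, _⟩ := N
  cases m
  · exact (if_neg Bool.false_ne_true).trans_le ((le_addU le_rfl (hW none)).trans (vv_mono hc))
  · exact (if_pos rfl).trans_le (one_le_vv hc)

omit [Fintype Q]

theorem cGb {w : NW (Fin 3)} {d t n : ℕ}
    (h1 : (spG w d (fun _ => t) fun q => decide (q = 1)).Link T true 4 2 n)
    (hc : N.m = false ∧ stpN w 2 2 N.p N.q = true ∧ stpN w 2 1 (mulU N.p N.q) N.q = true ∧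
      stpN w 1 0 N.p N.q = true ∧ stpN w 0 0 N.p N.q = true ∧ N.q ≤ d ∧ N.p ≤ t) :
    G.sGam N.nm z + G.sX0 N.nm z ≤ vv n := by
  obtain ⟨c1, c2, c3, c4, c5, c6, c7⟩ := hc
  exact (red_gam_bond h.fit c1 (stp_of c2 le_rfl le_rfl) (stp_of c3 (le_mulU le_rfl le_rfl) le_rfl)
    (stp_of c4 le_rfl le_rfl) (stp_of c5 le_rfl le_rfl) (vv_mono c6) (vv_mono c7)).trans h1.le

theorem cLb {w : NW (Fin 3)} {u t : Fin 3 → ℕ} (h1 : (spL w u t true).SB T N 2 NN x)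
    (h2 : (spL w u t false).SB T N 2 NN y)
    (hc : N.m = false ∧ stpN w 2 1 N.p 0 = true ∧ stpN w 1 1 N.p N.q = true ∧
      stpN w 1 0 (mulU N.p N.q) N.q = true ∧ stpN w 0 0 N.p N.q = true ∧ N.q ≤ u 0 ∧ NN ≤ u 1 ∧
      NN ≤ t 0 ∧ NN ≤ t 1) :
    UB (G.LX N z false) (sN2 a b NN x y) ∧ G.Xf N z ≤ vv (sN2 a b NN x y none) := by
  obtain ⟨c1, c2, c3, c4, c5, c6, c7, c8, c9⟩ := hc
  have key := fun f s => (red_LX_bond (P := N.nm) h.fit c1 (stp_of c2 le_rfl zero_le)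
    (stp_of c3 le_rfl le_rfl) (stp_of c4 (le_mulU le_rfl le_rfl) le_rfl) (stp_of c5 le_rfl le_rfl)
    (vv_mono c6) (one_le_vv c7) (one_le_vv c8) (one_le_vv c9) f s).trans
      (h.sum2 (S := spL w u t) h1 h2 (fun _ => rfl) vv_NN.ge vv_NN.ge s)
  exact ⟨key false, (add_le_add (mul_le_of_le_one_left' (ind_le_one _)) le_rfl).trans (key true none)⟩

theorem cSWb {w : NW Q} [Fintype Q] {t pw : Q → ℕ} {i : ℕ}
    (h1 : (spS w (6 - τ) NN t true pw true).SB T N q0 NN x)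
    (h2 : (spS w (6 - τ) NN t true pw false).SB T N q0 NN y)
    (hc : N.m = false ∧ stpN w q0 q0 N.p N.q = true ∧ N.q ≤ NN ∧ NN ≤ t q0 ∧
      NN * NN * NN ≤ N.p * N.q * pw q0 ∧ NN * NN ≤ N.q * i) :
    UB (G.SWf k N z) fun s => eo s (mulU i (sN2 a b NN x y s)) (sN2 a b NN x y s) := by
  obtain ⟨c1, c2, c3, c4, c5, c6⟩ := hc
  have e : Grid.dS N.nm = 1 := if_neg (by simp [NB.nm, c1])
  have key := fun s => red_SW_bond (P := N.nm) (pw := pw) h.fit h.h7 c1 (stp_of c2 le_rfl le_rfl)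
    (vv_le_one c3) (one_le_vv c4) (by
      have := vk_mono 3 c5
      rwa [vk_NN, vk_NN, ← vv, vv_NN, ← vk_mul 2 1, ← vv_mul] at this) s
  have k2 := h.sum2 (S := spS w (6 - τ) NN t true pw) h1 h2 (fun _ => rfl) vv_NN.ge vv_NN.ge
  rw [h.tau] at key
  refine fun s => le_eo ?_ ?_
  · rintro rfl
    refine div_leU c6 (le_trans ?_ ((key none).2.trans (k2 none)))
    rw [Grid.SWf, e, one_mul, one_mul, mul_add]
    exact add_le_add le_rfl (mul_le_of_le_one_left' (vv_le_one c3))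
  · rintro s rfl
    rw [Grid.SWf, e, one_mul, one_mul]
    exact (key s).1.trans (k2 s)

theorem cGs {w : NW (Fin 5)} {d n : ℕ} {t : Fin 5 → ℕ}
    (h1 : (spG w d t fun q => decide (q = 1 ∨ q = 2)).Link T true 4 4 n)
    (hc : N.m = true ∧ N.q = 0 ∧ stpN w 4 3 N.p 0 = true ∧ stpN w 4 2 N.p 0 = true ∧
      stpN w 3 3 N.p 0 = true ∧ stpN w 3 1 N.p 0 = true ∧ stpN w 2 0 NN NN = true ∧
      stpN w 1 0 NN 0 = true ∧ stpN w 0 0 N.p 0 = true ∧ N.p ≤ t 0 ∧ NN ≤ t 1 ∧ NN ≤ t 2) :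
    G.sGam N.nm z + G.sX0 N.nm z ≤ vv n := by
  obtain ⟨c1, c2, c3, c4, c5, c6, c7, c8, c9, d1, d2, d3⟩ := hc
  exact (red_gam_site (P := N.nm) h.fit c1 ((congrArg vv c2).trans vv_zero)
    (stp_of c3 le_rfl zero_le) (stp_of c4 le_rfl zero_le) (stp_of c5 le_rfl zero_le)
    (stp_of c6 le_rfl zero_le) (stp_of c7 vv_NN.ge vv_NN.ge) (stp_of c8 vv_NN.ge zero_le)
    (stp_of c9 le_rfl zero_le) (vv_mono d1) (one_le_vv d2) (one_le_vv d3)).trans h1.le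

theorem cLs {w : NW (Fin 4)} {u t : Fin 4 → ℕ} (h1 : (spL w u t true).SB T N 3 NN x)
    (h2 : (spL w u t false).SB T N 3 NN y)
    (hc : N.m = true ∧ N.q = 0 ∧ stpN w 3 3 N.p 0 = true ∧ stpN w 3 2 NN 0 = true ∧
      stpN w 2 1 N.p 0 = true ∧ stpN w 1 1 N.p 0 = true ∧ NN ≤ u 3 ∧ NN ≤ t 1 ∧
      NN * NN ≤ N.p * t 3) : UB (G.LX N z false) (sN2 a b NN x y) := fun s => by
  obtain ⟨c1, c2, c3, c4, c5, c6, c7, c8, c9⟩ := hc
  exact (red_LX_site (P := N.nm) h.fit c1 ((congrArg vv c2).trans vv_zero)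
    (stp_of c3 le_rfl zero_le) (stp_of c4 vv_NN.ge zero_le) (stp_of c5 le_rfl zero_le)
    (stp_of c6 le_rfl zero_le) (one_le_vv c7) (one_le_vv c8) (one_le_vmul c9) s).trans
      (h.sum2 (S := spL w u t) h1 h2 (fun _ => rfl) vv_NN.ge vv_NN.ge s)

theorem cXs {w : NW (Fin 4)} {u t : Fin 4 → ℕ} {x1 x2 y1 y2 : ℕ}
    (h1 : (spL w u t true).Starts T 3 NN NN NN x1 x2)
    (h2 : (spL w u t false).Starts T 3 NN NN NN y1 y2)
    (hc : N.m = true ∧ N.q = 0 ∧ stpN w 3 3 N.p 0 = true ∧ stpN w 3 2 NN 0 = true ∧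
      stpN w 2 1 N.p 0 = true ∧ stpN w 1 1 N.p 0 = true ∧ stpN w 2 0 N.p NN = true ∧ NN ≤ u 3 ∧
      NN ≤ t 1 ∧ NN ≤ t 0) : G.Xf N z ≤ vv (mulU NN x1 + x2 + (mulU NN y1 + y2)) := by
  obtain ⟨c1, c2, c3, c4, c5, c6, c7, c8, c9, d1⟩ := hc
  rw [Grid.Xf, ind_of_not (by simp [NB.nm, c1]), zero_mul, zero_add]
  exact (red_Xt_site (P := N.nm) h.fit c1 ((congrArg vv c2).trans vv_zero)
    (stp_of c3 le_rfl zero_le) (stp_of c4 vv_NN.ge zero_le) (stp_of c5 le_rfl zero_le)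
    (stp_of c6 le_rfl zero_le) (stp_of c7 le_rfl vv_NN.ge) (one_le_vv c8) (one_le_vv c9)
    (one_le_vv d1)).trans (h.fr2 (S := spL w u t) h1 h2)

/-- `x`, `y`: charged starts with `c0 = 0`, free starts with `c0 = NN` -/
theorem cSWs {w : NW Q} [Fintype Q] {t t' pw pw' : Q → ℕ} {d m : ℕ} {ab : Bool} {x' y' : N3}
    (h1 : (spS w (6 - τ) d t ab pw true).Starts T q0 0 N.iv N.il x.1 x.2.1 ∧
      (spS w (6 - τ) d t ab pw true).Starts T q0 NN NN NN x.1 x.2.2)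
    (h2 : (spS w (6 - τ) d t ab pw false).Starts T q0 0 N.iv N.il y.1 y.2.1 ∧
      (spS w (6 - τ) d t ab pw false).Starts T q0 NN NN NN y.1 y.2.2)
    (h3 : (spS w m NN t' true pw' true).SB T N q0 NN x')
    (h4 : (spS w m NN t' true pw' false).SB T N q0 NN y')
    (hc : N.m = true ∧ N.q = 0 ∧ stpN w q0 q0 N.p 0 = true ∧ NN ≤ t q0 ∧ NN * NN ≤ N.p * pw' q0) :
    UB (G.SWf k N z) fun s => eo s (2 * sN2 a b NN x y s) (sN2 a b 0 x y s) +
      2 * sN2 a b NN x' y' s := by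
  obtain ⟨c1, c2, c3, c4, c5⟩ := hc
  have e : Grid.dS N.nm = 2 := if_pos c1
  have e2 : ∀ {u : ℝ≥0∞} {n : ℕ}, u ≤ vv n → 2 * u ≤ vv (2 * n) := fun c => by
    rw [two_mul, two_mul]; exact le_addU c c
  have hq : N.nm.q = 0 := (congrArg vv c2).trans vv_zero
  have key := red_SZ_site (d := d) (pw := pw) (ab := ab) h.fit h.h7 c1 hq
    (stp_of c3 le_rfl zero_le) (one_le_vv c4)
  rw [h.tau] at key
  intro s
  refine le_addU (le_eo ?_ ?_) (e ▸ e2 ((red_WW_site h.fit c1 hq (stp_of c3 le_rfl zero_le)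
    (one_le_vmul c5) s).trans (h.sum2 (S := spS w m NN t' true pw') h3 h4 (fun _ => rfl)
      vv_NN.ge vv_NN.ge s)))
  · rintro rfl
    exact e ▸ e2 ((key none).2.trans (h.fr2 (S := spS w (6 - τ) d t ab pw) h1.2 h2.2))
  · rintro s rfl
    exact (key s).1.trans ((Fintype.sum_bool _).trans_le (le_addU
      (h.cg h1.1 rfl zero_le zero_le s) (h.cg h2.1 rfl zero_le zero_le s)))

end Cx

end Pool.Agent.P.MP_e4ac67_pr.Gr
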