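import Pool.Agent.P.MP_e4ac67_pr.G.Asm

/-! The marked arcs, and the final inequalities. -/

open scoped ENNReal
open Finset

namespace Pool.Agent.P.MP_e4ac67_pr.Gr
namespace Grid
variable (G : Grid) (k : ℕ) (N : NB) (z : Pt) (o : Bool)

abbrev Cl := Pt → List Pt → Pt → ℕ → Prop

noncomputable def FM (C : Cl) (a c : ℕ) (s : OB) : ℝ≥0∞ :=
  G.sT N.nm z s (G.fM N.nm o C (vv a) (vv c) z)

noncomputable def Zf (κ : ℝ≥0∞) (s : OB) : ℝ≥0∞ := G.sT N.nm z s fun b I =>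
  cond o (G.fF k N.nm κ z b I z) (G.fF k N.nm κ z z I.reverse b)

noncomputable def Zk (s : OB) : ℝ≥0∞ := G.Zf k N z o (s.elim 1 fun _ => G.kap N.nm z) s

noncomputable def Uf (s : OB) : ℝ≥0∞ :=
  G.sT N.nm z s (cond o (G.fF4L k N.nm z) (G.fF4R k N.nm z))

/-- the marked arcs with the tube end on the side `o` -/
noncomputable def Sf (s : OB) : ℝ≥0∞ :=
  s.elim 1 (fun _ => oe N.nm z (G.cv z)) * G.Zk k N z o s +
    s.elim (cond o 1 0) (fun _ => 1) * G.Uf k N z o s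

noncomputable def SWf (s : OB) : ℝ≥0∞ :=
  s.elim (dS N.nm * G.sT N.nm z s (G.fZW N.nm z)) (fun _ => G.sT N.nm z s (G.fSz k N.nm z)) +
    dS N.nm * G.sT N.nm z s (G.fWW N.nm z)

noncomputable def LX (f : Bool) (s : OB) : ℝ≥0∞ :=
  G.sT N.nm z s (G.fL N.nm z) + G.sT N.nm z s (G.fX N.nm f z)

noncomputable def Wf (s : OB) : ℝ≥0∞ := G.sT N.nm z s (G.fW N.nm z)

noncomputable def Xf : ℝ≥0∞ :=
  ind (N.nm.m = false) * G.sT N.nm z none (G.fL N.nm z) + G.sT N.nm z none (G.fX N.nm true z)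

variable {G k N z o}

theorem sT_mul {P : Nm} {s : OB} {F : Pt → List Pt → ℝ≥0∞} (c : ℝ≥0∞) :
    G.sT P z s (fun b I => c * F b I) = c * G.sT P z s F := by
  simp only [sT, ← ENNReal.tsum_mul_left, mul_left_comm c]

theorem fM_scale {C : Cl} {a c r : ℝ≥0∞} {a' c' : ℕ} {s : OB} (h1 : a ≤ r * vv a')
    (h2 : c ≤ r * vv c') : G.sT N.nm z s (G.fM N.nm o C a c z) ≤ r * G.FM N z o C a' c' s := by
  rw [FM, ← sT_mul]
  refine sT_mono fun b I _ => ?_
  rw [fM, fM, mul_add, ← mul_assoc, ← mul_assoc]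
  exact add_le_add (mul_le_mul_left h1 _) (mul_le_mul_left h2 _)

theorem fM_le1 {C : Cl} {a c : ℝ≥0∞} {a' c' : ℕ} {s : OB} (h1 : a ≤ vv a')
    (h2 : c ≤ vv c') : G.sT N.nm z s (G.fM N.nm o C a c z) ≤ G.FM N z o C a' c' s :=
  (fM_scale (r := 1) (by rwa [one_mul]) (by rwa [one_mul])).trans_eq (one_mul _)

theorem split (κ a c : ℝ≥0∞) (s : OB) : a * G.Zf k N z o κ s + c * G.Uf k N z o s ≤
    G.sT N.nm z s (G.fM N.nm o (G.Pk k z) a c z) +
      G.sT N.nm z s (G.fM N.nm o (G.Alt k z o) (a * κ) c z) +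
        G.sT N.nm z s (G.fM N.nm o (G.Alt k z (!o)) 0 c z) := by
  rw [Zf, Uf, ← sT_mul, ← sT_mul, ← sT_add, ← sT_add, ← sT_add]
  refine sT_mono fun b I _ => ?_
  have z1 : G.fC N.nm (G.Alt k z false) z b I z = 0 := ENNReal.tsum_eq_zero.2 fun x => by
    rw [ind_of_not fun e => e.2.1.1 rfl, zero_mul]
  have z2 : G.fC N.nm (G.Alt k z true) z z I.reverse b = 0 := ENNReal.tsum_eq_zero.2 fun x => by
    rw [ind_of_not fun e => e.2.1.1 rfl, zero_mul]
  have f := fun κ b I e => (fF_split (G := G) (k := k) (P := N.nm) (z := z) κ b I e).1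
  simp only [fM, zero_mul, zero_add]
  rw [add_add_add_comm, add_assoc (_ + _), ← mul_add c, ← mul_add c, mul_assoc a, ← mul_add a,
    ← ENNReal.tsum_add, ← ENNReal.tsum_add]
  cases o <;> simp only [cond_true, cond_false, fF4L, fF4R, Bool.not_true, Bool.not_false] <;>
    refine add_le_add (mul_le_mul_right ((f ..).trans_eq ?_) _)
      (mul_le_mul_right (ENNReal.tsum_le_tsum fun e =>
        (mul_le_mul_right (mul_le_mul_right (f ..) _) _).trans_eq (by ring)) _)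
  · rw [z2, zero_add]
  · rw [z1, add_zero]

theorem crude {κ : ℝ≥0∞} (h : κ ≤ 1) (a c : ℝ≥0∞) (s : OB) :
    a * G.Zf k N z o κ s + c * G.Uf k N z o s ≤
      G.sT N.nm z s (G.fM N.nm o (fun _ _ _ _ => True) a c z) := by
  rw [Zf, Uf, ← sT_mul, ← sT_mul, ← sT_add]
  refine sT_mono fun b I _ => ?_
  have f := fun κ h b I e => (fF_split (G := G) (k := k) (P := N.nm) (z := z) κ b I e).2 h
  cases o <;> exact add_le_add (mul_le_mul_right (f _ h ..) _) (mul_le_mul_right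
    (ENNReal.tsum_le_tsum fun e => mul_le_mul_right (mul_le_mul_right (f _ le_rfl ..) _) _) _)

theorem fM_zero {P : Nm} {C : Cl} {s : OB} : G.sT P z s (G.fM P o C 0 0 z) = 0 := by
  simp [sT, fM]

theorem oe_le (h : N.p ≤ NN) {b e : Pt} : oe N.nm b e ≤ 1 := by
  unfold oe; split_ifs; exacts [vv_le_one h, le_rfl]

variable {κ ik : ℕ} {x y w : OB → ℕ}

/-- pockets, alternatives on the near side and on the far side -/
theorem sf_PAB (hm : N.p ≤ NN) (hκ : G.kap N.nm z ≤ vv κ) (hi : NN * NN ≤ κ * ik ∧ NN ≤ ik)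
    (h1 : UB (G.FM N z o (G.Pk k z) NN NN) x) (h2 : UB (G.FM N z o (G.Alt k z o) κ NN) y)
    (h3 : UB (G.FM N z o (G.Alt k z (!o)) 0 NN) w) : UB (G.Sf k N z o) fun s =>
      x s + eo s (mulU ik (y s)) (y s) + eo s (cond o (w s) 0) (w s) := by
  intro s
  rw [Sf, Zk]
  refine (split _ _ _ s).trans (le_addU (le_addU ((fM_le1 ?_ ?_).trans (h1 s)) ?_) ?_)
  · cases s
    exacts [vv_NN.ge, (oe_le hm).trans vv_NN.ge]
  · cases s <;> cases o <;> simp [vv_NN]
  · refine le_eo ?_ ?_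
    · rintro rfl
      refine (fM_scale (r := vv ik) ?_ ?_).trans (le_mulU le_rfl (h2 _))
      · simpa [mul_comm] using one_le_vmul hi.1
      · cases o <;> simp [vv_NN, one_le_vv hi.2]
    · rintro t rfl
      exact (fM_le1 ((mul_le_of_le_one_left' (oe_le hm)).trans hκ) vv_NN.ge).trans (h2 _)
  · cases s
    · cases o
      · exact fM_zero.trans_le zero_le
      · exact (fM_le1 zero_le vv_NN.ge).trans (h3 _)
    · exact (fM_le1 zero_le vv_NN.ge).trans (h3 _)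

theorem kle (hκ : G.kap N.nm z ≤ vv κ) (h : κ ≤ NN) (s : OB) :
    (s.elim 1 fun _ => G.kap N.nm z) ≤ 1 := by
  cases s
  exacts [le_rfl, hκ.trans (vv_le_one h)]

/-- all marked arcs -/
theorem sf_C (hm : N.p ≤ NN) (hκ : G.kap N.nm z ≤ vv κ) (hi : κ ≤ NN)
    (h1 : UB (G.FM N z o (fun _ _ _ _ => True) NN NN) x) : UB (G.Sf k N z o) x := fun s =>
  (crude (kle hκ hi s) ..).trans ((fM_le1 (by cases s <;> simp [vv_NN, oe_le hm])
    (by cases s <;> cases o <;> simp [vv_NN])).trans (h1 s))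

theorem sf_ZU (hz : G.cv z ≠ z) (h1 : UB (G.Zk k N z o) x) (h2 : UB (G.Uf k N z o) y) :
    UB (G.Sf k N z o) fun s => eo s (x s) (mulU (cond N.m N.p NN) (x s)) +
      eo s (cond o (y s) 0) (y s) := fun s => by
  have e : oe N.nm z (G.cv z) ≤ vv (cond N.m N.p NN) := by
    obtain ⟨m, _⟩ := N
    cases m <;> simp [oe, NB.nm, hz, vv_NN]
  refine le_addU (le_eo ?_ ?_) ?_
  · rintro rfl; exact (one_mul _).trans_le (h1 _)
  · rintro t rfl; exact le_mulU e (h1 _)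
  cases s
  · cases o
    exacts [(zero_mul _).trans_le zero_le, (one_mul _).trans_le (h2 _)]
  · exact (one_mul _).trans_le (h2 _)

theorem zk_PA (hκ : G.kap N.nm z ≤ vv κ) (hi : NN * NN ≤ κ * ik)
    (h1 : UB (G.FM N z o (G.Pk k z) NN 0) x) (h2 : UB (G.FM N z o (G.Alt k z o) κ 0) y) :
    UB (G.Zk k N z o) fun s => x s + eo s (mulU ik (y s)) (y s) := fun s => by
  have := split (G := G) (k := k) (N := N) (z := z) (o := o) (s.elim 1 fun _ => G.kap N.nm z) 1 0 s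
  rw [fM_zero, add_zero, one_mul, zero_mul, add_zero, one_mul] at this
  refine this.trans (le_addU ((fM_le1 vv_NN.ge zero_le).trans (h1 _)) ?_)
  refine le_eo ?_ ?_
  · rintro rfl
    exact (fM_scale (r := vv ik) (by simpa [mul_comm] using one_le_vmul hi) zero_le).trans
      (le_mulU le_rfl (h2 _))
  · rintro t rfl
    exact (fM_le1 hκ zero_le).trans (h2 _)

theorem zk_C (hκ : G.kap N.nm z ≤ vv κ) (hi : κ ≤ NN)
    (h1 : UB (G.FM N z o (fun _ _ _ _ => True) NN 0) x) : UB (G.Zk k N z o) x := fun s => by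
  have := crude (G := G) (k := k) (N := N) (z := z) (o := o) (kle hκ hi s) 1 0 s
  rw [one_mul, zero_mul, add_zero] at this
  exact this.trans ((fM_le1 vv_NN.ge zero_le).trans (h1 _))

theorem uf_C (h1 : UB (G.FM N z o (fun _ _ _ _ => True) 0 NN) x) : UB (G.Uf k N z o) x := fun s => by
  have := crude (G := G) (k := k) (N := N) (z := z) (o := o) le_rfl 0 1 s
  rw [one_mul, zero_mul, zero_add] at this
  exact this.trans ((fM_le1 zero_le vv_NN.ge).trans (h1 _))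

theorem uf_PAB (h1 : UB (G.FM N z o (G.Pk k z) 0 NN) x) (h2 : UB (G.FM N z o (G.Alt k z o) 0 NN) y)
    (h3 : UB (G.FM N z o (G.Alt k z (!o)) 0 NN) w) :
    UB (G.Uf k N z o) fun s => x s + y s + w s := fun s => by
  have := split (G := G) (k := k) (N := N) (z := z) (o := o) 0 0 1 s
  rw [one_mul, zero_mul, zero_add, zero_mul] at this
  exact this.trans (le_addU (le_addU ((fM_le1 zero_le vv_NN.ge).trans (h1 _))
    ((fM_le1 zero_le vv_NN.ge).trans (h2 _))) ((fM_le1 zero_le vv_NN.ge).trans (h3 _)))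

/-- the condition of `Tab` at `z` -/
def At (G : Grid) (k : ℕ) (N : NB) (t g1 g2 θ : ℕ) (z : Pt) : Prop :=
  ∃ K, G.free k N.nm z + K ≤ vv θ ∧
    G.chg k N.nm z false + vv t * G.chg k N.nm z true ≤ K * vv g1 ∧
    G.chg k N.nm z true + vv t * G.chg k N.nm z false ≤ K * vv g1 ∧
    G.chg k N.nm z false + G.chg k N.nm z true ≤ K * vv g2

def fin3 (t g1 g2 θ fr c0 c1 : ℕ) : Bool :=
  Nat.ble fr θ && Nat.ble (c0 * NN + t * c1) ((θ - fr) * g1) &&
    Nat.ble (c1 * NN + t * c0) ((θ - fr) * g1) && Nat.ble ((c0 + c1) * NN) ((θ - fr) * g2)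

def chN (N : NB) (zc : ℕ) (L W Z F1 F2 : OB → ℕ) (s : Bool) : ℕ :=
  mulU N.sp (L s) + Z s + (F1 s + F2 s) + mulU zc (W s)

def fin2 (N : NB) (t g1 g2 θ g S X zc : ℕ) (L W Z F1 F2 : OB → ℕ) : Bool :=
  fin3 t g1 g2 θ (g + S + zc + mulU (N.p + N.p + W none) X) (chN N zc L W Z F1 F2 false)
    (chN N zc L W Z F1 F2 true)

def finN (N : NB) (t g1 g2 θ g S X zz : ℕ) (L W Z F1 F2 : OB → ℕ) : Bool :=
  fin2 N t g1 g2 θ g S X (zz + (F1 none + F2 none) + Z none) L W Z F1 F2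

theorem at_of {t g1 g2 θ g S X zz : ℕ} {L W Z F1 F2 : OB → ℕ}
    (hG : G.sGam N.nm z + G.sX0 N.nm z ≤ vv g) (hS : G.sT N.nm z none (G.fS N.nm z) ≤ vv S)
    (hX : G.Xf N z ≤ vv X) (hzz : G.sFzz k N.nm z ≤ vv zz) (hL : UB (G.LX N z false) L)
    (hW : UB (G.Wf N z) W) (hZ : UB (G.SWf k N z) Z) (h1 : UB (G.Sf k N z true) F1)
    (h2 : UB (G.Sf k N z false) F2) (h : finN N t g1 g2 θ g S X zz L W Z F1 F2 = true) :
    G.At k N t g1 g2 θ z := by
  have e : ∀ κ s, G.sT N.nm z s (G.fFz k N.nm κ z) =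
      G.Zf k N z true κ s + G.Zf k N z false κ s := fun κ s => sT_add
  have a1 : G.zc k N.nm z ≤ vv (zz + (F1 none + F2 none) + Z none) :=
    le_trans (le_of_eq (by
      simp only [zc, e, Sf, Zk, Uf, SWf, Option.elim, cond_true, cond_false]; ring))
      (le_addU (le_addU hzz (le_addU (h1 none) (h2 none))) (hZ none))
  rw [finN] at h
  generalize zz + (F1 none + F2 none) + Z none = n at h a1
  have a2 : G.free k N.nm z ≤ vv (g + S + n + mulU (N.p + N.p + W none) X) :=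
    le_addU (le_addU (le_addU hG hS) a1) (le_mulU
      (le_addU ((two_mul _).trans_le (le_addU le_rfl le_rfl)) (hW none)) hX)
  have a3 : ∀ s : Bool, G.chg k N.nm z s ≤ vv (chN N n L W Z F1 F2 s) := fun s =>
    le_trans (le_of_eq (by
      simp only [chg, e, Sf, Zk, Uf, SWf, LX, Wf, Option.elim, cond_true, cond_false]; ring))
      (le_addU (le_addU (le_addU (le_mulU (le_refl N.nm.sp) (hL s)) (hZ s)) (le_addU (h1 s) (h2 s)))
        (le_mulU a1 (hW s)))
  simp only [fin2, fin3, Bool.and_eq_true, Nat.ble_eq] at h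
  obtain ⟨⟨⟨b1, b2⟩, b3⟩, b4⟩ := h
  have key : ∀ {x y : ℝ≥0∞} {c d u v : ℕ}, x ≤ vv c → y ≤ vv d → c * NN + t * d ≤ u * v →
      x + vv t * y ≤ vv u * vv v := fun h1 h2 h3 => by
    refine (add_le_add h1 (mul_le_mul_right h2 _)).trans ?_
    rw [vv_mul, vv_mul, vv, ← vk_NN 1, vk_add]
    exact vk_mono _ h3
  exact ⟨vv (θ - _), (le_addU a2 le_rfl).trans_eq (congrArg vv (by omega)), key (a3 _) (a3 _) b2,
    key (a3 _) (a3 _) b3, (le_addU (a3 _) (a3 _)).trans (le_vmul b4)⟩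

end Grid
end Pool.Agent.P.MP_e4ac67_pr.Gr
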