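import Pool.Agent.P.MP_e4ac67_pr.G.AsmB

/-! The site package with pockets for the arcs to the centre and for the arcs to the tube. -/

open scoped ENNReal

namespace Pool.Agent.P.MP_e4ac67_pr.Gr

variable {G : Grid}

/-- alternatives on the far side (site) -/
def MK.HS (T : Tube G) (N : NB) (a b : ℕ) (M : MK (Fin 4)) (pk o : Bool) (V : Fin 4 → ℕ)
    (x : N3) : Prop :=
  (M.spB2 pk (ww a b (!o) + 1) (!o)).Link T (!o) (ww a b (!o) + 1) 2 (V 2) ∧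
  (M.spB2 pk (ww a b (!o) + 1) (!o)).Link T (!o) (ww a b (!o) + 1) 3 (V 3) ∧
  (M.sp1 (!o) (ww a b (!o) + 1) true false V o).SB T N 3 NN x

theorem Cx.bs {T : Tube G} {N : NB} {k τ a b a' c' : ℕ} {z : Pt} (h : Cx k z T τ a b)
    {pk o : Bool} {x : N3} {M : MK (Fin 4)} {V : Fin 4 → ℕ} (hM : M.siteN N false a' c' = true)
    (hp : pk = true → T.g + τ ≤ 4) (H : M.HS T N a b pk o V x) :
    UB (G.FM N z o (G.Alt k z (!o)) a' c') (sN a b o NN x) :=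
  h.cB (MK.site_of hM).run hp (fun q e => by
    rw [(MK.site_of hM).nr] at e
    fin_cases q
    exacts [absurd e (by decide), absurd e (by decide), H.1, H.2.1]) H.2.2

def ufP (a b : ℕ) (o : Bool) (l : List N3) (x y : N3) (s : OB) : ℕ :=
  lN a b o l s + sN a b o 0 x s + sN a b o NN y s

variable {F : NF} {τ a b g : ℕ} {pk : Bool}

theorem siteP {D : PS} {X : XS} {M Mc Mz : MK (Fin 4)} {l1 l2 m1 m2 : List N3}
    {V1 V2 W1 W2 U1 U2 : Fin 4 → ℕ} {x1 x2 u1 u2 y1 y2 : N3} {L : List (List (ℕ × ℕ))}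
    (H : ∀ (G : Grid) (T : Tube G), T.Cs a b g true → D.H T F.N τ X ∧
      M.HP T F.N a b 3 pk true l1 ∧ M.HP T F.N a b 3 pk false l2 ∧
      M.HA T F.N a b 3 0 1 pk true V1 x1 ∧ M.HA T F.N a b 3 0 1 pk false V2 x2 ∧
      Mc.HP T F.N a b 3 pk true m1 ∧ Mc.HP T F.N a b 3 pk false m2 ∧
      Mc.HA T F.N a b 3 0 1 pk true W1 u1 ∧ Mc.HA T F.N a b 3 0 1 pk false W2 u2 ∧
      Mc.HS T F.N a b pk true U1 y1 ∧ Mc.HS T F.N a b pk false U2 y2 ∧ Mz.HZ T a b 3 2 pk g L)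
    (c : D.fin F a b X (zN F.N.p NN L)
      (sfZ (cond F.N.m F.N.p NN) true (zkF a b true l1 x1) (ufP a b true m1 u1 y1))
      (sfZ (cond F.N.m F.N.p NN) false (zkF a b false l2 x2) (ufP a b false m2 u2 y2)) = true ∧
      M.siteN F.N false NN 0 = true ∧ Mc.siteN F.N false 0 NN = true ∧
      Mz.siteN F.N true NN 0 = true ∧ g ≤ 5 ∧ (pk = true → g + τ ≤ 4) ∧
      g + 4 - ww a b false ≤ ww a b true + 1 + l1.length ∧
      g + 4 - ww a b true ≤ ww a b false + 1 + l2.length ∧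
      g + 4 - ww a b false ≤ ww a b true + 1 + m1.length ∧
      g + 4 - ww a b true ≤ ww a b false + 1 + m2.length ∧ 4 ≤ ww a b true + 1 + L.length) :
    Cs F τ a b g true := fun k G z T h hT => by
  obtain ⟨a1, a2, a3, a4, a5, a6, a7, b1, b2, b3, b4, a8⟩ := H G T hT
  obtain ⟨c1, c2, c3, c4, c8, c9, d1, d2, d4, d5, d3⟩ := c
  have e := hT.2.2.2 rfl
  have p : pk = true → T.g + τ ≤ 4 := e ▸ c9
  exact h.ps a1 c1 fun f2 => ⟨h.cZ (MK.siteZ_of c4) e a8 ⟨c8, c9, d3⟩,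
    Grid.sf_ZU Cx.cv (Grid.zk_PA f2 le_rfl (h.cP (MK.site_of c2).run e a2 ⟨c8, c9, d1⟩)
      (h.as c2 p a4)) (Grid.uf_PAB (h.cP (MK.site_of c3).run e a6 ⟨c8, c9, d4⟩) (h.as c3 p b1)
        (h.bs c3 p b3)),
    Grid.sf_ZU Cx.cv (Grid.zk_PA f2 le_rfl (h.cP (MK.site_of c2).run e a3 ⟨c8, c9, d2⟩)
      (h.as c2 p a5)) (Grid.uf_PAB (h.cP (MK.site_of c3).run e a7 ⟨c8, c9, d5⟩) (h.as c3 p b2)
        (h.bs c3 p b4))⟩

end Pool.Agent.P.MP_e4ac67_pr.Gr
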