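import Pool.Agent.P.MP_e4ac67_pr.G.RedZ
import Pool.Agent.P.MP_e4ac67_pr.V.TubeL

/-! Sums over arcs that start in the tube. -/

open scoped ENNReal

namespace Pool.Agent.P.MP_e4ac67_pr.Gr

theorem Grid.lt1_side {G : Grid} {z x : Pt} {c : ℕ} (hz : 1 ≤ z.1)
    (ha : G.Adj (G.lt1 z) x) (hx : ¬Wz G.Tb z x) (h3 : 3 ≤ c) (h4 : c ≤ G.gap z + 2) :
    G.Rt z c x ↔ G.sL z 0 ≠ 1 := by
  obtain ⟨n, y⟩ := x
  have e1 := G.gap_eq z
  have e2 := G.lp_spec (z.1 - 1) z.2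
  have e3 : (n, y) ≠ G.cn z false 1 := fun e => hx (Or.inr (e ▸ cn_tb false le_rfl hz))
  have e4 : (n, y) ≠ z := fun e => hx (Or.inl e)
  have a1 := fun h => A_lt_iff.1 (show G.A (z.1 - 1) (y - 1) < G.A (z.1 - 1) (G.lp (z.1 - 1) z.2) from h)
  have a2 := fun h => A_lt_iff.1 (show G.A (z.1 - 1) (G.lp (z.1 - 1) z.2 - 1) < G.A (z.1 - 1) y from h)
  simp only [Rt, lt1, adj_iff, G.nb_ch z (show 2 ≤ c by omega) h4, cn, an, Prod.ext_iff, ne_eq,
    zero_add, Bool.false_eq_true, if_false] at ha e3 e4 ⊢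
  split_ifs at ha with e <;> simp only [add_sub_cancel_right] at ha <;>
    rcases ha with ⟨rfl, ha⟩ | ⟨rfl, ha⟩ | ⟨g, ha⟩
  any_goals obtain rfl : n = z.1 - 1 := by omega
  all_goals simp [e, an, lr, show z.1 - (z.1 - 1) = 1 by omega]; omega

namespace Grid
variable {G : Grid} {z : Pt} {P : Nm} {s : Option Bool} {F F' : Pt → List Pt → ℝ≥0∞}

theorem sT_mono (h : ∀ b I, G.Tb z b → F b I ≤ F' b I) : G.sT P z s F ≤ G.sT P z s F' :=
  ENNReal.tsum_le_tsum fun x => ind_mul_le fun a => by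
    rw [ind_of a, one_mul]; exact mul_le_mul_right (h _ _ a) _

theorem sT_add : G.sT P z s (fun b I => F b I + F' b I) = G.sT P z s F + G.sT P z s F' := by
  simp only [sT, mul_add, ENNReal.tsum_add]

theorem sT_sum {ι : Type} (A : Finset ι) (F : ι → Pt → List Pt → ℝ≥0∞) :
    G.sT P z s (fun b I => ∑ i ∈ A, F i b I) = ∑ i ∈ A, G.sT P z s (F i) := by
  simp only [sT, Finset.mul_sum]
  exact Summable.tsum_finsetSum fun _ _ => ENNReal.summable

/-- splitting by the side of the first inner vertex (`true`: left) -/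
theorem sT_side : G.sT P z s F ≤ ∑ o : Bool,
    G.sT P z s fun b I => ind (G.Rt z 4 (I.headD z) ↔ o = false) * F b I := by
  rw [← sT_sum]
  refine sT_mono fun b I _ => ?_
  generalize G.Rt z 4 (I.headD z) = A
  by_cases e : A <;> simp [e, ind]

end Grid

end Pool.Agent.P.MP_e4ac67_pr.Gr
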