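import Pool.Agent.P.MP_e4ac67_pr.G.FitZ

/-! The arcs from the centre to the bonus vertex, read backwards. -/

open scoped ENNReal
open Finset

namespace Pool.Agent.P.MP_e4ac67_pr.Gr
variable {G : Grid} {z : Pt} {T : Tube G} {P : Nm} {Q : Type} {I : List Pt}

theorem c1_rev (s g : ℕ → ℝ≥0∞) (g0 : g 0 = 1) (g1 : g 1 = 1) (m : ℕ) :
    ∏ i ∈ range (m + 1), s i * g i =
      (∏ j ∈ range m, s (m - j) * (if j = 0 then 1 else g (m + 1 - j))) * s 0 := by
  have e1 : ∏ i ∈ range m, s (i + 1) = ∏ j ∈ range m, s (m - j) := by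
    rw [← prod_range_reflect]
    exact prod_congr rfl fun j hj => by rw [mem_range] at hj; congr 1; omega
  have e2 : ∏ i ∈ range (m + 1), g i = ∏ j ∈ range m, (if j = 0 then 1 else g (m + 1 - j)) := by
    cases m with
    | zero => simp [g0]
    | succ m =>
      rw [prod_range_succ', prod_range_succ', g0, zero_add, g1, mul_one, prod_range_succ',
        if_pos rfl, ← prod_range_reflect]
      congr 1
      exact prod_congr rfl fun j hj => by
        rw [mem_range] at hj; rw [if_neg (by omega)]; congr 1; omega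
  rw [prod_mul_distrib, prod_mul_distrib, prod_range_succ', e1, e2]
  ring

/-- the vertices of the reversed arc -/
noncomputable def c1A (G : Grid) (z : Pt) (I : List Pt) (j : ℕ) : Pt :=
  Grid.vx z I (G.cv z) (I.length + 1 - j)

theorem c1_path (hT : Fit z T) (h : G.Arc z z I (G.cv z)) : c1A G z I 0 = Spec.nbr T true 4 ∧
    (∀ i < I.length, G.Adj (c1A G z I i) (c1A G z I (i + 1))) ∧
    (∀ i ≤ I.length, ∀ j ≤ I.length, c1A G z I i = c1A G z I j → i = j) := by
  refine ⟨?_, fun i hi => ?_, fun i hi j hj e => ?_⟩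
  · rw [hT.znbr (by omega) (by have := Fit.zgap (G := G) (z := z); omega)]
    exact Grid.vx_last
  · have := (Grid.vx_adj h.1 (i := I.length - i) (by omega)).symm
    unfold c1A
    rwa [show I.length + 1 - i = I.length - i + 1 by omega,
      show I.length + 1 - (i + 1) = I.length - i by omega]
  · have := Grid.vx_inj h.2.1 h.2.2.1 (by omega) (by omega) (by omega) (by omega) e
    omega

theorem c1_ext {J : List Pt} (h : I.length = J.length)
    (a : ∀ i < I.length, c1A G z I (i + 1) = c1A G z J (i + 1)) : I = J :=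
  Grid.vx_ext (b := z) (b' := z) (e := G.cv z) (e' := G.cv z) h fun i hi => by
    have := a (I.length - (i + 1)) (by omega)
    unfold c1A at this
    rwa [← h, show I.length + 1 - (I.length - (i + 1) + 1) = i + 1 by omega] at this

open Classical in
theorem c1_term (hT : Fit z T) (h : G.Arc z z I (G.cv z)) {w : NW Q} {d : ℕ} {tt : Q → ℕ}
    {xx : Q → Bool} (ρ : ℕ → Q) {eo ee : ℕ → Prop} {c : ℝ≥0∞} {t : ℕ} (ht : t ≤ I.length)
    (he : ∀ i, ee i → 2 ≤ i) (hd : P.q ≤ vv d)
    (hs : ∀ j < I.length, ∃ x y, Stp w (ρ j) (ρ (j + 1)) x y ∧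
      (if I.length - j = t then c else 1) * (if eo (I.length - j) then P.p else 1) ≤ x ∧
      (1 ≤ j → (ee (I.length + 1 - j) → P.q ≤ y) ∧ (¬ee (I.length + 1 - j) → 1 ≤ y)))
    (h0 : (if 0 = t then c else 1) * (if eo 0 then P.p else 1) ≤ vv (tt (ρ I.length)))
    (hx : xx (ρ I.length) = true → ¬(I.head? = some (G.nb z 3) ∨ I.head? = some (G.nb z 5))) :
    c * G.wt P z z I (G.cv z) eo ee (2 ≤ ·) ≤ (spG w d tt xx).prW T I.length (c1A G z I) ρ := by
  have hg := Fit.zgap (G := G) (z := z)
  have off : ∀ j ≤ I.length, ¬Grid.Wz G.Tb z (c1A G z I j) := fun j hj => by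
    rcases Nat.eq_zero_or_pos j with rfl | a
    · rw [c1A, Nat.sub_zero, Grid.vx_last]; exact Fit.zcv
    · exact h.2.2.2.2 _ (Grid.vx_mem (by omega) (by omega))
  have ne : ∀ j, 1 ≤ j → j ≤ I.length → ∀ i, G.nb z i = c1A G z I j → min 8 i ≠ 4 := by
    intro j a b i e e'
    obtain rfl : i = 4 := by omega
    exact h.2.2.1 (by rw [Grid.cv, e]; exact Grid.vx_mem (by omega) (by omega))
  have ec : c = ∏ i ∈ range (I.length + 1), if i = t then c else 1 := by
    rw [prod_ite_eq', if_pos (mem_range.2 (by omega))]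
  rw [ec, Grid.wt, ← prod_mul_distrib]
  simp only [mul_assoc]
  simp only [← mul_assoc (ite (_ = t) _ _)]
  rw [c1_rev (fun i => (if i = t then c else 1) * if eo i then P.p else 1), Spec.prW]
  rotate_left
  · rw [if_neg (by omega), if_neg (by omega), mul_one]
  · rw [if_neg fun a => by have := he 1 a.1; omega, if_neg (by omega), mul_one]
  refine mul_le_mul' (prod_le_prod' fun j hj => ?_) ?_
  · rw [mem_range] at hj
    obtain ⟨x, y, s1, s2, s3⟩ := hs j hj
    rw [hT.zom _ (off j hj.le) (off (j + 1) hj)]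
    have a1 : 1 ≤ vv (T.lk (spG w d tt xx).lf NN (ρ (j + 1)) (c1A G z I (j + 1))) :=
      hT.zlk _ _ _ (off (j + 1) hj) (fun _ => vv_NN.ge) fun i _ _ e _ => by
        simp only [spG]
        rw [cc_neg (by simpa only [Nat.beq_eq] using ne (j + 1) (by omega) hj i e), vv_NN]
    refine le_trans ?_ (mul_le_mul_right (le_mul_of_one_le_right' a1) _)
    rcases Nat.eq_zero_or_pos j with rfl | j0
    · rw [if_pos rfl, if_pos rfl, mul_one]
      refine le_trans ?_ (le_mul_of_one_le_left' (hT.zlk _ _ _ (off 0 hj.le) (fun _ => vv_NN.ge)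
        fun i _ b e _ => ?_))
      · exact s2.trans ((mul_one x).ge.trans
          (s1.sw (fun a => absurd a Grid.ear_none) fun _ => le_rfl))
      · rw [c1A, Nat.sub_zero, Grid.vx_last] at e
        simp only [spG]
        rw [hT.zinj b (by omega) e, cc_pos (by decide), vv_NN]
    · rw [if_neg j0.ne', if_neg j0.ne', ← mul_assoc, mul_comm]
      refine mul_le_mul' (hT.zlk _ _ _ (off j hj.le) (fun a => ?_) fun i _ _ e a => ?_)
        ((mul_le_mul_left s2 _).trans (s1.sw (fun a => ?_) fun a => ?_))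
      · rw [if_neg fun b => a b.2, vv_NN]
      · simp only [spG]
        rw [if_pos ⟨by omega, a⟩, cc_neg (by simpa only [Nat.beq_eq] using ne j j0 hj.le i e)]
        exact hd
      · split_ifs with b
        · exact (s3 j0).1 b.1
        · refine (s3 j0).2 fun b' => b ⟨b', by omega, ?_⟩
          have := (Grid.ear_some.1 a).symm
          unfold c1A at this
          rwa [show I.length + 1 - (j + 1) = I.length + 1 - j - 1 by omega,
            show I.length + 1 - (j - 1) = I.length + 1 - j + 1 by omega] at this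
      · rw [if_neg fun b => a (Grid.ear_some.2 ?_)]
        have := b.2.2.symm
        unfold c1A
        rwa [show I.length + 1 - (j + 1) = I.length + 1 - j - 1 by omega,
          show I.length + 1 - (j - 1) = I.length + 1 - j + 1 by omega]
  · have l0 := List.length_pos_iff.2 h.2.2.2.1
    have e1 : c1A G z I I.length = Grid.vx z I (G.cv z) 1 := by rw [c1A, Nat.add_sub_cancel_left]
    rw [hT.zterm _ (off _ le_rfl)]
    refine h0.trans (hT.zlk _ _ _ (off _ le_rfl)
      (fun a => absurd (e1 ▸ Grid.vx_adj h.1 (Nat.zero_le _)) a) fun i _ _ e _ => ?_)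
    have e2 : I.head? = some (G.nb z i) := by
      rw [e, e1]
      cases I with
      | nil => simp at l0
      | cons => rfl
    simp only [spG]
    rw [cc_neg]
    simp only [Bool.or_eq_true, Bool.and_eq_true, Nat.beq_eq]
    rintro (a | ⟨a, b | b⟩)
    · exact ne _ l0 le_rfl i e a
    · exact hx a (Or.inl (by rw [e2, show i = 3 by omega]))
    · exact hx a (Or.inr (by rw [e2, show i = 5 by omega]))

theorem c1_merge {α : Type} (f : α → ℝ≥0∞) (g : α × ℕ → ℝ≥0∞) (h : ∀ a, g (a, 0) = 0) :
    ∑' a, f a + ∑' x, g x = ∑' x : α × ℕ, if x.2 = 0 then f x.1 else g x := by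
  have e : ∑' a, f a = ∑' x : α × ℕ, if x.2 = 0 then f x.1 else 0 := by
    rw [ENNReal.tsum_prod']
    exact tsum_congr fun a => (tsum_ite_eq 0 fun _ => f a).symm
  rw [e, ← ENNReal.tsum_add]
  refine tsum_congr fun ⟨a, t⟩ => ?_
  split_ifs with c
  · obtain rfl : t = 0 := c
    rw [h, add_zero]
  · rw [zero_add]

theorem red_gam_bond (hT : Fit z T) {w : NW (Fin 3)} (hm : P.m = false) (s22 : Stp w 2 2 P.p P.q)
    (s21 : Stp w 2 1 (P.p * P.q) P.q) (s10 : Stp w 1 0 P.p P.q) (s00 : Stp w 0 0 P.p P.q) {d t : ℕ}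
    (hd : P.q ≤ vv d) (ht : P.p ≤ vv t) : G.sGam P z + G.sX0 P z ≤
    (spG w d (fun _ => t) fun q => decide (q = 1)).paths T 2 none (Spec.nbr T true 4) ∅ := by
  rw [Grid.sGam, Grid.sX0, c1_merge _ _ fun a => by rw [ind_of_not (by simp), zero_mul]]
  have key : ∀ (x : List Pt × ℕ) {A B : Prop} {u v : ℝ≥0∞}, (A → G.Arc z z x.1 (G.cv z)) →
      (B → G.Arc z z x.1 (G.cv z) ∧ x.2 ≤ x.1.length) →
      (if x.2 = 0 then ind A * u else ind B * v) ≠ 0 →
      G.Arc z z x.1 (G.cv z) ∧ x.2 ≤ x.1.length := fun x A B u v a b c => by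
    split_ifs at c with e
    exacts [⟨a (of_ind_mul_ne c), by omega⟩, b (of_ind_mul_ne c)]
  refine (Spec.le_paths _ T _ (fun x => x.1.length) (fun x => c1A G z x.1) (fun x j =>
    if j + x.2 ≤ x.1.length then 2 else if j + x.2 = x.1.length + 1 then 1 else 0) 2 _ 1
    (fun x y hx hy e a => ?_) fun x hx => ?_).trans (one_mul _).le
  · have h1 := (key x (·.2) (fun a => ⟨a.1, a.2.2.1⟩) hx).2
    have h2 := (key y (·.2) (fun a => ⟨a.1, a.2.2.1⟩) hy).2
    refine Prod.ext (c1_ext e fun i hi => (a i hi).1) (by_contra fun c => ?_)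
    have := (a (x.1.length - max x.2 y.2) (by omega)).2
    split_ifs at this <;> first | omega | exact absurd this (by decide)
  obtain ⟨h1, h2⟩ := key x (·.2) (fun a => ⟨a.1, a.2.2.1⟩) hx
  obtain ⟨a1, a2, a3⟩ := c1_path hT h1
  refine ⟨a1, if_pos (by omega), a2, a3, ?_⟩
  obtain ⟨I, m⟩ := x
  simp only at h1 h2 ⊢
  rw [one_mul]
  split_ifs with e
  · subst e
    refine ind_mul_le fun _ => (one_mul _).ge.trans (c1_term hT h1 (t := 0) _ h2 (fun _ => id) hd
      (fun j hj => ⟨P.p, _, ?_, by simp, fun _ => ⟨fun _ => le_rfl, fun a => by omega⟩⟩)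
      (by simpa using ht) (by simp))
    rw [if_pos (by omega), if_pos (by omega)]; exact s22
  · refine ind_mul_le fun b => c1_term hT h1 _ h2 (fun _ a => a.1) hd (fun j hj => ?_)
      (by simpa [hm, Ne.symm e] using ht) fun a c => b.2.2.2 ⟨?_, c⟩
    · have k : 1 ≤ j → (2 ≤ I.length + 1 - j ∧ ¬(P.m = true ∧ I.length + 1 - j = m ∧
          I.length + 1 - j = I.length) → P.q ≤ P.q) ∧ (¬(2 ≤ I.length + 1 - j ∧ ¬(P.m = true ∧
          I.length + 1 - j = m ∧ I.length + 1 - j = I.length)) → 1 ≤ P.q) :=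
        fun _ => ⟨fun _ => le_rfl, fun a => absurd ⟨by omega, by simp [hm]⟩ a⟩
      rcases lt_trichotomy (j + m) I.length with c | c | c
      · exact ⟨_, _, by rw [if_pos (by omega), if_pos (by omega)]; exact s22,
          by simp [hm, show I.length - j ≠ m by omega], k⟩
      · exact ⟨_, _, by rw [if_pos (by omega), if_neg (by omega), if_pos (by omega)]; exact s21,
          by simp [hm, Grid.bk, show I.length - j = m by omega], k⟩
      · refine ⟨P.p, _, ?_, by simp [hm, show I.length - j ≠ m by omega], k⟩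
        rw [if_neg (by omega), if_neg (by omega : ¬j + 1 + m ≤ _),
          if_neg (by omega : ¬j + 1 + m = _)]
        split_ifs
        exacts [s10, s00]
    · split_ifs at a <;> first | omega | exact absurd a (by decide)

theorem red_gam_site (hT : Fit z T) {w : NW (Fin 5)} (hm : P.m = true) (hq : P.q = 0)
    (s43 : Stp w 4 3 P.p 0) (s42 : Stp w 4 2 P.p 0) (s33 : Stp w 3 3 P.p 0) (s31 : Stp w 3 1 P.p 0)
    (s20 : Stp w 2 0 1 1) (s10 : Stp w 1 0 1 0) (s00 : Stp w 0 0 P.p 0) {d : ℕ} {t : Fin 5 → ℕ}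
    (t0 : P.p ≤ vv (t 0)) (t1 : 1 ≤ vv (t 1)) (t2 : 1 ≤ vv (t 2)) : G.sGam P z + G.sX0 P z ≤
    (spG w d t fun q => decide (q = 1 ∨ q = 2)).paths T 4 none (Spec.nbr T true 4) ∅ := by
  rw [Grid.sGam, Grid.sX0, ENNReal.tsum_eq_zero.2 fun a => by
    rw [ind_of_not (by simp [hm]), zero_mul], zero_add]
  refine (Spec.le_paths _ T _ (fun x => x.1.length) (fun x => c1A G z x.1) (fun x j =>
    if j = 0 then 4 else if j + x.2 ≤ x.1.length then 3 else if j + x.2 = x.1.length + 1 then
      (if j = 1 then 2 else 1) else 0) 4 _ 1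
    (fun x y hx hy e a => ?_) fun x hx => ?_).trans (one_mul _).le
  · have h1 := (of_ind_mul_ne hx).2
    have h2 := (of_ind_mul_ne hy).2
    refine Prod.ext (c1_ext e fun i hi => (a i hi).1) (by_contra fun c => ?_)
    have := (a (x.1.length - max x.2 y.2) (by omega)).2
    split_ifs at this <;> first | omega | exact absurd this (by decide)
  obtain ⟨h1, h2, h3, h4⟩ := of_ind_mul_ne hx
  obtain ⟨a1, a2, a3⟩ := c1_path hT h1
  refine ⟨a1, if_pos rfl, a2, a3, ?_⟩
  obtain ⟨I, m⟩ := x
  simp only at h1 h2 h3 h4 ⊢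
  rw [one_mul]
  refine ind_mul_le fun b => c1_term hT h1 _ h3 (fun _ a => a.1) (hq ▸ zero_le) (fun j hj => ?_) ?_
    fun a c => h4 ⟨?_, c⟩
  · have k : ∀ y, (j = 1 → m = I.length → 1 ≤ y) → 1 ≤ j → (2 ≤ I.length + 1 - j ∧ ¬(P.m = true ∧
        I.length + 1 - j = m ∧ I.length + 1 - j = I.length) → P.q ≤ y) ∧
        (¬(2 ≤ I.length + 1 - j ∧ ¬(P.m = true ∧ I.length + 1 - j = m ∧
          I.length + 1 - j = I.length)) → 1 ≤ y) := fun y a _ =>
      ⟨fun _ => hq ▸ zero_le, fun c => by
        by_contra c'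
        exact c ⟨by omega, fun c'' => c' (a (by omega) (by omega))⟩⟩
    rcases (by omega : j + m < I.length ∨ j + m = I.length ∨ j + m = I.length + 1 ∨
      I.length + 1 < j + m) with c | c | c | c
    · refine ⟨P.p, 0, ?_, by simp [show I.length - j ≠ m by omega,
        show I.length - j + 1 ≠ m by omega], k _ (by omega)⟩
      split_ifs <;> first | omega | assumption | contradiction
    · refine ⟨P.p, 0, ?_, by simp [hm, Grid.bk, show I.length - j = m by omega], k _ (by omega)⟩
      split_ifs <;> first | omega | assumption | contradiction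
    · by_cases j1 : j = 1
      · refine ⟨1, 1, ?_, by simp [hm, show I.length - j ≠ m by omega,
          show I.length - j + 1 = m by omega], k _ fun _ _ => le_rfl⟩
        split_ifs <;> first | omega | assumption | contradiction
      · refine ⟨1, 0, ?_, by simp [hm, show I.length - j ≠ m by omega,
          show I.length - j + 1 = m by omega], k _ (by omega)⟩
        split_ifs <;> first | omega | assumption | contradiction
    · refine ⟨P.p, 0, ?_, by simp [show I.length - j ≠ m by omega,
        show I.length - j + 1 ≠ m by omega], k _ (by omega)⟩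
      split_ifs <;> first | omega | assumption | contradiction
  · rw [if_neg (by omega), one_mul]
    simp only [hm, true_imp_iff]
    split_ifs <;> first | omega | assumption
  · split_ifs at a <;> first | omega | exact absurd a (by decide)

end Pool.Agent.P.MP_e4ac67_pr.Gr
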