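import Pool.Agent.P.MP_e4ac67_pr.G.RedZ
import Pool.Agent.P.MP_e4ac67_pr.G.Red

/-! Arcs that start in the tube, read as runs of an automaton with a constant state. -/

open scoped ENNReal

namespace Pool.Agent.P.MP_e4ac67_pr.Gr
namespace C3
open Grid (Wz)
variable {G : Grid} {T : Tube G} {z b e f v : Pt} {Q : Type}

theorem lv (h : Fit z T) : z.1 = T.l + 1 := by rw [h.eq]

theorem g_eq (h : Fit z T) : T.g = G.gap z := by rw [h.eq]; rfl

theorem lk_nb (h : Fit z T) (f : Q → ℕ → ℕ → ℕ) (d : ℕ) (q : Q) {i : ℕ} (h1 : 1 ≤ i)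
    (h2 : i ≤ G.gap z + 3) :
    T.lk f d q (G.nb z i) = f q (min 8 i) (min 8 (G.gap z + 4 - i)) := by
  have g := G.gap_eq z
  have g2 := G.gap2 z.1 z.2
  have e := g_eq h
  rcases Grid.nb_cases (G := G) z i with ⟨a, -⟩ | ⟨a, c⟩ | ⟨a, a', c⟩ | ⟨a, c⟩ | ⟨a, -⟩
  · omega
  · rw [c, a, Tube.lk, e, if_neg (by rw [h.eq]; simp), if_pos (by rw [h.eq])]
    rfl
  · have e1 : T.Ei true (G.nb z i).2 = min 8 i := by
      rw [c, h.eq]; simp only [Tube.Ei, sg, Grid.fst]; omega
    have e2 : T.Ei false (G.nb z i).2 = min 8 (G.gap z + 4 - i) := by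
      rw [c]; rw [h.eq] at g a' ⊢; simp only [Tube.Ei, sg, Grid.fst] at g ⊢; omega
    rw [Tube.lk, if_pos (by rw [c, h.eq]), e1, e2, lkN]
    have : (Nat.ble 2 (min 8 i) && Nat.ble 2 (min 8 (G.gap z + 4 - i))) = true := by
      simp only [Bool.and_eq_true, Nat.ble_eq]; omega
    rw [this, cond_true]
  · rw [c, a, Tube.lk, e, if_neg (by rw [h.eq]; simp), if_neg (by rw [h.eq]; simp; omega),
      if_pos (by rw [h.eq]), show G.gap z + 4 - (G.gap z + 3) = 1 by omega]
    rfl
  · omega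

theorem lk_far (h : Fit z T) (f : Q → ℕ → ℕ → ℕ) (d : ℕ) (q : Q) (hv : ¬G.Adj z v) :
    T.lk f d q v = d := by
  rw [Grid.adj_iff, h.eq] at hv
  unfold Tube.lk
  split_ifs with a b c
  · have : (Nat.ble 2 (T.Ei true v.2) && Nat.ble 2 (T.Ei false v.2)) = false := by
      rw [← Bool.not_eq_true]
      simp only [Bool.and_eq_true, Nat.ble_eq, Tube.Ei, sg, Grid.fst] at hv ⊢
      omega
    rw [lkN, this, cond_false]
  · subst b; simp at hv
  · subst c; simp at hv
  · rfl

/-- a neighbour of `z` off the tube -/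
theorem nb_of (hz : 1 ≤ z.1) (ha : G.Adj z v) (hv : ¬Wz G.Tb z v) :
    1 ≤ G.ps z v ∧ G.ps z v ≤ G.gap z + 3 ∧ G.nb z (G.ps z v) = v := by
  obtain ⟨h1, h2⟩ := Grid.ps_spec hz ha
  have h3 := Grid.an_one (G := G) hz
  have h4 := G.tau_le z
  unfold Grid.dg at h1
  rcases Grid.nb_cases (G := G) z (G.ps z v) with ⟨a, c⟩ | ⟨a, c⟩ | ⟨a, a', c⟩ | ⟨a, c⟩ | ⟨a, c⟩
  · refine absurd (Or.inr (Or.inl ⟨1, le_rfl, ?_, Or.inl ?_⟩)) hv <;> rw [← h2, c] <;> simp <;> omega
  · exact ⟨by omega, by omega, h2⟩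
  · exact ⟨by omega, by omega, h2⟩
  · exact ⟨by omega, by omega, h2⟩
  · refine absurd (Or.inr (Or.inl ⟨1, le_rfl, ?_, Or.inl ?_⟩)) hv <;> rw [← h2, c] <;> simp <;> omega

theorem lk_adj (h : Fit z T) (f : Q → ℕ → ℕ → ℕ) (d : ℕ) (q : Q) (ha : G.Adj z v)
    (hv : ¬Wz G.Tb z v) :
    T.lk f d q v = f q (min 8 (G.ps z v)) (min 8 (G.gap z + 4 - G.ps z v)) := by
  obtain ⟨h1, h2, h3⟩ := nb_of (by rw [lv h]; omega) ha hv
  conv_lhs => rw [← h3]
  exact lk_nb h f d q h1 h2

/-- the side of a link vertex -/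
theorem rt_ps (hz : 1 ≤ z.1) (ha : G.Adj z v) (hv : ¬Wz G.Tb z v) :
    G.Rt z 4 v ↔ 4 ≤ G.ps z v := by
  obtain ⟨h1, h2, h3⟩ := nb_of hz ha hv
  have g := G.gap_eq z
  have g2 := G.gap2 z.1 z.2
  have c4 := G.nb_ch z (j := 4) (by omega) (by omega)
  generalize G.ps z v = i at *
  subst h3
  rcases Grid.nb_cases (G := G) z i with ⟨a, -⟩ | ⟨a, c⟩ | ⟨a, a', c⟩ | ⟨a, c⟩ | ⟨a, -⟩
  · omega
  · rw [c]; simp [Grid.Rt, Grid.an, a]
  · rw [c]; simp [Grid.Rt, Grid.lr, c4]
  · rw [c]; simp [Grid.Rt, Grid.an]; omega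
  · omega

open Classical in
/-- the side of a point off the tube (`true`: left) -/
noncomputable def sid (G : Grid) (z v : Pt) : Bool := !decide (G.Rt z 4 v)

theorem sid_true : sid G z v = true ↔ ¬G.Rt z 4 v := by simp [sid]
theorem sid_false : sid G z v = false ↔ G.Rt z 4 v := by simp [sid]

theorem free (h : Fit z T) (hv : ¬Wz G.Tb z v) : T.Free (sid G z v) v ∨ T.Hi v := by
  by_cases c : T.Hi v
  · exact Or.inr c
  have c1 : v.1 ≤ T.l + 1 := not_lt.1 c
  have e := lv h
  have a1 := h.rl v.1 (by omega)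
  have a2 := T.ord v.1 c1
  have a3 : T.Free true v ∨ T.Free false v := by
    by_contra u
    exact hv ((h.tz v).1 ⟨c1, fun w => u (Or.inl w), fun w => u (Or.inr w)⟩)
  refine Or.inl ?_
  rcases a3 with u | u
  · rwa [sid_true.2 (by
      have := u.2; rw [Grid.Rt, if_pos (by omega)]; simp only [sg] at this; omega)]
  · rwa [sid_false.2 (by
      have := u.2; rw [Grid.Rt, if_pos (by omega)]; simp only [sg] at this; omega)]

/-- an off tube neighbour of the lateral tube vertex lies on its side -/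
theorem lat (h : Fit z T) (hb : G.Tb z b) (hl : b.1 = T.l + 1) (ha : G.Adj b f)
    (hf : ¬Wz G.Tb z f) : b = (T.l + 1, out (sid G z f) T.z 1) ∧
      wof (T.st (sid G z f) (T.l + 1)) = 1 := by
  have e := lv h
  have g := G.gap_eq z
  have g2 := G.gap2 z.1 z.2
  have c4 := G.nb_ch z (j := 4) (by omega) (by omega)
  have a1 := Grid.an_one (G := G) (z := z) (by omega)
  have l1 := G.lp_spec (z.1 - 1) z.2
  have key : b = (T.l + 1, out (sid G z f) T.z 1) := by
    rcases hb with ⟨i, h1, h2, -⟩ | ⟨h1, rfl⟩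
    · omega
    have h2 := G.adj_iff.1 ha
    have h3 : f ≠ z := fun c => hf (Or.inl c)
    have h4 : ¬(f.1 + 1 = z.1 ∧ f.2 = G.an z 1) := fun c =>
      hf (Or.inr (Or.inl ⟨1, le_rfl, c.1, Or.inl ⟨c.2.ge, by omega⟩⟩))
    have e2 : z.2 = T.z := by rw [h.eq]
    unfold Grid.lt1 at h2 ⊢
    split_ifs at h2 ⊢ with c
    · rw [sid_true.2, ← e, ← e2]
      · simp [out, sg]
      rw [Ne, Prod.ext_iff] at h3
      rcases h2 with h2 | h2 | h2 <;> simp only at h2
      · rw [Grid.Rt, if_pos (by omega), show z.1 - f.1 = 0 by omega, Grid.an]; omega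
      · rw [Grid.Rt, if_neg (by omega), show f.1 - (z.1 + 1) = 0 by omega, Grid.lr, c4]
        simp only; omega
      · rw [Grid.Rt, if_pos (by omega), show z.1 - f.1 = 1 by omega, a1.1,
          show z.1 - 1 = f.1 by omega]
        rw [show z.1 - 1 = f.1 by omega] at l1
        have := Grid.A_lt_iff.1 (lt_of_le_of_lt h2.2.1 (by omega : z.2 - 1 < G.A f.1 (G.lp f.1 z.2)))
        omega
    · rw [sid_false.2, ← e, ← e2]
      · simp [out, sg]
      rw [Ne, Prod.ext_iff] at h3
      rcases h2 with h2 | h2 | h2 <;> simp only [add_sub_cancel_right] at h2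
      · rw [Grid.Rt, if_pos (by omega), show z.1 - f.1 = 0 by omega, Grid.an]; omega
      · rw [Grid.Rt, if_neg (by omega), show f.1 - (z.1 + 1) = 0 by omega, Grid.lr, c4]
        simp only; omega
      · rw [Grid.Rt, if_pos (by omega), show z.1 - f.1 = 1 by omega]
        rw [a1.1, show z.1 - 1 = f.1 by omega] at h4 ⊢
        have : G.lp f.1 z.2 ≤ f.2 := Grid.lp_le (by omega)
        omega
  refine ⟨key, ?_⟩
  have t := (h.tz b).2 (Or.inr hb)
  have w := wof_le (T.st (sid G z f) (T.l + 1))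
  have u : ¬T.Free (sid G z f) b := by cases sid G z f; exacts [t.2.2, t.2.1]
  by_contra c
  refine u ⟨hl.le, ?_⟩
  rw [hl, T.top, key]
  generalize sid G z f = o at c w ⊢
  cases o <;> simp only [out, sg] <;> omega

theorem ntz (h : Fit z T) {I : List Pt} (a : G.Arc z b I e) {i : ℕ} (h1 : 1 ≤ i)
    (h2 : i ≤ I.length) : ¬T.Tz (Grid.vx b I e i) :=
  fun c => a.2.2.2.2 _ (Grid.vx_mem h1 h2) ((h.tz _).1 c)

theorem arc_pos {I : List Pt} (a : G.Arc z b I e) : 1 ≤ I.length :=
  List.length_pos_iff.2 a.2.2.2.1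

variable [Fintype Q] (S : Spec Q)

/-- the weight of step `i` of the path `A` in the constant state `q` -/
noncomputable def stp (T : Tube G) (q : Q) (A : ℕ → Pt) (i : ℕ) : ℝ≥0∞ :=
  Spec.ff T S.lo q (A i) * (S.sw G q q (if i = 0 then none else some (A (i - 1))) (A (i + 1)) *
    Spec.ff T S.lf q (A (i + 1)))

omit [Fintype Q] in
theorem go (h : Fit z T) {I : List Pt} (a : G.Arc z b I e)
    (hs : S.so = sid G z (I.headD z)) {i : ℕ} (hi : i < I.length) :
    S.Go T (if i = 0 then none else some (Grid.vx b I e (i - 1))) (Grid.vx b I e i)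
      (Grid.vx b I e (i + 1)) := by
  refine ⟨fun c => ?_, fun c => absurd c (ntz h a (by omega) hi)⟩
  rcases Nat.eq_zero_or_pos i with rfl | u
  · refine ⟨rfl, ?_⟩
    rw [hs, Grid.vx_head (b := b) (e := e) a.2.2.2.1]
    exact free h fun c => ntz h a le_rfl hi ((h.tz _).2 c)
  · exact absurd c (ntz h a u hi.le)

/-- arcs whose run stops at the last inner vertex and arcs that end in the tube -/
theorem both (h : Fit z T) (q : Q) (w : List Pt → ℝ≥0∞) (w' : List Pt × Pt → ℝ≥0∞) (c : ℝ≥0∞)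
    (hw : ∀ I, w I ≠ 0 → G.Arc z b I e ∧ S.so = sid G z (I.headD z) ∧
      w I ≤ c * ((∏ i ∈ Finset.range I.length, stp S T q (Grid.vx b I e) i) *
        vv (T.lk S.lt 0 q (Grid.vx b I e I.length))))
    (hw' : ∀ x, w' x ≠ 0 → S.no1 = false ∧ G.Arc z b x.1 x.2 ∧ G.Tb z x.2 ∧
      S.so = sid G z (x.1.headD z) ∧ S.ws = some (sid G z (x.1.getLastD z)) ∧
      w' x ≤ c * ((∏ i ∈ Finset.range (x.1.length + 1), stp S T q (Grid.vx b x.1 x.2) i) *
        vv (S.pw q))) :
    ∑' I, w I + ∑' x, w' x ≤ c * S.loops T q b := by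
  refine (Summable.tsum_sum (f := Sum.elim w w') ENNReal.summable ENNReal.summable).ge.trans ?_
  have mix : ∀ I x, w I ≠ 0 → w' x ≠ 0 → I.length = x.1.length + 1 →
      Grid.vx b I e (x.1.length + 1) ≠ Grid.vx b x.1 x.2 (x.1.length + 1) := fun I x a a' u v => by
    rw [Grid.vx_last] at v
    exact ntz h (hw I a).1 (by omega) u.ge (v ▸ (h.tz _).2 (Or.inr (hw' x a').2.2.1))
  refine S.le_loops T _ (Sum.elim List.length fun x => x.1.length + 1)
    (Sum.elim (fun I => Grid.vx b I e) fun x => Grid.vx b x.1 x.2) (fun _ _ => q) q b c ?_ ?_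
  · rintro (x | x) (y | y) hx hy e1 e2 <;> simp only [Sum.elim_inl, Sum.elim_inr] at hx hy e1 e2
    · exact congrArg _ (Grid.vx_ext e1 fun i hi => (e2 i hi).1)
    · exact absurd (e2 _ (by omega)).1 (mix x y hx hy e1)
    · exact absurd (e2 _ (by omega)).1.symm (mix y x hy hx e1.symm)
    · have e3 : x.1.length = y.1.length := by omega
      refine congrArg _ (Prod.ext (Grid.vx_ext e3 fun i hi => (e2 i (by omega)).1) ?_)
      have := (e2 x.1.length (by omega)).1
      rwa [Grid.vx_last, e3, Grid.vx_last] at this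
  rintro (I | ⟨I, e⟩) hx <;> simp only [Sum.elim_inl, Sum.elim_inr] at hx ⊢
  · obtain ⟨a, hs, h3⟩ := hw I hx
    refine ⟨rfl, trivial, fun i hi => Grid.vx_adj a.1 hi.le, fun i hi j hj u => ?_, h3.trans_eq ?_⟩
    · have := Grid.vx_inj a.2.1 a.2.2.1 (by omega) (by omega) (by omega) (by omega) u
      omega
    · rw [Spec.prW]
      congr 2
      · refine Finset.prod_congr rfl fun i hi => ?_
        simp only [Spec.sys]
        rw [ind_of (go S h a hs (Finset.mem_range.1 hi)), one_mul, stp]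
      · simp only [Spec.sys]
        rw [if_neg (ntz h a (arc_pos a) le_rfl)]
  obtain ⟨hn, a, he, hs, h2, h3⟩ := hw' _ hx
  simp only at a he hs h2 h3 ⊢
  have t := (h.tz e).2 (Or.inr he)
  have l := arc_pos a
  refine ⟨rfl, trivial, fun i hi => Grid.vx_adj a.1 (by omega), fun i hi j hj u => ?_,
    h3.trans_eq ?_⟩
  · have := Grid.vx_inj a.2.1 a.2.2.1 (by omega) (by omega) (by omega) (by omega) u
    omega
  · rw [Spec.prW]
    congr 2
    · refine Finset.prod_congr rfl fun i hi => ?_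
      simp only [Spec.sys]
      rw [ind_of, one_mul, stp]
      rcases (Nat.lt_succ_iff.1 (Finset.mem_range.1 hi)).lt_or_eq with u | rfl
      · exact go S h a hs u
      have n1 := ntz h a l le_rfl
      have n2 : ¬Wz G.Tb z (Grid.vx b I e I.length) := fun c => n1 ((h.tz _).2 c)
      refine ⟨fun c => absurd c n1, fun _ => ⟨_, h2, ?_⟩⟩
      rw [Grid.vx_getLast (b := b) (e := e) a.2.2.2.1, Grid.vx_last]
      refine ⟨free h n2, fun c => ?_⟩
      have := Grid.vx_adj a.1 le_rfl
      rw [Grid.vx_last] at this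
      have k := congrArg Prod.snd (lat h he c this.symm n2).1
      generalize sid G z (Grid.vx b I e I.length) = o at k ⊢
      rw [k]
      cases o <;> simp [out, sg]
    · simp only [Spec.sys]
      rw [Grid.vx_last, if_pos t, ind_of ⟨by simp, by simp [hn]⟩, one_mul]

omit [Fintype Q] in
/-- a start below the centre: its target, and when it is the parent -/
theorem low_b (h : Fit z T) (hl : b.1 ≤ T.l) (ha : G.Adj b f)
    (hf : ¬Wz G.Tb z f) : G.tg z b f = T.tgW (sid G z f) ∧
      (G.Adj z b ↔ b = (T.l, T.r (sid G z f) T.l)) := by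
  have e := lv h
  have t := G.tau_le z
  have l1 := (Grid.lt1_lev (G := G) z).1
  have n : b ≠ G.lt1 z := fun c => by rw [c] at hl; omega
  constructor
  · have wl := h.wl
    have wr := h.wr
    rw [e] at wl wr
    simp only [Grid.tg, Tube.tgW, Tube.w0, wl, wr, sid, Bool.not_not]
    by_cases c : G.tau z = 1
    · simp [c]
    · by_cases c' : G.sL z 0 = 1 <;> simp [show G.tau z = 0 by omega, c', n]
  · constructor
    · intro a
      have a1 := G.adj_iff.1 a
      have a2 : b.1 + 1 = z.1 := by omega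
      have s := Grid.tb_side le_rfl a2 ha hf
      have r1 := h.rl T.l (by omega)
      have r2 := h.rr T.l (by omega)
      rw [show z.1 - T.l = 1 by omega] at r1 r2
      have u1 : G.an z 1 ≤ b.2 := by
        simp only [Grid.an, zero_add, show z.1 - 1 = b.1 by omega]; exact Grid.lp_le (by omega)
      have u2 : b.2 ≤ G.ar z 1 := by
        simp only [Grid.ar, zero_add, show z.1 - 1 = b.1 by omega]; exact Grid.le_rp (by omega)
      by_cases c : G.Rt z 4 f
      · rw [sid_false.2 c]; exact Prod.ext (by simp only; omega) (by have := s.1 c; simp only; omega)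
      · rw [sid_true.2 c]; exact Prod.ext (by simp only; omega) (by have := s.2 c; simp only; omega)
    · intro a
      have := (T.side (sid G z f)).ch T.l (by omega)
      rw [T.top] at this
      generalize sid G z f = o at a this
      rw [a, h.eq]
      exact Or.inr (Or.inr ⟨rfl, this⟩)

omit [Fintype Q] in
theorem hd_of (h : Fit z T) {I : List Pt} (a : G.Arc z b I e) :
    G.Adj b (I.headD z) ∧ ¬Wz G.Tb z (I.headD z) := by
  rw [Grid.vx_head (b := b) (e := e) a.2.2.2.1]
  exact ⟨Grid.vx_adj a.1 (Nat.zero_le _), fun c => ntz h a le_rfl (arc_pos a) ((h.tz _).2 c)⟩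

open Classical in
/-- the sum over the starts on one side -/
theorem side_le (h : Fit z T) (P : Nm) (q : Q) (F : Pt → List Pt → ℝ≥0∞) (cl c0 : ℝ≥0∞)
    (hF : ∀ b I, G.Tb z b → F b I ≠ 0 → G.Adj b (I.headD z) ∧ ¬Wz G.Tb z (I.headD z) ∧
      S.so = sid G z (I.headD z))
    (hb : ∀ b, G.Tb z b → ∑' I, F b I ≤
      (if b.1 = z.1 then cl else if G.Adj z b then c0 else 1) * S.loops T q b) (s : Option Bool) :
    G.sT P z s F ≤ T.sum P S q cl c0 s := by
  have hz := h.eq
  have e := lv h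
  rw [Grid.sT, ENNReal.tsum_prod', Tube.sum, Spec.low, Spec.lat, ← ENNReal.tsum_mul_left,
    ← tsum_ite_eq (T.l + 1, out S.so T.z 1) (fun _ => ind _ * (cl * (ind _ * S.loops T q _))),
    ← ENNReal.tsum_add]
  generalize S.so = o at hF ⊢
  refine ENNReal.tsum_le_tsum fun b => ?_
  simp only [ENNReal.tsum_mul_left (a := ind (G.Tb z b))]
  refine ind_mul_le fun t => ?_
  have t1 := (h.tz b).2 (Or.inr t)
  have key : ∀ x : ℝ≥0∞, (∀ f, G.Adj b f → ¬Wz G.Tb z f → o = sid G z f →
      s.elim 1 (fun s => ind (G.tg z b f = s) * G.ch P.iv P.il z b) ≤ x) →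
      ∑' I, s.elim 1 (fun s => ind (G.tg z b (I.headD z) = s) * G.ch P.iv P.il z b) * F b I ≤
      x * ((if b.1 = z.1 then cl else if G.Adj z b then c0 else 1) * S.loops T q b) :=
      fun x hx => by
    refine le_trans ?_ (mul_le_mul' le_rfl (hb b t))
    rw [← ENNReal.tsum_mul_left]
    refine ENNReal.tsum_le_tsum fun I => ?_
    by_cases v : F b I = 0
    · rw [v, mul_zero, mul_zero]
    · obtain ⟨v1, v2, v3⟩ := hF b I t v
      exact mul_le_mul' (hx _ v1 v2 v3) le_rfl
  by_cases v : ∀ I, F b I = 0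
  · simp only [v, mul_zero, tsum_zero, zero_le]
  obtain ⟨I, hI⟩ := not_forall.1 v
  obtain ⟨v1, v2, v3⟩ := hF b I t hI
  rcases t1.1.lt_or_eq with u | u
  · refine le_add_left ((key (ind (s = none ∨ s = some (T.tgW o)) *
      s.elim 1 fun _ => G.ch P.iv P.il z b) fun f a1 a2 a3 => ?_).trans (le_of_eq ?_))
    · rw [(low_b h (by omega) a1 a2).1, ← a3]
      cases s with
      | none => simp [ind_of]
      | some s => exact mul_le_mul' (ind_mono fun e => Or.inr (e ▸ rfl)) le_rfl
    · have k := (low_b h (by omega) v1 v2).2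
      rw [← v3] at k
      rw [ind_of (A := T.Tz b ∧ _) ⟨t1, by omega⟩, one_mul, ← hz, if_congr k rfl rfl,
        if_neg (by omega)]
      ring
  · obtain ⟨k1, k2⟩ := lat h t u v1 v2
    rw [← v3] at k1 k2
    refine le_add_right ((key (ind (s = none ∨ s = some (!o))) fun f a1 a2 a3 => ?_).trans
      (le_of_eq ?_))
    · cases s with
      | none => simp [ind_of]
      | some s =>
        have k4 : b = G.lt1 z ∧ G.tau z = 0 := by
          rcases t with ⟨i, h1, h2, -⟩ | t
          · omega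
          · exact t.symm
        have k5 : G.tg z b f = !o := by
          have wl := h.wl
          have wr := h.wr
          rw [e] at wl wr
          simp only [Grid.tg, k4.2, ← k4.1]
          cases o
          · simp [(wr.1 k2).2]
          · simp [(wl.1 k2).2]
        simp only [Option.elim, Grid.ch, if_pos (u.trans e.symm), mul_one, k5]
        exact ind_mono fun e => Or.inr (e ▸ rfl)
    · rw [if_pos (u.trans e.symm), if_pos k1, ind_of k2, one_mul, ← k1]

omit [Fintype Q] in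
theorem adj_lat (ht : G.Tb z b) (hl : b.1 = z.1) : G.Adj z b := by
  rcases ht with ⟨i, h1, h2, -⟩ | ⟨-, rfl⟩
  · omega
  · exact Grid.lt1_adj

open Classical in
/-- the sum over the starts on both sides; `c` is the factor of the starts next to `z` -/
theorem sum_le (h : Fit z T) (P : Nm) (S : Bool → Spec Q) (hso : ∀ o, (S o).so = o) (q : Q)
    (F : Pt → List Pt → ℝ≥0∞) (c : ℝ≥0∞) (hF : ∀ b I, F b I ≠ 0 → ∃ e, G.Arc z b I e)
    (hb : ∀ o b, G.Tb z b → ∑' I, ind (o = sid G z (I.headD z)) * F b I ≤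
      (if G.Adj z b then c else 1) * (S o).loops T q b) (s : Option Bool) :
    G.sT P z s F ≤ ∑ o, T.sum P (S o) q c c s := by
  calc _ ≤ ∑ o, G.sT P z s fun b I => ind (o = sid G z (I.headD z)) * F b I := by
        simp only [Grid.sT]
        rw [← Summable.tsum_finsetSum fun _ _ => ENNReal.summable]
        refine ENNReal.tsum_le_tsum fun x => le_trans ?_ (Finset.single_le_sum
          (fun _ _ => zero_le) (Finset.mem_univ (sid G z (x.2.headD z))))
        rw [ind_of rfl, one_mul]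
    _ ≤ _ := Finset.sum_le_sum fun o _ => side_le (S o) h P q _ c c (fun b I _ hI => ?_)
        (fun b t => (hb o b t).trans_eq ?_) s
  · obtain ⟨e, a⟩ := hF b I (right_ne_zero_of_mul hI)
    exact ⟨(hd_of h a).1, (hd_of h a).2, (hso o).trans (of_ind_mul_ne hI)⟩
  · by_cases u : b.1 = z.1
    · rw [if_pos u, if_pos (adj_lat t u)]
    · rw [if_neg u]

theorem sT_add (P : Nm) (s : Option Bool) (F F' : Pt → List Pt → ℝ≥0∞) (c : ℝ≥0∞) :
    c * G.sT P z s F + G.sT P z s F' = G.sT P z s fun b I => c * F b I + F' b I := by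
  simp only [Grid.sT]
  rw [← ENNReal.tsum_mul_left, ← ENNReal.tsum_add]
  exact tsum_congr fun x => by ring

end C3
end Pool.Agent.P.MP_e4ac67_pr.Gr
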