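import Pool.Agent.P.MP_e4ac67_pr.G.Vec

/-! A fixed point checker for tables with geometric tails. -/

open scoped ENNReal

namespace Pool.Agent.P.MP_e4ac67_pr.Gr

@[irreducible] def NN : ℕ := 1099511627776

noncomputable def vk (k n : ℕ) : ℝ≥0∞ := (n : ℝ≥0∞) * ((NN : ℝ≥0∞)⁻¹) ^ k

noncomputable def vv (n : ℕ) : ℝ≥0∞ := vk 1 n

theorem NN_mul : (NN : ℝ≥0∞) * (NN : ℝ≥0∞)⁻¹ = 1 :=
  ENNReal.mul_inv_cancel (by simp [NN]) (ENNReal.natCast_ne_top _)

theorem vk_mul (i j a b : ℕ) : vk i a * vk j b = vk (i + j) (a * b) := by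
  simp only [vk, pow_add, Nat.cast_mul]; ring

theorem vk_add (i a b : ℕ) : vk i a + vk i b = vk i (a + b) := by
  simp only [vk, Nat.cast_add]; ring

theorem vk_mono (i : ℕ) {a b : ℕ} (h : a ≤ b) : vk i a ≤ vk i b :=
  mul_le_mul' (by exact_mod_cast h) le_rfl

theorem vk_zero (i : ℕ) : vk i 0 = 0 := by simp [vk]

theorem vk_pow (i k a : ℕ) : vk (i + k) (a * NN ^ k) = vk i a := by
  simp only [vk, pow_add, Nat.cast_mul, Nat.cast_pow]
  calc _ = a * (NN : ℝ≥0∞)⁻¹ ^ i * ((NN : ℝ≥0∞) * (NN : ℝ≥0∞)⁻¹) ^ k := by ring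
    _ = _ := by rw [NN_mul, one_pow, mul_one]

theorem vv_NN : vv NN = 1 := by simp only [vv, vk, pow_one, NN_mul]

theorem vv_pow (a k : ℕ) : vv a ^ k = vk k (a ^ k) := by
  simp only [vv, vk, pow_one, mul_pow, Nat.cast_pow]

theorem vv_mono {a b : ℕ} (h : a ≤ b) : vv a ≤ vv b := vk_mono 1 h

/-- rounding up and down from scale `k + 1` to scale `1` -/
def rup (k a : ℕ) : ℕ := Nat.div (Nat.add (NN ^ k - 1) a) (NN ^ k)

def rdn (k a : ℕ) : ℕ := Nat.div a (NN ^ k)

theorem rup_eq (k a : ℕ) : rup k a = (a + (NN ^ k - 1)) / NN ^ k := by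
  rw [add_comm]; rfl

theorem le_rup (k a : ℕ) : vk (1 + k) a ≤ vv (rup k a) := by
  rw [vv, ← vk_pow 1 k]
  refine vk_mono _ ?_
  have h : 0 < NN ^ k := pow_pos (by simp [NN]) k
  have := Nat.div_add_mod (a + (NN ^ k - 1)) (NN ^ k)
  have h2 := Nat.mod_lt (a + (NN ^ k - 1)) h
  rw [rup_eq, mul_comm]
  omega

theorem rdn_le (k a : ℕ) : vv (rdn k a) ≤ vk (1 + k) a := by
  rw [vv, ← vk_pow 1 k]
  exact vk_mono _ (Nat.div_mul_le_self _ _)

def mz (a b : ℕ) : ℕ := cond (Nat.beq a 0) 0 (a * b)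

theorem mz_eq (a b : ℕ) : mz a b = a * b := by
  unfold mz
  cases h : Nat.beq a 0
  · rfl
  · simp [Nat.eq_of_beq_eq_true h]

/-- an enumeration of the states of the automaton -/
class NQ (Q : Type) where
  lst : List Q
  mem : ∀ q, q ∈ lst
  nd : lst.Nodup

instance : NQ Bool := ⟨[false, true], by decide, by decide⟩

variable {Q : Type}

def allQ [NQ Q] (f : Q → Bool) : Bool := NQ.lst.all f

def sumQ [NQ Q] (f : Q → ℕ) : ℕ := NQ.lst.foldr (fun q s => f q + s) 0

theorem allQ_spec [NQ Q] {f : Q → Bool} (h : allQ f = true) (q : Q) : f q = true :=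
  List.all_eq_true.1 h q (NQ.mem q)

theorem vk_sumQ [NQ Q] [Fintype Q] (k : ℕ) (f : Q → ℕ) : vk k (sumQ f) = ∑ r, vk k (f r) := by
  classical
  have h1 : ∀ l : List Q, vk k (l.foldr (fun q s => f q + s) 0) = (l.map fun r => vk k (f r)).sum := by
    intro l
    induction l with
    | nil => simp [vk_zero]
    | cons a l ih => simp [← vk_add, ih]
  rw [sumQ, h1, ← List.sum_toFinset _ NQ.nd]
  congr 1
  ext q
  simp [NQ.mem]

/-- numerical weights -/
structure NW (Q : Type) where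
  wl : Q → Q → Bool → ℕ
  wu : Q → Q → ℕ
  wd : Q → Q → Bool → ℕ
  a1 : Bool → Q → Q → ℕ
  a2 : Bool → Q → Q → ℕ
  a3 : Q → Q → ℕ
  rho : ℕ

noncomputable def NW.W (w : NW Q) : Wt Q :=
  ⟨fun q r b => vv (w.wl q r b), fun q r => vv (w.wu q r), fun q r b => vv (w.wd q r b)⟩

noncomputable def NW.k (w : NW Q) : Kb Q :=
  ⟨fun t q r => vv (w.a1 t q r), fun t q r => vv (w.a2 t q r), fun q r => vv (w.a3 q r), vv w.rho⟩

/-- the entry number `i` of a packed vector -/
def en (N i : ℕ) : ℕ := Nat.land (Nat.shiftRight N (Nat.mul 48 i)) 281474976710655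

/-- numerical table on the window `6 ≤ j ≤ 6 + w`; `pr q sl 0` is the packed row -/
structure NT (Q : Type) where
  lk : Bool
  w : ℕ
  rl : ℕ
  rr : ℕ
  al : ℕ → Bool → Bool
  fac : Q → ℕ → ℕ
  fo : Q → ℕ → ℕ
  src : Q → Bool → St → ℕ → ℕ
  pr : Q → ℕ → ℕ → ℕ

def NT.raw (B : NT Q) (q : Q) (sl j : ℕ) : ℕ := en (B.pr q sl 0) (Nat.sub j 6)

def slot : Bool → St → ℕ
  | false, .lat false => 0
  | false, .lat true => 1
  | false, .C0 => 3
  | false, .C false => 4
  | false, .C true => 5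
  | true, .lat false => 6
  | true, .lat true => 7
  | true, .C0 => 10
  | true, .C false => 11
  | true, .C true => 12
  | _, .PP false => 8
  | _, .PP true => 9
  | _, .P1 => 2

def hopN (j : ℕ) (s : Bool) (d : ℕ) : ℕ := cond s (j + (d + 1)) (j - (d + 1))

theorem hopN_eq {j d : ℕ} (s : Bool) (h : d < j) : ((hopN j s d : ℕ) : ℤ) = hop j s d := by
  cases s <;> simp only [hopN, hop, sg, cond_true, cond_false] <;> omega

def allB (f : Bool → Bool) : Bool := f false && f true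

def allSt (f : St → Bool) : Bool := f (.lat false) && f (.lat true) && f .P1 && f (.PP false) &&
  f (.PP true) && f .C0 && f (.C false) && f (.C true)

def allR (f : ℕ → Bool) : ℕ → Bool
  | 0 => true
  | n + 1 => f n && allR f n

theorem allB_spec {f : Bool → Bool} (h : allB f = true) (b : Bool) : f b = true := by
  simp only [allB, Bool.and_eq_true] at h
  cases b
  exacts [h.1, h.2]

theorem allSt_spec {f : St → Bool} (h : allSt f = true) (a : St) : f a = true := by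
  simp only [allSt, Bool.and_eq_true] at h
  rcases a with s | _ | s | _ | s <;> (try cases s) <;> simp only [h]

theorem allR_spec {f : ℕ → Bool} {n : ℕ} (h : allR f n = true) {j : ℕ} (hj : j < n) :
    f j = true := by
  induction n with
  | zero => omega
  | succ n ih =>
    simp only [allR, Bool.and_eq_true] at h
    rcases Nat.lt_succ_iff_lt_or_eq.1 hj with h' | rfl
    exacts [ih h.2 h', h.1]

namespace NT
variable (w : NW Q) (B : NT Q)

noncomputable def ext (f : ℕ → ℕ) (i : ℤ) : ℝ≥0∞ :=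
  if i < 6 then vv (f 6) * vv B.rl ^ (6 - i).toNat
  else if 6 + B.w < i then vv (f (6 + B.w)) * vv B.rr ^ (i - (6 + B.w)).toNat else vv (f i.toNat)

def cl (i : ℤ) : ℕ := (max 6 (min i (6 + B.w))).toNat

def clN (j : ℕ) : ℕ := cond (Nat.ble j 6) 6 (cond (Nat.ble j (6 + B.w)) j (6 + B.w))

def rnd (g : ℕ → ℕ → ℕ) (f : ℕ → ℕ) (j : ℕ) : ℕ :=
  cond (Nat.ble 6 j) (cond (Nat.ble j (6 + B.w)) (f j)
    (g (j - (6 + B.w)) (f (6 + B.w) * B.rr ^ (j - (6 + B.w))))) (g (6 - j) (f 6 * B.rl ^ (6 - j)))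

noncomputable def tb : Tb Q where
  lk := B.lk
  al i := B.al (B.cl i)
  fac r i := vv (B.fac r (B.cl i))
  fo r i := vv (B.fo r (B.cl i))
  src q t a := B.ext (B.src q t a)
  T q t a := B.ext (B.raw q (slot t a))
  E q s := B.ext (B.raw q (cond s 14 13))
  S q s := B.ext (B.raw q (cond s 16 15))
  M q s := B.ext (B.raw q (cond s 18 17))

def uT (r : Q) (t : Bool) (a : St) (j : ℕ) : ℕ := B.rnd rup (B.raw r (slot t a)) j

def uE (r : Q) (s : Bool) (j : ℕ) : ℕ := B.rnd rup (B.raw r (cond s 14 13)) j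

def uS (r : Q) (s : Bool) (j : ℕ) : ℕ := B.rnd rup (B.raw r (cond s 16 15)) j

def uM (r : Q) (s : Bool) (j : ℕ) : ℕ := B.rnd rup (B.raw r (cond s 18 17)) j

def usR (q : Q) (s : Bool) (j : ℕ) (r : Q) : ℕ :=
  mz (w.wu q r) (B.fac r (B.clN j) * B.uT r true (.PP s) j + B.fac r (B.clN (hopN j s 0)) *
    B.uT r false .P1 (hopN j s 0) + B.uS r s (hopN j s 1) * NN)

def usN [NQ Q] (q : Q) (s : Bool) (j : ℕ) : ℕ := sumQ (B.usR w q s j)

def beyN (s : Bool) (j0 j : ℕ) : Bool := cond s (Nat.ble j0 j) (Nat.ble j j0)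

def mx (a b : ℕ) : ℕ := Nat.add a (Nat.sub b a)

theorem cl_eq (j : ℕ) : B.cl j = B.clN j := by
  unfold cl clN
  cases h1 : Nat.ble j 6 <;> cases h2 : Nat.ble j (6 + B.w) <;>
    simp only [cond_true, cond_false, ← Bool.not_eq_true, Nat.ble_eq] at h1 h2 ⊢ <;> omega

theorem ext_eq (f : ℕ → ℕ) (j : ℕ) : ∃ k a, B.ext f j = vk (1 + k) a ∧
    (∀ g : ℕ → ℕ → ℕ, (∀ a, g 0 a = a) → B.rnd g f j = g k a) := by
  unfold ext rnd
  cases h1 : Nat.ble 6 j <;> cases h2 : Nat.ble j (6 + B.w) <;>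
    simp only [cond_true, cond_false, ← Bool.not_eq_true, Nat.ble_eq] at h1 h2 ⊢
  · omega
  · refine ⟨6 - j, _, ?_, fun g _ => rfl⟩
    rw [if_pos (by omega), vv_pow, vv, vk_mul, show (6 - (j : ℤ)).toNat = 6 - j by omega]
  · refine ⟨j - (6 + B.w), _, ?_, fun g _ => rfl⟩
    rw [if_neg (by omega), if_pos (by omega), vv_pow, vv, vk_mul,
      show ((j : ℤ) - (6 + B.w)).toNat = j - (6 + B.w) by omega]
  · refine ⟨0, f j, ?_, fun g hg => (hg _).symm⟩
    rw [if_neg (by omega), if_neg (by omega)]; rfl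

theorem ext_le (f : ℕ → ℕ) (j : ℕ) : B.ext f j ≤ vv (B.rnd rup f j) := by
  obtain ⟨k, a, h1, h2⟩ := B.ext_eq f j
  rw [h1, h2 rup fun a => by simp [rup_eq]]
  exact le_rup k a

theorem le_ext (f : ℕ → ℕ) (j : ℕ) : vv (B.rnd rdn f j) ≤ B.ext f j := by
  obtain ⟨k, a, h1, h2⟩ := B.ext_eq f j
  rw [h1, h2 rdn fun a => Nat.div_one a]
  exact rdn_le k a

theorem ext_left (f : ℕ → ℕ) {i : ℤ} (h : i ≤ 6) : B.ext f (i + -1) = vv B.rl * B.ext f i := by
  unfold ext
  rw [if_pos (by omega), show (6 - (i + -1)).toNat = (6 - i).toNat + 1 by omega, pow_succ]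
  split_ifs with h1 h2
  · ring
  · omega
  · obtain rfl : i = 6 := by omega
    simp [mul_comm]

theorem ext_right (f : ℕ → ℕ) {i : ℤ} (h : 6 + B.w ≤ i) : B.ext f (i + 1) = vv B.rr * B.ext f i := by
  unfold ext
  rw [if_neg (by omega), if_pos (by omega),
    show (i + 1 - (6 + B.w)).toNat = (i - (6 + B.w)).toNat + 1 by omega, pow_succ, if_neg (by omega)]
  split_ifs with h1
  · ring
  · obtain rfl : i = 6 + B.w := by omega
    rw [show (6 + (B.w : ℤ)).toNat = 6 + B.w by omega]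
    simp [mul_comm]

theorem scale_left {i : ℤ} (h : i ≤ 6) : B.tb.Scale (-1) (vv B.rl) i := by
  have : B.cl (i + -1) = B.cl i := by unfold cl; omega
  constructor <;> simp only [tb, this, B.ext_left _ h, le_refl, implies_true, imp_self]

theorem scale_right {i : ℤ} (h : 6 + B.w ≤ i) : B.tb.Scale 1 (vv B.rr) i := by
  have : B.cl (i + 1) = B.cl i := by unfold cl; omega
  constructor <;> simp only [tb, this, B.ext_right _ h, le_refl, implies_true, imp_self]

theorem all_of_window {P : ℤ → Prop}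
    (hs : ∀ e c (i : ℤ), (e = -1 ∧ i ≤ 3 ∨ e = 1 ∧ B.w + 9 ≤ i) → B.tb.Scale e c i →
      (∀ s, ∀ d ≤ 2, B.tb.Scale e c (hop i s d)) → P i → P (i + e))
    (h : ∀ j < B.w + 7, P ((j + 3 : ℕ) : ℤ)) (i : ℤ) : P i := by
  have hl : ∀ n : ℕ, P (3 - n) := fun n => by
    induction n with
    | zero => simpa using h 0 (by omega)
    | succ n ih =>
      have := hs (-1) _ (3 - (n : ℤ)) (by omega) (B.scale_left (by omega)) (fun s d hd => B.scale_left
        (by cases s <;> simp only [hop, sg] <;> omega)) ih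
      convert this using 1; push_cast; ring
  have hr : ∀ n : ℕ, P ((B.w : ℤ) + 9 + n) := fun n => by
    induction n with
    | zero => have := h (B.w + 6) (by omega); convert this using 1; push_cast; ring
    | succ n ih =>
      have := hs 1 _ ((B.w : ℤ) + 9 + n) (by omega) (B.scale_right (by omega)) (fun s d hd => B.scale_right
        (by cases s <;> simp only [hop, sg] <;> omega)) ih
      convert this using 1; push_cast; ring
  rcases le_or_gt i 3 with h1 | h1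
  · convert hl (3 - i).toNat using 1; omega
  rcases le_or_gt (B.w + 9 : ℤ) i with h2 | h2
  · convert hr (i - (B.w + 9)).toNat using 1; omega
  · convert h (i - 3).toNat (by omega) using 1; omega

theorem half_window {P : ℤ → Prop} {s : Bool} {j0 : ℕ} (h3 : 3 ≤ j0) (h9 : j0 ≤ B.w + 9)
    (hs : ∀ e c i, B.tb.Scale e c i → (∀ s, ∀ d ≤ 2, B.tb.Scale e c (hop i s d)) → P i → P (i + e))
    (h : ∀ j < B.w + 7, beyN s j0 (j + 3) = true → P ((j + 3 : ℕ) : ℤ)) {i : ℤ}
    (hi : Bey s j0 i) : P i := by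
  refine B.all_of_window (P := fun i => Bey s j0 i → P i) (fun e c i he h0 h1 h2 h3 =>
    hs e c i h0 h1 (h2 ?_)) (fun j hj hb => h j hj ?_) i hi
  · cases s <;> simp only [Bey, sg] at h3 ⊢ <;> omega
  · cases s <;> simp only [Bey, sg, beyN, cond_true, cond_false, Nat.ble_eq] at hb ⊢ <;> omega

theorem us_le [NQ Q] [Fintype Q] {j : ℕ} (hj : 2 ≤ j) (q : Q) (s : Bool) :
    B.tb.US w.W q s j ≤ vk 3 (B.usN w q s j) := by
  rw [Tb.US, usN, vk_sumQ]
  have e := fun a => vk_pow 1 1 a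
  simp only [pow_one] at e
  refine Finset.sum_le_sum fun r _ => ?_
  · simp only [usR, mz_eq, tb, NW.W, ← hopN_eq (j := j) (d := 0) s (by omega),
      ← hopN_eq (j := j) (d := 1) s (by omega), cl_eq]
    rw [← vk_mul 1 2, ← vk_add, ← vk_add, e, ← vk_mul 1 1, ← vk_mul 1 1]
    exact mul_le_mul' le_rfl (add_le_add (add_le_add (mul_le_mul' le_rfl (B.ext_le _ _))
      (mul_le_mul' le_rfl (B.ext_le _ _))) (B.ext_le _ _))

/-! ### all positions at once -/

open Vec

def BB : ℕ := 281474976710656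

def sQ [NQ Q] (f : Q → ℕ) : ℕ := List.rec 0 (fun q _ s => Nat.add (f q) s) NQ.lst

def mv (a b : ℕ) : ℕ := @Bool.rec (fun _ => ℕ) (Nat.mul a b) 0 (Nat.beq a 0)

def sK (k : ℕ → ℕ) : Bool → St → ℕ
  | false, .lat false => k 0
  | false, .lat true => k 1
  | false, .C0 => k 3
  | false, .C false => k 4
  | false, .C true => k 5
  | true, .lat false => k 6
  | true, .lat true => k 7
  | true, .C0 => k 10
  | true, .C false => k 11
  | true, .C true => k 12
  | _, .PP false => k 8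
  | _, .PP true => k 9
  | _, .P1 => k 2

def cfG (a : ℕ → ℕ) (m : ℕ) (b : ℕ → ℕ) (t n : ℕ) : ℕ :=
  sh m false (n + 6) + sh t false (B.w + 13) + cond (Nat.beq n 0) (pk a 6) 0 +
    cond (Nat.beq n B.w) (sh (pk b 6) false (B.w + 7)) 0

def aL (j : ℕ) : ℕ := B.rl ^ (6 - j) * NN ^ j

def aR (j : ℕ) : ℕ := B.rr ^ (j + 1) * NN ^ (5 - j)

def cf (n : ℕ) : ℕ := cond (Nat.ble n B.w) (B.cfG B.aL (NN ^ 6) B.aR 1 n) 0

def cO (n : ℕ) : ℕ := B.cfG (fun _ => ones) ones (fun _ => ones) 0 n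

def cG (n : ℕ) : ℕ := B.cfG (fun _ => grd) grd (fun _ => grd) 0 n

def row (f : ℕ → ℕ) : ℕ :=
  Nat.rec (Nat.add (Nat.add (Nat.add (Nat.add (Nat.add (Nat.add (Nat.add (Nat.add
      (Nat.mul (f 6) (B.cf 0)) (Nat.mul (f 7) (B.cf 1))) (Nat.mul (f 8) (B.cf 2)))
      (Nat.mul (f 9) (B.cf 3))) (Nat.mul (f 10) (B.cf 4))) (Nat.mul (f 11) (B.cf 5)))
      (Nat.mul (f 12) (B.cf 6))) (Nat.mul (f 13) (B.cf 7))) (Nat.mul (f 14) (B.cf 8)))
    (fun n ih => Nat.add ih (Nat.mul (f (Nat.add n 15)) (B.cf (Nat.add n 9)))) (Nat.sub B.w 8)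

def KW : ℕ := pk (fun _ => 281474976710655) (B.w + 1)

def PL : ℕ := pk B.aL 6

def PR : ℕ := sh (pk B.aR 6) false (B.w + 7)

def rowP (P : ℕ) : ℕ := Nat.add (Nat.add (Nat.mul (en P 0) B.PL)
  (sh (Nat.mul (NN ^ 6) (Nat.land (spr P) B.KW)) false 6)) (Nat.mul (en P B.w) B.PR)

def msk (c : ℕ → ℕ) (p : ℕ → Bool) : ℕ :=
  Nat.rec 0 (fun n ih => @Bool.rec (fun _ => ℕ) ih (Nat.add ih (c n)) (p (Nat.add n 6))) (Nat.succ B.w)

def mxv (f : ℕ → ℕ) : ℕ := Nat.rec 0 (fun n ih => @Bool.rec (fun _ => ℕ)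
  (Nat.add ih (Nat.sub (f (Nat.add n 6)) ih)) ih (Nat.beq (f (Nat.add n 6)) NN)) (Nat.succ B.w)

def M1 (f : ℕ → ℕ) : ℕ := B.msk B.cO fun j => Nat.beq (f j) NN

def Mv (f : ℕ → ℕ) : ℕ := B.msk B.cO fun j => !(Nat.beq (f j) NN || Nat.beq (f j) 0)

/-- multiplication by the factors `f` -/
def ap (f : ℕ → ℕ) (X : ℕ) : ℕ :=
  Nat.add (mv (B.mxv f) (Nat.land X (B.Mv f))) (Nat.mul NN (Nat.land X (B.M1 f)))

def rT (r : Q) (sl : ℕ) : ℕ := B.rowP (B.pr r sl 0)

def fT (r : Q) (sl : ℕ) : ℕ := B.ap (B.fac r) (B.rT r sl)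

def r2 (r : Q) (s : Bool) : ℕ := @Bool.rec (fun _ => ℕ) (B.rT r 13) (B.rT r 14) s

def r3 (r : Q) (s : Bool) : ℕ := @Bool.rec (fun _ => ℕ) (B.rT r 15) (B.rT r 16) s

def r4 (r : Q) (s : Bool) : ℕ := @Bool.rec (fun _ => ℕ) (B.rT r 17) (B.rT r 18) s

def bd (X : ℕ) : Bool := Nat.ble X (sh 72057594037927936 false (B.w + 13))

def gA (t : Bool) : ℕ := B.msk B.cG fun j => B.al j t

def gW : ℕ := sh (pk (fun _ => grd) (B.w + 7)) false 3

def gT (t : Bool) : ℕ := Nat.land B.gW (B.gA t)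

def gP (s t1 t2 : Bool) : ℕ := Nat.land (sh (B.gA t1) s 1) (sh (B.gA t2) s 2)

def gQ (t s t1 t2 : Bool) : ℕ := Nat.land (B.gT t) (B.gP s t1 t2)

def oA (t : Bool) : ℕ := B.msk B.cO fun j => B.al j t

def oP (s t1 t2 : Bool) : ℕ := Nat.land (sh (B.oA t1) s 1) (sh (B.oA t2) s 2)

def G2 : ℕ := pk (fun _ => grd) (B.w + 16)

def LM : ℕ := pk (fun _ => Nat.pow 2 489 - 1) (B.w + 14)

def vmy (X D g : ℕ) : ℕ := Nat.add X (Nat.land D (Nat.sub g (Nat.shiftRight g 511)))

def vmz (X D : ℕ) : ℕ := vmy X D (Nat.land D B.G2)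

def vmx (X Y : ℕ) : ℕ := B.vmz X (Nat.sub (Nat.add Y B.G2) X)

/-- the maximum over the types of the next two vertices -/
def um (t s : Bool) (S : Bool → Bool → ℕ) : ℕ :=
  Nat.land (B.vmx (B.vmx (Nat.land (S false false) (B.oP s false false))
    (Nat.land (S false true) (B.oP s false true)))
    (@Bool.rec (fun _ => ℕ) (Nat.land (S true false) (B.oP s true false)) 0 t)) B.LM

def gH (s : Bool) (j0 : ℕ) : ℕ := Nat.land B.gW (@Bool.rec (fun _ => ℕ)
  (pk (fun _ => grd) (j0 + 1)) (sh (pk (fun _ => grd) (B.w + 10)) false j0) s)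

def G1 : ℕ := pk (fun _ => Nat.sub grd 1) (B.w + 14)

def co (c X : ℕ) : ℕ := Nat.sub B.G1 (Nat.mul (NN ^ c) X)

def lz (m S C : ℕ) : Bool := Nat.beq (Nat.land (Nat.add S C) m) 0

def pats3 (t : Bool) (f : Bool → Bool → Bool) : Bool :=
  f false false && f false true && (t || f true false)

def okU (t s : Bool) (S : Bool → Bool → ℕ) (U : ℕ) : Bool :=
  pats3 t fun t1 t2 => lz (B.gQ t s t1 t2) (S t1 t2) (Nat.sub B.G1 U)

variable [NQ Q]

def vA (q : Q) (s e t1 : Bool) : ℕ :=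
  B.ap (B.fo q) (sh (sQ fun r => mv (w.wl q r e) (sK (B.fT r) t1 (.lat (!s)))) s 1)

def vB (q : Q) (s t t1 : Bool) : ℕ :=
  B.ap (B.fo q) (sh (sQ fun r => mv (w.a1 t q r) (sK (B.fT r) t1 (.C (!s)))) s 1)

def vD (q : Q) (s : Bool) : ℕ := sh (Nat.mul (NN ^ 1) (sQ fun r => mv (w.a3 q r) (B.r2 r s))) s 3

def vC (q : Q) (s t1 t2 : Bool) : ℕ := B.ap (B.fo q)
  (Nat.add (sh (sQ fun r => mv (w.a2 t1 q r) (sK (B.fT r) t2 .C0)) s 2) (B.vD w q s))

def vE (q : Q) (t s e t1 t2 : Bool) : ℕ :=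
  Nat.add (Nat.add (B.vA w q s e t1) (B.vB w q s t t1)) (B.vC w q s t1 t2)

def xE (q : Q) (t s e : Bool) : ℕ := B.um t s (B.vE w q t s e)

def xC (q : Q) (t s : Bool) : ℕ := B.um t s (B.vC w q s)

def sd (q : Q) (t s v e : Bool) : ℕ := @Bool.rec (fun _ => ℕ) (@Bool.rec (fun _ => ℕ)
  (B.xE w q t s false) (B.xE w q t s true) e) (B.xC w q t s) v

def rhs (q : Q) (t : Bool) (a : St) : ℕ :=
  Nat.add (Nat.mul (NN ^ 3) (B.row (B.src q t a))) (B.co 3 (sK (B.rT q) t a))

def vU (r : Q) (s : Bool) : ℕ := Nat.add (Nat.add (sK (B.fT r) true (.PP s)) (sh (B.fT r 2) s 1))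
  (sh (Nat.mul (NN ^ 1) (B.r3 r s)) s 2)

def okW : Bool := Nat.ble w.rho BB && allQ fun q => allQ fun r => Nat.ble (w.a3 q r) BB &&
  allB fun e => Nat.ble (w.wl q r e) BB && Nat.ble (w.a1 e q r) BB && Nat.ble (w.a2 e q r) BB

def ok0 : Bool := Nat.ble B.rl NN && Nat.ble B.rr NN && Nat.ble (NQ.lst : List Q).length 16 &&
  Nat.ble B.w 17 && allQ fun r => Nat.ble (B.mxv (B.fac r)) BB

def okS (j0 : ℕ) : Bool := Nat.ble 3 j0 && Nat.ble j0 (B.w + 9) && B.ok0

def chk : Bool := B.ok0 && okW w && allB fun t => allQ fun q => Nat.ble (B.mxv (B.fo q)) BB &&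
  (allB fun s => B.okU t s (B.vE w q t s false) (B.xE w q t s false) &&
    B.okU t s (B.vE w q t s true) (B.xE w q t s true) && B.okU t s (B.vC w q s) (B.xC w q t s) &&
    lz (B.gT t) (Nat.add (sK (B.fT q) t .C0) (mv w.rho (sh (B.r2 q s) s 1))) (B.co 1 (B.r2 q s))) &&
  allSt fun a => !okb B.lk t a || (B.bd (B.row (B.src q t a)) && lz (B.gT t)
    (Nat.add (B.sd w q t false (vis a false) (lear a false))
      (B.sd w q t true (vis a true) (lear a true))) (B.rhs q t a))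

def chkS (s : Bool) (j0 : ℕ) : Bool := B.okS j0 && allQ fun r =>
  lz (Nat.land (B.gH s j0) (B.gA false)) (Nat.add (B.fT r 2)
    (sh (Nat.mul (NN ^ 1) (B.r3 r s)) s 1)) (B.co 1 (B.r3 r s)) &&
  lz (Nat.land (B.gH s j0) (B.gA true)) (sK (B.fT r) true (.PP (!s))) (B.co 1 (B.r3 r s))

def chkM (s : Bool) (j0 : ℕ) : Bool := B.okS j0 && allQ fun q =>
  (allQ fun r => Nat.ble (w.wu q r) BB) &&
  lz (Nat.land (B.gH s j0) (B.gA true)) (sQ fun r => mv (w.wu q r) (B.vU r s)) (B.co 2 (B.r4 q s)) &&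
  lz (B.gH s j0) (sh (B.r4 q s) s 1) (B.co 0 (B.r4 q s))

omit [NQ Q] in
theorem sK_eq (k : ℕ → ℕ) (t : Bool) (a : St) : sK k t a = k (slot t a) := by
  rcases a with s | _ | s | _ | s <;> cases t <;> (try cases s) <;> rfl

theorem mv_eq (a b : ℕ) : mv a b = a * b := mz_eq a b ▸ (by unfold mv mz; cases Nat.beq a 0 <;> rfl)

theorem BB_eq : BB = 2 ^ 48 := by decide +kernel

theorem NN_le : NN ≤ 2 ^ 40 := by decide +kernel

theorem cond_beq (n k x : ℕ) : cond (Nat.beq n k) x 0 = if n = k then x else 0 := by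
  cases h : Nat.beq n k
  · rw [if_neg (Nat.ne_of_beq_eq_false h)]; rfl
  · rw [if_pos (Nat.eq_of_beq_eq_true h)]; rfl

omit [NQ Q] in
/-- the digits of a row -/
def dig (a : ℕ → ℕ) (m : ℕ) (b : ℕ → ℕ) (t : ℕ) (f : ℕ → ℕ) (j : ℕ) : ℕ :=
  if j < 6 then f 6 * a j else if j ≤ B.w + 6 then f j * m else if j < B.w + 13 then
    f (B.w + 6) * b (j - (B.w + 7)) else t * ∑ n ∈ Finset.range (B.w + 1), f (n + 6)

omit [NQ Q] in
theorem sum_cfG (a : ℕ → ℕ) (m : ℕ) (b : ℕ → ℕ) (t : ℕ) (f : ℕ → ℕ) :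
    ∑ n ∈ Finset.range (B.w + 1), f (n + 6) * B.cfG a m b t n = pk (B.dig a m b t f) (B.w + 14) := by
  rw [pk_sum, show B.w + 14 = 6 + (B.w + 1) + 6 + 1 by ring, Finset.sum_range_succ _ (_ + _ + _),
    Finset.sum_range_add _ (6 + _), Finset.sum_range_add _ 6]
  simp only [cfG, mul_add (f _), Finset.sum_add_distrib, cond_beq, sh_false, pk_sum, mul_ite, mul_zero,
    Finset.sum_ite_eq', Finset.mem_range, Nat.lt_succ_self, Nat.succ_pos, if_true]
  have h1 : f (0 + 6) * ∑ j ∈ Finset.range 6, a j * 2 ^ (WW * j) =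
      ∑ j ∈ Finset.range 6, B.dig a m b t f j * 2 ^ (WW * j) := by
    rw [Finset.mul_sum]
    exact Finset.sum_congr rfl fun j hj => by rw [dig, if_pos (Finset.mem_range.1 hj), mul_assoc]
  have h2 : ∑ n ∈ Finset.range (B.w + 1), f (n + 6) * (m * 2 ^ (WW * (n + 6))) =
      ∑ n ∈ Finset.range (B.w + 1), B.dig a m b t f (6 + n) * 2 ^ (WW * (6 + n)) :=
    Finset.sum_congr rfl fun j hj => by
      have := Finset.mem_range.1 hj
      rw [dig, if_neg (by omega), if_pos (by omega), mul_assoc, add_comm 6]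
  have h3 : f (B.w + 6) * ((∑ j ∈ Finset.range 6, b j * 2 ^ (WW * j)) * 2 ^ (WW * (B.w + 7))) =
      ∑ j ∈ Finset.range 6, B.dig a m b t f (6 + (B.w + 1) + j) * 2 ^ (WW * (6 + (B.w + 1) + j)) := by
    rw [Finset.sum_mul, Finset.mul_sum]
    refine Finset.sum_congr rfl fun j hj => ?_
    have := Finset.mem_range.1 hj
    rw [dig, if_neg (by omega), if_neg (by omega), if_pos (by omega),
      show 6 + (B.w + 1) + j - (B.w + 7) = j by omega]
    ring
  have h4 : ∑ n ∈ Finset.range (B.w + 1), f (n + 6) * (t * 2 ^ (WW * (B.w + 13))) =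
      B.dig a m b t f (6 + (B.w + 1) + 6) * 2 ^ (WW * (6 + (B.w + 1) + 6)) := by
    rw [dig, if_neg (by omega), if_neg (by omega), if_neg (by omega), ← Finset.sum_mul]
    ring
  rw [h1, h2, h3, h4]
  ring

omit [NQ Q] in
theorem row_eq (f : ℕ → ℕ) : B.row f =
    ∑ n ∈ Finset.range (B.w + 1), f (n + 6) * B.cfG B.aL (NN ^ 6) B.aR 1 n := by
  have e : B.row f = ∑ n ∈ Finset.range (9 + (B.w - 8)), f (n + 6) * B.cf n := by
    rw [row, Nat.sub_eq]
    induction B.w - 8 with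
    | zero => simp only [Finset.sum_range_succ, Finset.sum_range_zero, zero_add, add_zero]; rfl
    | succ m ih => rw [← add_assoc, Finset.sum_range_succ, ← ih, add_comm 9 m]; rfl
  rw [e, ← Finset.sum_subset (s₁ := Finset.range (B.w + 1)) (Finset.range_mono (by omega))
    fun n _ h => ?_]
  · refine Finset.sum_congr rfl fun n h => ?_
    rw [cf, Nat.ble_eq_true_of_le (Nat.lt_succ_iff.1 (Finset.mem_range.1 h)), cond_true]
  · rw [cf, show Nat.ble n B.w = false by simpa [← Bool.not_eq_true] using h, cond_false, mul_zero]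

theorem en_eq (P i : ℕ) : en P i = P / 2 ^ (48 * i) % 2 ^ 48 := by
  rw [← Nat.and_two_pow_sub_one_eq_mod, ← Nat.shiftRight_eq_div_pow]; rfl

omit [NQ Q] in
theorem rowP_eq (hw : B.w ≤ 17) (P : ℕ) : B.rowP P = ∑ n ∈ Finset.range (B.w + 1),
    en P (Nat.sub (n + 6) 6) * B.cfG B.aL (NN ^ 6) B.aR 0 n := by
  have l : ∀ i, en P i < 2 ^ 48 := fun i => en_eq P i ▸ Nat.mod_lt _ (by positivity)
  have e1 : Nat.land (spr P) B.KW = pk (en P) (B.w + 1) := eq_of_dg fun i => by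
    rw [dg_land, KW, dg_pk _ fun _ _ => by decide +kernel,
      dg_pk _ fun i _ => (l i).trans (by decide +kernel)]
    split_ifs with h
    · rw [dg_spr _ _ (by omega), ← en_eq]
      exact (Nat.and_two_pow_sub_one_eq_mod _ 48).trans (Nat.mod_eq_of_lt (l i))
    · exact Nat.and_zero _
  simp only [rowP, e1, cfG, mul_add (en _ _), Finset.sum_add_distrib, cond_beq, sh_false, pk_sum,
    mul_ite, mul_zero, zero_mul, Finset.sum_ite_eq', Finset.mem_range, Nat.lt_succ_self,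
    Nat.succ_pos, if_true, Nat.sub_eq, Nat.add_sub_cancel, PL, PR, Nat.add_eq, Nat.mul_eq,
    add_zero]
  rw [add_comm (en P 0 * _), Finset.mul_sum, Finset.sum_mul]
  congr 2
  exact Finset.sum_congr rfl fun n _ => by ring

omit [NQ Q] in
theorem clN_cases (j : ℕ) : j < 6 ∧ B.clN j = 6 ∨ 6 ≤ j ∧ j ≤ B.w + 6 ∧ B.clN j = j ∨
    B.w + 6 < j ∧ B.clN j = B.w + 6 := by
  rw [← cl_eq, cl]; omega

omit [NQ Q] in
theorem dg_msk {c : ℕ} (hc : c < 2 ^ WW) (p : ℕ → Bool) (j : ℕ) :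
    dg (B.msk (B.cfG (fun _ => c) c (fun _ => c) 0) p) j =
      if j < B.w + 13 then cond (p (B.clN j)) c 0 else 0 := by
  have e : ∀ C : ℕ → ℕ, B.msk C p = ∑ n ∈ Finset.range (B.w + 1), cond (p (n + 6)) 1 0 * C n := by
    intro C
    rw [msk, Nat.succ_eq_add_one]
    generalize B.w + 1 = m
    induction m with
    | zero => rfl
    | succ m ih =>
      rw [Finset.sum_range_succ, ← ih]
      show @Bool.rec (fun _ => ℕ) _ _ (p (m + 6)) = _
      cases p (m + 6) <;> simp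
  have e2 : ∀ j, B.dig (fun _ => c) c (fun _ => c) 0 (fun j => cond (p j) 1 0) j =
      if j < B.w + 13 then cond (p (B.clN j)) c 0 else 0 := fun j => by
    have e3 : ∀ b : Bool, cond b 1 0 * c = cond b c 0 := fun b => by cases b <;> simp
    simp only [dig, e3, zero_mul]
    rcases B.clN_cases j with h | h | h <;> split_ifs <;> first | omega | rw [h.2] | rw [h.2.2]
  rw [e, B.sum_cfG _ _ _ _ fun j => cond (p j) 1 0, dg_pk _ fun i _ => ?_, e2]
  · split_ifs <;> omega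
  · rw [e2]
    split_ifs
    · cases p (B.clN i)
      exacts [by positivity, hc]
    · positivity

/-- the digits of `N` are small, and the digit `j` bounds `x` -/
structure V (N k j : ℕ) (x : ℝ≥0∞) (b : ℕ) : Prop where
  bd : ∀ i, dg N i ≤ 2 ^ b
  le : x ≤ vk k (dg N j)

section
variable {N M k j b c : ℕ} {x y : ℝ≥0∞}

theorem lt_W {a : ℕ} (h : a ≤ 2 ^ b) (hb : b < 511) : a < 2 ^ WW := by
  have := lt_WW h hb
  have := two_grd
  omega

theorem V.mono (h : V N k j x b) (hb : b ≤ c) : V N k j x c :=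
  ⟨fun i => (h.bd i).trans (Nat.pow_le_pow_right (by omega) hb), h.le⟩

theorem V.le' (h : V N k j x b) (h' : y ≤ x) : V N k j y b := ⟨h.bd, h'.trans h.le⟩

theorem V.add (h : V N k j x b) (h' : V M k j y b) (hb : b + 1 < 511) :
    V (Nat.add N M) k j (x + y) (b + 1) := by
  have e : ∀ i, dg N i + dg M i ≤ 2 ^ (b + 1) := fun i => by
    have := h.bd i
    have := h'.bd i
    rw [pow_succ]; omega
  have e' := fun i => dg_add i (N := N) (M := M) fun i => lt_W (e i) hb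
  exact ⟨fun i => (e' i).trans_le (e i), by
    rw [Nat.add_eq, e', ← vk_add]; exact add_le_add h.le h'.le⟩

theorem V.mul {a m : ℕ} (h : V N k j x b) (ha : a ≤ 2 ^ c) (hb : b + c < 511) :
    V (a * N) (m + k) j (vk m a * x) (b + c) := by
  have e : ∀ i, a * dg N i ≤ 2 ^ (b + c) := fun i => by
    rw [pow_add, mul_comm]; exact Nat.mul_le_mul (h.bd i) ha
  have e' := fun i => dg_mul a i (N := N) fun i => lt_W (e i) hb
  exact ⟨fun i => (e' i).trans_le (e i), by rw [e', ← vk_mul]; exact mul_le_mul' le_rfl h.le⟩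

theorem V.mv {a : ℕ} (h : V N k j x b) (ha : Nat.ble a BB = true) (hb : b + 48 < 511) :
    V (mv a N) (k + 1) j (vv a * x) (b + 48) := by
  rw [mv_eq, add_comm k]; exact h.mul (BB_eq ▸ Nat.le_of_ble_eq_true ha) hb

theorem V.pw (h : V N k j x b) (c : ℕ) (hb : b + 40 * c < 511) :
    V (Nat.mul (NN ^ c) N) (k + c) j x (b + 40 * c) := by
  have := h.mul (m := c) (a := NN ^ c) (pow_mul 2 40 c ▸ Nat.pow_le_pow_left NN_le c) hb
  rwa [← vv_pow, vv_NN, one_pow, one_mul, add_comm c] at this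

theorem dg_sh (N : ℕ) (s : Bool) {d : ℕ} (hj : d < j) : dg (sh N s (d + 1)) j = dg N (hopN j s d) := by
  cases s
  · exact (dg_shl ..).trans (if_neg (by omega))
  · exact dg_shr ..

theorem V.sh {s : Bool} {d : ℕ} (h : V N k (hopN j s d) x b) (hj : d < j) :
    V (sh N s (d + 1)) k j x b := by
  refine ⟨fun i => ?_, dg_sh N s hj ▸ h.le⟩
  cases s
  · refine (dg_shl ..).trans_le ?_
    split_ifs
    exacts [Nat.zero_le _, h.bd _]
  · exact (dg_shr ..).trans_le (h.bd _)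

theorem V.sum [Fintype Q] {F : Q → ℕ} {x : Q → ℝ≥0∞} (hl : (NQ.lst : List Q).length ≤ 16)
    (h : ∀ r, V (F r) k j (x r) b) (hb : b + 4 < 511) :
    V (sQ F) k j (∑ r, x r) (b + 4) := by
  classical
  have key : ∀ l : List Q, l.length ≤ 16 → ∀ i, dg (l.map F).sum i = (l.map fun r => dg (F r) i).sum ∧
      (l.map fun r => dg (F r) i).sum ≤ l.length * 2 ^ b := fun l => by
    induction l with
    | nil => simp [dg]
    | cons a l ih =>
      intro hl i
      simp only [List.length_cons, List.map_cons, List.sum_cons] at hl ⊢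
      have e : ∀ i, dg (F a) i + dg (l.map F).sum i ≤ (l.length + 1) * 2 ^ b := fun i => by
        have := ih (by omega) i
        have := (h a).bd i
        rw [add_mul]; omega
      rw [← (ih (by omega) i).1]
      exact ⟨dg_add i fun i => lt_W (b := b + 4) ((e i).trans (by
        rw [pow_add, mul_comm]; gcongr; omega)) hb, e i⟩
  have e : sQ F = ((NQ.lst : List Q).map F).sum := by
    unfold sQ
    induction (NQ.lst : List Q) with
    | nil => rfl
    | cons a l ih => rw [List.map_cons, List.sum_cons, ← ih]; rfl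
  refine ⟨fun i => ?_, ?_⟩
  · rw [e, (key _ hl i).1]
    refine (key _ hl i).2.trans ?_
    rw [pow_add, mul_comm]; gcongr; omega
  · rw [e, (key _ hl j).1, ← List.sum_toFinset _ NQ.nd, show (NQ.lst : List Q).toFinset =
      Finset.univ by ext q; simp [NQ.mem], vk, Nat.cast_sum, Finset.sum_mul]
    exact Finset.sum_le_sum fun r _ => (h r).le

omit [NQ Q] in
theorem le_mxv (f : ℕ → ℕ) {j : ℕ} (h1 : 6 ≤ j) (h2 : j ≤ B.w + 6) (h : f j ≠ NN) :
    f j ≤ B.mxv f := by
  unfold mxv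
  have h3 : j < B.w.succ + 6 := by omega
  generalize B.w.succ = m at h3
  induction m with
  | zero => omega
  | succ m ih =>
    show _ ≤ @Bool.rec (fun _ => ℕ) (_ + (f (m + 6) - _)) _ (Nat.beq (f (m + 6)) NN)
    rcases Nat.lt_succ_iff_lt_or_eq.1 (show j < m + 6 + 1 by omega) with c | rfl
    · have := ih c
      cases Nat.beq (f (m + 6)) NN
      exacts [this.trans (Nat.le_add_right _ _), this]
    · cases e : Nat.beq (f (m + 6)) NN
      · exact le_add_tsub
      · exact absurd (Nat.eq_of_beq_eq_true e) h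

omit [NQ Q] in
theorem V.ap {B : NT Q} {f : ℕ → ℕ} (h : V N k j x b) (hf : Nat.ble (B.mxv f) BB = true)
    (hj : j < B.w + 13) (hb : b + 48 + 1 < 511) :
    V (B.ap f N) (k + 1) j (vv (f (B.clN j)) * x) (b + 48 + 1) := by
  have ho : ones < 2 ^ WW := by decide +kernel
  have key : ∀ p : ℕ → Bool, V (Nat.land N (B.msk B.cO p)) k j (cond (p (B.clN j)) x 0) b := fun p => by
    refine ⟨fun i => (dg_land ..).trans_le (Nat.and_le_left.trans (h.bd i)), ?_⟩
    rw [dg_land, show B.cO = B.cfG _ _ _ _ from rfl, B.dg_msk ho, if_pos hj]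
    cases p (B.clN j)
    · exact zero_le
    · rw [cond_true, cond_true, and_ones (dg_lt _ _)]; exact h.le
  have h1 := ((key fun j => !(Nat.beq (f j) NN || Nat.beq (f j) 0)).mv hf (by omega)).add
    ((key fun j => Nat.beq (f j) NN).mv (a := NN) (by decide +kernel) (by omega)) hb
  rw [mv_eq NN] at h1
  refine ⟨h1.bd, le_trans ?_ h1.le⟩
  cases e1 : Nat.beq (f (B.clN j)) NN
  · cases e2 : Nat.beq (f (B.clN j)) 0
    · refine le_trans (mul_le_mul' (vv_mono (B.le_mxv f ?_ ?_ (Nat.ne_of_beq_eq_false e1))) le_rfl)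
        le_self_add <;> have := B.clN_cases j <;> omega
    · simp [Nat.eq_of_beq_eq_true e2, vv, vk_zero]
  · rw [Nat.eq_of_beq_eq_true e1]; exact le_add_self

end

variable {w B}

omit [NQ Q] in
/-- `X` contains the values of `f` -/
def Row (B : NT Q) (X : ℕ) (f : ℕ → ℕ) : Prop := (∀ i, dg X i ≤ 2 ^ 336) ∧
  (∀ i, B.w + 14 ≤ i → dg X i = 0) ∧ ∀ j < B.w + 13, B.ext f j = vk 7 (dg X j)

theorem row_of (h0 : B.ok0 = true) {f : ℕ → ℕ} {t : ℕ}
    (hf : ∀ j, 6 ≤ j → j ≤ B.w + 6 → f j ≤ 2 ^ 56)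
    (hS : t * ∑ n ∈ Finset.range (B.w + 1), f (n + 6) ≤ 2 ^ 56) :
    B.Row (∑ n ∈ Finset.range (B.w + 1), f (n + 6) * B.cfG B.aL (NN ^ 6) B.aR t n) f := by
  simp only [ok0, Bool.and_eq_true, Nat.ble_eq] at h0
  have hp : ∀ a c i k, c ≤ 2 ^ 56 → a ≤ NN → i + k ≤ 6 → c * (a ^ i * NN ^ k) ≤ 2 ^ 336 :=
    fun a c i k hc ha hi => calc
      _ ≤ 2 ^ 56 * ((2 ^ 40) ^ i * (2 ^ 40) ^ k) := by
        gcongr
        exacts [ha.trans NN_le, NN_le]
      _ ≤ 2 ^ 56 * (2 ^ 40) ^ 6 := by rw [← pow_add]; gcongr; norm_num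
      _ ≤ _ := by rw [← pow_mul, ← pow_add]; exact Nat.pow_le_pow_right (by omega) (by omega)
  have hd : ∀ j, B.dig B.aL (NN ^ 6) B.aR t f j ≤ 2 ^ 336 := fun j => by
    unfold dig
    split_ifs with c1 c2 c3
    · exact hp _ _ _ _ (hf _ le_rfl le_add_self) h0.1.1.1.1 (by omega)
    · have := hp 0 _ 0 6 (hf j (not_lt.1 c1) c2) (Nat.zero_le _) le_rfl
      rwa [pow_zero, one_mul] at this
    · exact hp _ _ _ _ (hf _ le_add_self le_rfl) h0.1.1.1.2 (by omega)
    · exact hS.trans (Nat.pow_le_pow_right (by omega) (by omega))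
  have e2 := dg_pk (B.w + 14) fun i _ => lt_W (hd i) (by omega)
  rw [B.sum_cfG]
  refine ⟨fun i => ?_, fun i hi => by rw [e2, if_neg (by omega)], fun j hj => ?_⟩
  · rw [e2]
    split_ifs
    exacts [hd i, Nat.zero_le _]
  · rw [e2, if_pos (by omega), ext, dig, aL, aR]
    split_ifs <;> try omega
    · rw [vv_pow, vv, vk_mul, ← vk_pow _ j, mul_assoc, show (6 - (j : ℤ)).toNat = 6 - j by omega,
        show 1 + (6 - j) + j = 7 by omega]
    · rw [vv_pow, vv, vk_mul, ← vk_pow _ (5 - (j - (B.w + 7))), mul_assoc,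
        show ((j : ℤ) - (6 + B.w)).toNat = j - (B.w + 7) + 1 by omega, add_comm 6,
        show 1 + (j - (B.w + 7) + 1) + (5 - (j - (B.w + 7))) = 7 by omega]
    · exact (vk_pow 1 6 _).symm

theorem row_src (h0 : B.ok0 = true) {f : ℕ → ℕ} (h : B.bd (B.row f) = true) :
    B.Row (B.row f) f := by
  have hS : ∑ n ∈ Finset.range (B.w + 1), f (n + 6) ≤ 72057594037927936 := by
    rw [bd, Nat.ble_eq, sh_false, row_eq, sum_cfG, pk_sum, Finset.sum_range_succ, dig,
      if_neg (by omega), if_neg (by omega), if_neg (by omega), one_mul] at h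
    exact Nat.le_of_mul_le_mul_right (le_add_self.trans h) (by positivity)
  rw [row_eq]
  refine row_of h0 (fun j h1 h2 => ?_) (by omega)
  have := Finset.single_le_sum (f := fun n => f (n + 6)) (fun _ _ => Nat.zero_le _)
    (Finset.mem_range.2 (show j - 6 < B.w + 1 by omega))
  simp only [Nat.sub_add_cancel h1] at this
  omega

theorem row_raw (h0 : B.ok0 = true) (r : Q) (sl : ℕ) : B.Row (B.rT r sl) (B.raw r sl) := by
  rw [rT, B.rowP_eq (Nat.le_of_ble_eq_true
    (Bool.and_eq_true_iff.1 (Bool.and_eq_true_iff.1 h0).1).2)]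
  exact row_of (f := B.raw r sl) h0
    (fun j _ _ => (en_eq ..).trans_le ((Nat.mod_lt _ (by positivity)).le.trans (by norm_num))) (by simp)

omit [NQ Q] in
theorem Row.V {X j : ℕ} {f : ℕ → ℕ} (h : B.Row X f) (hj : j < B.w + 13) :
    V X 7 j (B.ext f j) 336 := ⟨h.1, (h.2.2 j hj).le⟩

theorem rowV (h0 : B.ok0 = true) {r : Q} {sl j : ℕ} (hj : j < B.w + 13) :
    V (B.rT r sl) 7 j (B.ext (B.raw r sl) j) 336 := (row_raw h0 r sl).V hj

theorem facV (h0 : B.ok0 = true) {r : Q} {sl j : ℕ} (hj : j < B.w + 13) :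
    V (B.fT r sl) 8 j (vv (B.fac r (B.clN j)) * B.ext (B.raw r sl) j) 385 :=
  (rowV h0 hj).ap (allQ_spec (Bool.and_eq_true_iff.1 h0).2 r) hj (by omega)

theorem len (h0 : B.ok0 = true) : (NQ.lst : List Q).length ≤ 16 := Nat.le_of_ble_eq_true
  (Bool.and_eq_true_iff.1 (Bool.and_eq_true_iff.1 (Bool.and_eq_true_iff.1 h0).1).1).2

theorem fin (h0 : B.ok0 = true) {r : Q} {sl S m c j b : ℕ}
    {x : ℝ≥0∞} (hz : lz m S (B.co c (B.rT r sl)) = true) (hS : V S (7 + c) j x b)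
    (hm : dg m j = grd) (hj : j < B.w + 13) (hb : b < 511)
    (hc : c ≤ 3) : x ≤ B.ext (B.raw r sl) j := by
  obtain ⟨h1, h2, h3⟩ := row_raw h0 r sl
  have hT := (rowV h0 (r := r) (sl := sl) hj).pw c (by omega)
  have e := fun i => dg_mul (NN ^ c) i (N := B.rT r sl) fun i => lt_W (b := 40 * c + 336) (by
    rw [pow_add, pow_mul]; exact Nat.mul_le_mul (Nat.pow_le_pow_left NN_le c) (h1 i)) (by omega)
  have := cmp hS.bd hT.bd (fun i hi => (e i).trans (by rw [h2 i hi, mul_zero]))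
    ⟨lt_WW le_rfl hb, lt_WW le_rfl (by omega)⟩ (show j < B.w + 14 by omega) hm
    (Nat.eq_of_beq_eq_true hz)
  rw [Nat.mul_eq, e, mul_comm] at this
  rw [h3 j hj, ← vk_pow 7 c]
  exact hS.le.trans (vk_mono _ this)

omit [NQ Q] in
theorem grd_lt : grd < 2 ^ WW := by decide +kernel

omit [NQ Q] in
theorem dg_gA {t : Bool} {j : ℕ} (hj : j < B.w + 13) (h : B.al (B.clN j) t = true) :
    dg (B.gA t) j = grd := by
  rw [gA, show B.cG = B.cfG _ _ _ _ from rfl, B.dg_msk grd_lt, if_pos hj, h, cond_true]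

omit [NQ Q] in
theorem dg_gW {j : ℕ} (h1 : 3 ≤ j) (h2 : j < B.w + 10) : dg B.gW j = grd :=
  (dg_shl ..).trans (by rw [if_neg (by omega), dg_pk _ fun _ _ => grd_lt, if_pos (by omega)])

theorem dg_and {X Y j : ℕ} (h1 : dg X j = grd) (h2 : dg Y j = grd) : dg (Nat.land X Y) j = grd := by
  rw [dg_land, h1, h2, Nat.and_self]

omit [NQ Q] in
theorem hop_lt {j d : ℕ} (s : Bool) (h : j < B.w + 10) (hd : d ≤ 2) :
    hopN j s d < B.w + 13 := by
  cases s <;> simp only [hopN, cond_true, cond_false] <;> omega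

omit [NQ Q] in
theorem dg_gP {j : ℕ} (h1 : 3 ≤ j) (h2 : j < B.w + 10) {t s t1 t2 : Bool}
    (hp : B.tb.pat t j s t1 t2 = true) : dg (B.gP s t1 t2) j = grd := by
  simp only [Tb.pat, tb, ← hopN_eq (j := j) (d := 0) s (by omega),
    ← hopN_eq (j := j) (d := 1) s (by omega), cl_eq, Bool.and_eq_true] at hp
  exact dg_and ((dg_sh _ s (d := 0) (by omega)).trans (dg_gA (hop_lt s h2 (by omega)) hp.1.1.1))
    ((dg_sh _ s (d := 1) (by omega)).trans (dg_gA (hop_lt s h2 (by omega)) hp.1.1.2))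

omit [NQ Q] in
theorem dg_gH {j j0 : ℕ} (h1 : 3 ≤ j) (h2 : j < B.w + 10) {s : Bool} (h : beyN s j0 j = true) :
    dg (B.gH s j0) j = grd := by
  refine dg_and (dg_gW h1 h2) ?_
  cases s <;> simp only [beyN, cond_true, cond_false, Nat.ble_eq] at h
  · rw [dg_pk _ fun _ _ => grd_lt, if_pos (by omega)]
  · exact (dg_shl ..).trans (by
      rw [if_neg (by omega), dg_pk _ fun _ _ => grd_lt, if_pos (by omega)])

theorem pats3_spec {t t1 t2 : Bool} {f : Bool → Bool → Bool} (h : pats3 t f = true)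
    (hp : (!(t && t1) && !(t1 && t2)) = true) : f t1 t2 = true := by
  cases t <;> cases t1 <;> cases t2 <;> simp_all [pats3]

theorem lz_add (m S A C : ℕ) : lz m S (Nat.add A C) = lz m (Nat.add S A) C := by
  simp only [lz, Nat.add_eq, add_assoc]

omit [NQ Q] in
theorem umV {t s t1 t2 : Bool} {S : Bool → Bool → ℕ} {j : ℕ} {x : ℝ≥0∞}
    (h : B.okU t s S (B.um t s S) = true) (h1 : 3 ≤ j) (h2 : j < B.w + 10)
    (ha : dg (B.gT t) j = grd) (hp : B.tb.pat t j s t1 t2 = true) (hS : V (S t1 t2) 10 j x 488) :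
    V (B.um t s S) 10 j x 489 := by
  have e : ∀ i, dg (B.um t s S) i ≤ if i < B.w + 14 then Nat.pow 2 489 - 1 else 0 := fun i => by
    rw [um, dg_land, LM, dg_pk _ fun _ _ => by decide +kernel]
    exact Nat.and_le_right
  have e1 : ∀ i, dg (B.um t s S) i ≤ 2 ^ 489 := fun i => (e i).trans (by
    split_ifs
    exacts [Nat.sub_le _ _, Nat.zero_le _])
  have p : (!(t && t1) && !(t1 && t2)) = true := by
    simp only [Tb.pat, Bool.and_eq_true] at hp ⊢
    exact ⟨hp.1.2, hp.2⟩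
  exact ⟨e1, hS.le.trans (vk_mono _ (cmp hS.bd e1
    (fun i hi => Nat.le_zero.1 ((e i).trans_eq (if_neg (not_lt.2 hi))))
    ⟨lt_WW le_rfl (by omega), lt_WW le_rfl (by omega)⟩ (show j < B.w + 14 by omega)
    (dg_and ha (dg_gP h1 h2 hp)) (Nat.eq_of_beq_eq_true (pats3_spec (t1 := t1) h p))))⟩

theorem sdV [Fintype Q] (h0 : B.ok0 = true) (hw : okW w = true) {q : Q}
    (hq : Nat.ble (B.mxv (B.fo q)) BB = true) {j : ℕ} (h1 : 3 ≤ j) (h2 : j < B.w + 10)
    {t : Bool} (a : St) {s t1 t2 : Bool} (ha : dg (B.gT t) j = grd)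
    (hp : B.tb.pat t j s t1 t2 = true)
    (hu : (B.okU t s (B.vE w q t s false) (B.xE w q t s false) = true ∧
      B.okU t s (B.vE w q t s true) (B.xE w q t s true) = true) ∧
      B.okU t s (B.vC w q s) (B.xC w q t s) = true) : V (B.sd w q t s (vis a s) (lear a s)) 10 j
      (B.tb.fo q j * B.tb.side w.W w.k q t a j s t1 t2) 489 := by
  have hw' := fun r => Bool.and_eq_true_iff.1 (allQ_spec (allQ_spec (Bool.and_eq_true_iff.1 hw).2 q) r)
  have hv := fun r e => allB_spec (hw' r).2 e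
  simp only [Bool.and_eq_true] at hv
  have hj : j < B.w + 13 := by omega
  have kA := fun e => (V.sh (s := s) (d := 0) (V.sum (len h0) (fun r =>
    (facV h0 (r := r) (sl := slot t1 (.lat (!s))) (hop_lt s h2 (by omega))).mv (hv r e).1.1
      (by omega)) (by omega)) (by omega)).ap hq hj (by omega)
  have kB := (V.sh (s := s) (d := 0) (V.sum (len h0) (fun r =>
    (facV h0 (r := r) (sl := slot t1 (.C (!s))) (hop_lt s h2 (by omega))).mv (hv r t).1.2
      (by omega)) (by omega)) (by omega)).ap hq hj (by omega)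
  have kE : ∀ r, V (B.r2 r s) 7 (hopN j s 2) (B.ext (B.raw r (cond s 14 13)) (hopN j s 2)) 336 :=
    fun r => by cases s <;> exact rowV h0 (hop_lt _ h2 (by omega))
  have kC := ((V.sh (s := s) (d := 1) (V.sum (len h0) (fun r =>
    (facV h0 (r := r) (sl := slot t2 .C0) (hop_lt s h2 (by omega))).mv (hv r t1).2 (by omega))
      (by omega)) (by omega)).add (V.sh (s := s) (d := 2) (((V.sum (len h0) (fun r =>
        (kE r).mv (hw' r).1 (by omega)) (by omega)).pw 1 (by omega)).mono (by omega)) (by omega))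
      (by omega)).ap hq hj (by omega)
  have kF := fun e => ((kA e).add kB (by omega)).add kC (by omega)
  simp only [Tb.side, tb, NW.W, NW.k, ← hopN_eq (j := j) (d := 0) s (by omega), cl_eq,
    ← hopN_eq (j := j) (d := 1) s (by omega), ← hopN_eq (j := j) (d := 2) s (by omega)]
  simp only [← sK_eq (B.fT _)] at kF kC
  cases vis a s
  · cases lear a s
    · refine (umV hu.1.1 h1 h2 ha hp (kF false)).le' (le_of_eq ?_)
      simp only [← mul_add, ← Finset.sum_add_distrib, ind_of trivial]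
      exact congrArg _ (Finset.sum_congr rfl fun r _ => by ring)
    · refine (umV hu.1.2 h1 h2 ha hp (kF true)).le' (le_of_eq ?_)
      simp only [← mul_add, ← Finset.sum_add_distrib, ind_of trivial]
      exact congrArg _ (Finset.sum_congr rfl fun r _ => by ring)
  · refine (umV hu.2 h1 h2 ha hp (kC.mono (by omega))).le' (le_of_eq ?_)
    simp only [← Finset.sum_add_distrib, ind_of_not (show ¬true = false by simp)]
    exact congrArg _ (Finset.sum_congr rfl fun r _ => by ring)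

variable (w B)

theorem chk_sound [Fintype Q] (h : B.chk w = true) (i : ℤ) : B.tb.Ineq w.W w.k i := by
  simp only [chk, Bool.and_eq_true] at h
  obtain ⟨⟨h0, hw⟩, h⟩ := h
  have H := fun t q => allQ_spec (allB_spec h t) q
  simp only [Bool.and_eq_true] at H
  have H2 := fun t q s => allB_spec (H t q).1.2 s
  simp only [sK_eq, Bool.and_eq_true] at H2
  refine B.all_of_window (fun e c i _ h0 h1 => Tb.Ineq.scale h0 h1) (fun j hj => ?_) i
  generalize hj' : j + 3 = j'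
  have h1 : 3 ≤ j' := by omega
  have h2 : j' < B.w + 10 := by omega
  have hA := fun t (ha : B.tb.al j' t = true) => dg_and (dg_gW h1 h2)
    (dg_gA (B := B) (t := t) (by omega) (by simpa only [tb, cl_eq] using ha))
  constructor
  · intro q t a t1 t2 t1' t2' h3 h4 h5 h6
    have h7 := allSt_spec (H t q).2 a
    rw [show okb B.lk t a = true from h4, Bool.not_true, Bool.false_or, Bool.and_eq_true, rhs,
      sK_eq, lz_add] at h7
    rw [add_comm, mul_add]
    exact fin h0 h7.2 (((sdV h0 hw (H t q).1.1 h1 h2 a (hA t h3) h5 (H2 t q false).1).add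
      (sdV h0 hw (H t q).1.1 h1 h2 a (hA t h3) h6 (H2 t q true).1) (by omega)).add
      ((((row_src h0 h7.1).V (by omega)).pw 3 (by omega)).mono (by omega)) (by omega)) (hA t h3)
      (by omega) (by omega) (by omega)
  · intro r s t h3
    have hz := (H2 t r s).2
    have hr := (Bool.and_eq_true_iff.1 hw).1
    simp only [tb, cl_eq, NW.k, ← hopN_eq (j := j') (d := 0) s (by omega)]
    cases s <;> exact fin h0 hz ((facV h0 (by omega)).add
      (((V.sh (d := 0) (rowV h0 (hop_lt _ h2 (by omega))) (by omega)).mv hr (by omega)).mono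
        (by omega)) (by omega)) (hA t h3) (by omega) (by omega) (by omega)

theorem chkS_sound {s : Bool} {j0 : ℕ} (h : B.chkS s j0 = true) {i : ℤ} (hi : Bey s j0 i) :
    B.tb.SIneq s i := by
  simp only [chkS, okS, Bool.and_eq_true, Nat.ble_eq] at h
  obtain ⟨⟨⟨a1, a2⟩, h0⟩, h⟩ := h
  refine B.half_window a1 a2 (fun e c i h0 h1 => Tb.SIneq.scale h0 h1) (fun j hj hb => ?_) hi
  generalize hj' : j + 3 = j' at hb
  have h2 : j' < B.w + 10 := by omega
  intro r t h3
  have hA := dg_and (dg_gH (B := B) (by omega) h2 hb)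
    (dg_gA (B := B) (t := t) (by omega) (by simpa only [tb, cl_eq] using h3))
  have c := allQ_spec h r
  simp only [Bool.and_eq_true, sK_eq] at c
  simp only [tb, cl_eq, ← hopN_eq (j := j') (d := 0) s (by omega)]
  cases t
  · cases s <;> exact fin h0 c.1 ((facV h0 (by omega)).add
      (V.sh (d := 0) (((rowV h0 (hop_lt _ h2 (by omega))).pw 1 (by omega)).mono (by omega))
        (by omega)) (by omega)) hA (by omega) (by omega) (by omega)
  · rw [cond_true, cond_true, add_zero]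
    cases s <;> exact fin h0 c.2 (facV h0 (by omega)) hA (by omega) (by omega) (by omega)

theorem chkM_sound [Fintype Q] {s : Bool} {j0 : ℕ} (h : B.chkM w s j0 = true) {i : ℤ}
    (hi : Bey s j0 i) : B.tb.MIneq w.W s i := by
  simp only [chkM, okS, Bool.and_eq_true, Nat.ble_eq] at h
  obtain ⟨⟨⟨a1, a2⟩, h0⟩, h⟩ := h
  refine B.half_window a1 a2 (fun e c i h0 h1 => Tb.MIneq.scale h0 h1) (fun j hj hb => ?_) hi
  generalize hj' : j + 3 = j' at hb
  have h2 : j' < B.w + 10 := by omega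
  intro q
  have hH := dg_gH (B := B) (by omega) h2 hb
  have c := allQ_spec h q
  simp only [Bool.and_eq_true] at c
  have kU : ∀ r, V (B.vU r s) 8 j' (vv (B.fac r (B.clN j')) * B.ext (B.raw r (slot true (.PP s))) j' +
      vv (B.fac r (B.clN (hopN j' s 0))) * B.ext (B.raw r 2) (hopN j' s 0) +
      B.ext (B.raw r (cond s 16 15)) (hopN j' s 1)) 387 := fun r => by
    cases s <;> exact ((facV h0 (by omega)).add (V.sh (d := 0) (facV h0 (hop_lt _ h2 (by omega)))
      (by omega)) (by omega)).add (V.sh (d := 1) (((rowV h0 (hop_lt _ h2 (by omega))).pw 1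
        (by omega)).mono (by omega)) (by omega)) (by omega)
  have k := V.sum (len h0) (fun r => (kU r).mv (allQ_spec c.1.1 r) (by omega)) (by omega)
  simp only [Tb.US, tb, NW.W, cl_eq, ← hopN_eq (j := j') (d := 0) s (by omega),
    ← hopN_eq (j := j') (d := 1) s (by omega)]
  refine ⟨fun h3 => ?_, ?_⟩
  · cases s <;> exact fin h0 c.1.2 k (dg_and hH (dg_gA (by omega) h3)) (by omega) (by omega)
      (by omega)
  · cases s <;> exact fin h0 c.2 (V.sh (d := 0) (rowV h0 (hop_lt _ h2 (by omega))) (by omega)) hH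
      (by omega) (by omega) (by omega)

end NT
end Pool.Agent.P.MP_e4ac67_pr.Gr
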