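import Pool.Agent.P.MP_e4ac67_pr.G.Sup

/-! Paths annotated with the run of the automaton, and paths cut into two phases. -/

open scoped ENNReal

namespace Pool.Agent.P.MP_e4ac67_pr.Gr
namespace Sys

variable {Q Q' : Type} [Fintype Q] [Fintype Q']

/-- weight of a path whose vertices carry the state reached on arrival -/
noncomputable def runW (S : Sys Q) : Q → Option Pt → Pt → List (Pt × Q) → ℝ≥0∞
  | q, prev, v, [] => S.term q prev v
  | q, prev, v, u :: l => S.om q u.2 prev v u.1 * runW S u.2 (some v) u.1 l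

theorem run_le_U (S : Sys Q) (m : ℕ) : ∀ q prev v Vis, ∑' l : List (Pt × Q),
    ind (l.length < m ∧ Simple S.G v (l.map Prod.fst) Vis) * S.runW q prev v l ≤
      S.U m q prev v Vis := by
  induction m with
  | zero => intro q prev v Vis; simp [ind_of_not]
  | succ m ih =>
    intro q prev v Vis
    rw [tsum_list, U, ENNReal.tsum_prod']
    refine add_le_add (ind_mul_le fun _ => le_rfl) (ENNReal.tsum_le_tsum fun u => ?_)
    rw [tsum_fintype]
    refine Finset.sum_le_sum fun r _ => le_trans ?_ (mul_le_mul' le_rfl (ih r _ u _))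
    rw [← ENNReal.tsum_mul_left]
    refine ENNReal.tsum_le_tsum fun l => ind_mul_le ?_
    rintro ⟨h1, h2, h3, h4⟩
    rw [List.map_cons, List.isChain_cons_cons] at h2
    rw [List.map_cons, List.nodup_cons] at h3
    have h5 : ∀ w ∈ l.map Prod.fst, w ∉ insert v Vis := by
      rintro w hw (rfl | hw')
      · exact h3.1 (List.mem_cons_of_mem _ hw)
      · exact h4 w (List.mem_cons_of_mem _ hw) hw'
    rw [ind_of ⟨h2.1, h4 u (by simp)⟩, ind_of ⟨by simpa using h1, h2.2, h3.2, h5⟩, one_mul, one_mul]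
    exact le_rfl

theorem run_le (S : Sys Q) {q : Q} {prev : Option Pt} {v : Pt} {Vis : Set Pt} {B : ℝ≥0∞}
    (h : ∀ m, S.U m q prev v Vis ≤ B) : ∑' l : List (Pt × Q),
      ind (Simple S.G v (l.map Prod.fst) Vis) * S.runW q prev v l ≤ B := by
  rw [ENNReal.tsum_eq_iSup_sum]
  refine iSup_le fun s => le_trans ?_ ((S.run_le_U (s.sup List.length + 1) q prev v Vis).trans (h _))
  refine le_trans (Finset.sum_le_sum fun l hl => ?_) (ENNReal.sum_le_tsum s)
  exact mul_le_mul' (ind_mono fun h' => ⟨Nat.lt_succ_of_le (Finset.le_sup hl), h'⟩) le_rfl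

/-- first the system `S`, then a switching step of weight `sw`, then the system `S'` -/
noncomputable def seq (S : Sys Q) (S' : Sys Q') (sw : Q → Q' → Option Pt → Pt → Pt → ℝ≥0∞)
    (t0 : Q → Option Pt → Pt → ℝ≥0∞) : Sys (Q ⊕ Q') where
  G := S.G
  W := ⟨0, 0, 0⟩
  fac := 0
  fo := 0
  om
    | .inl q, .inl r => S.om q r
    | .inl q, .inr r => sw q r
    | .inr _, .inl _ => 0
    | .inr q, .inr r => S'.om q r
  term
    | .inl q => t0 q
    | .inr q => S'.term q
  K := 0
  tb := 0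
  H := 0
  be := 0

theorem seq_inr (S : Sys Q) (S' : Sys Q') (sw : Q → Q' → Option Pt → Pt → Pt → ℝ≥0∞)
    (t0 : Q → Option Pt → Pt → ℝ≥0∞) (hG : S'.G = S.G) (m : ℕ) : ∀ q prev v Vis,
    (S.seq S' sw t0).U m (.inr q) prev v Vis = S'.U m q prev v Vis := by
  induction m with
  | zero => intros; rfl
  | succ m ih =>
    intro q prev v Vis
    simp only [U, Fintype.sum_sum_type, ih, hG]
    simp [seq]

theorem seq_inl (S : Sys Q) (S' : Sys Q') (sw : Q → Q' → Option Pt → Pt → Pt → ℝ≥0∞)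
    (t0 : Q → Option Pt → Pt → ℝ≥0∞) (hG : S'.G = S.G) (B : Q' → Pt → Pt → ℝ≥0∞)
    (hB : ∀ m r v u Vis, v ∈ Vis → S.G.Adj v u → S'.U m r (some v) u Vis ≤ B r v u)
    (ht : ∀ q prev v, t0 q prev v + ∑' u, ∑ r, ind (S.G.Adj v u) * sw q r prev v u * B r v u ≤
      S.term q prev v) (m : ℕ) : ∀ q prev v Vis,
    (S.seq S' sw t0).U m (.inl q) prev v Vis ≤ S.U m q prev v Vis := by
  induction m with
  | zero => intros; exact le_rfl
  | succ m ih =>
    intro q prev v Vis
    simp only [U, Fintype.sum_sum_type, ENNReal.tsum_add, seq_inr S S' sw t0 hG]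
    rw [add_comm (∑' _, _), ← add_assoc]
    refine add_le_add (le_trans (add_le_add le_rfl (ENNReal.tsum_le_tsum fun u =>
      Finset.sum_le_sum fun r _ => ?_)) (ht q prev v)) (ENNReal.tsum_le_tsum fun u =>
      Finset.sum_le_sum fun r _ => mul_le_mul' le_rfl (ih r _ u _))
    rw [mul_assoc, mul_assoc]
    refine ind_mul_le fun h => ?_
    rw [ind_of (A := S.G.Adj v u) h.1, one_mul]
    exact mul_le_mul' le_rfl (hB m r v u _ (Set.mem_insert _ _) h.1)

end Sys

variable {Q : Type} [Fintype Q]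

theorem LineSup.smul {W : Wt Q} {L : Ln Q} {Φ s : Q → St → ℤ → ℝ≥0∞} (h : LineSup W L Φ s)
    (c : ℝ≥0∞) : LineSup W L (fun q a x => Φ q a x * c) (fun q a x => s q a x * c) := by
  simpa using LineSup.tsum (ι := Unit) (fun _ => h) fun _ => c

theorem LineSup.zero (W : Wt Q) (L : Ln Q) : LineSup W L (fun _ _ _ => 0) fun _ _ _ => 0 := by
  intro q a x _
  simp [LOp]

theorem upS_smul (G : Grid) (W : Wt Q) (f : Q → ℤ → ℝ≥0∞) (n : ℕ) (x : ℤ)
    (Φ : Q → St → ℤ → ℝ≥0∞) (c : ℝ≥0∞) (q : Q) :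
    upS G W f n x (fun q a x => Φ q a x * c) q = upS G W f n x Φ q * c := by
  simpa using Sys.upS_tsum (ι := Unit) G W f n x (fun _ => Φ) (fun _ => c) q

theorem upS_zero (G : Grid) (W : Wt Q) (f : Q → ℤ → ℝ≥0∞) (n : ℕ) (x : ℤ) (q : Q) :
    upS G W f n x (fun _ _ _ => 0) q = 0 := by simp [upS]

/-- the steps down from a vertex: one parent, or two parents -/
theorem down_le (G : Grid) (W : Wt Q) (n : ℕ) (g : ℤ → Q → ℝ≥0∞) (q : Q) (a : St) (y : ℤ)
    (c : Option Bool → Q → ℝ≥0∞) (hc : ∀ x r, G.Ch n x y → g x r ≤ c (G.kd n x y) r) :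
    ∑' i : ℤ × Q, dsrc G W n i.1 i.2 q a y * g i.1 i.2 ≤
      ∑ k : Option Bool, ind (k.isSome ↔ Two G.A (n + 1) y) *
        ∑ r, ind (a ≠ ust k) * W.wd q r (dear a k) * c k r := by
  rw [ENNReal.tsum_prod', ← tsum_fintype (L := SummationFilter.unconditional (Option Bool))]
  have key : ∀ x, ∑' r, dsrc G W n x r q a y * g x r ≠ 0 → G.Ch n x y := fun x hx => by
    by_contra h
    exact hx (ENNReal.tsum_eq_zero.2 fun r => by
      rw [dsrc, ind_of_not fun h' => h h'.1, zero_mul, zero_mul])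
  refine tsum_le_of_enc _ _ (fun x => G.kd n x y) (fun x x' h h' e =>
    G.kd_inj (key x h) (key x' h') e) fun x hx => ?_
  have h := key x hx
  rw [ind_of, one_mul, tsum_fintype]
  · exact Finset.sum_le_sum fun r _ =>
      mul_le_mul' (mul_le_mul' (ind_mono fun h => h.2) le_rfl) (hc x r h)
  · rcases hk : G.kd n x y with _ | s
    · obtain ⟨a, b⟩ := G.kd_none h hk
      simpa using G.not_two a b
    · cases s
      · simpa using ⟨_, (G.kd_false hk).symm⟩
      · simpa using ⟨_, (G.kd_true hk).symm⟩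

end Pool.Agent.P.MP_e4ac67_pr.Gr
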