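import Pool.Agent.P.MP_e4ac67_pr.G.Iface

/-! The path problem around a tube is dominated by the two one sided problems. -/

open scoped ENNReal

namespace Pool.Agent.P.MP_e4ac67_pr.Gr

/-- a vertex on which no step lands may be marked as visited -/
theorem Sys.U_noland {Q : Type} [Fintype Q] (S : Sys Q) {b : Pt}
    (hb : ∀ q r prev w, S.om q r prev w b = 0) (m : ℕ) : ∀ q prev v Vis,
    S.U m q prev v Vis ≤ S.U m q prev v (insert b Vis) := by
  induction m with
  | zero => intros; exact le_rfl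
  | succ m ih =>
    intro q prev v Vis
    rw [Sys.U, Sys.U]
    refine add_le_add le_rfl (ENNReal.tsum_le_tsum fun u => Finset.sum_le_sum fun r _ => ?_)
    by_cases e : u = b
    · rw [e, hb, mul_zero, zero_mul]; exact zero_le
    · rw [Set.insert_comm]
      exact mul_le_mul' (mul_le_mul' (ind_mono fun h => ⟨h.1, fun h' => h'.elim e h.2⟩) le_rfl)
        (ih r _ u _)

namespace Tube
variable {G : Grid} {T : Tube G}

theorem c_free_disj {o : Bool} {v : Pt} (h : T.Free o v) : ¬T.Free (!o) v := by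
  intro h'
  have := T.ord v.1 h.1
  obtain ⟨-, h1⟩ := h
  obtain ⟨-, h2⟩ := h'
  cases o <;> simp only [sg, Bool.not_true, Bool.not_false] at h1 h2 <;> omega

theorem c_free_eq {o o' : Bool} {v : Pt} (h : T.Free o v) (h' : T.Free o' v) : o' = o := by
  cases o <;> cases o'
  · rfl
  · exact absurd h' (c_free_disj h)
  · exact absurd h' (c_free_disj h)
  · rfl

theorem Tz.c_not_free {v : Pt} (h : T.Tz v) (o : Bool) : ¬T.Free o v := by
  cases o
  exacts [h.2.2, h.2.1]

theorem Tz.c_not_hi {v : Pt} (h : T.Tz v) : ¬T.Hi v := fun h' => by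
  have := h.1; unfold Hi at h'; omega

theorem Tz.c_not_or {v : Pt} (h : T.Tz v) (o : Bool) : ¬(T.Hi v ∨ T.Free o v) :=
  fun h' => h'.elim h.c_not_hi (h.c_not_free o)

theorem c_not_tz {o : Bool} {v : Pt} (h : T.Hi v ∨ T.Free o v) : ¬T.Tz v := fun h' => h'.c_not_or o h

theorem c_region (T : Tube G) (o : Bool) (v : Pt) :
    (T.Hi v ∨ T.Free o v) ∨ T.Free (!o) v ∨ T.Tz v := by
  by_cases h1 : T.Hi v
  · exact Or.inl (Or.inl h1)
  by_cases h2 : T.Free o v
  · exact Or.inl (Or.inr h2)
  by_cases h3 : T.Free (!o) v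
  · exact Or.inr (Or.inl h3)
  refine Or.inr (Or.inr ⟨by unfold Hi at h1; omega, ?_⟩)
  cases o
  exacts [⟨h3, h2⟩, ⟨h2, h3⟩]

theorem Free.c_nr {o : Bool} {v : Pt} (h : T.Free o v) : T.Nr o v := fun e => by
  have := h.2
  rw [e, T.top] at this
  omega

theorem c_nr_disj {o : Bool} {v : Pt} (e : v.1 = T.l + 1) (h : T.Nr o v) : ¬T.Nr (!o) v := by
  intro h'
  have h1 := h e
  have h2 := h' e
  cases o <;> simp only [sg, Bool.not_true, Bool.not_false] at h1 h2 <;> omega

theorem c_free_par {o : Bool} {n : ℕ} {x y : ℤ} (hc : G.Ch n x y) (h : T.Free o (n + 1, y)) :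
    ¬T.Free (!o) (n, x) := by
  intro h'
  have a := T.ord (n + 1) h.1
  have h0 : n + 1 ≤ T.l + 1 := h.1
  have h1 := h.2
  have h2 := h'.2
  have := (T.side (!o)).par_in (n := n) (by omega) hc (by
    cases o <;> simp only [sg, Bool.not_true, Bool.not_false] at h1 ⊢ <;> omega)
  cases o <;> simp only [sg, Bool.not_true, Bool.not_false] at h2 this <;> omega

/-- the two sides are not adjacent -/
theorem c_free_adj {o : Bool} {v u : Pt} (ha : G.Adj v u) (h : T.Free o v) : ¬T.Free (!o) u := by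
  obtain ⟨n, x⟩ := v
  obtain ⟨n', y⟩ := u
  intro h'
  rcases ha with ⟨s, e⟩ | ⟨e, hc⟩ | ⟨e, hc⟩
  · obtain ⟨rfl, rfl⟩ := Prod.mk.inj e
    have a := T.ord n' h.1
    have h1 := h.2
    have h2 := h'.2
    cases o <;> cases s <;> simp only [sg, hop, Bool.not_true, Bool.not_false] at h1 h2 <;> omega
  · obtain rfl : n' = n + 1 := e
    exact c_free_par hc h' (by rwa [Bool.not_not])
  · obtain rfl : n = n' + 1 := e
    exact c_free_par hc h h'

theorem c_hi_adj {v u : Pt} (ha : G.Adj v u) (h : T.Hi v) (h' : u.1 ≤ T.l + 1) : u.1 = T.l + 1 := by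
  unfold Hi at h
  rcases ha with ⟨s, rfl⟩ | ⟨e, -⟩ | ⟨e, -⟩
  · simp only at h'; omega
  · omega
  · omega

end Tube

namespace Spec
variable {Q : Type} [NQ Q] [Fintype Q] {P : Spec Q} {G : Grid} {T : Tube G} {b1 b2 : Bool → Q → ℕ}

/-- the payoffs `b1 o`, `b2 o` bound the one sided problem `o` on the level of the centre -/
def Pay (P : Spec Q) (T : Tube G) (b1 b2 : Bool → Q → ℕ) : Prop :=
  ∀ o m r x prev Vis, 1 ≤ sg o * (T.z - x) → P.fac T o r (T.l + 1, x) *
    (P.side T o (b1 (!o)) (b2 (!o))).U m r prev (T.l + 1, x) Vis ≤ vv (bf o (b1 o) (b2 o) T.z r x)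

/-- positions from which the problem of the side `o` is used -/
def CPos (P : Spec Q) (T : Tube G) (o : Bool) (prev : Option Pt) (v : Pt) : Prop :=
  (T.Hi v ∨ T.Free o v) ∨ (T.Tz v ∧ prev ≠ none ∧ P.ws = some o ∧ T.Nr o v)

omit [NQ Q] [Fintype Q] in
theorem c_ff_le_fac {o : Bool} {prev : Option Pt} {v : Pt} (h : P.CPos T o prev v) (r : Q) :
    ff T P.lf r v ≤ P.fac T o r v := by
  unfold ff fac
  rcases h with h | h
  · rw [if_neg (Tube.c_not_tz h), if_pos h]
  · rw [if_pos h.1, if_neg (h.1.c_not_or o), ind_of ⟨h.2.2.1, h.2.2.2⟩]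

theorem cut_U (h : P.Pay T b1 b2) (m : ℕ) : ∀ o q prev v Vis,
    (∀ w, prev = some w → w ∈ Vis ∨ ¬(w.1 = T.l + 1 ∧ T.Nr (!o) w)) → P.CPos T o prev v →
    (P.sys T).U m q prev v Vis ≤ (P.side T o (b1 (!o)) (b2 (!o))).U m q prev v Vis := by
  induction m with
  | zero => intros; exact le_rfl
  | succ m ih =>
    intro o q prev v Vis hp hv
    rw [Sys.U, Sys.U]
    rcases hv with hv | ⟨h1, h2, h3, h4⟩
    swap
    · have z : (∑' u, ∑ r, ind ((P.sys T).G.Adj v u ∧ u ∉ Vis) * (P.sys T).om q r prev v u *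
          (P.sys T).U m r (some v) u (insert v Vis)) = 0 :=
        ENNReal.tsum_eq_zero.2 fun u => Finset.sum_eq_zero fun r _ => by
          simp only [sys]
          rw [ind_of_not (A := P.Go T prev v u) fun g => h2 (g.1 h1).1, zero_mul, mul_zero, zero_mul]
      rw [z, add_zero]
      refine le_trans ?_ (le_self_add.trans le_self_add)
      simp only [sys, t0]
      rw [if_pos h1, if_neg (h1.c_not_or o)]
      exact mul_le_mul' (ind_mono fun a => ⟨h3, h4, fun b => a.2 ⟨b.1, o, h3, b.2⟩⟩) le_rfl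
    have nt := Tube.c_not_tz hv
    have e0 : (P.sys T).term q prev v = P.t0 T o q v := by
      simp only [sys, t0]
      rw [if_neg nt, if_pos hv]
    have e1 : ff T P.lo q v = P.fo T o q v := by
      unfold ff fo
      rw [if_neg nt, if_pos hv]
    rw [e0]
    simp only [side]
    rw [add_assoc, ← ENNReal.tsum_add]
    refine add_le_add le_rfl (ENNReal.tsum_le_tsum fun u => ?_)
    rw [← Finset.sum_add_distrib]
    refine Finset.sum_le_sum fun r _ => ?_
    rw [mul_assoc]
    refine ind_mul_le fun ⟨ha, hu⟩ => ?_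
    have ha' : G.Adj v u := ha
    show ind (P.Go T prev v u) * _ * _ ≤ _
    rw [mul_assoc]
    refine ind_mul_le fun hg => ?_
    rw [e1]
    have hin : ∀ o', ∀ w, some v = some w → w ∈ insert v Vis ∨ ¬(w.1 = T.l + 1 ∧ T.Nr (!o') w) :=
      fun _ w e => Or.inl (by rw [← Option.some.inj e]; exact Set.mem_insert _ _)
    by_cases hc : T.Hi v ∧ u.1 = T.l + 1 ∧ T.Nr (!o) u
    · obtain ⟨c1, c2, c3⟩ := hc
      have pu : P.CPos T (!o) (some v) u := by
        rcases T.c_region (!o) u with a | a | a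
        · exact Or.inl a
        · rw [Bool.not_not] at a
          exact absurd c3 (Tube.c_nr_disj c2 a.c_nr)
        · obtain ⟨o', w1, -, w3⟩ := hg.2 a
          have : o' = !o := by
            by_contra ne
            obtain rfl : o' = o := by cases o <;> cases o' <;> simp_all
            exact Tube.c_nr_disj c2 w3 c3
          subst this
          exact Or.inr ⟨a, by simp, w1, w3⟩
      refine le_add_right ?_
      rw [ind_of ⟨ha', c1, c2, c3, fun e => (hp u e).elim hu fun a => a ⟨c2, c3⟩⟩, one_mul,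
        mul_assoc, mul_assoc, mul_assoc]
      refine mul_le_mul' le_rfl (mul_le_mul' le_rfl ?_)
      obtain ⟨n, x⟩ := u
      obtain rfl : n = T.l + 1 := c2
      exact (mul_le_mul' (c_ff_le_fac pu r) (ih (!o) r _ _ _ (hin _) pu)).trans
        (h (!o) m r x _ _ (c3 rfl))
    · have pu : P.CPos T o (some v) u := by
        rcases T.c_region o u with a | a | a
        · exact Or.inl a
        · rcases hv with b | b
          · exact absurd ⟨b, Tube.c_hi_adj ha' b a.1, a.c_nr⟩ hc
          · exact absurd a (Tube.c_free_adj ha' b)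
        · obtain ⟨o', w1, w2, w3⟩ := hg.2 a
          have : o' = o := by
            by_cases b : T.Hi v
            · by_contra ne
              obtain rfl : o' = !o := by cases o <;> cases o' <;> simp_all
              exact hc ⟨b, Tube.c_hi_adj ha' b a.1, w3⟩
            · exact Tube.c_free_eq (hv.resolve_left b) (w2.resolve_right b)
          subst this
          exact Or.inr ⟨a, by simp, w1, w3⟩
      refine le_add_left ?_
      rw [ind_of ⟨ha', hu⟩, one_mul]
      exact mul_le_mul' (mul_le_mul' le_rfl (mul_le_mul' le_rfl (c_ff_le_fac pu r)))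
        (ih o r _ _ _ (hin _) pu)

theorem cut_paths (h : P.Pay T b1 b2) {o : Bool} {q : Q} {prev : Option Pt} {v : Pt} {Vis : Set Pt}
    (hv : T.Hi v ∨ T.Free o v) (hp : ∀ w, prev = some w → w ∈ Vis) {B : ℝ≥0∞}
    (hB : ∀ m, (P.side T o (b1 (!o)) (b2 (!o))).U m q prev v Vis ≤ B) :
    P.paths T q prev v Vis ≤ B :=
  (P.sys T).run_le fun m =>
    (cut_U h m o q prev v Vis (fun w e => Or.inl (hp w e)) (Or.inl hv)).trans (hB m)

omit [NQ Q] [Fintype Q] in
theorem c_term_none {q : Q} {v : Pt} (hv : T.Tz v) : (P.sys T).term q none v = 0 := by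
  simp only [sys]
  rw [if_pos hv, ind_of_not fun a => a.1 rfl, zero_mul]

theorem loops_le_U (h : P.Pay T b1 b2) (hw : P.ws ≠ some P.so) {q : Q} {v : Pt} (hv : T.Tz v)
    (hn : T.Nr P.so v) (m : ℕ) : ∑' L : List (Pt × Q), ind (L.length < m + 1 ∧
      (v :: L.map Prod.fst).IsChain G.Adj ∧ (L.map Prod.fst).Nodup) * (P.sys T).runW q none v L ≤
      (P.side T P.so (b1 (!P.so)) (b2 (!P.so))).U (m + 1) q none v ∅ := by
  rw [tsum_list, Sys.U, ENNReal.tsum_prod', Sys.runW, c_term_none hv, mul_zero, zero_add]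
  refine le_add_left (ENNReal.tsum_le_tsum fun u => ?_)
  rw [tsum_fintype]
  refine Finset.sum_le_sum fun r _ => ?_
  by_cases hg : G.Adj v u ∧ P.Go T none v u
  swap
  · refine le_trans (le_of_eq (ENNReal.tsum_eq_zero.2 fun l => ?_)) zero_le
    by_cases ha : G.Adj v u
    · rw [Sys.runW]
      simp only [sys]
      rw [ind_of_not (A := P.Go T none v u) fun g => hg ⟨ha, g⟩, zero_mul, zero_mul, mul_zero]
    · rw [ind_of_not, zero_mul]
      rintro ⟨-, h2, -⟩
      rw [List.map_cons, List.isChain_cons_cons] at h2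
      exact ha h2.1
  obtain ⟨ha, hg⟩ := hg
  have pu : P.CPos T P.so (some v) u := Or.inl (hg.1 hv).2.symm
  have e1 : (P.sys T).om q r none v u ≤ (P.side T P.so (b1 (!P.so)) (b2 (!P.so))).om q r none v u := by
    refine ind_mul_le fun _ => mul_le_mul' (le_of_eq ?_) (mul_le_mul' le_rfl (c_ff_le_fac pu r))
    unfold ff fo
    rw [if_pos hv, if_neg (hv.c_not_or _), ind_of hw]
  have e2 := ((P.sys T).run_le_U m r (some v) u ∅).trans ((cut_U h m P.so r (some v) u ∅
    (fun w e => Or.inr fun a => Tube.c_nr_disj a.1 (Option.some.inj e ▸ hn) a.2) pu).trans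
    (Sys.U_noland _ (b := v) (fun q r prev w => by
      simp only [side, fac]
      rw [if_neg (hv.c_not_or _), ind_of_not fun a => hw a.1, mul_zero, mul_zero]) m r (some v) u ∅))
  rw [ind_of ⟨ha, Set.notMem_empty u⟩, one_mul]
  refine le_trans ?_ (mul_le_mul' e1 e2)
  rw [← ENNReal.tsum_mul_left]
  refine ENNReal.tsum_le_tsum fun l => ind_mul_le ?_
  rintro ⟨h1, h2, h3⟩
  rw [List.map_cons, List.isChain_cons_cons] at h2
  rw [ind_of ⟨by simpa using h1, h2.2, h3, fun w _ => Set.notMem_empty w⟩, one_mul]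
  exact le_rfl

theorem cut_loops (h : P.Pay T b1 b2) (hw : P.ws ≠ some P.so) {q : Q} {v : Pt} (hv : T.Tz v)
    (hn : T.Nr P.so v) {B : ℝ≥0∞}
    (hB : ∀ m, (P.side T P.so (b1 (!P.so)) (b2 (!P.so))).U m q none v ∅ ≤ B) :
    P.loops T q v ≤ B := by
  rw [loops, ENNReal.tsum_eq_iSup_sum]
  refine iSup_le fun s => le_trans ?_ ((loops_le_U h hw hv hn (s.sup List.length)).trans (hB _))
  refine le_trans (Finset.sum_le_sum fun l hl => ?_) (ENNReal.sum_le_tsum s)
  exact mul_le_mul' (ind_mono fun h' => ⟨Nat.lt_succ_of_le (Finset.le_sup hl), h'⟩) le_rfl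

omit [NQ Q] [Fintype Q] in
theorem loops_zero {q : Q} {n : ℕ} {x : ℤ} (hv : T.Tz (n, x)) (hn : n ≤ T.l)
    (h1 : x ≠ T.r P.so n) (h2 : ¬(wof (T.st P.so n) = 1 ∧ x = out P.so (T.r P.so n) 1)) :
    P.loops T q (n, x) = 0 := by
  have a : 1 ≤ sg P.so * (x - T.r P.so n) := by
    have b := hv.c_not_free P.so
    have c := wof_le (T.st P.so n)
    simp only [Tube.Free, not_and, not_le] at b
    replace b := b (by omega)
    revert h1 h2 b c
    cases P.so <;> simp only [sg, out] <;> omega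
  have key : ∀ u, G.Adj (n, x) u → ¬(T.Free P.so u ∨ T.Hi u) := by
    rintro ⟨n', y⟩ ha hu
    have inn : n' ≤ T.l + 1 ∧ 0 ≤ sg P.so * (y - T.r P.so n') := by
      rcases ha with ⟨s, e⟩ | ⟨e, hc⟩ | ⟨e, hc⟩
      · obtain ⟨rfl, rfl⟩ := Prod.mk.inj e
        refine ⟨by omega, ?_⟩
        revert a
        cases P.so <;> cases s <;> simp only [sg, hop] <;> omega
      · obtain rfl : n' = n + 1 := e
        exact ⟨by omega, (T.side P.so).ch_in (by omega) hc a⟩
      · obtain rfl : n = n' + 1 := e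
        exact ⟨by omega, (T.side P.so).par_in (by omega) hc (le_trans zero_le_one a)⟩
    rcases hu with hu | hu
    · have := hu.2
      have i2 := inn.2
      revert this i2
      cases P.so <;> simp only [sg] <;> omega
    · have := inn.1
      simp only [Tube.Hi] at hu
      omega
  refine ENNReal.tsum_eq_zero.2 fun L => ?_
  rcases L with _ | ⟨u, l⟩
  · rw [Sys.runW, c_term_none hv, mul_zero]
  by_cases ha : G.Adj (n, x) u.1
  · rw [Sys.runW]
    simp only [sys]
    rw [ind_of_not (A := P.Go T none (n, x) u.1) fun g => key _ ha (g.1 hv).2, zero_mul, zero_mul,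
      mul_zero]
  · rw [ind_of_not, zero_mul]
    rintro ⟨h3, -⟩
    rw [List.map_cons, List.isChain_cons_cons] at h3
    exact ha h3.1

end Spec
end Pool.Agent.P.MP_e4ac67_pr.Gr
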