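import Pool.Agent.P.MP_e4ac67_pr.G.Top0
import Pool.Agent.P.MP_e4ac67_pr.G.Cut

/-! From checked certificates to the sums `Spec.Starts` and `Spec.Link`. -/

open scoped ENNReal

namespace Pool.Agent.P.MP_e4ac67_pr.Gr

variable {Q : Type} [DecidableEq Q] [NQ Q]

/-- the excursion kernels of `w` are certified -/
def NW.KOK (w : NW Q) : Prop := ∃ (wd rl : ℕ) (raw : Q → Q → ℕ → ℕ → ℕ), ∀ r, chkK w r wd rl (raw r) = true

namespace TCert
variable (C : TCert Q) (P : Spec Q) (A : ACert Q) (R : RCert Q)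

def zf (s : ℕ) : Bool := P.no1 && Nat.beq (wof s) 0

/-- the connection with the levels below -/
def chkB (o : Bool) (s : ℕ) : Bool :=
  allR (fun lo => !okT s lo || (A.chkC (C.T0 P o s false) lo (12 - room s) (C.ka o s lo) &&
    allQ fun q => Nat.ble (sumQ (fun i => A.gam lo i q * C.ka o s lo i) +
        cond (P.ab o) (R.gsT (zf P s) lo q * NN) 0) (C.gg o s q * NN) &&
      Nat.ble (cond (P.ab o) (R.gaT (zf P s) lo q) 0) (C.pa o s q))) 6 &&
    (!P.ab o || allQ fun q => Nat.ble (P.pw q) (R.pw q))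

def chkS (o : Bool) (s : ℕ) : Bool := C.chk1 P o && C.chk0 P o s && C.chkB P A R o s

/-- both sides; `sl`, `sr` are the top states on the left and on the right -/
def chk (sl sr : ℕ) : Bool := P.chkL && C.chkS P A R true sl && C.chkS P A R false sr

/-- `s` is the top state on the side `P.so` -/
def chkSt (s : ℕ) (q : Q) (Y : ℕ → Bool × Q → ℕ) (c0 tl a b : ℕ) : Bool :=
  !P.ab P.so && allR (fun lo => !okT s lo ||
    ((Nat.beq (wof s) 0 || Nat.ble (((C.T0 P P.so s true).val q 12 +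
        (C.T1 P P.so false).uM q false 11) * NN + sumQ fun j => A.dst P.w q lo j * C.ka P.so s lo j)
        (a * NN)) &&
      Nat.ble (A.tot P.w q tl Y c0 NN 0 (C.T0 P P.so s false) 12 s lo (C.ka P.so s lo))
        (b * NN ^ 3))) 6

/-- `s` is the top state on the side `o` -/
def chkLk (o : Bool) (s i : ℕ) (q : Q) (a : ℕ) : Bool :=
  cond (Nat.beq i 1) (Nat.beq (wof s) 0 && Nat.ble ((C.T0 P o s true).val q 11) a)
    (Nat.ble 2 i && Nat.ble i (C.g + 6) && (C.ex || C.an o) && (C.T1 P o true).chk P.w &&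
      Nat.ble ((C.T1 P o true).val q (9 + i)) a)

variable [Fintype Q] {G : Grid} (T : Tube G)

/-- everything is certified for the tube `T` -/
structure All : Prop where
  ker : P.w.KOK
  hA : A.OK P.w
  hR : P.ws ≠ none → R.OK P.w
  gap : C.Gap T
  chk : C.chk P A R (T.st true (T.l + 1)) (T.st false (T.l + 1)) = true

/-- `F` bounds the values below the level of the centre on the side `o` -/
def Low (o : Bool) (F : ℕ → Fn Q) : Prop :=
  (∃ H, (C.sd P o T).Bot (T.l + 1) ((C.sd P o T).beta T.l fun q a x =>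
    C.W0 P o T false q a x + C.sg0 P o T (fun _ _ _ => 0) q a x) (C.sd P o T).tb H F) ∧
  (∀ q, P.fac T o q (T.l, T.r o T.l) * F T.l q .C0 (T.r o T.l) ≤
    vv (C.pa o (T.st o (T.l + 1)) q)) ∧
  ∀ q x, 1 ≤ sg o * (T.r o T.l - x) → P.fac T o q (T.l, x) * F T.l q .C0 x ≤
    vv (C.gg o (T.st o (T.l + 1)) q)

end TCert
end Pool.Agent.P.MP_e4ac67_pr.Gr
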