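import Pool.Agent.P.MP_e4ac67_pr.G.FinL

/-! The one sided problems are bounded by the tables; payoffs and links. -/

open scoped ENNReal

namespace Pool.Agent.P.MP_e4ac67_pr.Gr
namespace TCert
variable {Q : Type} [DecidableEq Q] [NQ Q] [Fintype Q] {G : Grid} {T : Tube G} {C : TCert Q}
  {P : Spec Q} {A : ACert Q} {R : RCert Q}

omit [Fintype Q] in
theorem All.c_parts (h : C.All P A R T) (o : Bool) : P.chkL = true ∧ C.chk1 P o = true ∧
    C.chk0 P o (T.st o (T.l + 1)) = true := by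
  have := h.chk
  simp only [TCert.chk, chkS, Bool.and_eq_true] at this
  cases o
  exacts [⟨this.1.1, this.2.1.1, this.2.1.2⟩, ⟨this.1.1, this.1.2.1.1, this.1.2.1.2⟩]

omit [DecidableEq Q] in
theorem c_tb (o : Bool) (q : Q) (a : St) {n : ℕ} (x : ℤ) (hn : T.l + 3 ≤ n) :
    (C.sd P o T).tb q a (n, x) = 0 := by
  simp only [sd, Spec.side, Spec.t0]
  rw [if_pos (Or.inl (by simp only [Tube.Hi]; omega)), T.lk_low _ _ _ (by omega) (by omega),
    ind_of_not (by omega), zero_mul, add_zero, vv, vk_zero]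

omit [DecidableEq Q] in
theorem c_dead (o : Bool) (F : Fn Q) (hw : P.ws = some o) (q : Q) (a : St) (x : ℤ)
    (hx : 12 ≤ i0 o T x) : (C.sd P o T).dn (T.l + 1) F q a x = 0 := by
  have : (C.sd P o T).fo q (T.l + 1, x) = 0 := by
    show P.fo T o q (T.l + 1, x) = 0
    rw [Spec.fo, if_neg fun h' => absurd ((T.free_iff o le_rfl 12 x).1 h') (not_lt.2 hx),
      ind_of_not (not_not.2 hw)]
  simp only [Sys.dn, this, zero_mul, tsum_zero]

omit [DecidableEq Q] in
theorem c_s1 {o : Bool} (h1 : C.chk1 P o = true) (hg : C.Gap T) :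
    LineSup (C.sd P o T).W ((C.sd P o T).line (T.l + 1 + 1)) (C.V1 P o T false)
      fun q a y => (C.sd P o T).tb q a (T.l + 1 + 1, y) + (C.sd P o T).fo q (T.l + 1 + 1, y) *
        (C.sd P o T).beta (T.l + 1 + 1) (fun _ _ _ => 0) q y :=
  (sup1 h1 hg (all1 h1).2.1 (X := fun _ _ _ => 0) fun _ _ _ => zero_le).src_mono fun q a y _ => by
    rw [Sys.beta_zero, mul_zero]
    exact le_rfl

omit [DecidableEq Q] in
theorem c_s0 {o : Bool} (h1 : C.chk1 P o = true) (hg : C.Gap T)
    (h0 : C.chk0 P o (T.st o (T.l + 1)) = true) :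
    LineSup (C.sd P o T).W ((C.sd P o T).line (T.l + 1))
      (fun q a x => C.W0 P o T false q a x + C.sg0 P o T (fun _ _ _ => 0) q a x)
      fun q a y => (C.sd P o T).tb q a (T.l + 1, y) + (C.sd P o T).fo q (T.l + 1, y) *
        (C.sd P o T).beta (T.l + 1) (C.V1 P o T false) q y :=
  (sup0 h1 hg h0 false (fun _ _ _ _ _ => rfl) fun _ _ _ _ => zero_le).src_mono
    fun _ _ _ _ => le_self_add

omit [DecidableEq Q] in
theorem c_f0 {o : Bool} (h1 : C.chk1 P o = true) (hg : C.Gap T)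
    (h0 : C.chk0 P o (T.st o (T.l + 1)) = true) {F : ℕ → Fn Q} (hF : C.Low P T o F) :
    LineSup (C.sd P o T).W ((C.sd P o T).line (T.l + 1))
      (fun q a x => C.W0 P o T true q a x + C.sg0 P o T ((C.sd P o T).dn (T.l + 1) (F T.l)) q a x)
      fun q a y => (C.sd P o T).tb q a (T.l + 1, y) + (C.sd P o T).fo q (T.l + 1, y) *
        (C.sd P o T).beta (T.l + 1) (C.V1 P o T false) q y +
          (C.sd P o T).dn (T.l + 1) (F T.l) q a y := by
  refine sup0 h1 hg h0 true (c_dead o _) fun q a x hx => ?_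
  have := Side.dn_AB (S := C.sd P o T) (T.side o) (w := P.w) rfl (J := 12) (Nat.lt_succ_self _)
    (F T.l) hF.2.1 hF.2.2 (C.T0 P o (T.st o (T.l + 1)) true) (by omega) (by simp [T0, ltab]) q a hx
  rw [show (C.T0 P o (T.st o (T.l + 1)) true).cl (idx (anc o (T.r o (T.l + 1))
    (T.st o (T.l + 1)) 12) o x) = cw 8 (i0 o T x) from rfl] at this
  rw [dn0, cond_true]
  exact this

omit [DecidableEq Q] in
theorem c_f1 {o : Bool} (h1 : C.chk1 P o = true) (hg : C.Gap T)
    (h0 : C.chk0 P o (T.st o (T.l + 1)) = true) (F : Fn Q) (hc : (C.T1 P o true).chk P.w = true) :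
    LineSup (C.sd P o T).W ((C.sd P o T).line (T.l + 1 + 1)) (C.V1 P o T true)
      fun q a y => (C.sd P o T).tb q a (T.l + 1 + 1, y) + (C.sd P o T).fo q (T.l + 1 + 1, y) *
        (C.sd P o T).beta (T.l + 1 + 1) (fun _ _ _ => 0) q y + (C.sd P o T).dn (T.l + 1 + 1)
          (fun q a x => C.W0 P o T true q a x +
            C.sg0 P o T ((C.sd P o T).dn (T.l + 1) F) q a x) q a y := by
  refine (sup1 h1 hg hc (X := (C.sd P o T).dn (T.l + 1 + 1) fun q a x =>
    C.W0 P o T true q a x + C.sg0 P o T ((C.sd P o T).dn (T.l + 1) F) q a x)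
    fun q a y => ?_).src_mono fun q a y _ => ?_
  · rw [Sys.dn, cond_true]
    simp only [mul_assoc, ENNReal.tsum_mul_left]
    exact mul_le_mul' le_rfl (Spec.dnS_le T P.w o (fun x r => P.fac T o r (T.l + 1, x) *
      (C.W0 P o T true r .C0 x + C.sg0 P o T ((C.sd P o T).dn (T.l + 1) F) r .C0 x))
      (fun x r => pay0 h1 hg h0 (c_dead o _) r x) q a y)
  · rw [Sys.beta_zero, mul_zero, add_zero]
    exact le_rfl

theorem All.core (h : C.All P A R T) {o : Bool} {F : ℕ → Fn Q} (hF : C.Low P T o F) (m : ℕ) (q : Q)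
    (x : ℤ) (prev : Option Pt) (Vis : Set Pt) :
    (∀ n ≤ T.l, (C.sd P o T).U m q prev (n, x) Vis ≤ F n q .C0 x) ∧
    (C.sd P o T).U m q prev (T.l + 1, x) Vis ≤ C.W0 P o T true q .C0 x +
      C.sg0 P o T ((C.sd P o T).dn (T.l + 1) (F T.l)) q .C0 x ∧
    ((C.T1 P o true).chk P.w = true →
      (C.sd P o T).U m q prev (T.l + 2, x) Vis ≤ C.V1 P o T true q .C0 x) := by
  obtain ⟨hL, h1, h0⟩ := h.c_parts o
  obtain ⟨H, hb⟩ := hF.1
  obtain ⟨wd, rl, raw, hk⟩ := h.ker
  have st : Std (C.sd P o T) P.w := Spec.std hL T o _ _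
  have hs : (C.sd P o T).Steps := by
    rw [Spec.chkL, Bool.and_eq_true] at hL
    exact Spec.steps hL.1
  have hK : (C.sd P o T).Ker := (C.sd P o T).ker_ok st.hW st.hK st.hf st.hfo hk
  have key := fun F1 f1 => Sys.top (l := T.l + 1) (F1 := F1) hs hK hb
    (fun q a n x hn => c_tb o q a x (by omega))
    ((LineSup.zero _ _).src_mono fun q a x _ => (c_tb o q a x (by omega)).le) (c_s1 h1 h.gap)
    (c_s0 h1 h.gap h0) (c_f0 h1 h.gap h0 hF) f1
    (m := m) (q := q) (a := .C0) (x := x) (prev := prev) (Vis := Vis)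
  have k1 := key (fun _ _ _ => ⊤) fun _ _ _ _ => le_top
  exact ⟨fun n hn => k1.1 n (by omega) trivial, k1.2.1 trivial,
    fun hc => (key _ (c_f1 h1 h.gap h0 _ hc)).2.2 trivial⟩

theorem All.c_low (h : C.All P A R T) (o : Bool) : ∃ F, C.Low P T o F := by
  by_cases hw : P.ws = some o
  · exact h.low_ab hw
  · obtain ⟨k, -, -, hk⟩ := h.low_na hw
    exact ⟨_, hk⟩

theorem All.pay (h : C.All P A R T) : P.Pay T C.b1 C.b2 := by
  intro o m r x prev Vis _
  obtain ⟨F, hF⟩ := h.c_low o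
  obtain ⟨-, h1, h0⟩ := h.c_parts o
  exact (mul_le_mul' le_rfl (h.core hF m r x prev Vis).2.1).trans
    ((pay0 h1 h.gap h0 (c_dead o _) r x).trans (ind_mul_le fun _ => le_rfl))

theorem All.link (h : C.All P A R T) {o : Bool} {i : ℕ} {q : Q} {a : ℕ}
    (hl : C.chkLk P o (T.st o (T.l + 1)) i q a = true) : P.Link T o i q a := by
  intro prev Vis hp
  obtain ⟨F, hF⟩ := h.c_low o
  unfold chkLk at hl
  unfold Spec.nbr
  split_ifs with hi
  · subst hi
    rw [Nat.beq_refl, cond_true, Bool.and_eq_true, Nat.beq_eq, Nat.ble_eq] at hl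
    have e : i0 o T (out o T.z 1) = (11 : ℕ) := by
      rw [i0_eq, hl.1]; cases o <;> simp [out, sg]
    refine Spec.cut_paths h.pay (o := o) ((T.free_iff o le_rfl 12 _).2 (by
      show i0 o T _ < _
      rw [e]; norm_num)) hp fun m => (h.core hF m q _ prev Vis).2.1.trans ?_
    rw [sg0, ind_of_not (by rw [e]; norm_num), zero_mul, add_zero]
    exact (val_le G _ _ o _ q e (by omega) (by simp [T0, ltab])).trans (vv_mono hl.2)
  · rw [show Nat.beq i 1 = false from Bool.eq_false_iff.2 fun e => hi (Nat.eq_of_beq_eq_true e),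
      cond_false] at hl
    simp only [Bool.and_eq_true, Bool.or_eq_true, Nat.ble_eq] at hl
    obtain ⟨⟨⟨⟨l1, l2⟩, l3⟩, l4⟩, l5⟩ := hl
    have e : idx (C.al o T) o (G.fst (T.l + 1) T.z o + sg o * (i - 2)) = (9 + i : ℕ) := by
      rw [(idx_al _).1]
      have : (if C.an o = true then 0 else (C.g : ℤ) - T.g) = 0 := by
        split_ifs with e
        · rfl
        · rw [h.gap.2 (l3.resolve_right e), sub_self]
      rw [this]
      cases o <;> simp only [sg] <;> omega
    refine Spec.cut_paths h.pay (o := o) (Or.inl (by simp [Tube.Hi])) hp fun m =>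
      ((h.core hF m q _ prev Vis).2.2 l4).trans ?_
    exact (val_le G _ _ o _ q e (by omega) (by simp only [T1]; omega)).trans (vv_mono l5)

end TCert
end Pool.Agent.P.MP_e4ac67_pr.Gr
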