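import Pool.Agent.P.MP_e4ac67_pr.G.Fin

/-! The levels below the centre of the tube. -/

open scoped ENNReal

namespace Pool.Agent.P.MP_e4ac67_pr.Gr
namespace TCert
variable {Q : Type} [DecidableEq Q] [NQ Q] [Fintype Q] {G : Grid} {T : Tube G} {C : TCert Q}
  {P : Spec Q} {A : ACert Q} {R : RCert Q}

omit [Fintype Q] in
theorem All.l_parts (h : C.All P A R T) (o : Bool) : P.chkL = true ∧ C.chk1 P o = true ∧
    C.chk0 P o (T.st o (T.l + 1)) = true ∧
    A.chkC (C.T0 P o (T.st o (T.l + 1)) false) (T.st o T.l) (12 - room (T.st o (T.l + 1)))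
      (C.ka o (T.st o (T.l + 1)) (T.st o T.l)) = true ∧
    (∀ q, sumQ (fun i => A.gam (T.st o T.l) i q * C.ka o (T.st o (T.l + 1)) (T.st o T.l) i) +
        cond (P.ab o) (R.gsT (zf P (T.st o (T.l + 1))) (T.st o T.l) q * NN) 0 ≤
        C.gg o (T.st o (T.l + 1)) q * NN ∧
      cond (P.ab o) (R.gaT (zf P (T.st o (T.l + 1))) (T.st o T.l) q) 0 ≤
        C.pa o (T.st o (T.l + 1)) q) ∧
    (P.ab o = true → ∀ q, P.pw q ≤ R.pw q) := by
  have a := h.chk
  rw [TCert.chk, Bool.and_eq_true, Bool.and_eq_true] at a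
  have b : C.chkS P A R o (T.st o (T.l + 1)) = true := by
    cases o
    exacts [a.2, a.1.2]
  rw [chkS, Bool.and_eq_true, Bool.and_eq_true, chkB, Bool.and_eq_true] at b
  have ok := (T.side o).ok T.l (Nat.lt_succ_self _)
  have c := allR_spec b.2.1 (okT_lt ok)
  rw [ok, Bool.not_true, Bool.false_or, Bool.and_eq_true] at c
  refine ⟨a.1.1, b.1.1, b.1.2, c.1, fun q => ?_, fun e q => ?_⟩
  · simpa only [Bool.and_eq_true, Nat.ble_eq] using allQ_spec c.2 q
  · have d := b.2.2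
    rw [e, Bool.not_true, Bool.false_or] at d
    exact Nat.le_of_ble_eq_true (allQ_spec d q)

theorem All.l_up (h : C.All P A R T) (o : Bool) (q : Q) (x : ℤ)
    (hx : idx (anc o (T.r o T.l) (T.st o T.l) 11) o x < 11) :
    (C.sd P o T).beta T.l (C.W0 P o T false) q x ≤ ∑ i, A.ref.ext (A.bas i q)
      (idx (anc o (T.r o T.l) (T.st o T.l) 11) o x) *
        vv (C.ka o (T.st o (T.l + 1)) (T.st o T.l) i) := by
  obtain ⟨-, a1, a0, a2, -⟩ := h.l_parts o
  simp only [chk0, Bool.and_eq_true] at a0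
  exact ACert.up_comb (T.side o) (Nat.le_succ _) (cov0 a1 h.gap false) a0.1.1.1.1.1.2 a0.1.1.1.1.2
    (Nat.sub_le _ _) ((T.side o).apex (Nat.lt_succ_self _) 12) a2 hx q

theorem l_beta (o : Bool) (q : Q) (x : ℤ) : (C.sd P o T).beta T.l (fun q a x =>
    C.W0 P o T false q a x + C.sg0 P o T (fun _ _ _ => 0) q a x) q x ≤
    (C.sd P o T).beta T.l (C.W0 P o T false) q x :=
  (C.sd P o T).beta_mono _ (fun r a y => by
    rw [mul_add]
    exact (congrArg _ (dead0 (fun _ _ _ _ _ => rfl) r a y)).trans_le (add_zero _).le) q x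

theorem l_tb (o : Bool) (q : Q) (a : St) {n : ℕ} (x : ℤ) (hn : n < T.l + 1) :
    (C.sd P o T).tb q a (n, x) ≤ ind (¬(T.Hi (n, x) ∨ T.Free o (n, x)) ∧ P.ws = some o ∧
      ¬(P.no1 = true ∧ (n, x) = T.Y o)) * vv (P.pw q) := by
  simp only [sd, Spec.side]
  rw [ind_of_not (A := n = T.l + 2) (by omega), zero_mul, add_zero, Spec.t0]
  split_ifs with e
  · rw [T.lk_low _ _ _ (by omega) (by omega), vv, vk_zero]; exact zero_le
  · exact mul_le_mul_left (ind_mono fun c => ⟨e, c.1, c.2.2⟩) _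

omit [DecidableEq Q] in
theorem l_sum (f g : Bool × Q → ℕ) : ∑ i, vv (f i) * vv (g i) = vk 2 (sumQ fun i => f i * g i) := by
  rw [vk_sumQ]
  exact Finset.sum_congr rfl fun _ _ => vv_mul ..

theorem All.low_na (h : C.All P A R T) {o : Bool} (hw : P.ws ≠ some o) :
    ∃ k, A.Hyp P.w (C.sd P o T) (T.l + 1) o (T.r o) (T.st o) k ∧
      (∀ i, k T.l i = vv (C.ka o (T.st o (T.l + 1)) (T.st o T.l) i)) ∧
      C.Low P T o fun n q a x => A.F0 P.w (C.sd P o T) o (T.r o) (T.st o) k n q a x +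
        A.sig P.w (C.sd P o T) (T.l + 1) o (T.r o) (T.st o) k
          ((C.sd P o T).beta T.l (C.W0 P o T false)) n q a x := by
  obtain ⟨a0, -, -, -, a3, -⟩ := h.l_parts o
  obtain ⟨k, k1, k2⟩ := A.exists_k (T.l + 1) (T.st o)
    fun i => vv (C.ka o (T.st o (T.l + 1)) (T.st o T.l) i)
  rw [Nat.add_sub_cancel] at k1
  have H : A.Hyp P.w (C.sd P o T) (T.l + 1) o (T.r o) (T.st o) k :=
    ⟨Spec.std a0 T o _ _, T.side o, h.hA, fun n hn q y e => by
      show P.fac T o q (n, y) = 0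
      rw [Spec.fac, if_neg fun c => absurd ((T.free_iff o hn.le 11 y).1 c) (not_lt.2 e),
        ind_of_not fun c => hw c.1], k2⟩
  refine ⟨k, H, congrFun k1, ⟨_, (H.bot fun q x hx => ?_).mono
    (fun q x => mul_le_mul_right (l_beta o q x) _) fun q a n x hn => ?_⟩, fun q => ?_,
    fun q x _ => ?_⟩
  · rw [Nat.add_sub_cancel, k1]
    exact h.l_up o q x hx
  · refine (l_tb o q a x hn).trans ?_
    rw [ind_of_not fun c => hw c.2.1, zero_mul]
  · exact (mul_le_mul_left (H.anc_dead (Nat.lt_succ_self _) q).le _).trans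
      ((zero_mul _).trans_le zero_le)
  · rw [mul_add]
    refine (add_le_add (H.sup (Nat.lt_succ_self _) q x)
      (H.dead (Nat.lt_succ_self _) q .C0 x).le).trans ?_
    rw [add_zero, k1, l_sum, vv, ← vk_NN 1]
    exact vk_mono 2 (le_self_add.trans (a3 q).1)

theorem All.low_ab (h : C.All P A R T) {o : Bool} (hw : P.ws = some o) : ∃ F, C.Low P T o F := by
  obtain ⟨a0, -, -, -, a3, a4⟩ := h.l_parts o
  have ab : P.ab o = true := decide_eq_true hw
  simp only [ab, cond_true] at a3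
  obtain ⟨k, k1, k2⟩ := A.exists_k (T.l + 1) (T.st o)
    fun i => vv (C.ka o (T.st o (T.l + 1)) (T.st o T.l) i)
  rw [Nat.add_sub_cancel] at k1
  have st : Std (C.sd P o T) P.w := Spec.std a0 T o _ _
  have ok := h.hR (by rw [hw]; simp)
  have H : A.Hyp P.w ((C.sd P o T).kill (T.Free o)) (T.l + 1) o (T.r o) (T.st o) k :=
    ⟨st.kill _, T.side o, h.hA, fun n hn q y e => by
      show ind (T.Free o (n, y)) * _ = 0
      rw [ind_of_not fun c => absurd ((T.free_iff o hn.le 11 y).1 (Or.inr c)) (not_lt.2 e),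
        zero_mul], k2⟩
  have f0 : ∀ n q x, ¬(T.Hi (n, x) ∨ T.Free o (n, x)) → (C.sd P o T).fo q (n, x) = 0 :=
    fun n q x e => by
      show P.fo T o q (n, x) = 0
      rw [Spec.fo, if_neg e, ind_of_not (not_not.2 hw)]
  have B1 := (H.bot (b := (C.sd P o T).beta T.l (C.W0 P o T false)) fun q x hx => by
    rw [Nat.add_sub_cancel, k1]
    exact h.l_up o q x hx).mask fun n hn q x e => f0 n q x fun c =>
      c.elim (fun c => by simp only [Tube.Hi] at c; omega) e
  have B2 := RCert.bot (z := zf P (T.st o (T.l + 1))) (t := (C.sd P o T).tb) st (T.side o) ok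
    (fun n hn q x e => f0 n q x fun c => absurd ((T.free_iff o hn.le 11 x).1 c) (not_lt.2 e))
    fun n hn q a x => (l_tb o q a x hn).trans (mul_le_mul' (ind_mono fun c =>
      ⟨not_lt.1 fun e => c.1 ((T.free_iff o hn.le 11 x).2 e), fun e => by
        obtain ⟨e1, e2, rfl⟩ := e
        obtain rfl : n = T.l := by omega
        rw [zf, Bool.and_eq_true, Nat.beq_eq] at e1
        exact c.2.2 ⟨e1.1, by rw [Tube.Y, if_neg (by omega)]⟩⟩) (vv_mono (a4 ab q)))
  have tp := RCert.top (z := zf P (T.st o (T.l + 1))) st (T.side o) ok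
  refine ⟨_, ⟨_, (B1.add B2).mono (fun q x => mul_le_mul_right ((l_beta o q x).trans le_self_add) _)
    fun _ _ _ _ _ => le_add_self⟩, fun q => ?_, fun q x hx => ?_⟩
  · rw [ind_of_not fun c => by have := c.2; simp only [sub_self, mul_zero] at this; omega,
      zero_mul, zero_add]
    exact (tp q).1.trans (vv_mono (a3 q).2)
  · rw [mul_add, mul_left_comm, ← mul_assoc, mul_add]
    refine (add_le_add (add_le_add (H.sup (Nat.lt_succ_self _) q x)
      (H.dead (Nat.lt_succ_self _) q .C0 x).le) ((tp q).2 x hx)).trans ?_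
    rw [add_zero, k1, l_sum, vv, vv, ← vk_NN 1, ← vk_NN 1, vk_add]
    exact vk_mono 2 (a3 q).1

end TCert
end Pool.Agent.P.MP_e4ac67_pr.Gr
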