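import Pool.Agent.P.MP_e4ac67_pr.G.Fin

/-! The paths that start on the tube are bounded by the certificate. -/

open scoped ENNReal

namespace Pool.Agent.P.MP_e4ac67_pr.Gr
namespace TCert
variable {Q : Type} [DecidableEq Q] [NQ Q] [Fintype Q] {G : Grid} {T : Tube G} {C : TCert Q}
  {P : Spec Q} {A : ACert Q} {R : RCert Q}

omit [Fintype Q] in
theorem All.chkT (h : C.All P A R T) (o : Bool) :
    C.chk1 P o = true ∧ C.chk0 P o (T.st o (T.l + 1)) = true := by
  have := h.chk
  simp only [TCert.chk, chkS, Bool.and_eq_true] at this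
  cases o
  exacts [this.2.1, this.1.2.1]

omit [DecidableEq Q] [NQ Q] [Fintype Q] in
/-- the sum over the tube has at most two terms per level -/
theorem low_le (P : Spec Q) (T : Tube G) (q : Q) (ch : Pt → ℝ≥0∞) (v : ℕ → ℤ → ℝ≥0∞)
    (hv : ∀ n ≤ T.l, ∀ x, T.Tz (n, x) → P.loops T q (n, x) ≤ v n x) :
    P.low T q ch ≤ ∑ n ∈ Finset.range (T.l + 1), (ch (n, T.r P.so n) * v n (T.r P.so n) +
      wof (T.st P.so n) * (ch (n, out P.so (T.r P.so n) 1) * v n (out P.so (T.r P.so n) 1))) := by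
  rw [Spec.low, ENNReal.tsum_prod', tsum_eq_sum (s := Finset.range (T.l + 1)) fun n hn =>
    ENNReal.tsum_eq_zero.2 fun x => by
      rw [ind_of_not fun a => hn (Finset.mem_range.2 (Nat.lt_succ_of_le a.2)), zero_mul]]
  refine Finset.sum_le_sum fun n hn => ?_
  rw [← tsum_ind_eq (T.r P.so n) fun x => ch (n, x) * v n x,
    ← tsum_ind_eq (out P.so (T.r P.so n) 1) fun x => wof (T.st P.so n) * (ch (n, x) * v n x),
    ← ENNReal.tsum_add]
  refine ENNReal.tsum_le_tsum fun x => ind_mul_le fun a => ?_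
  have b := mul_le_mul' (le_refl (ch (n, x))) (hv n a.2 x a.1)
  by_cases h1 : x = T.r P.so n
  · rw [ind_of h1, one_mul]
    exact le_add_right b
  by_cases h2 : wof (T.st P.so n) = 1 ∧ x = out P.so (T.r P.so n) 1
  · rw [ind_of h2.2, h2.1, Nat.cast_one, one_mul, one_mul]
    exact le_add_left b
  · rw [Spec.loops_zero a.1 a.2 h1 h2, mul_zero]
    exact zero_le

theorem All.starts_of (h : C.All P A R T) {q : Q} {ti tl tc c0 a b : ℕ} {Y : ℕ → Bool × Q → ℕ}
    (hY : A.chkY P.w q ti tl tc Y = true)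
    (hs : C.chkSt P A (T.st P.so (T.l + 1)) q Y c0 tl a b = true)
    (core : ∀ {F : ℕ → Fn Q}, C.Low P T P.so F → ∀ m x,
      (∀ n ≤ T.l, (C.sd P P.so T).U m q none (n, x) ∅ ≤ F n q .C0 x) ∧
      (C.sd P P.so T).U m q none (T.l + 1, x) ∅ ≤ C.W0 P P.so T true q .C0 x +
        C.sg0 P P.so T ((C.sd P P.so T).dn (T.l + 1) (F T.l)) q .C0 x)
    (na : P.ws ≠ some P.so → ∃ k,
      A.Hyp P.w (C.sd P P.so T) (T.l + 1) P.so (T.r P.so) (T.st P.so) k ∧
      (∀ i, k T.l i = vv (C.ka P.so (T.st P.so (T.l + 1)) (T.st P.so T.l) i)) ∧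
      C.Low P T P.so fun n q a x => A.F0 P.w (C.sd P P.so T) P.so (T.r P.so) (T.st P.so) k n q a x +
        A.sig P.w (C.sd P P.so T) (T.l + 1) P.so (T.r P.so) (T.st P.so) k
          ((C.sd P P.so T).beta T.l (C.W0 P P.so T false)) n q a x)
    (pay : P.Pay T C.b1 C.b2) : P.Starts T q c0 ti tl a b := by
  rw [chkSt, Bool.and_eq_true, Bool.not_eq_true'] at hs
  obtain ⟨hab, hs⟩ := hs
  have hw : P.ws ≠ some P.so := of_decide_eq_false hab
  have ok := (T.side P.so).ok T.l (by omega)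
  have hs := allR_spec hs (okT_lt ok)
  rw [ok, Bool.not_true, Bool.false_or, Bool.and_eq_true, Bool.or_eq_true, Nat.beq_eq, Nat.ble_eq,
    Nat.ble_eq] at hs
  obtain ⟨s1, s2⟩ := hs
  obtain ⟨k, hy, hk, hL⟩ := na hw
  obtain ⟨h1, h0⟩ := h.chkT P.so
  obtain ⟨-, -, c3, c4, -, -⟩ := all1 h1
  have hc := core hL
  constructor
  · refine ind_mul_le fun e => ?_
    have s1 := vk_mono 2 (s1.resolve_left (by omega))
    rw [vk_NN, ← vk_add, vk_NN, ← vk_add, vk_sumQ] at s1
    have w' := wof_le (T.st (!P.so) (T.l + 1))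
    have nr : sg P.so * (T.z - out P.so T.z 1) = 1 := by cases P.so <;> simp [sg, out]
    have tz : T.Tz (T.l + 1, out P.so T.z 1) := by
      have f1 : ¬T.Free P.so (T.l + 1, out P.so T.z 1) := fun f => by
        have := f.2
        simp only [T.top, e, nr] at this
        omega
      have f2 : ¬T.Free (!P.so) (T.l + 1, out P.so T.z 1) := fun f =>
        Tube.c_nr_disj (o := P.so) rfl (fun _ => nr.ge) f.c_nr
      refine ⟨le_rfl, ?_⟩
      revert f1 f2
      cases P.so
      exacts [fun f1 f2 => ⟨f2, f1⟩, fun f1 f2 => ⟨f1, f2⟩]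
    refine Spec.cut_loops pay hw tz (fun _ => nr.ge) fun m => (hc m _).2.trans (le_trans ?_ s1)
    have i12 : i0 P.so T (out P.so T.z 1) = (12 : ℕ) := by rw [i0_eq, nr, e]; rfl
    rw [add_assoc]
    refine add_le_add (val_le _ _ _ _ _ q i12 (by omega) (by simp [T0, ltab]))
      (ind_mul_le fun _ => add_le_add ((mul_le_of_le_one_left' (hy.std.hfo _ _)).trans ?_) ?_)
    · refine up_M (cov1 h1 h.gap false) P.w c3 c4 le_rfl ?_ q
      have g1 := h.gap.1
      have e1 : G.fst (T.l + 1) (out P.so T.z 1) (!P.so) = G.fst (T.l + 1) T.z P.so := by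
        cases P.so <;> simp [out, sg, Grid.fst]
      rw [e1, (idx_al _).1]
      split_ifs
      · simp
      · simp; omega
    · refine ((C.sd P P.so T).dn_mono (T.l + 1) (F' := A.F0 P.w (C.sd P P.so T) P.so (T.r P.so)
        (T.st P.so) k T.l) (fun r y => ?_) q .C0 _).trans ?_
      · rw [mul_add, Nat.add_sub_cancel, hy.dead (by omega), add_zero]
      · have := hy.dn_add q (n := T.l + 1) le_rfl
        rw [T.top, Nat.add_sub_cancel] at this
        refine this.trans (le_of_eq (Finset.sum_congr rfl fun j _ => ?_))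
        rw [hk, vv_mul]
  · intro ch hch
    have s2 := vk_mono 4 s2
    rw [vk_pow 1 3, ACert.Hyp.tot_eq] at s2
    simp only [chk0, Bool.and_eq_true] at h0
    obtain ⟨⟨⟨⟨⟨⟨⟨-, -⟩, a3⟩, a4⟩, -⟩, -⟩, -⟩, -⟩ := h0
    have lv := hy.lev q (b := (C.sd P P.so T).beta T.l (C.W0 P P.so T false)) (n := T.l) (by omega)
      (hy.pot q hY T.l (by omega)) c0 NN 0
    have u1 := (T.side P.so).up_anc (n := T.l) (by omega) (cov0 h1 h.gap false) P.w a3 (by omega)
      (fun q y hy' => by
        rw [Spec.fac, if_neg fun h' => absurd ((T.free_iff P.so le_rfl 12 y).1 h') (not_lt.2 hy'),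
          ind_of_not fun h' => hw h'.1]) q
    have u2 := (T.side P.so).up_add (n := T.l) (by omega) (cov0 h1 h.gap false) P.w a3 a4 q
    simp only [ACert.bt, if_true] at lv
    refine (low_le P T q ch (A.sv P.w q (C.sd P P.so T) (T.l + 1) P.so (T.r P.so) (T.st P.so) k
      ((C.sd P P.so T).beta T.l (C.W0 P P.so T false))) fun n hn x hx => Spec.cut_loops pay hw hx
        (fun e => by simp only at e; omega) fun m => (hc m x).1 n hn).trans
      (le_trans ?_ (le_self_add.trans (lv.trans (le_trans ?_ s2))))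
    · rw [Finset.sum_range_succ, vv_NN, one_mul, add_comm, add_assoc]
      refine add_le_add (mul_le_mul' hch.par le_rfl) (add_le_add (mul_le_mul' le_rfl
        (mul_le_mul' ((hch.add T.l le_rfl).trans_eq (by simp)) le_rfl))
        (Finset.sum_le_sum fun n hn => ?_))
      have hn := Finset.mem_range.1 hn
      rw [mul_add]
      refine add_le_add (mul_le_mul' (hch.anc n hn) le_rfl) ?_
      exact (mul_le_mul' le_rfl (mul_le_mul' (hch.add n hn.le) le_rfl)).trans_eq (by ring)
    · simp only [hk]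
      exact add_le_add (add_le_add (mul_le_mul' le_rfl u1)
        (mul_le_mul' le_rfl (mul_le_mul' le_rfl (mul_le_mul' le_rfl u2)))) le_rfl

end TCert
end Pool.Agent.P.MP_e4ac67_pr.Gr
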