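import Pool.Agent.P.MP_e4ac67_pr.G.FinC
import Pool.Agent.P.MP_e4ac67_pr.G.FinT

/-! The starts on the tube. -/

namespace Pool.Agent.P.MP_e4ac67_pr.Gr
namespace TCert
variable {Q : Type} [DecidableEq Q] [NQ Q] [Fintype Q] {G : Grid} {T : Tube G} {C : TCert Q}
  {P : Spec Q} {A : ACert Q} {R : RCert Q}

theorem All.starts (h : C.All P A R T) {q : Q} {ti tl tc c0 a b : ℕ} {Y : ℕ → Bool × Q → ℕ}
    (hY : A.chkY P.w q ti tl tc Y = true)
    (hs : C.chkSt P A (T.st P.so (T.l + 1)) q Y c0 tl a b = true) : P.Starts T q c0 ti tl a b :=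
  h.starts_of hY hs (fun hF m x => ⟨(h.core hF m q x none ∅).1, (h.core hF m q x none ∅).2.1⟩)
    h.low_na h.pay

end TCert
end Pool.Agent.P.MP_e4ac67_pr.Gr
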