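import Pool.Agent.P.MP_e4ac67_pr.G.Red
import Pool.Agent.P.MP_e4ac67_pr.G.Brg

/-! Consequences of `Fit`, and the generic bound of `sT` by `Tube.sum`. -/

open scoped ENNReal

namespace Pool.Agent.P.MP_e4ac67_pr.Gr
namespace Fit
open Grid
variable {G : Grid} {T : Tube G} {z v u b f : Pt} {Q : Type} (h : Fit z T) {S : Spec Q}
  {prev : Option Pt} {o : Bool}
include h

theorem lv : z.1 = T.l + 1 := congrArg Prod.fst h.eq

theorem sn : z.2 = T.z := congrArg Prod.snd h.eq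
theorem gp : T.g = G.gap z := by rw [h.eq]; rfl

theorem lk_at (F : Q → ℕ → ℕ → ℕ) (d : ℕ) (q : Q) {i : ℕ} (h1 : 1 ≤ i) (h2 : i ≤ G.gap z + 3) :
    T.lk F d q (G.nb z i) = F q (min 8 i) (min 8 (G.gap z + 4 - i)) := by
  have e1 := h.lv
  have e2 := h.sn
  have e3 := G.gap_eq z
  have e4 := G.gap2 z.1 z.2
  rw [Tube.lk, h.gp]
  rcases nb_cases (G := G) z i with ⟨c, e⟩ | ⟨c, e⟩ | ⟨c, c', e⟩ | ⟨c, e⟩ | ⟨c, e⟩ <;> rw [e]
  · omega
  · rw [if_neg (by simp only; omega), if_pos (by rw [e1, e2]), c]; rfl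
  · have a1 : T.Ei true (G.A z.1 (z.2 - 1) + i - 2) = min 8 i := by
      simp only [Tube.Ei, sg, fst, ← e1, ← e2]; omega
    have a2 : T.Ei false (G.A z.1 (z.2 - 1) + i - 2) = min 8 (G.gap z + 4 - i) := by
      simp only [Tube.Ei, sg, fst, ← e1, ← e2]; omega
    rw [if_pos (by simp only; omega), a1, a2, lkN, Nat.ble_eq_true_of_le (by omega),
      Nat.ble_eq_true_of_le (by omega)]
    rfl
  · rw [if_neg (by simp only; omega), if_neg (by simp only [Prod.ext_iff]; omega),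
      if_pos (by rw [e1, e2]), c, show G.gap z + 4 - (G.gap z + 3) = 1 by omega]; rfl
  · omega

theorem ps_off (hv : ¬Wz G.Tb z v) (ha : G.Adj z v) :
    1 ≤ G.ps z v ∧ G.ps z v ≤ G.gap z + 3 ∧ G.nb z (G.ps z v) = v := by
  have hz : 1 ≤ z.1 := by have := h.lv; omega
  have := (tubeOK G).ps hz ha hv
  exact ⟨by omega, this.2.2, (ps_spec hz ha).2⟩

open Classical in
theorem lk_ps (F : Q → ℕ → ℕ → ℕ) (d : ℕ) (q : Q) (hv : ¬Wz G.Tb z v) : T.lk F d q v =
    if G.Adj z v then F q (min 8 (G.ps z v)) (min 8 (G.gap z + 4 - G.ps z v)) else d := by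
  split_ifs with e
  · obtain ⟨a1, a2, a3⟩ := h.ps_off hv e
    rw [← h.lk_at F d q a1 a2, a3]
  have e1 := h.lv
  have e2 := h.sn
  rw [adj_iff] at e
  rw [Tube.lk]
  split_ifs with c1 c2 c3
  · have : ¬(2 ≤ T.Ei true v.2 ∧ 2 ≤ T.Ei false v.2) := by
      simp only [Tube.Ei, sg, fst, ← e1, ← e2]; omega
    rw [lkN, Bool.cond_eq_ite, if_neg (by simpa only [Bool.and_eq_true, Nat.ble_eq] using this)]
  · rw [c2] at e; simp only at e; omega
  · rw [c3] at e; simp only at e; omega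
  · rfl

theorem ff_in (F : Q → ℕ → ℕ → ℕ) (q : Q) (hv : Wz G.Tb z v) : Spec.ff T F q v = 1 :=
  if_pos ((h.tz _).2 hv)

open Classical in
theorem ff_ps (F : Q → ℕ → ℕ → ℕ) (q : Q) (hv : ¬Wz G.Tb z v) : Spec.ff T F q v =
    if G.Adj z v then vv (F q (min 8 (G.ps z v)) (min 8 (G.gap z + 4 - G.ps z v))) else 1 := by
  rw [Spec.ff, if_neg (mt (h.tz _).1 hv), h.lk_ps F NN q hv, apply_ite vv, vv_NN]

open Classical in
theorem term_ps (q : Q) (hv : ¬Wz G.Tb z v) : (S.sys T).term q prev v =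
    if G.Adj z v then vv (S.lt q (min 8 (G.ps z v)) (min 8 (G.gap z + 4 - G.ps z v))) else 0 := by
  simp only [Spec.sys]
  rw [if_neg (mt (h.tz _).1 hv), h.lk_ps S.lt 0 q hv, apply_ite vv, show vv 0 = 0 from vk_zero 1]

theorem w1 (o : Bool) : T.w0 o = 1 ↔ G.tau z = 0 ∧ (G.sL z 0 = 1 ↔ o = true) := by
  rw [Tube.w0, ← h.lv]
  cases o
  · simpa using h.wr
  · simpa using h.wl

theorem sided (hv : ¬Wz G.Tb z v) (hs : G.Rt z 4 v ↔ o = false) : T.Free o v ∨ T.Hi v := by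
  have e1 := h.lv
  refine (le_or_gt v.1 z.1).imp (fun hl => ?_) fun a => by rwa [Tube.Hi, ← e1]
  have a := an_ar (G := G) z (z.1 - v.1)
  have a1 := h.rl _ hl
  have a2 := h.rr _ hl
  rw [← h.tz] at hv
  rw [Rt, if_pos hl] at hs
  cases o <;> simp only [Tube.Tz, Tube.Free, a1, a2, sg, iff_true,
    Bool.true_eq_false, iff_false] at hv hs ⊢ <;> omega

theorem go_off (hv : ¬Wz G.Tb z v) (hu : ¬Wz G.Tb z u) : S.Go T prev v u :=
  ⟨fun a => absurd ((h.tz _).1 a) hv, fun a => absurd ((h.tz _).1 a) hu⟩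

theorem go_one (hf : ¬Wz G.Tb z f) (hs : G.Rt z 4 f ↔ S.so = false) : S.Go T none b f :=
  ⟨fun _ => ⟨rfl, h.sided hf hs⟩, fun a => absurd ((h.tz _).1 a) hf⟩

theorem lat_eq (hb : G.Tb z b) (hl : T.l < b.1) (ha : G.Adj b f) (hf : ¬Wz G.Tb z f)
    (hs : G.Rt z 4 f ↔ o = false) : G.tau z = 0 ∧ b = G.lt1 z ∧ (G.sL z 0 = 1 ↔ o = true) ∧
      b = (T.l + 1, out o T.z 1) := by
  have e1 := h.lv
  have e0 := G.gap_eq z
  have e5 := G.gap2 z.1 z.2
  obtain ⟨e2, rfl⟩ := hb.resolve_left (by rintro ⟨i, a, a', -⟩; omega)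
  have e3 := lt1_side (c := 4) (by omega) ha hf (by omega) (by omega)
  have e4 : G.sL z 0 = 1 ↔ o = true := by cases o <;> simp_all
  refine ⟨e2, rfl, e4, ?_⟩
  rw [lt1, ← e1, ← h.sn]
  cases o <;> simp_all [out, sg]

open Classical in
/-- the generic bound for the arcs that leave the tube on the side `S.so` -/
theorem sT_le [Fintype Q] {P : Nm} {q : Q} {cl c0 : ℝ≥0∞} {F : Pt → List Pt → ℝ≥0∞}
    (hF : ∀ b I, G.Tb z b → F b I ≠ 0 → G.Adj b (I.headD z) ∧ ¬Wz G.Tb z (I.headD z) ∧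
      (G.Rt z 4 (I.headD z) ↔ S.so = false))
    (hL : ∀ b, G.Tb z b → ∑' I, F b I ≤
      (if T.l < b.1 then cl else if b = (T.l, T.r S.so T.l) then c0 else 1) * S.loops T q b)
    (s : Option Bool) : G.sT P z s F ≤ T.sum P S q cl c0 s := by
  have e1 := h.lv
  rw [Tube.sum, Spec.low, ← ENNReal.tsum_mul_left, ← h.eq, ← tsum_ite_eq
    (T.l + 1, out S.so T.z 1) (fun _ => ind (s = none ∨ s = some (!S.so)) * (cl * S.lat T q)),
    ← ENNReal.tsum_add, sT, ENNReal.tsum_prod']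
  refine ENNReal.tsum_le_tsum fun b => ?_
  simp only [ENNReal.tsum_mul_left]
  refine ind_mul_le fun hb => ?_
  have key : ∀ t : Bool, (∀ I, F b I ≠ 0 → G.tg z b (I.headD z) = t) →
      ∑' I, s.elim 1 (fun s => ind (G.tg z b (I.headD z) = s) * G.ch P.iv P.il z b) * F b I ≤
      ind (s = none ∨ s = some t) * ((s.elim 1 fun _ => G.ch P.iv P.il z b) * ∑' I, F b I) := by
    intro t ht
    rw [← ENNReal.tsum_mul_left, ← ENNReal.tsum_mul_left]
    refine ENNReal.tsum_le_tsum fun I => ?_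
    by_cases e : F b I = 0
    · simp [e]
    cases s with
    | none => simp [ind]
    | some s =>
      rw [← mul_assoc, ht I e]
      exact mul_le_mul_left (mul_le_mul_left (ind_mono fun a => Or.inr (by rw [a])) _) _
  have hl := hL b hb
  rcases lt_or_ge T.l b.1 with e | e
  · by_cases g : ∃ I, F b I ≠ 0
    swap
    · simp only [not_exists, not_not] at g
      simp [g]
    obtain ⟨I, g⟩ := g
    obtain ⟨g3, g4, g5⟩ := hF b I hb g
    obtain ⟨a1, a2, a3, a4⟩ := h.lat_eq hb e g3 g4 g5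
    refine le_add_right ((key (!S.so) fun J _ => ?_).trans ?_)
    · rw [tg, if_neg (by omega), a2]
      clear key hl hL hF
      cases hs : S.so <;> simp_all
    rw [if_pos a4, Spec.lat, ind_of (show wof _ = 1 from (h.w1 _).2 ⟨a1, a3⟩), one_mul, ← a4]
    rw [if_pos e] at hl
    refine mul_le_mul_right (le_trans (mul_le_of_le_one_left' ?_) hl) _
    cases s <;> simp [ch, show b.1 = z.1 from a2 ▸ (lt1_lev z).1]
  · refine le_add_left ((key (T.tgW S.so) fun J g => ?_).trans (mul_le_mul_right ?_ _))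
    · have e2 : b ≠ G.lt1 z := fun a => by have := (lt1_lev (G := G) z).1; rw [← a] at this; omega
      have e3 := (hF b J hb g).2.2
      have e4 := G.tau_le z
      simp only [tg, Tube.tgW, h.w1]
      clear key hl hL hF
      split_ifs <;> cases hs : S.so <;> simp_all <;> omega
    · rw [if_neg (by omega)] at hl
      rw [ind_of (And.intro ((h.tz _).2 (Or.inr hb)) e), one_mul, mul_right_comm, mul_comm _ (s.elim _ _)]
      exact mul_le_mul_right hl _

open Classical in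
/-- the same for both sides; the side is that of the first inner vertex -/
theorem sT_le2 [Fintype Q] {P : Nm} {q : Q} {cl c0 : ℝ≥0∞} {F : Pt → List Pt → ℝ≥0∞}
    {S : Bool → Spec Q} (hS : ∀ o, (S o).so = o)
    (hF : ∀ b I, G.Tb z b → F b I ≠ 0 → G.Adj b (I.headD z) ∧ ¬Wz G.Tb z (I.headD z))
    (hL : ∀ o b, G.Tb z b → ∑' I, ind (G.Rt z 4 (I.headD z) ↔ o = false) * F b I ≤
      (if T.l < b.1 then cl else if b = (T.l, T.r o T.l) then c0 else 1) * (S o).loops T q b)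
    (s : Option Bool) : G.sT P z s F ≤ ∑ o, T.sum P (S o) q cl c0 s :=
  sT_side.trans (Finset.sum_le_sum fun o _ => h.sT_le (fun b I hb e =>
    have a := hF b I hb (right_ne_zero_of_mul e)
    ⟨a.1, a.2, (hS o).symm ▸ of_ind_mul_ne e⟩) (fun b hb => (hS o).symm ▸ hL o b hb) s)

end Fit
end Pool.Agent.P.MP_e4ac67_pr.Gr
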