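import Pool.Agent.P.MP_e4ac67_pr.G.Iface
import Pool.Agent.P.MP_e4ac67_pr.V.Mono

/-! Families of paths with runs, and the vertices of an arc. -/

open scoped ENNReal

namespace Pool.Agent.P.MP_e4ac67_pr.Gr

variable {Q : Type} [Fintype Q]

theorem rz_simple {G : Grid} {A : ℕ → Pt} {n : ℕ} {Vis : Set Pt}
    (h1 : ∀ i < n, G.Adj (A i) (A (i + 1))) (h2 : ∀ i ≤ n, ∀ j ≤ n, A i = A j → i = j)
    (h3 : ∀ i < n, A (i + 1) ∉ Vis) :
    Sys.Simple G (A 0) ((List.range n).map fun i => A (i + 1)) Vis := by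
  have e : (A 0 :: (List.range n).map fun i => A (i + 1)) = (List.range (n + 1)).map A := by
    rw [List.range_succ_eq_map, List.map_cons, List.map_map]; rfl
  refine ⟨?_, ?_, fun u hu => ?_⟩
  · rw [e, List.isChain_map]
    exact (List.isChain_range_succ _ n).2 h1
  · rw [e]
    exact List.Nodup.map_on (fun i hi j hj => h2 i (by simpa [Nat.lt_succ_iff] using hi) j
      (by simpa [Nat.lt_succ_iff] using hj)) List.nodup_range
  · obtain ⟨i, hi, rfl⟩ := List.mem_map.1 hu
    exact h3 i (List.mem_range.1 hi)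

namespace Spec
variable (P : Spec Q) {G : Grid} (T : Tube G)

/-- the product form of the weight of a path that starts without a past -/
noncomputable def prW (n : ℕ) (A : ℕ → Pt) (ρ : ℕ → Q) : ℝ≥0∞ :=
  (∏ i ∈ Finset.range n, (P.sys T).om (ρ i) (ρ (i + 1))
    (if i = 0 then none else some (A (i - 1))) (A i) (A (i + 1))) *
      (P.sys T).term (ρ n) (if n = 0 then none else some (A (n - 1))) (A n)

/-- an injective family of paths from `v` with runs from `q` -/
theorem le_paths {ι : Type} (w : ι → ℝ≥0∞) (n : ι → ℕ) (A : ι → ℕ → Pt) (ρ : ι → ℕ → Q) (q : Q)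
    (v : Pt) (c : ℝ≥0∞)
    (hi : ∀ x y, w x ≠ 0 → w y ≠ 0 → n x = n y →
      (∀ i < n x, A x (i + 1) = A y (i + 1) ∧ ρ x (i + 1) = ρ y (i + 1)) → x = y)
    (h : ∀ x, w x ≠ 0 → A x 0 = v ∧ ρ x 0 = q ∧ (∀ i < n x, G.Adj (A x i) (A x (i + 1))) ∧
      (∀ i ≤ n x, ∀ j ≤ n x, A x i = A x j → i = j) ∧ w x ≤ c * P.prW T (n x) (A x) (ρ x)) :
    ∑' x, w x ≤ c * P.paths T q none v ∅ := by
  rw [paths, ← ENNReal.tsum_mul_left]
  refine tsum_le_of_enc _ _ (fun x => (List.range (n x)).map fun i => (A x (i + 1), ρ x (i + 1)))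
    (fun x y hx hy e => ?_) fun x hx => ?_
  · have e1 : n x = n y := by simpa using congrArg List.length e
    rw [← e1, List.map_inj_left] at e
    exact hi x y hx hy e1 fun i a => by simpa using e i (List.mem_range.2 a)
  · obtain ⟨rfl, rfl, h1, h2, h3⟩ := h x hx
    rw [List.map_map, ind_of (by exact rz_simple h1 h2 fun _ _ => id), one_mul, runW_eq]
    exact h3

/-- an injective family of paths from the tube vertex `v` that may come back to `v` -/
theorem le_loops {ι : Type} (w : ι → ℝ≥0∞) (n : ι → ℕ) (A : ι → ℕ → Pt) (ρ : ι → ℕ → Q) (q : Q)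
    (v : Pt) (c : ℝ≥0∞)
    (hi : ∀ x y, w x ≠ 0 → w y ≠ 0 → n x = n y →
      (∀ i < n x, A x (i + 1) = A y (i + 1) ∧ ρ x (i + 1) = ρ y (i + 1)) → x = y)
    (h : ∀ x, w x ≠ 0 → A x 0 = v ∧ ρ x 0 = q ∧ (∀ i < n x, G.Adj (A x i) (A x (i + 1))) ∧
      (∀ i < n x, ∀ j < n x, A x (i + 1) = A x (j + 1) → i = j) ∧
        w x ≤ c * P.prW T (n x) (A x) (ρ x)) :
    ∑' x, w x ≤ c * P.loops T q v := by
  rw [loops, ← ENNReal.tsum_mul_left]
  refine tsum_le_of_enc _ _ (fun x => (List.range (n x)).map fun i => (A x (i + 1), ρ x (i + 1)))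
    (fun x y hx hy e => ?_) fun x hx => ?_
  · have e1 : n x = n y := by simpa using congrArg List.length e
    rw [← e1, List.map_inj_left] at e
    exact hi x y hx hy e1 fun i a => by simpa using e i (List.mem_range.2 a)
  · obtain ⟨rfl, rfl, h1, h2, h3⟩ := h x hx
    rw [List.map_map, ind_of, one_mul, runW_eq]
    · exact h3
    refine ⟨?_, List.Nodup.map_on (fun i hi j hj => h2 i (List.mem_range.1 hi) j
      (List.mem_range.1 hj)) List.nodup_range⟩
    have e : (A x 0 :: (List.range (n x)).map (Prod.fst ∘ fun i => (A x (i + 1), ρ x (i + 1)))) =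
        (List.range (n x + 1)).map (A x) := by
      rw [List.range_succ_eq_map, List.map_cons, List.map_map]; rfl
    rw [e, List.isChain_map]
    exact (List.isChain_range_succ _ _).2 h1

end Spec

namespace Grid
variable {G : Grid} {z b e : Pt} {I : List Pt}

theorem vx_zero : vx b I e 0 = b := rfl

theorem vx_last : vx b I e (I.length + 1) = e := by simp [vx]

theorem vx_succ {i : ℕ} (h : i < I.length) : vx b I e (i + 1) = I[i] := by
  simp [vx, List.getElem?_append_left h, List.getElem?_eq_getElem h]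

theorem vx_mem {i : ℕ} (h1 : 1 ≤ i) (h2 : i ≤ I.length) : vx b I e i ∈ I := by
  obtain ⟨i, rfl⟩ : ∃ j, i = j + 1 := ⟨i - 1, by omega⟩
  rw [vx_succ (by omega)]; exact List.getElem_mem _

theorem vx_adj (h : (b :: I ++ [e]).IsChain G.Adj) {i : ℕ} (hi : i ≤ I.length) :
    G.Adj (vx b I e i) (vx b I e (i + 1)) := by
  have := List.isChain_iff_getElem.1 h i (by simp; omega)
  unfold vx
  rwa [List.getD_eq_getElem _ _ (by simp; omega), List.getD_eq_getElem _ _ (by simp; omega)]

theorem vx_inj (h : I.Nodup) (he : e ∉ I) {i j : ℕ} (h1 : 1 ≤ i) (h2 : i ≤ I.length + 1)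
    (h3 : 1 ≤ j) (h4 : j ≤ I.length + 1) (a : vx b I e i = vx b I e j) : i = j := by
  rcases h2.lt_or_eq with h2 | rfl <;> rcases h4.lt_or_eq with h4 | rfl
  · obtain ⟨i, rfl⟩ : ∃ k, i = k + 1 := ⟨i - 1, by omega⟩
    obtain ⟨j, rfl⟩ : ∃ k, j = k + 1 := ⟨j - 1, by omega⟩
    rw [vx_succ (by omega), vx_succ (by omega), h.getElem_inj_iff] at a
    omega
  · rw [vx_last] at a; exact absurd (a ▸ vx_mem h1 (by omega)) he
  · rw [vx_last] at a; exact absurd (a ▸ vx_mem h3 (by omega)) he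
  · rfl

theorem vx_ext {b' e' : Pt} {J : List Pt} (h : I.length = J.length)
    (a : ∀ i < I.length, vx b I e (i + 1) = vx b' J e' (i + 1)) : I = J :=
  List.ext_getElem h fun i h1 h2 => by rw [← vx_succ h1, ← vx_succ h2, a i h1]

theorem vx_head (h : I ≠ []) : I.headD z = vx b I e 1 := by
  cases I with
  | nil => exact absurd rfl h
  | cons x I => rfl

theorem vx_getLast (h : I ≠ []) : I.getLastD z = vx b I e I.length := by
  rcases List.eq_nil_or_concat I with a | ⟨J, x, rfl⟩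
  · exact absurd a h
  · simp [vx]

end Grid
end Pool.Agent.P.MP_e4ac67_pr.Gr
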