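import Pool.Agent.P.MP_e4ac67_pr.G.Red
import Pool.Agent.P.MP_e4ac67_pr.G.RedZ

/-! Steps off the tube in the path problems. -/

open scoped ENNReal

namespace Pool.Agent.P.MP_e4ac67_pr.Gr

theorem Stp.sw {Q : Type} {S : Spec Q} {G : Grid} {q r : Q} {x y E : ℝ≥0∞} (h : Stp S.w q r x y)
    {prev : Option Pt} {u : Pt} (h1 : G.Ear prev u → E ≤ y) (h2 : ¬G.Ear prev u → E ≤ 1) :
    x * E ≤ S.sw G q r prev u := by
  unfold Spec.sw
  by_cases c : G.Ear prev u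
  · rw [tyb_true.2 c]; exact (mul_le_mul_right (h1 c) _).trans h.2
  · rw [tyb_false.2 c]; exact (mul_le_of_le_one_right' (h2 c)).trans h.1

theorem Grid.ear_some {G : Grid} {v u : Pt} : G.Ear (some v) u ↔ G.Adj v u := by simp [Grid.Ear]

theorem Grid.ear_none {G : Grid} {u : Pt} : ¬G.Ear none u := by simp [Grid.Ear]

theorem cc_pos {c : Bool} {a b : ℕ} (h : c = true) : cc c a b = a := by rw [h]; rfl

theorem cc_neg {c : Bool} {a b : ℕ} (h : ¬c = true) : cc c a b = b := by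
  cases c
  exacts [rfl, absurd rfl h]

namespace Fit
open Grid
variable {G : Grid} {T : Tube G} {z v u : Pt} {Q : Type} (h : Fit z T)
include h

theorem zlev : z.1 = T.l + 1 := congrArg Prod.fst h.eq
theorem zsnd : z.2 = T.z := congrArg Prod.snd h.eq
theorem zg : T.g = G.gap z := by rw [h.eq]; rfl

theorem zlk_nb (F : Q → ℕ → ℕ → ℕ) (d : ℕ) (q : Q) {i : ℕ} (h1 : 1 ≤ i) (h2 : i ≤ G.gap z + 3) :
    T.lk F d q (G.nb z i) = F q (min 8 i) (min 8 (G.gap z + 4 - i)) := by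
  have e1 := h.zlev
  have e2 := h.zsnd
  have e3 := G.gap_eq z
  have e4 := G.gap2 z.1 z.2
  rw [Tube.lk, h.zg]
  rcases nb_cases (G := G) z i with ⟨c, e⟩ | ⟨c, e⟩ | ⟨c, c', e⟩ | ⟨c, e⟩ | ⟨c, e⟩ <;> rw [e]
  · omega
  · rw [if_neg (by simp only; omega), if_pos (by rw [e1, e2]), c]; rfl
  · have a1 : T.Ei true (G.A z.1 (z.2 - 1) + i - 2) = min 8 i := by
      simp only [Tube.Ei, sg, fst, ← e1, ← e2]; omega
    have a2 : T.Ei false (G.A z.1 (z.2 - 1) + i - 2) = min 8 (G.gap z + 4 - i) := by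
      simp only [Tube.Ei, sg, fst, ← e1, ← e2]; omega
    rw [if_pos (by simp only; omega), a1, a2, lkN, Nat.ble_eq_true_of_le (by omega),
      Nat.ble_eq_true_of_le (by omega)]
    rfl
  · rw [if_neg (by simp only; omega), if_neg (by simp only [Prod.ext_iff]; omega),
      if_pos (by rw [e1, e2]), c, show G.gap z + 4 - (G.gap z + 3) = 1 by omega]; rfl
  · omega

theorem zlk_off (F : Q → ℕ → ℕ → ℕ) (d : ℕ) (q : Q) (hv : ¬G.Adj z v) : T.lk F d q v = d := by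
  have e1 := h.zlev
  have e2 := h.zsnd
  rw [adj_iff] at hv
  rw [Tube.lk]
  split_ifs with c1 c2 c3
  · have : ¬(2 ≤ T.Ei true v.2 ∧ 2 ≤ T.Ei false v.2) := by
      simp only [Tube.Ei, sg, fst, ← e1, ← e2]; omega
    rw [lkN, Bool.cond_eq_ite, if_neg (by simpa only [Bool.and_eq_true, Nat.ble_eq] using this)]
  · rw [c2] at hv; simp only at hv; omega
  · rw [c3] at hv; simp only at hv; omega
  · rfl

theorem zps (hv : ¬Wz G.Tb z v) (ha : G.Adj z v) :
    1 ≤ G.ps z v ∧ G.ps z v ≤ G.gap z + 3 ∧ G.nb z (G.ps z v) = v := by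
  have hz : 1 ≤ z.1 := by have := h.zlev; omega
  have := (tubeOK G).ps hz ha hv
  exact ⟨by omega, this.2.2, (ps_spec hz ha).2⟩

theorem znbr {i : ℕ} (h1 : 1 ≤ i) (h2 : i ≤ G.gap z + 2) : Spec.nbr T true i = G.nb z i := by
  have e3 := G.gap_eq z
  rw [Spec.nbr, show T.l + 2 = z.1 + 1 by rw [h.zlev], ← h.zlev, ← h.zsnd]
  split_ifs with e
  · simp [e, out, sg, nb_one]
  · rw [G.nb_ch z (by omega) (by omega)]
    simp only [fst, sg, Prod.mk.injEq, true_and]; omega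

/-- a lower bound for a link factor -/
theorem zlk (F : Q → ℕ → ℕ → ℕ) (d : ℕ) (q : Q) (hv : ¬Wz G.Tb z v) {a : ℝ≥0∞}
    (h1 : ¬G.Adj z v → a ≤ vv d) (h2 : ∀ i, 1 ≤ i → i ≤ G.gap z + 3 → G.nb z i = v → G.Adj z v →
      a ≤ vv (F q (min 8 i) (min 8 (G.gap z + 4 - i)))) : a ≤ vv (T.lk F d q v) := by
  by_cases e : G.Adj z v
  · obtain ⟨a1, a2, a3⟩ := h.zps hv e
    rw [← a3, h.zlk_nb F d q a1 a2]
    exact h2 _ a1 a2 a3 e
  · rw [h.zlk_off F d q e]; exact h1 e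

theorem zom (S : Spec Q) {q r : Q} {prev : Option Pt} (hv : ¬Wz G.Tb z v) (hu : ¬Wz G.Tb z u) :
    (S.sys T).om q r prev v u =
      vv (T.lk S.lo NN q v) * (S.sw G q r prev u * vv (T.lk S.lf NN r u)) := by
  simp only [Spec.sys, Spec.ff]
  rw [if_neg (mt (h.tz _).1 hv), if_neg (mt (h.tz _).1 hu), ind_of, one_mul]
  exact ⟨fun a => absurd ((h.tz _).1 a) hv, fun a => absurd ((h.tz _).1 a) hu⟩

theorem zterm (S : Spec Q) {q : Q} {prev : Option Pt} (hv : ¬Wz G.Tb z v) :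
    (S.sys T).term q prev v = vv (T.lk S.lt 0 q v) := by
  simp only [Spec.sys]
  rw [if_neg (mt (h.tz _).1 hv)]

theorem zinj {i j : ℕ} (hi : i ≤ G.gap z + 3) (hj : j ≤ G.gap z + 3) (e : G.nb z i = G.nb z j) :
    i = j :=
  nb_inj (by have := h.lev; omega) (by unfold dg; omega) (by unfold dg; omega) e

omit h in
theorem zgap : 2 ≤ G.gap z := by have := G.gap_eq z; have := G.gap2 z.1 z.2; omega

omit h in
theorem zcv : ¬Wz G.Tb z (G.cv z) := by
  have e : (G.cv z).1 = z.1 + 1 := by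
    rw [cv, G.nb_ch z (by omega) (by have := zgap (G := G) (z := z); omega)]
  rintro (a | a)
  · rw [a] at e; omega
  · have := ((tubeOK G).lev z _ a).1; omega

end Fit
end Pool.Agent.P.MP_e4ac67_pr.Gr
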