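import Pool.Agent.P.MP_e4ac67_pr.G.Stack

/-! The local geometry on one side of a tube, described by a finite number of states. -/

namespace Pool.Agent.P.MP_e4ac67_pr.Gr

/-- (lower bound for) the distance from the last ancestor to the next vertex with two parents -/
def Sof : ℕ → ℕ
  | 2 => 2 | 3 => 3 | 5 => 2 | 7 => 2 | _ => 1

/-- `1` when one more vertex is added to the tube -/
def wof : ℕ → ℕ
  | 0 => 1 | 4 => 1 | 8 => 1 | 9 => 1 | _ => 0

/-- the distance is known exactly -/
def exo : ℕ → Bool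
  | 3 => false | 7 => false | 8 => false | _ => true

def room (s : ℕ) : ℕ := Sof s - wof s

/-- the types allowed at distance `d` from the tube -/
def alD (s : ℕ) : ℕ → Bool → Bool
  | 1, t => match s with
    | 1 => t | 6 => t | 8 => true | _ => !t
  | 2, t => match s with
    | 1 => !t | 6 => !t | 3 => !t | 2 => t | 5 => t | _ => true
  | 3, t => match s with
    | 1 => !t | 6 => !t | 2 => !t | 5 => !t | _ => true
  | _, _ => true

/-- transitions from the state of a level to the state of the level below -/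
def okT : ℕ → ℕ → Bool
  | 0, l => Nat.beq l 0 || Nat.beq l 2 || Nat.beq l 3 || Nat.beq l 5
  | 1, l => Nat.beq l 2 || Nat.beq l 3 || Nat.beq l 5
  | 4, l => Nat.beq l 0
  | 5, l => Nat.beq l 3 || Nat.beq l 5
  | 6, l => Nat.beq l 3 || Nat.beq l 5
  | 9, l => Nat.beq l 3 || Nat.beq l 5
  | 8, l => Nat.ble l 5
  | _, l => Nat.ble 1 l && Nat.ble l 5

def gp1 (s : ℕ) : ℕ := cond (alD s 1 true) 2 3

theorem wof_le (s : ℕ) : wof s ≤ 1 := by unfold wof; split <;> omega
theorem one_le_Sof (s : ℕ) : 1 ≤ Sof s := by unfold Sof; split <;> omega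
theorem Sof_le (s : ℕ) : Sof s ≤ 3 := by unfold Sof; split <;> omega
theorem gp1_le (s : ℕ) : gp1 s ≤ 3 := by unfold gp1; cases alD s 1 true <;> simp
theorem room_eq (s : ℕ) : (room s : ℤ) = Sof s - wof s := by
  have := wof_le s; have := one_le_Sof s; unfold room; omega
theorem okT_lt {u l : ℕ} (h : okT u l = true) : l < 6 := by
  unfold okT at h
  split at h <;> simp only [Bool.or_eq_true, Bool.and_eq_true, Nat.beq_eq, Nat.ble_eq] at h <;> omega
theorem alD_big (s : ℕ) {d : ℕ} (h : 4 ≤ d) (t : Bool) : alD s d t = true := by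
  obtain ⟨d, rfl⟩ : ∃ e, d = e + 4 := ⟨d - 4, by omega⟩
  rfl

/-- `k` steps away from the tube -/
def out (o : Bool) (x : ℤ) (k : ℤ) : ℤ := x - sg o * k

/-- the anchor that puts the end of the tube at the position `J` -/
def anc (o : Bool) (x : ℤ) (s J : ℕ) : ℤ := out o x (wof s + J)

theorem idx_out (o : Bool) (x : ℤ) (s J : ℕ) (k : ℤ) :
    idx (anc o x s J) o (out o x k) = wof s + J - k := by
  cases o <;> simp only [idx, anc, out, sg] <;> ring

theorem pos_anc (o : Bool) (x : ℤ) (s J : ℕ) (i : ℤ) :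
    pos (anc o x s J) o i = out o x (wof s + J - i) := by
  cases o <;> simp only [pos, anc, out, sg] <;> ring

theorem eq_out (o : Bool) (x y : ℤ) (s J : ℕ) : y = out o x (wof s + J - idx (anc o x s J) o y) := by
  rw [← pos_anc, pos_idx]

/-- one side of a tube below level `l`: `r n` is the last ancestor on level `n` -/
structure Side (G : Grid) (l : ℕ) (o : Bool) (r : ℕ → ℤ) (st : ℕ → ℕ) : Prop where
  al : ∀ n ≤ l, ∀ d : ℕ, 1 ≤ d → alD (st n) d (tyb (Two G.A n (out o (r n) (wof (st n) + d)))) = true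
  ch : ∀ n < l, G.Ch n (r n) (r (n + 1))
  ok : ∀ n < l, okT (st (n + 1)) (st n) = true
  ge : ∀ n < l, (Sof (st (n + 1)) : ℤ) ≤ sg o * (r (n + 1) - G.fst n (r n) o)
  ex : ∀ n < l, exo (st (n + 1)) = true → sg o * (r (n + 1) - G.fst n (r n) o) = Sof (st (n + 1))

namespace Side
variable {G : Grid} {l : ℕ} {o : Bool} {r : ℕ → ℤ} {st : ℕ → ℕ}

theorem al_cl (h : Side G l o r st) {Q : Type} (B : NT Q) {n J : ℕ} (hn : n ≤ l) (h1 : 10 ≤ J)
    (h2 : J ≤ 6 + B.w) (y : ℤ) :
    alD (st n) (J - B.cl (idx (anc o (r n) (st n) J) o y)) (tyb (Two G.A n y)) = true := by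
  set i := idx (anc o (r n) (st n) J) o y with hi
  rcases (by omega : (J : ℤ) ≤ i ∨ i < 6 ∨ (6 ≤ i ∧ i < J)) with e | e | e
  · rw [show J - B.cl i = 0 by unfold NT.cl; omega]; rfl
  · exact alD_big _ (by unfold NT.cl; omega) _
  · have := h.al n hn (J - B.cl i) (by unfold NT.cl; omega)
    rwa [show (wof (st n) : ℤ) + (J - B.cl i : ℕ) = wof (st n) + J - i by unfold NT.cl; omega, hi,
      ← eq_out] at this

/-- the first children of the first two free points -/
theorem fst_out (h : Side G l o r st) {n : ℕ} (hn : n ≤ l) :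
    2 * (wof (st n) : ℤ) ≤ sg o * (G.fst n (r n) o - G.fst n (out o (r n) (wof (st n) + 1)) (!o)) ∧
    2 * (wof (st n) : ℤ) + gp1 (st n) ≤
      sg o * (G.fst n (r n) o - G.fst n (out o (r n) (wof (st n) + 2)) (!o)) := by
  have a := h.al n hn 1 le_rfl
  have g1 := G.gap2 n (out o (r n) 1)
  have g2 := G.gap2 n (out o (r n) (wof (st n) + 1))
  have g3 : gp1 (st n) = 2 ∨ (gp1 (st n) = 3 ∧ G.A n (out o (r n) (wof (st n) + 1) - 1) + 3 ≤
      G.A n (out o (r n) (wof (st n) + 1))) := by
    unfold gp1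
    cases e : alD (st n) 1 true
    · refine Or.inr ⟨rfl, G.gap3 n _ fun ht => ?_⟩
      rw [Nat.cast_one, tyb_true.2 ht, e] at a
      exact absurd a (by simp)
    · exact Or.inl rfl
  rcases (by have := wof_le (st n); omega : wof (st n) = 0 ∨ wof (st n) = 1) with e | e <;>
    rw [e] at g2 g3 ⊢ <;> cases o <;>
    simp only [out, sg, Grid.fst, Bool.not_true, Bool.not_false] at * <;> ring_nf at * <;> omega

/-- the parent of a free point is the last ancestor or lies further away -/
def cA (s d : ℕ) (k : Option Bool) : Bool :=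
  Nat.ble (d + 1) (room s) || (!decide (k = some false) && (!exo s || Nat.beq d (room s)))

def cB (s d : ℕ) (k : Option Bool) : Bool :=
  Nat.ble (room s + 1) d || (Nat.beq d (room s) && (decide (k = some false) || !exo s))

theorem par_cases (h : Side G l o r st) {n : ℕ} (hn : n < l) {d : ℕ} {x : ℤ}
    (hx : G.Ch n x (out o (r (n + 1)) (wof (st (n + 1)) + d))) (hd : 1 ≤ d + wof (st (n + 1))) :
    (x = r n ∧ cA (st (n + 1)) d ((G.kd n x (out o (r (n + 1)) (wof (st (n + 1)) + d))).map (sd o))
      = true) ∨ (1 ≤ sg o * (r n - x) ∧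
      cB (st (n + 1)) d ((G.kd n x (out o (r (n + 1)) (wof (st (n + 1)) + d))).map (sd o)) = true) := by
  have c := h.ch n hn
  have g := h.ge n hn
  have e := h.ex n hn
  have hr := room_eq (st (n + 1))
  have m := (G.A_lt n).monotone
  have g1 := G.gap2 n x
  obtain ⟨c1, c2⟩ := c
  obtain ⟨x1, x2⟩ := hx
  set y := out o (r (n + 1)) (wof (st (n + 1)) + d) with hy
  simp only [cA, cB, Bool.or_eq_true, Bool.and_eq_true, Bool.not_eq_true', Nat.ble_eq, Nat.beq_eq,
    decide_eq_true_eq, decide_eq_false_iff_not]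
  have k1 : (G.kd n x y).map (sd o) = some false ↔ y = G.fst n x (!o) := by
    unfold Grid.kd
    cases o <;> split_ifs <;> simp [sd, Grid.fst] <;> omega
  rw [k1]
  rcases lt_trichotomy x (r n) with u | u | u
  · have := m (show x ≤ r n - 1 by omega)
    cases o <;> cases hb : exo (st (n + 1)) <;>
      simp only [hb, out, sg, Grid.fst, Bool.not_true, Bool.not_false, forall_true_left] at * <;>
      simp <;> omega
  · subst u
    cases o <;> cases hb : exo (st (n + 1)) <;>
      simp only [hb, out, sg, Grid.fst, Bool.not_true, Bool.not_false, forall_true_left] at * <;>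
      simp <;> omega
  · have := m (show r n ≤ x - 1 by omega)
    cases o <;> cases hb : exo (st (n + 1)) <;>
      simp only [hb, out, sg, Grid.fst, Bool.not_true, Bool.not_false, forall_true_left] at * <;>
      simp <;> omega

/-- the parents of a point on the inner side are on the inner side -/
theorem par_in (h : Side G l o r st) {n : ℕ} (hn : n < l) {x y : ℤ} (hx : G.Ch n x y)
    (hy : 0 ≤ sg o * (y - r (n + 1))) : 0 ≤ sg o * (x - r n) := by
  have g := h.ge n hn
  have := one_le_Sof (st (n + 1))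
  have m := (G.A_lt n).monotone
  obtain ⟨x1, x2⟩ := hx
  by_contra u
  cases o <;> simp only [sg, Grid.fst] at *
  · have := m (show r n ≤ x - 1 by omega); omega
  · have := m (show x ≤ r n - 1 by omega); omega

/-- the children of a point strictly inside are on the inner side -/
theorem ch_in (h : Side G l o r st) {n : ℕ} (hn : n < l) {x y : ℤ} (hx : G.Ch n x y)
    (hy : 1 ≤ sg o * (x - r n)) : 0 ≤ sg o * (y - r (n + 1)) := by
  obtain ⟨c1, c2⟩ := h.ch n hn
  have m := (G.A_lt n).monotone
  obtain ⟨x1, x2⟩ := hx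
  cases o <;> simp only [sg] at *
  · have := m (show x ≤ r n - 1 by omega); omega
  · have := m (show r n ≤ x - 1 by omega); omega

end Side
end Pool.Agent.P.MP_e4ac67_pr.Gr
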