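import Pool.Agent.P.MP_e4ac67_pr.Basic

/-!
Abstract layered grid (universal cover of a triangulation with degrees at least seven, minus a
vertex) and a supersolution principle for weighted sums over simple paths.
-/

open scoped ENNReal

namespace Pool.Agent.P.MP_e4ac67_pr.Gr

/-- sign of a side -/
def sg : Bool → ℤ
  | true => 1
  | false => -1

/-- vertices with two parents -/
def Two (A : ℕ → ℤ → ℤ) : ℕ → ℤ → Prop
  | 0, _ => False
  | n + 1, x => ∃ m, A n m = x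

/-- the children of `(n, x)` are the points `(n + 1, y)` with `A n (x - 1) ≤ y ≤ A n x` -/
structure Grid where
  A : ℕ → ℤ → ℤ
  gap2 : ∀ n m, A n (m - 1) + 2 ≤ A n m
  gap3 : ∀ n m, ¬Two A n m → A n (m - 1) + 3 ≤ A n m

abbrev Pt := ℕ × ℤ

/-- what is remembered about the past at a vertex -/
inductive St
  | lat (s : Bool)
  | P1
  | PP (s : Bool)
  | C0
  | C (s : Bool)
  deriving DecidableEq

def ust : Option Bool → St
  | none => .P1
  | some s => .PP s

def dear (a : St) : Option Bool → Bool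
  | none => a = .lat true ∨ a = .lat false
  | some s => a = .lat s ∨ a = .PP (!s)

def lear (a : St) (s : Bool) : Bool := a = .P1 ∨ a = .PP s

def vis (a : St) (s : Bool) : Bool := a = .lat s ∨ a = .C s

def cst (s : Bool) : ℕ → St
  | 0 => .C (!s)
  | _ + 1 => .C0

/-- step weights of a finite automaton -/
structure Wt (Q : Type) where
  wl : Q → Q → Bool → ℝ≥0∞
  wu : Q → Q → ℝ≥0∞
  wd : Q → Q → Bool → ℝ≥0∞

/-- data of one line -/
structure Ln (Q : Type) where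
  two : ℤ → Prop
  lk : Prop
  K : Q → Q → ℤ → Bool → ℕ → ℝ≥0∞
  fac : Q → ℤ → ℝ≥0∞
  fo : Q → ℤ → ℝ≥0∞

variable {Q : Type} [Fintype Q]

def Ln.ok (L : Ln Q) : St → ℤ → Prop
  | .P1, x => ¬L.lk ∧ ¬L.two x
  | .PP _, x => L.two x
  | _, _ => True

/-- target of a hop -/
def hop (x : ℤ) (s : Bool) (d : ℕ) : ℤ := x + sg s * (d + 1)

noncomputable def LOp (W : Wt Q) (L : Ln Q) (Φ : Q → St → ℤ → ℝ≥0∞) (q : Q) (a : St) (x : ℤ) :
    ℝ≥0∞ :=
  ∑ s : Bool, ∑ r, (ind (vis a s = false) * W.wl q r (lear a s) *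
      (L.fac r (hop x s 0) * Φ r (.lat (!s)) (hop x s 0)) +
    ∑' d : ℕ, ind (d = 0 → vis a s = false) * L.K q r x s d *
      (L.fac r (hop x s d) * Φ r (cst s d) (hop x s d)))

def LineSup (W : Wt Q) (L : Ln Q) (Φ src : Q → St → ℤ → ℝ≥0∞) : Prop :=
  ∀ q a x, L.ok a x → src q a x + L.fo q x * LOp W L Φ q a x ≤ Φ q a x

theorem LOp_add (W : Wt Q) (L : Ln Q) (Φ Ψ : Q → St → ℤ → ℝ≥0∞) (q : Q) (a : St) (x : ℤ) :
    LOp W L (fun q a x => Φ q a x + Ψ q a x) q a x = LOp W L Φ q a x + LOp W L Ψ q a x := by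
  simp only [LOp, mul_add, ENNReal.tsum_add, ← Finset.sum_add_distrib]
  refine Finset.sum_congr rfl fun s _ => Finset.sum_congr rfl fun r _ => ?_
  ring

theorem LOp_tsum {ι : Type} (W : Wt Q) (L : Ln Q) (Φ : ι → Q → St → ℤ → ℝ≥0∞) (c : ι → ℝ≥0∞)
    (q : Q) (a : St) (x : ℤ) :
    LOp W L (fun q a x => ∑' i, Φ i q a x * c i) q a x = ∑' i, LOp W L (Φ i) q a x * c i := by
  simp only [LOp, Finset.sum_mul, add_mul]
  rw [Summable.tsum_finsetSum fun _ _ => ENNReal.summable]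
  refine Finset.sum_congr rfl fun s _ => ?_
  rw [Summable.tsum_finsetSum fun _ _ => ENNReal.summable]
  refine Finset.sum_congr rfl fun r _ => ?_
  rw [ENNReal.tsum_add]
  congr 1
  · simp only [← ENNReal.tsum_mul_left, mul_assoc]
  · simp only [← ENNReal.tsum_mul_left, ← ENNReal.tsum_mul_right, mul_assoc]
    exact ENNReal.tsum_comm

theorem LineSup.add {W : Wt Q} {L : Ln Q} {Φ Ψ s t : Q → St → ℤ → ℝ≥0∞} (h : LineSup W L Φ s)
    (h' : LineSup W L Ψ t) :
    LineSup W L (fun q a x => Φ q a x + Ψ q a x) (fun q a x => s q a x + t q a x) := by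
  intro q a x hx
  rw [LOp_add, mul_add]
  calc _ = (s q a x + L.fo q x * LOp W L Φ q a x) + (t q a x + L.fo q x * LOp W L Ψ q a x) := by
        ring
    _ ≤ _ := add_le_add (h q a x hx) (h' q a x hx)

theorem LineSup.tsum {ι : Type} {W : Wt Q} {L : Ln Q} {Φ s : ι → Q → St → ℤ → ℝ≥0∞}
    (h : ∀ i, LineSup W L (Φ i) (s i)) (c : ι → ℝ≥0∞) :
    LineSup W L (fun q a x => ∑' i, Φ i q a x * c i) (fun q a x => ∑' i, s i q a x * c i) := by
  intro q a x hx
  rw [LOp_tsum, ← ENNReal.tsum_mul_left, ← ENNReal.tsum_add]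
  refine ENNReal.tsum_le_tsum fun i => ?_
  rw [← mul_assoc, ← add_mul]
  exact mul_le_mul' (h i q a x hx) le_rfl

theorem LineSup.src_mono {W : Wt Q} {L : Ln Q} {Φ s t : Q → St → ℤ → ℝ≥0∞} (h : LineSup W L Φ s)
    (ht : ∀ q a x, L.ok a x → t q a x ≤ s q a x) : LineSup W L Φ t :=
  fun q a x hx => (add_le_add (ht q a x hx) le_rfl).trans (h q a x hx)

namespace Grid
variable (G : Grid)

def Ch (n : ℕ) (x y : ℤ) : Prop := G.A n (x - 1) ≤ y ∧ y ≤ G.A n x

def Adj (v u : Pt) : Prop :=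
  (∃ s, u = (v.1, hop v.2 s 0)) ∨ (u.1 = v.1 + 1 ∧ G.Ch v.1 v.2 u.2) ∨
    (v.1 = u.1 + 1 ∧ G.Ch u.1 u.2 v.2)

/-- on which side the parent `(n, x)` of `(n + 1, y)` sits (`none`: unique parent) -/
def kd (n : ℕ) (x y : ℤ) : Option Bool :=
  if y = G.A n x then some false else if y = G.A n (x - 1) then some true else none

def Cons : St → Option Pt → Pt → Set Pt → Prop
  | .lat s, prev, v, Vis => prev = some (v.1, hop v.2 s 0) ∧ (v.1, hop v.2 s 0) ∈ Vis
  | .C0, _, _, _ => True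
  | .C s, _, v, Vis => (v.1, hop v.2 s 0) ∈ Vis
  | a, prev, v, Vis => ∃ n x, v.1 = n + 1 ∧ prev = some (n, x) ∧ (n, x) ∈ Vis ∧ G.Ch n x v.2 ∧
      a = ust (G.kd n x v.2)

def Ear (prev : Option Pt) (u : Pt) : Prop := ∃ w, prev = some w ∧ G.Adj w u

theorem A_lt (n : ℕ) : StrictMono (G.A n) :=
  strictMono_int_of_lt_succ fun m => by have := G.gap2 n (m + 1); simp at this; omega

theorem A_gap (n : ℕ) (x : ℤ) (d : ℕ) : G.A n x + 2 * d ≤ G.A n (x + d) := by
  induction d with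
  | zero => simp
  | succ d ih =>
    have := G.gap2 n (x + (d + 1 : ℕ))
    rw [show x + ((d + 1 : ℕ) : ℤ) - 1 = x + d by push_cast; ring] at this
    push_cast at this ih ⊢; omega

theorem kd_none {n : ℕ} {x y : ℤ} (h : G.Ch n x y) (hk : G.kd n x y = none) :
    G.A n (x - 1) < y ∧ y < G.A n x := by
  unfold kd at hk
  split_ifs at hk with h1 h2
  exact ⟨lt_of_le_of_ne h.1 (Ne.symm h2), lt_of_le_of_ne h.2 h1⟩

theorem kd_false {n : ℕ} {x y : ℤ} (hk : G.kd n x y = some false) : y = G.A n x := by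
  unfold kd at hk
  split_ifs at hk with h1 h2 <;> simp_all

theorem kd_true {n : ℕ} {x y : ℤ} (hk : G.kd n x y = some true) : y = G.A n (x - 1) := by
  unfold kd at hk
  split_ifs at hk with h1 h2 <;> simp_all

theorem not_two {n : ℕ} {x y : ℤ} (h1 : G.A n (x - 1) < y) (h2 : y < G.A n x) :
    ¬Two G.A (n + 1) y := by
  rintro ⟨m, rfl⟩
  have a := (G.A_lt n).lt_iff_lt.1 h1
  have b := (G.A_lt n).lt_iff_lt.1 h2
  omega

/-- two parents of the same point -/
theorem ch_two {n : ℕ} {x x' y : ℤ} (h : G.Ch n x y) (h' : G.Ch n x' y) :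
    x = x' ∨ (x' = x + 1 ∧ y = G.A n x) ∨ (x = x' + 1 ∧ y = G.A n x') := by
  have a : x - 1 ≤ x' := (G.A_lt n).le_iff_le.1 (h.1.trans h'.2)
  have b : x' - 1 ≤ x := (G.A_lt n).le_iff_le.1 (h'.1.trans h.2)
  rcases (by omega : x = x' ∨ x' = x + 1 ∨ x = x' + 1) with e | e | e
  · exact Or.inl e
  · refine Or.inr (Or.inl ⟨e, le_antisymm h.2 ?_⟩)
    have := h'.1; rwa [e, add_sub_cancel_right] at this
  · refine Or.inr (Or.inr ⟨e, le_antisymm h'.2 ?_⟩)
    have := h.1; rwa [e, add_sub_cancel_right] at this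

theorem kd_last (n : ℕ) (x : ℤ) : G.kd n x (G.A n x) = some false := by simp [kd]

theorem kd_first (n : ℕ) (x : ℤ) : G.kd n (x + 1) (G.A n x) = some true := by
  have := G.A_lt n (show x < x + 1 by omega)
  simp [kd, this.ne]

theorem kd_inj {n : ℕ} {x x' y : ℤ} (h : G.Ch n x y) (h' : G.Ch n x' y)
    (e : G.kd n x y = G.kd n x' y) : x = x' := by
  rcases G.ch_two h h' with e' | ⟨rfl, rfl⟩ | ⟨rfl, rfl⟩
  · exact e'
  · rw [kd_last, kd_first] at e; simp at e
  · rw [kd_last, kd_first] at e; simp at e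

theorem ust_inj {k k' : Option Bool} (h : ust k = ust k') : k = k' := by
  rcases k with _ | k <;> rcases k' with _ | k' <;> simp_all [ust]

theorem cons_ust {n : ℕ} {x y : ℤ} (h : G.Ch n x y) {Vis : Set Pt} (hv : (n, x) ∈ Vis) :
    G.Cons (ust (G.kd n x y)) (some (n, x)) (n + 1, y) Vis := by
  have : ∃ n' x', ((n + 1, y) : Pt).1 = n' + 1 ∧ some (n, x) = some (n', x') ∧ (n', x') ∈ Vis ∧
      G.Ch n' x' (n + 1, y).2 ∧ ust (G.kd n x y) = ust (G.kd n' x' (n + 1, y).2) :=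
    ⟨n, x, rfl, rfl, hv, h, rfl⟩
  rcases hk : G.kd n x y with _ | s <;> rw [hk] at this <;> exact this

theorem cons_of_ust {k : Option Bool} {prev : Option Pt} {v : Pt} {Vis : Set Pt}
    (h : G.Cons (ust k) prev v Vis) : ∃ n x, v.1 = n + 1 ∧ prev = some (n, x) ∧ (n, x) ∈ Vis ∧
      G.Ch n x v.2 ∧ k = G.kd n x v.2 := by
  rcases k with _ | s
  · obtain ⟨n, x, h1, h2, h3, h4, h5⟩ := h
    exact ⟨n, x, h1, h2, h3, h4, ust_inj h5⟩
  · obtain ⟨n, x, h1, h2, h3, h4, h5⟩ := h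
    exact ⟨n, x, h1, h2, h3, h4, ust_inj h5⟩

theorem vis_mem {a : St} {prev : Option Pt} {v : Pt} {Vis : Set Pt} (h : G.Cons a prev v Vis)
    {s : Bool} (hs : (v.1, hop v.2 s 0) ∉ Vis) : vis a s = false := by
  by_contra hv
  simp only [vis, Bool.not_eq_false, decide_eq_true_eq] at hv
  rcases hv with rfl | rfl
  · exact hs h.2
  · exact hs h

theorem lear_ear {a : St} {prev : Option Pt} {v : Pt} {Vis : Set Pt} (h : G.Cons a prev v Vis)
    {s : Bool} (hs : lear a s = true) : G.Ear prev (v.1, hop v.2 s 0) := by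
  simp only [lear, decide_eq_true_eq] at hs
  rcases hs with rfl | rfl
  · obtain ⟨n, x, h1, h2, -, h4, h5⟩ := G.cons_of_ust (k := none) h
    obtain ⟨a, b⟩ := G.kd_none h4 h5.symm
    refine ⟨_, h2, Or.inr (Or.inl ⟨h1, ?_⟩)⟩
    cases s <;> constructor <;> simp [hop, sg] <;> omega
  · obtain ⟨n, x, h1, h2, -, h4, h5⟩ := G.cons_of_ust (k := some s) h
    refine ⟨_, h2, Or.inr (Or.inl ⟨h1, ?_⟩)⟩
    have := G.gap2 n x
    cases s
    · have := G.kd_false h5.symm
      constructor <;> simp [hop, sg] <;> omega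
    · have := G.kd_true h5.symm
      constructor <;> simp [hop, sg] <;> omega

theorem dear_ear {a : St} {prev : Option Pt} {n : ℕ} {x y : ℤ} {Vis : Set Pt}
    (h : G.Cons a prev (n + 1, y) Vis) (hc : G.Ch n x y) (hs : dear a (G.kd n x y) = true) :
    G.Ear prev (n, x) := by
  have hg := G.gap2 n x
  rcases hk : G.kd n x y with _ | s
  · obtain ⟨a1, a2⟩ := G.kd_none hc hk
    simp only [hk, dear, decide_eq_true_eq] at hs
    rcases hs with rfl | rfl <;> refine ⟨_, h.1, Or.inr (Or.inr ⟨rfl, ?_⟩)⟩ <;> constructor <;>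
      simp [hop, sg] <;> omega
  · simp only [hk, dear, decide_eq_true_eq] at hs
    rcases hs with rfl | rfl
    · refine ⟨_, h.1, Or.inr (Or.inr ⟨rfl, ?_⟩)⟩
      cases s
      · have := G.kd_false hk
        constructor <;> simp [hop, sg] <;> omega
      · have := G.kd_true hk
        constructor <;> simp [hop, sg] <;> omega
    · obtain ⟨n', x', h1, h2, -, h4, h5⟩ := G.cons_of_ust (k := some (!s)) h
      obtain rfl : n = n' := by simpa using h1
      refine ⟨_, h2, Or.inl ?_⟩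
      rcases G.ch_two hc h4 with e | ⟨rfl, e⟩ | ⟨rfl, e⟩
      · subst e; simp only at h5; rw [hk] at h5; cases s <;> simp at h5
      · exact ⟨false, by simp [hop, sg]⟩
      · exact ⟨true, by simp [hop, sg]⟩

theorem blk_mem {a : St} {prev : Option Pt} {n : ℕ} {x y : ℤ} {Vis : Set Pt}
    (h : G.Cons a prev (n + 1, y) Vis) (hc : G.Ch n x y) (hv : (n, x) ∉ Vis) :
    a ≠ ust (G.kd n x y) := by
  rintro rfl
  obtain ⟨n', x', h1, -, h3, h4, h5⟩ := G.cons_of_ust h
  obtain rfl : n = n' := by simpa using h1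
  exact hv (by rw [G.kd_inj hc h4 h5]; exact h3)

end Grid
end Pool.Agent.P.MP_e4ac67_pr.Gr
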