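import Pool.Agent.P.MP_e4ac67_pr.G.Spec

/-! The three kinds of sums that the tables bound. -/

open scoped ENNReal

namespace Pool.Agent.P.MP_e4ac67_pr.Gr

variable {Q : Type} [Fintype Q]

namespace Spec
variable (P : Spec Q) {G : Grid} (T : Tube G)

/-- all simple paths from `v` that avoid `Vis`, with the run of the automaton from the state `q` -/
noncomputable def paths (q : Q) (prev : Option Pt) (v : Pt) (Vis : Set Pt) : ℝ≥0∞ :=
  ∑' L : List (Pt × Q), ind (Sys.Simple G v (L.map Prod.fst) Vis) * (P.sys T).runW q prev v L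

/-- paths from a tube vertex; they may come back to it -/
noncomputable def loops (q : Q) (b : Pt) : ℝ≥0∞ := ∑' L : List (Pt × Q),
  ind ((b :: L.map Prod.fst).IsChain G.Adj ∧ (L.map Prod.fst).Nodup) * (P.sys T).runW q none b L

/-- paths from the tube vertices below the level of the centre, with charges `ch` -/
noncomputable def low (q : Q) (ch : Pt → ℝ≥0∞) : ℝ≥0∞ :=
  ∑' b : Pt, ind (T.Tz b ∧ b.1 ≤ T.l) * (ch b * P.loops T q b)

/-- paths from the lateral neighbour of the centre in the tube -/
noncomputable def lat (q : Q) : ℝ≥0∞ :=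
  ind (wof (T.st P.so (T.l + 1)) = 1) * P.loops T q (T.l + 1, out P.so T.z 1)

/-- admissible charges: `c0` for the parent, `ti` per further level, `tl` for an added vertex -/
structure Chg (o : Bool) (c0 ti tl : ℕ) (ch : Pt → ℝ≥0∞) : Prop where
  par : ch (T.l, T.r o T.l) ≤ vv c0
  anc : ∀ n < T.l, ch (n, T.r o n) ≤ vv ti ^ (T.l - n)
  add : ∀ n ≤ T.l, ch (n, out o (T.r o n) 1) ≤ vv tl * vv ti ^ (T.l - n)

/-- the `i`-th neighbour of the centre counted from the side `o` (`1 ≤ i ≤ g + 2`) -/
def nbr (o : Bool) (i : ℕ) : Pt :=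
  if i = 1 then (T.l + 1, out o T.z 1) else (T.l + 2, G.fst (T.l + 1) T.z o + sg o * (i - 2))

/-- `a` bounds the lateral start, `b` the other starts -/
def Starts (q : Q) (c0 ti tl a b : ℕ) : Prop :=
  P.lat T q ≤ vv a ∧ ∀ ch, Chg T P.so c0 ti tl ch → P.low T q ch ≤ vv b

/-- `a` bounds the paths from the `i`-th neighbour of the centre -/
def Link (o : Bool) (i : ℕ) (q : Q) (a : ℕ) : Prop :=
  ∀ prev Vis, (∀ w, prev = some w → w ∈ Vis) → P.paths T q prev (nbr T o i) Vis ≤ vv a

omit [Fintype Q] in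
/-- the weight of a path `A 0, ..., A n` with states `ρ 0, ..., ρ n` as a product -/
theorem runW_eq (S : Sys Q) (n : ℕ) : ∀ (A : ℕ → Pt) (ρ : ℕ → Q) (prev : Option Pt),
    S.runW (ρ 0) prev (A 0) ((List.range n).map fun i => (A (i + 1), ρ (i + 1))) =
      (∏ i ∈ Finset.range n, S.om (ρ i) (ρ (i + 1)) (if i = 0 then prev else some (A (i - 1)))
        (A i) (A (i + 1))) * S.term (ρ n) (if n = 0 then prev else some (A (n - 1))) (A n) := by
  induction n with
  | zero => intro A ρ prev; simp [Sys.runW]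
  | succ n ih =>
    intro A ρ prev
    have := ih (fun i => A (i + 1)) (fun i => ρ (i + 1)) (some (A 0))
    rw [List.range_succ_eq_map, List.map_cons, List.map_map, Sys.runW, Finset.prod_range_succ',
      mul_comm (∏ _ ∈ _, _), mul_assoc]
    refine congrArg₂ _ rfl (this.trans (congrArg₂ _ (Finset.prod_congr rfl fun i _ => ?_) ?_))
    · cases i <;> simp
    · cases n <;> simp

end Spec
end Pool.Agent.P.MP_e4ac67_pr.Gr
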