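import Pool.Agent.P.MP_e4ac67_pr.G.Chk

/-! Tables placed on a level of a grid, sums over children, and the excursion kernels. -/

open scoped ENNReal

namespace Pool.Agent.P.MP_e4ac67_pr.Gr

variable {Q : Type} [Fintype Q]

noncomputable def Kof (k : Kb Q) (G : Grid) (n : ℕ) (q r : Q) (x : ℤ) (s : Bool) (d : ℕ) : ℝ≥0∞ :=
  k.val (tyb (Two G.A n x)) (tyb (Two G.A n (hop x s 0))) q r d

/-- a function on a table read at level `n` -/
noncomputable def pull (G : Grid) (n : ℕ) (α : ℤ) (o : Bool) (F : Q → Bool → St → ℤ → ℝ≥0∞) (q : Q)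
    (a : St) (y : ℤ) : ℝ≥0∞ := F q (tyb (Two G.A n y)) (mir o a) (idx α o y)

structure Cov (G : Grid) (n : ℕ) (α : ℤ) (o : Bool) (B : Tb Q) (f : Q → ℤ → ℝ≥0∞) : Prop where
  al : ∀ y, B.al (idx α o y) (tyb (Two G.A n y)) = true
  fac : ∀ r y, f r y ≤ B.fac r (idx α o y)

theorem Grid.two_succ (G : Grid) (n : ℕ) (x : ℤ) (h : Two G.A n x) : ¬Two G.A n (x + 1) := by
  rcases n with _ | n
  · exact h.elim
  · obtain ⟨m, rfl⟩ := h
    have := G.gap2 n (m + 1)
    exact G.not_two (x := m + 1) (by simp) (by simp at this; omega)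

theorem Sys.lineSup_pull (S : Sys Q) {k : Kb Q} {n : ℕ} {α : ℤ} {o : Bool} {B : Tb Q}
    (hK : S.K n = Kof k S.G n) (hc : Cov S.G n α o B fun r y => S.fac r (n, y))
    (hfo : ∀ r y, S.fo r (n, y) ≤ B.fo r (idx α o y)) (hlk : B.lk = true → n = 0)
    (h : ∀ i, B.Ineq S.W k i) : LineSup S.W (S.line n) (pull S.G n α o B.T) (pull S.G n α o B.src) := by
  have hf : Tb.Fits k B ((S.line n).comap α o) := by
    refine ⟨fun i h1 h2 => ?_, hlk, fun i => ?_, fun r i => ?_, fun r i => ?_, fun q r i s d => ?_⟩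
    · cases o
      · refine S.G.two_succ n _ h2 ?_
        simpa [pos, sg, Ln.comap, Sys.line, add_assoc] using h1
      · refine S.G.two_succ n _ h1 ?_
        simpa [pos, sg, Ln.comap, Sys.line, add_assoc] using h2
    · simpa only [idx_pos, Ln.comap, Sys.line] using hc.al (pos α o i)
    · simpa only [idx_pos, Ln.comap, Sys.line] using hc.fac r (pos α o i)
    · simpa only [idx_pos, Ln.comap, Sys.line] using hfo r (pos α o i)
    · simp only [Ln.comap, Sys.line, hK, Kof, pos_hop, le_refl]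
  have := (Tb.lineSup hf h).comap
  simp only [Ln.comap, pos_idx] at this
  exact this

namespace Grid
variable (G : Grid)

/-- the first child of `(n, x)` in direction `s` -/
def fst (n : ℕ) (x : ℤ) : Bool → ℤ
  | true => G.A n (x - 1)
  | false => G.A n x

theorem ch_fst (n : ℕ) (x : ℤ) (s : Bool) : G.Ch n x (G.fst n x s) := by
  have := G.gap2 n x
  cases s <;> constructor <;> simp only [fst] <;> omega

theorem kd_fst (n : ℕ) (x : ℤ) (s : Bool) : G.kd n x (G.fst n x s) = some s := by
  cases s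
  · exact G.kd_last n x
  · simpa [fst] using G.kd_first n (x - 1)

theorem two_fst (n : ℕ) (x : ℤ) (s : Bool) : Two G.A (n + 1) (G.fst n x s) := by
  cases s <;> exact ⟨_, rfl⟩

theorem kd_some {n : ℕ} {x y : ℤ} {s : Bool} (h : G.kd n x y = some s) : y = G.fst n x s := by
  cases s
  exacts [G.kd_false h, G.kd_true h]

theorem ust_eq {n : ℕ} {x y : ℤ} {s : Bool} (h : G.Ch n x y) (hy : y ≠ G.fst n x s) (o : Bool) :
    mir o (ust (G.kd n x y)) = cond (tyb (Two G.A (n + 1) y)) (.PP (!(sd o s))) .P1 := by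
  rcases hk : G.kd n x y with _ | s'
  · obtain ⟨a, b⟩ := G.kd_none h hk
    rw [tyb_false.2 (G.not_two a b)]; rfl
  · have e := G.kd_some hk
    rw [tyb_true.2 (e ▸ G.two_fst n x s')]
    have : s' ≠ s := fun h' => hy (h' ▸ e)
    cases s <;> cases s' <;> cases o <;> first | rfl | exact (this rfl).elim

end Grid

theorem bey_idx (α : ℤ) (o s : Bool) (j y : ℤ) :
    Bey (sd o s) (idx α o j) (idx α o y) ↔ Bey s j y := by
  cases o <;> cases s <;> simp only [Bey, sd, idx, sg, cond_true, cond_false, Bool.not_true,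
    Bool.not_false] <;> omega

omit [Fintype Q] in
theorem chain_le {G : Grid} {n : ℕ} {α : ℤ} {o : Bool} {B : Tb Q} {f : Q → ℤ → ℝ≥0∞}
    (hc : Cov G (n + 1) α o B f) {x y1 : ℤ} {s : Bool} (h1 : ¬Bey s y1 (G.fst n x s))
    (hS : ∀ i, Bey (sd o s) (idx α o y1) i → B.SIneq (sd o s) i) (r : Q) :
    ∑' y, ind (G.Ch n x y ∧ Bey s y1 y) * (f r y * pull G (n + 1) α o B.T r (ust (G.kd n x y)) y) ≤
      B.S r (sd o s) (idx α o y1) := by
  let p : ℕ → ℤ := fun i => y1 + sg s * i
  have hp : ∀ i, p (i + 1) = hop (p i) s 0 := fun i => by simp only [p, hop]; push_cast; ring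
  have hb : ∀ i, Bey s y1 (p i) := fun i => by cases s <;> simp [Bey, p, sg]
  have hbw : ∀ i, G.Ch n x (p (i + 1)) → G.A n (x - 1) < p i ∧ p i < G.A n x := fun i h => by
    have := h.1; have := h.2
    cases s <;> simp only [p, Bey, sg, Grid.fst] at * <;> push_cast at * <;> omega
  refine le_trans (tsum_le_of_dec _ (fun i => ind (G.Ch n x (p i)) * (B.fac r (idx α o (p i)) *
    B.T r (tyb (Two G.A (n + 1) (p i))) (cond (tyb (Two G.A (n + 1) (p i))) (.PP (!(sd o s))) .P1)
      (idx α o (p i)))) p fun y hy => ?_) ?_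
  · obtain ⟨h2, h3⟩ := of_ind_mul_ne hy
    refine ⟨(sg s * (y - y1)).toNat, ?_, ?_⟩
    · cases s <;> simp only [p, Bey, sg] at h3 ⊢ <;> omega
    · have : p (sg s * (y - y1)).toNat = y := by
        cases s <;> simp only [p, Bey, sg] at h3 ⊢ <;> omega
      rw [this, ind_of ⟨h2, h3⟩, ind_of h2, one_mul, one_mul, pull,
        G.ust_eq (s := s) h2 (fun e => h1 (e ▸ h3))]
      exact mul_le_mul' (hc.fac r y) le_rfl
  · refine (Tb.tsum_le_of_rec (g := fun i => ind (G.Ch n x (p i)) * B.S r (sd o s) (idx α o (p i)))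
      fun i => ?_).trans (ind_mul_le fun _ => by simp [p])
    have key := hS _ ((bey_idx α o s _ _).2 (hb i)) r _ (hc.al (p i))
    by_cases h : G.Ch n x (p (i + 1))
    · obtain ⟨a, b⟩ := hbw i h
      rw [tyb_false.2 (G.not_two a b)] at key ⊢
      rw [ind_of h, ind_of (A := G.Ch n x (p i)) ⟨a.le, b.le⟩, one_mul, one_mul, one_mul, hp, idx_hop]
      exact key
    · rw [ind_of_not h, zero_mul, add_zero]
      exact mul_le_mul' le_rfl (le_self_add.trans key)

theorem tsum_ind_eq (y0 : ℤ) (g : ℤ → ℝ≥0∞) : ∑' y, ind (y = y0) * g y = g y0 := by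
  rw [tsum_eq_single y0 fun y hy => by rw [ind_of_not hy, zero_mul], ind_of rfl, one_mul]

theorem upS_eq (G : Grid) (W : Wt Q) (f : Q → ℤ → ℝ≥0∞) (n : ℕ) (x : ℤ)
    (Φ : Q → St → ℤ → ℝ≥0∞) (q : Q) : upS G W f n x Φ q =
      ∑ r, W.wu q r * ∑' y, ind (G.Ch n x y) * (f r y * Φ r (ust (G.kd n x y)) y) := by
  rw [upS, Summable.tsum_finsetSum fun _ _ => ENNReal.summable]
  refine Finset.sum_congr rfl fun r _ => ?_
  rw [← ENNReal.tsum_mul_left]
  exact tsum_congr fun y => by ring

/-- all children, read from the first one in direction `s` -/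
theorem upS_le_US {G : Grid} {n : ℕ} {α : ℤ} {o : Bool} {B : Tb Q} {f : Q → ℤ → ℝ≥0∞}
    (hc : Cov G (n + 1) α o B f) (W : Wt Q) (x : ℤ) (s : Bool)
    (hS : ∀ i, Bey (sd o s) (hop (idx α o (G.fst n x s)) (sd o s) 1) i → B.SIneq (sd o s) i)
    (q : Q) : upS G W f n x (pull G (n + 1) α o B.T) q ≤
      B.US W q (sd o s) (idx α o (G.fst n x s)) := by
  rw [upS_eq, Tb.US]
  refine Finset.sum_le_sum fun r _ => mul_le_mul' le_rfl ?_
  set y0 := G.fst n x s with hy0
  set g : ℤ → ℝ≥0∞ := fun y => f r y * pull G (n + 1) α o B.T r (ust (G.kd n x y)) y with hg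
  have hgap := G.gap2 n x
  calc _ ≤ ∑' y, (ind (y = y0) * g y + ind (y = hop y0 s 0) * g y +
        ind (G.Ch n x y ∧ Bey s (hop y0 s 1) y) * g y) := by
        refine ENNReal.tsum_le_tsum fun y => ?_
        rw [← add_mul, ← add_mul]
        refine mul_le_mul' (ind_le fun h => ?_) le_rfl
        by_cases e0 : y = y0
        · rw [ind_of e0, add_assoc]; exact le_self_add
        by_cases e1 : y = hop y0 s 0
        · rw [ind_of e1]; exact le_add_right le_add_self
        rw [ind_of (A := _ ∧ _) ⟨h, ?_⟩]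
        · exact le_add_self
        · have := h.1; have := h.2
          cases s <;> simp only [Bey, hop, sg, hy0, Grid.fst] at * <;> omega
    _ ≤ _ := by
        rw [ENNReal.tsum_add, ENNReal.tsum_add, tsum_ind_eq, tsum_ind_eq]
        refine add_le_add (add_le_add ?_ ?_) ?_
        · simp only [hg, pull, hy0, G.kd_fst, tyb_true.2 (G.two_fst n x s)]
          exact mul_le_mul' (hc.fac r _) le_rfl
        · have h1 : G.A n (x - 1) < hop y0 s 0 ∧ hop y0 s 0 < G.A n x := by
            cases s <;> simp only [hop, sg, hy0, Grid.fst] <;> omega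
          have h2 : G.kd n x (hop y0 s 0) = none := by simp [Grid.kd, h1.1.ne', h1.2.ne]
          simp only [hg, pull, h2, tyb_false.2 (G.not_two h1.1 h1.2), ← idx_hop]
          exact mul_le_mul' (hc.fac r _) le_rfl
        · rw [← idx_hop] at hS ⊢
          refine chain_le hc ?_ hS r
          cases s <;> simp only [Bey, hop, sg, hy0] <;> omega

/-- the children on both sides of a position `y1` between the first and the last child -/
theorem upS_le_split {G : Grid} {n : ℕ} {α : ℤ} {o : Bool} {B : Tb Q} {f : Q → ℤ → ℝ≥0∞}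
    (hc : Cov G (n + 1) α o B f) (W : Wt Q) {x y1 : ℤ} (h1 : G.Ch n x y1)
    (hS : ∀ s i, Bey s (hop (idx α o y1) s 0) i → B.SIneq s i) (q : Q) :
    upS G W f n x (pull G (n + 1) α o B.T) q ≤ ∑ r, W.wu q r *
      (f r y1 * pull G (n + 1) α o B.T r (ust (G.kd n x y1)) y1 +
        ∑ s, ind (y1 ≠ G.fst n x (!(sd o s))) * B.S r s (hop (idx α o y1) s 0)) := by
  rw [upS_eq]
  refine Finset.sum_le_sum fun r _ => mul_le_mul' le_rfl ?_
  set g : ℤ → ℝ≥0∞ := fun y => f r y * pull G (n + 1) α o B.T r (ust (G.kd n x y)) y with hg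
  have key : ∀ s, ∑' y, ind (G.Ch n x y ∧ Bey s (hop y1 s 0) y) * g y ≤
      ind (y1 ≠ G.fst n x (!s)) * B.S r (sd o s) (hop (idx α o y1) (sd o s) 0) := by
    intro s
    have a := h1.1; have b := h1.2
    by_cases e : y1 = G.fst n x (!s)
    · refine le_trans (le_of_eq (ENNReal.tsum_eq_zero.2 fun y => ?_)) zero_le
      rw [ind_of_not, zero_mul]
      rintro ⟨⟨c, d⟩, h2⟩
      cases s <;> simp only [Bey, hop, sg, Grid.fst, Bool.not_true, Bool.not_false] at * <;> omega
    · rw [ind_of e, one_mul, ← idx_hop]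
      refine chain_le hc ?_ (fun i hi => hS _ i (by rwa [← idx_hop])) r
      cases s <;> simp only [Bey, hop, sg, Grid.fst] <;> omega
  calc _ ≤ ∑' y, (ind (y = y1) * g y + (ind (G.Ch n x y ∧ Bey true (hop y1 true 0) y) * g y +
        ind (G.Ch n x y ∧ Bey false (hop y1 false 0) y) * g y)) := by
        refine ENNReal.tsum_le_tsum fun y => ?_
        rw [← add_mul, ← add_mul]
        refine mul_le_mul' (ind_le fun h => ?_) le_rfl
        rcases lt_trichotomy y y1 with e | e | e
        · rw [ind_of (A := _ ∧ Bey false _ _) ⟨h, by simp only [Bey, hop, sg]; omega⟩]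
          exact le_add_left le_add_self
        · rw [ind_of e]; exact le_self_add
        · rw [ind_of (A := _ ∧ Bey true _ _) ⟨h, by simp only [Bey, hop, sg]; omega⟩]
          exact le_add_left le_self_add
    _ ≤ _ := by
        rw [ENNReal.tsum_add, ENNReal.tsum_add, tsum_ind_eq]
        refine add_le_add le_rfl ((add_le_add (key true) (key false)).trans (le_of_eq ?_))
        cases o <;> simp [sd, add_comm]

theorem Tb.M_le {W : Wt Q} {B : Tb Q} {s : Bool} {j : ℤ} (h : ∀ i, Bey s j i → B.MIneq W s i)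
    (q : Q) {i : ℤ} (hi : Bey s j i) : B.M q s i ≤ B.M q s j := by
  have : ∀ n : ℕ, B.M q s (j + sg s * n) ≤ B.M q s j := fun n => by
    induction n with
    | zero => simp
    | succ n ih =>
      refine le_trans ?_ ((h _ (by cases s <;> simp [Bey, sg]) q).2.trans ih)
      exact le_of_eq (by congr 1; simp only [hop]; push_cast; ring)
  convert this (sg s * (i - j)).toNat using 2
  cases s <;> simp only [Bey, sg] at hi ⊢ <;> omega

/-- all children lie beyond the position `j` of the table -/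
theorem upS_le_M {G : Grid} {n : ℕ} {α : ℤ} {o : Bool} {B : Tb Q} {f : Q → ℤ → ℝ≥0∞}
    (hc : Cov G (n + 1) α o B f) (W : Wt Q) (x : ℤ) (s : Bool) {j : ℤ}
    (hS : ∀ i, Bey (sd o s) j i → B.SIneq (sd o s) i)
    (hM : ∀ i, Bey (sd o s) j i → B.MIneq W (sd o s) i)
    (hj : Bey (sd o s) j (idx α o (G.fst n x s))) (q : Q) :
    upS G W f n x (pull G (n + 1) α o B.T) q ≤ B.M q (sd o s) j := by
  refine (upS_le_US hc W x s (fun i hi => hS i ?_) q).trans (((hM _ hj q).1 ?_).trans
    (Tb.M_le hM q hj))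
  · generalize sd o s = s' at *
    cases s' <;> simp only [Bey, hop, sg] at * <;> omega
  · simpa only [tyb_true.2 (G.two_fst n x s)] using hc.al (G.fst n x s)

/-! ### the excursion kernels -/

theorem mir_mir (o : Bool) (a : St) : mir o (mir o a) = a := by
  rcases a with t | _ | t | _ | t <;> simp only [mir, sd_sd]

theorem mir_ust (o : Bool) (k : Option Bool) : mir o (ust k) = ust (k.map (sd o)) := by
  cases k <;> rfl

theorem dear_mir (o : Bool) (a : St) (k : Option Bool) :
    dear (mir o a) (k.map (sd o)) = dear a k := by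
  rcases a with t | _ | t | _ | t <;> rcases k with _ | k <;> cases o <;> (try cases t) <;>
    (try cases k) <;> rfl

/-- numerical weight of a step down to a parent of kind `k` -/
def dN (w : NW Q) (r q : Q) (a : St) (k : Option Bool) : ℕ :=
  cond (decide (a = ust k)) 0 (w.wd q r (dear a k))

omit [Fintype Q] in
theorem dsrc_le (G : Grid) (w : NW Q) (n : ℕ) (x : ℤ) (r q : Q) (a : St) (y : ℤ) (o : Bool) :
    dsrc G w.W n x r q a y ≤
      ind (G.Ch n x y) * vv (dN w r q (mir o a) ((G.kd n x y).map (sd o))) := by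
  refine ind_mul_le fun h => ?_
  have : mir o a ≠ ust ((G.kd n x y).map (sd o)) := fun e =>
    h.2 (by rw [← mir_mir o a, e, ← mir_ust, mir_mir])
  rw [ind_of h.1, one_mul, dN, decide_eq_false this, cond_false, dear_mir]
  exact le_rfl

def vsrc (w : NW Q) (r q : Q) (t : Bool) (a : St) (j : ℕ) : ℕ :=
  cond (Nat.ble j 10) 0 (dN w r q a (cond (Nat.ble j 11) (some true) (cond t (some false) none)))

def anch (j0 j : ℕ) (t : Bool) : Bool :=
  cond (Nat.beq j j0) t (cond (Nat.beq j (j0 + 1) || Nat.beq (j + 1) j0) (!t) true)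

/-- the table of the descent to a vertex whose first child sits at position `11` -/
def vtab (w : NW Q) (r : Q) (wd rl : ℕ) (raw : Q → ℕ → ℕ → ℕ) : NT Q :=
  ⟨false, wd, rl, NN, anch 11, fun _ _ => NN, fun _ _ => NN, vsrc w r, raw⟩

def chkK [NQ Q] (w : NW Q) (r : Q) (wd rl : ℕ) (raw : Q → ℕ → ℕ → ℕ) : Bool :=
  Nat.ble 7 wd && (vtab w r wd rl raw).chk w && (vtab w r wd rl raw).chkS false 9 &&
    (vtab w r wd rl raw).chkM w false 9 && Nat.ble (rl * rl) (w.rho * NN) && allQ fun q =>
      (allB fun t => Nat.ble ((vtab w r wd rl raw).usN w q false 11) (w.a1 t q r * NN ^ 2)) &&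
      Nat.ble ((vtab w r wd rl raw).raw q 17 9) (w.a2 true q r) &&
      Nat.ble ((vtab w r wd rl raw).raw q 17 8) (w.a2 false q r) &&
      Nat.ble ((vtab w r wd rl raw).raw q 17 6) (w.a3 q r)

omit [Fintype Q] in
theorem NT.ext_in (B : NT Q) (f : ℕ → ℕ) {j : ℕ} (h1 : 6 ≤ j) (h2 : j ≤ 6 + B.w) :
    B.ext f j = vv (f j) := by
  unfold NT.ext
  rw [if_neg (by omega), if_neg (by omega), Int.toNat_natCast]

omit [Fintype Q] in
theorem NT.ext_tail (B : NT Q) (f : ℕ → ℕ) (k : ℕ) : B.ext f (6 - k) = vv (f 6) * vv B.rl ^ k := by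
  induction k with
  | zero => simpa using B.ext_in f (j := 6) le_rfl (by omega)
  | succ k ih =>
    rw [show (6 : ℤ) - (k + 1 : ℕ) = 6 - k + -1 by push_cast; ring, B.ext_left _ (by omega), ih]
    ring

omit [Fintype Q] in
theorem NT.ext_one (B : NT Q) (f : ℕ → ℕ) (hr : B.rr = NN) {i : ℤ} (h : 6 ≤ i) :
    B.ext f i = vv (f (B.cl i)) := by
  unfold NT.ext NT.cl
  rw [if_neg (by omega), hr, vv_NN, one_pow, mul_one]
  split_ifs <;> congr 2 <;> omega

omit [Fintype Q] in
/-- the types around a vertex with two parents -/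
theorem anch_ok (G : Grid) (n : ℕ) (B : NT Q) {j0 : ℕ} (h1 : 8 ≤ j0) (h2 : j0 + 2 ≤ 6 + B.w) {α : ℤ}
    {o : Bool} (h : Two G.A n (pos α o j0)) (y : ℤ) :
    anch j0 (B.cl (idx α o y)) (tyb (Two G.A n y)) = true := by
  unfold anch
  cases e0 : Nat.beq (B.cl (idx α o y)) j0
  · cases e1 : Nat.beq (B.cl (idx α o y)) (j0 + 1) || Nat.beq (B.cl (idx α o y) + 1) j0
    · rfl
    · simp only [cond_true, cond_false, Bool.not_eq_true', tyb_false]
      simp only [Bool.or_eq_true, Nat.beq_eq, NT.cl] at e1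
      have : y = pos α o j0 + 1 ∨ y + 1 = pos α o j0 := by
        cases o <;> simp only [idx, pos, sg] at e1 ⊢ <;> omega
      rcases this with rfl | e
      · exact G.two_succ n _ h
      · exact fun h' => G.two_succ n _ h' (e ▸ h)
  · simp only [cond_true, tyb_true]
    simp only [Nat.beq_eq, NT.cl] at e0
    have : y = pos α o j0 := by cases o <;> simp only [idx, pos, sg] at e0 ⊢ <;> omega
    exact this ▸ h

theorem Grid.gap5 (G : Grid) (n : ℕ) (x : ℤ) : G.A n (x - 1) + 5 ≤ G.A n (x + 1) := by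
  have a := G.gap2 n x
  have b := G.gap2 n (x + 1)
  rw [add_sub_cancel_right] at b
  by_cases h : Two G.A n x
  · have := G.gap3 n (x + 1) (G.two_succ n x h)
    rw [add_sub_cancel_right] at this
    omega
  · have := G.gap3 n x h
    omega

theorem Sys.ker_ok [NQ Q] (S : Sys Q) {w : NW Q} (hW : S.W = w.W) (hK : ∀ n, S.K n = Kof w.k S.G n)
    (hf : ∀ r v, S.fac r v ≤ 1) (hfo : ∀ r v, S.fo r v ≤ 1) {wd rl : ℕ}
    {raw : Q → Q → ℕ → ℕ → ℕ} (h : ∀ r, chkK w r wd rl (raw r) = true) (n : ℕ) (x : ℤ)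
    (s : Bool) (d : ℕ) (r : Q) : ∃ V, LineSup S.W (S.line (n + 1)) V
      (fun q a y => S.fo q (n + 1, y) * dsrc S.G S.W n (hop x s d) r q a y) ∧
    ∀ q, upS S.G S.W (fun r y => S.fac r (n + 1, y)) n x V q ≤ S.K n q r x s d := by
  have h := h r
  simp only [chkK, Bool.and_eq_true, Nat.ble_eq] at h
  obtain ⟨⟨⟨⟨⟨h7, h1⟩, h2⟩, h3⟩, h4⟩, h5⟩ := h
  set B := vtab w r wd rl (raw r) with hB
  have hw : B.w = wd := rfl
  set x' := hop x s d with hx'
  set α := S.G.fst n x' s - sg s * 11 with hα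
  have hpos : pos α s (11 : ℕ) = S.G.fst n x' s := by simp [pos, hα]
  have hc : Cov S.G (n + 1) α s B.tb fun r y => S.fac r (n + 1, y) :=
    ⟨anch_ok S.G (n + 1) B (j0 := 11) (by omega) (by simp only [hB, vtab]; omega)
      (hpos ▸ S.G.two_fst n x' s), fun r y => (hf _ _).trans (le_of_eq vv_NN.symm)⟩
  refine ⟨pull S.G (n + 1) α s B.tb.T, (S.lineSup_pull (hK _) hc (fun r y => (hfo _ _).trans
    (le_of_eq vv_NN.symm)) (by simp [hB, vtab, NT.tb]) (hW ▸ B.chk_sound w h1)).src_mono ?_, ?_⟩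
  · intro q a y _
    rw [hW]
    refine (mul_le_of_le_one_left' (hfo _ _)).trans ((dsrc_le _ w n x' r q a y s).trans
      (ind_mul_le fun hy => le_of_eq ?_))
    have a1 := hy.1
    have a2 := hy.2
    have hi : 11 ≤ idx α s y := by cases s <;> simp only [idx, hα, sg, Grid.fst] <;> omega
    simp only [pull, NT.tb]
    rw [B.ext_one _ rfl (by omega)]
    have e1 : Nat.ble (B.cl (idx α s y)) 10 = false := by
      rw [← Bool.not_eq_true, Nat.ble_eq]; simp only [NT.cl]; omega
    simp only [hB, vtab, vsrc] at e1 ⊢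
    rw [e1, cond_false]
    congr 2
    by_cases e : y = S.G.fst n x' s
    · have : Nat.ble (B.cl (idx α s y)) 11 = true := by
        rw [Nat.ble_eq, e, ← hpos, idx_pos]; simp only [NT.cl]; omega
      simp only [hB, vtab] at this
      rw [this, e, S.G.kd_fst]
      cases s <;> rfl
    · have : Nat.ble (B.cl (idx α s y)) 11 = false := by
        rw [← Bool.not_eq_true, Nat.ble_eq]
        simp only [NT.cl, hB, vtab]
        cases s <;> simp only [idx, hα, sg, Grid.fst] at e hi ⊢ <;> omega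
      simp only [hB, vtab] at this
      rw [this, cond_false]
      have := S.G.ust_eq hy e s
      rw [mir_ust] at this
      cases ht : tyb (Two S.G.A (n + 1) y) <;> rw [ht] at this <;> apply Grid.ust_inj <;>
        rw [this] <;> cases s <;> rfl
  · intro q
    have h6 := allQ_spec h5 q
    simp only [Bool.and_eq_true, Nat.ble_eq] at h6
    obtain ⟨⟨⟨k1, k2⟩, k3⟩, k4⟩ := h6
    have hsd : sd s (!s) = false := by cases s <;> rfl
    have hS := fun i => B.chkS_sound h2 (i := i)
    have hM := fun i => B.chkM_sound w h3 (i := i)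
    have key : ∀ j : ℤ, j ≤ 9 → idx α s (S.G.fst n x (!s)) ≤ j → upS S.G S.W (fun r y =>
        S.fac r (n + 1, y)) n x (pull S.G (n + 1) α s B.tb.T) q ≤ B.ext (B.raw q 17) j := by
      intro j j9 hj
      have := upS_le_M hc w.W x (!s) (j := j)
      rw [hsd] at this
      rw [hW]
      exact this (fun i hi => hS i (by simp only [Bey, sg] at hi ⊢; omega))
        (fun i hi => hM i (by simp only [Bey, sg] at hi ⊢; omega)) (by simp only [Bey, sg]; omega) q
    rw [hK, Kof]
    rcases d with _ | _ | d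
    · have e : idx α s (S.G.fst n x (!s)) = (11 : ℕ) := by
        cases s <;> simp [idx, hα, hx', sg, Grid.fst, hop, sub_eq_add_neg]
      have := upS_le_US hc w.W x (!s)
      rw [hsd, e] at this
      rw [hW]
      refine (this (fun i hi => hS i (by simp only [Bey, sg, hop] at hi ⊢; omega)) q).trans
        ((B.us_le w (by omega) q false).trans ?_)
      have := vk_mono 3 (Nat.ble_eq ▸ allB_spec k1 (tyb (Two S.G.A n x)))
      rwa [vk_pow 1 2] at this
    · have g2 := S.G.gap2 n (hop x s 0)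
      cases ht : tyb (Two S.G.A n (hop x s 0))
      · have g3 := S.G.gap3 n _ (tyb_false.1 ht)
        refine (key (8 : ℕ) (by omega) ?_).trans
          ((B.ext_in _ (by omega) (by omega)).trans_le (vv_mono k3))
        cases s <;> simp only [idx, hα, hx', sg, Grid.fst, hop, Bool.not_true, Bool.not_false] at g3 ⊢ <;>
          ring_nf at g3 ⊢ <;> omega
      · refine (key (9 : ℕ) (by omega) ?_).trans
          ((B.ext_in _ (by omega) (by simp only [hB, vtab]; omega)).trans_le (vv_mono k2))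
        cases s <;> simp only [idx, hα, hx', sg, Grid.fst, hop, Bool.not_true, Bool.not_false] at g2 ⊢ <;>
          ring_nf at g2 ⊢ <;> omega
    · refine (key (6 - 2 * d) (by omega) ?_).trans ?_
      · cases s
        · have g5 := S.G.gap5 n (x - 2)
          have g2 := S.G.A_gap n (x - 3 - d) d
          simp only [idx, hα, hx', sg, Grid.fst, hop, Bool.not_false]
          push_cast
          ring_nf at g5 g2 ⊢
          omega
        · have g5 := S.G.gap5 n (x + 1)
          have g2 := S.G.A_gap n (x + 2) d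
          simp only [idx, hα, hx', sg, Grid.fst, hop, Bool.not_true]
          push_cast
          ring_nf at g5 g2 ⊢
          omega
      · have : B.ext (B.raw q 17) (6 - 2 * d) = vv (B.raw q 17 6) * (vv rl * vv rl) ^ d := by
          rw [← sq, ← pow_mul]
          exact_mod_cast B.ext_tail (B.raw q 17) (2 * d)
        rw [this]
        refine mul_le_mul' (vv_mono k4) (pow_le_pow_left' ?_ d)
        have := vk_mono 2 h4
        have e := vk_pow 1 1 w.rho
        rw [pow_one] at e
        rwa [e, ← vk_mul 1 1] at this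

end Pool.Agent.P.MP_e4ac67_pr.Gr
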