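import Pool.Agent.P.MP_e4ac67_pr.G.Sup

/-! Tables of values on an abstract line, local inequalities, tails and change of coordinates. -/

open scoped ENNReal

namespace Pool.Agent.P.MP_e4ac67_pr.Gr

variable {Q : Type} [Fintype Q]

/-- `i` lies beyond `j` in direction `s` -/
def Bey (s : Bool) (j i : ℤ) : Prop := 0 ≤ sg s * (i - j)

/-- bounds for the excursion kernels -/
structure Kb (Q : Type) where
  a1 : Bool → Q → Q → ℝ≥0∞
  a2 : Bool → Q → Q → ℝ≥0∞
  a3 : Q → Q → ℝ≥0∞
  rho : ℝ≥0∞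

noncomputable def Kb.val (k : Kb Q) (t t1 : Bool) (q r : Q) : ℕ → ℝ≥0∞
  | 0 => k.a1 t q r
  | 1 => k.a2 t1 q r
  | d + 2 => k.a3 q r * k.rho ^ d

noncomputable def tyb (p : Prop) : Bool := by classical exact decide p

theorem tyb_true {p : Prop} : tyb p = true ↔ p := by simp [tyb]
theorem tyb_false {p : Prop} : tyb p = false ↔ ¬p := by simp [tyb]

def okb (lk t : Bool) : St → Bool
  | .P1 => !lk && !t
  | .PP _ => t
  | _ => true

/-- a table: values `T`, envelopes `E` (far hops) and `S` (sums over children) -/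
structure Tb (Q : Type) where
  lk : Bool
  al : ℤ → Bool → Bool
  fac : Q → ℤ → ℝ≥0∞
  fo : Q → ℤ → ℝ≥0∞
  src : Q → Bool → St → ℤ → ℝ≥0∞
  T : Q → Bool → St → ℤ → ℝ≥0∞
  E : Q → Bool → ℤ → ℝ≥0∞
  S : Q → Bool → ℤ → ℝ≥0∞
  M : Q → Bool → ℤ → ℝ≥0∞

namespace Tb
variable (W : Wt Q) (k : Kb Q) (B : Tb Q)

noncomputable def side (q : Q) (t : Bool) (a : St) (i : ℤ) (s t1 t2 : Bool) : ℝ≥0∞ :=
  ∑ r, (ind (vis a s = false) * (B.fac r (hop i s 0) * (W.wl q r (lear a s) *
      B.T r t1 (.lat (!s)) (hop i s 0) + k.a1 t q r * B.T r t1 (.C (!s)) (hop i s 0))) +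
    B.fac r (hop i s 1) * (k.a2 t1 q r * B.T r t2 .C0 (hop i s 1)) +
    k.a3 q r * B.E r s (hop i s 2))

def pat (t : Bool) (i : ℤ) (s t1 t2 : Bool) : Bool :=
  B.al (hop i s 0) t1 && B.al (hop i s 1) t2 && !(t && t1) && !(t1 && t2)

structure Ineq (i : ℤ) : Prop where
  main : ∀ q t a t1 t2 t1' t2', B.al i t = true → okb B.lk t a = true →
    B.pat t i false t1 t2 = true → B.pat t i true t1' t2' = true →
    B.src q t a i + B.fo q i * (B.side W k q t a i false t1 t2 + B.side W k q t a i true t1' t2') ≤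
      B.T q t a i
  env : ∀ r s t, B.al i t = true → B.fac r i * B.T r t .C0 i + k.rho * B.E r s (hop i s 0) ≤ B.E r s i

/-- the inequality for the envelopes of sums over children -/
def SIneq (s : Bool) (i : ℤ) : Prop :=
  ∀ r t, B.al i t = true →
    B.fac r i * B.T r t (cond t (.PP (!s)) .P1) i + cond t 0 (B.S r s (hop i s 0)) ≤ B.S r s i

/-- bound for the sum over the children of a vertex whose children start at `i`, direction `s` -/
noncomputable def US (q : Q) (s : Bool) (i : ℤ) : ℝ≥0∞ :=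
  ∑ r, W.wu q r * (B.fac r i * B.T r true (.PP s) i +
    B.fac r (hop i s 0) * B.T r false .P1 (hop i s 0) + B.S r s (hop i s 1))

def MIneq (s : Bool) (i : ℤ) : Prop :=
  ∀ q, (B.al i true = true → B.US W q s i ≤ B.M q s i) ∧ B.M q s (hop i s 0) ≤ B.M q s i

/-- the table at `j + e` is `c` times the table at `j` -/
structure Scale (e : ℤ) (c : ℝ≥0∞) (j : ℤ) : Prop where
  al : ∀ t, B.al (j + e) t = true → B.al j t = true
  fac : ∀ r, B.fac r (j + e) ≤ B.fac r j
  fo : ∀ r, B.fo r (j + e) ≤ B.fo r j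
  src : ∀ q t a, B.src q t a (j + e) ≤ c * B.src q t a j
  T : ∀ q t a, B.T q t a (j + e) = c * B.T q t a j
  E : ∀ q s, B.E q s (j + e) = c * B.E q s j
  S : ∀ q s, B.S q s (j + e) = c * B.S q s j
  M : ∀ q s, B.M q s (j + e) = c * B.M q s j

theorem hop_add (i e : ℤ) (s : Bool) (d : ℕ) : hop (i + e) s d = hop i s d + e := by
  simp only [hop]; ring

variable {W k B}

theorem side_scale {e : ℤ} {c : ℝ≥0∞} {i : ℤ} {s : Bool}
    (h : ∀ d ≤ 2, B.Scale e c (hop i s d)) (q : Q) (t : Bool) (a : St) (t1 t2 : Bool) :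
    B.side W k q t a (i + e) s t1 t2 ≤ c * B.side W k q t a i s t1 t2 := by
  simp only [side, hop_add, Finset.mul_sum]
  refine Finset.sum_le_sum fun r _ => ?_
  rw [(h 0 (by omega)).T, (h 0 (by omega)).T, (h 1 (by omega)).T, (h 2 le_rfl).E]
  calc _ ≤ ind (vis a s = false) * (B.fac r (hop i s 0) * (W.wl q r (lear a s) *
        (c * B.T r t1 (.lat (!s)) (hop i s 0)) + k.a1 t q r * (c * B.T r t1 (.C (!s)) (hop i s 0)))) +
        B.fac r (hop i s 1) * (k.a2 t1 q r * (c * B.T r t2 .C0 (hop i s 1))) +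
        k.a3 q r * (c * B.E r s (hop i s 2)) := by
        gcongr
        · exact (h 0 (by omega)).fac r
        · exact (h 1 (by omega)).fac r
    _ = _ := by ring

omit [Fintype Q] in
theorem pat_scale {e : ℤ} {c : ℝ≥0∞} {i : ℤ} {s : Bool}
    (h : ∀ d ≤ 2, B.Scale e c (hop i s d)) {t t1 t2 : Bool}
    (hp : B.pat t (i + e) s t1 t2 = true) : B.pat t i s t1 t2 = true := by
  simp only [pat, hop_add, Bool.and_eq_true] at hp ⊢
  exact ⟨⟨⟨(h 0 (by omega)).al _ hp.1.1.1, (h 1 (by omega)).al _ hp.1.1.2⟩, hp.1.2⟩, hp.2⟩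

theorem Ineq.scale {e : ℤ} {c : ℝ≥0∞} {i : ℤ} (h0 : B.Scale e c i)
    (h : ∀ s, ∀ d ≤ 2, B.Scale e c (hop i s d)) (hi : B.Ineq W k i) : B.Ineq W k (i + e) := by
  constructor
  · intro q t a t1 t2 t1' t2' h1 h2 h3 h4
    rw [h0.T]
    refine le_trans ?_ (mul_le_mul' le_rfl (hi.main q t a t1 t2 t1' t2' (h0.al _ h1) h2
      (pat_scale (h _) h3) (pat_scale (h _) h4)))
    calc _ ≤ c * B.src q t a i + B.fo q i * (c * B.side W k q t a i false t1 t2 +
          c * B.side W k q t a i true t1' t2') :=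
          add_le_add (h0.src q t a) (mul_le_mul' (h0.fo q)
            (add_le_add (side_scale (h _) ..) (side_scale (h _) ..)))
      _ = _ := by ring
  · intro r s t h1
    rw [h0.E, h0.T, hop_add, (h s 0 (by omega)).E]
    refine le_trans ?_ (mul_le_mul' le_rfl (hi.env r s t (h0.al _ h1)))
    calc _ ≤ B.fac r i * (c * B.T r t .C0 i) + k.rho * (c * B.E r s (hop i s 0)) := by
          gcongr; exact h0.fac r
      _ = _ := by ring

omit [Fintype Q] in
theorem SIneq.scale {e : ℤ} {c : ℝ≥0∞} {i : ℤ} (h0 : B.Scale e c i)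
    (h : ∀ s, ∀ d ≤ 2, B.Scale e c (hop i s d)) {s : Bool} (hi : B.SIneq s i) :
    B.SIneq s (i + e) := by
  intro r t h1
  rw [h0.S, h0.T, hop_add, (h s 0 (by omega)).S]
  refine le_trans ?_ (mul_le_mul' le_rfl (hi r t (h0.al _ h1)))
  calc _ ≤ B.fac r i * (c * B.T r t (cond t (.PP (!s)) .P1) i) +
        cond t 0 (c * B.S r s (hop i s 0)) := by gcongr; exact h0.fac r
    _ = _ := by cases t <;> simp only [cond_true, cond_false] <;> ring

theorem MIneq.scale {e : ℤ} {c : ℝ≥0∞} {i : ℤ} (h0 : B.Scale e c i)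
    (h : ∀ s, ∀ d ≤ 2, B.Scale e c (hop i s d)) {s : Bool} (hi : B.MIneq W s i) :
    B.MIneq W s (i + e) := by
  intro q
  constructor
  · intro h1
    rw [h0.M]
    refine le_trans ?_ (mul_le_mul' le_rfl ((hi q).1 (h0.al _ h1)))
    simp only [US, hop_add, Finset.mul_sum]
    refine Finset.sum_le_sum fun r _ => ?_
    rw [h0.T, (h s 0 (by omega)).T, (h s 1 (by omega)).S]
    calc _ ≤ W.wu q r * (B.fac r i * (c * B.T r true (.PP s) i) + B.fac r (hop i s 0) *
          (c * B.T r false .P1 (hop i s 0)) + c * B.S r s (hop i s 1)) := by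
          gcongr
          · exact h0.fac r
          · exact (h s 0 (by omega)).fac r
      _ = _ := by ring
  · rw [h0.M, hop_add, (h s 0 (by omega)).M]
    exact mul_le_mul' le_rfl (hi q).2

theorem tsum_le_of_rec {f g : ℕ → ℝ≥0∞} (h : ∀ n, f n + g (n + 1) ≤ g n) : ∑' n, f n ≤ g 0 := by
  have : ∀ N, ∑ n ∈ Finset.range N, f n + g N ≤ g 0 := by
    intro N
    induction N with
    | zero => simp
    | succ N ih => rw [Finset.sum_range_succ, add_assoc]; exact (add_le_add le_rfl (h N)).trans ih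
  rw [ENNReal.tsum_eq_iSup_nat]
  exact iSup_le fun N => le_self_add.trans (this N)

theorem hop_hop (i : ℤ) (s : Bool) (d : ℕ) : hop (hop i s d) s 0 = hop i s (d + 1) := by
  simp only [hop]; push_cast; ring

/-- a table dominates a line -/
structure Fits (k : Kb Q) (B : Tb Q) (L : Ln Q) : Prop where
  two : ∀ i, L.two i → ¬L.two (i + 1)
  lk : B.lk = true → L.lk
  al : ∀ i, B.al i (tyb (L.two i)) = true
  fac : ∀ r i, L.fac r i ≤ B.fac r i
  fo : ∀ r i, L.fo r i ≤ B.fo r i
  K : ∀ q r i s d, L.K q r i s d ≤ k.val (tyb (L.two i)) (tyb (L.two (hop i s 0))) q r d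

omit [Fintype Q] in
theorem Fits.nand {L : Ln Q} (h : Fits k B L) (i : ℤ) (s : Bool) :
    (!(tyb (L.two i) && tyb (L.two (hop i s 0)))) = true := by
  simp only [Bool.not_eq_true', Bool.and_eq_false_imp, tyb_true, tyb_false]
  intro h1 h2
  cases s
  · exact h.two _ h2 (by simpa [hop, sg] using h1)
  · exact h.two _ h1 (by simpa [hop, sg] using h2)

theorem side_le {L : Ln Q} (hf : Fits k B L) (h : ∀ i, B.Ineq W k i) (q : Q) (a : St) (i : ℤ)
    (s : Bool) : ∑ r, (ind (vis a s = false) * W.wl q r (lear a s) * (L.fac r (hop i s 0) *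
      B.T r (tyb (L.two (hop i s 0))) (.lat (!s)) (hop i s 0)) +
      ∑' d : ℕ, ind (d = 0 → vis a s = false) * L.K q r i s d * (L.fac r (hop i s d) *
        B.T r (tyb (L.two (hop i s d))) (cst s d) (hop i s d))) ≤
    B.side W k q (tyb (L.two i)) a i s (tyb (L.two (hop i s 0))) (tyb (L.two (hop i s 1))) := by
  refine Finset.sum_le_sum fun r _ => ?_
  rw [tsum_eq_zero_add' ENNReal.summable, tsum_eq_zero_add' ENNReal.summable, ← add_assoc,
    ← add_assoc]
  refine add_le_add (add_le_add ?_ ?_) ?_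
  · rw [ind_congr (A := 0 = 0 → vis a s = false) (B := vis a s = false) (by simp), mul_assoc,
      mul_assoc, ← mul_add]
    refine mul_le_mul' le_rfl ?_
    rw [mul_add, mul_left_comm, mul_left_comm (L.K _ _ _ _ _)]
    exact add_le_add (mul_le_mul' (hf.fac _ _) le_rfl)
      (mul_le_mul' (hf.fac _ _) (mul_le_mul' (hf.K q r i s 0) le_rfl))
  · rw [ind_of (by simp), one_mul, mul_left_comm]
    exact mul_le_mul' (hf.fac _ _) (mul_le_mul' (hf.K q r i s 1) le_rfl)
  · calc _ ≤ ∑' d : ℕ, k.a3 q r * (k.rho ^ d * (B.fac r (hop i s (d + 2)) *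
          B.T r (tyb (L.two (hop i s (d + 2)))) .C0 (hop i s (d + 2)))) := by
          refine ENNReal.tsum_le_tsum fun d => ?_
          rw [ind_of (by simp), one_mul, ← mul_assoc (k.a3 q r)]
          exact mul_le_mul' (hf.K q r i s (d + 2)) (mul_le_mul' (hf.fac _ _) le_rfl)
      _ ≤ _ := by
          rw [ENNReal.tsum_mul_left]
          refine mul_le_mul' le_rfl ((tsum_le_of_rec
            (g := fun d => k.rho ^ d * B.E r s (hop i s (d + 2))) fun d => ?_).trans (by simp))
          rw [pow_succ, mul_assoc (k.rho ^ d), ← mul_add, show d + 1 + 2 = d + 2 + 1 by ring,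
            ← hop_hop i s (d + 2)]
          exact mul_le_mul' le_rfl ((h _).env r s _ (hf.al _))

theorem lineSup {L : Ln Q} (hf : Fits k B L) (h : ∀ i, B.Ineq W k i) :
    LineSup W L (fun q a i => B.T q (tyb (L.two i)) a i)
      (fun q a i => B.src q (tyb (L.two i)) a i) := by
  intro q a i hok
  have hp : ∀ s, B.pat (tyb (L.two i)) i s (tyb (L.two (hop i s 0))) (tyb (L.two (hop i s 1))) =
      true := fun s => by
    have := hf.nand (hop i s 0) s
    rw [hop_hop] at this
    simp only [pat, hf.al, hf.nand, this, Bool.and_self]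
  have ho : okb B.lk (tyb (L.two i)) a = true := by
    rcases a with s | _ | s | _ | s <;> simp only [okb]
    · have := hf.lk
      cases hb : B.lk
      · simpa [tyb_false] using hok.2
      · exact (hok.1 (this hb)).elim
    · exact tyb_true.2 hok
  refine le_trans (add_le_add le_rfl (mul_le_mul' (hf.fo q i) ?_))
    ((h i).main q _ a _ _ _ _ (hf.al i) ho (hp false) (hp true))
  rw [LOp, Fintype.sum_bool, add_comm]
  exact add_le_add (side_le hf h q a i false) (side_le hf h q a i true)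

end Tb

/-! ### change of coordinates -/

def sd (o s : Bool) : Bool := cond o s (!s)

def mir (o : Bool) : St → St
  | .lat s => .lat (sd o s)
  | .PP s => .PP (sd o s)
  | .C s => .C (sd o s)
  | a => a

def pos (α : ℤ) (o : Bool) (i : ℤ) : ℤ := α + sg o * i

def idx (α : ℤ) (o : Bool) (x : ℤ) : ℤ := sg o * (x - α)

theorem pos_idx (α : ℤ) (o : Bool) (x : ℤ) : pos α o (idx α o x) = x := by
  cases o <;> simp [pos, idx, sg]

theorem idx_pos (α : ℤ) (o : Bool) (i : ℤ) : idx α o (pos α o i) = i := by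
  cases o <;> simp [pos, idx, sg]

theorem idx_hop (α : ℤ) (o : Bool) (x : ℤ) (s : Bool) (d : ℕ) :
    idx α o (hop x s d) = hop (idx α o x) (sd o s) d := by
  cases o <;> cases s <;> simp [idx, hop, sd, sg] <;> ring

theorem pos_hop (α : ℤ) (o : Bool) (i : ℤ) (s : Bool) (d : ℕ) :
    pos α o (hop i s d) = hop (pos α o i) (sd o s) d := by
  cases o <;> cases s <;> simp [pos, hop, sd, sg] <;> ring

theorem sd_sd (o s : Bool) : sd o (sd o s) = s := by cases o <;> cases s <;> rfl
theorem vis_mir (o : Bool) (a : St) (s : Bool) : vis (mir o a) (sd o s) = vis a s := by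
  rcases a with t | _ | t | _ | t <;> cases o <;> cases s <;> (try cases t) <;> rfl
theorem lear_mir (o : Bool) (a : St) (s : Bool) : lear (mir o a) (sd o s) = lear a s := by
  rcases a with t | _ | t | _ | t <;> cases o <;> cases s <;> (try cases t) <;> rfl
theorem mir_lat (o s : Bool) : mir o (.lat (!s)) = .lat (!(sd o s)) := by
  cases o <;> cases s <;> rfl
theorem mir_cst (o s : Bool) (d : ℕ) : mir o (cst s d) = cst (sd o s) d := by
  cases o <;> cases s <;> cases d <;> rfl

def Ln.comap (L : Ln Q) (α : ℤ) (o : Bool) : Ln Q :=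
  ⟨fun i => L.two (pos α o i), L.lk, fun q r i s d => L.K q r (pos α o i) (sd o s) d,
    fun r i => L.fac r (pos α o i), fun r i => L.fo r (pos α o i)⟩

theorem LOp_comap (W : Wt Q) (L : Ln Q) (α : ℤ) (o : Bool) (Φ : Q → St → ℤ → ℝ≥0∞) (q : Q)
    (a : St) (x : ℤ) : LOp W L (fun q a x => Φ q (mir o a) (idx α o x)) q a x =
      LOp W (L.comap α o) Φ q (mir o a) (idx α o x) := by
  unfold LOp
  refine Fintype.sum_equiv ⟨sd o, sd o, sd_sd o, sd_sd o⟩ _ _ fun s => ?_
  simp only [Equiv.coe_fn_mk, Ln.comap, vis_mir, lear_mir, mir_lat, mir_cst, idx_hop, pos_hop,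
    pos_idx, sd_sd]

theorem LineSup.comap {W : Wt Q} {L : Ln Q} {α : ℤ} {o : Bool} {Φ src : Q → St → ℤ → ℝ≥0∞}
    (h : LineSup W (L.comap α o) Φ src) : LineSup W L (fun q a x => Φ q (mir o a) (idx α o x))
      fun q a x => src q (mir o a) (idx α o x) := by
  intro q a x hok
  have := h q (mir o a) (idx α o x) (by
    rcases a with t | _ | t | _ | t <;> simp only [mir, Ln.ok, Ln.comap, pos_idx] <;> exact hok)
  rw [LOp_comap]
  simpa only [Ln.comap, pos_idx] using this

end Pool.Agent.P.MP_e4ac67_pr.Gr
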