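import Pool.Agent.P.MP_e4ac67_pr.G.Geo

/-! Tables placed next to a tube: covering, steps up, steps down, suprema. -/

open scoped ENNReal

namespace Pool.Agent.P.MP_e4ac67_pr.Gr

variable {Q : Type}

/-- the standing assumptions on a problem with numerical weights `w` -/
structure Std (S : Sys Q) (w : NW Q) : Prop where
  hW : S.W = w.W
  hK : ∀ n, S.K n = Kof w.k S.G n
  hf : ∀ r v, S.fac r v ≤ 1
  hfo : ∀ r v, S.fo r v ≤ 1

theorem mx_eq (a b : ℕ) : NT.mx a b = max a b := by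
  show a + (b - a) = _
  omega

theorem vk_NN (k a : ℕ) : vk (k + 1) (a * NN) = vk k a := by simpa using vk_pow k 1 a

theorem vv_mul (a b : ℕ) : vv a * vv b = vk 2 (a * b) := vk_mul 1 1 a b

theorem vv_le_one {a : ℕ} (h : a ≤ NN) : vv a ≤ 1 := (vv_mono h).trans_eq vv_NN

theorem NT.ext_le_cl (B : NT Q) (f : ℕ → ℕ) {i : ℤ} (hl : i < 6 → B.rl ≤ NN)
    (hr : 6 + B.w < i → B.rr ≤ NN) : B.ext f i ≤ vv (f (B.cl i)) := by
  unfold NT.ext NT.cl
  split_ifs with h1 h2
  · rw [show (max 6 (min i (6 + B.w))).toNat = 6 by omega]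
    exact mul_le_of_le_one_right' (pow_le_one' (vv_le_one (hl h1)) _)
  · rw [show (max 6 (min i (6 + B.w))).toNat = 6 + B.w by omega]
    exact mul_le_of_le_one_right' (pow_le_one' (vv_le_one (hr h2)) _)
  · rw [show (max 6 (min i (6 + B.w))).toNat = i.toNat by omega]

theorem NT.ext_eq_cl (B : NT Q) (f : ℕ → ℕ) {i : ℤ} (hl : i < 6 → B.rl = NN)
    (hr : 6 + B.w < i → B.rr = NN) : B.ext f i = vv (f (B.cl i)) := by
  unfold NT.ext NT.cl
  split_ifs with h1 h2
  · rw [show (max 6 (min i (6 + B.w))).toNat = 6 by omega, hl h1, vv_NN, one_pow, mul_one]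
  · rw [show (max 6 (min i (6 + B.w))).toNat = 6 + B.w by omega, hr h2, vv_NN, one_pow, mul_one]
  · rw [show (max 6 (min i (6 + B.w))).toNat = i.toNat by omega]

/-- a pointwise bound on the window extends -/
theorem NT.ext_le_of (B : NT Q) {f g h : ℕ → ℕ} {a b : ℝ≥0∞}
    (H : ∀ j, vv (f j) ≤ vv (g j) * a + vv (h j) * b) (i : ℤ) :
    B.ext f i ≤ B.ext g i * a + B.ext h i * b := by
  unfold NT.ext
  split_ifs
  · exact (mul_le_mul' (H _) le_rfl).trans_eq (by ring)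
  · exact (mul_le_mul' (H _) le_rfl).trans_eq (by ring)
  · exact H _

/-- a table next to the tube -/
def ltab (s J wd rl rr : ℕ) (fac fo : Q → ℕ → ℕ) (src : Q → Bool → St → ℕ → ℕ)
    (raw : Q → ℕ → ℕ → ℕ) : NT Q :=
  ⟨false, wd, rl, rr, fun j t => alD s (J - j) t, fac, fo, src, raw⟩

def dotE [NQ Q] (w : NW Q) (g : Q → ℕ) (q : Q) (e : Bool) : ℕ := sumQ fun r => w.wd q r e * g r

def dotN [NQ Q] (w : NW Q) (g : Q → ℕ) (q : Q) (a : St) (k : Option Bool) : ℕ :=
  @Bool.rec (fun _ => ℕ) (@Bool.rec (fun _ => ℕ) (dotE w g q false) (dotE w g q true) (dear a k)) 0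
    (decide (a = ust k))

def dnT (c : Option Bool → ℕ) (t : Bool) : ℕ :=
  rup 1 (@Bool.rec (fun _ => ℕ) (c none) (Nat.add (c (some false)) (c (some true))) t)

theorem cond_le_dnT (c : Option Bool → ℕ) (t : Bool) :
    cond t (vk 2 (c (some false)) + vk 2 (c (some true))) (vk 2 (c none)) ≤ vv (dnT c t) := by
  refine le_trans (le_of_eq ?_) (le_rup 1 _)
  cases t
  · rfl
  · exact vk_add ..

def NT.chkUv [NQ Q] (U B : NT Q) (lo J ja : ℕ) (f : Q → ℕ → ℕ) : Bool :=
  (allQ fun q => Nat.ble (U.uM q false (ja - 2 * wof lo)) (f q (J - 1))) &&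
    U.chkUp B false (ja - 2 * wof lo - gp1 lo) (J - 2) f

def NT.chkSup [NQ Q] (B : NT Q) (j1 j2 : ℕ) (g : Q → ℕ) : Bool :=
  allR (fun j => !(Nat.ble j1 (j + 6) && Nat.ble (j + 6) j2) || allB fun t => !B.al (j + 6) t ||
    allQ fun q => Nat.ble (B.fac q (j + 6) * B.raw q (slot t .C0) (j + 6)) (g q * NN)) (B.w + 1)

/-- the value of a start at the position `j` -/
def NT.val (B : NT Q) (q : Q) (j : ℕ) : ℕ :=
  NT.mx (B.raw q (slot false .C0) j) (B.raw q (slot true .C0) j)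

def NT.wsv [NQ Q] (U : NT Q) (w : NW Q) (up J : ℕ) (q : Q) : ℕ :=
  cond (exo up && Nat.beq (room up) 0) 0 (rup 1 (U.wsN w q false (J - 1)))

theorem val_le (G : Grid) (n : ℕ) (α : ℤ) (o : Bool) (B : NT Q) (q : Q) {y : ℤ} {j : ℕ}
    (hj : idx α o y = j) (h1 : 6 ≤ j) (h2 : j ≤ 6 + B.w) :
    pull G n α o B.tb.T q .C0 y ≤ vv (B.val q j) := by
  simp only [pull, NT.tb, mir, hj, B.ext_in _ h1 h2, NT.val, mx_eq]
  cases tyb (Two G.A n y)
  exacts [vv_mono (le_max_left _ _), vv_mono (le_max_right _ _)]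

theorem sup_le [NQ Q] {G : Grid} {n : ℕ} {α : ℤ} {o : Bool} {B : NT Q} {f : Q → ℤ → ℝ≥0∞}
    (hc : Cov G n α o B.tb f) {j1 j2 : ℕ} {g : Q → ℕ} (h : B.chkSup j1 j2 g = true) {y : ℤ}
    (hl : idx α o y < 6 → B.rl ≤ NN) (hr : 6 + B.w < idx α o y → B.rr ≤ NN)
    (h1 : j1 ≤ B.cl (idx α o y)) (h2 : B.cl (idx α o y) ≤ j2) (q : Q) :
    f q y * pull G n α o B.tb.T q .C0 y ≤ vv (g q) := by
  have e : B.cl (idx α o y) - 6 + 6 = B.cl (idx α o y) := by unfold NT.cl; omega
  have a := allR_spec h (j := B.cl (idx α o y) - 6) (by unfold NT.cl; omega)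
  rw [e, Nat.ble_eq_true_of_le h1, Nat.ble_eq_true_of_le h2, Bool.and_self, Bool.not_true,
    Bool.false_or] at a
  have b := allB_spec a (tyb (Two G.A n y))
  rw [show B.al (B.cl (idx α o y)) (tyb (Two G.A n y)) = true from hc.al y] at b
  have c := vk_mono 2 (Nat.le_of_ble_eq_true (allQ_spec b q))
  rw [vk_NN, ← vv_mul] at c
  exact (mul_le_mul' (hc.fac q y) (B.ext_le_cl _ hl hr)).trans c

variable [Fintype Q]

theorem dotN_eq [NQ Q] (w : NW Q) (g : Q → ℕ) (q : Q) (a : St) (k : Option Bool) :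
    ∑ r, vv (dN w r q a k) * vv (g r) = vk 2 (dotN w g q a k) := by
  have e : ∀ e, ∑ r, vv (w.wd q r e) * vv (g r) = vk 2 (dotE w g q e) := fun e => by
    rw [dotE, vk_sumQ]
    exact Finset.sum_congr rfl fun r _ => vv_mul ..
  unfold dN dotN
  cases decide (a = ust k)
  · cases dear a k <;> exact e _
  · simp [vv, vk_zero]

theorem dn_le {S : Sys Q} {w : NW Q} (hW : S.W = w.W) (n : ℕ) (F : Fn Q) (o : Bool) (q : Q)
    (a : St) (y : ℤ) (c : Option Bool → ℝ≥0∞) (hc : ∀ x, S.G.Ch n x y → ∑ r, vv (dN w r q (mir o a)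
      ((S.G.kd n x y).map (sd o))) * (S.fac r (n, x) * F r .C0 x) ≤ c ((S.G.kd n x y).map (sd o))) :
    S.dn (n + 1) F q a y ≤ S.fo q (n + 1, y) *
      cond (tyb (Two S.G.A (n + 1) y)) (c (some false) + c (some true)) (c none) := by
  simp only [Sys.dn, mul_assoc, ENNReal.tsum_mul_left]
  refine mul_le_mul' le_rfl ((down_le' S.G S.W n (fun x r => S.fac r (n, x) * F r .C0 x) q a y
    (fun k => c (k.map (sd o))) fun x hx => le_trans (Finset.sum_le_sum fun r _ =>
      mul_le_mul' ?_ le_rfl) (hc x hx)).trans (le_of_eq ?_))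
  · rw [hW]
    exact (dsrc_le _ w n x r q a y o).trans (ind_mul_le fun _ => le_rfl)
  · cases o <;> cases tyb (Two S.G.A (n + 1) y) <;> simp [sd, add_comm]

theorem upS_le_chain {G : Grid} {n : ℕ} {α : ℤ} {o : Bool} {B : Tb Q}
    {f : Q → ℤ → ℝ≥0∞} (hc : Cov G (n + 1) α o B f) (W : Wt Q) {x y1 : ℤ} {s : Bool}
    (h1 : ¬Bey s y1 (G.fst n x s)) (h0 : ∀ r y, ¬Bey s y1 y → f r y = 0)
    (hS : ∀ i, Bey (sd o s) (idx α o y1) i → B.SIneq (sd o s) i) (q : Q) :
    upS G W f n x (pull G (n + 1) α o B.T) q ≤ ∑ r, W.wu q r * B.S r (sd o s) (idx α o y1) := by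
  rw [upS_eq]
  refine Finset.sum_le_sum fun r _ => mul_le_mul' le_rfl (le_trans (ENNReal.tsum_le_tsum fun y =>
    ind_mul_le fun hy => ?_) (chain_le hc h1 hS r))
  by_cases h : Bey s y1 y
  · rw [ind_of ⟨hy, h⟩, one_mul]
  · rw [h0 r y h, zero_mul]; exact zero_le

theorem sd_not (o : Bool) : sd o (!o) = false := by cases o <;> rfl
theorem sd_false (o : Bool) : sd o false = !o := by cases o <;> rfl

/-- all children lie beyond the position `j` -/
theorem up_M [NQ Q] {G : Grid} {n : ℕ} {α : ℤ} {o : Bool} {U : NT Q} {f : Q → ℤ → ℝ≥0∞}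
    (hc : Cov G (n + 1) α o U.tb f) (w : NW Q) {jS j : ℕ} (hS : U.chkS false jS = true)
    (hM : U.chkM w false jS = true) (hj : j ≤ jS) {x : ℤ} (hx : idx α o (G.fst n x (!o)) ≤ j)
    (q : Q) : upS G w.W f n x (pull G (n + 1) α o U.tb.T) q ≤ vv (U.uM q false j) := by
  have := upS_le_M hc w.W x (!o) (j := j)
  rw [sd_not] at this
  exact (this (fun i hi => U.chkS_sound hS (by simp only [Bey, sg] at hi ⊢; omega))
    (fun i hi => U.chkM_sound w hM (by simp only [Bey, sg] at hi ⊢; omega))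
    (by simp only [Bey, sg]; omega) q).trans (U.ext_le _ _)

namespace Side
variable {G : Grid} {l : ℕ} {o : Bool} {r : ℕ → ℤ} {st : ℕ → ℕ}

omit [Fintype Q] in
theorem cov (h : Side G l o r st) {n J wd : ℕ} (hn : n ≤ l) (h1 : 10 ≤ J) (h2 : J ≤ 6 + wd)
    (rl rr : ℕ) (fac fo : Q → ℕ → ℕ) (src : Q → Bool → St → ℕ → ℕ) (raw : Q → ℕ → ℕ → ℕ)
    {f : Q → ℤ → ℝ≥0∞} (hf : ∀ q y (j : ℕ), (j : ℤ) = max 6 (min (idx (anc o (r n) (st n) J) o y) (6 + wd)) →
      f q y ≤ vv (fac q j)) :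
    Cov G n (anc o (r n) (st n) J) o (ltab (st n) J wd rl rr fac fo src raw).tb f :=
  ⟨fun y => h.al_cl (ltab (st n) J wd rl rr fac fo src raw) hn h1 h2 y,
    fun q y => hf q y _ (by simp only [NT.cl, ltab]; omega)⟩

/-- the steps up from the free points of level `n` -/
theorem up_free [NQ Q] (h : Side G l o r st) {n J ja jS : ℕ} (hn : n ≤ l) {α : ℤ} {U B : NT Q}
    {fc : Q → ℤ → ℝ≥0∞} (hc : Cov G (n + 1) α o U.tb fc) (w : NW Q) (hS : U.chkS false jS = true)
    (hM : U.chkM w false jS = true) (hj : ja ≤ jS) (hJ : 8 ≤ J) (hJ' : J ≤ 6 + B.w)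
    (ha : idx α o (G.fst n (r n) o) ≤ ja) {f : Q → ℕ → ℕ} (hf : U.chkUv B (st n) J ja f = true)
    {x : ℤ} (hx : idx (anc o (r n) (st n) J) o x < J) (q : Q) :
    upS G w.W fc n x (pull G (n + 1) α o U.tb.T) q ≤ B.ext (f q) (idx (anc o (r n) (st n) J) o x) := by
  obtain ⟨a1, a2⟩ := h.fst_out hn
  have b1 := wof_le (st n)
  have b2 := gp1_le (st n)
  simp only [NT.chkUv, Bool.and_eq_true] at hf
  rcases (by omega : idx (anc o (r n) (st n) J) o x = (J - 1 : ℕ) ∨
    idx (anc o (r n) (st n) J) o x ≤ (J - 2 : ℕ)) with e | e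
  · have ex := eq_out o (r n) x (st n) J
    rw [e, show (wof (st n) : ℤ) + J - (J - 1 : ℕ) = wof (st n) + 1 by omega] at ex
    rw [e, B.ext_in _ (by omega) (by omega)]
    refine (up_M hc w hS hM (j := ja - 2 * wof (st n)) (by omega) ?_ q).trans
      (vv_mono (Nat.le_of_ble_eq_true (allQ_spec hf.1 q)))
    rw [ex]
    cases o <;> simp only [idx, sg] at * <;> omega
  · have := up_all (α := anc o (r n) (st n) J) hc w hS hM (by simp only [Bey, sg]; omega) hf.2 ?_
      (i := idx (anc o (r n) (st n) J) o x) (by simp only [Bey, sg]; omega) q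
    · rwa [pos_idx] at this
    · rw [pos_anc, sd_false, show (wof (st n) : ℤ) + J - (J - 2 : ℕ) = wof (st n) + 2 by omega]
      cases o <;> simp only [idx, sg, Bey] at * <;> omega

theorem apex (h : Side G l o r st) {n : ℕ} (hn : n < l) (J : ℕ) :
    idx (anc o (r (n + 1)) (st (n + 1)) J) o (G.fst n (r n) o) ≤ (J - room (st (n + 1)) : ℕ) := by
  have := h.ge n hn
  have := room_eq (st (n + 1))
  have := Sof_le (st (n + 1))
  cases o <;> simp only [idx, anc, out, sg] at * <;> omega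

/-- the steps up from the last ancestor -/
theorem up_anc [NQ Q] (h : Side G l o r st) {n J : ℕ} (hn : n < l) {U : NT Q} {fc : Q → ℤ → ℝ≥0∞}
    (hc : Cov G (n + 1) (anc o (r (n + 1)) (st (n + 1)) J) o U.tb fc) (w : NW Q)
    (hS : U.chkS false J = true) (hJ : 1 ≤ J)
    (h0 : ∀ q y, J ≤ idx (anc o (r (n + 1)) (st (n + 1)) J) o y → fc q y = 0) (q : Q) :
    upS G w.W fc n (r n) (pull G (n + 1) (anc o (r (n + 1)) (st (n + 1)) J) o U.tb.T) q ≤
      vv (U.wsv w (st (n + 1)) J q) := by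
  obtain ⟨c1, c2⟩ := h.ch n hn
  have hr := room_eq (st (n + 1))
  unfold NT.wsv
  cases e : exo (st (n + 1)) && Nat.beq (room (st (n + 1))) 0
  · have k1 : ¬Bey (!o) (out o (r (n + 1)) (wof (st (n + 1)) + 1)) (G.fst n (r n) (!o)) := by
      cases o <;> simp only [Bey, out, sg, Grid.fst, Bool.not_true, Bool.not_false] <;> omega
    have k2 : ∀ y, ¬Bey (!o) (out o (r (n + 1)) (wof (st (n + 1)) + 1)) y →
        J ≤ idx (anc o (r (n + 1)) (st (n + 1)) J) o y := fun y => by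
      cases o <;> simp only [Bey, out, idx, anc, sg, Bool.not_true, Bool.not_false] <;> omega
    have := upS_le_chain hc w.W k1 (fun q y hy => h0 q y (k2 y hy))
    rw [sd_not, idx_out, show (wof (st (n + 1)) : ℤ) + J - (wof (st (n + 1)) + 1) = (J - 1 : ℕ)
      by omega] at this
    rw [cond_false]
    exact (this (fun i hi => U.chkS_sound hS (by simp only [Bey, sg] at hi ⊢; omega)) q).trans
      ((U.ws_le w q false _).trans (le_rup 1 _))
  · rw [Bool.and_eq_true, Nat.beq_eq] at e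
    have k1 := h.ex n hn e.1
    have k2 := e.2
    refine le_trans (le_of_eq (ENNReal.tsum_eq_zero.2 fun y => Finset.sum_eq_zero fun q' _ => ?_))
      zero_le
    by_cases hy : G.Ch n (r n) y
    · rw [h0 q' y, zero_mul, mul_zero]
      obtain ⟨y1, y2⟩ := hy
      cases o <;> simp only [out, idx, anc, sg, Grid.fst] at k1 ⊢ <;> omega
    · rw [ind_of_not hy, zero_mul, zero_mul]

/-- the steps up from the point next to the last ancestor -/
theorem up_add [NQ Q] (h : Side G l o r st) {n J : ℕ} (hn : n < l) {U : NT Q} {fc : Q → ℤ → ℝ≥0∞}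
    (hc : Cov G (n + 1) (anc o (r (n + 1)) (st (n + 1)) J) o U.tb fc) (w : NW Q)
    (hS : U.chkS false J = true) (hM : U.chkM w false J = true) (q : Q) :
    upS G w.W fc n (out o (r n) 1) (pull G (n + 1) (anc o (r (n + 1)) (st (n + 1)) J) o U.tb.T) q ≤
      vv (U.uM q false (J - room (st (n + 1)))) := by
  refine up_M hc w hS hM (by omega) (le_trans (le_of_eq ?_) (h.apex hn J)) q
  cases o <;> simp [out, sg, Grid.fst]

/-- the steps down from a point at distance `d` from the tube -/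
theorem down (S : Sys Q) (h : Side S.G l o r st) {w : NW Q} (hW : S.W = w.W) {n : ℕ} (hn : n < l)
    (F : Fn Q) (q : Q) (a : St) {d : ℕ} (hd : 1 ≤ d + wof (st (n + 1))) (c : Option Bool → ℝ≥0∞)
    (hA : ∀ k, cA (st (n + 1)) d k = true →
      ∑ q', vv (dN w q' q (mir o a) k) * (S.fac q' (n, r n) * F q' .C0 (r n)) ≤ c k)
    (hB : ∀ k x, cB (st (n + 1)) d k = true → 1 ≤ sg o * (r n - x) →
      ∑ q', vv (dN w q' q (mir o a) k) * (S.fac q' (n, x) * F q' .C0 x) ≤ c k) :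
    S.dn (n + 1) F q a (out o (r (n + 1)) (wof (st (n + 1)) + d)) ≤
      S.fo q (n + 1, out o (r (n + 1)) (wof (st (n + 1)) + d)) *
      cond (tyb (Two S.G.A (n + 1) (out o (r (n + 1)) (wof (st (n + 1)) + d))))
        (c (some false) + c (some true)) (c none) := by
  refine dn_le hW n F o q a _ c fun x hx => ?_
  rcases h.par_cases hn hx hd with ⟨rfl, e⟩ | ⟨e1, e⟩
  exacts [hA _ e, hB _ x e e1]

end Side
end Pool.Agent.P.MP_e4ac67_pr.Gr
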