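import Pool.Agent.P.MP_e4ac67_pr.G.Red
import Pool.Agent.P.MP_e4ac67_pr.G.RedZ

/-! Marked arcs read from one end, and their runs. -/

open scoped ENNReal

namespace Pool.Agent.P.MP_e4ac67_pr.Gr

namespace Grid
variable (G : Grid) (P : Nm)

/-- the arc listed from `b`, which is the left end (`o = true`) or the right end; `t` is the
index of the marked step in this direction -/
def M0 (o : Bool) (z b : Pt) (I : List Pt) (e : Pt) (t : ℕ) : Prop :=
  G.Arc z b I e ∧ cond o (¬G.Rt z 4 (I.headD z)) (G.Rt z 5 (I.headD z)) ∧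
    cond o (G.Rt z 5 (I.getLastD z)) (¬G.Rt z 4 (I.getLastD z)) ∧ t ≤ I.length

/-- the clauses on the head of the stop dart -/
def MJ (z b : Pt) (I : List Pt) (e : Pt) (t j : ℕ) : Prop :=
  (j = t ∨ j = t + 1) ∧ vx b I e j ≠ z ∧
    (P.m = true → 1 ≤ j ∧ j ≤ I.length ∧ vx b I e t ≠ z ∧ vx b I e (t + 1) ≠ z)

/-- a property of marked arcs, for arcs listed from `b` -/
def CR (o : Bool) (C : Pt → List Pt → Pt → ℕ → Prop) (b : Pt) (I : List Pt) (e : Pt) (t : ℕ) :
    Prop := cond o (C b I e t) (C e I.reverse b (I.length - t))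

/-- the weight of the mark `x`; bond: both heads at once -/
noncomputable def mw (z b : Pt) (I : List Pt) (e : Pt) (x : ℕ × ℕ) : ℝ≥0∞ :=
  if P.m then ind (MJ P z b I e x.1 x.2) * G.wF P z b I e x.1 x.2 else ind (x.2 = x.1) *
    (ind (MJ P z b I e x.1 x.1) * G.wF P z b I e x.1 x.1 +
      ind (MJ P z b I e x.1 (x.1 + 1)) * G.wF P z b I e x.1 (x.1 + 1))

variable {G P} {z b e : Pt} {I : List Pt} {t j : ℕ}

theorem vx_rev {i : ℕ} (h : i ≤ I.length + 1) :
    vx e I.reverse b i = vx b I e (I.length + 1 - i) := by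
  have e1 : e :: I.reverse ++ [b] = (b :: I ++ [e]).reverse := by simp
  unfold vx
  rw [List.getD_eq_getElem _ _ (by simp; omega), List.getD_eq_getElem _ _ (by simp)]
  simp only [e1, List.getElem_reverse]
  congr 1
  simp

theorem Arc.rev (h : G.Arc z e I.reverse b) (he : Wz G.Tb z e) : G.Arc z b I e := by
  obtain ⟨h1, h2, -, h4, h5⟩ := h
  refine ⟨?_, List.nodup_reverse.1 h2, fun a => h5 e (List.mem_reverse.2 a) he, by simpa using h4,
    fun v a => h5 v (List.mem_reverse.2 a)⟩
  rw [show e :: I.reverse ++ [b] = (b :: I ++ [e]).reverse by simp, List.isChain_reverse] at h1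
  exact h1.imp fun _ _ a => a.symm

theorem wt_rev {eo ee el eo' ee' el' : ℕ → Prop} (h1 : ∀ i ≤ I.length, eo i ↔ eo' (I.length - i))
    (h2 : ∀ i, 1 ≤ i → i ≤ I.length → (ee i ↔ ee' (I.length + 1 - i)))
    (h3 : ∀ i, 1 ≤ i → i ≤ I.length → (el i ↔ el' (I.length + 1 - i))) (h4 : ¬el 0) (h5 : ¬el' 0) :
    G.wt P z e I.reverse b eo ee el = G.wt P z b I e eo' ee' el' := by
  classical
  simp only [wt, Finset.prod_mul_distrib, List.length_reverse]
  congr 1
  congr 1
  · rw [← Finset.prod_range_reflect]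
    refine Finset.prod_congr rfl fun i hi => ?_
    rw [Finset.mem_range] at hi
    refine if_congr ((h1 _ (by omega)).trans ?_) rfl rfl
    rw [show I.length - (I.length + 1 - 1 - i) = i by omega]
  · rw [Finset.prod_range_succ', Finset.prod_range_succ', if_neg (by omega), if_neg (by omega),
      ← Finset.prod_range_reflect]
    congr 1
    refine Finset.prod_congr rfl fun i hi => ?_
    rw [Finset.mem_range] at hi
    refine if_congr (and_congr ((h2 _ (by omega) (by omega)).trans ?_) ?_) rfl rfl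
    · rw [show I.length + 1 - (I.length - 1 - i + 1) = i + 1 by omega]
    · rw [vx_rev (by omega), vx_rev (by omega),
        show I.length + 1 - (I.length - 1 - i + 1 - 1) = i + 1 + 1 by omega,
        show I.length + 1 - (I.length - 1 - i + 1 + 1) = i + 1 - 1 by omega]
      exact and_congr (by omega) ⟨Adj.symm, Adj.symm⟩
  · rw [Finset.prod_range_succ', Finset.prod_range_succ', if_neg (fun a => h4 a.1),
      if_neg (fun a => h5 a.1), ← Finset.prod_range_reflect]
    congr 1
    refine Finset.prod_congr rfl fun i hi => ?_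
    rw [Finset.mem_range] at hi
    refine if_congr (and_congr ((h3 _ (by omega) (by omega)).trans ?_) ?_) rfl rfl
    · rw [show I.length + 1 - (I.length - 1 - i + 1) = i + 1 by omega]
    · rw [vx_rev (by omega), show I.length + 1 - (I.length - 1 - i + 1) = i + 1 by omega]

theorem wF_rev (ht : t ≤ I.length) (_hj : j = t ∨ j = t + 1) :
    G.wF P z e I.reverse b t j = G.wF P z b I e (I.length - t) (I.length + 1 - j) := by
  refine wt_rev (fun i a => ?_) (fun i a c => ?_) (fun i a c => ?_) ?_ ?_ <;>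
    (try simp only [List.length_reverse]) <;> by_cases a1 : P.m = true <;> by_cases a2 : e = z <;>
    by_cases a3 : b = z <;> simp [a1, a2, a3] <;> omega

/-- the sum over the marks of an arc listed from `b` -/
theorem fC_le (o : Bool) (C : Pt → List Pt → Pt → ℕ → Prop) (he : Wz G.Tb z e) :
    cond o (G.fC P C z b I e) (G.fC P C z e I.reverse b) ≤
      ∑' x : ℕ × ℕ, ind (G.M0 o z b I e x.1 ∧ CR o C b I e x.1) * G.mw P z b I e x := by
  have h1 : cond o (G.fC P C z b I e) (G.fC P C z e I.reverse b) ≤ ∑' x : ℕ × ℕ,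
      ind (G.M0 o z b I e x.1 ∧ CR o C b I e x.1) *
        (ind (MJ P z b I e x.1 x.2) * G.wF P z b I e x.1 x.2) := by
    cases o
    · refine tsum_le_of_enc _ _ (fun x => (I.length - x.1, I.length + 1 - x.2))
        (fun x y hx hy a => ?_) fun x hx => ?_
      · obtain ⟨⟨-, -, -, a1, a2, -⟩, -⟩ := of_ind_mul_ne hx
        obtain ⟨⟨-, -, -, b1, b2, -⟩, -⟩ := of_ind_mul_ne hy
        rw [List.length_reverse] at a1 b1
        rw [Prod.mk.injEq] at a
        exact Prod.ext (by omega) (by omega)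
      · obtain ⟨⟨a0, a1, a2, a3, a4, a5, a6⟩, a7⟩ := of_ind_mul_ne hx
        rw [List.length_reverse] at a3 a6
        rw [vx_rev (by omega)] at a5
        rw [vx_rev (by omega), vx_rev (by omega)] at a6
        refine ind_mul_le fun _ => ?_
        rw [ind_of, ind_of, one_mul, one_mul, wF_rev a3 a4]
        · refine ⟨by simp only; omega, a5, fun c => ⟨?_, ?_, ?_, ?_⟩⟩ <;>
            obtain ⟨c1, c2, c3, c4⟩ := a6 c <;> simp only
          · omega
          · omega
          · rwa [show I.length + 1 - (x.1 + 1) = I.length - x.1 by omega] at c4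
          · rwa [show I.length + 1 - x.1 = I.length - x.1 + 1 by omega] at c3
        · refine ⟨⟨a0.rev he, ?_, ?_, by simp⟩, ?_⟩
          · simpa [List.getLastD_eq_getLast?, List.headD_eq_head?_getD] using a2
          · simpa [List.getLastD_eq_getLast?, List.headD_eq_head?_getD] using a1
          · simpa only [CR, cond_false, show I.length - (I.length - x.1) = x.1 by omega] using a7
    · refine ENNReal.tsum_le_tsum fun x => ind_mul_le fun ⟨⟨a0, a1, a2, a3, a4⟩, a7⟩ => ?_
      rw [ind_of (show G.M0 true z b I e x.1 ∧ CR true C b I e x.1 from ⟨⟨a0, a1, a2, a3⟩, a7⟩),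
        ind_of (show MJ P z b I e x.1 x.2 from a4), one_mul, one_mul]
  refine h1.trans ?_
  unfold mw
  split_ifs with hm
  · exact le_rfl
  rw [ENNReal.tsum_prod', ENNReal.tsum_prod']
  refine ENNReal.tsum_le_tsum fun t => ?_
  simp only [ENNReal.tsum_mul_left]
  refine mul_le_mul_right (le_trans ?_ (ENNReal.le_tsum t)) _
  rw [ind_of rfl, one_mul, ← Finset.sum_pair (f := fun j => ind (MJ P z b I e t j) *
    G.wF P z b I e t j) (by omega : t ≠ t + 1), tsum_eq_sum]
  intro j a
  rw [ind_of_not fun c => a (by simpa using c.1), zero_mul]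

end Grid

variable {Q : Type}

/-- `f` is at most the weight of the step `i` of the path `A` with the run `ρ`, whether the past is
remembered or not -/
def StB (G : Grid) (w : NW Q) (A : ℕ → Pt) (ρ : ℕ → Q) (i : ℕ) (f : ℝ≥0∞) : Prop :=
  ∀ prev, (∀ v, prev = some v → 1 ≤ i ∧ v = A (i - 1)) →
    f ≤ vv (w.wl (ρ i) (ρ (i + 1)) (tyb (G.Ear prev (A (i + 1)))))

/-- Every marked arc that starts off the centre has a run from `q0`. -/
def MK.Run (M : MK Q) (P : Nm) (q0 : Q) (a c : ℝ≥0∞) : Prop :=
  (∀ q, M.zi q = NN) ∧ ∃ ρ : ℕ × ℕ → ℕ → Q, ∀ (G : Grid) (z b : Pt) (I : List Pt) (e : Pt), b ≠ z →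
    (∀ x y, x.1 ≤ I.length → y.1 ≤ I.length → G.mw P z b I e x ≠ 0 → G.mw P z b I e y ≠ 0 →
      (∀ i ≤ I.length, ρ x i = ρ y i) → x = y) ∧
    ∀ x, x.1 ≤ I.length → G.mw P z b I e x ≠ 0 → ρ x 0 = q0 ∧
      (∀ i, M.nr (ρ x i) = decide (i ≤ x.1)) ∧ ∃ f : ℕ → ℝ≥0∞,
      (∀ i, i < I.length ∨ (i = I.length ∧ e ≠ z) → StB G M.w (Grid.vx b I e) (ρ x) i (f i)) ∧
      (e = z → (∀ i < I.length, G.Adj z (Grid.vx b I e i) → M.zo (ρ x i) = NN) ∧
        a * G.mw P z b I e x ≤ (∏ i ∈ Finset.range I.length, f i) * vv (M.zt (ρ x I.length))) ∧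
      (e ≠ z → c ≠ 0 → M.ab = true ∧ (∀ i, M.zo (ρ x i) = NN) ∧
        c * (Grid.oe P b e * G.mw P z b I e x) ≤
          (∏ i ∈ Finset.range (I.length + 1), f i) * vv (M.pw (ρ x (I.length + 1))))

theorem stb_of {G : Grid} {w : NW Q} {A : ℕ → Pt} {ρ : ℕ → Q} {i : ℕ} {f x y : ℝ≥0∞} {a b : Q}
    (h : Stp w a b x y) (ha : ρ i = a) (hb : ρ (i + 1) = b) (h1 : f ≤ x)
    (h2 : 1 ≤ i → G.Adj (A (i - 1)) (A (i + 1)) → f ≤ x * y) : StB G w A ρ i f := by
  intro prev hp
  rw [ha, hb]
  by_cases e : G.Ear prev (A (i + 1))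
  · rw [tyb_true.2 e]
    obtain ⟨v, e1, e2⟩ := e
    obtain ⟨e3, rfl⟩ := hp v e1
    exact (h2 e3 e2).trans h.2
  · rw [tyb_false.2 e]
    exact h1.trans h.1

theorem iteq {A B : Prop} {_ : Decidable A} {_ : Decidable B} {x y : ℝ≥0∞} (h : A ↔ B) :
    ite A x y = ite B x y := if_congr h rfl rfl

theorem mul_ite_le {A : Prop} {_ : Decidable A} {x y : ℝ≥0∞} (h : y ≤ 1) : x * ite A y 1 ≤ x :=
  mul_le_of_le_one_right' (by split_ifs; exacts [h, le_rfl])

theorem prod_ne (p : ℝ≥0∞) {t n : ℕ} (h : t ≤ n) :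
    ∏ i ∈ Finset.range (n + 1), (if i ≠ t then p else 1) = p ^ n := by
  rw [← Finset.prod_filter, Finset.prod_const, Finset.filter_ne', Finset.card_erase_of_mem
    (Finset.mem_range.2 (by omega)), Finset.card_range, Nat.add_sub_cancel]

theorem MK.Bond.run {M : MK (Fin 3)} {P : Nm} {a c : ℝ≥0∞} (h : M.Bond P a c) : M.Run P 2 a c := by
  classical
  refine ⟨h.zi, fun x i => if i ≤ x.1 then 2 else if i = x.1 + 1 then 1 else 0,
    fun G z b I e hb => ⟨fun x y hx hy ax ay a => ?_, fun ⟨t, j⟩ ht ax => ?_⟩⟩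
  · simp only [Grid.mw, h.m, Bool.false_eq_true, if_false] at ax ay
    have a1 := a _ hx
    have a2 := a _ hy
    have := of_ind_mul_ne ax
    have := of_ind_mul_ne ay
    simp only at a1 a2
    refine Prod.ext ?_ ?_ <;> split_ifs at a1 a2 <;> omega
  simp only at ht ⊢
  set g : ℕ → ℝ≥0∞ := fun i => if (i ≠ t ∧ i ≠ t + 1) ∧ 1 ≤ i ∧
    G.Adj (Grid.vx b I e (i - 1)) (Grid.vx b I e (i + 1)) then P.q else 1 with hg
  have hp : ∀ n, ∏ i ∈ Finset.range n, ((if i = t then 2 * P.p else P.p) * g i) =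
      (if t < n then 2 else 1) * (P.p ^ n * ∏ i ∈ Finset.range n, g i) := fun n => by
    have : ∀ i, (if i = t then 2 * P.p else P.p) = (if i = t then 2 else 1) * P.p := fun i => by
      split_ifs <;> simp
    simp only [this, Finset.prod_mul_distrib, Finset.prod_ite_eq', Finset.mem_range,
      Finset.prod_const, Finset.card_range, mul_assoc]
  have hw : ∀ j, j = t ∨ j = t + 1 → G.wF P z b I e t j = P.p ^ I.length *
      ((∏ i ∈ Finset.range I.length, g i) * if e = z then 1 else g I.length) := fun j hj => by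
    rw [← prod_ne P.p ht, Grid.wF, Grid.wt]
    simp only [h.m, Bool.false_eq_true, false_and, if_false, mul_one, false_imp_iff, and_true, hb,
      true_and, Finset.prod_mul_distrib, forall_const]
    congr 1
    rw [Finset.prod_range_succ]
    congr 1
    · refine Finset.prod_congr rfl fun i hi => if_congr (and_congr_left' ?_) rfl rfl
      rw [Finset.mem_range] at hi
      exact ⟨fun a => a.2.1, fun a => ⟨by omega, a, fun _ => by omega⟩⟩
    · by_cases e1 : e = z
      · simp [e1]
      · rw [if_neg e1]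
        exact if_congr (and_congr_left' ⟨fun a => a.2.1, fun a => ⟨by omega, a, fun a => absurd a e1⟩⟩)
          rfl rfl
  have hm : G.mw P z b I e (t, j) ≤ (if t < I.length ∨ e ≠ z then 2 else 1) * (P.p ^ I.length *
      ((∏ i ∈ Finset.range I.length, g i) * if e = z then 1 else g I.length)) := by
    simp only [Grid.mw, h.m, Bool.false_eq_true, if_false]
    rw [hw t (by omega), hw (t + 1) (by omega)]
    refine ind_mul_le fun _ => ?_
    by_cases e1 : t < I.length ∨ e ≠ z
    · rw [if_pos e1, two_mul]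
      exact add_le_add (ind_mul_le fun _ => le_rfl) (ind_mul_le fun _ => le_rfl)
    · rw [if_neg e1, ind_of_not (A := Grid.MJ P z b I e t (t + 1)) fun a => a.2.1 (by
        rw [show t = I.length by omega, Grid.vx_last, not_not.1 fun a => e1 (Or.inr a)]), zero_mul,
        add_zero, one_mul]
      exact ind_mul_le fun _ => le_rfl
  refine ⟨by simp, fun i => ?_, fun i => (if i = t then 2 * P.p else P.p) * g i, fun i _ => ?_,
    fun he => ⟨fun i _ _ => h.zo _, ?_⟩, fun he hc => ?_⟩
  · rw [h.nr]; split_ifs with e1 e2 <;> simp [e1]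
  · simp only [hg]
    rcases (by omega : i < t ∨ i = t ∨ i = t + 1 ∨ t + 1 < i) with e1 | e1 | e1 | e1
    · rw [if_neg (show i ≠ t by omega)]
      exact stb_of h.s22 (if_pos e1.le) (if_pos (show i + 1 ≤ t from e1)) (mul_ite_le h.p1)
        fun a c => by rw [if_pos ⟨by omega, a, c⟩]
    · rw [if_pos e1]
      refine stb_of h.s21 (if_pos e1.le) ?_ (mul_ite_le h.p1) fun _ _ => ?_
      · simp [e1]
      · rw [mul_one]; exact mul_ite_le h.p1
    · rw [if_neg (show i ≠ t by omega)]
      refine stb_of h.s10 ?_ ?_ (mul_ite_le h.p1) fun _ _ => ?_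
      · simp [e1]
      · simp [e1]
      · rw [mul_one]; exact mul_ite_le h.p1
    · rw [if_neg (show i ≠ t by omega)]
      refine stb_of h.s00 ?_ ?_ (mul_ite_le h.p1) fun a c => by rw [if_pos ⟨by omega, a, c⟩]
      all_goals rw [if_neg (by omega), if_neg (by omega)]
  · rw [hp, mul_comm a]
    refine mul_le_mul' (hm.trans_eq ?_) (h.zt _)
    simp [he]
  · obtain ⟨h1, h2⟩ := h.pw.resolve_left hc
    refine ⟨h1, fun i => h.zo _, ?_⟩
    rw [hp, Grid.oe, if_neg (by simp [h.m]), one_mul, if_pos (by omega), Finset.prod_range_succ]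
    rw [if_pos (Or.inr he), if_neg he] at hm
    refine (mul_le_mul' (h2 (if I.length + 1 ≤ t then 2 else if I.length + 1 = t + 1 then 1 else 0)
      ?_) hm).trans_eq (by ring)
    rw [if_neg (by omega)]
    split_ifs <;> decide

theorem MK.Site.run {M : MK (Fin 4)} {P : Nm} {a c : ℝ≥0∞} (h : M.Site P false a c) :
    M.Run P 3 a c := by
  classical
  refine ⟨fun q => h.zi q (Or.inr rfl), fun x i => if i < x.2 then 3 else if i = x.2 then
    (if x.2 = x.1 then 2 else 1) else 0,
    fun G z b I e hb => ⟨fun x y hx hy ax ay a => ?_, fun ⟨t, j⟩ ht ax => ?_⟩⟩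
  · simp only [Grid.mw, h.m, if_true] at ax ay
    obtain ⟨a3, -, a4⟩ := of_ind_mul_ne ax
    obtain ⟨a5, -, a6⟩ := of_ind_mul_ne ay
    have a1 := a _ (a4 h.m).2.1
    have a2 := a _ (a6 h.m).2.1
    simp only at a1 a2
    refine Prod.ext ?_ ?_ <;> split_ifs at a1 a2 <;> omega
  simp only [Grid.mw, h.m, if_true] at ht ax ⊢
  have hj := of_ind_mul_ne ax
  rw [ind_of hj, one_mul] at ax ⊢
  obtain ⟨j1, -, j2⟩ := hj
  obtain ⟨j2, j3, -, j4⟩ := j2 h.m
  set f : ℕ → ℝ≥0∞ := fun i => (if i + 1 = j ∨ i = j then 1 else P.p) * if i ≠ j ∧ 1 ≤ i ∧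
    G.Adj (Grid.vx b I e (i - 1)) (Grid.vx b I e (i + 1)) then 0 else 1 with hf
  have hw : G.wF P z b I e t j ≤ (∏ i ∈ Finset.range I.length, f i) *
      if e = z then (if j = I.length then 1 else P.p) else f I.length := by
    rw [Grid.wF, Grid.wt, Finset.prod_range_succ]
    refine mul_le_mul' (Finset.prod_le_prod' fun i hi => ?_) ?_
    · rw [Finset.mem_range] at hi
      refine (mul_le_of_le_one_right' (by split_ifs <;> simp [h.q0])).trans (mul_le_mul' ?_ ?_)
      · simp only [h.m, forall_const]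
        split_ifs <;> first | exact le_rfl | omega
      · rw [h.q0]
        exact (iteq (and_congr_left' ⟨fun a => a.1, fun a => ⟨a, by simp [h.m],
          fun a => absurd a hb, fun _ => by omega⟩⟩)).le
    · refine (mul_le_of_le_one_right' (by split_ifs <;> simp [h.q0])).trans ?_
      by_cases e1 : e = z
      · rw [if_pos e1]
        refine (mul_le_of_le_one_right' (by split_ifs <;> simp [h.q0])).trans ?_
        simp only [h.m, forall_const]
        split_ifs <;> first | exact le_rfl | omega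
      · rw [if_neg e1]
        refine mul_le_mul' ?_ ?_
        · simp only [h.m, forall_const]
          split_ifs <;> first | exact le_rfl | omega
        · rw [h.q0]
          exact (iteq (and_congr_left' ⟨fun a => a.1, fun a => ⟨a, by simp [h.m],
            fun a => absurd a hb, fun a => absurd a e1⟩⟩)).le
  refine ⟨if_pos (by omega), fun i => ?_, f, fun i _ => ?_, fun he => ⟨fun i hi ha => ?_, ?_⟩,
    fun he hc => ?_⟩
  · rw [h.nr, decide_eq_decide]
    split_ifs <;> exact ⟨fun a => by omega, fun a => by first | decide | omega⟩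
  · simp only [hf]
    rcases (by omega : i + 1 < j ∨ i + 1 = j ∨ i = j ∨ j < i) with e1 | e1 | e1 | e1
    · rw [if_neg (show ¬(i + 1 = j ∨ i = j) by omega)]
      exact stb_of h.s33 (if_pos (show i < j by omega)) (if_pos e1) (mul_ite_le zero_le)
        fun a c => by rw [if_pos ⟨by omega, a, c⟩]
    · rw [if_pos (Or.inl e1)]
      by_cases e2 : j = t
      · refine stb_of h.s32 (if_pos (show i < j by omega)) ?_ (mul_ite_le zero_le)
          fun a c => by rw [if_pos ⟨by omega, a, c⟩]
        simp [e1, e2]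
      · refine stb_of h.s31 (if_pos (show i < j by omega)) ?_ (mul_ite_le zero_le)
          fun a c => by rw [if_pos ⟨by omega, a, c⟩]
        simp [e1, e2]
    · rw [if_pos (Or.inr e1)]
      by_cases e2 : j = t
      · refine stb_of h.s20 ?_ ?_ (mul_ite_le zero_le) fun _ _ => ?_
        · simp [e1, e2]
        · simp [e1]
        · rw [mul_one]; exact mul_ite_le zero_le
      · refine stb_of h.s10 ?_ ?_ (mul_ite_le zero_le) fun _ _ => ?_
        · simp [e1, e2]
        · simp [e1]
        · rw [mul_one]; exact mul_ite_le zero_le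
    · rw [if_neg (show ¬(i + 1 = j ∨ i = j) by omega)]
      refine stb_of h.s00 ?_ ?_ (mul_ite_le zero_le) fun a c => by rw [if_pos ⟨by omega, a, c⟩]
      all_goals rw [if_neg (by omega), if_neg (by omega)]
  · by_cases e1 : j < i
    · refine absurd (Finset.prod_eq_zero (Finset.mem_range.2 (by omega : i < I.length + 1)) ?_) ax
      rw [if_pos (c := _ ∧ G.Adj z _) ⟨⟨h.m, by omega, Or.inr ⟨he, by omega, hi⟩⟩, ha⟩, h.q0, mul_zero]
    · refine h.zo _ ?_
      split_ifs <;> first | decide | omega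
  · rw [if_pos he] at hw
    refine (mul_le_mul_right hw a).trans ?_
    rw [mul_left_comm]
    refine mul_le_mul_right ?_ _
    rw [if_neg (show ¬I.length < j by omega)]
    by_cases e1 : j = I.length
    · have : j ≠ t := fun e2 => j4 (by rw [← e2, e1, Grid.vx_last, he])
      rw [if_pos e1, if_pos e1.symm, if_neg this, mul_one]
      exact h.zt1
    · rw [if_neg e1, if_neg (Ne.symm e1)]
      exact h.zt0
  · obtain ⟨h1, h2, h3⟩ := h.pw.resolve_left hc
    refine ⟨h1, fun i => ?_, ?_⟩
    · generalize (if i < j then 3 else if i = j then (if j = t then 2 else 1) else 0 : Fin 4) = r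
      by_cases e1 : r = 0
      exacts [e1 ▸ h2, h.zo r e1]
    · rw [if_neg he, ← Finset.prod_range_succ] at hw
      rw [if_neg (by omega), if_neg (by omega), mul_comm c]
      refine mul_le_mul' ((mul_le_of_le_one_left' ?_).trans hw) h3
      unfold Grid.oe
      split_ifs
      exacts [h.p1, le_rfl]

end Pool.Agent.P.MP_e4ac67_pr.Gr
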