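import Pool.Agent.P.MP_e4ac67_pr.G.Lv

/-! The linear module for the levels below the centre of the tube (nothing lands on the tube). -/

open scoped ENNReal

namespace Pool.Agent.P.MP_e4ac67_pr.Gr

variable {Q : Type}

instance [NQ Q] : NQ (Bool × Q) where
  lst := (NQ.lst.map fun q => (false, q)) ++ NQ.lst.map fun q => (true, q)
  mem := fun ⟨b, q⟩ => by cases b <;> simp [NQ.mem]
  nd := by
    refine List.Nodup.append (NQ.nd.map fun a b h => by simpa using h)
      (NQ.nd.map fun a b h => by simpa using h) ?_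
    simp [List.disjoint_left]

noncomputable def lin {I : Type} [Fintype I] (Φ : I → Fn Q) (c : I → ℝ≥0∞) : Fn Q :=
  fun q a x => ∑ i, Φ i q a x * c i

theorem LineSup.lin [Fintype Q] {I : Type} [Fintype I] {W : Wt Q} {L : Ln Q} {Φ s : I → Fn Q}
    (h : ∀ i, LineSup W L (Φ i) (s i)) (c : I → ℝ≥0∞) : LineSup W L (lin Φ c) (lin s c) := by
  have := LineSup.tsum h c
  simp only [tsum_fintype] at this
  exact this

theorem Sys.beta_lin [Fintype Q] {I : Type} [Fintype I] (S : Sys Q) (n : ℕ) (Φ : I → Fn Q)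
    (c : I → ℝ≥0∞) (q : Q) (x : ℤ) : S.beta n (lin Φ c) q x = ∑ i, S.beta n (Φ i) q x * c i := by
  have := Sys.upS_tsum S.G S.W (fun r y => S.fac r (n + 1, y)) n x Φ c q
  simp only [tsum_fintype] at this
  exact this

theorem cB_cl (s : ℕ) {J d : ℕ} {i : ℤ} (B : NT Q) (k : Option Bool) (hJ : 10 ≤ J)
    (hw : J ≤ 6 + B.w) (hd : (d : ℤ) = J - i) (h : Side.cB s d k = true) :
    Side.cB s (J - B.cl i) k = true := by
  rcases le_or_gt 6 i with e | e
  · rwa [show J - B.cl i = d by unfold NT.cl; omega]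
  · have := Sof_le s
    simp only [Side.cB, Bool.or_eq_true, Nat.ble_eq]
    left; unfold NT.cl room; omega

theorem cond_lin {I : Type} [Fintype I] (c : I → Option Bool → ℕ) (k : I → ℝ≥0∞) (t : Bool) :
    cond t (∑ i, vk 2 (c i (some false)) * k i + ∑ i, vk 2 (c i (some true)) * k i)
      (∑ i, vk 2 (c i none) * k i) ≤ ∑ i, vv (dnT (c i) t) * k i := by
  refine le_trans (le_of_eq ?_) (Finset.sum_le_sum fun i _ =>
    mul_le_mul' (cond_le_dnT (c i) t) le_rfl)
  cases t <;> simp only [cond_true, cond_false, add_mul, Finset.sum_add_distrib]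

theorem idx_self (o : Bool) (x : ℤ) (s J : ℕ) : idx (anc o x s J) o x = wof s + J := by
  simpa [out] using idx_out o x s J 0

def fr (J j : ℕ) : ℕ := cond (Nat.ble J j) 0 NN

structure ACert (Q : Type) where
  rl : ℕ
  e : ℕ → ℕ
  th : ℕ → ℕ → Bool × Q → Bool × Q → ℕ
  gam : ℕ → Bool × Q → Q → ℕ
  gh : ℕ → Bool × Q → Q → ℕ
  rawP : ℕ → Bool × Q → Q → ℕ → ℕ → ℕ
  rawF : ℕ → Bool × Q → Q → ℕ → ℕ → ℕ

namespace ACert
variable [DecidableEq Q] [NQ Q] (C : ACert Q) (w : NW Q)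

def eb (b : Bool) (j : ℕ) : ℕ := cond b (cond (Nat.ble j 9) (C.e j) 0) (cond (Nat.beq j 10) NN 0)

def bas (i : Bool × Q) (q : Q) (j : ℕ) : ℕ := cond (decide (q = i.2)) (C.eb i.1 j) 0

def ref : NT Q := ltab 0 11 8 C.rl C.rl (fun _ _ => 0) (fun _ _ => 0) (fun _ _ _ _ => 0) fun _ _ _ => 0

def Pb (s : ℕ) (i : Bool × Q) : NT Q :=
  ltab s 11 8 C.rl C.rl (fun _ => fr 11) (fun _ _ => NN) (fun q _ _ => C.bas i q) (C.rawP s i)

def cg (s : ℕ) (i : Bool × Q) (q : Q) (a : St) (j : ℕ) (k : Option Bool) : ℕ :=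
  cond (Side.cB s (11 - j) k) (dotN w (C.gh s i) q a k) 0

def F (s : ℕ) (i : Bool × Q) : NT Q :=
  ltab s 11 8 NN C.rl (fun _ => fr 11) (fun _ _ => NN)
    (fun q t a j => C.bas i q j + cond (Nat.ble 11 j) 0 (dnT (C.cg w s i q a j) t)) (C.rawF s i)

def chkC (U : NT Q) (lo ja : ℕ) (κ : Bool × Q → ℕ) : Bool :=
  U.chkUv C.ref lo 11 ja fun q j => rdn 1 (C.eb false j * κ (false, q) + C.eb true j * κ (true, q))

def chk (s : ℕ) (i : Bool × Q) : Bool :=
  Nat.ble C.rl NN && (C.Pb s i).chk w && (C.Pb s i).chkS false 11 && (C.Pb s i).chkM w false 11 &&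
    (C.F w s i).chk w && (C.F w s i).chkSup 6 14 (C.gam s i) &&
    allR (fun lo => !okT s lo || (C.chkC (C.Pb s i) lo (11 - room s) (fun i2 => C.th s lo i2 i) &&
      allQ fun q => Nat.ble (sumQ fun i2 => C.gam lo i2 q * C.th s lo i2 i) (C.gh s i q * NN))) 6

def OK : Prop := ∀ s < 6, ∀ i, C.chk w s i = true

variable [Fintype Q] (S : Sys Q) (l : ℕ) (o : Bool) (r : ℕ → ℤ) (st : ℕ → ℕ)
  (k : ℕ → Bool × Q → ℝ≥0∞) (b : Q → ℤ → ℝ≥0∞)

noncomputable def H0 (n : ℕ) : Fn Q :=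
  lin (fun i => pull S.G n (anc o (r n) (st n) 11) o (C.Pb (st n) i).tb.T) (k n)

noncomputable def F0 (n : ℕ) : Fn Q :=
  lin (fun i => pull S.G n (anc o (r n) (st n) 11) o (C.F w (st n) i).tb.T) (k n)

noncomputable def bt (n : ℕ) (q : Q) (x : ℤ) : ℝ≥0∞ :=
  if n + 1 = l then b q x else S.beta n (C.H0 S o r st k (n + 1)) q x

noncomputable def sig (n : ℕ) : Fn Q := fun q a x => ind (11 ≤ idx (anc o (r n) (st n) 11) o x) *
  (C.bt S l o r st k b n q x + S.dn n (C.F0 w S o r st k (n - 1)) q a x)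

/-- the standing assumptions -/
structure Hyp : Prop where
  std : Std S w
  side : Side S.G l o r st
  ok : C.OK w
  hz : ∀ n < l, ∀ q y, 11 ≤ idx (anc o (r n) (st n) 11) o y → S.fac q (n, y) = 0
  hk : ∀ n, n + 1 < l → ∀ j, k n j = ∑ i, vv (C.th (st (n + 1)) (st n) j i) * k (n + 1) i

omit [DecidableEq Q] [NQ Q] in
theorem exists_k (κ : Bool × Q → ℝ≥0∞) : ∃ k : ℕ → Bool × Q → ℝ≥0∞, k (l - 1) = κ ∧
    ∀ n, n + 1 < l → ∀ j, k n j = ∑ i, vv (C.th (st (n + 1)) (st n) j i) * k (n + 1) i := by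
  let f : ℕ → Bool × Q → ℝ≥0∞ := fun m => Nat.rec κ
    (fun m g j => ∑ i, vv (C.th (st (l - 1 - m)) (st (l - 2 - m)) j i) * g i) m
  refine ⟨fun n => f (l - 1 - n), by simp [f], fun n hn j => ?_⟩
  obtain ⟨m, rfl⟩ : ∃ m, l = n + 2 + m := ⟨l - (n + 2), by omega⟩
  simp only [show n + 2 + m - 1 - n = m + 1 by omega, show n + 2 + m - 1 - (n + 1) = m by omega]
  simp only [f, show n + 2 + m - 1 - m = n + 1 by omega, show n + 2 + m - 2 - m = n by omega]

variable {C w S l o r st k b}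

/-- the steps up from the free points as a combination of the basic sources -/
theorem up_comb {G : Grid} (h : Side G l o r st) {n ja jS : ℕ} (hn : n ≤ l) {α : ℤ} {U : NT Q}
    {fc : Q → ℤ → ℝ≥0∞} (hc : Cov G (n + 1) α o U.tb fc) (hS : U.chkS false jS = true)
    (hM : U.chkM w false jS = true) (hj : ja ≤ jS)
    (ha : idx α o (G.fst n (r n) o) ≤ ja) {κ : Bool × Q → ℕ} (hf : C.chkC U (st n) ja κ = true)
    {x : ℤ} (hx : idx (anc o (r n) (st n) 11) o x < 11) (q : Q) :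
    upS G w.W fc n x (pull G (n + 1) α o U.tb.T) q ≤
      ∑ i, C.ref.ext (C.bas i q) (idx (anc o (r n) (st n) 11) o x) * vv (κ i) := by
  refine (h.up_free hn hc w hS hM hj (by omega) (by simp [ref, ltab]) ha hf hx q).trans
    ((C.ref.ext_le_of (g := C.eb false) (h := C.eb true) (a := vv (κ (false, q)))
      (b := vv (κ (true, q))) (fun j => ?_) _).trans ?_)
  · rw [vv_mul, vv_mul, vk_add]; exact rdn_le 1 _
  · rw [Fintype.sum_prod_type, Fintype.sum_bool, add_comm]
    have e : ∀ b, C.bas (b, q) q = C.eb b := fun b => by funext j; simp [bas]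
    refine add_le_add ?_ ?_ <;> rw [← e] <;>
      exact Finset.single_le_sum (f := fun q' => C.ref.ext (C.bas (_, q') q) _ * vv (κ (_, q')))
        (fun _ _ => zero_le) (Finset.mem_univ q)

namespace Hyp
variable (h : C.Hyp w S l o r st k)
include h

theorem lt {n : ℕ} (hn : n < l) : st n < 6 := okT_lt (h.side.ok n hn)

theorem cov {n : ℕ} (hn : n < l) (rl : ℕ) (src : Q → Bool → St → ℕ → ℕ) (raw : Q → ℕ → ℕ → ℕ) :
    Cov S.G n (anc o (r n) (st n) 11) o
      (ltab (st n) 11 8 rl C.rl (fun _ => fr 11) (fun _ _ => NN) src raw).tb fun q y => S.fac q (n, y) := by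
  refine h.side.cov hn.le (by omega) (by omega) _ _ _ _ _ _ fun q y j hj => ?_
  unfold fr
  cases e : Nat.ble 11 j
  · exact (h.std.hf _ _).trans_eq vv_NN.symm
  · rw [h.hz n hn q y (by rw [Nat.ble_eq] at e; omega)]; exact zero_le

theorem all {n : ℕ} (hn : n < l) (i : Bool × Q) : C.rl ≤ NN ∧ (C.Pb (st n) i).chk w = true ∧
    (C.Pb (st n) i).chkS false 11 = true ∧ (C.Pb (st n) i).chkM w false 11 = true ∧
    (C.F w (st n) i).chk w = true ∧ (C.F w (st n) i).chkSup 6 14 (C.gam (st n) i) = true ∧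
    ∀ lo, okT (st n) lo = true →
      C.chkC (C.Pb (st n) i) lo (11 - room (st n)) (fun i2 => C.th (st n) lo i2 i) = true ∧
      ∀ q, (sumQ fun i2 => C.gam lo i2 q * C.th (st n) lo i2 i) ≤ C.gh (st n) i q * NN := by
  have := h.ok _ (h.lt hn) i
  simp only [chk, Bool.and_eq_true, Nat.ble_eq] at this
  obtain ⟨⟨⟨⟨⟨⟨a1, a2⟩, a3⟩, a4⟩, a5⟩, a6⟩, a7⟩ := this
  refine ⟨a1, a2, a3, a4, a5, a6, fun lo hlo => ?_⟩
  have := allR_spec a7 (okT_lt hlo)
  rw [hlo, Bool.not_true, Bool.false_or, Bool.and_eq_true] at this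
  exact ⟨this.1, fun q => Nat.le_of_ble_eq_true (allQ_spec this.2 q)⟩

theorem sum_k {n : ℕ} (hn : n + 1 < l) (f : Bool × Q → ℝ≥0∞) : ∑ j, f j * k n j =
    ∑ i, (∑ j, f j * vv (C.th (st (n + 1)) (st n) j i)) * k (n + 1) i := by
  simp only [h.hk n hn, Finset.mul_sum, Finset.sum_mul, mul_assoc]
  exact Finset.sum_comm

theorem bt_le (hb : ∀ q x, idx (anc o (r (l - 1)) (st (l - 1)) 11) o x < 11 → b q x ≤
      ∑ i, C.ref.ext (C.bas i q) (idx (anc o (r (l - 1)) (st (l - 1)) 11) o x) * k (l - 1) i)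
    {n : ℕ} (hn : n < l) (q : Q) {x : ℤ} (hx : idx (anc o (r n) (st n) 11) o x < 11) :
    C.bt S l o r st k b n q x ≤
      ∑ i, C.ref.ext (C.bas i q) (idx (anc o (r n) (st n) 11) o x) * k n i := by
  unfold bt
  split_ifs with e
  · subst e; exact hb q x hx
  · have hn' : n + 1 < l := by omega
    rw [H0, S.beta_lin, h.sum_k hn']
    refine Finset.sum_le_sum fun i _ => mul_le_mul' ?_ le_rfl
    obtain ⟨-, -, a3, a4, -, -, a7⟩ := h.all hn' i
    rw [Sys.beta, h.std.hW]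
    exact up_comb h.side hn.le (h.cov hn' _ _ _) a3 a4 (by omega) (h.side.apex hn 11)
      (a7 _ (h.side.ok n hn)).1 hx q

theorem sup {n : ℕ} (hn : n < l) (q : Q) (x : ℤ) :
    S.fac q (n, x) * C.F0 w S o r st k n q .C0 x ≤ ∑ i, vv (C.gam (st n) i q) * k n i := by
  rw [F0, lin, Finset.mul_sum]
  refine Finset.sum_le_sum fun i _ => ?_
  obtain ⟨a1, -, -, -, -, a6, -⟩ := h.all hn i
  rw [← mul_assoc]
  exact mul_le_mul' (sup_le (h.cov hn _ _ _) a6 (fun _ => le_rfl) (fun _ => a1)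
    (by unfold NT.cl; omega) (by simp only [NT.cl, ltab]; omega) q) le_rfl

theorem anc_dead {n : ℕ} (hn : n < l) (q : Q) : S.fac q (n, r n) = 0 :=
  h.hz n hn q _ (by rw [idx_self]; omega)

theorem dn_free {n : ℕ} (hn : n + 1 < l) (q : Q) (a : St) {x : ℤ}
    (hx : idx (anc o (r (n + 1)) (st (n + 1)) 11) o x < 11) :
    S.dn (n + 1) (C.F0 w S o r st k n) q a x ≤ ∑ i, vv (dnT (C.cg w (st (n + 1)) i q (mir o a)
      (C.ref.cl (idx (anc o (r (n + 1)) (st (n + 1)) 11) o x))) (tyb (Two S.G.A (n + 1) x))) *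
      k (n + 1) i := by
  set j := idx (anc o (r (n + 1)) (st (n + 1)) 11) o x with hj
  have ex : x = out o (r (n + 1)) (wof (st (n + 1)) + ((11 - j).toNat : ℕ)) := by
    rw [eq_out o (r (n + 1)) x (st (n + 1)) 11, ← hj]; congr 1; omega
  have := h.side.down S h.std.hW (n := n) (by omega) (C.F0 w S o r st k n) q a
    (d := (11 - j).toNat) (by omega)
    (fun κ => ∑ i, vk 2 (C.cg w (st (n + 1)) i q (mir o a) (C.ref.cl j) κ) * k (n + 1) i)
    (fun κ _ => by simp [h.anc_dead (show n < l by omega)]) (fun κ y e _ => ?_)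
  · rw [← ex] at this
    exact this.trans ((mul_le_of_le_one_left' (h.std.hfo _ _)).trans (cond_lin _ _ _))
  · have e' := cB_cl (J := 11) (i := j) _ C.ref κ (by omega) (by simp [ref, ltab]) (by omega) e
    simp only [cg, e', cond_true, ← dotN_eq, Finset.sum_mul]
    rw [Finset.sum_comm]
    refine Finset.sum_le_sum fun q' _ => (mul_le_mul' le_rfl (h.sup (by omega) q' y)).trans ?_
    rw [h.sum_k hn, Finset.mul_sum]
    refine Finset.sum_le_sum fun i _ => ?_
    rw [mul_assoc]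
    refine mul_le_mul' le_rfl (mul_le_mul' ?_ le_rfl)
    have := vk_mono 2 (((h.all hn i).2.2.2.2.2.2 _ (h.side.ok n (by omega))).2 q')
    rwa [vk_NN, vk_sumQ, ← funext fun j => vv_mul ..] at this

theorem dead {n : ℕ} (hn : n < l) (q : Q) (a : St) (x : ℤ) :
    S.fac q (n, x) * C.sig w S l o r st k b n q a x = 0 := by
  by_cases hx : 11 ≤ idx (anc o (r n) (st n) 11) o x
  · rw [h.hz n hn q x hx, zero_mul]
  · rw [sig, ind_of_not hx, zero_mul, mul_zero]

theorem bot (hb : ∀ q x, idx (anc o (r (l - 1)) (st (l - 1)) 11) o x < 11 → b q x ≤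
      ∑ i, C.ref.ext (C.bas i q) (idx (anc o (r (l - 1)) (st (l - 1)) 11) o x) * k (l - 1) i) :
    S.Bot l b (fun _ _ _ => 0)
      (fun n q a x => C.H0 S o r st k n q a x + C.sig w S l o r st k b n q a x)
      fun n q a x => C.F0 w S o r st k n q a x + C.sig w S l o r st k b n q a x := by
  intro n hn
  have hP := LineSup.lin (fun i => S.lineSup_pull (h.std.hK n) (h.cov hn C.rl _ (C.rawP (st n) i))
    (fun r y => (h.std.hfo _ _).trans_eq vv_NN.symm) (by simp [NT.tb, ltab])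
    (h.std.hW ▸ (C.Pb (st n) i).chk_sound w (h.all hn i).2.1)) (k n)
  have hF := LineSup.lin (fun i => S.lineSup_pull (h.std.hK n) (h.cov hn NN _ (C.rawF (st n) i))
    (fun r y => (h.std.hfo _ _).trans_eq vv_NN.symm) (by simp [NT.tb, ltab])
    (h.std.hW ▸ (C.F w (st n) i).chk_sound w (h.all hn i).2.2.2.2.1)) (k n)
  have hD := LineSup.dead S.W (S.line n) (h.dead (b := b) hn)
  have e1 : ∀ q x, (S.fo q (n, x) * if n + 1 = l then b q x else S.beta n (fun q a x =>
      C.H0 S o r st k (n + 1) q a x + C.sig w S l o r st k b (n + 1) q a x) q x) ≤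
      C.bt S l o r st k b n q x := fun q x => by
    refine (mul_le_of_le_one_left' (h.std.hfo _ _)).trans ?_
    unfold bt
    split_ifs with e
    · exact le_rfl
    · exact S.beta_mono n (fun r a y => by rw [mul_add, h.dead (by omega), add_zero]) q x
  have e2 : ∀ q a x, S.dn n (fun q a x => C.F0 w S o r st k (n - 1) q a x +
      C.sig w S l o r st k b (n - 1) q a x) q a x ≤ S.dn n (C.F0 w S o r st k (n - 1)) q a x :=
    S.dn_mono n fun r y => by rw [mul_add, h.dead (by omega), add_zero]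
  constructor
  · refine (hP.add hD).src_mono fun q a x _ => ?_
    rw [zero_add]
    refine (e1 q x).trans ?_
    by_cases hx : 11 ≤ idx (anc o (r n) (st n) 11) o x
    · rw [sig, ind_of hx, one_mul]; exact le_add_left le_self_add
    · exact le_add_right (h.bt_le hb hn q (not_le.1 hx))
  · refine (hF.add hD).src_mono fun q a x _ => ?_
    rw [zero_add]
    refine (add_le_add (e1 q x) (e2 q a x)).trans ?_
    by_cases hx : 11 ≤ idx (anc o (r n) (st n) 11) o x
    · rw [sig, ind_of hx, one_mul]; exact le_add_self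
    refine le_add_right ?_
    have e3 : S.dn n (C.F0 w S o r st k (n - 1)) q a x ≤ ∑ i, vv (dnT (C.cg w (st n) i q (mir o a)
        (C.ref.cl (idx (anc o (r n) (st n) 11) o x))) (tyb (Two S.G.A n x))) * k n i := by
      rcases n with _ | n
      · exact zero_le
      · exact h.dn_free hn q a (not_le.1 hx)
    refine (add_le_add (h.bt_le hb hn q (not_le.1 hx)) e3).trans ?_
    rw [← Finset.sum_add_distrib]
    refine Finset.sum_le_sum fun i _ => ?_
    rw [← add_mul]
    refine mul_le_mul' ?_ le_rfl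
    have e4 : Nat.ble 11 (C.ref.cl (idx (anc o (r n) (st n) 11) o x)) = false := by
      rw [← Bool.not_eq_true, Nat.ble_eq]; unfold NT.cl; omega
    refine le_trans (add_le_add (C.ref.ext_le_cl _ (fun _ => (h.all hn i).1)
      fun _ => (h.all hn i).1) le_rfl) (le_of_eq ?_)
    refine Eq.trans ?_ ((C.F w (st n) i).ext_eq_cl _ (fun _ => rfl) fun h' => ?_).symm
    · show _ = vv (C.bas i q (C.ref.cl _) + cond (Nat.ble 11 (C.ref.cl _)) _ _)
      rw [e4, cond_false]; exact vk_add ..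
    · simp only [F, ltab] at h'; omega

end Hyp
end ACert
end Pool.Agent.P.MP_e4ac67_pr.Gr
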