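import Pool.Agent.P.MP_e4ac67_pr.G.ModY

/-! The levels below the centre of the tube when the paths are absorbed by the tube. -/

open scoped ENNReal

namespace Pool.Agent.P.MP_e4ac67_pr.Gr

variable {Q : Type}

theorem NT.ext_congr (B : NT Q) {f g : ℕ → ℕ} {i : ℤ} (h : f (B.cl i) = g (B.cl i)) :
    B.ext f i = B.ext g i := by
  unfold NT.ext
  unfold NT.cl at h
  split_ifs with h1 h2
  · rw [show (max 6 (min i (6 + B.w))).toNat = 6 by omega] at h; rw [h]
  · rw [show (max 6 (min i (6 + B.w))).toNat = 6 + B.w by omega] at h; rw [h]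
  · rw [show (max 6 (min i (6 + B.w))).toNat = i.toNat by omega] at h; rw [h]

theorem cA_cl (s : ℕ) {J d : ℕ} {i : ℤ} (B : NT Q) (k : Option Bool) (hJ : 10 ≤ J)
    (hw : J ≤ 6 + B.w) (hd : (d : ℤ) = J - i) (h : Side.cA s d k = true) :
    Side.cA s (J - B.cl i) k = true := by
  rcases le_or_gt 6 i with e | e
  · rwa [show J - B.cl i = d by unfold NT.cl; omega]
  · have := Sof_le s
    simp only [Side.cA, Bool.or_eq_true, Bool.and_eq_true, Nat.ble_eq, Nat.beq_eq, room] at h ⊢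
    rcases h with h | ⟨h, h' | h'⟩
    · omega
    · exact Or.inr ⟨h, Or.inl h'⟩
    · omega

def cw (wd : ℕ) (i : ℤ) : ℕ := (max 6 (min i (6 + wd))).toNat

theorem ble_cw {wd J : ℕ} (h1 : 6 < J) (h2 : J ≤ 6 + wd) {i : ℤ} :
    (J ≤ i → Nat.ble J (cw wd i) = true) ∧ (¬J ≤ i → Nat.ble J (cw wd i) = false) := by
  rw [← Bool.not_eq_true, Nat.ble_eq]; unfold cw; omega

theorem src_eq (G : Grid) (n : ℕ) (α : ℤ) (o : Bool) {s J wd rl rr : ℕ} {fac fo : Q → ℕ → ℕ}
    {src : Q → Bool → St → ℕ → ℕ} {raw : Q → ℕ → ℕ → ℕ} (q : Q) (a : St) {y : ℤ}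
    (hl : idx α o y < 6 → rl = NN) (hr : 6 + wd < idx α o y → rr = NN) :
    pull G n α o (ltab s J wd rl rr fac fo src raw).tb.src q a y =
      vv (src q (tyb (Two G.A n y)) (mir o a) (cw wd (idx α o y))) :=
  (ltab s J wd rl rr fac fo src raw).ext_eq_cl _ hl hr

/-- nothing lands outside `A` -/
noncomputable def Sys.kill (S : Sys Q) (A : Pt → Prop) : Sys Q :=
  { S with fac := fun q v => ind (A v) * S.fac q v }

theorem Std.kill {S : Sys Q} {w : NW Q} (h : Std S w) (A : Pt → Prop) : Std (S.kill A) w :=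
  ⟨h.hW, h.hK, fun _ _ => ind_mul_le fun _ => h.hf _ _, h.hfo⟩

theorem Sys.Bot.mask [Fintype Q] {S : Sys Q} {A : Pt → Prop} {l : ℕ} {b : Q → ℤ → ℝ≥0∞}
    {H F : ℕ → Fn Q} (h : (S.kill A).Bot l b (fun _ _ _ => 0) H F)
    (h0 : ∀ n < l, ∀ q x, ¬A (n, x) → S.fo q (n, x) = 0) :
    S.Bot l b (fun _ _ _ => 0) (fun n q a x => ind (A (n, x)) * H n q a x)
      fun n q a x => ind (A (n, x)) * F n q a x := by
  intro n hn
  have e1 : ∀ (Φ : Fn Q) q a x, LOp S.W (S.line n) (fun q a x => ind (A (n, x)) * Φ q a x) q a x =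
      LOp (S.kill A).W ((S.kill A).line n) Φ q a x := fun Φ q a x => by
    simp only [LOp, Sys.line, Sys.kill, mul_assoc, mul_left_comm (ind (A _))]
  have e2 : ∀ q x, S.beta n (fun q a x => ind (A (n + 1, x)) * H (n + 1) q a x) q x =
      (S.kill A).beta n (H (n + 1)) q x := fun q x => by
    simp only [Sys.beta, upS, Sys.kill, mul_assoc, mul_left_comm (ind (A _))]
  have e3 : ∀ q a x, S.dn n (fun q a x => ind (A (n - 1, x)) * F (n - 1) q a x) q a x =
      (S.kill A).dn n (F (n - 1)) q a x := fun q a x => by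
    cases n
    · rfl
    · simp only [Sys.dn, Sys.kill, mul_assoc, mul_left_comm (ind (A _)), Nat.add_sub_cancel]
  have e4 : ∀ (Φ : Fn Q) q a x, ¬A (n, x) → S.dn n Φ q a x = 0 := fun Φ q a x hx => by
    cases n
    · rfl
    · simp only [Sys.dn, h0 _ hn q x hx, zero_mul, tsum_zero]
  constructor <;> intro q a x hok <;> by_cases hx : A (n, x)
  · have := (h n hn).1 q a x hok
    simp only [e1, e2, ind_of hx, one_mul]
    exact this
  · simp [Sys.line, h0 n hn q x hx]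
  · have := (h n hn).2 q a x hok
    simp only [e1, e2, e3, ind_of hx, one_mul]
    exact this
  · simp [Sys.line, h0 n hn q x hx, e4 _ q a x hx]

structure RCert (Q : Type) where
  pw : Q → ℕ
  rl : ℕ
  e : ℕ → Q → ℕ → ℕ
  ga : Q → ℕ
  gs : ℕ → Q → ℕ
  gb : ℕ → Q → ℕ
  gaT : Bool → ℕ → Q → ℕ
  gsT : Bool → ℕ → Q → ℕ
  rawP : ℕ → Q → ℕ → ℕ → ℕ
  rawF : ℕ → Q → ℕ → ℕ → ℕ
  rawT : Bool → ℕ → Q → ℕ → ℕ → ℕ

/-- numerical bound for the steps down to a parent of kind `k` -/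
def cAE [NQ Q] (w : NW Q) (ga gb : Q → ℕ) (s d : ℕ) (q : Q) (k : Option Bool) (e : Bool) : ℕ :=
  NT.mx (cond (Side.cA s d k) (dotE w ga q e) 0) (cond (Side.cB s d k) (dotE w gb q e) 0)

def cAB [NQ Q] (w : NW Q) (ga gb : Q → ℕ) (s d : ℕ) (q : Q) (a : St) (k : Option Bool) : ℕ :=
  @Bool.rec (fun _ => ℕ) (@Bool.rec (fun _ => ℕ) (cAE w ga gb s d q k false)
    (cAE w ga gb s d q k true) (dear a k)) 0 (decide (a = ust k))

theorem cAB_eq [NQ Q] (w : NW Q) (ga gb : Q → ℕ) (s d : ℕ) (q : Q) (a : St) (k : Option Bool) :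
    cAB w ga gb s d q a k = NT.mx (cond (Side.cA s d k) (dotN w ga q a k) 0)
      (cond (Side.cB s d k) (dotN w gb q a k) 0) := by
  unfold cAB dotN
  cases decide (a = ust k)
  · cases dear a k <;> rfl
  · cases Side.cA s d k <;> cases Side.cB s d k <;> rfl

theorem Side.dn_AB [NQ Q] [Fintype Q] {S : Sys Q} {l : ℕ} {o : Bool} {r : ℕ → ℤ} {st : ℕ → ℕ}
    (h : Side S.G l o r st) {w : NW Q} (hW : S.W = w.W) {n J : ℕ} (hn : n < l) (F : Fn Q)
    {ga gb : Q → ℕ} (hA : ∀ q, S.fac q (n, r n) * F q .C0 (r n) ≤ vv (ga q))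
    (hB : ∀ q x, 1 ≤ sg o * (r n - x) → S.fac q (n, x) * F q .C0 x ≤ vv (gb q)) (B : NT Q)
    (hJ : 10 ≤ J) (hw : J ≤ 6 + B.w) (q : Q) (a : St) {x : ℤ}
    (hx : idx (anc o (r (n + 1)) (st (n + 1)) J) o x < J) :
    S.dn (n + 1) F q a x ≤ S.fo q (n + 1, x) * vv (dnT (cAB w ga gb (st (n + 1))
      (J - B.cl (idx (anc o (r (n + 1)) (st (n + 1)) J) o x)) q (mir o a))
        (tyb (Two S.G.A (n + 1) x))) := by
  set j := idx (anc o (r (n + 1)) (st (n + 1)) J) o x with hj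
  have ex : x = out o (r (n + 1)) (wof (st (n + 1)) + ((J - j).toNat : ℕ)) := by
    rw [eq_out o (r (n + 1)) x (st (n + 1)) J, ← hj]; congr 1; omega
  have := h.down S hW hn F q a (d := (J - j).toNat) (by omega)
    (fun κ => vk 2 (cAB w ga gb (st (n + 1)) (J - B.cl j) q (mir o a) κ)) (fun κ e => ?_)
    (fun κ y e e' => ?_)
  · rw [← ex] at this
    exact this.trans (mul_le_mul' le_rfl (cond_le_dnT _ _))
  · refine (Finset.sum_le_sum fun q' _ => mul_le_mul' le_rfl (hA q')).trans ?_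
    rw [dotN_eq, cAB_eq, cA_cl (i := j) _ B κ hJ hw (by omega) e, cond_true, mx_eq]
    exact vk_mono 2 (le_max_left _ _)
  · refine (Finset.sum_le_sum fun q' _ => mul_le_mul' le_rfl (hB q' y e')).trans ?_
    rw [dotN_eq, cAB_eq, cB_cl (i := j) _ B κ hJ hw (by omega) e, cond_true, mx_eq]
    exact vk_mono 2 (le_max_right _ _)

namespace RCert
variable [NQ Q] (C : RCert Q) (w : NW Q)

def Pb (s : ℕ) : NT Q := ltab s 11 8 C.rl NN (fun _ _ => NN) (fun _ => fr 11)
  (fun q _ _ j => cond (Nat.ble 11 j) (C.pw q) (C.e s q j)) (C.rawP s)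

def F (s : ℕ) : NT Q := ltab s 11 8 NN NN (fun _ _ => NN) (fun _ => fr 11)
  (fun q t a j => cond (Nat.ble 11 j) (C.pw q)
    (C.e s q j + dnT (cAB w C.ga (C.gb s) s (11 - j) q a) t)) (C.rawF s)

def T (z : Bool) (s : ℕ) : NT Q := ltab s 11 8 NN NN (fun _ _ => NN) (fun _ => fr 11)
  (fun q t a j => cond (Nat.ble 11 j) (cond (z && Nat.beq j (wof s + 11)) 0 (C.pw q))
    (dnT (cAB w C.ga (C.gb s) s (11 - j) q a) t)) (C.rawT z s)

def chk (s : ℕ) : Bool :=
  Nat.ble C.rl NN && (C.Pb s).chk w && (C.Pb s).chkS false 11 && (C.Pb s).chkM w false 11 &&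
    (C.F w s).chk w && (C.F w s).chkSup 6 (wof s + 10) (C.gs s) &&
    (C.F w s).chkSup (wof s + 11) (wof s + 11) C.ga &&
    (allB fun z => (C.T w z s).chk w && (C.T w z s).chkSup 6 (wof s + 10) (C.gsT z s) &&
      (C.T w z s).chkSup (wof s + 11) (wof s + 11) (C.gaT z s)) &&
    allR (fun lo => !okT s lo || ((C.Pb s).chkUv (C.Pb lo) lo 11 (11 - room s) (C.e lo) &&
      allQ fun q => Nat.ble (C.gs lo q) (C.gb s q))) 6

def OK : Prop := ∀ s < 6, C.chk w s = true

variable [Fintype Q] (S : Sys Q) (l : ℕ) (o : Bool) (r : ℕ → ℤ) (st : ℕ → ℕ) (z : Bool)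

noncomputable def H0 (n : ℕ) : Fn Q := pull S.G n (anc o (r n) (st n) 11) o (C.Pb (st n)).tb.T

noncomputable def F0 (n : ℕ) : Fn Q := pull S.G n (anc o (r n) (st n) 11) o
  (if n + 1 = l then C.T w z (st n) else C.F w (st n)).tb.T

variable {C w S l o r st z}

omit [Fintype Q] in
theorem sup2 (hs : Std S w) (h : Side S.G l o r st) {n : ℕ} (hn : n < l)
    {src : Q → Bool → St → ℕ → ℕ} {raw : Q → ℕ → ℕ → ℕ} {ga gb : Q → ℕ}
    (h1 : (ltab (st n) 11 8 NN NN (fun _ _ => NN) (fun _ => fr 11) src raw).chkSup 6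
      (wof (st n) + 10) gb = true)
    (h2 : (ltab (st n) 11 8 NN NN (fun _ _ => NN) (fun _ => fr 11) src raw).chkSup
      (wof (st n) + 11) (wof (st n) + 11) ga = true) (q : Q) :
    S.fac q (n, r n) * pull S.G n (anc o (r n) (st n) 11) o
      (ltab (st n) 11 8 NN NN (fun _ _ => NN) (fun _ => fr 11) src raw).tb.T q .C0 (r n) ≤ vv (ga q) ∧
    ∀ x, 1 ≤ sg o * (r n - x) → S.fac q (n, x) * pull S.G n (anc o (r n) (st n) 11) o
      (ltab (st n) 11 8 NN NN (fun _ _ => NN) (fun _ => fr 11) src raw).tb.T q .C0 x ≤ vv (gb q) := by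
  have hc := h.cov (J := 11) (wd := 8) hn.le (by omega) (by omega) NN NN (fun _ _ => NN)
    (fun _ => fr 11) src raw (f := fun q y => S.fac q (n, y))
    fun q y _ _ => (hs.hf _ _).trans_eq vv_NN.symm
  have := wof_le (st n)
  refine ⟨sup_le hc h2 (fun _ => le_rfl) (fun _ => le_rfl) ?_ ?_ q,
    fun x hx => sup_le hc h1 (fun _ => le_rfl) (fun _ => le_rfl) ?_ ?_ q⟩
  · simp only [idx_self, NT.cl, ltab]; omega
  · simp only [idx_self, NT.cl, ltab]; omega
  · unfold NT.cl; omega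
  · cases o <;> simp only [NT.cl, ltab, idx, anc, out, sg] at hx ⊢ <;> omega

theorem bot (hs : Std S w) (h : Side S.G l o r st) (ok : C.OK w)
    (h0 : ∀ n < l, ∀ q x, 11 ≤ idx (anc o (r n) (st n) 11) o x → S.fo q (n, x) = 0)
    {t : Q → St → Pt → ℝ≥0∞} (ht : ∀ n < l, ∀ q a x, t q a (n, x) ≤
      ind (11 ≤ idx (anc o (r n) (st n) 11) o x ∧ ¬(z = true ∧ n + 1 = l ∧ x = r n)) * vv (C.pw q)) :
    S.Bot l (fun _ _ => 0) t (C.H0 S o r st) (C.F0 w S l o r st z) := by
  intro n hn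
  have all := fun m (hm : m < l) => ok _ (okT_lt (h.ok m hm))
  simp only [chk, Bool.and_eq_true, Nat.ble_eq] at all
  have cov : ∀ m < l, ∀ rl src raw, Cov S.G m (anc o (r m) (st m) 11) o
      (ltab (st m) 11 8 rl NN (fun _ _ => NN) (fun _ => fr 11) src raw).tb fun q y => S.fac q (m, y) :=
    fun m hm rl src raw => h.cov hm.le (by omega) (by omega) _ _ _ _ _ _
      fun q y _ _ => (hs.hf _ _).trans_eq vv_NN.symm
  have ls : ∀ rl src raw, (ltab (st n) 11 8 rl NN (fun _ _ => NN) (fun _ => fr 11) src raw).chk w =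
      true → LineSup S.W (S.line n) (pull S.G n (anc o (r n) (st n) 11) o
        (ltab (st n) 11 8 rl NN (fun _ _ => NN) (fun _ => fr 11) src raw).tb.T)
        (pull S.G n (anc o (r n) (st n) 11) o
          (ltab (st n) 11 8 rl NN (fun _ _ => NN) (fun _ => fr 11) src raw).tb.src) := by
    intro rl src raw hc
    refine S.lineSup_pull (hs.hK n) (cov n hn rl src raw) (fun q y => ?_) (by simp [NT.tb, ltab])
      (hs.hW ▸ NT.chk_sound w _ hc)
    show _ ≤ vv (cond (Nat.ble 11 (cw 8 _)) 0 NN)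
    by_cases e : 11 ≤ idx (anc o (r n) (st n) 11) o y
    · rw [h0 n hn q y e]; exact zero_le
    · rw [(ble_cw (J := 11) (by omega) (by omega)).2 e]; exact (hs.hfo _ _).trans_eq vv_NN.symm
  have bl := fun i => ble_cw (wd := 8) (J := 11) (by omega) (by omega) (i := i)
  have up : ∀ q x, n + 1 < l → idx (anc o (r n) (st n) 11) o x < 11 →
      S.beta n (C.H0 S o r st (n + 1)) q x ≤
        (C.Pb (st n)).ext (C.e (st n) q) (idx (anc o (r n) (st n) 11) o x) := fun q x hn' hx => by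
    obtain ⟨⟨⟨⟨⟨⟨⟨⟨-, -⟩, a3⟩, a4⟩, -⟩, -⟩, -⟩, -⟩, a9⟩ := all _ hn'
    have := allR_spec a9 (okT_lt (h.ok n hn))
    rw [h.ok n hn, Bool.not_true, Bool.false_or, Bool.and_eq_true] at this
    rw [Sys.beta, hs.hW]
    exact h.up_free hn.le (cov _ hn' _ _ _) w a3 a4 (by omega) (by omega) (by simp [Pb, ltab])
      (h.apex hn 11) this.1 hx q
  have dn : ∀ q a x, idx (anc o (r n) (st n) 11) o x < 11 →
      S.dn n (C.F0 w S l o r st z (n - 1)) q a x ≤ vv (dnT (cAB w C.ga (C.gb (st n)) (st n)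
        (11 - cw 8 (idx (anc o (r n) (st n) 11) o x)) q (mir o a))
          (tyb (Two S.G.A n x))) := fun q a x hx => by
    rcases n with _ | n
    · exact zero_le
    obtain ⟨⟨⟨⟨-, a6⟩, a7⟩, -⟩, -⟩ := all n (by omega)
    have := allR_spec (all _ hn).2 (okT_lt (h.ok n (by omega)))
    rw [h.ok n (by omega), Bool.not_true, Bool.false_or, Bool.and_eq_true] at this
    simp only [F0, Nat.add_sub_cancel, if_neg hn.ne]
    exact (h.dn_AB hs.hW (by omega) _ (fun q => (sup2 hs h (by omega) a6 a7 q).1)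
      (fun q x hx => ((sup2 hs h (by omega) a6 a7 q).2 x hx).trans
        (vv_mono (Nat.le_of_ble_eq_true (allQ_spec this.2 q)))) (C.Pb 0) (by omega) (by simp [Pb, ltab]) q a
      hx).trans (mul_le_of_le_one_left' (hs.hfo _ _))
  have d0 : ∀ (Φ : Fn Q) q a x, 11 ≤ idx (anc o (r n) (st n) 11) o x → S.dn n Φ q a x = 0 :=
    fun Φ q a x hx => by
      cases n
      · rfl
      · simp only [Sys.dn, h0 _ hn q x hx, zero_mul, tsum_zero]
  obtain ⟨⟨⟨⟨⟨⟨⟨⟨a1, a2⟩, -⟩, -⟩, a5⟩, -⟩, -⟩, a8⟩, -⟩ := all n hn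
  constructor
  · refine (ls _ _ _ a2).src_mono fun q a x _ => ?_
    by_cases hx : 11 ≤ idx (anc o (r n) (st n) 11) o x
    · rw [h0 n hn q x hx, zero_mul, add_zero, src_eq _ _ _ _ _ _ (by omega) fun _ => rfl,
        (bl _).1 hx, cond_true]
      exact (ht n hn q a x).trans (ind_mul_le fun _ => le_rfl)
    · refine (add_le_add (ht n hn q a x) (mul_le_of_le_one_left' (hs.hfo _ _))).trans ?_
      rw [ind_of_not fun h' => hx h'.1, zero_mul, zero_add]
      split_ifs with e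
      · exact zero_le
      refine (up q x (by omega) (not_le.1 hx)).trans (le_of_eq ((C.Pb (st n)).ext_congr ?_))
      show _ = cond (Nat.ble 11 (cw 8 _)) _ _
      rw [(bl _).2 hx]; rfl
  · unfold F0
    have a8 := allB_spec a8 z
    simp only [Bool.and_eq_true] at a8
    by_cases e : n + 1 = l
    · simp only [if_pos e]
      refine (ls _ _ _ a8.1.1).src_mono fun q a x _ => ?_
      rw [src_eq _ _ _ _ _ _ (fun _ => rfl) fun _ => rfl, mul_zero, add_zero]
      by_cases hx : 11 ≤ idx (anc o (r n) (st n) 11) o x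
      · rw [d0 _ q a x hx, add_zero, (bl _).1 hx, cond_true]
        refine (ht n hn q a x).trans (ind_mul_le fun h' => ?_)
        cases h2 : z && Nat.beq (cw 8 (idx (anc o (r n) (st n) 11) o x)) (wof (st n) + 11)
        · exact le_rfl
        rw [Bool.and_eq_true, Nat.beq_eq] at h2
        have := wof_le (st n)
        refine (h'.2 ⟨h2.1, e, ?_⟩).elim
        have h3 := h2.2
        cases o <;> simp only [cw, idx, anc, out, sg] at h3 <;> omega
      · rw [(bl _).2 hx, cond_false]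
        refine (add_le_add (ht n hn q a x) (dn q a x (not_le.1 hx))).trans (le_of_eq ?_)
        rw [ind_of_not fun h' => hx h'.1, zero_mul, zero_add]
    · simp only [if_neg e]
      refine (ls _ _ _ a5).src_mono fun q a x _ => ?_
      rw [src_eq _ _ _ _ _ _ (fun _ => rfl) fun _ => rfl]
      by_cases hx : 11 ≤ idx (anc o (r n) (st n) 11) o x
      · rw [d0 _ q a x hx, add_zero, (bl _).1 hx, cond_true, h0 n hn q x hx, zero_mul, add_zero]
        exact (ht n hn q a x).trans (ind_mul_le fun _ => le_rfl)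
      · rw [(bl _).2 hx, cond_false]
        refine (add_le_add (add_le_add (ht n hn q a x) ((mul_le_of_le_one_left' (hs.hfo _ _)).trans
          ((up q x (by omega) (not_le.1 hx)).trans ((C.Pb (st n)).ext_le_cl _ (fun _ => a1)
            fun _ => le_rfl)))) (dn q a x (not_le.1 hx))).trans (le_of_eq ?_)
        rw [ind_of_not fun h' => hx h'.1, zero_mul, zero_add]
        exact vk_add 1 _ _

omit [Fintype Q] in
theorem top (hs : Std S w) (h : Side S.G (l + 1) o r st) (ok : C.OK w) (q : Q) :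
    S.fac q (l, r l) * C.F0 w S (l + 1) o r st z l q .C0 (r l) ≤ vv (C.gaT z (st l) q) ∧
    ∀ x, 1 ≤ sg o * (r l - x) →
      S.fac q (l, x) * C.F0 w S (l + 1) o r st z l q .C0 x ≤ vv (C.gsT z (st l) q) := by
  have a := ok _ (okT_lt (h.ok l (by omega)))
  simp only [chk, Bool.and_eq_true] at a
  have a8 := allB_spec a.1.2 z
  simp only [Bool.and_eq_true] at a8
  simp only [F0, if_true]
  exact sup2 hs h (by omega) a8.1.2 a8.2 q

end RCert
end Pool.Agent.P.MP_e4ac67_pr.Gr
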