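import Pool.Agent.P.MP_e4ac67_pr.G.ModA

/-! The paths that start on the tube, summed over all levels with geometric charges. -/

open scoped ENNReal

namespace Pool.Agent.P.MP_e4ac67_pr.Gr

variable {Q : Type}

theorem vk_nat (k n a : ℕ) : vk k (n * a) = n * vk k a := by simp [vk, mul_assoc]

theorem Side.par_add {G : Grid} {l : ℕ} {o : Bool} {r : ℕ → ℤ} {st : ℕ → ℕ} (h : Side G l o r st)
    {n : ℕ} (hn : n < l) {x : ℤ} (hx : G.Ch n x (out o (r (n + 1)) 1)) :
    x = r n ∨ (x = out o (r n) 1 ∧ (G.kd n x (out o (r (n + 1)) 1)).map (sd o) = some false) := by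
  obtain ⟨c1, c2⟩ := h.ch n hn
  have g := h.ge n hn
  have := one_le_Sof (st (n + 1))
  have hc : G.Ch n (r n) (out o (r (n + 1)) 1) := by
    constructor <;> cases o <;> simp only [out, sg, Grid.fst] at g ⊢ <;> omega
  rcases G.ch_two hx hc with e | ⟨e, e'⟩ | ⟨e, e'⟩
  · exact Or.inl e
  · cases o
    · rw [e, add_sub_cancel_right] at c1
      simp only [out, sg] at e'; omega
    · exact Or.inr ⟨by simp only [out, sg]; omega, by rw [e', G.kd_last]; rfl⟩
  · cases o
    · exact Or.inr ⟨by simp only [out, sg]; omega, by rw [e', e, G.kd_first]; rfl⟩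
    · simp only [out, sg] at e'; omega

namespace ACert
variable [DecidableEq Q] [NQ Q] (C : ACert Q) (w : NW Q) (q0 : Q)

def dst (lo : ℕ) (j : Bool × Q) : ℕ := cond (Nat.beq (wof lo) 0)
  (rup 1 (dotN w (fun q => (C.F w lo j).val q 10) q0 .C0 (some false))) 0

/-- scale `3` -/
def own (tl : ℕ) (Y : ℕ → Bool × Q → ℕ) (c0 c1 cu lo : ℕ) (j : Bool × Q) : ℕ :=
  c0 * (C.F w lo j).val q0 (wof lo + 11) * NN + c1 * (mz (wof lo) (tl * (C.F w lo j).val q0 11) +
    Y lo j * NN) + mz cu (C.dst w q0 lo j) * NN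

/-- scale `4` -/
def tot (tl : ℕ) (Y : ℕ → Bool × Q → ℕ) (c0 c1 cu : ℕ) (U : NT Q) (J up lo : ℕ)
    (κ : Bool × Q → ℕ) : ℕ :=
  (c0 * U.wsv w up J q0 * NN + c1 * (wof lo * (tl * U.uM q0 false (J - room up)))) * NN +
    sumQ fun j => C.own w q0 tl Y c0 c1 cu lo j * κ j

def chkY (ti tl tc : ℕ) (Y : ℕ → Bool × Q → ℕ) : Bool :=
  Nat.ble (tl * NN) (ti * tc) && allR (fun up => allQ fun i => allR (fun lo => !okT up lo ||
    Nat.ble (ti * C.tot w q0 tl Y NN NN (wof up * tc) (C.Pb up i) 11 up lo fun j => C.th up lo j i)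
      (Y up i * NN ^ 4)) 6) 6

variable [Fintype Q] (S : Sys Q) (l : ℕ) (o : Bool) (r : ℕ → ℤ) (st : ℕ → ℕ)
  (k : ℕ → Bool × Q → ℝ≥0∞) (b : Q → ℤ → ℝ≥0∞)

/-- the value of a start -/
noncomputable def sv (n : ℕ) (x : ℤ) : ℝ≥0∞ :=
  C.F0 w S o r st k n q0 .C0 x + C.sig w S l o r st k b n q0 .C0 x

noncomputable def Z (t u : ℝ≥0∞) (n : ℕ) : ℝ≥0∞ := ∑ m ∈ Finset.range n, t ^ (n - m) *
  (C.sv w q0 S l o r st k b m (r m) + wof (st m) * (u * C.sv w q0 S l o r st k b m (out o (r m) 1)))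

noncomputable def DS : ℕ → ℝ≥0∞
  | 0 => 0
  | n + 1 => ∑ j, vv (C.dst w q0 (st n) j) * k n j

theorem Z_succ (t u : ℝ≥0∞) (n : ℕ) : C.Z w q0 S l o r st k b t u (n + 1) =
    t * (C.sv w q0 S l o r st k b n (r n) + wof (st n) * (u * C.sv w q0 S l o r st k b n
      (out o (r n) 1)) + C.Z w q0 S l o r st k b t u n) := by
  rw [Z, Finset.sum_range_succ, Z, mul_add t (_ + _), Finset.mul_sum, add_comm,
    show n + 1 - n = 1 by omega, pow_one]
  congr 1
  refine Finset.sum_congr rfl fun m hm => ?_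
  rw [show n + 1 - m = n - m + 1 by have := Finset.mem_range.1 hm; omega, pow_succ', mul_assoc]

variable {C w S l o r st k b}

namespace Hyp
variable (h : C.Hyp w S l o r st k)
include h

omit h in
theorem val {n j : ℕ} {x : ℤ} (hx : idx (anc o (r n) (st n) 11) o x = j) (h1 : 6 ≤ j) (h2 : j ≤ 14)
    (q : Q) : C.F0 w S o r st k n q .C0 x ≤ ∑ i, vv ((C.F w (st n) i).val q j) * k n i :=
  Finset.sum_le_sum fun _ _ => mul_le_mul' (val_le _ _ _ _ _ q hx h1 h2) le_rfl

theorem dn_anc {n : ℕ} (hn : n ≤ l) (a : St) {x : ℤ} (hx : 0 ≤ sg o * (x - r n)) (F : Fn Q) :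
    S.dn n F q0 a x = 0 := by
  rcases n with _ | n
  · rfl
  refine ENNReal.tsum_eq_zero.2 fun i => ?_
  by_cases hc : S.G.Ch n i.1 x
  · have := h.side.par_in (show n < l by omega) hc hx
    rw [h.hz n (by omega), zero_mul, mul_zero]
    cases o <;> simp only [idx, anc, out, sg] at this ⊢ <;> omega
  · rw [dsrc, ind_of_not fun h' => hc h'.1, zero_mul, mul_zero, zero_mul]

theorem dn_add {n : ℕ} (hn : n ≤ l) :
    S.dn n (C.F0 w S o r st k (n - 1)) q0 .C0 (out o (r n) 1) ≤ C.DS w q0 st k n := by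
  rcases n with _ | n
  · exact le_rfl
  refine (dn_le h.std.hW n _ o q0 .C0 _ (fun κ => ind (κ = some false) * C.DS w q0 st k (n + 1))
    fun x hx => ?_).trans ((mul_le_of_le_one_left' (h.std.hfo _ _)).trans ?_)
  · rcases h.side.par_add (show n < l by omega) hx with rfl | ⟨rfl, e⟩
    · simp [h.anc_dead (show n < l by omega)]
    have e1 := idx_out o (r n) (st n) 11 1
    rw [e, ind_of rfl, one_mul]
    cases e0 : Nat.beq (wof (st n)) 0
    · have := Nat.ne_of_beq_eq_false e0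
      simp [h.hz n (by omega) _ _ (show 11 ≤ _ by rw [e1]; omega)]
    · have e2 := Nat.eq_of_beq_eq_true e0
      have e3 : ∀ j, ∑ q, vv (dN w q q0 .C0 (some false)) * vv ((C.F w (st n) j).val q 10) ≤
          vv (C.dst w q0 (st n) j) := fun j => by
        rw [dst, e0, cond_true, dotN_eq]; exact le_rup 1 _
      refine le_trans ?_ (Finset.sum_le_sum fun j _ => mul_le_mul' (e3 j) le_rfl)
      simp only [Finset.sum_mul]
      rw [Finset.sum_comm]
      refine Finset.sum_le_sum fun q _ => ?_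
      simp only [mul_assoc, ← Finset.mul_sum]
      exact mul_le_mul' le_rfl ((mul_le_of_le_one_left' (h.std.hf _ _)).trans
        (val (n := n) (j := 10) (by rw [e1]; omega) (by omega) (by omega) q))
  · cases tyb (Two S.G.A (n + 1) (out o (r (n + 1)) 1)) <;> simp [ind]

theorem lev {ti tl : ℕ} {Y : ℕ → Bool × Q → ℕ} {n : ℕ} (hn : n < l)
    (ih : C.Z w q0 S l o r st k b (vv ti) (vv tl) n + vv tl * (wof (st n) * C.DS w q0 st k n) ≤
      ∑ i, vv (Y (st n) i) * k n i) (c0 c1 cu : ℕ) :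
    vv c0 * C.sv w q0 S l o r st k b n (r n) + vv c1 * (wof (st n) * (vv tl *
      C.sv w q0 S l o r st k b n (out o (r n) 1)) + C.Z w q0 S l o r st k b (vv ti) (vv tl) n) +
      vv cu * C.DS w q0 st k (n + 1) ≤
    vv c0 * C.bt S l o r st k b n q0 (r n) + vv c1 * (wof (st n) * (vv tl *
      C.bt S l o r st k b n q0 (out o (r n) 1))) +
      ∑ j, vk 3 (C.own w q0 tl Y c0 c1 cu (st n) j) * k n j := by
  have hw := wof_le (st n)
  have a1 : C.sv w q0 S l o r st k b n (r n) ≤ C.bt S l o r st k b n q0 (r n) +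
      ∑ i, vv ((C.F w (st n) i).val q0 (wof (st n) + 11)) * k n i := by
    rw [sv, add_comm, sig, h.dn_anc q0 hn.le _ (by simp), add_zero]
    exact add_le_add (ind_mul_le fun _ => le_rfl)
      (val (by rw [idx_self]; simp) (by omega) (by omega) q0)
  have a2 : wof (st n) * C.sv w q0 S l o r st k b n (out o (r n) 1) ≤
      wof (st n) * (C.bt S l o r st k b n q0 (out o (r n) 1) + C.DS w q0 st k n +
      ∑ i, vv ((C.F w (st n) i).val q0 11) * k n i) := by
    rcases (by omega : wof (st n) = 0 ∨ wof (st n) = 1) with e | e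
    · simp [e]
    rw [sv, add_comm, sig]
    exact mul_le_mul' le_rfl (add_le_add (ind_mul_le fun _ => add_le_add le_rfl (h.dn_add q0 hn.le))
      (val (by rw [idx_out, e]; simp) (by omega) (by omega) q0))
  have a3 : ∑ j, vk 3 (C.own w q0 tl Y c0 c1 cu (st n) j) * k n j =
      vv c0 * ∑ i, vv ((C.F w (st n) i).val q0 (wof (st n) + 11)) * k n i +
      vv c1 * (vv tl * (wof (st n) * ∑ i, vv ((C.F w (st n) i).val q0 11) * k n i) +
        ∑ i, vv (Y (st n) i) * k n i) + vv cu * C.DS w q0 st k (n + 1) := by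
    simp only [DS, Finset.mul_sum, ← Finset.sum_add_distrib]
    refine Finset.sum_congr rfl fun j _ => ?_
    rw [own, mz_eq, mz_eq, ← vk_add, ← vk_add, vk_NN, vk_NN, ← vk_mul 1 2, ← vk_add, vk_NN, vk_nat 2 (wof _), ← vv_mul,
      ← vv_mul, ← vv_mul]
    simp only [vv]; ring
  rw [a3, mul_left_comm (wof (st n) : ℝ≥0∞)]
  refine (add_le_add (add_le_add (mul_le_mul' le_rfl a1) (mul_le_mul' le_rfl (add_le_add
    (mul_le_mul' le_rfl a2) le_rfl))) le_rfl).trans (le_trans (le_of_eq ?_) ((add_le_add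
      (mul_le_mul' (le_refl (vv c1)) ih) (le_refl (vv c0 * (C.bt S l o r st k b n q0 (r n) +
        ∑ i, vv ((C.F w (st n) i).val q0 (wof (st n) + 11)) * k n i) + vv c1 * (vv tl * (wof (st n) *
          (C.bt S l o r st k b n q0 (out o (r n) 1) + ∑ i, vv ((C.F w (st n) i).val q0 11) * k n i))) +
            vv cu * C.DS w q0 st k (n + 1)))).trans (le_of_eq ?_))) <;> ring

omit h in
theorem tot_eq (tl : ℕ) (Y : ℕ → Bool × Q → ℕ) (c0 c1 cu : ℕ) (U : NT Q) (J up lo : ℕ)
    (κ : Bool × Q → ℕ) : vk 4 (C.tot w q0 tl Y c0 c1 cu U J up lo κ) =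
    vv c0 * vv (U.wsv w up J q0) + vv c1 * (wof lo * (vv tl * vv (U.uM q0 false (J - room up)))) +
      ∑ j, vk 3 (C.own w q0 tl Y c0 c1 cu lo j) * vv (κ j) := by
  rw [tot, ← vk_add, vk_NN, ← vk_add, vk_NN, ← vk_mul 1 2, vk_nat 2 (wof _), ← vv_mul, ← vv_mul,
    vk_sumQ]
  simp only [← vk_mul 3 1, vv]

theorem pot {ti tl tc : ℕ} {Y : ℕ → Bool × Q → ℕ} (hY : C.chkY w q0 ti tl tc Y = true) (n : ℕ) :
    n < l → C.Z w q0 S l o r st k b (vv ti) (vv tl) n + vv tl * (wof (st n) * C.DS w q0 st k n) ≤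
      ∑ i, vv (Y (st n) i) * k n i := by
  rw [chkY, Bool.and_eq_true, Nat.ble_eq] at hY
  have h0 := vk_mono 2 hY.1
  rw [vk_NN, ← vv_mul] at h0
  replace hY := hY.2
  induction n with
  | zero => intro; simp [Z, DS]
  | succ n ih =>
    intro hn
    have a := h.lev q0 (b := b) (by omega) (ih (by omega)) NN NN (wof (st (n + 1)) * tc)
    rw [vv_NN, one_mul, one_mul, one_mul, one_mul, h.sum_k hn, ← add_assoc,
      show vv (wof (st (n + 1)) * tc) = wof (st (n + 1)) * vv tc from vk_nat ..] at a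
    rw [Z_succ]
    refine (add_le_add le_rfl (mul_le_mul' h0 le_rfl)).trans ?_
    rw [mul_assoc, ← mul_add, mul_left_comm (vv tc), ← mul_assoc (wof (st (n + 1)) : ℝ≥0∞)]
    refine (mul_le_mul' le_rfl a).trans ?_
    simp only [bt, if_neg hn.ne, H0, S.beta_lin, Finset.mul_sum, ← Finset.sum_add_distrib]
    refine Finset.sum_le_sum fun i _ => ?_
    have c := allR_spec (allQ_spec (allR_spec hY (h.lt hn)) i) (h.lt (show n < l by omega))
    rw [h.side.ok n (by omega), Bool.not_true, Bool.false_or, Nat.ble_eq] at c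
    have d := vk_mono 5 c
    rw [vk_pow 1 4, ← vk_mul 1 4, tot_eq, vv_NN, one_mul, one_mul] at d
    obtain ⟨-, -, a3, a4, -⟩ := h.all hn i
    have u1 := h.side.up_anc (show n < l by omega) (h.cov hn _ _ _) w a3 (by omega)
      (fun q y hy => h.hz _ hn q y hy) q0
    have u2 := h.side.up_add (show n < l by omega) (h.cov hn _ _ _) w a3 a4 q0
    rw [← h.std.hW] at u1 u2
    refine le_trans ?_ (mul_le_mul' d le_rfl)
    rw [mul_assoc]
    refine mul_le_mul' le_rfl ?_
    rw [add_mul, add_mul, mul_assoc, mul_assoc]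
    exact add_le_add (add_le_add (mul_le_mul' u1 le_rfl)
      (mul_le_mul' le_rfl (mul_le_mul' le_rfl (mul_le_mul' u2 le_rfl)))) le_rfl

end Hyp
end ACert
end Pool.Agent.P.MP_e4ac67_pr.Gr
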