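import Pool.Agent.P.MP_e4ac67_pr.G.C2
import Pool.Agent.P.MP_e4ac67_pr.G.C3
import Pool.Agent.P.MP_e4ac67_pr.G.C4
import Pool.Agent.P.MP_e4ac67_pr.S.Cls

/-! The reductions for self-avoiding walks. -/

open scoped ENNReal
open Finset

namespace Pool.Agent.P.MP_e4ac67_pr.Gr
open Grid C3
variable {G : Grid} {z b : Pt} {T : Tube G} {k : ℕ} {P : Nm} {Q : Type} [Fintype Q] {I : List Pt}

theorem fH_le (s : Bool) (b e : Pt) : G.fH k P s z b I e ≤ G.fC P (fun _ _ _ _ => True) z b I e := by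
  refine tsum_le_of_enc _ _ (fun t => (t, cond s t (t + 1))) (fun x y _ _ a => congrArg Prod.fst a)
    fun t _ => ind_mul_le fun a => ?_
  rw [ind_of (And.intro a.1 trivial), one_mul]
  refine mul_le_of_le_one_left' ?_
  by_cases c : G.Pk k z b I e t
  · rw [ind_of c, ind_of_not fun c' : G.Al k z b I e t => c'.1 c, add_zero]
  · rw [ind_of_not c, zero_add]; exact ind_le_one _

theorem fFS_le (hm : P.m = false) : G.fFS k P z b I ≤
    ∑ o, G.fM P o (fun _ _ _ _ => True) 1 1 z b I := by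
  simp only [Fintype.sum_bool, fM, one_mul, cond_true, cond_false, oe, hm, Bool.false_eq_true,
    false_and, if_false]
  rw [add_add_add_comm, ← ENNReal.tsum_add, ← tsum_ite_eq z (fun _ => G.fC P _ z b I z + _),
    ← ENNReal.tsum_add]
  refine ENNReal.tsum_le_tsum fun e => ind_mul_le fun a => ?_
  refine (add_le_add (fH_le _ _ _) (fH_le _ _ _)).trans ?_
  rcases a.1 with rfl | c
  · rw [if_pos rfl]; exact le_self_add
  · rw [ind_of c, one_mul, one_mul]; exact le_add_self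

theorem with_WS {w : NW Q} {q : Q} {m : ℕ} {t pw : Q → ℕ} {o : Bool} (h : Fit z T) (hb : G.Tb z b)
    (hq : P.q = 1) (hs : Stp w q q P.p 1) (W : List Pt → ℝ≥0∞)
    (hW : ∀ I, W I ≠ 0 → o = sid G z (I.headD z) → G.Arc z b I z ∧
      W I ≤ P.p ^ I.length * vv (T.lk (spS w m NN t true pw o).lt 0 q (vx b I z I.length)))
    (hp : 1 ≤ P.p * vv (pw q)) : ∑' I, ind (o = sid G z (I.headD z)) * (W I + G.fWS P z b I) ≤
      (spS w m NN t true pw o).loops T q b := by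
  have st := fun I e (a : G.Arc z b I e) i (hi : i ≤ I.length) =>
    stp_ge h hb a (S := spS w m NN t true pw o) hs rfl rfl hi
  simp only [lF_one, mul_one, eF, ite_self] at st
  have pr := fun I e a => prod_le_prod' (s := range (List.length I)) fun i hi =>
    st I e a i (mem_range.1 hi).le
  simp only [prod_const, card_range] at pr
  simp only [mul_add, ENNReal.tsum_add, fWS, ← ENNReal.tsum_mul_left]
  rw [← ENNReal.tsum_prod, ← one_mul (Spec.loops ..)]
  refine both (e := z) _ h q _ _ 1 (fun I hI => ?_) fun x hx => ?_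
  · have u := of_ind_mul_ne hI
    obtain ⟨a, v⟩ := hW I (right_ne_zero_of_mul hI) u
    refine ⟨a, u, ?_⟩
    rw [ind_of u, one_mul, one_mul]
    exact v.trans (mul_le_mul_left (pr I z a) _)
  · have u := of_ind_mul_ne hx
    have u' := of_ind_mul_ne (right_ne_zero_of_mul hx)
    refine ⟨rfl, u'.2.1, u'.1, u, congrArg some (u ▸ sid_other u'.2.2), ?_⟩
    rw [ind_of u, ind_of u', one_mul, one_mul, one_mul, wt_ne le_rfl, prod_range_succ, mul_assoc]
    simp only [hq, eF, lF, ite_self, mul_one, prod_const, card_range]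
    exact (mul_one _).ge.trans (mul_le_mul' (pr _ _ u'.2.1)
      (hp.trans (mul_le_mul_left (st _ _ u'.2.1 _ le_rfl) _)))

theorem wt_saw (hq : P.q = 1) {j : ℕ} (hj : j ≤ I.length) (e : Pt) (ee el : ℕ → Prop) :
    G.wt P z b I e (· ≠ j) ee el = P.p ^ I.length := by
  simp [wt_ne hj, hq, eF, lF]

theorem red_WS (hT : Fit z T) (h7 : 7 ≤ k) (hq : P.q = 1) {w : NW Q} {s0 : Q}
    (s00 : Stp w s0 s0 P.p 1) {t pw : Q → ℕ} (ht : 1 ≤ vv (t s0)) (hp : 1 ≤ P.p * vv (pw s0))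
    (s : Option Bool) : G.sT P z s (G.fSz k P z) + G.sT P z s (G.fWS P z) ≤
      ∑ o, T.sum P (spS w (6 - G.tau z) NN t true pw o) s0 1 1 s ∧
    G.sT P z none (G.fZW P z) + G.sT P z none (G.fWS P z) ≤
      ∑ o, T.sum P (spS w (6 - G.tau z) NN t true pw o) s0 1 1 none := by
  have ws : ∀ b I, G.fWS P z b I ≠ 0 → ∃ e, G.Arc z b I e := fun b I h => by
    obtain ⟨e, he⟩ := not_forall.1 (mt ENNReal.tsum_eq_zero.2 h)
    exact ⟨e, (of_ind_mul_ne he).2.1⟩
  constructor <;> rw [← Grid.sT_add] <;>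
    refine sum_le hT P _ (fun _ => rfl) s0 _ _ (fun b I h => (em (G.fWS P z b I = 0)).elim
      (fun c => by rw [c, add_zero] at h; exact ⟨z, (of_ind_mul_ne h).1⟩) (ws b I))
      (fun o b hb => ?_) _ <;>
    rw [ite_self, one_mul] <;> refine with_WS hT hb hq s00 _ (fun I hI ho => ?_) hp <;>
    obtain ⟨a, v⟩ := of_ind_mul_ne hI <;> refine ⟨a, ?_⟩
  · rw [fSz, ind_of ⟨a, v⟩, one_mul, wt_saw hq le_rfl, far_vz hT h7 a ho v]
    exact le_mul_of_one_le_right' ht
  · rw [fZW, ind_of ⟨a, v⟩, one_mul, wt_saw hq (Nat.zero_le _), far_zw hT a ho v.1 v.2]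
    exact le_mul_of_one_le_right' ht

/-- the automata for walks: `w` for the arcs to the bonus vertex and the unmarked arcs -/
structure SawW (x iv : ℝ≥0∞) (w : NW (Fin 3)) (M : MK (Fin 3)) (t pw : Fin 3 → ℕ) : Prop where
  s21 : Stp w 2 1 x 0
  s11 : Stp w 1 1 x 1
  s10 : Stp w 1 0 x 1
  s00 : Stp w 0 0 x 1
  t0 : 1 ≤ vv (t 0)
  t1 : 1 ≤ vv (t 1)
  pw : 1 ≤ x * vv (pw 0)
  bd : M.Bond (sawNm x iv) 1 1

variable {x iv h : ℝ≥0∞} {w : NW (Fin 3)} {M : MK (Fin 3)} {t pw : Fin 3 → ℕ}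

theorem red_free_saw (hT : Fit z T) (h7 : 7 ≤ k) (H : SawW x iv w M t pw) (h1 : h ≤ 1) :
    G.freeS (sawNm x iv) h z ≤ ∑ o, (T.sum (sawNm x iv) (spL w (fun _ => NN) t o) 0 1 1 none +
      T.sum (sawNm x iv) (spS w (6 - G.tau z) NN t true pw o) 0 1 1 none) := by
  rw [sum_add_distrib, freeS, add_assoc]
  refine add_le_add ((one_mul _).ge.trans (red_S hT H.s00 vv_NN.ge H.t0 le_rfl fun _ => le_rfl))
    (le_trans ?_ (red_WS (k := k) hT h7 rfl H.s00 H.t0 H.pw none).2)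
  exact add_le_add le_rfl (mul_le_of_le_one_left' h1)

theorem red_chg_saw (hT : Fit z T) (h7 : 7 ≤ k) (h3 : 3 ≤ G.gap z) (H : SawW x iv w M t pw)
    (s : Bool) :
    G.chgS k (sawNm x iv) h z s ≤ ∑ o, (h * (T.sum (sawNm x iv) (spL w (fun _ => NN) t o) 2 1 1 s +
      T.sum (sawNm x iv) (M.spC 0 o) 2 1 1 s) +
      T.sum (sawNm x iv) (spS w (6 - G.tau z) NN t true pw o) 0 1 1 s) := by
  rw [sum_add_distrib, ← mul_sum, sum_add_distrib, chgS, add_assoc]
  refine add_le_add (mul_le_mul_right (add_le_add (red_LX_bond hT rfl H.s21 H.s11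
    (by simpa [sawNm] using H.s10) H.s00 vv_NN.ge vv_NN.ge H.t0 H.t1 false _) ?_) _)
    (red_WS hT h7 rfl H.s00 H.t0 H.pw _).1
  exact (sT_mono fun b I _ => fFS_le rfl).trans ((sT_sum _ _).trans_le
    (sum_le_sum fun o _ => red_C_bond hT h3 H.bd o _))

end Pool.Agent.P.MP_e4ac67_pr.Gr
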