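import Pool.Agent.P.MP_e4ac67_pr.G.ModR

/-! Tubes with two sides, path problems around a tube, and the cut into two one sided problems. -/

open scoped ENNReal

namespace Pool.Agent.P.MP_e4ac67_pr.Gr

/-- A tube with centre `(l + 1, z)`; `r true`, `r false` are the chains of leftmost and rightmost
ancestors, `st o n` is the state of the side `o` on level `n`. -/
structure Tube (G : Grid) where
  l : ℕ
  z : ℤ
  r : Bool → ℕ → ℤ
  st : Bool → ℕ → ℕ
  side : ∀ o, Side G (l + 1) o (r o) (st o)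
  top : ∀ o, r o (l + 1) = z
  ord : ∀ n ≤ l + 1, r true n ≤ r false n

variable {Q : Type}

def lkN (f : Q → ℕ → ℕ → ℕ) (d : ℕ) (q : Q) (i j : ℕ) : ℕ :=
  cond (Nat.ble 2 i && Nat.ble 2 j) (f q i j) d

namespace Tube
variable {G : Grid} (T : Tube G)

/-- outside the tube, on the side `o` (`true`: left), not above the level of the centre -/
def Free (o : Bool) (v : Pt) : Prop :=
  v.1 ≤ T.l + 1 ∧ (wof (T.st o v.1) : ℤ) + 1 ≤ sg o * (T.r o v.1 - v.2)

def Hi (v : Pt) : Prop := T.l + 1 < v.1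

/-- the tube with its centre -/
def Tz (v : Pt) : Prop := v.1 ≤ T.l + 1 ∧ ¬T.Free true v ∧ ¬T.Free false v

def g : ℕ := (G.A (T.l + 1) T.z - G.A (T.l + 1) (T.z - 1)).toNat

def Ei (o : Bool) (y : ℤ) : ℕ := min 8 (sg o * (y - G.fst (T.l + 1) T.z o) + 2).toNat

/-- `f q (min 8 i) (min 8 (g + 4 - i))` at the `i`-th neighbour of the centre
(`1 ≤ i ≤ g + 3`), `d` at all other points -/
def lk (f : Q → ℕ → ℕ → ℕ) (d : ℕ) (q : Q) (v : Pt) : ℕ :=
  if v.1 = T.l + 2 then lkN f d q (T.Ei true v.2) (T.Ei false v.2)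
  else if v = (T.l + 1, T.z - 1) then f q 1 (min 8 (T.g + 3))
  else if v = (T.l + 1, T.z + 1) then f q (min 8 (T.g + 3)) 1 else d

/-- the last neighbour of the centre in the tube on the side `o` -/
def Y (o : Bool) : Pt :=
  if wof (T.st o (T.l + 1)) = 1 then (T.l + 1, out o T.z 1) else (T.l, T.r o T.l)

/-- on the level of the centre only the side `o` -/
def Nr (o : Bool) (v : Pt) : Prop := v.1 = T.l + 1 → 1 ≤ sg o * (T.z - v.2)

end Tube

/-- Step weights `w.wl q r ear`; factors `lf` (arrival), `lo` (departure) and terminal weights `lt`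
at the neighbours of the centre; paths may end on the tube with weight `pw` when they come from
the side `ws` (not at `Y` if `no1`); paths that start on the tube leave on the side `so`. -/
structure Spec (Q : Type) where
  w : NW Q
  lf : Q → ℕ → ℕ → ℕ
  lo : Q → ℕ → ℕ → ℕ
  lt : Q → ℕ → ℕ → ℕ
  ws : Option Bool
  no1 : Bool
  so : Bool
  pw : Q → ℕ

namespace Spec
variable (P : Spec Q) {G : Grid} (T : Tube G)

def Go (prev : Option Pt) (v u : Pt) : Prop :=
  (T.Tz v → prev = none ∧ (T.Free P.so u ∨ T.Hi u)) ∧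
    (T.Tz u → ∃ o, P.ws = some o ∧ (T.Free o v ∨ T.Hi v) ∧ T.Nr o u)

open Classical in
noncomputable def ff (f : Q → ℕ → ℕ → ℕ) (q : Q) (v : Pt) : ℝ≥0∞ :=
  if T.Tz v then 1 else vv (T.lk f NN q v)

noncomputable def sw (G : Grid) (q r : Q) (prev : Option Pt) (u : Pt) : ℝ≥0∞ :=
  vv (P.w.wl q r (tyb (G.Ear prev u)))

open Classical in
/-- the path problem -/
noncomputable def sys : Sys Q where
  G := G
  W := P.w.W
  fac := 0
  fo := 0
  om q r prev v u := ind (P.Go T prev v u) * (ff T P.lo q v * (P.sw G q r prev u * ff T P.lf r u))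
  term q prev v := if T.Tz v then
      ind (prev ≠ none ∧ ¬(P.no1 = true ∧ ∃ o, P.ws = some o ∧ v = T.Y o)) * vv (P.pw q)
    else vv (T.lk P.lt 0 q v)
  K := 0
  tb := 0
  H := 0
  be := 0

/-- numerical bound for the steps down to the level of the centre on one side -/
def cS [NQ Q] (w : NW Q) (b1 b2 : Q → ℕ) (q : Q) (a : St) : ℕ → Option Bool → ℕ
  | 0, k => cond (decide (k = some false)) (dotN w b2 q a k)
      (dotN w (fun r => NT.mx (b1 r) (b2 r)) q a k)
  | 1, k => dotN w b1 q a k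
  | 2, k => cond (decide (k = some false)) (dotN w b1 q a k) 0
  | _, _ => 0

variable (o : Bool) (b1 b2 : Q → ℕ)

open Classical in
noncomputable def fac (q : Q) (v : Pt) : ℝ≥0∞ :=
  if T.Hi v ∨ T.Free o v then vv (T.lk P.lf NN q v) else ind (P.ws = some o ∧ T.Nr o v)

open Classical in
noncomputable def fo (q : Q) (v : Pt) : ℝ≥0∞ :=
  if T.Hi v ∨ T.Free o v then vv (T.lk P.lo NN q v) else ind (P.ws ≠ some o)

open Classical in
noncomputable def t0 (q : Q) (v : Pt) : ℝ≥0∞ :=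
  if T.Hi v ∨ T.Free o v then vv (T.lk P.lt 0 q v)
  else ind (P.ws = some o ∧ T.Nr o v ∧ ¬(P.no1 = true ∧ v = T.Y o)) * vv (P.pw q)

def bf (z : ℤ) (r : Q) (x : ℤ) : ℕ := if x = out o z 1 then b1 r else b2 r

/-- the one sided problem: the steps down on the other side are terminal -/
noncomputable def side [NQ Q] [Fintype Q] : Sys Q where
  G := G
  W := P.w.W
  fac := P.fac T o
  fo := P.fo T o
  om q r prev v u := P.fo T o q v * (P.sw G q r prev u * P.fac T o r u)
  term q prev v := P.t0 T o q v + ∑' u, ∑ r, ind (G.Adj v u ∧ T.Hi v ∧ u.1 = T.l + 1 ∧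
    T.Nr (!o) u ∧ prev ≠ some u) * (P.fo T o q v * P.sw G q r prev u) * vv (bf (!o) b1 b2 T.z r u.2)
  K := Kof P.w.k G
  tb q a v := P.t0 T o q v + ind (v.1 = T.l + 2) * (P.fo T o q v *
    vv (dnT (cS P.w b1 b2 q (mir (!o) a) (T.Ei (!o) v.2)) (tyb (Two G.A v.1 v.2))))
  H := 0
  be := 0

def chkW [NQ Q] : Bool := allQ fun q => allQ fun r =>
  Nat.ble (P.w.wl q r true) (P.w.wl q r false) && Nat.ble (P.w.wl q r false) (P.w.wu q r) &&
    allB fun b => Nat.ble (P.w.wl q r b) (P.w.wd q r b)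

variable {P T o b1 b2}

theorem sw_le [NQ Q] (h : P.chkW = true) (q r : Q) (prev : Option Pt) (u : Pt) (b : Bool)
    (hb : b = true → G.Ear prev u) : P.sw G q r prev u ≤ P.w.W.wl q r b ∧
      P.sw G q r prev u ≤ P.w.W.wd q r b ∧ P.sw G q r prev u ≤ P.w.W.wu q r := by
  have a := allQ_spec (allQ_spec h q) r
  simp only [Bool.and_eq_true, Nat.ble_eq] at a
  have c := fun b => Nat.le_of_ble_eq_true (allB_spec a.2 b)
  have e : P.w.wl q r (tyb (G.Ear prev u)) ≤ P.w.wl q r b := by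
    cases b
    · cases tyb (G.Ear prev u)
      exacts [le_rfl, a.1.1]
    · rw [tyb_true.2 (hb rfl)]
  refine ⟨vv_mono e, vv_mono (e.trans (c b)), vv_mono (le_trans ?_ a.1.2)⟩
  cases tyb (G.Ear prev u)
  exacts [le_rfl, a.1.1]

theorem dnS_le [NQ Q] [Fintype Q] (T : Tube G) (w : NW Q) (o : Bool) (g : ℤ → Q → ℝ≥0∞)
    (h0 : ∀ x r, g x r ≤ ind (1 ≤ sg o * (T.z - x)) * vv (bf o b1 b2 T.z r x)) (q : Q) (a : St)
    (y : ℤ) : ∑' i : ℤ × Q, dsrc G w.W (T.l + 1) i.1 i.2 q a y * g i.1 i.2 ≤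
      vv (dnT (cS w b1 b2 q (mir o a) (T.Ei o y)) (tyb (Two G.A (T.l + 2) y))) := by
  refine (down_le' G w.W _ g q a y (fun k => vk 2 (cS w b1 b2 q (mir o a) (T.Ei o y)
    (k.map (sd o)))) fun x hx => ?_).trans (le_trans (le_of_eq ?_) (cond_le_dnT _ _))
  · by_cases h1 : 1 ≤ sg o * (T.z - x)
    swap
    · refine le_trans (le_of_eq (Finset.sum_eq_zero fun r _ => ?_)) zero_le
      have := h0 x r
      rw [ind_of_not h1, zero_mul] at this
      rw [le_zero_iff.1 this, mul_zero]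
    refine (Finset.sum_le_sum fun r _ => mul_le_mul' ((dsrc_le G w _ x r q a y o).trans
      (ind_mul_le fun _ => le_rfl)) ((h0 x r).trans (ind_mul_le fun _ => le_rfl))).trans ?_
    have k1 : (G.kd (T.l + 1) x y).map (sd o) = some false ↔ y = G.fst (T.l + 1) x (!o) := by
      have := G.gap2 (T.l + 1) x
      unfold Grid.kd
      cases o <;> split_ifs <;> simp [sd, Grid.fst] <;> omega
    have m := (G.A_lt (T.l + 1)).monotone
    obtain ⟨x1, x2⟩ := hx
    have k2 : x ≠ out o T.z 1 → T.Ei o y = 0 := fun e => by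
      cases o <;> simp only [Tube.Ei, sg, out, Grid.fst] at e h1 ⊢
      · have := m (show T.z + 1 ≤ x - 1 by omega)
        have := G.gap2 (T.l + 1) (T.z + 1)
        rw [add_sub_cancel_right] at this
        omega
      · have := m (show x ≤ T.z - 1 - 1 by omega)
        have := G.gap2 (T.l + 1) (T.z - 1)
        omega
    have k3 : x = out o T.z 1 → T.Ei o y ≤ 2 ∧ (T.Ei o y = 2 ↔ y = G.fst (T.l + 1) x (!o)) := by
      rintro rfl
      cases o <;> simp only [Tube.Ei, sg, out, Grid.fst, Bool.not_true, Bool.not_false] at x1 x2 ⊢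
      · rw [show T.z - -1 * 1 - 1 = T.z by ring] at x1 ⊢; omega
      · rw [mul_one] at x2 ⊢; omega
    have mono : ∀ {f f' : Q → ℕ}, (∀ r, f r ≤ f' r) → ∀ k, ∑ r, vv (dN w r q (mir o a) k) * vv (f r) ≤
        vk 2 (dotN w f' q (mir o a) k) := fun h k =>
      (Finset.sum_le_sum fun r _ => mul_le_mul' le_rfl (vv_mono (h r))).trans_eq (dotN_eq ..)
    by_cases e : x = out o T.z 1
    · obtain ⟨k4, k5⟩ := k3 e
      simp only [bf, if_pos e]
      rcases (by omega : T.Ei o y = 0 ∨ T.Ei o y = 1 ∨ T.Ei o y = 2) with e' | e' | e' <;>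
        rw [e', cS]
      · rw [decide_eq_false fun h => by have := k5.2 (k1.1 h); omega, cond_false]
        exact mono (fun r => by rw [mx_eq]; omega) _
      · exact mono (fun _ => le_rfl) _
      · rw [decide_eq_true (k1.2 (k5.1 e')), cond_true]
        exact mono (fun _ => le_rfl) _
    · simp only [bf, if_neg e]
      rw [k2 e, cS]
      cases decide ((G.kd (T.l + 1) x y).map (sd o) = some false)
      · exact mono (fun r => by rw [mx_eq]; omega) _
      · exact mono (fun _ => le_rfl) _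
  · cases o <;> cases tyb (Two G.A (T.l + 1 + 1) y) <;> simp [sd, add_comm]

theorem steps [NQ Q] [Fintype Q] (h : P.chkW = true) : (P.side T o b1 b2).Steps := by
  refine ⟨fun q r prev n x s b hb => ?_, fun q r prev n x y _ => ?_, fun q r prev n x y b _ hb => ?_,
    fun q a prev v Vis hc => add_le_add le_rfl ?_⟩
  · exact mul_le_mul' le_rfl (mul_le_mul' (sw_le h q r prev _ b hb).1 le_rfl)
  · exact mul_le_mul' le_rfl (mul_le_mul' (sw_le h q r prev _ false (by simp)).2.2 le_rfl)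
  · exact mul_le_mul' le_rfl (mul_le_mul' (sw_le h q r prev _ b hb).2.1 le_rfl)
  obtain ⟨n, y⟩ := v
  have key : ∀ u : Pt, G.Adj (n, y) u → T.Hi (n, y) → u.1 = T.l + 1 →
      n = T.l + 2 ∧ G.Ch (T.l + 1) u.2 y := by
    rintro u (⟨s, rfl⟩ | h | h) h1 h2 <;> simp only [Tube.Hi] at h1 h2
    · omega
    · omega
    · exact ⟨by omega, h2 ▸ h.2⟩
  by_cases hn : n = T.l + 2
  swap
  · refine le_trans (le_of_eq (ENNReal.tsum_eq_zero.2 fun u => Finset.sum_eq_zero fun r _ => ?_))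
      zero_le
    rw [ind_of_not fun h => hn (key u h.1 h.2.1 h.2.2.1).1, zero_mul, zero_mul]
  subst hn
  rw [ind_of rfl, one_mul]
  refine le_trans ?_ (mul_le_mul' le_rfl (dnS_le T P.w (!o)
    (fun x r => ind (1 ≤ sg (!o) * (T.z - x)) * vv (bf (!o) b1 b2 T.z r x)) (fun _ _ => le_rfl) q a y))
  rw [← ENNReal.tsum_mul_left, ENNReal.tsum_prod' (α := ℤ)]
  refine tsum_le_of_dec _ _ (fun x => (T.l + 1, x)) fun u hu => ?_
  obtain ⟨r, -, hr⟩ := Finset.exists_ne_zero_of_sum_ne_zero hu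
  rw [mul_assoc] at hr
  obtain ⟨h1, h2, h3, h4, h5⟩ := of_ind_mul_ne hr
  obtain ⟨m, x⟩ := u
  obtain rfl : m = T.l + 1 := h3
  have hx : G.Ch (T.l + 1) x y := (key _ h1 h2 rfl).2
  refine ⟨x, rfl, ?_⟩
  rw [tsum_fintype]
  refine Finset.sum_le_sum fun r _ => ?_
  rw [mul_assoc, mul_assoc]
  refine ind_mul_le fun _ => mul_le_mul' le_rfl ?_
  have h6 : a ≠ ust (G.kd (T.l + 1) x y) := fun e => h5 (by
    subst e
    obtain ⟨n', x', e1, e2, -, e4, e5⟩ := G.cons_of_ust hc
    obtain rfl : T.l + 1 = n' := by simpa using e1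
    rw [e2, G.kd_inj hx e4 e5])
  rw [dsrc, ind_of (h4 rfl), one_mul, ind_of ⟨hx, h6⟩, one_mul]
  exact mul_le_mul' (sw_le h q r prev _ _ (G.dear_ear hc hx)).2.1 le_rfl

end Spec
end Pool.Agent.P.MP_e4ac67_pr.Gr
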