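import Pool.Agent.P.MP_e4ac67_pr.G.Up

/-! Assembling supersolutions level by level. -/

open scoped ENNReal

namespace Pool.Agent.P.MP_e4ac67_pr.Gr

abbrev Fn (Q : Type) := Q → St → ℤ → ℝ≥0∞

namespace Sys
variable {Q : Type} [Fintype Q] (S : Sys Q)

/-- the step weights of `S` are dominated by `fo`, `W`, `fac`, the terminal weights by `tb` -/
structure Steps : Prop where
  lat : ∀ q r prev n x s (b : Bool), (b = true → S.G.Ear prev (n, hop x s 0)) →
    S.om q r prev (n, x) (n, hop x s 0) ≤ S.fo q (n, x) * (S.W.wl q r b * S.fac r (n, hop x s 0))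
  up : ∀ q r prev n x y, S.G.Ch n x y →
    S.om q r prev (n, x) (n + 1, y) ≤ S.fo q (n, x) * (S.W.wu q r * S.fac r (n + 1, y))
  dn : ∀ q r prev n x y (b : Bool), S.G.Ch n x y → (b = true → S.G.Ear prev (n, x)) →
    S.om q r prev (n + 1, y) (n, x) ≤ S.fo q (n + 1, y) * (S.W.wd q r b * S.fac r (n, x))
  tm : ∀ q a prev v Vis, S.G.Cons a prev v Vis → S.term q prev v ≤ S.tb q a v

def Ker : Prop := ∀ n x s d r, ∃ V, LineSup S.W (S.line (n + 1)) V
      (fun q a y => S.fo q (n + 1, y) * dsrc S.G S.W n (hop x s d) r q a y) ∧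
    ∀ q, upS S.G S.W (fun r y => S.fac r (n + 1, y)) n x V q ≤ S.K n q r x s d

/-- the steps up from `(n, x)` when the values on level `n + 1` are `H` -/
noncomputable def beta (n : ℕ) (H : Fn Q) (q : Q) (x : ℤ) : ℝ≥0∞ :=
  upS S.G S.W (fun r y => S.fac r (n + 1, y)) n x H q

/-- the steps down from level `m` when the values on level `m - 1` are `F` -/
noncomputable def dn : ℕ → Fn Q → Fn Q
  | 0, _, _, _, _ => 0
  | n + 1, F, q, a, y => ∑' i : ℤ × Q, S.fo q (n + 1, y) * dsrc S.G S.W n i.1 i.2 q a y *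
      (S.fac i.2 (n, i.1) * F i.2 .C0 i.1)

noncomputable def withH (H : ℕ → Fn Q) : Sys Q :=
  { S with H := H, be := fun n => S.beta n (H (n + 1)) }

theorem U_withH (H : ℕ → Fn Q) (m : ℕ) : (S.withH H).U m = S.U m := by
  induction m with
  | zero => rfl
  | succ m ih => funext q prev v Vis; simp only [U, ih]; rfl

theorem beta_add (n : ℕ) (H H' : Fn Q) (q : Q) (x : ℤ) :
    S.beta n (fun q a x => H q a x + H' q a x) q x = S.beta n H q x + S.beta n H' q x :=
  upS_add ..

theorem beta_smul (n : ℕ) (H : Fn Q) (c : ℝ≥0∞) (q : Q) (x : ℤ) :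
    S.beta n (fun q a x => H q a x * c) q x = S.beta n H q x * c := upS_smul ..

theorem beta_zero (n : ℕ) (q : Q) (x : ℤ) : S.beta n (fun _ _ _ => 0) q x = 0 := upS_zero ..

theorem beta_mono (n : ℕ) {H H' : Fn Q}
    (h : ∀ r a y, S.fac r (n + 1, y) * H r a y ≤ S.fac r (n + 1, y) * H' r a y) (q : Q) (x : ℤ) :
    S.beta n H q x ≤ S.beta n H' q x := upS_mono _ _ _ _ _ h _

omit [Fintype Q] in
theorem dn_add (n : ℕ) (F F' : Fn Q) (q : Q) (a : St) (x : ℤ) :
    S.dn n (fun q a x => F q a x + F' q a x) q a x = S.dn n F q a x + S.dn n F' q a x := by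
  cases n
  · simp [dn]
  · simp only [dn, mul_add, ENNReal.tsum_add]

omit [Fintype Q] in
theorem dn_smul (n : ℕ) (F : Fn Q) (c : ℝ≥0∞) (q : Q) (a : St) (x : ℤ) :
    S.dn n (fun q a x => F q a x * c) q a x = S.dn n F q a x * c := by
  cases n
  · simp [dn]
  · simp only [dn, ← ENNReal.tsum_mul_right, mul_assoc]

omit [Fintype Q] in
theorem dn_mono (n : ℕ) {F F' : Fn Q}
    (h : ∀ r y, S.fac r (n - 1, y) * F r .C0 y ≤ S.fac r (n - 1, y) * F' r .C0 y) (q : Q) (a : St)
    (x : ℤ) : S.dn n F q a x ≤ S.dn n F' q a x := by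
  cases n
  · exact le_rfl
  · exact ENNReal.tsum_le_tsum fun i => mul_le_mul' le_rfl (h _ _)

variable {S}

theorem descend (hs : S.Steps) (hk : S.Ker) (H F : ℕ → Fn Q) (N : ℕ)
    (hH : ∀ n, LineSup S.W (S.line (n + 1)) (H (n + 1)) fun q a y =>
      S.tb q a (n + 1, y) + S.fo q (n + 1, y) * S.beta (n + 1) (H (n + 2)) q y)
    (hF : ∀ n ≤ N, LineSup S.W (S.line n) (F n) fun q a y =>
      S.tb q a (n, y) + S.fo q (n, y) * S.beta n (H (n + 1)) q y + S.dn n (F (n - 1)) q a y)
    (n : ℕ) : n ≤ N → ∀ m q a x prev Vis, S.G.Cons a prev (n, x) Vis →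
      S.U m q prev (n, x) Vis ≤ F n q a x := by
  have ok : (S.withH H).OK := ⟨hs.lat, hs.up, hs.dn, hs.tm, hk, hH, fun _ _ _ => le_rfl⟩
  induction n with
  | zero =>
    intro hn m q a x prev Vis hc
    rw [← S.U_withH H]
    exact base ok ((hF 0 hn).src_mono fun q a x _ => le_self_add) m q a x prev Vis hc
  | succ n ih =>
    intro hn m q a x prev Vis hc
    rw [← S.U_withH H]
    refine step ok (fun x r => S.fac r (n, x) * F n r .C0 x) (fun m r x prev Vis => ?_)
      (hF (n + 1) hn) m q a x prev Vis hc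
    rw [S.U_withH H]
    exact mul_le_mul' le_rfl (ih (by omega) m r .C0 x prev Vis trivial)

variable (S)

/-- supersolutions below level `l` for the terminal weights `t` and the bound `b` for the steps up
from level `l - 1` -/
def Bot (l : ℕ) (b : Q → ℤ → ℝ≥0∞) (t : Q → St → Pt → ℝ≥0∞) (H F : ℕ → Fn Q) : Prop :=
  ∀ n < l, (LineSup S.W (S.line n) (H n) fun q a y => t q a (n, y) + S.fo q (n, y) *
      if n + 1 = l then b q y else S.beta n (H (n + 1)) q y) ∧
    LineSup S.W (S.line n) (F n) fun q a y => t q a (n, y) + S.fo q (n, y) *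
      (if n + 1 = l then b q y else S.beta n (H (n + 1)) q y) + S.dn n (F (n - 1)) q a y

variable {S}

theorem Bot.add {l : ℕ} {b b' : Q → ℤ → ℝ≥0∞} {t t' : Q → St → Pt → ℝ≥0∞} {H F H' F' : ℕ → Fn Q}
    (h : S.Bot l b t H F) (h' : S.Bot l b' t' H' F') :
    S.Bot l (fun q x => b q x + b' q x) (fun q a v => t q a v + t' q a v)
      (fun n q a x => H n q a x + H' n q a x) fun n q a x => F n q a x + F' n q a x := by
  intro n hn
  refine ⟨((h n hn).1.add (h' n hn).1).src_mono fun q a x _ => le_of_eq ?_,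
    ((h n hn).2.add (h' n hn).2).src_mono fun q a x _ => le_of_eq ?_⟩
  · rw [beta_add]; split_ifs <;> ring
  · rw [beta_add, dn_add]; split_ifs <;> ring

theorem Bot.smul {l : ℕ} {b : Q → ℤ → ℝ≥0∞} {t : Q → St → Pt → ℝ≥0∞} {H F : ℕ → Fn Q}
    (h : S.Bot l b t H F) (c : ℝ≥0∞) :
    S.Bot l (fun q x => b q x * c) (fun q a v => t q a v * c)
      (fun n q a x => H n q a x * c) fun n q a x => F n q a x * c := by
  intro n hn
  refine ⟨((h n hn).1.smul c).src_mono fun q a x _ => le_of_eq ?_,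
    ((h n hn).2.smul c).src_mono fun q a x _ => le_of_eq ?_⟩
  · rw [beta_smul]; split_ifs <;> ring
  · rw [beta_smul, dn_smul]; split_ifs <;> ring

theorem Bot.mono {l : ℕ} {b b' : Q → ℤ → ℝ≥0∞} {t t' : Q → St → Pt → ℝ≥0∞} {H F : ℕ → Fn Q}
    (h : S.Bot l b t H F) (hb : ∀ q x, S.fo q (l - 1, x) * b' q x ≤ S.fo q (l - 1, x) * b q x)
    (ht : ∀ q a n x, n < l → t' q a (n, x) ≤ t q a (n, x)) : S.Bot l b' t' H F := by
  intro n hn
  have : ∀ q y, (S.fo q (n, y) * if n + 1 = l then b' q y else S.beta n (H (n + 1)) q y) ≤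
      S.fo q (n, y) * if n + 1 = l then b q y else S.beta n (H (n + 1)) q y := fun q y => by
    split_ifs with e
    · subst e; exact hb q y
    · exact le_rfl
  exact ⟨(h n hn).1.src_mono fun q a x _ => add_le_add (ht _ _ _ _ hn) (this _ _),
    (h n hn).2.src_mono fun q a x _ => add_le_add (add_le_add (ht _ _ _ _ hn) (this _ _)) le_rfl⟩

theorem Bot.zero (S : Sys Q) (l : ℕ) :
    S.Bot l (fun _ _ => 0) (fun _ _ _ => 0) (fun _ _ _ _ => 0) fun _ _ _ _ => 0 := by
  intro n _
  have : ∀ q a x, S.dn n (fun _ _ _ => 0) q a x = 0 := fun q a x => by cases n <;> simp [dn]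
  constructor <;> refine (LineSup.zero _ _).src_mono fun q a x _ => ?_ <;> simp [beta_zero, this]

/-- the three levels `l`, `l + 1`, `l + 2` on top of a bottom part -/
theorem top (hs : S.Steps) (hk : S.Ker) {l : ℕ} {H F : ℕ → Fn Q} {H0 H1 H2 F0 F1 : Fn Q}
    (hb : S.Bot l (S.beta (l - 1) H0) S.tb H F) (h3 : ∀ q a n x, l + 3 ≤ n → S.tb q a (n, x) = 0)
    (h2 : LineSup S.W (S.line (l + 2)) H2 fun q a y => S.tb q a (l + 2, y))
    (h1 : LineSup S.W (S.line (l + 1)) H1 fun q a y =>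
      S.tb q a (l + 1, y) + S.fo q (l + 1, y) * S.beta (l + 1) H2 q y)
    (h0 : LineSup S.W (S.line l) H0 fun q a y =>
      S.tb q a (l, y) + S.fo q (l, y) * S.beta l H1 q y)
    (f0 : LineSup S.W (S.line l) F0 fun q a y =>
      S.tb q a (l, y) + S.fo q (l, y) * S.beta l H1 q y + S.dn l (F (l - 1)) q a y)
    (f1 : LineSup S.W (S.line (l + 1)) F1 fun q a y => S.tb q a (l + 1, y) +
      S.fo q (l + 1, y) * S.beta (l + 1) H2 q y + S.dn (l + 1) F0 q a y)
    {m : ℕ} {q : Q} {a : St} {x : ℤ} {prev : Option Pt} {Vis : Set Pt} :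
    (∀ n < l, S.G.Cons a prev (n, x) Vis → S.U m q prev (n, x) Vis ≤ F n q a x) ∧
    (S.G.Cons a prev (l, x) Vis → S.U m q prev (l, x) Vis ≤ F0 q a x) ∧
    (S.G.Cons a prev (l + 1, x) Vis → S.U m q prev (l + 1, x) Vis ≤ F1 q a x) := by
  let H' : ℕ → Fn Q := fun n => if n < l then H n else if n = l then H0 else if n = l + 1 then H1
    else if n = l + 2 then H2 else fun _ _ _ => 0
  let F' : ℕ → Fn Q := fun n => if n < l then F n else if n = l then F0 else F1
  have e0 : ∀ n < l, H' n = H n := fun n h => if_pos h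
  have e1 : H' l = H0 := by simp [H']
  have e2 : H' (l + 1) = H1 := by simp [H']
  have e3 : H' (l + 2) = H2 := by simp [H']
  have e4 : ∀ n, l + 3 ≤ n → H' n = fun _ _ _ => 0 := fun n h => by
    simp only [H']; rw [if_neg, if_neg, if_neg, if_neg] <;> omega
  have g0 : ∀ n < l, F' n = F n := fun n h => if_pos h
  have g1 : F' l = F0 := by simp [F']
  have g2 : F' (l + 1) = F1 := by simp [F']
  have eb : ∀ n < l, ∀ q y, S.beta n (H' (n + 1)) q y =
      if n + 1 = l then S.beta (l - 1) H0 q y else S.beta n (H (n + 1)) q y := fun n h q y => by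
    split_ifs with e
    · subst e; rw [e1]; rfl
    · rw [e0 _ (by omega)]
  have key := descend hs hk H' F' (l + 1) (fun n => ?_) (fun n hn => ?_)
  · refine ⟨fun n hn hc => ?_, fun hc => ?_, fun hc => ?_⟩
    · exact g0 n hn ▸ key n (by omega) m q a x prev Vis hc
    · exact g1 ▸ key l (by omega) m q a x prev Vis hc
    · exact g2 ▸ key (l + 1) le_rfl m q a x prev Vis hc
  · rcases (by omega : n + 1 < l ∨ n + 1 = l ∨ n = l ∨ n = l + 1 ∨ l + 2 ≤ n) with h | h | h | h | h
    · simp only [eb _ h, e0 _ h]; exact (hb _ h).1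
    · rw [show n + 2 = l + 1 by omega, h, e1, e2]; exact h0
    · subst h; rw [e2, e3]; exact h1
    · subst h; rw [e3, e4 _ (by omega)]; simpa only [beta_zero, mul_zero, add_zero] using h2
    · rw [e4 _ (by omega), e4 _ (by omega)]
      refine (LineSup.zero _ _).src_mono fun q a x _ => ?_
      rw [h3 _ _ _ _ (by omega), beta_zero, mul_zero, add_zero]
  · rcases (by omega : n < l ∨ n = l ∨ n = l + 1) with h | h | h
    · simp only [eb _ h, g0 _ h, g0 _ (show n - 1 < l by omega)]; exact (hb _ h).2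
    · subst h
      rw [g1, e2]
      rcases n with _ | n
      · exact f0
      · rw [g0 _ (by omega)]; exact f0
    · subst h; rw [g2, e3, Nat.add_sub_cancel, g1]; exact f1

end Sys
end Pool.Agent.P.MP_e4ac67_pr.Gr
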