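import Pool.Agent.P.MP_e4ac67_pr.G.Grid

/-! The supersolution principle for weighted sums over simple paths of a grid. -/

open scoped ENNReal

namespace Pool.Agent.P.MP_e4ac67_pr.Gr

/-- a weighted path counting problem on a grid together with the kernels of its excursions -/
structure Sys (Q : Type) where
  G : Grid
  W : Wt Q
  fac : Q → Pt → ℝ≥0∞
  fo : Q → Pt → ℝ≥0∞
  om : Q → Q → Option Pt → Pt → Pt → ℝ≥0∞
  term : Q → Option Pt → Pt → ℝ≥0∞
  K : ℕ → Q → Q → ℤ → Bool → ℕ → ℝ≥0∞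
  tb : Q → St → Pt → ℝ≥0∞
  H : ℕ → Q → St → ℤ → ℝ≥0∞
  be : ℕ → Q → ℤ → ℝ≥0∞

variable {Q : Type} [Fintype Q]

/-- weight of the step down to `(n, x)` arriving in state `r` -/
noncomputable def dsrc (G : Grid) (W : Wt Q) (n : ℕ) (x : ℤ) (r q : Q) (a : St) (y : ℤ) : ℝ≥0∞ :=
  ind (G.Ch n x y ∧ a ≠ ust (G.kd n x y)) * W.wd q r (dear a (G.kd n x y))

/-- sum over the children of `(n, x)` -/
noncomputable def upS (G : Grid) (W : Wt Q) (f : Q → ℤ → ℝ≥0∞) (n : ℕ) (x : ℤ)
    (Φ : Q → St → ℤ → ℝ≥0∞) (q : Q) : ℝ≥0∞ :=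
  ∑' y, ∑ r, ind (G.Ch n x y) * W.wu q r * (f r y * Φ r (ust (G.kd n x y)) y)

namespace Sys
variable (S : Sys Q)

def line (n : ℕ) : Ln Q :=
  ⟨Two S.G.A n, n = 0, S.K n, fun r x => S.fac r (n, x), fun q x => S.fo q (n, x)⟩

/-- weighted sum over simple paths with at most `m` vertices -/
noncomputable def U : ℕ → Q → Option Pt → Pt → Set Pt → ℝ≥0∞
  | 0, _, _, _, _ => 0
  | m + 1, q, prev, v, Vis => S.term q prev v + ∑' u, ∑ r,
      ind (S.G.Adj v u ∧ u ∉ Vis) * S.om q r prev v u * U m r (some v) u (insert v Vis)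

/-- the part of the paths that start with a step down -/
noncomputable def Dn (m : ℕ) (q : Q) (prev : Option Pt) (v : Pt) (Vis : Set Pt) : ℝ≥0∞ :=
  ∑' u, ∑ r, ind ((v.1 = u.1 + 1 ∧ S.G.Ch u.1 u.2 v.2) ∧ u ∉ Vis) * S.om q r prev v u *
    S.U m r (some v) u (insert v Vis)

structure OK : Prop where
  lat : ∀ q r prev n x s (b : Bool), (b = true → S.G.Ear prev (n, hop x s 0)) →
    S.om q r prev (n, x) (n, hop x s 0) ≤ S.fo q (n, x) * (S.W.wl q r b * S.fac r (n, hop x s 0))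
  up : ∀ q r prev n x y, S.G.Ch n x y →
    S.om q r prev (n, x) (n + 1, y) ≤ S.fo q (n, x) * (S.W.wu q r * S.fac r (n + 1, y))
  dn : ∀ q r prev n x y (b : Bool), S.G.Ch n x y → (b = true → S.G.Ear prev (n, x)) →
    S.om q r prev (n + 1, y) (n, x) ≤ S.fo q (n + 1, y) * (S.W.wd q r b * S.fac r (n, x))
  tm : ∀ q a prev v Vis, S.G.Cons a prev v Vis → S.term q prev v ≤ S.tb q a v
  ker : ∀ n x s d r, ∃ V, LineSup S.W (S.line (n + 1)) V
      (fun q a y => S.fo q (n + 1, y) * dsrc S.G S.W n (hop x s d) r q a y) ∧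
    ∀ q, upS S.G S.W (fun r y => S.fac r (n + 1, y)) n x V q ≤ S.K n q r x s d
  hH : ∀ n, LineSup S.W (S.line (n + 1)) (S.H (n + 1))
    (fun q a y => S.tb q a (n + 1, y) + S.fo q (n + 1, y) * S.be (n + 1) q y)
  hbe : ∀ n x q, upS S.G S.W (fun r y => S.fac r (n + 1, y)) n x (S.H (n + 1)) q ≤ S.be n q x

omit [Fintype Q] in
theorem cons_ok {a : St} {prev : Option Pt} {n : ℕ} {x : ℤ} {Vis : Set Pt}
    (h : S.G.Cons a prev (n, x) Vis) : (S.line n).ok a x := by
  rcases a with s | _ | s | _ | s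
  · trivial
  · obtain ⟨n', x', h1, -, -, h4, h5⟩ := S.G.cons_of_ust (k := none) h
    obtain rfl : n = n' + 1 := h1
    obtain ⟨a, b⟩ := S.G.kd_none h4 h5.symm
    exact ⟨by simp [line], S.G.not_two a b⟩
  · obtain ⟨n', x', h1, -, -, h4, h5⟩ := S.G.cons_of_ust (k := some s) h
    obtain rfl : n = n' + 1 := h1
    cases s
    · exact ⟨_, (S.G.kd_false h5.symm).symm⟩
    · exact ⟨_, (S.G.kd_true h5.symm).symm⟩
  · trivial
  · trivial

theorem hop_back (x : ℤ) (s : Bool) : hop (hop x s 0) (!s) 0 = x := by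
  cases s <;> simp [hop, sg]

theorem exists_hop {x x' : ℤ} (h : x' ≠ x) : ∃ s d, hop x s d = x' := by
  rcases lt_or_gt_of_ne h with h | h
  · exact ⟨false, (x - x' - 1).toNat, by simp only [hop, sg]; omega⟩
  · exact ⟨true, (x' - x - 1).toNat, by simp only [hop, sg]; omega⟩

theorem U_split (m : ℕ) (q : Q) (prev : Option Pt) (n : ℕ) (x : ℤ) (Vis : Set Pt) :
    S.U (m + 1) q prev (n, x) Vis ≤ S.term q prev (n, x) +
      ((∑ s : Bool, ∑ r, ind ((n, hop x s 0) ∉ Vis) * S.om q r prev (n, x) (n, hop x s 0) *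
        S.U m r (some (n, x)) (n, hop x s 0) (insert (n, x) Vis)) +
      (∑' y, ∑ r, ind (S.G.Ch n x y) * S.om q r prev (n, x) (n + 1, y) *
        S.U m r (some (n, x)) (n + 1, y) (insert (n, x) Vis)) + S.Dn m q prev (n, x) Vis) := by
  rw [U]
  refine add_le_add le_rfl ?_
  set F : Pt → Q → ℝ≥0∞ := fun u r =>
    S.om q r prev (n, x) u * S.U m r (some (n, x)) u (insert (n, x) Vis) with hF
  calc _ ≤ ∑' u : Pt, ((∑ r, ind ((∃ s, u = (n, hop x s 0)) ∧ u ∉ Vis) * F u r) +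
        (∑ r, ind (u.1 = n + 1 ∧ S.G.Ch n x u.2) * F u r) +
        ∑ r, ind ((n = u.1 + 1 ∧ S.G.Ch u.1 u.2 x) ∧ u ∉ Vis) * F u r) := by
        refine ENNReal.tsum_le_tsum fun u => ?_
        rw [← Finset.sum_add_distrib, ← Finset.sum_add_distrib]
        refine Finset.sum_le_sum fun r _ => ?_
        rw [mul_assoc, ← add_mul, ← add_mul]
        refine mul_le_mul' (ind_le ?_) le_rfl
        rintro ⟨h | h | h, hu⟩
        · rw [ind_of ⟨h, hu⟩, add_assoc]; exact le_self_add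
        · rw [ind_of (A := u.1 = n + 1 ∧ _) h]; exact le_add_right le_add_self
        · rw [ind_of (A := (n = u.1 + 1 ∧ _) ∧ _) ⟨h, hu⟩]; exact le_add_self
    _ ≤ _ := by
        rw [ENNReal.tsum_add, ENNReal.tsum_add]
        refine add_le_add (add_le_add ?_ ?_) (le_of_eq ?_)
        · rw [← tsum_fintype (L := SummationFilter.unconditional Bool)]
          refine tsum_le_of_dec _ _ (fun s => (n, hop x s 0)) fun u hu => ?_
          obtain ⟨r, -, hr⟩ := Finset.exists_ne_zero_of_sum_ne_zero hu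
          obtain ⟨⟨s, rfl⟩, -⟩ := of_ind_mul_ne hr
          refine ⟨s, rfl, Finset.sum_le_sum fun r _ => ?_⟩
          rw [mul_assoc]
          exact mul_le_mul' (ind_mono fun h => h.2) le_rfl
        · refine tsum_le_of_dec _ _ (fun y => (n + 1, y)) fun u hu => ?_
          obtain ⟨r, -, hr⟩ := Finset.exists_ne_zero_of_sum_ne_zero hu
          obtain ⟨h1, -⟩ := of_ind_mul_ne hr
          obtain ⟨n', y⟩ := u
          obtain rfl : n' = n + 1 := h1
          refine ⟨y, rfl, Finset.sum_le_sum fun r _ => ?_⟩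
          rw [mul_assoc]
          exact mul_le_mul' (ind_mono fun h => h.2) le_rfl
        · simp only [Dn, hF, mul_assoc]

variable {S}

/-- the steps down, given a bound at the landing points -/
theorem Dn_le (h : S.OK) {m n : ℕ} {q : Q} {a : St} {prev : Option Pt} {y : ℤ} {Vis : Set Pt}
    (hc : S.G.Cons a prev (n + 1, y) Vis) {ι : Type} (pos : ι → ℤ) (g : ι → Q → ℝ≥0∞)
    (hg : ∀ x, (n, x) ∉ Vis → ∃ i, pos i = x ∧ ∀ r, S.fac r (n, x) *
      S.U m r (some (n + 1, y)) (n, x) (insert (n + 1, y) Vis) ≤ g i r) :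
    S.Dn m q prev (n + 1, y) Vis ≤
      ∑' i : ι × Q, S.fo q (n + 1, y) * dsrc S.G S.W n (pos i.1) i.2 q a y * g i.1 i.2 := by
  rw [ENNReal.tsum_prod']
  refine tsum_le_of_dec _ _ (fun i => (n, pos i)) fun u hu => ?_
  obtain ⟨r, -, hr⟩ := Finset.exists_ne_zero_of_sum_ne_zero hu
  rw [mul_assoc] at hr
  obtain ⟨⟨h1, h2⟩, h3⟩ := of_ind_mul_ne hr
  obtain ⟨n', x⟩ := u
  obtain rfl : n = n' := by simpa using h1
  obtain ⟨i, rfl, hi⟩ := hg x h3
  refine ⟨i, rfl, ?_⟩
  rw [tsum_fintype]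
  refine Finset.sum_le_sum fun r _ => ?_
  rw [ind_of ⟨⟨h1, h2⟩, h3⟩, one_mul, dsrc, ind_of ⟨h2, S.G.blk_mem hc h2 h3⟩, one_mul]
  calc _ ≤ S.fo q (n + 1, y) * (S.W.wd q r (dear a (S.G.kd n (pos i) y)) * S.fac r (n, pos i)) *
        S.U m r (some (n + 1, y)) (n, pos i) (insert (n + 1, y) Vis) :=
        mul_le_mul' (h.dn q r prev n _ y _ h2 (S.G.dear_ear hc h2)) le_rfl
    _ = S.fo q (n + 1, y) * S.W.wd q r (dear a (S.G.kd n (pos i) y)) * (S.fac r (n, pos i) *
        S.U m r (some (n + 1, y)) (n, pos i) (insert (n + 1, y) Vis)) := by ring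
    _ ≤ _ := mul_le_mul' le_rfl (hi r)

theorem upS_add (G : Grid) (W : Wt Q) (f : Q → ℤ → ℝ≥0∞) (n : ℕ) (x : ℤ)
    (Φ Ψ : Q → St → ℤ → ℝ≥0∞) (q : Q) :
    upS G W f n x (fun q a x => Φ q a x + Ψ q a x) q = upS G W f n x Φ q + upS G W f n x Ψ q := by
  simp only [upS, mul_add, Finset.sum_add_distrib, ENNReal.tsum_add]

theorem upS_tsum {ι : Type} (G : Grid) (W : Wt Q) (f : Q → ℤ → ℝ≥0∞) (n : ℕ) (x : ℤ)
    (Φ : ι → Q → St → ℤ → ℝ≥0∞) (c : ι → ℝ≥0∞) (q : Q) :
    upS G W f n x (fun q a x => ∑' i, Φ i q a x * c i) q = ∑' i, upS G W f n x (Φ i) q * c i := by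
  simp only [upS, ← ENNReal.tsum_mul_right, Finset.sum_mul]
  rw [ENNReal.tsum_comm]
  refine tsum_congr fun y => ?_
  rw [Summable.tsum_finsetSum fun _ _ => ENNReal.summable]
  simp only [← ENNReal.tsum_mul_left, mul_assoc]

theorem good (h : S.OK) (m : ℕ) : ∀ (n : ℕ) (Φ src : Q → St → ℤ → ℝ≥0∞) (V0 : Set Pt),
    LineSup S.W (S.line n) Φ src →
    (∀ m' < m, ∀ q a x prev Vis, V0 ⊆ Vis → S.G.Cons a prev (n, x) Vis →
      S.tb q a (n, x) + S.fo q (n, x) * S.be n q x + S.Dn m' q prev (n, x) Vis ≤ src q a x) →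
    ∀ q a x prev Vis, V0 ⊆ Vis → S.G.Cons a prev (n, x) Vis → S.U m q prev (n, x) Vis ≤ Φ q a x := by
  induction m using Nat.strong_induction_on with
  | _ m ih =>
  intro n Φ src V0 hL hs q a x prev Vis hV hc
  rcases m with _ | m
  · simp [U]
  have same : ∀ m' ≤ m, ∀ q a x prev Vis, V0 ⊆ Vis → S.G.Cons a prev (n, x) Vis →
      S.U m' q prev (n, x) Vis ≤ Φ q a x := fun m' hm =>
    ih m' (by omega) n Φ src V0 hL fun m'' h'' => hs m'' (by omega)
  choose V hV1 hV2 using h.ker n x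
  let g : Bool × ℕ → Q → ℝ≥0∞ := fun i r => ind ((n, hop x i.1 i.2) ∉ Vis) *
    (S.fac r (n, hop x i.1 i.2) * Φ r (cst i.1 i.2) (hop x i.1 i.2))
  have hup := ih m (by omega) (n + 1) _ _ (insert (n, x) Vis)
    ((h.hH n).add (LineSup.tsum (ι := (Bool × ℕ) × Q) (fun i => hV1 i.1.1 i.1.2 i.2)
      fun i => g i.1 i.2)) (by
      intro m' hm' q' a' y prev' Vis' hV' hc'
      refine add_le_add le_rfl (Dn_le h hc' (fun i : Bool × ℕ => hop x i.1 i.2) g ?_)
      intro x' hx'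
      obtain ⟨s, d, rfl⟩ := exists_hop (x := x) (x' := x') fun e =>
        hx' (hV' (by rw [e]; exact Set.mem_insert _ _))
      refine ⟨(s, d), rfl, fun r => ?_⟩
      simp only [g]
      rw [ind_of (fun hm => hx' (hV' (Set.mem_insert_of_mem _ hm))), one_mul]
      refine mul_le_mul' le_rfl (same m' (by omega) r _ _ _ _
        (hV.trans ((Set.subset_insert _ _).trans (hV'.trans (Set.subset_insert _ _)))) ?_)
      rcases d with _ | d
      · show (n, hop (hop x s 0) (!s) 0) ∈ _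
        rw [hop_back]
        exact Set.mem_insert_of_mem _ (hV' (Set.mem_insert _ _))
      · trivial)
  have e1 : ∀ s : Bool, ∀ r, ind ((n, hop x s 0) ∉ Vis) * S.om q r prev (n, x) (n, hop x s 0) *
      S.U m r (some (n, x)) (n, hop x s 0) (insert (n, x) Vis) ≤ S.fo q (n, x) *
      (ind (vis a s = false) * S.W.wl q r (lear a s) *
        (S.fac r (n, hop x s 0) * Φ r (.lat (!s)) (hop x s 0))) := by
    intro s r
    rw [mul_assoc]
    refine ind_mul_le fun hv => ?_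
    rw [ind_of (S.G.vis_mem hc hv), one_mul, ← mul_assoc (S.W.wl _ _ _), ← mul_assoc]
    refine mul_le_mul' (h.lat q r prev n x s _ (S.G.lear_ear hc)) (same m le_rfl r _ _ _ _
      (hV.trans (Set.subset_insert _ _)) ?_)
    show _ = some (n, hop (hop x s 0) (!s) 0) ∧ (n, hop (hop x s 0) (!s) 0) ∈ _
    rw [hop_back]
    exact ⟨rfl, Set.mem_insert _ _⟩
  have e2 : (∑' y, ∑ r, ind (S.G.Ch n x y) * S.om q r prev (n, x) (n + 1, y) *
      S.U m r (some (n, x)) (n + 1, y) (insert (n, x) Vis)) ≤ S.fo q (n, x) * (S.be n q x +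
      ∑ s : Bool, ∑ r, ∑' d : ℕ, ind (d = 0 → vis a s = false) * S.K n q r x s d *
        (S.fac r (n, hop x s d) * Φ r (cst s d) (hop x s d))) := by
    calc _ ≤ S.fo q (n, x) * upS S.G S.W (fun r y => S.fac r (n + 1, y)) n x (fun q a y =>
          S.H (n + 1) q a y + ∑' i : (Bool × ℕ) × Q, V i.1.1 i.1.2 i.2 q a y * g i.1 i.2) q := by
          rw [upS, ← ENNReal.tsum_mul_left]
          refine ENNReal.tsum_le_tsum fun y => ?_
          rw [Finset.mul_sum]
          refine Finset.sum_le_sum fun r _ => ?_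
          rw [mul_assoc]
          refine ind_mul_le fun hy => ?_
          rw [ind_of hy, one_mul, ← mul_assoc (S.W.wu _ _), ← mul_assoc]
          exact mul_le_mul' (h.up q r prev n x y hy)
            (hup r _ y _ _ le_rfl (S.G.cons_ust hy (Set.mem_insert _ _)))
      _ ≤ _ := by
          rw [upS_add, upS_tsum]
          refine mul_le_mul' le_rfl (add_le_add (h.hbe n x q) ?_)
          rw [ENNReal.tsum_prod', ENNReal.tsum_prod', tsum_fintype]
          refine Finset.sum_le_sum fun s _ => ?_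
          rw [ENNReal.tsum_comm, tsum_fintype]
          refine Finset.sum_le_sum fun r _ => ENNReal.tsum_le_tsum fun d => ?_
          simp only [g]
          rw [← mul_assoc, mul_comm (upS _ _ _ _ _ _ _)]
          refine mul_le_mul' (mul_le_mul' (ind_mono fun hv e => ?_) (hV2 s d r q)) le_rfl
          subst e
          exact S.G.vis_mem hc hv
  refine (S.U_split m q prev n x Vis).trans (le_trans ?_ (hL q a x (S.cons_ok hc)))
  refine le_trans ?_ (add_le_add (hs m (by omega) q a x prev Vis hV hc) le_rfl)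
  calc _ ≤ S.tb q a (n, x) + ((∑ s : Bool, ∑ r, S.fo q (n, x) *
        (ind (vis a s = false) * S.W.wl q r (lear a s) *
          (S.fac r (n, hop x s 0) * Φ r (.lat (!s)) (hop x s 0)))) + _ + S.Dn m q prev (n, x) Vis) :=
        add_le_add (h.tm q a prev _ Vis hc) (add_le_add (add_le_add
          (Finset.sum_le_sum fun s _ => Finset.sum_le_sum fun r _ => e1 s r) e2) le_rfl)
    _ = _ := by
        simp only [LOp, line, Finset.sum_add_distrib, ← Finset.mul_sum]
        ring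

/-- the link line -/
theorem base (h : S.OK) {Φ : Q → St → ℤ → ℝ≥0∞}
    (hL : LineSup S.W (S.line 0) Φ fun q a x => S.tb q a (0, x) + S.fo q (0, x) * S.be 0 q x)
    (m : ℕ) (q : Q) (a : St) (x : ℤ) (prev : Option Pt) (Vis : Set Pt)
    (hc : S.G.Cons a prev (0, x) Vis) : S.U m q prev (0, x) Vis ≤ Φ q a x := by
  refine good h m 0 Φ _ ∅ hL (fun m' _ q a x prev Vis _ _ => le_of_eq ?_) q a x prev Vis
    (Set.empty_subset _) hc
  have : S.Dn m' q prev (0, x) Vis = 0 := ENNReal.tsum_eq_zero.2 fun u =>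
    Finset.sum_eq_zero fun r _ => by rw [ind_of_not (by simp), zero_mul, zero_mul]
  rw [this, add_zero]

/-- one level up, given a bound `g` for the paths that start one level lower -/
theorem step (h : S.OK) {n : ℕ} {Φ : Q → St → ℤ → ℝ≥0∞} (g : ℤ → Q → ℝ≥0∞)
    (hg : ∀ m r x prev Vis, S.fac r (n, x) * S.U m r prev (n, x) Vis ≤ g x r)
    (hL : LineSup S.W (S.line (n + 1)) Φ fun q a y =>
      (S.tb q a (n + 1, y) + S.fo q (n + 1, y) * S.be (n + 1) q y) +
      ∑' i : ℤ × Q, S.fo q (n + 1, y) * dsrc S.G S.W n i.1 i.2 q a y * g i.1 i.2)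
    (m : ℕ) (q : Q) (a : St) (x : ℤ) (prev : Option Pt) (Vis : Set Pt)
    (hc : S.G.Cons a prev (n + 1, x) Vis) : S.U m q prev (n + 1, x) Vis ≤ Φ q a x :=
  good h m (n + 1) Φ _ ∅ hL (fun m' _ _ _ _ _ _ _ hc' => add_le_add le_rfl
    (Dn_le h hc' id g fun x' _ => ⟨x', rfl, fun r => hg m' r x' _ _⟩)) q a x prev Vis
    (Set.empty_subset _) hc

/-- weight of a path given as a list -/
noncomputable def Wl (S : Sys Q) : Q → Option Pt → Pt → List Pt → ℝ≥0∞
  | q, prev, v, [] => S.term q prev v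
  | q, prev, v, u :: l => ∑ r, S.om q r prev v u * Wl S r (some v) u l

def Simple (G : Grid) (v : Pt) (l : List Pt) (Vis : Set Pt) : Prop :=
  (v :: l).IsChain G.Adj ∧ (v :: l).Nodup ∧ ∀ u ∈ l, u ∉ Vis

theorem list_le_U (S : Sys Q) (m : ℕ) : ∀ q prev v Vis,
    ∑' l, ind (l.length < m ∧ Simple S.G v l Vis) * S.Wl q prev v l ≤ S.U m q prev v Vis := by
  induction m with
  | zero => intro q prev v Vis; simp [ind_of_not]
  | succ m ih =>
    intro q prev v Vis
    rw [tsum_list, U]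
    refine add_le_add (ind_mul_le fun _ => le_rfl) (ENNReal.tsum_le_tsum fun u => ?_)
    simp only [Wl, Finset.mul_sum]
    rw [Summable.tsum_finsetSum fun _ _ => ENNReal.summable]
    refine Finset.sum_le_sum fun r _ => le_trans ?_ (mul_le_mul' le_rfl (ih r _ u _))
    rw [← ENNReal.tsum_mul_left]
    refine ENNReal.tsum_le_tsum fun l => ind_mul_le ?_
    rintro ⟨h1, h2, h3, h4⟩
    rw [List.isChain_cons_cons] at h2
    rw [List.nodup_cons] at h3
    have h5 : ∀ w ∈ l, w ∉ insert v Vis := by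
      rintro w hw (rfl | hw')
      · exact h3.1 (by simp [hw])
      · exact h4 w (by simp [hw]) hw'
    rw [ind_of ⟨h2.1, h4 u (by simp)⟩, ind_of ⟨by simpa using h1, h2.2, h3.2, h5⟩, one_mul, one_mul]

theorem list_le (S : Sys Q) {q : Q} {prev : Option Pt} {v : Pt} {Vis : Set Pt} {B : ℝ≥0∞}
    (h : ∀ m, S.U m q prev v Vis ≤ B) :
    ∑' l, ind (Simple S.G v l Vis) * S.Wl q prev v l ≤ B := by
  rw [ENNReal.tsum_eq_iSup_sum]
  refine iSup_le fun s => le_trans ?_ ((S.list_le_U (s.sup List.length + 1) q prev v Vis).trans (h _))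
  refine le_trans (Finset.sum_le_sum fun l hl => ?_) (ENNReal.sum_le_tsum s)
  exact mul_le_mul' (ind_mono fun h' => ⟨Nat.lt_succ_of_le (Finset.le_sup hl), h'⟩) le_rfl

end Sys
end Pool.Agent.P.MP_e4ac67_pr.Gr
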