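import Pool.Agent.P.MP_e4ac67_pr.G.Iface

/-! Certificates for the two levels next to the centre of the tube; the upper level. -/

open scoped ENNReal

namespace Pool.Agent.P.MP_e4ac67_pr.Gr

variable {Q : Type}

/-- evaluation of `n` before the application of `k` -/
def frc (n : ℕ) (k : ℕ → ℕ) : ℕ := Nat.rec (k 0) (fun m _ => k (Nat.succ m)) n

theorem frc_eq (n : ℕ) (k : ℕ → ℕ) : frc n k = k n := by cases n <;> rfl

def mxR (f : ℕ → ℕ) (lo n : ℕ) : ℕ :=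
  Nat.rec (f lo) (fun n ih => NT.mx (frc (Nat.add lo n) fun m => f (Nat.succ m)) ih) n

theorem mxR_succ (f : ℕ → ℕ) (lo n : ℕ) : mxR f lo (n + 1) = max (f (lo + n + 1)) (mxR f lo n) := by
  rw [← mx_eq]; exact congrArg (NT.mx · _) (frc_eq ..)

theorem le_mxR (f : ℕ → ℕ) {lo x : ℕ} (h : lo ≤ x) (n : ℕ) : x ≤ lo + n → f x ≤ mxR f lo n := by
  induction n with
  | zero => intro h'; rw [show x = lo by omega]; exact le_rfl
  | succ n ih =>
    intro h'
    rw [mxR_succ]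
    rcases (by omega : x = lo + n + 1 ∨ x ≤ lo + n) with rfl | e
    exacts [le_max_left _ _, (ih e).trans (le_max_right _ _)]

theorem mxR_le {f : ℕ → ℕ} {lo b : ℕ} (n : ℕ) : (∀ x, lo ≤ x → x ≤ lo + n → f x ≤ b) →
    mxR f lo n ≤ b := by
  induction n with
  | zero => exact fun h => h lo le_rfl le_rfl
  | succ n ih =>
    intro h
    rw [mxR_succ]
    exact max_le (h _ (by omega) le_rfl) (ih fun x h1 h2 => h x h1 (by omega))

theorem rup_zero : rup 1 0 = 0 := by decide +kernel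

def mn8 (a : ℕ) : ℕ := cond (Nat.ble a 8) a 8

theorem mn8_eq (a : ℕ) : mn8 a = min 8 a := by
  unfold mn8
  cases h : Nat.ble a 8 <;> simp only [cond_true, cond_false, ← Bool.not_eq_true, Nat.ble_eq] at h ⊢ <;>
    omega

def lkO (o : Bool) (f : Q → ℕ → ℕ → ℕ) (d : ℕ) (q : Q) (e e' : ℕ) : ℕ :=
  cond o (lkN f d q e e') (lkN f d q e' e)

def alEF (t : Bool) (e e' : ℕ) : ℕ := cond (Nat.beq e 0 || Nat.beq e' 0 ||
  (t == (Nat.beq e 2 || Nat.beq e' 2))) 1 0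

theorem le_rup1 (a : ℕ) : vk 2 a ≤ vv (rup 1 a) := le_rup 1 a

theorem mir_not (o : Bool) (a : St) : mir false (mir o a) = mir (!o) a := by
  rcases a with s | _ | s | _ | s <;> cases o <;> (try cases s) <;> rfl

structure TCert (Q : Type) where
  ex : Bool
  g : ℕ
  an : Bool → Bool
  rl : ℕ
  b1 : Bool → Q → ℕ
  b2 : Bool → Q → ℕ
  al1 : Bool → ℕ → Bool → Bool
  fac1 : Bool → Q → ℕ → ℕ
  fo1 : Bool → Q → ℕ → ℕ
  rawH1 : Bool → Q → ℕ → ℕ → ℕ
  rawF1 : Bool → Q → ℕ → ℕ → ℕ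
  lfl : Bool → Q → ℕ
  lol : Bool → Q → ℕ
  ltl : Bool → Q → ℕ
  pa : Bool → ℕ → Q → ℕ
  gg : Bool → ℕ → Q → ℕ
  ka : Bool → ℕ → ℕ → Bool × Q → ℕ
  rawH0 : Bool → ℕ → Q → ℕ → ℕ → ℕ
  rawF0 : Bool → ℕ → Q → ℕ → ℕ → ℕ

def Spec.chkL [NQ Q] (P : Spec Q) : Bool := P.chkW && allR (fun i => allR (fun j => allQ fun q =>
  Nat.ble (P.lf q i j) NN && Nat.ble (P.lo q i j) NN) 9) 9

theorem Tube.lk_hi {G : Grid} (T : Tube G) (o : Bool) (f : Q → ℕ → ℕ → ℕ) (d : ℕ) (q : Q) (y : ℤ) :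
    T.lk f d q (T.l + 2, y) = lkO o f d q (T.Ei o y) (T.Ei (!o) y) := by
  cases o <;> simp [Tube.lk, lkO]

theorem Spec.std [NQ Q] [Fintype Q] {P : Spec Q} (h : P.chkL = true) {G : Grid} (T : Tube G)
    (o : Bool) (b1 b2 : Q → ℕ) : Std (P.side T o b1 b2) P.w := by
  rw [Spec.chkL, Bool.and_eq_true] at h
  have key : ∀ f : Q → ℕ → ℕ → ℕ, (∀ q i j, i ≤ 8 → j ≤ 8 → f q i j ≤ NN) → ∀ q v,
      vv (T.lk f NN q v) ≤ 1 := fun f hf q v => vv_le_one (by
    unfold Tube.lk lkN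
    split_ifs
    · cases Nat.ble 2 (T.Ei true v.2) && Nat.ble 2 (T.Ei false v.2)
      exacts [le_rfl, hf _ _ _ (min_le_left _ _) (min_le_left _ _)]
    · exact hf _ _ _ (by omega) (min_le_left _ _)
    · exact hf _ _ _ (min_le_left _ _) (by omega)
    · exact le_rfl)
  have k2 := fun q i j (hi : i ≤ 8) (hj : j ≤ 8) => Bool.and_eq_true_iff.1 (allQ_spec
    (allR_spec (allR_spec h.2 (j := i) (by omega)) (j := j) (by omega)) q)
  refine ⟨rfl, fun _ => rfl, fun q v => ?_, fun q v => ?_⟩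
  · show P.fac T o q v ≤ 1
    unfold Spec.fac
    split_ifs
    exacts [key _ (fun q i j hi hj => Nat.le_of_ble_eq_true (k2 q i j hi hj).1) _ _, ind_le_one _]
  · show P.fo T o q v ≤ 1
    unfold Spec.fo
    split_ifs
    exacts [key _ (fun q i j hi hj => Nat.le_of_ble_eq_true (k2 q i j hi hj).2) _ _, ind_le_one _]

namespace TCert
variable (C : TCert Q) (P : Spec Q) (o : Bool)

def e0 (j : ℕ) : ℕ := mn8 (j - 9)

def e1 (j : ℕ) : ℕ := mn8 (C.g + 13 - j)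

def mxP (f : ℕ → ℕ → ℕ) (j : ℕ) : ℕ := frc (e0 j) fun x => frc (C.e1 j) fun y =>
  cond C.ex (f x y) (cond (C.an o) (mxR (f x) y (8 - y)) (mxR (fun e => f e y) x (8 - x)))

theorem mxP_eq (f : ℕ → ℕ → ℕ) (j : ℕ) : C.mxP o f j = cond C.ex (f (e0 j) (C.e1 j))
    (cond (C.an o) (mxR (f (e0 j)) (C.e1 j) (8 - C.e1 j))
      (mxR (fun e => f e (C.e1 j)) (e0 j) (8 - e0 j))) := by
  rw [mxP, frc_eq, frc_eq]

theorem mxP_bd {f : ℕ → ℕ → ℕ} {b : ℕ} (h : ∀ x ≤ 8, ∀ y ≤ 8, f x y ≤ b) (j : ℕ) :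
    C.mxP o f j ≤ b := by
  have a0 : e0 j ≤ 8 := by rw [e0, mn8_eq]; omega
  have a1 : C.e1 j ≤ 8 := by rw [e1, mn8_eq]; omega
  rw [mxP_eq]
  cases C.ex
  · cases C.an o
    exacts [mxR_le _ fun x _ _ => h x (by omega) _ a1, mxR_le _ fun x _ _ => h _ a0 x (by omega)]
  · exact h _ a0 _ a1

def latF (f : Q → ℕ → ℕ → ℕ) (q : Q) : ℕ :=
  mxR (fun m => cond o (f q 1 m) (f q m 1)) (mn8 (C.g + 3)) (cond C.ex 0 (8 - mn8 (C.g + 3)))

variable [NQ Q]

def fv (nr : Bool) (q : Q) (t : Bool) (a : St) (e e' : ℕ) : ℕ :=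
  Nat.add (lkO o P.lt 0 q e e') (rup 1 (Nat.mul (lkO o P.lo NN q e e')
    (Nat.add (dnT (Spec.cS P.w (C.b1 (!o)) (C.b2 (!o)) q (mir false a) e') t)
      (cond nr (dnT (Spec.cS P.w (C.b1 o) (C.b2 o) q a e) t) 0))))

def bs (q : Q) (j : ℕ) : ℕ := C.mxP o (lkO o P.lt 0 q) j

/-- the number of pairs of positions where steps down are possible -/
def cnt (nr : Bool) (j : ℕ) : ℕ :=
  cond C.ex (cond (Nat.ble (C.e1 j) 2 || (nr && Nat.ble (e0 j) 2)) 1 0)
    (cond (C.an o) (cond (nr && Nat.ble (e0 j) 2) 9 3 - C.e1 j)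
      (cond (Nat.ble (C.e1 j) 2) 9 (cond nr 3 0) - e0 j))

def p0 (j i : ℕ) : ℕ := cond (C.an o) (e0 j) (e0 j + i)

def p1 (j i : ℕ) : ℕ := cond (C.an o) (C.e1 j + i) (C.e1 j)

/-- the maximum of `fv` over the pairs of `mxP` -/
def src1 (nr : Bool) (q : Q) (t : Bool) (a : St) (j : ℕ) : ℕ :=
  Nat.rec (C.bs P o q j) (fun i ih => NT.mx ih
    (frc (C.p0 o j i) fun e => frc (C.p1 o j i) fun e' => C.fv P o nr q t a e e')) (C.cnt o nr j)

omit [NQ Q] in
theorem mxP_le {F L : ℕ → ℕ → ℕ} {S j : ℕ} {nr : Bool} (k1 : C.mxP o L j ≤ S)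
    (k2 : ∀ i < C.cnt o nr j, F (C.p0 o j i) (C.p1 o j i) ≤ S)
    (k3 : ∀ e e', 2 < e' → (nr = true → 2 < e) → F e e' = L e e') : C.mxP o F j ≤ S := by
  have a0 : e0 j ≤ 8 := by rw [e0, mn8_eq]; omega
  have a1 : C.e1 j ≤ 8 := by rw [e1, mn8_eq]; omega
  rw [mxP_eq] at k1 ⊢
  simp only [cnt, p0, p1] at k2
  generalize e0 j = x at *
  generalize C.e1 j = y at *
  have b : ∀ x : ℕ, Nat.ble x 2 = decide (x ≤ 2) := fun x => by
    rw [Bool.eq_iff_iff]; simp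
  simp only [b] at k2
  generalize C.ex = u at k1 k2 ⊢
  generalize C.an o = v at k1 k2 ⊢
  clear b
  cases u <;> simp only [cond_true, cond_false] at k1 k2 ⊢
  · cases v <;> simp only [cond_true, cond_false] at k1 k2 ⊢ <;>
      refine mxR_le _ fun m h1 h2 => ?_
    · by_cases c : 2 < y ∧ (nr = true → 2 < m)
      · rw [k3 _ _ c.1 c.2]; exact (le_mxR (fun e => L e y) h1 _ h2).trans k1
      · have := k2 (m - x) (by
          clear * - c h1 h2 a0; cases nr <;> by_cases d : y ≤ 2 <;> simp [d] at c ⊢ <;> omega)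
        rwa [Nat.add_sub_cancel' h1] at this
    · by_cases c : 2 < m ∧ (nr = true → 2 < x)
      · rw [k3 _ _ c.1 c.2]; exact (le_mxR _ h1 _ h2).trans k1
      · have := k2 (m - y) (by
          clear * - c h1 h2 a1; cases nr <;> by_cases d : x ≤ 2 <;> simp [d] at c ⊢ <;> omega)
        rwa [Nat.add_sub_cancel' h1] at this
  · by_cases c : 2 < y ∧ (nr = true → 2 < x)
    · rw [k3 _ _ c.1 c.2]; exact k1
    · have := k2 0 (by
        clear * - c; by_cases y ≤ 2 <;> by_cases x ≤ 2 <;> cases nr <;> simp_all)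
      cases v <;> exact this

theorem le_src1 (nr : Bool) (q : Q) (t : Bool) (a : St) (j : ℕ) :
    C.mxP o (C.fv P o nr q t a) j ≤ C.src1 P o nr q t a j := by
  have k0 : C.bs P o q j ≤ C.src1 P o nr q t a j ∧ ∀ i < C.cnt o nr j,
      C.fv P o nr q t a (C.p0 o j i) (C.p1 o j i) ≤ C.src1 P o nr q t a j := by
    unfold src1
    induction C.cnt o nr j with
    | zero => exact ⟨le_rfl, by omega⟩
    | succ n ih =>
      show _ ≤ NT.mx _ _ ∧ ∀ i < n + 1, _ ≤ NT.mx _ _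
      simp only [mx_eq, frc_eq] at ih ⊢
      refine ⟨ih.1.trans (le_max_left _ _), fun i hi => ?_⟩
      rcases Nat.lt_succ_iff_lt_or_eq.1 hi with c | rfl
      exacts [(ih.2 i c).trans (le_max_left _ _), le_max_right _ _]
  have z : ∀ b1 b2 a e, 2 < e → dnT (Spec.cS P.w b1 b2 q a e) t = 0 := fun b1 b2 a e he => by
    obtain ⟨e, rfl⟩ := Nat.exists_eq_add_of_lt he
    rw [show 2 + e + 1 = e + 3 by omega, dnT, ← rup_zero]
    congr 1
    cases t <;> rfl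
  refine C.mxP_le o k0.1 k0.2 fun e e' h h' => ?_
  have : cond nr (dnT (Spec.cS P.w (C.b1 o) (C.b2 o) q a e) t) 0 = 0 := by
    cases nr
    exacts [cond_false .., (cond_true ..).trans (z _ _ _ _ (h' rfl))]
  have e : ∀ x y u v : ℕ, u = 0 → v = 0 → Nat.add x (rup 1 (Nat.mul y (Nat.add u v))) = x := by
    rintro x y _ _ rfl rfl
    rw [show Nat.mul y (Nat.add 0 0) = 0 from Nat.mul_zero y, rup_zero]; rfl
  unfold fv
  exact e _ _ _ _ (z _ _ _ _ h) this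

def T1 (nr : Bool) : NT Q := ⟨false, C.g + 9, cond nr NN C.rl, NN, C.al1 o, C.fac1 o, C.fo1 o,
  C.src1 P o nr, cond nr (C.rawF1 o) (C.rawH1 o)⟩

def chk1 : Bool :=
  Nat.ble 3 C.g && (C.T1 P o false).chk P.w && (C.T1 P o false).chkS false 11 &&
    (C.T1 P o false).chkM P.w false 11 &&
    (P.chkL && allR (fun j => (allB fun t => C.al1 o (j + 6) t ||
      Nat.beq (C.mxP o (alEF t) (j + 6)) 0) && allQ fun q => (Nat.ble NN (C.fac1 o q (j + 6)) ||
        Nat.ble (C.mxP o (lkO o P.lf NN q) (j + 6)) (C.fac1 o q (j + 6))) &&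
        (Nat.ble NN (C.fo1 o q (j + 6)) ||
          Nat.ble (C.mxP o (lkO o P.lo NN q) (j + 6)) (C.fo1 o q (j + 6)))) (C.g + 10)) &&
    (allQ fun q => (C.ex || C.an o || Nat.beq (mxR (fun e => lkO o P.lt 0 q e 8) 0 8) 0) &&
      Nat.ble (C.latF o P.lf q) (C.lfl o q) && Nat.ble (C.latF o P.lo q) (C.lol o q) &&
      Nat.ble (C.latF o P.lt q) (C.ltl o q))

variable {G : Grid} (T : Tube G)

/-- the gap at the centre is as assumed -/
def Gap : Prop := C.g ≤ T.g ∧ (C.ex = true → T.g = C.g)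

def al : ℤ := if C.an o = true then G.fst (T.l + 1) T.z o - sg o * 11
  else G.fst (T.l + 1) T.z (!o) - sg o * (11 + C.g)

noncomputable def V1 (nr : Bool) : Fn Q := pull G (T.l + 2) (C.al o T) o (C.T1 P o nr).tb.T

variable {C P o T}

omit [NQ Q] in
theorem idx_al (y : ℤ) : idx (C.al o T) o y = sg o * (y - G.fst (T.l + 1) T.z o) + 11 +
    (if C.an o = true then 0 else (C.g : ℤ) - T.g) ∧
    sg (!o) * (y - G.fst (T.l + 1) T.z (!o)) = T.g - sg o * (y - G.fst (T.l + 1) T.z o) := by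
  have := G.gap2 (T.l + 1) T.z
  unfold al Tube.g
  cases o <;> split_ifs <;> simp only [idx, sg, Grid.fst, Bool.not_true, Bool.not_false] <;> omega

omit [NQ Q] in
theorem le_mxP (hg : C.Gap T) (h3 : 3 ≤ C.g) (f : ℕ → ℕ → ℕ) (y : ℤ) :
    f (T.Ei o y) (T.Ei (!o) y) ≤ C.mxP o f (cw (C.g + 9) (idx (C.al o T) o y)) := by
  obtain ⟨e1, e2⟩ := idx_al (C := C) (o := o) (T := T) y
  obtain ⟨g1, g2⟩ := hg
  rw [mxP_eq]
  unfold e0 TCert.e1 Tube.Ei
  rw [e1, e2]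
  generalize sg o * (y - G.fst (T.l + 1) T.z o) = e
  simp only [mn8_eq, cw]
  cases h : C.ex
  · cases h' : C.an o <;> simp only [cond_true, cond_false, if_true, Bool.false_eq_true, if_false]
    · refine le_trans (le_of_eq ?_) (le_mxR _ (x := min 8 (e + 2).toNat) (by omega) _ (by omega))
      congr 1; omega
    · refine le_trans (le_of_eq ?_) (le_mxR _ (x := min 8 (T.g - e + 2).toNat) (by omega) _ (by omega))
      congr 1; omega
  · have := g2 h
    rw [cond_true]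
    refine le_of_eq ?_
    congr 1 <;> split_ifs <;> omega

omit [NQ Q] in
theorem le_latF (hg : C.Gap T) (f : Q → ℕ → ℕ → ℕ) (d : ℕ) (q : Q) :
    T.lk f d q (T.l + 1, out o T.z 1) ≤ C.latF o f q := by
  refine le_trans (le_of_eq ?_) (le_mxR _ (x := min 8 (T.g + 3)) ?_ _ ?_)
  · cases o <;> simp [Tube.lk, out, sg]
    omega
  · have := hg.1; rw [mn8_eq]; omega
  · have := hg.1
    cases h : C.ex <;> simp only [mn8_eq, cond_true, cond_false]
    · omega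
    · have := hg.2 h; omega

omit [NQ Q] in
theorem alEF_ok (y : ℤ) : alEF (tyb (Two G.A (T.l + 2) y)) (T.Ei o y) (T.Ei (!o) y) = 1 := by
  have g := G.gap2 (T.l + 1) T.z
  have key : T.Ei true y = 0 ∨ T.Ei false y = 0 ∨
      (Two G.A (T.l + 2) y ↔ T.Ei true y = 2 ∨ T.Ei false y = 2) := by
    simp only [Tube.Ei, sg, Grid.fst]
    have t1 : Two G.A (T.l + 2) (G.A (T.l + 1) (T.z - 1)) := ⟨_, rfl⟩
    have t2 : Two G.A (T.l + 2) (G.A (T.l + 1) T.z) := ⟨_, rfl⟩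
    rcases (by omega : y + 2 ≤ G.A (T.l + 1) (T.z - 1) ∨ G.A (T.l + 1) T.z + 2 ≤ y ∨
      y + 1 = G.A (T.l + 1) (T.z - 1) ∨ y = G.A (T.l + 1) T.z + 1 ∨ y = G.A (T.l + 1) (T.z - 1) ∨
      y = G.A (T.l + 1) T.z ∨ (G.A (T.l + 1) (T.z - 1) < y ∧ y < G.A (T.l + 1) T.z)) with
      h | h | h | h | h | h | h
    · omega
    · omega
    · exact Or.inr (Or.inr ⟨fun h' => (G.two_succ _ _ h' (h ▸ t1)).elim, by omega⟩)
    · exact Or.inr (Or.inr ⟨fun h' => (G.two_succ _ _ t2 (h ▸ h')).elim, by omega⟩)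
    · exact Or.inr (Or.inr ⟨fun _ => by omega, fun _ => h ▸ t1⟩)
    · exact Or.inr (Or.inr ⟨fun _ => by omega, fun _ => h ▸ t2⟩)
    · exact Or.inr (Or.inr ⟨fun h' => (G.not_two h.1 h.2 h').elim, by omega⟩)
  have : (Nat.beq (T.Ei o y) 0 || Nat.beq (T.Ei (!o) y) 0 || (tyb (Two G.A (T.l + 2) y) ==
      (Nat.beq (T.Ei o y) 2 || Nat.beq (T.Ei (!o) y) 2))) = true := by
    rw [Bool.or_eq_true, beq_iff_eq, Bool.eq_iff_iff (a := tyb _)]
    simp only [Bool.or_eq_true, Nat.beq_eq, tyb_true]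
    cases o <;> simp only [Bool.not_true, Bool.not_false] <;> tauto
  rw [alEF, this, cond_true]

theorem all1 (h : C.chk1 P o = true) : 3 ≤ C.g ∧ (C.T1 P o false).chk P.w = true ∧
    (C.T1 P o false).chkS false 11 = true ∧ (C.T1 P o false).chkM P.w false 11 = true ∧
    (∀ i, (∀ t, C.mxP o (alEF t) (cw (C.g + 9) i) ≠ 0 → C.al1 o (cw (C.g + 9) i) t = true) ∧
      ∀ q, C.mxP o (lkO o P.lf NN q) (cw (C.g + 9) i) ≤ C.fac1 o q (cw (C.g + 9) i) ∧
        C.mxP o (lkO o P.lo NN q) (cw (C.g + 9) i) ≤ C.fo1 o q (cw (C.g + 9) i)) ∧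
    ∀ q, (C.ex = true ∨ C.an o = true ∨ ∀ e ≤ 8, lkO o P.lt 0 q e 8 = 0) ∧
      C.latF o P.lf q ≤ C.lfl o q ∧ C.latF o P.lo q ≤ C.lol o q ∧ C.latF o P.lt q ≤ C.ltl o q := by
  simp only [chk1, Bool.and_eq_true, Nat.ble_eq] at h
  obtain ⟨⟨⟨⟨⟨a1, a2⟩, a3⟩, a4⟩, a0, a5⟩, a6⟩ := h
  refine ⟨a1, a2, a3, a4, fun i => ?_, fun q => ?_⟩
  · have := allR_spec a5 (j := cw (C.g + 9) i - 6) (by unfold cw; omega)
    rw [show cw (C.g + 9) i - 6 + 6 = cw (C.g + 9) i by unfold cw; omega, Bool.and_eq_true] at this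
    refine ⟨fun t ht => ?_, fun q => ?_⟩
    · have := allB_spec this.1 t
      rw [Bool.or_eq_true, Nat.beq_eq] at this
      exact this.resolve_right ht
    · have k2 := fun i j (hi : i ≤ 8) (hj : j ≤ 8) => allQ_spec (allR_spec (allR_spec
        (Bool.and_eq_true_iff.1 a0).2 (j := i) (by omega)) (j := j) (by omega)) q
      have k : ∀ f : Q → ℕ → ℕ → ℕ, (∀ i j, i ≤ 8 → j ≤ 8 → f q i j ≤ NN) → ∀ j,
          C.mxP o (lkO o f NN q) j ≤ NN := fun f hf => C.mxP_bd o fun x hx y hy => by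
        unfold lkO lkN
        cases o
        · cases Nat.ble 2 y && Nat.ble 2 x
          exacts [le_rfl, hf _ _ hy hx]
        · cases Nat.ble 2 x && Nat.ble 2 y
          exacts [le_rfl, hf _ _ hx hy]
      have := allQ_spec this.2 q
      simp only [Bool.and_eq_true, Bool.or_eq_true, Nat.ble_eq] at this k2
      exact ⟨this.1.elim (k _ (fun i j a b => (k2 i j a b).1) _).trans id,
        this.2.elim (k _ (fun i j a b => (k2 i j a b).2) _).trans id⟩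
  · have := allQ_spec a6 q
    simp only [Bool.and_eq_true, Bool.or_eq_true, Nat.ble_eq, Nat.beq_eq] at this
    refine ⟨?_, this.1.1.2, this.1.2, this.2⟩
    rcases this.1.1.1 with (e | e) | e
    · exact Or.inl e
    · exact Or.inr (Or.inl e)
    · refine Or.inr (Or.inr fun x hx => ?_)
      have := le_mxR (fun e => lkO o P.lt 0 q e 8) (Nat.zero_le x) 8 (by omega)
      omega

variable [Fintype Q]

omit [Fintype Q] in
theorem cov1 (h : C.chk1 P o = true) (hg : C.Gap T) (nr : Bool) :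
    Cov G (T.l + 2) (C.al o T) o (C.T1 P o nr).tb fun q y => P.fac T o q (T.l + 2, y) := by
  obtain ⟨a1, -, -, -, a5, -⟩ := all1 h
  refine ⟨fun y => (a5 _).1 _ ?_, fun q y => ?_⟩
  · have := le_mxP (o := o) hg a1 (alEF (tyb (Two G.A (T.l + 2) y))) y
    rw [alEF_ok] at this
    omega
  · rw [Spec.fac, if_pos (Or.inl (by simp [Tube.Hi])), T.lk_hi o]
    exact vv_mono ((le_mxP hg a1 _ y).trans ((a5 _).2 q).1)

/-- the upper level: `X` is a bound for the steps down on the near side -/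
theorem sup1 (h : C.chk1 P o = true) (hg : C.Gap T) {nr : Bool} (hc : (C.T1 P o nr).chk P.w = true)
    {X : Fn Q} (hX : ∀ q a y, X q a y ≤ P.fo T o q (T.l + 2, y) * vv (cond nr (dnT (Spec.cS P.w
      (C.b1 o) (C.b2 o) q (mir o a) (T.Ei o y)) (tyb (Two G.A (T.l + 2) y))) 0)) :
    LineSup P.w.W ((P.side T o (C.b1 (!o)) (C.b2 (!o))).line (T.l + 2)) (C.V1 P o T nr) fun q a y =>
      (P.side T o (C.b1 (!o)) (C.b2 (!o))).tb q a (T.l + 2, y) + X q a y := by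
  obtain ⟨a1, -, -, -, a5, a6⟩ := all1 h
  have hi : ∀ y, T.Hi (T.l + 2, y) ∨ T.Free o (T.l + 2, y) := fun y => Or.inl (by simp [Tube.Hi])
  refine ((P.side T o (C.b1 (!o)) (C.b2 (!o))).lineSup_pull (k := P.w.k) rfl (cov1 h hg nr)
    (fun q y => ?_) (by simp [NT.tb, T1]) (NT.chk_sound P.w _ hc)).src_mono fun q a y _ => ?_
  · show P.fo T o q _ ≤ _
    rw [Spec.fo, if_pos (hi y), T.lk_hi o]
    exact vv_mono ((le_mxP hg a1 _ y).trans ((a5 _).2 q).2)
  refine (add_le_add le_rfl (hX q a y)).trans ?_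
  simp only [Spec.side, Spec.t0, Spec.fo, if_pos (hi y), T.lk_hi o, ind_of, one_mul]
  rw [add_assoc, ← mul_add, vv, vv, vv, vv, vk_add, vk_mul]
  by_cases e : nr = false ∧ idx (C.al o T) o y < 6
  · obtain ⟨rfl, e⟩ := e
    obtain ⟨e1, e2⟩ := idx_al (C := C) (o := o) (T := T) y
    have g1 := hg.1
    have e3 : T.Ei (!o) y = 8 := by unfold Tube.Ei; rw [e2]; split_ifs at e1 <;> omega
    have e4 : lkO o P.lt 0 q (T.Ei o y) 8 = 0 := by
      have e5 : C.ex = true ∨ C.an o = true → T.Ei o y = 0 := by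
        rintro (h' | h') <;> unfold Tube.Ei
        · have := hg.2 h'; split_ifs at e1 <;> omega
        · rw [if_pos h'] at e1; omega
      rcases (a6 q).1 with h' | h' | h'
      · rw [e5 (Or.inl h')]; cases o <;> rfl
      · rw [e5 (Or.inr h')]; cases o <;> rfl
      · exact h' _ (min_le_left _ _)
    have e6 : ∀ a t, dnT (Spec.cS P.w (C.b1 (!o)) (C.b2 (!o)) q a 8) t = 0 := fun a t => by
      rw [dnT, ← rup_zero]
      congr 1
      cases t <;> rfl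
    rw [e3, e4, e6]
    simp [vk_zero]
  · refine (add_le_add le_rfl (le_rup1 _)).trans ?_
    rw [vv, vk_add]
    refine le_trans ?_ (le_of_eq ((C.T1 P o nr).ext_eq_cl _ (fun h' => ?_) fun _ => rfl).symm)
    · rw [← mir_not]
      exact vv_mono ((le_mxP hg a1 (C.fv P o nr q _ (mir o a)) y).trans (C.le_src1 ..))
    · cases nr
      exacts [(e ⟨rfl, h'⟩).elim, rfl]

end TCert
end Pool.Agent.P.MP_e4ac67_pr.Gr
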