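import Pool.Agent.P.MP_e4ac67_pr.G.Top

/-! The level of the centre of the tube. -/

open scoped ENNReal

namespace Pool.Agent.P.MP_e4ac67_pr.Gr

variable {Q : Type}

theorem Tube.free_iff {G : Grid} (T : Tube G) (o : Bool) {n : ℕ} (hn : n ≤ T.l + 1) (J : ℕ) (x : ℤ) :
    T.Hi (n, x) ∨ T.Free o (n, x) ↔ idx (anc o (T.r o n) (T.st o n) J) o x < J := by
  cases o <;> simp only [Tube.Hi, Tube.Free, idx, anc, out, sg] <;> omega

theorem Tube.lk_low {G : Grid} (T : Tube G) (f : Q → ℕ → ℕ → ℕ) (d : ℕ) (q : Q) {n : ℕ} {x : ℤ}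
    (h1 : n ≠ T.l + 2) (h2 : n = T.l + 1 → x ≠ T.z - 1 ∧ x ≠ T.z + 1) : T.lk f d q (n, x) = d := by
  rw [Tube.lk, if_neg h1, if_neg, if_neg] <;> simp only [Prod.mk.injEq] <;> omega

def Spec.ab (P : Spec Q) (o : Bool) : Bool := decide (P.ws = some o)

def isL (s j : ℕ) : Bool := Nat.beq (wof s) 0 && Nat.beq j 11

namespace TCert
variable [NQ Q] (C : TCert Q) (P : Spec Q) (o : Bool) (s : ℕ)

def fac0 (q : Q) (j : ℕ) : ℕ := cond (Nat.ble 12 j)
  (cond (P.ab o && Nat.beq (wof s) 1 && Nat.beq j 12) NN 0) (cond (isL s j) (C.lfl o q) NN)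

def fo0 (q : Q) (j : ℕ) : ℕ :=
  cond (Nat.ble 12 j) (cond (P.ab o) 0 NN) (cond (isL s j) (C.lol o q) NN)

def up0 (q : Q) (j : ℕ) : ℕ := (C.T1 P o false).uM q false
  (11 - 2 * wof s - cond (Nat.beq j 11) 0 (gp1 s + GG (10 - j)))

def src0 (x : ℕ) (q : Q) (j : ℕ) : ℕ := cond (Nat.ble 12 j)
  (cond (P.ab o && Nat.beq (wof s) 1 && Nat.beq j 12 && !P.no1) (P.pw q) 0)
  (cond (isL s j) (C.ltl o q + rup 1 (C.lol o q * (C.up0 P o s q j + x))) (C.up0 P o s q j + x))

def dn0 (nr : Bool) (q : Q) (t : Bool) (a : St) (j : ℕ) : ℕ :=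
  cond nr (dnT (cAB P.w (C.pa o s) (C.gg o s) s (12 - j) q a) t) 0

def s00 (q : Q) (j : ℕ) : ℕ := C.src0 P o s 0 q j

def dA (q : Q) (t : Bool) (a : St) (d : ℕ) : ℕ := dnT (cAB P.w (C.pa o s) (C.gg o s) s d q a) t

def dm (s j : ℕ) : ℕ := min (12 - j) (room s + 1)

def srcT (nr : Bool) (q : Q) (t : Bool) (a : St) (j : ℕ) : ℕ := @Bool.rec (fun _ => ℕ)
  (C.s00 P o s q j) (@Bool.rec (fun _ => ℕ) (@Bool.rec (fun _ => ℕ)
    (Nat.add (C.up0 P o s q j) (frc (dm s j) (C.dA P o s q t a)))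
    (C.src0 P o s (frc (dm s j) (C.dA P o s q t a)) q j) (isL s j)) (C.s00 P o s q j)
      (Nat.ble 12 j)) nr

theorem srcT_eq (nr : Bool) (q : Q) (t : Bool) (a : St) (j : ℕ) :
    C.srcT P o s nr q t a j = C.src0 P o s (C.dn0 P o s nr q t a j) q j := by
  cases nr
  · rfl
  have e : frc (dm s j) (C.dA P o s q t a) = C.dn0 P o s true q t a j := by
    rw [frc_eq, dA, dn0, cond_true]
    congr 1
    funext k
    have : Side.cA s (dm s j) k = Side.cA s (12 - j) k ∧ Side.cB s (dm s j) k = Side.cB s (12 - j) k := by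
      unfold Side.cA Side.cB dm
      rcases le_or_gt (12 - j) (room s + 1) with h | h
      · rw [min_eq_left h]; exact ⟨rfl, rfl⟩
      · have a : ∀ d, room s < d → Nat.ble (d + 1) (room s) = false ∧ Nat.beq d (room s) = false ∧
            Nat.ble (room s + 1) d = true := fun d hd => by
          simp only [← Bool.not_eq_true, Nat.ble_eq, Nat.beq_eq]; omega
        rw [min_eq_right h.le]
        simp only [a _ (Nat.lt_succ_self _), a (12 - j) (by omega), and_self]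
    rw [cAB_eq, cAB_eq, this.1, this.2]
  unfold srcT s00
  rw [e, src0, src0]
  cases Nat.ble 12 j
  · cases isL s j
    exacts [rfl, rfl]
  · rfl

def T0 (nr : Bool) : NT Q := ltab s 12 8 (cond nr NN C.rl) C.rl (C.fac0 P o s) (C.fo0 P o s)
  (C.srcT P o s nr) (cond nr (C.rawF0 o s) (C.rawH0 o s))

def chk0 : Bool :=
  Nat.ble C.rl NN && (C.T0 P o s false).chk P.w && (C.T0 P o s false).chkS false 12 &&
    (C.T0 P o s false).chkM P.w false 12 &&
    (C.T1 P o false).chkUv (C.T0 P o s false) s 12 11 (C.up0 P o s) && (C.T0 P o s true).chk P.w &&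
    (C.T0 P o s true).chkSup (wof s + 11) (wof s + 11) (C.b1 o) &&
    (C.T0 P o s true).chkSup 6 (wof s + 10) (C.b2 o)

variable [Fintype Q] {G : Grid} (T : Tube G)

noncomputable def sd : Sys Q := P.side T o (C.b1 (!o)) (C.b2 (!o))

def i0 (x : ℤ) : ℤ := idx (anc o (T.r o (T.l + 1)) (T.st o (T.l + 1)) 12) o x

noncomputable def W0 (nr : Bool) : Fn Q := pull G (T.l + 1)
  (anc o (T.r o (T.l + 1)) (T.st o (T.l + 1)) 12) o (C.T0 P o (T.st o (T.l + 1)) nr).tb.T

noncomputable def sg0 (X : Fn Q) : Fn Q := fun q a x => ind (12 ≤ i0 o T x) *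
  (P.fo T o q (T.l + 1, x) * (C.sd P o T).beta (T.l + 1) (C.V1 P o T false) q x + X q a x)

variable {C P o T}

omit [NQ Q] [Fintype Q] in
theorem i0_eq (x : ℤ) : i0 o T x = wof (T.st o (T.l + 1)) + 12 - sg o * (T.z - x) := by
  unfold i0; rw [T.top]; cases o <;> simp only [idx, anc, out, sg] <;> ring

omit [NQ Q] [Fintype Q] in
theorem lk0 (hg : C.Gap T) (f : Q → ℕ → ℕ → ℕ) (d : ℕ) (q : Q) {x : ℤ} (hx : i0 o T x < 12) :
    T.lk f d q (T.l + 1, x) ≤ cond (isL (T.st o (T.l + 1)) (cw 8 (i0 o T x))) (C.latF o f q) d := by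
  have e := i0_eq (o := o) (T := T) x
  have := wof_le (T.st o (T.l + 1))
  cases h : isL (T.st o (T.l + 1)) (cw 8 (i0 o T x))
  · rw [T.lk_low _ _ _ (by omega) fun _ => ?_]
    · exact le_rfl
    have h : ¬ (wof (T.st o (T.l + 1)) = 0 ∧ cw 8 (i0 o T x) = 11) := fun h' => by
      rw [isL, h'.1, h'.2] at h; exact absurd h (by decide)
    unfold cw at h
    cases o <;> simp only [sg] at e <;> omega
  · simp only [isL, Bool.and_eq_true, Nat.beq_eq, cw] at h
    obtain rfl : x = out o T.z 1 := by cases o <;> simp only [sg, out] at e ⊢ <;> omega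
    exact le_latF hg f d q

omit [NQ Q] [Fintype Q] in
theorem at12 {x : ℤ} (hx : 12 ≤ i0 o T x) (h : T.Nr o (T.l + 1, x)) : i0 o T x = 12 ∧
    wof (T.st o (T.l + 1)) = 1 ∧ (T.l + 1, x) = T.Y o := by
  have e := i0_eq (o := o) (T := T) x
  have := wof_le (T.st o (T.l + 1))
  have : 1 ≤ sg o * (T.z - x) := h rfl
  refine ⟨by omega, by omega, ?_⟩
  rw [Tube.Y, if_pos (by omega)]
  cases o <;> simp only [sg, out, Prod.mk.injEq, true_and] at * <;> omega

omit [Fintype Q] in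
theorem cov0 (h : C.chk1 P o = true) (hg : C.Gap T) (nr : Bool) :
    Cov G (T.l + 1) (anc o (T.r o (T.l + 1)) (T.st o (T.l + 1)) 12) o
      (C.T0 P o (T.st o (T.l + 1)) nr).tb fun q y => P.fac T o q (T.l + 1, y) := by
  refine (T.side o).cov le_rfl (by omega) (by omega) _ _ _ _ _ _ fun q y j hj => ?_
  obtain rfl : j = cw 8 (i0 o T y) := by unfold cw i0; omega
  have bl := ble_cw (wd := 8) (J := 12) (by omega) (by omega) (i := i0 o T y)
  unfold fac0 Spec.fac
  by_cases hx : 12 ≤ i0 o T y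
  · rw [if_neg fun h' => absurd ((T.free_iff o le_rfl 12 y).1 h') (not_lt.2 hx), bl.1 hx, cond_true]
    refine ind_le fun h' => ?_
    obtain ⟨e1, e2, -⟩ := at12 hx h'.2
    rw [e1, e2, Spec.ab, decide_eq_true h'.1]
    exact vv_NN.ge
  · rw [if_pos ((T.free_iff o le_rfl 12 y).2 (not_le.1 hx)), bl.2 hx, cond_false]
    refine vv_mono ((lk0 hg _ _ q (not_le.1 hx)).trans ?_)
    cases isL (T.st o (T.l + 1)) (cw 8 (i0 o T y))
    exacts [le_rfl, ((all1 h).2.2.2.2.2 q).2.1]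

theorem dead0 {X : Fn Q} (hX : P.ws = some o → ∀ q a x, 12 ≤ i0 o T x → X q a x = 0) (q : Q) (a : St)
    (x : ℤ) : P.fac T o q (T.l + 1, x) * C.sg0 P o T X q a x = 0 := by
  by_cases hx : 12 ≤ i0 o T x
  · have : ¬ (T.Hi (T.l + 1, x) ∨ T.Free o (T.l + 1, x)) := fun h' =>
      absurd ((T.free_iff o le_rfl 12 x).1 h') (not_lt.2 hx)
    by_cases hw : P.ws = some o
    · rw [sg0, hX hw q a x hx, Spec.fo, if_neg this, ind_of_not (not_not.2 hw)]; simp
    · rw [Spec.fac, if_neg this, ind_of_not fun h' => hw h'.1, zero_mul]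
  · rw [sg0, ind_of_not hx, zero_mul, mul_zero]

theorem sup0 (h : C.chk1 P o = true) (hg : C.Gap T)
    (h0 : C.chk0 P o (T.st o (T.l + 1)) = true) (nr : Bool) {X : Fn Q}
    (hX0 : P.ws = some o → ∀ q a x, 12 ≤ i0 o T x → X q a x = 0)
    (hX : ∀ q a x, i0 o T x < 12 → X q a x ≤ P.fo T o q (T.l + 1, x) * vv (C.dn0 P o
      (T.st o (T.l + 1)) nr q (tyb (Two G.A (T.l + 1) x)) (mir o a) (cw 8 (i0 o T x)))) :
    LineSup P.w.W ((C.sd P o T).line (T.l + 1))
      (fun q a x => C.W0 P o T nr q a x + C.sg0 P o T X q a x) fun q a x =>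
      (C.sd P o T).tb q a (T.l + 1, x) + P.fo T o q (T.l + 1, x) *
        (C.sd P o T).beta (T.l + 1) (C.V1 P o T false) q x + X q a x := by
  simp only [chk0, Bool.and_eq_true, Nat.ble_eq] at h0
  obtain ⟨⟨⟨⟨⟨⟨⟨a1, a2⟩, -⟩, -⟩, a5⟩, a6⟩, -⟩, -⟩ := h0
  obtain ⟨c1, -, c3, c4, -, c6⟩ := all1 h
  have bl := fun i => ble_cw (wd := 8) (J := 12) (by omega) (by omega) (i := i)
  have fr := T.free_iff o le_rfl 12
  have hfo : ∀ q y, P.fo T o q (T.l + 1, y) ≤
      vv (C.fo0 P o (T.st o (T.l + 1)) q (cw 8 (i0 o T y))) := fun q y => by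
    unfold fo0 Spec.fo
    by_cases hx : 12 ≤ i0 o T y
    · rw [if_neg fun h' => absurd ((fr y).1 h') (not_lt.2 hx), (bl _).1 hx, cond_true]
      refine ind_le fun h' => ?_
      rw [Spec.ab, decide_eq_false h']
      exact vv_NN.ge
    · rw [if_pos ((fr y).2 (not_le.1 hx)), (bl _).2 hx, cond_false]
      refine vv_mono ((lk0 hg _ _ q (not_le.1 hx)).trans ?_)
      cases isL (T.st o (T.l + 1)) (cw 8 (i0 o T y))
      exacts [le_rfl, (c6 q).2.2.1]
  refine (((C.sd P o T).lineSup_pull (k := P.w.k) rfl (cov0 h hg nr) hfo (by simp [NT.tb, T0, ltab])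
    (NT.chk_sound P.w _ (by cases nr; exacts [a2, a6]))).add
      (LineSup.dead _ _ (dead0 hX0))).src_mono fun q a x _ => ?_
  have etb : (C.sd P o T).tb q a (T.l + 1, x) = P.t0 T o q (T.l + 1, x) := by
    simp only [sd, Spec.side]; rw [ind_of_not (by omega), zero_mul, add_zero]
  rw [etb, Spec.t0, add_assoc]
  by_cases hx : 12 ≤ i0 o T x
  · rw [if_neg fun h' => absurd ((fr x).1 h') (not_lt.2 hx), sg0, ind_of hx, one_mul]
    refine add_le_add (ind_mul_le fun h' => le_of_eq ?_) le_rfl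
    obtain ⟨e1, e2, e3⟩ := at12 hx h'.2.1
    have e4 : P.no1 = false := Bool.eq_false_iff.2 fun e => h'.2.2 ⟨e, e3⟩
    rw [T0, src_eq _ _ _ _ _ _ (fun h => by unfold i0 at e1; omega) fun h => by unfold i0 at e1; omega]
    show _ = vv (C.srcT P o _ _ q _ _ (cw 8 (i0 o T x)))
    rw [srcT_eq, src0, e1, e2, e4, Spec.ab, decide_eq_true h'.1]; rfl
  have hx' := not_le.1 hx
  rw [if_pos ((fr x).2 hx')]
  refine le_add_right ?_
  have up : (C.sd P o T).beta (T.l + 1) (C.V1 P o T false) q x ≤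
      (C.T0 P o (T.st o (T.l + 1)) false).ext (C.up0 P o (T.st o (T.l + 1)) q) (i0 o T x) := by
    refine (T.side o).up_free le_rfl (cov1 h hg false) P.w c3 c4 le_rfl (by omega)
      (by simp [T0, ltab]) ?_ a5 hx' q
    have := hg.1
    rw [T.top, (idx_al _).1]
    split_ifs <;> simp <;> omega
  have up' := up.trans (NT.ext_le_cl _ _ (fun _ => a1) fun _ => a1)
  have lk := lk0 hg P.lt 0 q hx'
  have fo := hfo q x
  rw [fo0, (bl _).2 hx, cond_false] at fo
  cases e : isL (T.st o (T.l + 1)) (cw 8 (i0 o T x))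
  · rw [e, cond_false, Nat.le_zero] at lk
    rw [e, cond_false, vv_NN] at fo
    rw [lk, vv, vk_zero, zero_add]
    refine (add_le_add (mul_le_of_le_one_left' fo) ((hX q a x hx').trans
      (mul_le_of_le_one_left' fo))).trans ?_
    cases nr
    · rw [dn0, cond_false, vv, vk_zero, add_zero]
      refine up.trans (le_of_eq (NT.ext_congr _ ?_))
      show _ = C.src0 P o _ 0 q (cw 8 (i0 o T x))
      rw [src0, (bl _).2 hx, e]; rfl
    · rw [T0, cond_true, src_eq _ _ _ _ _ _ (fun _ => rfl) fun h => by unfold i0 at hx'; omega]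
      show _ ≤ vv (C.srcT P o _ _ q _ _ (cw 8 (i0 o T x)))
      rw [srcT_eq, src0, (bl _).2 hx, e, cond_false, cond_false]
      exact (add_le_add up' le_rfl).trans_eq (vk_add 1 _ _)
  · rw [e, cond_true] at lk fo
    have e1 : i0 o T x = 11 := by
      simp only [isL, Bool.and_eq_true, Nat.beq_eq, cw] at e; omega
    rw [T0, src_eq _ _ _ _ _ _ (fun h => by unfold i0 at e1; omega) fun h => by unfold i0 at e1; omega]
    show _ ≤ vv (C.srcT P o _ _ q _ _ (cw 8 (i0 o T x)))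
    rw [srcT_eq, src0, (bl _).2 hx, e, cond_false, cond_true]
    refine le_trans (add_le_add (vv_mono (lk.trans (c6 q).2.2.2)) ?_) (le_of_eq (vk_add 1 _ _))
    refine le_trans ?_ (le_rup1 _)
    rw [← vv_mul, vv, vv, ← vk_add, mul_add]
    exact add_le_add (mul_le_mul' fo up') ((hX q a x hx').trans (mul_le_mul' fo le_rfl))

theorem pay0 (h : C.chk1 P o = true) (hg : C.Gap T) (h0 : C.chk0 P o (T.st o (T.l + 1)) = true)
    {X : Fn Q} (hX0 : P.ws = some o → ∀ q a x, 12 ≤ i0 o T x → X q a x = 0) (q : Q) (x : ℤ) :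
    P.fac T o q (T.l + 1, x) * (C.W0 P o T true q .C0 x + C.sg0 P o T X q .C0 x) ≤
      ind (1 ≤ sg o * (T.z - x)) * vv (Spec.bf o (C.b1 o) (C.b2 o) T.z q x) := by
  simp only [chk0, Bool.and_eq_true, Nat.ble_eq] at h0
  obtain ⟨⟨⟨⟨⟨⟨⟨a1, -⟩, -⟩, -⟩, -⟩, -⟩, a7⟩, a8⟩ := h0
  have e := i0_eq (o := o) (T := T) x
  have := wof_le (T.st o (T.l + 1))
  rw [mul_add, dead0 hX0, add_zero]
  by_cases hx : 1 ≤ sg o * (T.z - x)
  · rw [ind_of hx, one_mul, Spec.bf]
    unfold i0 at e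
    split_ifs with e'
    · have : sg o * (T.z - x) = 1 := by rw [e']; cases o <;> simp [out, sg]
      refine sup_le (cov0 h hg true) a7 (fun _ => le_rfl) (fun _ => a1) ?_ ?_ q <;>
        simp only [NT.cl, T0, ltab] <;> omega
    · have : sg o * (T.z - x) ≠ 1 := fun h => e' (by cases o <;> simp only [out, sg] at h ⊢ <;> omega)
      refine sup_le (cov0 h hg true) a8 (fun _ => le_rfl) (fun _ => a1) ?_ ?_ q <;>
        simp only [NT.cl, T0, ltab] <;> omega
  · rw [Spec.fac, if_neg fun h' => absurd ((T.free_iff o le_rfl 12 x).1 h') (by unfold i0 at e; omega),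
      ind_of_not fun h' => hx (h'.2 rfl), zero_mul]
    exact zero_le

end TCert
end Pool.Agent.P.MP_e4ac67_pr.Gr
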