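import Pool.Agent.P.MP_e4ac67_pr.G.Kern
import Pool.Agent.P.MP_e4ac67_pr.G.Comp

/-! Passing from the table of one level to the sources of the neighbouring levels. -/

open scoped ENNReal

namespace Pool.Agent.P.MP_e4ac67_pr.Gr

def GG (m : ℕ) : ℕ := 5 * m / 2

theorem Grid.A_GG (G : Grid) (n : ℕ) (x : ℤ) (m : ℕ) : G.A n x + GG m ≤ G.A n (x + m) := by
  induction m using Nat.strong_induction_on with
  | _ m ih =>
  rcases m with _ | _ | m
  · simp [GG]
  · have := G.gap2 n (x + 1)
    simp only [GG, add_sub_cancel_right] at this ⊢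
    push_cast; omega
  · have h1 := ih m (by omega)
    have h2 := G.gap5 n (x + m + 1)
    rw [add_sub_cancel_right] at h2
    have : GG (m + 1 + 1) = GG m + 5 := by unfold GG; omega
    rw [this, show x + ((m + 1 + 1 : ℕ) : ℤ) = x + m + 1 + 1 by push_cast; ring]
    push_cast; omega

/-- first children move at least by `GG m` when the parent moves by `m` -/
theorem fst_GG (G : Grid) (n : ℕ) (α α' : ℤ) (o s t : Bool) (i : ℤ) (m : ℕ) :
    Bey s (idx α' o (G.fst n (pos α o i) t) + sg s * GG m)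
      (idx α' o (G.fst n (pos α o (i + sg s * m)) t)) := by
  have h1 := G.A_GG n (pos α o i) m
  have h2 := G.A_GG n (pos α o i - 1) m
  have h3 := G.A_GG n (pos α o i - m) m
  have h4 := G.A_GG n (pos α o i - 1 - m) m
  cases o <;> cases s <;> cases t <;> simp only [Bey, idx, pos, sg, Grid.fst] at * <;>
    ring_nf at * <;> omega

def off (s : Bool) (j d : ℕ) : ℕ := cond s (j + d) (j - d)

def dist (s : Bool) (j1 j : ℕ) : ℕ := cond s (j - j1) (j1 - j)

variable {Q : Type}

namespace NT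
variable (B : NT Q)

def edge (s : Bool) : ℕ := cond s (6 + B.w) 6

def rat (s : Bool) : ℕ := cond s B.rr B.rl

theorem ext_bey (f : ℕ → ℕ) {s : Bool} {i : ℤ} (h : Bey s (B.edge s) i) (k : ℕ) :
    B.ext f (i + sg s * k) = vv (B.rat s) ^ k * B.ext f i := by
  induction k with
  | zero => simp
  | succ k ih =>
    rw [pow_succ', mul_assoc, ← ih]
    cases s <;> simp only [Bey, edge, sg, cond_true, cond_false, rat] at h ⊢
    · rw [← B.ext_left _ (by push_cast at h; omega)]; congr 1; push_cast; ring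
    · rw [← B.ext_right _ (by push_cast at h; omega)]; congr 1; push_cast; ring

/-- the envelope `M` of the upper table `B'` is dominated by `f` on the lower table `B` -/
def chkUp [NQ Q] (B' B : NT Q) (s : Bool) (jt j1 : ℕ) (f : Q → ℕ → ℕ) : Bool :=
  Nat.ble 6 j1 && Nat.ble j1 (6 + B.w) && Nat.ble (B'.rat s) (B.rat s) &&
    beyN s (B'.edge s) (off s jt (GG (dist s j1 (B.edge s)))) &&
    allR (fun j => !beyN s j1 (j + 6) ||
      allQ fun q => Nat.ble (B'.uM q s (off s jt (GG (dist s j1 (j + 6))))) (f q (j + 6))) (B.w + 1)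

end NT

theorem beyN_iff {s : Bool} {a b : ℕ} : NT.beyN s a b = true ↔ Bey s a b := by
  cases s <;> simp only [NT.beyN, Bey, sg, cond_true, cond_false, Nat.ble_eq] <;> omega

theorem Bey.trans {s : Bool} {a b c : ℤ} (h : Bey s a b) (h' : Bey s b c) : Bey s a c := by
  cases s <;> simp only [Bey, sg] at * <;> omega

variable [Fintype Q]

theorem up_all [NQ Q] {G : Grid} {n : ℕ} {α α' : ℤ} {o : Bool} {B' B : NT Q} {fc : Q → ℤ → ℝ≥0∞}
    (hc : Cov G (n + 1) α' o B'.tb fc) (w : NW Q) {s : Bool} {jS jt j1 : ℕ} {f : Q → ℕ → ℕ}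
    (hS : B'.chkS s jS = true) (hM : B'.chkM w s jS = true) (hj : Bey s jS jt)
    (h : B'.chkUp B s jt j1 f = true)
    (hg : Bey s jt (idx α' o (G.fst n (pos α o j1) (sd o s)))) {i : ℤ} (hi : Bey s j1 i)
    (q : Q) : upS G w.W fc n (pos α o i) (pull G (n + 1) α' o B'.tb.T) q ≤ B.ext (f q) i := by
  simp only [NT.chkUp, Bool.and_eq_true, Nat.ble_eq, beyN_iff] at h
  obtain ⟨⟨⟨⟨h1, h2⟩, h3⟩, h4⟩, h5⟩ := h
  have key : ∀ j : ℤ, Bey s jS j → Bey s j (idx α' o (G.fst n (pos α o i) (sd o s))) →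
      upS G w.W fc n (pos α o i) (pull G (n + 1) α' o B'.tb.T) q ≤
        B'.ext (B'.raw q (cond s 18 17)) j := by
    intro j hj1 hj2
    have := upS_le_M hc w.W (pos α o i) (sd o s) (j := j)
    rw [sd_sd] at this
    exact this (fun i hi => B'.chkS_sound hS (hj1.trans hi))
      (fun i hi => B'.chkM_sound w hM (hj1.trans hi)) hj2 q
  obtain ⟨m, rfl⟩ : ∃ m : ℕ, i = j1 + sg s * m :=
    ⟨(sg s * (i - j1)).toNat, by cases s <;> simp only [Bey, sg] at hi ⊢ <;> omega⟩
  have hm := fst_GG G n α α' o s (sd o s) j1 m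
  have win : ∀ j : ℕ, 6 ≤ j → j ≤ 6 + B.w → Bey s j1 j →
      B'.ext (B'.raw q (cond s 18 17)) (off s jt (GG (dist s j1 j)) : ℕ) ≤ B.ext (f q) j := by
    intro j a b c
    have := allR_spec h5 (j := j - 6) (by omega)
    rw [show j - 6 + 6 = j by omega, beyN_iff.2 c, Bool.not_true, Bool.false_or] at this
    rw [B.ext_in _ a b]
    exact (B'.ext_le _ _).trans (vv_mono (Nat.ble_eq ▸ allQ_spec this q))
  by_cases hin : m ≤ dist s j1 (B.edge s)
  · have e : (j1 : ℤ) + sg s * m = (off s j1 m : ℕ) := by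
      cases s <;> simp only [off, dist, NT.edge, sg, cond_true, cond_false] at hin ⊢ <;> omega
    have e2 : dist s j1 (off s j1 m) = m := by
      cases s <;> simp only [off, dist, NT.edge, cond_true, cond_false] at hin ⊢ <;> omega
    refine (key (off s jt (GG m) : ℕ) ?_ ?_).trans ?_
    · cases s <;> simp only [off, Bey, sg, cond_true, cond_false] at hj ⊢ <;> omega
    · cases s <;> simp only [off, Bey, sg, cond_true, cond_false] at hm hg ⊢ <;> omega
    · have := win (off s j1 m) ?_ ?_ (e ▸ hi)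
      · rwa [e2, ← e] at this
      all_goals cases s <;> simp only [off, dist, NT.edge, cond_true, cond_false] at hin ⊢ <;> omega
  · obtain ⟨k, rfl⟩ : ∃ k, m = dist s j1 (B.edge s) + k := ⟨m - dist s j1 (B.edge s), by omega⟩
    have e : (j1 : ℤ) + sg s * (dist s j1 (B.edge s) + k : ℕ) = B.edge s + sg s * k := by
      cases s <;> simp only [dist, NT.edge, sg, cond_true, cond_false] <;> omega
    have hG : GG (dist s j1 (B.edge s)) + k ≤ GG (dist s j1 (B.edge s) + k) := by unfold GG; omega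
    refine (key ((off s jt (GG (dist s j1 (B.edge s))) : ℕ) + sg s * k) ?_ ?_).trans ?_
    · cases s <;> simp only [off, Bey, sg, cond_true, cond_false] at hj ⊢ <;> omega
    · cases s <;> simp only [off, Bey, sg, cond_true, cond_false] at hm hg ⊢ <;> omega
    · rw [e, B'.ext_bey _ h4, B.ext_bey _ (by simp [Bey])]
      refine mul_le_mul' (pow_le_pow_left' (vv_mono h3) k) (win _ ?_ ?_ ?_) <;>
        cases s <;> simp only [NT.edge, Bey, sg, cond_true, cond_false] <;> omega

/-- numerical bound for the children on both sides of the position `j` -/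
def NT.wsN [NQ Q] (B : NT Q) (w : NW Q) (q : Q) (s : Bool) (j : ℕ) : ℕ :=
  sumQ fun r => w.wu q r * B.uS r s j

theorem NT.ws_le [NQ Q] (B : NT Q) (w : NW Q) (q : Q) (s : Bool) (j : ℕ) :
    ∑ r, w.W.wu q r * B.tb.S r s j ≤ vk 2 (B.wsN w q s j) := by
  rw [NT.wsN, vk_sumQ]
  refine Finset.sum_le_sum fun r _ => ?_
  rw [← vk_mul 1 1]
  exact mul_le_mul' le_rfl (B.ext_le _ _)

theorem LOp_mono (W : Wt Q) (L : Ln Q) {Φ Ψ : Q → St → ℤ → ℝ≥0∞}
    (h : ∀ r a x, L.fac r x * Φ r a x ≤ L.fac r x * Ψ r a x) (q : Q) (a : St) (x : ℤ) :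
    LOp W L Φ q a x ≤ LOp W L Ψ q a x :=
  Finset.sum_le_sum fun _ _ => Finset.sum_le_sum fun _ _ => add_le_add
    (mul_le_mul' le_rfl (h ..)) (ENNReal.tsum_le_tsum fun _ => mul_le_mul' le_rfl (h ..))

theorem upS_mono (G : Grid) (W : Wt Q) (f : Q → ℤ → ℝ≥0∞) (n : ℕ) (x : ℤ)
    {Φ Ψ : Q → St → ℤ → ℝ≥0∞} (h : ∀ r a y, f r y * Φ r a y ≤ f r y * Ψ r a y) (q : Q) :
    upS G W f n x Φ q ≤ upS G W f n x Ψ q :=
  ENNReal.tsum_le_tsum fun _ => Finset.sum_le_sum fun _ _ => mul_le_mul' le_rfl (h ..)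

/-- a function supported where no path can land -/
theorem LineSup.dead (W : Wt Q) (L : Ln Q) {σ : Q → St → ℤ → ℝ≥0∞}
    (h : ∀ r a x, L.fac r x * σ r a x = 0) : LineSup W L σ σ := by
  intro q a x _
  have : LOp W L σ q a x ≤ LOp W L (fun _ _ _ => 0) q a x :=
    LOp_mono W L (fun r a x => by rw [h, mul_zero]) q a x
  have e : LOp W L (fun _ _ _ => 0) q a x = 0 := by simp [LOp]
  rw [e] at this
  rw [le_zero_iff.1 this, mul_zero, add_zero]

/-- the problem in which only the points of `A` are active -/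
noncomputable def Sys.only (S : Sys Q) (A : Pt → Prop) : Sys Q :=
  { S with fo := fun q v => ind (A v) * S.fo q v }

/-- gluing two supersolutions -/
theorem Sys.patch (S : Sys Q) (n : ℕ) (A : Pt → Prop) [DecidablePred A]
    {Φ Ψ s t : Q → St → ℤ → ℝ≥0∞} (h1 : LineSup S.W ((S.only A).line n) Φ s)
    (h2 : LineSup S.W ((S.only fun v => ¬A v).line n) Ψ t)
    (h3 : ∀ q a x, A (n, x) → Φ q a x ≤ Ψ q a x) (h4 : ∀ q a x, ¬A (n, x) → Ψ q a x ≤ Φ q a x) :
    LineSup S.W (S.line n) (fun q a x => if A (n, x) then Φ q a x else Ψ q a x)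
      fun q a x => if A (n, x) then s q a x else t q a x := by
  intro q a x hok
  by_cases hA : A (n, x)
  · have := h1 q a x hok
    simp only [Sys.only, Sys.line, ind_of hA, one_mul, if_pos hA] at this ⊢
    refine le_trans (add_le_add le_rfl (mul_le_mul' le_rfl (LOp_mono _ _ (fun r a y =>
      mul_le_mul' le_rfl ?_) q a x))) this
    split_ifs with h
    exacts [le_rfl, h4 _ _ _ h]
  · have := h2 q a x hok
    simp only [Sys.only, Sys.line, ind_of hA, one_mul, if_neg hA] at this ⊢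
    refine le_trans (add_le_add le_rfl (mul_le_mul' le_rfl (LOp_mono _ _ (fun r a y =>
      mul_le_mul' le_rfl ?_) q a x))) this
    split_ifs with h
    exacts [h3 _ _ _ h, le_rfl]

/-- the steps down from a vertex, bounded parent by parent -/
theorem down_le' (G : Grid) (W : Wt Q) (n : ℕ) (g : ℤ → Q → ℝ≥0∞) (q : Q) (a : St) (y : ℤ)
    (c : Option Bool → ℝ≥0∞)
    (hc : ∀ x, G.Ch n x y → ∑ r, dsrc G W n x r q a y * g x r ≤ c (G.kd n x y)) :
    ∑' i : ℤ × Q, dsrc G W n i.1 i.2 q a y * g i.1 i.2 ≤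
      cond (tyb (Two G.A (n + 1) y)) (c (some false) + c (some true)) (c none) := by
  have e : cond (tyb (Two G.A (n + 1) y)) (c (some false) + c (some true)) (c none) =
      ∑' k : Option Bool, ind (k.isSome ↔ Two G.A (n + 1) y) * c k := by
    rw [tsum_fintype, Fintype.sum_option, Fintype.sum_bool]
    by_cases h : Two G.A (n + 1) y
    · rw [tyb_true.2 h]; simp [ind, h, add_comm]
    · rw [tyb_false.2 h]; simp [ind, h]
  rw [ENNReal.tsum_prod', e]
  have key : ∀ x, ∑' r, dsrc G W n x r q a y * g x r ≠ 0 → G.Ch n x y := fun x hx => by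
    by_contra h
    exact hx (ENNReal.tsum_eq_zero.2 fun r => by
      rw [dsrc, ind_of_not fun h' => h h'.1, zero_mul, zero_mul])
  refine tsum_le_of_enc _ _ (fun x => G.kd n x y) (fun x x' h h' e =>
    G.kd_inj (key x h) (key x' h') e) fun x hx => ?_
  have h := key x hx
  rw [ind_of, one_mul, tsum_fintype]
  · exact hc x h
  · rcases hk : G.kd n x y with _ | s
    · obtain ⟨a, b⟩ := G.kd_none h hk
      simpa using G.not_two a b
    · simpa using (G.kd_some hk).symm ▸ G.two_fst n x s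

end Pool.Agent.P.MP_e4ac67_pr.Gr
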