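import Pool.Agent.P.MP_e4ac67_pr.G.Line

/-! Vectors of numbers packed into one number. -/

namespace Pool.Agent.P.MP_e4ac67_pr.Gr
namespace Vec

@[irreducible] def WW : ℕ := 512

theorem one_lt : 1 < 2 ^ WW := Nat.one_lt_two_pow (by unfold WW; omega)

/-- digit number `i` -/
def dg (N i : ℕ) : ℕ := N / 2 ^ (WW * i) % 2 ^ WW

def pk (v : ℕ → ℕ) (n : ℕ) : ℕ :=
  Nat.rec 0 (fun n ih => Nat.add ih (Nat.shiftLeft (v n) (Nat.mul WW n))) n

def ones : ℕ := Nat.sub (Nat.pow 2 WW) 1

def grd : ℕ := Nat.pow 2 (Nat.sub WW 1)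

def sh (X : ℕ) (s : Bool) (d : ℕ) : ℕ :=
  Bool.rec (Nat.shiftLeft X (Nat.mul WW d)) (Nat.shiftRight X (Nat.mul WW d)) s

def rp (b n : ℕ) : ℕ := Nat.rec 0 (fun _ ih => 1 + b * ih) n

def M9 : ℕ := rp (2 ^ 464) 9

def K9 : ℕ := pk (fun _ => 281474976710655) 9

def m9 : ℕ := Nat.pow 2 432 - 1

def sp9 (P : ℕ) : ℕ := Nat.land (Nat.mul (Nat.land P m9) M9) K9

/-- from `48` bits per entry to one entry per digit -/
def spr (P : ℕ) : ℕ := Nat.add (sp9 P) (sh (sp9 (Nat.shiftRight P 432)) false 9)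

theorem dg_zero (N : ℕ) : dg N 0 = N % 2 ^ WW := by simp [dg]

theorem dg_succ (N i : ℕ) : dg N (i + 1) = dg (N / 2 ^ WW) i := by
  rw [dg, dg, Nat.div_div_eq_div_mul, ← pow_add, mul_add, mul_one, add_comm]

theorem dg_lt (N i : ℕ) : dg N i < 2 ^ WW := Nat.mod_lt _ (by positivity)

theorem dg_add (i : ℕ) : ∀ {N M : ℕ}, (∀ i, dg N i + dg M i < 2 ^ WW) →
    dg (N + M) i = dg N i + dg M i := by
  induction i with
  | zero =>
    intro N M h
    have := h 0
    simp only [dg_zero] at this ⊢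
    rw [Nat.add_mod, Nat.mod_eq_of_lt this]
  | succ i ih =>
    intro N M h
    have := h 0
    simp only [dg_zero] at this
    rw [dg_succ, dg_succ, dg_succ, Nat.add_div_eq_of_add_mod_lt this]
    exact ih fun i => by simpa only [dg_succ] using h (i + 1)

theorem dg_mul (c i : ℕ) : ∀ {N : ℕ}, (∀ i, c * dg N i < 2 ^ WW) → dg (c * N) i = c * dg N i := by
  have key : ∀ N, c * N = 2 ^ WW * (c * (N / 2 ^ WW)) + c * (N % 2 ^ WW) := fun N => by
    conv_lhs => rw [← Nat.div_add_mod N (2 ^ WW)]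
    ring
  induction i with
  | zero =>
    intro N h
    have := h 0
    simp only [dg_zero] at this ⊢
    rw [key, Nat.mul_add_mod, Nat.mod_eq_of_lt this]
  | succ i ih =>
    intro N h
    have := h 0
    simp only [dg_zero] at this
    rw [dg_succ, dg_succ, key, Nat.mul_add_div (by positivity), Nat.div_eq_of_lt this, add_zero]
    exact ih fun i => by simpa only [dg_succ] using h (i + 1)

theorem le_of_dg (M : ℕ) : ∀ {N : ℕ}, (∀ i, dg M i ≤ dg N i) → M ≤ N := by
  induction M using Nat.strong_induction_on with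
  | _ M ih =>
  intro N h
  rcases Nat.eq_zero_or_pos M with rfl | h0
  · exact Nat.zero_le _
  have h1 := ih _ (Nat.div_lt_self h0 one_lt) (N := N / 2 ^ WW) fun i => by
    simpa only [dg_succ] using h (i + 1)
  have h2 := h 0
  simp only [dg_zero] at h2
  rw [← Nat.div_add_mod M (2 ^ WW), ← Nat.div_add_mod N (2 ^ WW)]
  gcongr

theorem dg_sub (i : ℕ) : ∀ {N M : ℕ}, (∀ i, dg M i ≤ dg N i) →
    dg (N - M) i = dg N i - dg M i := by
  have key : ∀ N M, (∀ i, dg M i ≤ dg N i) → N - M = 2 ^ WW * (N / 2 ^ WW - M / 2 ^ WW) +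
      (N % 2 ^ WW - M % 2 ^ WW) := fun N M h => by
    have h1 : M / 2 ^ WW ≤ N / 2 ^ WW := Nat.div_le_div_right (le_of_dg M h)
    have h2 := h 0
    simp only [dg_zero] at h2
    have a := Nat.div_add_mod N (2 ^ WW)
    have b := Nat.div_add_mod M (2 ^ WW)
    have c := Nat.mul_le_mul_left (2 ^ WW) h1
    rw [Nat.mul_sub]
    omega
  have lt : ∀ N M, N % 2 ^ WW - M < 2 ^ WW := fun N M =>
    (Nat.sub_le _ _).trans_lt (Nat.mod_lt _ (by positivity))
  induction i with
  | zero =>
    intro N M h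
    simp only [dg_zero]
    rw [key N M h, Nat.mul_add_mod, Nat.mod_eq_of_lt (lt _ _)]
  | succ i ih =>
    intro N M h
    rw [dg_succ, dg_succ, dg_succ, key N M h, Nat.mul_add_div (by positivity),
      Nat.div_eq_of_lt (lt _ _), add_zero]
    exact ih fun i => by simpa only [dg_succ] using h (i + 1)

theorem dg_land (N M i : ℕ) : dg (Nat.land N M) i = dg N i &&& dg M i := by
  show dg (N &&& M) i = _
  rw [dg, dg, dg, Nat.and_div_two_pow, Nat.and_mod_two_pow]

theorem dg_shr (N d i : ℕ) : dg (Nat.shiftRight N (Nat.mul WW d)) i = dg N (i + d) := by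
  show dg (N >>> (WW * d)) i = _
  rw [dg, dg, Nat.shiftRight_eq_div_pow, Nat.div_div_eq_div_mul, ← pow_add, mul_add, add_comm]

theorem dg_shl (N d i : ℕ) :
    dg (Nat.shiftLeft N (Nat.mul WW d)) i = if i < d then 0 else dg N (i - d) := by
  show dg (N <<< (WW * d)) i = _
  rw [dg, Nat.shiftLeft_eq]
  split_ifs with h
  · obtain ⟨k, rfl⟩ := Nat.exists_eq_add_of_lt h
    rw [show WW * (i + k + 1) = WW * k + WW + WW * i by ring, pow_add, ← mul_assoc,
      Nat.mul_div_cancel _ (by positivity), pow_add, ← mul_assoc, Nat.mul_mod_left]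
  · obtain ⟨k, rfl⟩ := Nat.exists_eq_add_of_le (not_lt.1 h)
    rw [Nat.add_sub_cancel_left, mul_add, pow_add, mul_comm N,
      Nat.mul_div_mul_left _ _ (by positivity), dg]

theorem dg_small {a : ℕ} (h : a < 2 ^ WW) (i : ℕ) : dg a i = if i = 0 then a else 0 := by
  cases i with
  | zero => simp [dg_zero, Nat.mod_eq_of_lt h]
  | succ i => rw [dg_succ, Nat.div_eq_of_lt h]; simp [dg]

theorem dg_pk {v : ℕ → ℕ} (n : ℕ) (h : ∀ i < n, v i < 2 ^ WW) (i : ℕ) :
    dg (pk v n) i = if i < n then v i else 0 := by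
  induction n generalizing i with
  | zero => simp [pk, dg]
  | succ n ih =>
    have ih := ih fun i hi => h i (by omega)
    have h1 := h n (by omega)
    have e : ∀ i, dg (pk v n) i + dg (Nat.shiftLeft (v n) (Nat.mul WW n)) i =
        if i < n + 1 then v i else 0 := fun i => by
      rw [ih, dg_shl, dg_small h1]
      rcases lt_trichotomy i n with c | rfl | c
      · simp [c, c.le]
      · simp
      · simp [c.le, c.not_ge, Nat.sub_ne_zero_of_lt c]
    rw [← e]
    refine dg_add (N := pk v n) (M := Nat.shiftLeft (v n) (Nat.mul WW n)) i fun i => ?_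
    rw [e]
    split_ifs with c
    exacts [h i c, by positivity]

theorem sh_false (a d : ℕ) : sh a false d = a * 2 ^ (WW * d) := Nat.shiftLeft_eq _ _

theorem pk_sum (v : ℕ → ℕ) (n : ℕ) : pk v n = ∑ j ∈ Finset.range n, v j * 2 ^ (WW * j) := by
  induction n with
  | zero => rfl
  | succ n ih => rw [Finset.sum_range_succ, ← ih, ← sh_false]; rfl

theorem lt_WW {a b : ℕ} (h : a ≤ 2 ^ b) (hb : b < 511) : a < grd :=
  h.trans_lt (Nat.pow_lt_pow_right (by omega) (by unfold WW; exact hb))

theorem eq_of_dg {M N : ℕ} (h : ∀ i, dg M i = dg N i) : M = N :=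
  le_antisymm (le_of_dg _ fun i => (h i).le) (le_of_dg _ fun i => (h i).ge)

theorem rp_dig {b P : ℕ} (h : P < b) (i : ℕ) : ∀ n, i < n → P * rp b n / b ^ i % b = P := by
  induction i with
  | zero =>
    rintro (_ | n) hn
    · omega
    · show P * (1 + b * rp b n) / _ % b = P
      rw [pow_zero, Nat.div_one, mul_add, mul_one, mul_left_comm, Nat.add_mul_mod_self_left,
        Nat.mod_eq_of_lt h]
  | succ i ih =>
    rintro (_ | n) hn
    · omega
    · show P * (1 + b * rp b n) / _ % b = P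
      rw [pow_succ', ← Nat.div_div_eq_div_mul, mul_add, mul_one, mul_left_comm,
        Nat.add_mul_div_left _ _ (by omega), Nat.div_eq_of_lt h, zero_add, ih n (by omega)]

theorem dg_sp9 (P i : ℕ) : dg (sp9 P) i = if i < 9 then P / 2 ^ (48 * i) % 2 ^ 48 else 0 := by
  rw [sp9, dg_land, K9, dg_pk _ fun _ _ => by decide +kernel]
  split_ifs with h
  · have e : ∀ a b c : ℕ, a = 432 → b = 464 → c = 512 →
        (P % 2 ^ a * rp (2 ^ b) 9 / 2 ^ (c * i) % 2 ^ c) % 2 ^ 48 = P / 2 ^ (48 * i) % 2 ^ 48 := by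
      intro a b c ha hb hc
      have := rp_dig (b := 2 ^ b) (P := P % 2 ^ a) ((Nat.mod_lt _ (by positivity)).trans_le
        (Nat.pow_le_pow_right (by omega) (by omega))) i 9 h
      rw [← pow_mul] at this
      refine Nat.eq_of_testBit_eq fun k => ?_
      have := congrArg (Nat.testBit · (k + 48 * i)) this
      simp only [Nat.testBit_mod_two_pow, Nat.testBit_div_two_pow] at this ⊢
      by_cases hk : k < 48
      · rw [decide_eq_true (show k + 48 * i < b by omega),
          decide_eq_true (show k + 48 * i < a by omega), Bool.true_and, Bool.true_and] at this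
        rw [decide_eq_true (show k < c by omega), Bool.true_and, ← this]
        congr 2
        subst hb hc; ring
      · simp [hk]
    rw [← e 432 464 WW rfl rfl (by decide +kernel), ← Nat.and_two_pow_sub_one_eq_mod,
      ← Nat.and_two_pow_sub_one_eq_mod P]
    rfl
  · exact Nat.and_zero _

theorem dg_spr (P i : ℕ) (h : i < 18) : dg (spr P) i = P / 2 ^ (48 * i) % 2 ^ 48 := by
  have e : ∀ i, dg (sp9 P) i + dg (sh (sp9 (Nat.shiftRight P 432)) false 9) i =
      if i < 18 then P / 2 ^ (48 * i) % 2 ^ 48 else 0 := fun i => by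
    rw [dg_sp9, sh, dg_shl, dg_sp9]
    split_ifs <;> try omega
    obtain ⟨k, rfl⟩ := Nat.exists_eq_add_of_le (show 9 ≤ i by omega)
    have e : ∀ a, a = 432 → P >>> a / 2 ^ (48 * k) = P / 2 ^ (48 * (9 + k)) := fun a ha => by
      rw [Nat.shiftRight_eq_div_pow, Nat.div_div_eq_div_mul, ← pow_add]
      congr 2; omega
    rw [zero_add, Nat.add_sub_cancel_left, ← e 432 rfl]
    rfl
  refine (dg_add i fun i => ?_).trans ((e i).trans (if_pos h))
  rw [e]
  split_ifs
  · exact (Nat.mod_lt _ (by positivity)).trans (by decide +kernel)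
  · positivity

theorem and_ones {a : ℕ} (h : a < 2 ^ WW) : a &&& ones = a := by
  show a &&& (2 ^ WW - 1) = a
  rw [Nat.and_two_pow_sub_one_eq_mod, Nat.mod_eq_of_lt h]

theorem two_grd : grd + grd = 2 ^ WW := by decide +kernel

theorem lt_grd {a : ℕ} (h : a < 2 ^ WW) (h' : a &&& grd = 0) : a < grd := by
  refine Nat.lt_pow_two_of_testBit a fun i hi => ?_
  rcases hi.eq_or_lt with rfl | hi
  · have := congrArg (fun x => Nat.testBit x (WW - 1)) h'
    simpa [grd] using this
  · exact Nat.testBit_lt_two_pow (h.trans_le (Nat.pow_le_pow_right (by omega) (by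
      simp only [Nat.sub_eq] at hi; omega)))

/-- digitwise comparison at the positions marked in `m` -/
theorem cmp {S T m n j b c : ℕ} (hS : ∀ i, dg S i ≤ b) (hT : ∀ i, dg T i ≤ c)
    (h0 : ∀ i, n ≤ i → dg T i = 0) (hb : b < grd ∧ c < grd) (hj : j < n) (hm : dg m j = grd)
    (h : Nat.land (S + (pk (fun _ => Nat.sub grd 1) n - T)) m = 0) : dg S j ≤ dg T j := by
  have g := two_grd
  have e1 := dg_pk (v := fun _ => Nat.sub grd 1) n fun _ _ => by simp only [Nat.sub_eq]; omega
  simp only [Nat.sub_eq] at e1 h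
  have e2 := fun i => dg_sub i (N := pk (fun _ => grd - 1) n) (M := T) fun i => by
    have := hT i
    have := h0 i
    rw [e1]; split_ifs <;> omega
  have e3 := dg_add j (N := S) (M := pk (fun _ => grd - 1) n - T) fun i => by
    have := hS i
    rw [e2, e1]; split_ifs <;> omega
  have e4 := congrArg (dg · j) h
  simp only [dg_land, hm] at e4
  have e5 := lt_grd (dg_lt _ _) (e4.trans (by simp [dg]))
  have := hT j
  rw [e3, e2, e1, if_pos hj] at e5
  omega

end Vec
end Pool.Agent.P.MP_e4ac67_pr.Gr
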